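import Pool.Agent.Lib.TPC.Path

/-! Basic geometry of the lattice and of the torus. -/

open Finset

set_option linter.unusedSectionVars false

namespace Pool.Agent.TPC

open Pool.Agent.Lib.MP_81a99a_pr (lattice torus cluster kthLargest pc MeanField)

variable {d n : ℕ}

/-! ### the kernel -/

lemma kk_pos (a : ℝ) {r : ℝ} (hr : 0 ≤ r) : 0 < kk a r := Real.rpow_pos_of_pos (by linarith) _

lemma kk_nonneg (a : ℝ) {r : ℝ} (hr : 0 ≤ r) : 0 ≤ kk a r := (kk_pos a hr).le

lemma kk_zero (a : ℝ) : kk a 0 = 1 := by simp [kk]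

lemma kk_zero_left (r : ℝ) : kk 0 r = 1 := by simp [kk]

lemma kk_anti {a r s : ℝ} (ha : 0 ≤ a) (hr : 0 ≤ r) (h : r ≤ s) : kk a s ≤ kk a r :=
  Real.rpow_le_rpow_of_nonpos (by linarith) (by linarith) (by linarith)

lemma kk_mono {a r s : ℝ} (ha : a ≤ 0) (hr : 0 ≤ r) (h : r ≤ s) : kk a r ≤ kk a s :=
  Real.rpow_le_rpow (by linarith) (by linarith) (by linarith)

lemma kk_anti_exp {a b r : ℝ} (hr : 0 ≤ r) (h : a ≤ b) : kk b r ≤ kk a r :=
  Real.rpow_le_rpow_of_exponent_le (by linarith) (by linarith)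

lemma kk_le_one {a r : ℝ} (ha : 0 ≤ a) (hr : 0 ≤ r) : kk a r ≤ 1 := by
  have := kk_anti_exp hr ha
  rwa [kk_zero_left] at this

lemma kk_mul (a b : ℝ) {r : ℝ} (hr : 0 ≤ r) : kk a r * kk b r = kk (a + b) r := by
  unfold kk
  rw [← Real.rpow_add (by linarith), neg_add]

lemma kk_neg_one (r : ℝ) : kk (-1) r = 1 + r := by simp [kk]

lemma kk_neg_two (r : ℝ) : kk (-2) r = (1 + r) ^ 2 := by simp [kk]

lemma kk_nat (k : ℕ) {r : ℝ} (hr : 0 ≤ r) : kk k r = 1 / (1 + r) ^ k := by
  unfold kk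
  rw [Real.rpow_neg (by linarith), Real.rpow_natCast, one_div]

lemma kk_neg_nat (k : ℕ) (r : ℝ) : kk (-(k : ℝ)) r = (1 + r) ^ k := by
  unfold kk
  rw [neg_neg, Real.rpow_natCast]

/-- comparison of the kernel at comparable distances -/
lemma kk_le_mul {a r s K : ℝ} (ha : 0 ≤ a) (hr : 0 ≤ r) (hs : 0 ≤ s) (h : 1 + r ≤ K * (1 + s)) :
    kk a s ≤ K ^ a * kk a r := by
  have hK : 0 < K := by
    by_contra hK
    nlinarith
  have h1 : (K * (1 + s)) ^ (-a) ≤ (1 + r) ^ (-a) :=
    Real.rpow_le_rpow_of_nonpos (by linarith) h (by linarith)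
  rw [Real.mul_rpow hK.le (by linarith), Real.rpow_neg hK.le,
    inv_mul_le_iff₀ (Real.rpow_pos_of_pos hK _)] at h1
  exact h1

lemma kk_div {a r K : ℝ} (ha : 0 ≤ a) (hr : 0 ≤ r) (hK : 1 ≤ K) :
    kk a (r / K) ≤ K ^ a * kk a r := by
  refine kk_le_mul ha hr (by positivity) ?_
  rw [mul_add, mul_one, mul_div_cancel₀ _ (by linarith)]
  linarith

lemma kk_half {a r : ℝ} (ha : 0 ≤ a) (hr : 0 ≤ r) : kk a (r / 2) ≤ 2 ^ a * kk a r :=
  kk_div ha hr (by norm_num)

lemma kk_le_rpow {a r : ℝ} (ha : 0 ≤ a) (hr : 0 < r) : kk a r ≤ r ^ (-a) :=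
  Real.rpow_le_rpow_of_nonpos hr (by linarith) (by linarith)

lemma rpow_le_kk {a r : ℝ} (ha : 0 ≤ a) (hr : 1 ≤ r) : r ^ (-a) ≤ 2 ^ a * kk a r := by
  have := kk_le_mul (s := r - 1) (K := 2) ha (by linarith : 0 ≤ r) (by linarith) (by linarith)
  have e : kk a (r - 1) = r ^ (-a) := by unfold kk; ring_nf
  rwa [e] at this

/-! ### adjacency -/

lemma single_ne_zero (i : Fin d) : (Pi.single i 1 : Zd d) ≠ 0 := fun h => by
  simpa using congrFun h i

lemma lattice_adj {x y : Zd d} : (lattice d).Adj x y ↔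
    ∃ i, y = x + Pi.single i 1 ∨ y = x - Pi.single i 1 := by
  rw [lattice, SimpleGraph.fromRel_adj]
  constructor
  · rintro ⟨-, ⟨i, h⟩ | ⟨i, h⟩⟩
    · exact ⟨i, Or.inl h⟩
    · exact ⟨i, Or.inr (by rw [h]; simp)⟩
  · rintro ⟨i, h | h⟩
    · refine ⟨fun e => single_ne_zero i ?_, Or.inl ⟨i, h⟩⟩
      rw [← e] at h; simpa using h
    · refine ⟨fun e => single_ne_zero i ?_, Or.inr ⟨i, by rw [h]; simp⟩⟩
      rw [← e] at h; simpa using h.symm

/-- coordinate form of adjacency -/
lemma lattice_adj' {x y : Zd d} : (lattice d).Adj x y ↔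
    ∃ i, (y i = x i + 1 ∨ y i = x i - 1) ∧ ∀ j, j ≠ i → y j = x j := by
  rw [lattice_adj]
  refine exists_congr fun i => ⟨?_, ?_⟩
  · rintro (rfl | rfl)
    · exact ⟨Or.inl (by simp), fun j hj => by simp [hj]⟩
    · exact ⟨Or.inr (by simp), fun j hj => by simp [hj]⟩
  · rintro ⟨h | h, h2⟩
    · refine Or.inl (funext fun j => ?_)
      by_cases hj : j = i
      · subst hj; simp [h]
      · simp [hj, h2 j hj]
    · refine Or.inr (funext fun j => ?_)
      by_cases hj : j = i
      · subst hj; simp [h]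
      · simp [hj, h2 j hj]

lemma lattice_adj_add (x : Zd d) (i : Fin d) : (lattice d).Adj x (x + Pi.single i 1) :=
  lattice_adj.2 ⟨i, Or.inl rfl⟩

lemma lattice_adj_sub (x : Zd d) (i : Fin d) : (lattice d).Adj x (x - Pi.single i 1) :=
  lattice_adj.2 ⟨i, Or.inr rfl⟩

lemma adj_coord {x y : Zd d} (h : (lattice d).Adj x y) (j : Fin d) :
    y j ≤ x j + 1 ∧ x j ≤ y j + 1 := by
  obtain ⟨i, h1, h2⟩ := lattice_adj'.1 h
  by_cases hj : j = i
  · subst hj; omega
  · have := h2 j hj; omega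

lemma torus_adj {x y : Tor d n} : (torus d n).Adj x y ↔
    x ≠ y ∧ ∃ i, y = x + Pi.single i 1 ∨ y = x - Pi.single i 1 := by
  rw [torus, SimpleGraph.fromRel_adj]
  refine and_congr_right fun _ => ⟨?_, ?_⟩
  · rintro (⟨i, h⟩ | ⟨i, h⟩)
    · exact ⟨i, Or.inl h⟩
    · exact ⟨i, Or.inr (by rw [h]; simp)⟩
  · rintro ⟨i, h | h⟩
    · exact Or.inl ⟨i, h⟩
    · exact Or.inr ⟨i, by rw [h]; simp⟩

lemma degLe_of {R : Type} [DecidableEq R] [Ring R] {G : SimpleGraph (Fin d → R)}
    (h : ∀ x y, G.Adj x y → ∃ i, y = x + Pi.single i 1 ∨ y = x - Pi.single i 1) :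
    DegLe G (2 * d) := by
  intro v S hS
  have : S ⊆ (univ.image fun i : Fin d => v + Pi.single i 1) ∪
      univ.image fun i : Fin d => v - Pi.single i 1 := by
    intro y hy
    obtain ⟨i, h1 | h1⟩ := h v y (hS y hy)
    · exact mem_union_left _ (mem_image.2 ⟨i, mem_univ _, h1.symm⟩)
    · exact mem_union_right _ (mem_image.2 ⟨i, mem_univ _, h1.symm⟩)
  refine (card_le_card this).trans ((card_union_le _ _).trans ?_)
  have h1 := card_image_le (s := (univ : Finset (Fin d))) (f := fun i => v + Pi.single i 1)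
  have h2 := card_image_le (s := (univ : Finset (Fin d))) (f := fun i => v - Pi.single i 1)
  simp only [card_univ, Fintype.card_fin] at h1 h2
  omega

lemma degLe_lattice (d : ℕ) : DegLe (lattice d) (2 * d) := degLe_of fun _ _ h => lattice_adj.1 h

lemma degLe_torus (d n : ℕ) : DegLe (torus d n) (2 * d) := degLe_of fun _ _ h => (torus_adj.1 h).2

/-! ### the sup distance -/

lemma zd_nonneg (x y : Zd d) : 0 ≤ zd x y := norm_nonneg _
lemma zd_self (x : Zd d) : zd x x = 0 := by simp [zd]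
lemma zd_comm (x y : Zd d) : zd x y = zd y x := norm_sub_rev _ _
lemma zd_tri (x y z : Zd d) : zd x z ≤ zd x y + zd y z := norm_sub_le_norm_sub_add_norm_sub _ _ _
lemma zd_zero_left (x : Zd d) : zd 0 x = ‖x‖ := by simp [zd]
lemma zd_zero_right (x : Zd d) : zd x 0 = ‖x‖ := by simp [zd]
lemma zd_eq_zero {x y : Zd d} : zd x y = 0 ↔ x = y := by simp [zd, sub_eq_zero]
lemma zd_add_right (x y v : Zd d) : zd (x + v) (y + v) = zd x y := by simp [zd]
lemma zd_add_left (x y v : Zd d) : zd (v + x) (v + y) = zd x y := by simp [zd]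
lemma zd_sub_right (x y v : Zd d) : zd (x - v) (y - v) = zd x y := by simp [zd]
lemma zd_eq_sub (x y : Zd d) : zd x y = zd 0 (y - x) := by simp [zd]

lemma abs_le_zd (x y : Zd d) (i : Fin d) : |(x i : ℝ) - y i| ≤ zd x y := by
  have := norm_le_pi_norm (x - y) i
  rwa [Pi.sub_apply, Int.norm_eq_abs, Int.cast_sub] at this

lemma zd_le_iff {x y : Zd d} {r : ℝ} (hr : 0 ≤ r) : zd x y ≤ r ↔ ∀ i, |(x i : ℝ) - y i| ≤ r := by
  unfold zd
  rw [pi_norm_le_iff_of_nonneg hr]
  simp only [Pi.sub_apply, Int.norm_eq_abs, Int.cast_sub]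

lemma zd_le_nat {x y : Zd d} {r : ℕ} : zd x y ≤ r ↔ ∀ i, x i - r ≤ y i ∧ y i ≤ x i + r := by
  rw [zd_le_iff (Nat.cast_nonneg r)]
  refine forall_congr' fun i => ?_
  rw [abs_le]
  constructor
  · rintro ⟨h1, h2⟩
    have h3 : ((x i - r : ℤ) : ℝ) ≤ (y i : ℝ) := by push_cast; linarith
    have h4 : (y i : ℝ) ≤ ((x i + r : ℤ) : ℝ) := by push_cast; linarith
    exact ⟨Int.cast_le.1 h3, Int.cast_le.1 h4⟩
  · rintro ⟨h1, h2⟩
    have h3 := (Int.cast_le (R := ℝ)).2 h1
    have h4 := (Int.cast_le (R := ℝ)).2 h2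
    push_cast at h3 h4
    constructor <;> linarith

/-- the sup distance as a natural number -/
def zn (x y : Zd d) : ℕ := univ.sup fun i => (x i - y i).natAbs

lemma zn_le {x y : Zd d} {r : ℕ} : zn x y ≤ r ↔ ∀ i, x i - r ≤ y i ∧ y i ≤ x i + r := by
  simp only [zn, Finset.sup_le_iff, mem_univ, true_imp_iff]
  exact forall_congr' fun i => by omega

lemma zd_eq_zn (x y : Zd d) : zd x y = zn x y := by
  refine le_antisymm (zd_le_nat.2 (zn_le.1 le_rfl)) ?_
  rcases Nat.eq_zero_or_pos (zn x y) with h | h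
  · rw [h]; simpa using zd_nonneg x y
  · have hne : (univ : Finset (Fin d)).Nonempty := by
      by_contra h2
      rw [zn, not_nonempty_iff_eq_empty.1 h2] at h
      simp at h
    obtain ⟨i, -, hi⟩ := Finset.exists_mem_eq_sup univ hne fun i => (x i - y i).natAbs
    refine le_trans (le_of_eq ?_) (abs_le_zd x y i)
    rw [zn, hi, Nat.cast_natAbs]; push_cast; rfl

lemma zd_nat (x y : Zd d) : ∃ k : ℕ, zd x y = k := ⟨_, zd_eq_zn x y⟩

/-- the distance is attained in some coordinate -/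
lemma exists_coord {x y : Zd d} (h : x ≠ y) : ∃ i, |(x i : ℝ) - y i| = zd x y := by
  obtain ⟨j, -⟩ := Function.ne_iff.1 h
  obtain ⟨i, -, hi⟩ := Finset.exists_mem_eq_sup univ ⟨j, mem_univ j⟩ fun i => (x i - y i).natAbs
  refine ⟨i, ?_⟩
  rw [zd_eq_zn, zn, hi, Nat.cast_natAbs]; push_cast; rfl

lemma exists_coord_ge {x y : Zd d} {r : ℕ} (hr : 0 < r) (h : (r : ℝ) ≤ zd x y) :
    ∃ i, x i + r ≤ y i ∨ y i + r ≤ x i := by
  by_contra hc
  push Not at hc
  have h1 : zn x y ≤ r - 1 := zn_le.2 fun i => by have := hc i; omega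
  rw [zd_eq_zn] at h
  have h2 : r ≤ zn x y := by exact_mod_cast h
  omega

lemma one_le_zd {x y : Zd d} (h : x ≠ y) : 1 ≤ zd x y := by
  obtain ⟨k, hk⟩ := zd_nat x y
  have : k ≠ 0 := by
    rintro rfl
    exact h (zd_eq_zero.1 (by simpa using hk))
  rw [hk]
  exact_mod_cast Nat.one_le_iff_ne_zero.2 this

lemma zd_lt_nat {x y : Zd d} {r : ℕ} : (r : ℝ) < zd x y ↔ (r : ℝ) + 1 ≤ zd x y := by
  rw [zd_eq_zn]
  exact_mod_cast Nat.lt_iff_add_one_le

lemma zd_adj {x y : Zd d} (h : (lattice d).Adj x y) : zd x y = 1 := by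
  refine le_antisymm ?_ (one_le_zd h.ne)
  have : zd x y ≤ (1 : ℕ) := zd_le_nat.2 fun i => by have := adj_coord h i; omega
  simpa using this

/-! ### boxes -/

lemma mem_rect {a b x : Zd d} : x ∈ rect a b ↔ ∀ i, a i ≤ x i ∧ x i ≤ b i := by
  simp [rect, Fintype.mem_piFinset]

lemma rect_mono {a b a' b' : Zd d} (ha : ∀ i, a' i ≤ a i) (hb : ∀ i, b i ≤ b' i) :
    rect a b ⊆ rect a' b' := fun _ hx =>
  mem_rect.2 fun i => ⟨(ha i).trans (mem_rect.1 hx i).1, (mem_rect.1 hx i).2.trans (hb i)⟩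

lemma card_rect (a b : Zd d) : (rect a b).card = ∏ i, (b i + 1 - a i).toNat := by
  simp [rect]

lemma mem_box' {x y : Zd d} {r : ℕ} : y ∈ box x r ↔ ∀ i, x i - r ≤ y i ∧ y i ≤ x i + r := mem_rect

lemma mem_box {x y : Zd d} {r : ℕ} : y ∈ box x r ↔ zd x y ≤ r := by rw [mem_box', zd_le_nat]

lemma mem_box_floor {x y : Zd d} {r : ℝ} (hr : 0 ≤ r) : y ∈ box x ⌊r⌋₊ ↔ zd x y ≤ r := by
  rw [mem_box, zd_eq_zn, Nat.cast_le, Nat.le_floor_iff hr]

lemma notMem_box {x y : Zd d} {r : ℕ} : y ∉ box x r ↔ (r : ℝ) + 1 ≤ zd x y := by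
  rw [mem_box, not_le, zd_lt_nat]

lemma self_mem_box (x : Zd d) (r : ℕ) : x ∈ box x r := by
  rw [mem_box, zd_self]; positivity

lemma box_mono (x : Zd d) {r s : ℕ} (h : r ≤ s) : box x r ⊆ box x s := fun _ hy =>
  mem_box.2 ((mem_box.1 hy).trans (Nat.cast_le.2 h))

lemma box_subset {x y : Zd d} {r s : ℕ} (h : zd x y + r ≤ s) : box y r ⊆ box x s := fun z hz =>
  mem_box.2 ((zd_tri x y z).trans (by have := mem_box.1 hz; linarith))

lemma card_box (x : Zd d) (r : ℕ) : (box x r).card = (2 * r + 1) ^ d := by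
  rw [box, card_rect]
  have : ∀ i, (x i + r + 1 - (x i - r)).toNat = 2 * r + 1 := fun i => by omega
  simp [this]

lemma exists_box (D : Finset (Zd d)) (x : Zd d) : ∃ R : ℕ, D ⊆ box x R :=
  ⟨D.sup (zn x), fun y hy => mem_box.2 (by
    rw [zd_eq_zn]; exact_mod_cast Finset.le_sup (f := zn x) hy)⟩

lemma adj_mem_box {x y z : Zd d} {r : ℕ} (hy : y ∈ box x r) (h : (lattice d).Adj y z) :
    z ∈ box x (r + 1) := by
  rw [mem_box] at hy ⊢
  have := zd_tri x y z
  rw [zd_adj h] at this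
  push_cast; linarith

lemma met_zd (d : ℕ) : Met d (zd : Zd d → Zd d → ℝ) where
  self := zd_self
  symm := zd_comm
  tri := zd_tri
  ball := fun x r S hr h => by
    have h1 : S ⊆ box x ⌊r⌋₊ := fun y hy => (mem_box_floor hr).2 (h y hy)
    have h2 := card_le_card h1
    rw [card_box] at h2
    have h3 := Nat.floor_le hr
    calc (S.card : ℝ) ≤ (((2 * ⌊r⌋₊ + 1) ^ d : ℕ) : ℝ) := Nat.cast_le.2 h2
      _ = (2 * (⌊r⌋₊ : ℝ) + 1) ^ d := by push_cast; rfl
      _ ≤ _ := by gcongr

lemma Met.nonneg {X : Type} {ρ : X → X → ℝ} (h : Met d ρ) (x y : X) : 0 ≤ ρ x y := by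
  have := h.tri x y x
  rw [h.self, h.symm y x] at this
  linarith

/-! ### automorphisms of the lattice -/

/-- an automorphism of the lattice that preserves the sup distance -/
structure Aut (φ : Zd d → Zd d) : Prop where
  bij : Function.Bijective φ
  adj : ∀ x y, (lattice d).Adj (φ x) (φ y) ↔ (lattice d).Adj x y
  dist : ∀ x y, zd (φ x) (φ y) = zd x y

/-- the reflection `x_i ↦ c - x_i` -/
def refl (i : Fin d) (c : ℤ) (x : Zd d) : Zd d := Function.update x i (c - x i)

@[simp] lemma refl_same (i : Fin d) (c : ℤ) (x : Zd d) : refl i c x i = c - x i := by simp [refl]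

lemma refl_ne {i j : Fin d} (h : j ≠ i) (c : ℤ) (x : Zd d) : refl i c x j = x j := by
  simp [refl, h]

@[simp] lemma refl_refl (i : Fin d) (c : ℤ) (x : Zd d) : refl i c (refl i c x) = x := by
  funext j
  by_cases h : j = i
  · subst h; simp
  · rw [refl_ne h, refl_ne h]

lemma zd_congr {x y x' y' : Zd d} (h : ∀ r : ℕ, (∀ i, x i - r ≤ y i ∧ y i ≤ x i + r) ↔
    ∀ i, x' i - r ≤ y' i ∧ y' i ≤ x' i + r) : zd x y = zd x' y' := by
  rw [zd_eq_zn, zd_eq_zn]
  exact congrArg _ (le_antisymm (zn_le.2 ((h _).2 (zn_le.1 le_rfl)))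
    (zn_le.2 ((h _).1 (zn_le.1 le_rfl))))

lemma aut_add (v : Zd d) : Aut fun x => x + v where
  bij := (Equiv.addRight v).bijective
  adj := fun x y => by
    simp only [lattice_adj', Pi.add_apply]
    refine exists_congr fun i => and_congr (by omega) (forall_congr' fun j => imp_congr_right
      fun _ => by omega)
  dist := fun x y => zd_add_right x y v

lemma aut_sub (v : Zd d) : Aut fun x => x - v := by
  simpa only [sub_eq_add_neg] using aut_add (-v)

lemma aut_neg : Aut fun x : Zd d => -x where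
  bij := (Equiv.neg _).bijective
  adj := fun x y => by
    simp only [lattice_adj', Pi.neg_apply]
    refine exists_congr fun i => and_congr (by omega) (forall_congr' fun j => imp_congr_right
      fun _ => by omega)
  dist := fun x y => by simp [zd, neg_add_eq_sub, norm_sub_rev]

lemma aut_refl (i : Fin d) (c : ℤ) : Aut (refl i c) where
  bij := Function.Involutive.bijective (refl_refl i c)
  adj := fun x y => by
    simp only [lattice_adj']
    refine exists_congr fun k => and_congr ?_ (forall_congr' fun j => imp_congr_right fun _ => ?_)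
    · by_cases h : k = i
      · subst h; simp only [refl_same]; omega
      · rw [refl_ne h, refl_ne h]
    · by_cases h : j = i
      · subst h; simp only [refl_same]; omega
      · rw [refl_ne h, refl_ne h]
  dist := fun x y => zd_congr fun r => forall_congr' fun j => by
    by_cases h : j = i
    · subst h; simp only [refl_same]; omega
    · rw [refl_ne h, refl_ne h]

lemma aut_perm (σ : Equiv.Perm (Fin d)) : Aut fun (x : Zd d) (i : Fin d) => x (σ i) where
  bij := (Equiv.arrowCongr σ.symm (Equiv.refl ℤ)).bijective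
  adj := fun x y => by
    simp only [lattice_adj']
    constructor
    · rintro ⟨i, h1, h2⟩
      refine ⟨σ i, h1, fun j hj => ?_⟩
      have := h2 (σ.symm j) fun e => hj (by rw [← e]; simp)
      simpa using this
    · rintro ⟨i, h1, h2⟩
      refine ⟨σ.symm i, by simpa using h1, fun j hj => h2 _ fun e => hj (by rw [← e]; simp)⟩
  dist := fun x y => zd_congr fun r =>
    ⟨fun h i => by simpa using h (σ.symm i), fun h i => h (σ i)⟩

lemma Aut.comp {φ ψ : Zd d → Zd d} (h : Aut φ) (h' : Aut ψ) : Aut fun x => φ (ψ x) where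
  bij := h.bij.comp h'.bij
  adj := fun x y => (h.adj _ _).trans (h'.adj x y)
  dist := fun x y => (h.dist _ _).trans (h'.dist x y)

section aut

variable {φ : Zd d → Zd d}

lemma Aut.locIso (h : Aut φ) (D : Finset (Zd d)) : LocIso (lattice d) (lattice d) φ D :=
  ⟨h.bij.1.injOn, fun x _ y _ => h.adj x y⟩

lemma Aut.mem_image (h : Aut φ) {D : Finset (Zd d)} {x : Zd d} : φ x ∈ D.image φ ↔ x ∈ D :=
  h.bij.1.mem_finset_image

/-- to identify the image of `D` it is enough to compare membership -/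
lemma Aut.image_eq (h : Aut φ) {D D' : Finset (Zd d)} (e : ∀ z, φ z ∈ D' ↔ z ∈ D) :
    D.image φ = D' := by
  ext y
  obtain ⟨z, rfl⟩ := h.bij.2 y
  rw [h.mem_image, e]

lemma Aut.image_box (h : Aut φ) (x : Zd d) (r : ℕ) : (box x r).image φ = box (φ x) r :=
  h.image_eq fun z => by rw [mem_box, mem_box, h.dist]

lemma Aut.sum_image (h : Aut φ) (D : Finset (Zd d)) (f : Zd d → ℝ) :
    ∑ y ∈ D.image φ, f y = ∑ y ∈ D, f (φ y) := Finset.sum_image fun _ _ _ _ e => h.bij.1 e

lemma Aut.ez_eq (h : Aut φ) (p : ℝ) (D : Finset (Zd d)) (x : Zd d) (F : Finset (Zd d) → ℝ) :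
    ez p (D.image φ) (φ x) F = ez p D x fun C => F (C.image φ) := by
  by_cases hx : x ∈ D
  · exact (h.locIso D).EC_eq hx p F
  · have hx' : φ x ∉ D.image φ := fun e => hx (h.mem_image.1 e)
    simp only [ez, EC, cl_of_notMem hx, cl_of_notMem hx', PE_const, Finset.image_empty]

lemma Aut.tz_eq (h : Aut φ) (p : ℝ) (D : Finset (Zd d)) (x y : Zd d) :
    tz p (D.image φ) (φ x) (φ y) = tz p D x y := by
  have := h.ez_eq p D x fun C => ind (φ y ∈ C)
  simp only [h.mem_image] at this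
  unfold tz
  rw [tau_eq_EC, tau_eq_EC]
  exact this

lemma Aut.cz_eq (h : Aut φ) (p : ℝ) (D : Finset (Zd d)) (x : Zd d) :
    cz p (D.image φ) (φ x) = cz p D x := by
  unfold cz chi
  rw [h.sum_image]
  exact Finset.sum_congr rfl fun y _ => h.tz_eq p D x y

lemma Aut.tz_eq' (h : Aut φ) (p : ℝ) {D D' : Finset (Zd d)} (e : ∀ z, φ z ∈ D' ↔ z ∈ D)
    (x y : Zd d) : tz p D' (φ x) (φ y) = tz p D x y := by rw [← h.image_eq e, h.tz_eq]

lemma Aut.tz_le (h : Aut φ) {p : ℝ} (h0 : 0 ≤ p) (h1 : p ≤ 1) {D D' : Finset (Zd d)}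
    (e : ∀ z ∈ D, φ z ∈ D') (x y : Zd d) : tz p D x y ≤ tz p D' (φ x) (φ y) := by
  rw [← h.tz_eq]
  exact tau_mono_dom (Prob.const h0 h1) (Finset.image_subset_iff.2 e)

lemma Aut.tz_box (h : Aut φ) (p : ℝ) (x : Zd d) (r : ℕ) (u v : Zd d) :
    tz p (box (φ x) r) (φ u) (φ v) = tz p (box x r) u v := by rw [← h.image_box, h.tz_eq]

end aut

lemma image_add_rect (a b v : Zd d) : (rect a b).image (· + v) = rect (a + v) (b + v) :=
  (aut_add v).image_eq fun z => by
    simp only [mem_rect, Pi.add_apply]; exact forall_congr' fun i => by omega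

lemma image_perm_rect (σ : Equiv.Perm (Fin d)) (a b : Zd d) :
    (rect a b).image (fun (x : Zd d) (i : Fin d) => x (σ i)) =
      rect (fun i => a (σ i)) fun i => b (σ i) :=
  (aut_perm σ).image_eq fun z => by
    simp only [mem_rect]
    exact ⟨fun h i => by simpa using h (σ.symm i), fun h i => h (σ i)⟩

lemma image_refl_rect (i : Fin d) (c : ℤ) (a b : Zd d) :
    (rect a b).image (refl i c) =
      rect (Function.update a i (c - b i)) (Function.update b i (c - a i)) :=
  (aut_refl i c).image_eq fun z => by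
    simp only [mem_rect]
    refine forall_congr' fun j => ?_
    by_cases h : j = i
    · subst h; simp only [refl_same, Function.update_self]; omega
    · rw [refl_ne h, Function.update_of_ne h, Function.update_of_ne h]

lemma tz_box_zero (p : ℝ) (x : Zd d) (r : ℕ) (u v : Zd d) :
    tz p (box x r) u v = tz p (box 0 r) (u - x) (v - x) := by
  have := (aut_sub x).tz_box p x r u v
  rw [sub_self] at this
  exact this.symm

lemma cz_box_zero (p : ℝ) (x : Zd d) (r : ℕ) : cz p (box x r) x = cz p (box (0 : Zd d) r) 0 := by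
  have := (aut_sub x).cz_eq p (box x r) x
  rw [(aut_sub x).image_box, sub_self] at this
  exact this.symm

section lat

variable {p q : ℝ} {D D' : Finset (Zd d)} {x y z : Zd d}

lemma tz_nonneg (h0 : 0 ≤ p) (h1 : p ≤ 1) : 0 ≤ tz p D x y := tau_nonneg (Prob.const h0 h1)
lemma tz_le_one (h0 : 0 ≤ p) (h1 : p ≤ 1) : tz p D x y ≤ 1 := tau_le_one (Prob.const h0 h1)
lemma tz_comm : tz p D x y = tz p D y x := tau_comm
lemma tz_self (h : x ∈ D) : tz p D x x = 1 := tau_self h
lemma tz_of_notMem (h : x ∉ D) : tz p D x y = 0 := tau_of_notMem h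
lemma tz_of_notMem' (h : y ∉ D) : tz p D x y = 0 := by rw [tz_comm]; exact tau_of_notMem h
lemma tz_mono_dom (h0 : 0 ≤ p) (h1 : p ≤ 1) (h : D ⊆ D') : tz p D x y ≤ tz p D' x y :=
  tau_mono_dom (Prob.const h0 h1) h
lemma tz_mono_p (h0 : 0 ≤ q) (h : q ≤ p) (h1 : p ≤ 1) : tz q D x y ≤ tz p D x y :=
  tau_mono_prob (Prob.const h0 (h.trans h1)) (Prob.const (h0.trans h) h1) fun _ _ => h
lemma tz_mul_le (h0 : 0 ≤ p) (h1 : p ≤ 1) : tz p D x y * tz p D y z ≤ tz p D x z :=
  tau_mul_le (Prob.const h0 h1)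
lemma cz_eq_sum : cz p D x = ∑ y ∈ D, tz p D x y := rfl
lemma cz_nonneg (h0 : 0 ≤ p) (h1 : p ≤ 1) : 0 ≤ cz p D x := chi_nonneg (Prob.const h0 h1)
lemma cz_mono_dom (h0 : 0 ≤ p) (h1 : p ≤ 1) (h : D ⊆ D') : cz p D x ≤ cz p D' x :=
  chi_mono_dom (Prob.const h0 h1) h
lemma cz_mono_p (h0 : 0 ≤ q) (h : q ≤ p) (h1 : p ≤ 1) : cz q D x ≤ cz p D x :=
  chi_mono_prob (Prob.const h0 (h.trans h1)) (Prob.const (h0.trans h) h1) fun _ _ => h
lemma sum_tz_le_cz (h0 : 0 ≤ p) (h1 : p ≤ 1) (S : Finset (Zd d)) :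
    ∑ y ∈ S, tz p D x y ≤ cz p D x := by
  rw [cz_eq_sum, ← Finset.sum_inter_add_sum_sdiff S D,
    Finset.sum_eq_zero (s := S \ D) fun y hy => tz_of_notMem' (Finset.mem_sdiff.1 hy).2, add_zero]
  exact Finset.sum_le_sum_of_subset_of_nonneg Finset.inter_subset_right
    fun _ _ _ => tz_nonneg h0 h1

end lat

/-- finite energy: one more open edge -/
lemma tau_step {V : Type} [DecidableEq V] {G : SimpleGraph V} {π : Sym2 V → ℝ} (hπ : Prob π)
    {D : Finset V} {x y z : V} (hz : z ∈ D) (h : G.Adj y z) :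
    tau G π D x y * π s(y, z) ≤ tau G π D x z := by
  by_cases hy : y ∈ D
  · refine le_trans (mul_le_mul_of_nonneg_left ?_ (tau_nonneg hπ)) (tau_mul_le hπ)
    rw [← PE_coord (mk_mem_edges.2 ⟨h, hy, hz⟩) π]
    exact PE_ind_mono hπ fun ω he => conn.step hy hz h he
  · rw [tau_comm, tau_of_notMem hy, zero_mul]
    exact tau_nonneg hπ

/-! ### the projection to the torus -/

lemma proj_lift0 (x : Tor d n) : proj n (lift0 x) = x := funext fun i => ZMod.coe_valMinAbs _

lemma proj_surj : Function.Surjective (proj n : Zd d → Tor d n) := fun x => ⟨_, proj_lift0 x⟩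

lemma lift0_inj : Function.Injective (lift0 : Tor d n → Zd d) := fun x y h => by
  rw [← proj_lift0 x, h, proj_lift0]

lemma proj_zero : proj n (0 : Zd d) = 0 := funext fun i => by simp [proj]

lemma lift0_zero : lift0 (0 : Tor d n) = 0 := funext fun i => by simp [lift0]

lemma proj_add (x y : Zd d) : proj n (x + y) = proj n x + proj n y :=
  funext fun i => by simp [proj]

lemma proj_sub (x y : Zd d) : proj n (x - y) = proj n x - proj n y :=
  funext fun i => by simp [proj]

lemma proj_neg (x : Zd d) : proj n (-x) = -proj n x := funext fun i => by simp [proj]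

lemma proj_single (i : Fin d) : proj n (Pi.single i 1 : Zd d) = Pi.single i 1 := by
  funext j
  by_cases h : j = i
  · subst h; simp [proj]
  · simp [proj, h]

lemma proj_eq_iff {x y : Zd d} : proj n x = proj n y ↔ ∀ i, (n : ℤ) ∣ y i - x i := by
  rw [funext_iff]
  exact forall_congr' fun i => ZMod.intCast_eq_intCast_iff_dvd_sub _ _ _

lemma proj_eq_iff' {x y : Zd d} : proj n x = proj n y ↔ ∃ k : Zd d, y = x + (n : ℤ) • k := by
  rw [proj_eq_iff]
  constructor
  · intro h
    choose k hk using h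
    refine ⟨k, funext fun i => ?_⟩
    have := hk i
    simp only [Pi.add_apply, Pi.smul_apply, smul_eq_mul]
    omega
  · rintro ⟨k, rfl⟩ i
    exact ⟨k i, by simp⟩

lemma proj_smul (k : Zd d) : proj n ((n : ℤ) • k) = 0 := funext fun i => by simp [proj]

lemma td_eq (x y : Tor d n) : td x y = zd (lift0 (x - y)) 0 := (zd_zero_right _).symm

lemma td_nonneg (x y : Tor d n) : 0 ≤ td x y := norm_nonneg _

lemma td_nat (x y : Tor d n) : ∃ k : ℕ, td x y = k := zd_nat _ _ |>.imp fun _ h => by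
  rw [td_eq]; exact h

lemma td_self (x : Tor d n) : td x x = 0 := by simp [td, lift0_zero]

lemma td_add_right (x y v : Tor d n) : td (x + v) (y + v) = td x y := by simp [td]

lemma td_sub_right (x y v : Tor d n) : td (x - v) (y - v) = td x y := by simp [td]

lemma td_eq_zero {x y : Tor d n} : td x y = 0 ↔ x = y := by
  rw [td_eq, zd_eq_zero, ← lift0_zero (n := n), lift0_inj.eq_iff, sub_eq_zero]

variable [NeZero n]

lemma natAbs_valMinAbs_le (z : ℤ) : ((z : ZMod n).valMinAbs).natAbs ≤ z.natAbs :=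
  ZMod.natAbs_min_of_le_div_two n _ _ (ZMod.coe_valMinAbs _) (ZMod.natAbs_valMinAbs_le _)

lemma norm_lift0_le (w : Zd d) : ‖lift0 (proj n w)‖ ≤ ‖w‖ := by
  rw [← zd_zero_right, ← zd_zero_right, zd_eq_zn, zd_eq_zn, Nat.cast_le]
  refine Finset.sup_mono_fun fun i _ => ?_
  simpa [lift0, proj] using natAbs_valMinAbs_le (n := n) (w i)

lemma td_proj_le (x y : Zd d) : td (proj n x) (proj n y) ≤ zd x y := by
  rw [td, ← proj_sub]; exact norm_lift0_le _

/-- the torus distance is attained by a lift, from any base point -/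
lemma exists_lift (x : Zd d) (y : Tor d n) :
    ∃ y' : Zd d, proj n y' = y ∧ zd x y' = td (proj n x) y :=
  ⟨x - lift0 (proj n x - y), by rw [proj_sub, proj_lift0, sub_sub_cancel], by simp [zd, td]⟩

lemma td_comm (x y : Tor d n) : td x y = td y x := by
  have key : ∀ x y : Tor d n, td x y ≤ td y x := fun x y => by
    have := norm_lift0_le (n := n) (-lift0 (y - x))
    rwa [proj_neg, proj_lift0, neg_sub, norm_neg] at this
  exact le_antisymm (key x y) (key y x)

lemma td_tri (x y z : Tor d n) : td x z ≤ td x y + td y z := by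
  have := norm_lift0_le (n := n) (lift0 (x - y) + lift0 (y - z))
  rw [proj_add, proj_lift0, proj_lift0, sub_add_sub_cancel] at this
  exact this.trans (norm_add_le _ _)

lemma td_le_half (x y : Tor d n) : td x y ≤ (n : ℝ) / 2 := by
  have h1 : td x y ≤ (n / 2 : ℕ) := by
    rw [td_eq, zd_eq_zn, Nat.cast_le]
    refine Finset.sup_le fun i _ => ?_
    simpa [lift0] using ZMod.natAbs_valMinAbs_le ((x - y) i)
  exact h1.trans Nat.cast_div_le

lemma td_proj_eq {x y : Zd d} (h : 2 * zd x y ≤ n) : td (proj n x) (proj n y) = zd x y := by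
  refine le_antisymm (td_proj_le x y) ?_
  rw [td_eq, ← proj_sub, zd_eq_zn, zd_eq_zn, Nat.cast_le]
  refine Finset.sup_mono_fun fun i _ => ?_
  have h1 : 2 * zn x y ≤ n := by rw [zd_eq_zn] at h; exact_mod_cast h
  have h2 : (x i - y i).natAbs ≤ zn x y :=
    Finset.le_sup (f := fun i => (x i - y i).natAbs) (mem_univ i)
  have := ZMod.natAbs_min_of_le_div_two n (x i - y i) ((x i - y i : ℤ) : ZMod n).valMinAbs
    (ZMod.coe_valMinAbs _).symm (by omega)
  simpa [lift0, proj] using this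

lemma proj_inj {x y : Zd d} (h : zd x y < n) (e : proj n x = proj n y) : x = y := by
  funext i
  have h1 := proj_eq_iff.1 e i
  have h2 : ((|y i - x i| : ℤ) : ℝ) < (n : ℤ) := by
    have := abs_le_zd y x i
    rw [zd_comm] at this
    push_cast; linarith
  have := Int.eq_zero_of_abs_lt_dvd h1 (Int.cast_lt.1 h2)
  omega

lemma le_zd_of_proj_eq {x y : Zd d} (e : proj n x = proj n y) (h : x ≠ y) : (n : ℝ) ≤ zd x y :=
  not_lt.1 fun h2 => h (proj_inj h2 e)

lemma met_td (d n : ℕ) [NeZero n] : Met d (td : Tor d n → Tor d n → ℝ) where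
  self := td_self
  symm := td_comm
  tri := td_tri
  ball := fun x r S hr h => by
    have h1 := (met_zd d).ball 0 r (S.image fun y => lift0 (x - y)) hr fun w hw => by
      obtain ⟨y, hy, rfl⟩ := mem_image.1 hw
      rw [zd_zero_left]; exact h y hy
    rwa [card_image_of_injective _ fun a b e => sub_right_injective (lift0_inj e)] at h1

lemma mem_tball {x y : Tor d n} {r : ℝ} : y ∈ tball x r ↔ td x y ≤ r := by simp [tball]

lemma card_Tor : Fintype.card (Tor d n) = n ^ d := by simp [ZMod.card]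

/-- a step of the torus lifts to a step of the lattice -/
lemma lift_step {x : Zd d} {w : Tor d n} (h : (torus d n).Adj (proj n x) w) :
    ∃ y, (lattice d).Adj x y ∧ proj n y = w := by
  obtain ⟨-, i, rfl | rfl⟩ := torus_adj.1 h
  · exact ⟨_, lattice_adj_add x i, by rw [proj_add, proj_single]⟩
  · exact ⟨_, lattice_adj_sub x i, by rw [proj_sub, proj_single]⟩

lemma td_adj {x y : Tor d n} (h : (torus d n).Adj x y) : td x y ≤ 1 := by
  rw [← proj_lift0 x] at h ⊢
  obtain ⟨y, h1, rfl⟩ := lift_step h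
  exact (td_proj_le _ _).trans (zd_adj h1).le

lemma proj_adj (hn : 2 ≤ n) {x y : Zd d} (h : (lattice d).Adj x y) :
    (torus d n).Adj (proj n x) (proj n y) := by
  refine torus_adj.2 ⟨fun e => h.ne (proj_inj ?_ e), ?_⟩
  · rw [zd_adj h]; exact_mod_cast hn
  · obtain ⟨i, rfl | rfl⟩ := lattice_adj.1 h
    · exact ⟨i, Or.inl (by rw [proj_add, proj_single])⟩
    · exact ⟨i, Or.inr (by rw [proj_sub, proj_single])⟩

/-- the lift of a step is unique -/
lemma lift_step_unique (hn : 3 ≤ n) {x y y' : Zd d} (h : (lattice d).Adj x y)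
    (h' : (lattice d).Adj x y') (e : proj n y = proj n y') : y = y' := by
  refine proj_inj ((zd_tri y x y').trans_lt ?_) e
  rw [zd_comm y x, zd_adj h, zd_adj h']
  have : (3 : ℝ) ≤ n := by exact_mod_cast hn
  linarith

/-- the projection is a local isomorphism on sets of diameter at most `n - 2` -/
lemma locIso_proj' (hn : 2 ≤ n) {D : Finset (Zd d)} (hD : ∀ x ∈ D, ∀ y ∈ D, zd x y + 2 ≤ n) :
    LocIso (lattice d) (torus d n) (proj n) D := by
  refine ⟨fun x hx y hy e => proj_inj (by have := hD x hx y hy; linarith) e,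
    fun x hx y hy => ⟨fun h => ?_, proj_adj hn⟩⟩
  obtain ⟨y', h1, h2⟩ := lift_step h
  have : y' = y := proj_inj ((zd_tri y' x y).trans_lt (by
    rw [zd_comm y' x, zd_adj h1]; have := hD x hx y hy; linarith)) h2
  exact this ▸ h1

lemma locIso_proj (x : Zd d) {r : ℕ} (h : 2 * r + 2 ≤ n) :
    LocIso (lattice d) (torus d n) (proj n) (box x r) := by
  refine locIso_proj' (by omega) fun y hy z hz => ?_
  have h1 := zd_tri y x z
  rw [zd_comm y x] at h1
  have h2 := mem_box.1 hy
  have h3 := mem_box.1 hz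
  have h4 : (2 * r + 2 : ℝ) ≤ n := by exact_mod_cast h
  linarith

lemma image_proj_box (x : Zd d) (r : ℕ) : (box x r).image (proj n) = tball (proj n x) r := by
  ext w
  rw [mem_image, mem_tball]
  constructor
  · rintro ⟨y, hy, rfl⟩
    exact (td_proj_le x y).trans (mem_box.1 hy)
  · intro h
    obtain ⟨y, h1, h2⟩ := exists_lift x w
    exact ⟨y, mem_box.2 (h2 ▸ h), h1⟩

lemma tt_ball (p : ℝ) (x : Zd d) {r : ℕ} (h : 2 * r + 2 ≤ n) {u v : Zd d} (hu : u ∈ box x r)
    (hv : v ∈ box x r) :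
    tt p (tball (proj n x) r) (proj n u) (proj n v) = tz p (box x r) u v := by
  rw [← image_proj_box]; exact (locIso_proj x h).tau_eq hu hv p

/-- translations of the torus -/
lemma locIso_tadd (v : Tor d n) (D : Finset (Tor d n)) :
    LocIso (torus d n) (torus d n) (· + v) D := by
  refine ⟨(add_left_injective v).injOn, fun x _ y _ => ?_⟩
  simp only [torus_adj, ne_eq, add_left_inj]
  refine and_congr_right fun _ => exists_congr fun i => or_congr ?_ ?_
  · rw [add_right_comm, add_left_inj]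
  · rw [add_sub_right_comm, add_left_inj]

lemma tt_univ_add (p : ℝ) (x y v : Tor d n) : tt p univ (x + v) (y + v) = tt p univ x y := by
  have := (locIso_tadd v univ).tau_eq (mem_univ x) (mem_univ y) p
  rwa [Finset.image_univ_of_surjective (f := (· + v)) (Equiv.addRight v).surjective] at this

lemma EC_univ_add (p : ℝ) (x v : Tor d n) (F : Finset (Tor d n) → ℝ) :
    EC (torus d n) (fun _ => p) univ (x + v) F =
      EC (torus d n) (fun _ => p) univ x fun C => F (C.image (· + v)) := by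
  have := (locIso_tadd v univ).EC_eq (mem_univ x) p F
  rwa [Finset.image_univ_of_surjective (f := (· + v)) (Equiv.addRight v).surjective] at this

end Pool.Agent.TPC
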