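import Pool.Agent.Lib.TPC.BlueG
import Pool.Agent.Lib.TPC.ZBasic

/-! Hulls of finite subsets of the lattice. -/

open Finset

namespace Pool.Agent.TPC

open Pool.Agent.Lib.MP_81a99a_pr (lattice torus)

namespace HULL

variable {d : ℕ} {X X' : Set (Zd d)} {x y z : Zd d}

lemma jrefl (h : x ∈ X) : Joined X x x := ⟨h, .refl⟩

lemma jright (h : Joined X x y) : y ∈ X := by
  obtain ⟨h1, h2⟩ := h
  induction h2 with
  | refl => exact h1
  | tail _ h _ => exact h.1

lemma jtrans (h : Joined X x y) (h' : Joined X y z) : Joined X x z := ⟨h.1, h.2.trans h'.2⟩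

lemma jtail (h : Joined X x y) (hz : z ∈ X) (ha : (lattice d).Adj y z) : Joined X x z :=
  ⟨h.1, h.2.tail ⟨hz, ha⟩⟩

lemma jsymm (h : Joined X x y) : Joined X y x := by
  obtain ⟨h1, h2⟩ := h
  induction h2 with
  | refl => exact jrefl h1
  | tail _ h ih => exact jtrans (jtail (jrefl h.1) ih.1 h.2.symm) ih

lemma jmono (hX : X ⊆ X') (h : Joined X x y) : Joined X' x y :=
  ⟨hX h.1, h.2.lift id fun _ _ h => ⟨hX h.1, h.2⟩⟩

lemma line_up (x : Zd d) (i : Fin d) (a : ℤ) (n : ℕ)
    (h : ∀ t, a ≤ t → t ≤ a + n → Function.update x i t ∈ X) :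
    Joined X (Function.update x i a) (Function.update x i (a + n)) := by
  induction n with
  | zero =>
    rw [Nat.cast_zero, add_zero]
    exact jrefl (h a le_rfl (by omega))
  | succ n ih =>
    refine jtail (ih fun t h1 h2 => h t h1 (by omega)) (h _ (by omega) le_rfl)
      (lattice_adj'.2 ⟨i, Or.inl ?_, fun j hj => ?_⟩)
    · rw [Function.update_self, Function.update_self]
      omega
    · rw [Function.update_of_ne hj, Function.update_of_ne hj]

lemma line (x : Zd d) (i : Fin d) (a b : ℤ)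
    (h : ∀ t, min a b ≤ t → t ≤ max a b → Function.update x i t ∈ X) :
    Joined X (Function.update x i a) (Function.update x i b) := by
  rcases le_total a b with hab | hab
  · obtain ⟨n, rfl⟩ := Int.le.dest hab
    exact line_up x i a n fun t h1 h2 => h t (by omega) (by omega)
  · obtain ⟨n, rfl⟩ := Int.le.dest hab
    exact jsymm (line_up x i b n fun t h1 h2 => h t (by omega) (by omega))

/-- the outside of a cube -/
def Out (d : ℕ) (R : ℤ) : Set (Zd d) := {y | ∃ i, R ≤ y i ∨ y i ≤ -R}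

lemma out_move (R : ℤ) (y : Zd d) (i : Fin d) (hi : R ≤ y i ∨ y i ≤ -R) (s : Finset (Fin d))
    (hs : i ∉ s) : Joined (Out d R) y fun j => if j ∈ s then R else y j := by
  induction s using Finset.induction_on with
  | empty =>
    simp only [Finset.notMem_empty, if_false]
    exact jrefl ⟨i, hi⟩
  | insert k s hk ih =>
    rw [Finset.mem_insert, not_or] at hs
    have h1 := line (X := Out d R) (fun j => if j ∈ s then R else y j) k (y k) R fun t _ _ =>
      ⟨i, by rw [Function.update_of_ne hs.1, if_neg hs.2]; exact hi⟩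
    have e1 : Function.update (fun j => if j ∈ s then R else y j) k (y k) =
        fun j => if j ∈ s then R else y j := by
      funext j
      by_cases hj : j = k
      · subst hj
        rw [Function.update_self, if_neg hk]
      · rw [Function.update_of_ne hj]
    have e2 : Function.update (fun j => if j ∈ s then R else y j) k R =
        fun j => if j ∈ insert k s then R else y j := by
      funext j
      by_cases hj : j = k
      · subst hj
        rw [Function.update_self, if_pos (Finset.mem_insert_self _ _)]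
      · rw [Function.update_of_ne hj]
        simp only [Finset.mem_insert, hj, false_or]
    rw [e1, e2] at h1
    exact jtrans (ih hs.2) h1

lemma out_corner (hd : 2 ≤ d) (R : ℤ) (hy : y ∈ Out d R) : Joined (Out d R) y fun _ => R := by
  obtain ⟨i, hi⟩ := hy
  obtain ⟨j, hj⟩ : ∃ j : Fin d, j ≠ i := by
    have : Nontrivial (Fin d) := Fin.nontrivial_iff_two_le.2 hd
    exact exists_ne i
  have h1 := out_move R y i hi (univ.erase i) (Finset.notMem_erase _ _)
  have h2 := line (X := Out d R) (fun _ => R) i (y i) R fun t _ _ =>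
    ⟨j, Or.inl (by rw [Function.update_of_ne hj])⟩
  have e1 : Function.update (fun _ => R) i (y i) =
      fun j => if j ∈ univ.erase i then R else y j := by
    funext k
    by_cases hk : k = i
    · subst hk
      rw [Function.update_self, if_neg (Finset.notMem_erase _ _)]
    · rw [Function.update_of_ne hk, if_pos (Finset.mem_erase.2 ⟨hk, mem_univ _⟩)]
  rw [e1, Function.update_eq_self i fun _ => R] at h2
  exact jtrans h1 h2

lemma joined_of_not (hd : 2 ≤ d) (Γ : Finset (Zd d)) (b b' : Zd d) (hb : ¬ InHull Γ b)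
    (hb' : ¬ InHull Γ b') : Joined (Γ : Set (Zd d))ᶜ b b' := by
  obtain ⟨R, hR⟩ := exists_box Γ 0
  have h1 : Out d (R + 1) ⊆ (Γ : Set (Zd d))ᶜ := by
    rintro y ⟨i, hi⟩ hy
    have := mem_box'.1 (hR hy) i
    simp only [Pi.zero_apply] at this
    omega
  have key : ∀ b, ¬ InHull Γ b → Joined (Γ : Set (Zd d))ᶜ b fun _ => R + 1 := fun b hb => by
    obtain ⟨y, hy, hy2⟩ := Set.Infinite.exists_notMem_finset hb (box 0 R)
    refine jtrans hy (jmono h1 (out_corner hd _ ?_))
    rw [mem_box', not_forall] at hy2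
    obtain ⟨i, hi⟩ := hy2
    simp only [Pi.zero_apply] at hi
    exact ⟨i, by omega⟩
  exact jtrans (key b hb) (jsymm (key b' hb'))

lemma ray {Γ : Finset (Zd d)} (h : InHull Γ x) (i : Fin d) (σ : ℤ) (hσ : σ = 1 ∨ σ = -1) :
    ∃ n : ℕ, Function.update x i (x i + σ * n) ∈ Γ := by
  by_contra hn
  rw [not_exists] at hn
  refine Set.infinite_of_injective_forall_mem
    (f := fun n : ℕ => Function.update x i (x i + σ * n)) (fun m n e => ?_) (fun n => ?_) h
  · have := congrFun e i
    simp only [Function.update_self] at this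
    rcases hσ with rfl | rfl <;> omega
  · have h1 := line (X := (Γ : Set (Zd d))ᶜ) x i (x i) (x i + σ * n) fun t h1 h2 => by
      have e : t = x i + σ * ((t - x i).natAbs : ℕ) := by
        rcases hσ with rfl | rfl <;> omega
      rw [e]
      exact hn _
    rwa [Function.update_eq_self] at h1

lemma card_le (hLW : St_LW) (hd : 2 ≤ d) (Γ P : Finset (Zd d)) (hP : ∀ x ∈ P, InHull Γ x) :
    (P.card : ℝ) ≤ (Γ.card : ℝ) ^ ((d : ℝ) / (d - 1)) := by
  have h1 := hLW d P Γ.card (fun i => by
    refine le_trans (card_le_card fun y hy => ?_)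
      (card_image_le (s := Γ) (f := fun x => Function.update x i 0))
    obtain ⟨x, hx, rfl⟩ := mem_image.1 hy
    obtain ⟨n, hn⟩ := ray (hP x hx) i 1 (Or.inl rfl)
    exact mem_image.2 ⟨_, hn, Function.update_idem _ _ _⟩) hd
  have h2 : (P.card : ℝ) ^ (d - 1) ≤ (Γ.card : ℝ) ^ d := by exact_mod_cast h1
  have h3 : (2 : ℝ) ≤ d := by exact_mod_cast hd
  have h4 : (0 : ℝ) < d - 1 := by linarith
  have e : ((d - 1 : ℕ) : ℝ) = d - 1 := by rw [Nat.cast_sub (by omega), Nat.cast_one]
  rw [← Real.rpow_natCast, ← Real.rpow_natCast, e] at h2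
  rw [div_eq_mul_inv, Real.rpow_mul (Nat.cast_nonneg _),
    Real.le_rpow_inv_iff_of_pos (Nat.cast_nonneg _) (Real.rpow_nonneg (Nat.cast_nonneg _) _) h4]
  exact h2

lemma ivt {Γ : Finset (Zd d)} (i : Fin d) {u v : Zd d} (hu : u ∈ Γ)
    (h : Relation.ReflTransGen (fun a b => a ∈ Γ ∧ b ∈ Γ ∧ zd a b ≤ 1) u v) :
    ∀ s, u i ≤ s → s ≤ v i → ∃ γ ∈ Γ, γ i = s := by
  induction h with
  | refl => exact fun s h1 h2 => ⟨u, hu, le_antisymm h1 h2⟩
  | @tail v w _ h ih =>
    intro s h1 h2
    have h3 := (zd_le_nat (r := 1)).1 (by rw [Nat.cast_one]; exact h.2.2) i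
    by_cases hs : s ≤ v i
    · exact ih s h1 hs
    · exact ⟨w, h.2.1, by omega⟩

lemma near (hd : 2 ≤ d) {Γ : Finset (Zd d)} (hΓ : StarConn Γ) (x : Zd d) (h : InHull Γ x) :
    ∃ γ ∈ Γ, zd x γ ≤ Γ.card := by
  let i : Fin d := ⟨0, by omega⟩
  obtain ⟨n, hn⟩ := ray h i 1 (Or.inl rfl)
  obtain ⟨m, hm⟩ := ray h i (-1) (Or.inr rfl)
  have h1 := ivt i hm (hΓ _ hm _ hn)
  simp only [Function.update_self] at h1
  have h2 : Finset.Icc (x i) (x i + n) ⊆ Γ.image fun γ => γ i := fun s hs => by
    rw [Finset.mem_Icc] at hs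
    exact mem_image.2 (h1 s (by omega) (by omega))
  have h3 := (card_le_card h2).trans card_image_le
  rw [Int.card_Icc] at h3
  refine ⟨_, hn, zd_le_nat.2 fun j => ?_⟩
  by_cases hj : j = i
  · subst hj
    rw [Function.update_self]
    omega
  · rw [Function.update_of_ne hj]
    omega

lemma shift (Γ : Finset (Zd d)) (x v : Zd d) (h : InHull Γ x) :
    InHull (Γ.image (· + v)) (x + v) := by
  have hm : ∀ y, y ∈ ((Γ.image (· + v) : Finset (Zd d)) : Set (Zd d))ᶜ →
      y - v ∈ (Γ : Set (Zd d))ᶜ := fun y hy h1 =>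
    hy (Finset.mem_coe.2 (mem_image.2 ⟨_, h1, sub_add_cancel _ _⟩))
  refine (h.image (· + v)).subset fun y hy => ⟨y - v, ?_, sub_add_cancel _ _⟩
  have h1 : Joined (Γ : Set (Zd d))ᶜ (x + v - v) (y - v) :=
    ⟨hm _ hy.1, hy.2.lift (· - v) fun a b hab => ⟨hm _ hab.1, ((aut_sub v).adj a b).2 hab.2⟩⟩
  rwa [add_sub_cancel_right] at h1

end HULL

theorem st_HULL (h : St_LW) : St_HULL := fun _ hd Γ =>
  ⟨HULL.joined_of_not hd Γ, HULL.card_le h hd Γ, fun hΓ => HULL.near hd hΓ,
    fun _ hΓ _ hx => hx.subset fun _ hy =>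
      HULL.jmono (Set.compl_subset_compl.2 (Finset.coe_subset.2 hΓ)) hy,
    HULL.shift Γ⟩

end Pool.Agent.TPC
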