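import Pool.Agent.Lib.TPC.BlueG
import Pool.Agent.Lib.TPC.ZBasic

/-! Counting subsets of lazy walks. -/

open Finset

namespace Pool.Agent.TPC

namespace SeqB

/-- signed tuples of total size at most `L` -/
def TT (s L : ℕ) : Finset (Fin s → Bool × ℕ) :=
  (Fintype.piFinset fun _ => univ ×ˢ range (L + 1)).filter fun a => ∑ j, (a j).2 ≤ L

theorem card_TT (s L : ℕ) (hs : 1 ≤ s) :
    ((TT s L).card : ℝ) ≤ (4 * Real.exp 1 * (1 + L / s)) ^ s := by
  have hs' : (0 : ℝ) < s := by exact_mod_cast hs
  have hL : (0 : ℝ) ≤ L := Nat.cast_nonneg L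
  set r : ℝ := (L + s) / (L + 2 * s) with hr
  have r0 : 0 < r := by positivity
  have r1 : r < 1 := by rw [hr, div_lt_one (by positivity)]; linarith
  have h1 : ((TT s L).card : ℝ) * r ^ L ≤ ∑ a ∈ TT s L, ∏ j, r ^ (a j).2 := by
    rw [← nsmul_eq_mul]
    refine card_nsmul_le_sum _ _ _ fun a ha => ?_
    rw [prod_pow_eq_pow_sum]
    exact pow_le_pow_of_le_one r0.le r1.le (mem_filter.1 ha).2
  have h2 : ∑ a ∈ TT s L, ∏ j, r ^ (a j).2 ≤
      ∏ _j : Fin s, ∑ q ∈ (univ : Finset Bool) ×ˢ range (L + 1), r ^ q.2 := by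
    rw [prod_univ_sum]
    exact sum_le_sum_of_subset_of_nonneg (filter_subset _ _) fun a _ _ =>
      prod_nonneg fun j _ => by positivity
  have h3 : ∑ q ∈ (univ : Finset Bool) ×ˢ range (L + 1), r ^ q.2 ≤ 4 * (1 + L / s) := by
    rw [sum_product]
    simp only [sum_const, card_univ, Fintype.card_bool, nsmul_eq_mul, Nat.cast_ofNat]
    have a : ∑ n ∈ range (L + 1), r ^ n ≤ (1 - r)⁻¹ := by
      rw [← tsum_geometric_of_lt_one r0.le r1]
      exact (summable_geometric_of_lt_one r0.le r1).sum_le_tsum _ fun n _ => by positivity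
    have b : (1 - r)⁻¹ = 2 + L / s := by
      rw [hr]
      have : 1 - (L + s : ℝ) / (L + 2 * s) = s / (L + 2 * s) := by field_simp; ring
      rw [this]; field_simp; ring
    have c : (0 : ℝ) ≤ L / s := by positivity
    rw [b] at a
    linarith
  have h4 : 1 ≤ r ^ L * Real.exp 1 ^ s := by
    have a : r⁻¹ ≤ Real.exp (s / (L + s)) := by
      refine le_trans (le_of_eq ?_) (Real.add_one_le_exp _)
      rw [hr]; field_simp; ring
    have b : r⁻¹ ^ L ≤ Real.exp 1 ^ s := by
      refine (pow_le_pow_left₀ (by positivity) a L).trans ?_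
      rw [← Real.exp_nat_mul, ← Real.exp_nat_mul, Real.exp_le_exp, mul_one, ← mul_div_assoc,
        div_le_iff₀ (by positivity)]
      nlinarith
    rw [inv_pow, inv_le_iff_one_le_mul₀ (by positivity)] at b
    linarith [mul_comm (r ^ L) (Real.exp 1 ^ s)]
  have h5 : ((TT s L).card : ℝ) * r ^ L ≤ (4 * (1 + L / s)) ^ s := by
    refine h1.trans (h2.trans ?_)
    rw [prod_const, card_univ, Fintype.card_fin]
    exact pow_le_pow_left₀ (sum_nonneg fun _ _ => by positivity) h3 s
  calc ((TT s L).card : ℝ) ≤ (TT s L).card * (r ^ L * Real.exp 1 ^ s) :=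
        le_mul_of_one_le_right (Nat.cast_nonneg _) h4
    _ = (TT s L).card * r ^ L * Real.exp 1 ^ s := by ring
    _ ≤ (4 * (1 + L / s)) ^ s * Real.exp 1 ^ s :=
        mul_le_mul_of_nonneg_right h5 (by positivity)
    _ = _ := by rw [← mul_pow]; congr 1; ring

/-- the value of a signed number -/
def vl (q : Bool × ℕ) : ℤ := if q.1 then q.2 else -q.2

/-- the code of an integer -/
def cd (z : ℤ) : Bool × ℕ := (decide (0 ≤ z), z.natAbs)

theorem vl_cd (z : ℤ) : vl (cd z) = z := by
  unfold vl cd
  by_cases h : 0 ≤ z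
  · simp only [h, decide_true, if_true]; omega
  · simp only [h, decide_false, Bool.false_eq_true, if_false]; omega

/-- the set coded by the increments -/
def dec {d s : ℕ} (x₀ : Zd d) (A : Fin d → Fin s → Bool × ℕ) : Finset (Zd d) :=
  (range s).image fun k i => x₀ i + ∑ j ∈ range (k + 1), if h : j < s then vl (A i ⟨j, h⟩) else 0

theorem lazy_le {d : ℕ} {f : ℕ → Zd d} (hf : Lazy f) (i : Fin d) (n k : ℕ) :
    (f (n + k) i - f n i).natAbs ≤ k := by
  induction k with
  | zero => simp
  | succ k ih =>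
    have h : zd (f (n + k)) (f (n + k + 1)) ≤ (1 : ℕ) := by simpa using hf (n + k)
    have := zd_le_nat.1 h i
    rw [← add_assoc]
    omega

end SeqB

open SeqB in
theorem st_SEQ : St_SEQ := by
  classical
  intro d
  refine ⟨4 * Real.exp 1, by linarith [Real.add_one_le_exp 1], fun x₀ L s hs => ?_⟩
  refine ⟨(Fintype.piFinset fun _ : Fin d => TT s L).image (dec x₀), ?_, ?_⟩
  · refine (Nat.cast_le.2 card_image_le).trans ?_
    rw [Fintype.card_piFinset, prod_const, card_univ, Fintype.card_fin, mul_comm d s, pow_mul]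
    push_cast
    exact pow_le_pow_left₀ (Nat.cast_nonneg _) (card_TT s L hs) d
  · intro f hf h0 P hP hv
    choose! τ hτ using hv
    have hI : (P.image τ).card = s := by
      rw [card_image_of_injOn, hP]
      intro y hy y' hy' e
      rw [← (hτ y hy).2, ← (hτ y' hy').2, e]
    set e := (P.image τ).orderEmbOfFin hI with he
    let t : ℕ → ℕ := fun j => if h : 1 ≤ j ∧ j - 1 < s then e ⟨j - 1, h.2⟩ else 0
    have t0 : t 0 = 0 := by simp [t]
    have t1 : ∀ j (h : j < s), t (j + 1) = e ⟨j, h⟩ := fun j h => by simp [t, h]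
    have tm : ∀ j, j < s → t j ≤ t (j + 1) := fun j h => by
      rcases j with _ | j
      · rw [t0]; exact Nat.zero_le _
      · rw [t1 j (by omega), t1 _ h]
        exact e.monotone (Fin.mk_le_mk.2 (by omega))
    have eP : ∀ k, ∃ y ∈ P, τ y = e k := fun k =>
      mem_image.1 ((P.image τ).orderEmbOfFin_mem hI k)
    have tL : t s ≤ L := by
      obtain ⟨j, rfl⟩ : ∃ j, s = j + 1 := ⟨s - 1, by omega⟩
      rw [t1 j (by omega)]
      obtain ⟨y, hy, hy'⟩ := eP ⟨j, by omega⟩
      rw [← hy']
      exact (hτ y hy).1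
    have inc : ∀ i j, j < s → (f (t (j + 1)) i - f (t j) i).natAbs + t j ≤ t (j + 1) :=
      fun i j h => by
        obtain ⟨k, hk⟩ := Nat.exists_eq_add_of_le (tm j h)
        have := lazy_le hf i (t j) k
        rw [hk]
        omega
    have tot : ∀ i k, k ≤ s → ∑ j ∈ range k, (f (t (j + 1)) i - f (t j) i).natAbs ≤ t k := by
      intro i k
      induction k with
      | zero => simp
      | succ k ih =>
        intro h
        rw [sum_range_succ]
        have := ih (by omega)
        have := inc i k h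
        omega
    refine mem_image.2 ⟨fun i j => cd (f (t (j + 1)) i - f (t j) i), ?_, ?_⟩
    · refine Fintype.mem_piFinset.2 fun i => ?_
      have a : ∑ j : Fin s, (f (t (j + 1)) i - f (t j) i).natAbs ≤ L := by
        rw [Fin.sum_univ_eq_sum_range (fun j => (f (t (j + 1)) i - f (t j) i).natAbs) s]
        exact (tot i s le_rfl).trans tL
      refine mem_filter.2 ⟨Fintype.mem_piFinset.2 fun j => mem_product.2 ⟨mem_univ _, ?_⟩, a⟩
      have := single_le_sum (f := fun j : Fin s => (f (t (j + 1)) i - f (t j) i).natAbs)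
        (fun _ _ => Nat.zero_le _) (mem_univ j)
      exact mem_range.2 (Nat.lt_succ_of_le (this.trans a))
    · have pt : ∀ k, k < s → (fun i => x₀ i + ∑ j ∈ range (k + 1),
          if _h : j < s then vl (cd (f (t (j + 1)) i - f (t j) i)) else 0) = f (t (k + 1)) := by
        intro k hk
        funext i
        rw [sum_congr rfl fun j hj => dif_pos (by have := mem_range.1 hj; omega)]
        simp only [vl_cd]
        rw [sum_range_sub (fun j => f (t j) i), t0, h0]
        ring
      ext y
      simp only [dec, mem_image, mem_range]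
      constructor
      · rintro ⟨k, hk, rfl⟩
        rw [pt k hk, t1 k hk]
        obtain ⟨y, hy, hy'⟩ := eP ⟨k, hk⟩
        rw [← hy', (hτ y hy).2]
        exact hy
      · intro hy
        have : τ y ∈ Set.range e := by
          rw [he, range_orderEmbOfFin]
          exact mem_coe.2 (mem_image_of_mem τ hy)
        obtain ⟨k, hk⟩ := this
        refine ⟨k, k.2, ?_⟩
        rw [pt k k.2, t1 k k.2]
        change f (e k) = y
        rw [hk, (hτ y hy).2]

end Pool.Agent.TPC
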