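import Pool.Agent.Lib.TPC.BlueG
import Pool.Agent.Lib.TPC.ZBasic

/-! Covering walks of connected sets and the count of lattice animals. -/

open Finset

namespace Pool.Agent.TPC

namespace Walk

variable {V : Type} [DecidableEq V] {R : V → V → Prop}

omit [DecidableEq V] in
theorem exit {A B : Finset V} {x y : V} (hx : x ∈ B) (hy : y ∉ B)
    (h : Relation.ReflTransGen (fun a b => a ∈ A ∧ b ∈ A ∧ R a b) x y) :
    ∃ a z, a ∈ B ∧ z ∈ A ∧ z ∉ B ∧ R a z := by
  induction h with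
  | refl => exact absurd hx hy
  | @tail b c _ hbc ih =>
    by_cases hb : b ∈ B
    · exact ⟨b, c, hb, hbc.2.1, hy, hbc.2.2⟩
    · exact ih hb

theorem grow (hR : ∀ a b, R a b → R b a) (A : Finset V) (x : V) (hx : x ∈ A)
    (hA : ∀ y ∈ A, Relation.ReflTransGen (fun a b => a ∈ A ∧ b ∈ A ∧ R a b) x y)
    (t : ℕ) (ht : t + 1 ≤ A.card) :
    ∃ B : Finset V, B ⊆ A ∧ x ∈ B ∧ B.card = t + 1 ∧
      (∀ y ∈ B, Relation.ReflTransGen (fun a b => a ∈ B ∧ b ∈ B ∧ R a b) x y) ∧
      (∃ f : ℕ → V, f 0 = x ∧ (∀ i, f (i + 1) = f i ∨ R (f i) (f (i + 1))) ∧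
        ∀ y ∈ B, ∃ i ≤ 2 * t, f i = y) ∧
      ∀ h : V → ℝ, (∀ a b, R a b → h b ≤ h a + 1) → ∀ y ∈ B, h y ≤ h x + t := by
  induction t with
  | zero =>
    refine ⟨{x}, by simpa using hx, by simp, by simp, ?_, ⟨fun _ => x, rfl, fun _ => Or.inl rfl, ?_⟩,
      ?_⟩
    · intro y hy
      rw [mem_singleton.1 hy]
    · intro y hy
      exact ⟨0, le_rfl, (mem_singleton.1 hy).symm⟩
    · intro h _ y hy
      rw [mem_singleton.1 hy]
      simp
  | succ t ih =>
    obtain ⟨B, hBA, hxB, hc, hconn, ⟨f, f0, fs, fc⟩, hh⟩ := ih (by omega)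
    obtain ⟨y, hyA, hyB⟩ : ∃ y ∈ A, y ∉ B := by
      by_contra hn
      have : A ⊆ B := fun y hy => by
        by_contra h2
        exact hn ⟨y, hy, h2⟩
      have := card_le_card this
      omega
    obtain ⟨a, z, ha, hz, hzB, haz⟩ := exit hxB hyB (hA y hyA)
    have hmono : ∀ w ∈ B, Relation.ReflTransGen
        (fun a b => a ∈ insert z B ∧ b ∈ insert z B ∧ R a b) x w := fun w hw =>
      Relation.ReflTransGen.mono
        (fun _ _ h => ⟨mem_insert_of_mem h.1, mem_insert_of_mem h.2.1, h.2.2⟩) _ _ (hconn w hw)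
    refine ⟨insert z B, insert_subset hz hBA, mem_insert_of_mem hxB,
      by rw [card_insert_of_notMem hzB, hc], ?_, ?_, ?_⟩
    · intro w hw
      rcases mem_insert.1 hw with rfl | hw
      · exact (hmono a ha).tail ⟨mem_insert_of_mem ha, mem_insert_self _ _, haz⟩
      · exact hmono w hw
    · obtain ⟨j, hj, hja⟩ := fc a ha
      refine ⟨fun i => if i ≤ j then f i else if i = j + 1 then z else f (i - 2), by simp [f0],
        fun i => ?_, fun w hw => ?_⟩
      · rcases lt_trichotomy i j with h | h | h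
        · simp only [if_pos (show i + 1 ≤ j by omega), if_pos h.le]
          exact fs i
        · subst h
          simp only [if_neg (show ¬ i + 1 ≤ i by omega), le_refl, if_true, hja]
          exact Or.inr haz
        · by_cases h2 : i = j + 1
          · subst h2
            simp only [if_neg (show ¬ j + 1 + 1 ≤ j by omega), if_neg (show ¬ j + 1 ≤ j by omega),
              if_neg (show ¬ j + 1 + 1 = j + 1 by omega), if_true,
              show j + 1 + 1 - 2 = j by omega, hja]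
            exact Or.inr (hR _ _ haz)
          · simp only [if_neg (show ¬ i + 1 ≤ j by omega), if_neg (show ¬ i ≤ j by omega),
              if_neg (show ¬ i + 1 = j + 1 by omega), if_neg h2,
              show i + 1 - 2 = i - 2 + 1 by omega]
            exact fs (i - 2)
      · rcases mem_insert.1 hw with rfl | hw
        · exact ⟨j + 1, by omega, by simp⟩
        · obtain ⟨i, hi, hiw⟩ := fc w hw
          by_cases h : i ≤ j
          · exact ⟨i, by omega, by simp only [if_pos h, hiw]⟩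
          · refine ⟨i + 2, by omega, ?_⟩
            simp only [if_neg (show ¬ i + 2 ≤ j by omega), if_neg (show ¬ i + 2 = j + 1 by omega),
              Nat.add_sub_cancel, hiw]
    · intro h hh1 w hw
      push_cast
      rcases mem_insert.1 hw with rfl | hw
      · have := hh h hh1 a ha
        have := hh1 a w haz
        linarith
      · have := hh h hh1 w hw
        linarith

theorem whole (hR : ∀ a b, R a b → R b a) (A : Finset V) (x : V) (hx : x ∈ A)
    (hA : ∀ y ∈ A, Relation.ReflTransGen (fun a b => a ∈ A ∧ b ∈ A ∧ R a b) x y) :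
    (∃ f : ℕ → V, f 0 = x ∧ (∀ i, f (i + 1) = f i ∨ R (f i) (f (i + 1))) ∧
        ∀ y ∈ A, ∃ i ≤ 2 * A.card, f i = y) ∧
      ∀ h : V → ℝ, (∀ a b, R a b → h b ≤ h a + 1) → ∀ y ∈ A, h y ≤ h x + A.card := by
  have hpos : 0 < A.card := card_pos.2 ⟨x, hx⟩
  obtain ⟨t, ht⟩ : ∃ t, A.card = t + 1 := ⟨A.card - 1, by omega⟩
  obtain ⟨B, hBA, -, hc, -, ⟨f, f0, fs, fc⟩, hh⟩ := grow hR A x hx hA t ht.ge
  have e : B = A := eq_of_subset_of_card_le hBA (by omega)
  subst e
  refine ⟨⟨f, f0, fs, fun y hy => ?_⟩, fun h h1 y hy => ?_⟩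
  · obtain ⟨i, hi, h⟩ := fc y hy
    exact ⟨i, by omega, h⟩
  · have := hh h h1 y hy
    rw [ht]
    push_cast
    linarith

end Walk

theorem st_WALK : St_WALK := by
  intro V _ R hR A x hx hA
  refine ⟨(Walk.whole hR A x hx hA).1, fun t h1 h2 => ?_⟩
  obtain ⟨s, rfl⟩ : ∃ s, t = s + 1 := ⟨t - 1, by omega⟩
  obtain ⟨B, a1, a2, a3, a4, -⟩ := Walk.grow hR A x hx hA s h2
  exact ⟨B, a1, a2, a3, a4⟩

theorem st_ANI (hS : St_SEQ) (_hW : St_WALK) : St_ANI := by
  intro d
  obtain ⟨C, hC, H⟩ := hS d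
  refine ⟨(C * 3) ^ d, one_le_pow₀ (by linarith), fun x₀ t => ?_⟩
  rcases Nat.eq_zero_or_pos t with rfl | ht
  · refine ⟨∅, by simp, by simp, fun Γ _ hx hc => ?_⟩
    have := card_pos.2 ⟨x₀, hx⟩
    omega
  obtain ⟨F, hF, hall⟩ := H x₀ (2 * t) t ht
  refine ⟨flt F fun Γ => Γ.card = t ∧ ∀ y ∈ Γ, zd x₀ y ≤ t, ?_, fun Γ hΓ => (mem_flt.1 hΓ).2,
    fun Γ hc hx hcard => ?_⟩
  · have h1 : ((flt F fun Γ => Γ.card = t ∧ ∀ y ∈ Γ, zd x₀ y ≤ t).card : ℝ) ≤ F.card := by
      exact_mod_cast card_le_card fun Γ hΓ => (mem_flt.1 hΓ).1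
    have ht' : (t : ℝ) ≠ 0 := by exact_mod_cast ht.ne'
    have e : (1 : ℝ) + ((2 * t : ℕ) : ℝ) / t = 3 := by
      push_cast
      field_simp
      norm_num
    rw [e, pow_mul] at hF
    exact h1.trans hF
  · obtain ⟨⟨f, f0, fs, fc⟩, hh⟩ := Walk.whole (R := fun a b : Zd d => zd a b ≤ 1)
      (fun a b h => by rwa [zd_comm]) Γ x₀ hx (hc x₀ hx)
    refine mem_flt.2 ⟨hall f (fun i => ?_) f0 Γ hcard (by rwa [hcard] at fc), hcard, fun y hy => ?_⟩
    · rcases fs i with h | h
      · rw [h, zd_self]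
        exact zero_le_one
      · exact h
    · have := hh (zd x₀) (fun a b h => (zd_tri x₀ a b).trans (by linarith)) y hy
      rwa [zd_self, zero_add, hcard] at this

end Pool.Agent.TPC
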