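import Pool.Agent.Lib.TPC.Path

/-! The van den Berg-Kesten inequality on finite product spaces. -/

open Finset

namespace Pool.Agent.TPC

namespace BK

variable {ι : Type} [DecidableEq ι]

/-- pointwise inequality behind the doubling of one coordinate -/
lemma key {p : ℝ} (h0 : 0 ≤ p) (h1 : p ≤ 1) {a b c d : Prop} (hab : a → b) (hac : a → c)
    (hbd : b → d) (hcd : c → d) :
    p * ind (b ∨ c) + (1 - p) * ind a ≤
      p * (p * ind d + (1 - p) * ind b) + (1 - p) * (p * ind c + (1 - p) * ind a) := by
  have hq : 0 ≤ p * (1 - p) := mul_nonneg h0 (by linarith)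
  by_cases ha : a
  · rw [ind_pos ha, ind_pos (hab ha), ind_pos (hac ha), ind_pos (hbd (hab ha)),
      ind_pos (Or.inl (hab ha))]
    nlinarith
  by_cases hb : b
  · rw [ind_neg ha, ind_pos hb, ind_pos (hbd hb), ind_pos (Or.inl hb)]
    have := mul_nonneg hq (ind_nonneg c)
    nlinarith
  by_cases hc : c
  · rw [ind_neg ha, ind_neg hb, ind_pos hc, ind_pos (hcd hc), ind_pos (Or.inr hc)]
    nlinarith
  · rw [ind_neg ha, ind_neg hb, ind_neg hc, ind_neg (not_or.2 ⟨hb, hc⟩)]
    have := mul_nonneg (mul_nonneg h0 h0) (ind_nonneg d)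
    nlinarith

/-- two-copy form for a relation monotone in both arguments -/
lemma two_copy {π : ι → ℝ} (hπ : Prob π) (E : Finset ι) :
    ∀ R : Finset ι → Finset ι → Prop, (∀ S S' T T', S ⊆ S' → T ⊆ T' → R S T → R S' T') →
      PE E π (fun ω => ind (∃ S T : Finset ι, S ⊆ ω ∧ T ⊆ ω ∧ Disjoint S T ∧ R S T)) ≤
        PE E π (fun a => PE E π (fun b => ind (R a b))) := by
  induction E using Finset.induction_on with
  | empty =>
    intro R hR
    simp only [PE_empty]
    refine ind_mono ?_
    rintro ⟨S, T, hS, hT, -, h⟩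
    exact hR _ _ _ _ hS hT h
  | insert e E he ih =>
    intro R hR
    have hp := hπ e
    have h1 : PE E π (fun ω => ind (∃ S T : Finset ι, S ⊆ insert e ω ∧ T ⊆ insert e ω ∧
        Disjoint S T ∧ R S T)) ≤
        PE E π (fun a => PE E π (fun b => ind (R (insert e a) b ∨ R a (insert e b)))) := by
      refine le_trans (PE_ind_mono hπ ?_)
        (ih (fun a b => R (insert e a) b ∨ R a (insert e b)) ?_)
      · rintro ω ⟨S, T, hS, hT, hd, h⟩
        refine ⟨S.erase e, T.erase e, Finset.subset_insert_iff.1 hS, Finset.subset_insert_iff.1 hT,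
          hd.mono (Finset.erase_subset _ _) (Finset.erase_subset _ _), ?_⟩
        by_cases heT : e ∈ T
        · have heS : e ∉ S := fun h => Finset.disjoint_left.1 hd h heT
          right
          refine hR _ _ _ _ ?_ (Finset.insert_erase_subset e T) h
          rw [Finset.erase_eq_of_notMem heS]
        · left
          refine hR _ _ _ _ (Finset.insert_erase_subset e S) ?_ h
          rw [Finset.erase_eq_of_notMem heT]
      · rintro S S' T T' hS hT (h | h)
        · exact Or.inl (hR _ _ _ _ (Finset.insert_subset_insert e hS) hT h)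
        · exact Or.inr (hR _ _ _ _ hS (Finset.insert_subset_insert e hT) h)
    have h2 := ih R hR
    rw [PE_insert he, PE_insert he]
    simp only [PE_insert he]
    refine le_trans (add_le_add (mul_le_mul_of_nonneg_left h1 hp.1)
      (mul_le_mul_of_nonneg_left h2 (by linarith [hp.2]))) ?_
    simp only [← PE_mul_left, ← PE_add]
    refine PE_mono hπ fun a => PE_mono hπ fun b => ?_
    exact key hp.1 hp.2 (hR _ _ _ _ (Finset.subset_insert e a) (Finset.Subset.refl b))
      (hR _ _ _ _ (Finset.Subset.refl a) (Finset.subset_insert e b))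
      (hR _ _ _ _ (Finset.Subset.refl _) (Finset.subset_insert e b))
      (hR _ _ _ _ (Finset.subset_insert e a) (Finset.Subset.refl _))

end BK

theorem st_BK2 : St_BK2 := by
  intro ι _ E π hπ A B hA hB
  refine le_trans (BK.two_copy hπ E (fun S T => A S ∧ B T)
    fun S S' T T' hS hT h => ⟨hA hS h.1, hB hT h.2⟩) (le_of_eq ?_)
  simp only [ind_and, PE_mul_left, PE_mul_right]

theorem st_BK (h : St_BK2) : St_BK := by
  intro ι _ E π hπ κ s A hA
  classical
  induction s using Finset.induction_on with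
  | empty =>
    rw [Finset.prod_empty]
    exact PE_ind_le_one hπ _
  | insert k s hk ih =>
    rw [Finset.prod_insert hk]
    refine le_trans ?_ (mul_le_mul_of_nonneg_left ih (PE_ind_nonneg hπ _))
    refine le_trans (PE_ind_mono hπ ?_) (h ι E π hπ (A k)
      (fun ω => ∃ W : κ → Finset ι, (∀ i ∈ s, W i ⊆ ω ∧ A i (W i)) ∧
        ∀ i ∈ s, ∀ j ∈ s, i ≠ j → Disjoint (W i) (W j)) (hA k) ?_)
    · rintro ω ⟨W, h1, h2⟩
      refine ⟨W k, s.biUnion W, (h1 k (Finset.mem_insert_self _ _)).1, ?_, ?_,
        (h1 k (Finset.mem_insert_self _ _)).2, W, ?_, ?_⟩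
      · exact Finset.biUnion_subset.2 fun i hi => (h1 i (Finset.mem_insert_of_mem hi)).1
      · refine (Finset.disjoint_biUnion_right _ _ _).2 fun i hi => ?_
        exact h2 k (Finset.mem_insert_self _ _) i (Finset.mem_insert_of_mem hi)
          (fun e => hk (e ▸ hi))
      · exact fun i hi => ⟨Finset.subset_biUnion_of_mem W hi, (h1 i (Finset.mem_insert_of_mem hi)).2⟩
      · exact fun i hi j hj => h2 i (Finset.mem_insert_of_mem hi) j (Finset.mem_insert_of_mem hj)
    · rintro ω ω' hω ⟨W, h1, h2⟩
      exact ⟨W, fun i hi => ⟨(h1 i hi).1.trans hω, (h1 i hi).2⟩, h2⟩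

end Pool.Agent.TPC
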