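import Pool.Agent.Lib.TPC.Graph
import Pool.Agent.Lib.MP_81a99a_pr.Defs

/-! Lattice and torus objects. -/

open Finset MeasureTheory ProbabilityTheory

namespace Pool.Agent.TPC

open Pool.Agent.Lib.MP_81a99a_pr (lattice torus cluster kthLargest pc MeanField)

/-- The high-dimensional hypothesis: the critical two-point function of `ℤ^d` has order
`‖x‖^(2-d)` (sup norm). -/
def HighDim (d : ℕ) : Prop :=
  ∃ c C : ℝ, 0 < c ∧ ∀ x : Fin d → ℤ, x ≠ 0 →
    c * ‖x‖ ^ (2 - (d : ℝ)) ≤ (setBernoulli (lattice d).edgeSet (pc d)).real {ω | x ∈ cluster ω 0} ∧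
    (setBernoulli (lattice d).edgeSet (pc d)).real {ω | x ∈ cluster ω 0} ≤ C * ‖x‖ ^ (2 - (d : ℝ))

abbrev Zd (d : ℕ) := Fin d → ℤ
abbrev Tor (d n : ℕ) := Fin d → ZMod n

/-- the kernel `(1+r)^(-a)` -/
noncomputable def kk (a r : ℝ) : ℝ := (1 + r) ^ (-a)

/-- a pseudo-metric whose balls of radius `r` have at most `(2r+1)^d` points -/
structure Met (d : ℕ) {X : Type} (ρ : X → X → ℝ) : Prop where
  self : ∀ x, ρ x x = 0
  symm : ∀ x y, ρ x y = ρ y x
  tri : ∀ x y z, ρ x z ≤ ρ x y + ρ y z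
  ball : ∀ (x : X) (r : ℝ) (S : Finset X), 0 ≤ r → (∀ y ∈ S, ρ x y ≤ r) →
    (S.card : ℝ) ≤ (2 * r + 1) ^ d

variable {d : ℕ}

/-- sup distance on `ℤ^d` -/
noncomputable def zd (x y : Zd d) : ℝ := ‖x - y‖

/-- the box with corners `a ≤ b` -/
noncomputable def rect (a b : Zd d) : Finset (Zd d) :=
  Fintype.piFinset fun i => Finset.Icc (a i) (b i)

/-- the cube of radius `r` around `x` -/
noncomputable def box (x : Zd d) (r : ℕ) : Finset (Zd d) := rect (fun i => x i - r) fun i => x i + r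

/-- two-point function of `ℤ^d` inside `D` -/
noncomputable def tz (p : ℝ) (D : Finset (Zd d)) (x y : Zd d) : ℝ :=
  tau (lattice d) (fun _ => p) D x y

/-- susceptibility of `ℤ^d` inside `D` -/
noncomputable def cz (p : ℝ) (D : Finset (Zd d)) (x : Zd d) : ℝ := chi (lattice d) (fun _ => p) D x

/-- law of the cluster of `ℤ^d` inside `D` -/
noncomputable def ez (p : ℝ) (D : Finset (Zd d)) (x : Zd d) (F : Finset (Zd d) → ℝ) : ℝ :=
  EC (lattice d) (fun _ => p) D x F

/-- exit mass of the cube of radius `r` -/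
noncomputable def phi (d : ℕ) (p : ℝ) (r : ℕ) : ℝ :=
  p * ∑ y ∈ box (0 : Zd d) r, ∑ z ∈ box (0 : Zd d) (r + 1) \ box 0 r,
    ind ((lattice d).Adj y z) * tz p (box 0 r) 0 y

/-- finite-volume form of the hypothesis; `p` is the critical value -/
structure HZ (d : ℕ) (p c C : ℝ) : Prop where
  hd : 9 ≤ d
  p0 : 0 < p
  p1 : p < 1
  c0 : 0 < c
  up : ∀ (D : Finset (Zd d)) (x y : Zd d), tz p D x y ≤ C * kk (d - 2) (zd x y)
  low : ∀ x y : Zd d, ∃ R : ℕ, c * kk (d - 2) (zd x y) ≤ tz p (box x R) x y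

variable {n : ℕ}

/-- projection to the torus -/
def proj (n : ℕ) (x : Zd d) : Tor d n := fun i => (x i : ZMod n)

/-- the lift with coordinates of least absolute value -/
def lift0 (x : Tor d n) : Zd d := fun i => (x i).valMinAbs

/-- sup distance on the torus -/
noncomputable def td (x y : Tor d n) : ℝ := ‖lift0 (x - y)‖

/-- ball of the torus -/
noncomputable def tball [NeZero n] (x : Tor d n) (r : ℝ) : Finset (Tor d n) :=
  flt univ fun y => td x y ≤ r

/-- the torus kernel `<x-y>^(2-d) + l^2/V` -/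
noncomputable def tg (l : ℝ) (x y : Tor d n) : ℝ := kk (d - 2) (td x y) + l ^ 2 / (n : ℝ) ^ d

/-- two-point function of the torus inside `D` -/
noncomputable def tt (p : ℝ) (D : Finset (Tor d n)) (x y : Tor d n) : ℝ :=
  tau (torus d n) (fun _ => p) D x y

/-- block map `ℤ^d → ℤ^d`, `x ↦ ⌊x m / n⌋` -/
def zblk (n m : ℕ) (x : Zd d) : Zd d := fun i => x i * m / n

/-- block map from the torus of side `n` to the torus of side `m` -/
def tblk (m : ℕ) (x : Tor d n) : Tor d m := fun i => (((x i).val * m / n : ℕ) : ZMod m)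

/-- a reference point of the block `b`: `⌈b n / m⌉` -/
def tctr (n : ℕ) {m : ℕ} (b : Tor d m) : Tor d n :=
  fun i => ((((b i).val * n + m - 1) / m : ℕ) : ZMod n)

/-- there are two distinct clusters with at least `k` points each -/
def Two {V : Type} [Fintype V] [DecidableEq V] (G : SimpleGraph V) (k : ℝ)
    (ω : Finset (Sym2 V)) : Prop :=
  ∃ x y, ¬ conn G univ ω x y ∧ k ≤ (cl G univ ω x).card ∧ k ≤ (cl G univ ω y).card

/-- probability on the torus that there are two clusters with at least `k` points -/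
noncomputable def pTwo (d n : ℕ) [NeZero n] (p k : ℝ) : ℝ :=
  PE univ (fun _ => p) fun ω => ind (Two (torus d n) k ω)

/-! ### coarse geometry of `ℤ^d` -/

/-- `S` is connected for steps of sup norm at most one -/
def StarConn (S : Finset (Zd d)) : Prop :=
  ∀ x ∈ S, ∀ y ∈ S, Relation.ReflTransGen (fun a b => a ∈ S ∧ b ∈ S ∧ zd a b ≤ 1) x y

/-- nearest neighbour path from `x` to `y` all of whose points (ends included) lie in `X` -/
def Joined (X : Set (Zd d)) (x y : Zd d) : Prop :=
  x ∈ X ∧ Relation.ReflTransGen (fun a b => b ∈ X ∧ (lattice d).Adj a b) x y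

/-- `x` lies in `Γ` or in a finite component of its complement -/
def InHull (Γ : Finset (Zd d)) (x : Zd d) : Prop := {y | Joined (Γ : Set (Zd d))ᶜ x y}.Finite

/-- lazy walk with steps of sup norm at most one -/
def Lazy (f : ℕ → Zd d) : Prop := ∀ i, zd (f i) (f (i + 1)) ≤ 1

end Pool.Agent.TPC
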