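import Pool.Agent.Lib.TPC.Path

/-! Russo's formula for finite product measures and greedy colouring. -/

open Finset

namespace Pool.Agent.TPC

theorem st_RUSSO : St_RUSSO := by
  intro ι _ E f s
  induction E using Finset.induction_on generalizing f with
  | empty => simpa using hasDerivAt_const s (f ∅)
  | insert a E ha ih =>
    simp only [PE_insert ha, Finset.sum_insert ha]
    have h1 := ((hasDerivAt_id' s).mul (ih fun ω => f (insert a ω))).add
      (((hasDerivAt_id' s).const_sub 1).mul (ih f))
    refine h1.congr_deriv ?_
    have e1 : PE E (fun _ => s) (fun ω => f (insert a (insert a ω)) - f ((insert a ω).erase a)) =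
        PE E (fun _ => s) (fun ω => f (insert a ω)) - PE E (fun _ => s) f := by
      rw [← PE_sub]
      exact PE_congr fun ω hω => by
        rw [Finset.insert_idem, Finset.erase_insert fun h => ha (hω h)]
    have e2 : PE E (fun _ => s) (fun ω => f (insert a ω) - f (ω.erase a)) =
        PE E (fun _ => s) (fun ω => f (insert a ω)) - PE E (fun _ => s) f := by
      rw [← PE_sub]
      exact PE_congr fun ω hω => by rw [Finset.erase_eq_of_notMem fun h => ha (hω h)]
    have e3 : ∀ e ∈ E,
        PE E (fun _ => s) (fun ω => f (insert e (insert a ω)) - f ((insert a ω).erase e)) =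
        PE E (fun _ => s) (fun ω => f (insert a (insert e ω)) - f (insert a (ω.erase e))) := by
      intro e he
      have hne : a ≠ e := fun h => ha (h ▸ he)
      exact PE_congr fun ω _ => by rw [Finset.insert_comm e a, Finset.erase_insert_of_ne hne]
    rw [e1, e2, Finset.sum_add_distrib, ← Finset.mul_sum, ← Finset.mul_sum,
      Finset.sum_congr rfl e3]
    ring

theorem st_COL : St_COL := by
  intro B _ R Ξ hs hb
  classical
  have key : ∀ S : Finset B, ∃ col : B → Fin (Ξ + 1),
      ∀ a ∈ S, ∀ b ∈ S, a ≠ b → R a b → col a ≠ col b := by
    intro S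
    induction S using Finset.induction_on with
    | empty => exact ⟨fun _ => 0, by simp⟩
    | insert x S hx ih =>
      obtain ⟨col, hc⟩ := ih
      have h1 : ((S.filter (R x)).image col).card < (Finset.univ : Finset (Fin (Ξ + 1))).card := by
        have := hb x (S.filter (R x)) fun b h => (Finset.mem_filter.1 h).2
        have h2 := Finset.card_image_le (s := S.filter (R x)) (f := col)
        rw [Finset.card_univ, Fintype.card_fin]
        omega
      obtain ⟨c, -, hc2⟩ := Finset.exists_mem_notMem_of_card_lt_card h1
      have h3 : ∀ b ∈ S, R x b → col b ≠ c := fun b h r e =>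
        hc2 (Finset.mem_image.2 ⟨b, Finset.mem_filter.2 ⟨h, r⟩, e⟩)
      have h4 : ∀ b ∈ S, Function.update col x c b = col b := fun b h =>
        Function.update_of_ne (fun e : b = x => hx (e ▸ h)) _ _
      refine ⟨Function.update col x c, fun a ha b hb' hab r => ?_⟩
      rcases Finset.mem_insert.1 ha with rfl | ha2
      · rcases Finset.mem_insert.1 hb' with rfl | hb2
        · exact absurd rfl hab
        · rw [Function.update_self, h4 b hb2]
          exact (h3 b hb2 r).symm
      · rcases Finset.mem_insert.1 hb' with rfl | hb2
        · rw [Function.update_self, h4 a ha2]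
          exact h3 a ha2 (hs _ _ r)
        · rw [h4 a ha2, h4 b hb2]
          exact hc a ha2 b hb2 hab r
  obtain ⟨col, h⟩ := key Finset.univ
  exact ⟨col, fun a b => h a (Finset.mem_univ _) b (Finset.mem_univ _)⟩

end Pool.Agent.TPC
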