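import Pool.Agent.Lib.TPC.Path

/-! Path decompositions with the BK inequality. -/

open Finset

namespace Pool.Agent.TPC

namespace PL12

variable {V : Type} [DecidableEq V] {G : SimpleGraph V} {π : Sym2 V → ℝ}

lemma two (h : St_BK) (hπ : Prob π) (E : Finset (Sym2 V)) (D D' : Finset V) (x y u v : V) :
    PE E π (fun ω => ind (∃ S T : Finset (Sym2 V), S ⊆ ω ∧ T ⊆ ω ∧ Disjoint S T ∧
      conn G D S x y ∧ conn G D' T u v)) ≤ tau G π D x y * tau G π D' u v :=
  (bk2 h E hπ (conn_monotone G D x y) (conn_monotone G D' u v)).trans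
    (mul_le_mul (PE_conn_le hπ E x y) (PE_conn_le hπ E u v) (PE_ind_nonneg hπ _) (tau_nonneg hπ))

lemma cut {D D' : Finset V} {ω : Finset (Sym2 V)} {x y u : V} (w : (opD G D ω).Walk x y) (hw : w.IsPath)
    (hu : u ∈ w.support) (hD : ∀ v ∈ w.support, v ∈ D') :
    ∃ S T : Finset (Sym2 V), S ⊆ w.edges.toFinset ∧ T ⊆ w.edges.toFinset ∧ Disjoint S T ∧
      conn G D' S x u ∧ conn G D' T u y := by
  obtain ⟨w₁, w₂, rfl⟩ := cut_at w hu
  refine ⟨w₁.edges.toFinset, w₂.edges.toFinset, fun e he => ?_, fun e he => ?_,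
    append_disjoint w₁ w₂ hw.isTrail, walk_conn w₁ fun v hv => hD v ?_, walk_conn w₂ fun v hv => hD v ?_⟩
  · rw [SimpleGraph.Walk.edges_append, List.toFinset_append]
    exact mem_union_left _ he
  · rw [SimpleGraph.Walk.edges_append, List.toFinset_append]
    exact mem_union_right _ he
  · exact (SimpleGraph.Walk.mem_support_append_iff _ _).2 (Or.inl hv)
  · exact (SimpleGraph.Walk.mem_support_append_iff _ _).2 (Or.inr hv)

omit [DecidableEq V] in
lemma not_mem_edges {H H' : SimpleGraph V} {x y a b : V} (w : H.Walk x y) (w' : H'.Walk a b)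
    (h : ∀ v ∈ w'.support, v ∉ w.support) : ∀ e ∈ w'.edges, e ∉ w.edges := by
  intro e he h2
  induction e using Sym2.ind with
  | h c d => exact h c (w'.fst_mem_support_of_mem_edges he) (w.fst_mem_support_of_mem_edges h2)

end PL12

open PL12

theorem st_PL1 (h : St_BK) : St_PL1 := by
  intro V _ G π hπ U S x y
  rw [← PE_conn (D := U \ S) (edges_mono sdiff_subset) π x y]
  refine le_trans (PE_ind_mono hπ (Q := fun ω => conn G (U \ S) ω x y ∨ ∃ u ∈ S,
    ∃ A B : Finset (Sym2 V), A ⊆ ω ∧ B ⊆ ω ∧ Disjoint A B ∧ conn G U A x u ∧ conn G U B u y) fun ω hc => ?_)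
    ((PE_ind_or hπ _ _).trans (add_le_add le_rfl ((PE_ind_exists hπ _ _).trans
      (sum_le_sum fun u _ => two h hπ _ U U x u u y))))
  obtain ⟨w, hw⟩ := hc.exists_path
  by_cases hS : ∃ u ∈ w.support, u ∈ S
  · obtain ⟨u, hu, huS⟩ := hS
    obtain ⟨A, B, h1, h2, h3⟩ := cut w hw hu (walk_support_mem w hc.1)
    exact Or.inr ⟨u, huS, A, B, h1.trans (walk_edges_subset w), h2.trans (walk_edges_subset w), h3⟩
  · exact Or.inl ((walk_conn w fun v hv => mem_sdiff.2 ⟨walk_support_mem w hc.1 v hv,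
      fun h2 => hS ⟨v, hv, h2⟩⟩).mono subset_rfl (walk_edges_subset w))

theorem st_PL5 (h : St_BK) : St_PL5 := by
  intro V _ G π hπ S f x y
  refine le_trans (PE_ind_mono hπ (Q := fun ω => ∃ u ∈ S,
    ∃ A B : Finset (Sym2 V), A ⊆ ω ∧ B ⊆ ω ∧ Disjoint A B ∧ conn G (flt S fun z => f z ≤ f u) A x u ∧
      conn G (flt S fun z => f z ≤ f u) B u y) fun ω hc => ?_)
    ((PE_ind_exists hπ _ _).trans (sum_le_sum fun u _ => two h hπ _ _ _ x u u y))
  obtain ⟨w, hw⟩ := hc.exists_path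
  obtain ⟨u, hu, hm⟩ := exists_max_image w.support.toFinset f ⟨x, List.mem_toFinset.2 w.start_mem_support⟩
  have hu' := List.mem_toFinset.1 hu
  obtain ⟨A, B, h1, h2, h3⟩ := cut (D' := flt S fun z => f z ≤ f u) w hw hu' fun v hv =>
    mem_flt.2 ⟨walk_support_mem w hc.1 v hv, hm v (List.mem_toFinset.2 hv)⟩
  exact ⟨u, walk_support_mem w hc.1 u hu', A, B, h1.trans (walk_edges_subset w),
    h2.trans (walk_edges_subset w), h3⟩

theorem st_PL2 (h : St_BK) : St_PL2 := by
  intro V _ G π hπ E D₁ D₂ x y u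
  refine le_trans (PE_ind_mono hπ (Q := fun ω => ∃ v ∈ D₁,
    ∃ A B C : Finset (Sym2 V), A ⊆ ω ∧ B ⊆ ω ∧ C ⊆ ω ∧ Disjoint A B ∧ Disjoint A C ∧ Disjoint B C ∧
      conn G D₁ A x v ∧ conn G D₁ B v y ∧ conn G D₂ C v u) fun ω hc => ?_)
    ((PE_ind_exists hπ _ _).trans (sum_le_sum fun v _ => (bk3 h E hπ (conn_monotone G D₁ x v)
      (conn_monotone G D₁ v y) (conn_monotone G D₂ v u)).trans
      (mul_le_mul (mul_le_mul (PE_conn_le hπ E x v) (PE_conn_le hπ E v y) (PE_ind_nonneg hπ _)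
        (tau_nonneg hπ)) (PE_conn_le hπ E v u) (PE_ind_nonneg hπ _)
        (mul_nonneg (tau_nonneg hπ) (tau_nonneg hπ)))))
  obtain ⟨w, hw⟩ := hc.1.exists_path
  obtain ⟨w', -⟩ := hc.2.exists_path
  have key : ∃ v ∈ w.support, ∃ C : Finset (Sym2 V), C ⊆ ω ∧ Disjoint w.edges.toFinset C ∧
      conn G D₂ C v u := by
    by_cases hu : u ∈ w.support
    · exact ⟨u, hu, ∅, empty_subset _, disjoint_empty_right _, conn.refl hc.2.right⟩
    · obtain ⟨a, b, w₁, hab, w₂, -, h1, h2⟩ := last_hit (· ∈ w.support) w' hu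
        ⟨x, w'.start_mem_support, w.start_mem_support⟩
      refine ⟨a, h1, _, walk_edges_subset (SimpleGraph.Walk.cons hab w₂), ?_,
        walk_conn _ (walk_support_mem _ hab.2.1)⟩
      refine disjoint_right.2 fun e he h3 => ?_
      rw [List.mem_toFinset] at he h3
      rw [SimpleGraph.Walk.edges_cons, List.mem_cons] at he
      rcases he with rfl | he
      · exact h2 b w₂.start_mem_support (w.snd_mem_support_of_mem_edges h3)
      · exact not_mem_edges w w₂ h2 e he h3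
  obtain ⟨v, hv, C, h1, h2, h3⟩ := key
  obtain ⟨A, B, h4, h5, h6, h7, h8⟩ := cut w hw hv (walk_support_mem w hc.1.1)
  exact ⟨v, walk_support_mem w hc.1.1 v hv, A, B, C, h4.trans (walk_edges_subset w),
    h5.trans (walk_edges_subset w), h1, h6, h2.mono_left h4, h2.mono_left h5, h7, h8, h3⟩

theorem st_ET2 (h : St_PL2) : St_ET2 := by
  intro V _ G π hπ D z f hf
  have h1 : EC G π D z (fun C => ∑ y ∈ C, ∑ u ∈ C, f y u) = ∑ y ∈ D, ∑ u ∈ D,
      PE (edges G D) π (fun ω => ind (conn G D ω z y ∧ conn G D ω z u)) * f y u := by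
    simp only [EC, sum_cl, mul_sum, ← mul_assoc, ← ind_and]
    rw [PE_sum]
    refine sum_congr rfl fun y _ => ?_
    rw [PE_sum]
    exact sum_congr rfl fun u _ => PE_mul_right _ _ _ _
  rw [h1]
  simp only [mul_sum]
  rw [sum_comm (s := D) (t := D) (f := fun v y => ∑ u ∈ D,
    tau G π D z v * (tau G π D v y * tau G π D v u * f y u))]
  refine sum_le_sum fun y _ => ?_
  rw [sum_comm (s := D) (t := D) (f := fun v u => tau G π D z v * (tau G π D v y * tau G π D v u * f y u))]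
  refine sum_le_sum fun u _ => (mul_le_mul_of_nonneg_right (h V G π hπ _ D D z y u) (hf y u)).trans_eq ?_
  rw [sum_mul]
  exact sum_congr rfl fun v _ => by ring

end Pool.Agent.TPC
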