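import Pool.Agent.Lib.TPC.Path

/-! Simon-Lieb inequality; the susceptibility under sprinkling. -/

open Finset

namespace Pool.Agent.TPC

namespace PL4

variable {V : Type} [DecidableEq V] {G : SimpleGraph V}

omit [DecidableEq V] in
/-- first edge of a walk without the property `P` -/
lemma first_edge {H : SimpleGraph V} (P : Sym2 V → Prop) {x y : V} (w : H.Walk x y) :
    (∀ e ∈ w.edges, P e) ∨ ∃ (a b : V) (w₁ : H.Walk x a) (h : H.Adj a b) (w₂ : H.Walk b y),
      w = w₁.append (SimpleGraph.Walk.cons h w₂) ∧ (∀ e ∈ w₁.edges, P e) ∧ ¬ P s(a, b) := by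
  induction w with
  | nil => exact Or.inl (by simp)
  | @cons a b c hab w ih =>
    by_cases hb : P s(a, b)
    · rcases ih with h | ⟨a', b', w₁, h', w₂, e, h1, h2⟩
      · exact Or.inl (by simpa [hb] using h)
      · exact Or.inr ⟨a', b', .cons hab w₁, h', w₂, by rw [e]; rfl, by simpa [hb] using h1, h2⟩
    · exact Or.inr ⟨a, b, .nil, hab, w, rfl, by simp, hb⟩

omit [DecidableEq V] in
lemma trail_cut {H : SimpleGraph V} {x a b y : V} {w₁ : H.Walk x a} {h : H.Adj a b} {w₂ : H.Walk b y}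
    (ht : (w₁.append (SimpleGraph.Walk.cons h w₂)).IsTrail) :
    s(a, b) ∉ w₁.edges ∧ s(a, b) ∉ w₂.edges ∧ ∀ e ∈ w₁.edges, e ∉ w₂.edges := by
  have h1 := ht.edges_nodup
  rw [SimpleGraph.Walk.edges_append, SimpleGraph.Walk.edges_cons] at h1
  have h2 := List.disjoint_of_nodup_append h1
  exact ⟨fun h3 => h2 h3 List.mem_cons_self, (List.nodup_cons.1 h1.of_append_right).1,
    fun e he h3 => h2 he (List.mem_cons_of_mem _ h3)⟩

/-- edges of `E` with an open bit among those listed in `s` -/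
noncomputable def pr (E : Finset (Sym2 V)) (s : Finset Bool) (ω : Finset (Sym2 V × Bool)) : Finset (Sym2 V) :=
  flt E fun a => ∃ b ∈ s.image (Prod.mk a), b ∈ ω

lemma mem_pr {E : Finset (Sym2 V)} {s : Finset Bool} {ω : Finset (Sym2 V × Bool)} {e : Sym2 V} :
    e ∈ pr E s ω ↔ e ∈ E ∧ ∃ c ∈ s, (e, c) ∈ ω := by
  rw [pr, mem_flt]
  exact and_congr_right fun _ => ⟨fun ⟨_, hb, h⟩ => by
    obtain ⟨c, hc, rfl⟩ := mem_image.1 hb
    exact ⟨c, hc, h⟩, fun ⟨c, hc, h⟩ => ⟨_, mem_image_of_mem _ hc, h⟩⟩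

lemma pr_mono (E : Finset (Sym2 V)) (s : Finset Bool) {ω ω' : Finset (Sym2 V × Bool)} (h : ω ⊆ ω') :
    pr E s ω ⊆ pr E s ω' := fun _ he => by
  obtain ⟨h1, c, h2, h3⟩ := mem_pr.1 he
  exact mem_pr.2 ⟨h1, c, h2, h h3⟩

lemma PE_pr (E : Finset (Sym2 V)) (s : Finset Bool) (ρ : Bool → ℝ) (f : Finset (Sym2 V) → ℝ) :
    PE (E ×ˢ univ) (fun z => ρ z.2) (fun ω => f (pr E s ω)) = PE E (fun _ => 1 - ∏ c ∈ s, (1 - ρ c)) f := by
  refine (PE_or E (fun a => s.image (Prod.mk a)) (fun a ha z hz => ?_) (fun a _ b _ hab => ?_) _ f).trans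
    (PE_congr_prob (fun e _ => ?_) f)
  · obtain ⟨c, -, rfl⟩ := mem_image.1 hz
    exact mem_product.2 ⟨ha, mem_univ _⟩
  · refine disjoint_left.2 fun z h1 h2 => ?_
    obtain ⟨c, -, rfl⟩ := mem_image.1 h1
    obtain ⟨c', -, e⟩ := mem_image.1 h2
    exact hab (congrArg Prod.fst e).symm
  · rw [prod_image fun _ _ _ _ e => congrArg Prod.snd e]

lemma tau_le (hBK : St_BK) (D : Finset V) {p q : ℝ} (h0 : 0 ≤ q) (hqp : q ≤ p) (h1 : p ≤ 1) (hq : q < 1) (x y : V) :
    tau G (fun _ => p) D x y ≤ tau G (fun _ => q) D x y + ∑ a ∈ D, ∑ b ∈ D, ind (G.Adj a b) *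
      (tau G (fun _ => q) D x a * ((p - q) / (1 - q)) * tau G (fun _ => p) D b y) := by
  have hq' : 0 < 1 - q := by linarith
  set ρ : Bool → ℝ := fun c => bif c then (p - q) / (1 - q) else q with hρ
  have hπ : Prob fun z : Sym2 V × Bool => ρ z.2 := by
    rintro ⟨e, c⟩
    cases c
    · exact ⟨h0, hq.le⟩
    · exact ⟨div_nonneg (by linarith) hq'.le, (div_le_one hq').2 (by linarith)⟩
  have hhi : ∀ u v, PE (edges G D ×ˢ univ) (fun z => ρ z.2)
      (fun ω => ind (conn G D (pr (edges G D) univ ω) u v)) = tau G (fun _ => p) D u v := fun u v => by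
    rw [PE_pr (edges G D) univ ρ fun ω => ind (conn G D ω u v), tau]
    refine PE_congr_prob (fun _ _ => ?_) _
    simp only [Fintype.prod_bool, hρ, cond_true, cond_false]
    field_simp
    ring
  have hlo : ∀ u v, PE (edges G D ×ˢ univ) (fun z => ρ z.2)
      (fun ω => ind (conn G D (pr (edges G D) {false} ω) u v)) = tau G (fun _ => q) D u v := fun u v => by
    rw [PE_pr (edges G D) {false} ρ fun ω => ind (conn G D ω u v), tau]
    refine PE_congr_prob (fun _ _ => ?_) _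
    simp [hρ]
  rw [← hhi x y, ← hlo x y, ← sum_product']
  refine le_trans (PE_ind_mono hπ (Q := fun ω => conn G D (pr (edges G D) {false} ω) x y ∨
    ∃ z ∈ D ×ˢ D, G.Adj z.1 z.2 ∧ ∃ S T R : Finset (Sym2 V × Bool), S ⊆ ω ∧ T ⊆ ω ∧ R ⊆ ω ∧ Disjoint S T ∧
      Disjoint S R ∧ Disjoint T R ∧ conn G D (pr (edges G D) {false} S) x z.1 ∧ (s(z.1, z.2), true) ∈ T ∧
        conn G D (pr (edges G D) univ R) z.2 y) fun ω h => ?_)
    ((PE_ind_or hπ _ _).trans (add_le_add le_rfl ((PE_ind_exists hπ _ _).trans (sum_le_sum fun z hz => ?_))))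
  · obtain ⟨w, hw⟩ := h.exists_path
    have he : ∀ {u v : V} (w' : (opD G D (pr (edges G D) univ ω)).Walk u v), ∀ e ∈ w'.edges,
        e ∈ edges G D ∧ ∃ c ∈ univ, (e, c) ∈ ω := fun w' e he =>
      mem_pr.1 (walk_edges_subset w' (List.mem_toFinset.2 he))
    rcases first_edge (fun e => (e, false) ∈ ω) w with h2 | ⟨a, b, w₁, hab, w₂, rfl, h2, h3⟩
    · refine Or.inl ((walk_conn w (walk_support_mem w h.1)).mono subset_rfl fun e h3 => ?_)
      have h4 := List.mem_toFinset.1 h3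
      exact mem_pr.2 ⟨(he w e h4).1, false, mem_singleton_self _, h2 e h4⟩
    · obtain ⟨c1, c2, c3⟩ := trail_cut hw.isTrail
      obtain ⟨-, c, -, hc⟩ := mem_pr.1 hab.2.2.2
      have hc' : (s(a, b), true) ∈ ω := by
        cases c
        exacts [absurd hc h3, hc]
      refine Or.inr ⟨(a, b), mem_product.2 ⟨hab.2.1, hab.2.2.1⟩, hab.1, flt ω (·.1 ∈ w₁.edges), {(s(a, b), true)},
        flt ω (·.1 ∈ w₂.edges), flt_subset _ _, singleton_subset_iff.2 hc', flt_subset _ _,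
        disjoint_singleton_right.2 fun h4 => c1 (mem_flt.1 h4).2,
        disjoint_left.2 fun z h4 h5 => c3 _ (mem_flt.1 h4).2 (mem_flt.1 h5).2,
        disjoint_singleton_left.2 fun h4 => c2 (mem_flt.1 h4).2, ?_, mem_singleton_self _, ?_⟩
      · refine (walk_conn w₁ (walk_support_mem w₁ h.1)).mono subset_rfl fun e h4 => ?_
        have h5 := List.mem_toFinset.1 h4
        exact mem_pr.2 ⟨(he w₁ e h5).1, false, mem_singleton_self _, mem_flt.2 ⟨h2 e h5, h5⟩⟩
      · refine (walk_conn w₂ (walk_support_mem w₂ hab.2.2.1)).mono subset_rfl fun e h4 => ?_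
        have h5 := List.mem_toFinset.1 h4
        obtain ⟨h6, c, h7, h8⟩ := he w₂ e h5
        exact mem_pr.2 ⟨h6, c, h7, mem_flt.2 ⟨h8, h5⟩⟩
  · by_cases ha : G.Adj z.1 z.2
    · rw [ind_pos ha, one_mul, ← hhi, ← hlo]
      have hm : (s(z.1, z.2), true) ∈ edges G D ×ˢ (univ : Finset Bool) :=
        mem_product.2 ⟨mk_mem_edges.2 ⟨ha, (mem_product.1 hz).1, (mem_product.1 hz).2⟩, mem_univ _⟩
      have h2 := bk3 hBK (edges G D ×ˢ univ) hπ (A := fun S => conn G D (pr (edges G D) {false} S) x z.1)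
        (B := fun T => (s(z.1, z.2), true) ∈ T) (C := fun R => conn G D (pr (edges G D) univ R) z.2 y)
        (fun _ _ h h' => h'.mono subset_rfl (pr_mono _ _ h)) (fun _ _ h h' => h h')
        (fun _ _ h h' => h'.mono subset_rfl (pr_mono _ _ h))
      rw [PE_coord hm] at h2
      exact (PE_ind_mono hπ fun _ h => h.2).trans h2
    · rw [ind_neg ha, zero_mul]
      exact PE_le_const hπ fun _ => (ind_neg fun h => ha h.1).le

end PL4

open PL4 in
theorem st_PL4 (h : St_BK) : St_PL4 := by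
  intro V _ G π hπ U S T x hx
  have hU : edges G U ⊆ edges G (U ∪ S) := edges_mono subset_union_left
  have hS : edges G S ⊆ edges G (U ∪ S) := edges_mono subset_union_right
  rw [← PE_cl hU, ← PE_cl hS, ← sum_product']
  refine le_trans (PE_ind_mono hπ (Q := fun ω => (∃ t ∈ T, t ∈ cl G S ω x) ∨
    ∃ z ∈ S ×ˢ (U \ S), G.Adj z.1 z.2 ∧ ∃ A B C : Finset (Sym2 V), A ⊆ ω ∧ B ⊆ ω ∧ C ⊆ ω ∧ Disjoint A B ∧
      Disjoint A C ∧ Disjoint B C ∧ conn G S A x z.1 ∧ s(z.1, z.2) ∈ B ∧ ∃ t ∈ T, t ∈ cl G U C z.2) ?_)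
    ((PE_ind_or hπ _ _).trans (add_le_add le_rfl ((PE_ind_exists hπ _ _).trans (sum_le_sum fun z hz => ?_))))
  · rintro ω ⟨t, ht, h1⟩
    obtain ⟨w, hw⟩ := (mem_cl.1 h1).exists_path
    by_cases h2 : ∃ v ∈ w.support, v ∉ S
    · obtain ⟨a, b, w₁, hab, w₂, rfl, h3, h4⟩ := first_hit (· ∉ S) w (not_not.2 hx) h2
      obtain ⟨c1, c2, c3⟩ := trail_cut hw.isTrail
      have h5 := walk_conn w₁ fun v hv => not_not.1 (h3 v hv)
      exact Or.inr ⟨(a, b), mem_product.2 ⟨h5.right, mem_sdiff.2 ⟨hab.2.2.1, h4⟩⟩, hab.1, w₁.edges.toFinset,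
        {s(a, b)}, w₂.edges.toFinset, walk_edges_subset w₁, singleton_subset_iff.2 hab.2.2.2, walk_edges_subset w₂,
        disjoint_singleton_right.2 fun h6 => c1 (List.mem_toFinset.1 h6),
        disjoint_left.2 fun e h6 h7 => c3 e (List.mem_toFinset.1 h6) (List.mem_toFinset.1 h7),
        disjoint_singleton_left.2 fun h6 => c2 (List.mem_toFinset.1 h6), h5, mem_singleton_self _, t, ht,
        mem_cl.2 (walk_conn w₂ (walk_support_mem w₂ hab.2.2.1))⟩
    · exact Or.inl ⟨t, ht, mem_cl.2 ((walk_conn w fun v hv => not_not.1 fun h3 => h2 ⟨v, hv, h3⟩).mono subset_rfl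
        (walk_edges_subset w))⟩
  · by_cases ha : G.Adj z.1 z.2
    · rw [ind_pos ha, one_mul, ← PE_cl hU, ← PE_conn hS]
      have hm : s(z.1, z.2) ∈ edges G (U ∪ S) := mk_mem_edges.2 ⟨ha, mem_union_right _ (mem_product.1 hz).1,
        mem_union_left _ (mem_sdiff.1 (mem_product.1 hz).2).1⟩
      have h2 := bk3 h (edges G (U ∪ S)) hπ (A := fun A => conn G S A x z.1) (B := fun B => s(z.1, z.2) ∈ B)
        (C := fun C => ∃ t ∈ T, t ∈ cl G U C z.2) (conn_monotone _ _ _ _) (fun _ _ h h' => h h')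
        (fun _ _ h ⟨t, ht, h'⟩ => ⟨t, ht, cl_mono subset_rfl h h'⟩)
      rw [PE_coord hm] at h2
      exact (PE_ind_mono hπ fun _ h => h.2).trans h2
    · rw [ind_neg ha, zero_mul]
      exact PE_le_const hπ fun _ => (ind_neg fun h => ha h.1).le

open PL4 in
theorem st_CHI (hBK : St_BK) : St_CHI := by
  intro V _ G Δ hΔ D p q χ h0 hqp h1 hq hχ hs x
  have hp : Prob fun _ : Sym2 V => p := Prob.const (h0.trans hqp) h1
  have hq' : Prob fun _ : Sym2 V => q := Prob.const h0 hq.le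
  have hχ0 : 0 ≤ χ := (chi_nonneg hq').trans (hχ x)
  by_cases hx : x ∈ D
  swap
  · rw [chi, sum_eq_zero fun y _ => tau_of_notMem hx]
    positivity
  obtain ⟨z, -, hz⟩ := exists_max_image D (chi G (fun _ => p) D) ⟨x, hx⟩
  refine (hz x hx).trans ?_
  set M := chi G (fun _ => p) D z with hM
  set r := (p - q) / (1 - q)
  have hr : 0 ≤ r := div_nonneg (by linarith) (by linarith)
  have hM0 : 0 ≤ M := chi_nonneg hp
  have key : M ≤ χ + χ * (Δ * (r * M)) := by
    refine (sum_le_sum fun y _ => tau_le hBK D h0 hqp h1 hq z y).trans ?_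
    rw [sum_add_distrib, sum_comm]
    refine add_le_add (hχ z) (le_trans (sum_le_sum fun a _ => ?_)
      ((sum_mul _ _ _).ge.trans (mul_le_mul_of_nonneg_right (hχ z) (by positivity))))
    rw [sum_comm]
    calc _ ≤ ∑ b ∈ D, ind (G.Adj a b) * (tau G (fun _ => q) D z a * (r * M)) := by
          refine sum_le_sum fun b hb => ?_
          rw [← mul_sum, ← mul_sum, mul_assoc]
          exact mul_le_mul_of_nonneg_left (mul_le_mul_of_nonneg_left
            (mul_le_mul_of_nonneg_left (hz b hb) hr) (tau_nonneg hq')) (ind_nonneg _)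
      _ ≤ _ := by
          rw [← sum_mul, mul_left_comm]
          exact mul_le_mul_of_nonneg_left (mul_le_mul_of_nonneg_right (hΔ.sum_ind a D) (by positivity))
            (tau_nonneg hq')
  nlinarith [mul_le_mul_of_nonneg_right hs hM0]

end Pool.Agent.TPC
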