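import Pool.Agent.Lib.TPC.BlueA

/-! Cutting open paths; convenient forms of the BK inequality. -/

open Finset

set_option linter.unusedSectionVars false

namespace Pool.Agent.TPC

variable {V : Type} [DecidableEq V] {G : SimpleGraph V} {D : Finset V} {ω : Finset (Sym2 V)}
  {x y z : V}

lemma conn.exists_path (h : conn G D ω x y) : ∃ w : (opD G D ω).Walk x y, w.IsPath := by
  obtain ⟨w⟩ := h.2
  exact ⟨w.toPath.1, w.toPath.2⟩

lemma walk_edges_subset (w : (opD G D ω).Walk x y) : w.edges.toFinset ⊆ ω := by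
  intro e he
  have := w.edges_subset_edgeSet (List.mem_toFinset.1 he)
  induction e using Sym2.ind with
  | h a b => exact this.2.2.2

lemma walk_support_mem (w : (opD G D ω).Walk x y) (hx : x ∈ D) : ∀ v ∈ w.support, v ∈ D := by
  induction w with
  | nil => simpa using hx
  | cons h w ih =>
    intro v hv
    rw [SimpleGraph.Walk.support_cons, List.mem_cons] at hv
    rcases hv with rfl | hv
    exacts [hx, ih h.2.2.1 v hv]

/-- the edges of an open walk witness the connection in every set containing its vertices -/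
lemma walk_conn (w : (opD G D ω).Walk x y) {D' : Finset V} (h : ∀ v ∈ w.support, v ∈ D') :
    conn G D' w.edges.toFinset x y := by
  induction w with
  | nil => exact conn.refl (h _ (by simp))
  | @cons a b c hab w ih =>
    have h1 := ih fun v hv => h v (by simp [hv])
    refine (conn.step (h a (by simp)) h1.1 hab.1 (by simp)).trans (h1.mono subset_rfl ?_)
    intro e he
    simp only [SimpleGraph.Walk.edges_cons, List.toFinset_cons, Finset.mem_insert]
    exact Or.inr he

lemma walk_conn_mem (w : (opD G D ω).Walk x y) (hx : x ∈ D) : conn G D ω x y := ⟨hx, ⟨w⟩⟩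

lemma append_disjoint {H : SimpleGraph V} (w₁ : H.Walk x y) (w₂ : H.Walk y z)
    (h : (w₁.append w₂).IsTrail) : Disjoint w₁.edges.toFinset w₂.edges.toFinset := by
  have := h.edges_nodup
  rw [SimpleGraph.Walk.edges_append] at this
  rw [List.disjoint_toFinset_iff_disjoint]
  exact List.disjoint_of_nodup_append this

/-- first vertex of a walk with property `P` -/
lemma first_hit {H : SimpleGraph V} (P : V → Prop) (w : H.Walk x y) (hx : ¬ P x)
    (hy : ∃ v ∈ w.support, P v) :
    ∃ (a b : V) (w₁ : H.Walk x a) (h : H.Adj a b) (w₂ : H.Walk b y),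
      w = w₁.append (SimpleGraph.Walk.cons h w₂) ∧ (∀ v ∈ w₁.support, ¬ P v) ∧ P b := by
  induction w with
  | nil => obtain ⟨v, hv, h⟩ := hy; simp at hv; exact absurd (hv ▸ h) hx
  | @cons a b c hab w ih =>
    by_cases hb : P b
    · exact ⟨a, b, .nil, hab, w, rfl, by simpa using hx, hb⟩
    · obtain ⟨v, hv, h⟩ := hy
      rw [SimpleGraph.Walk.support_cons, List.mem_cons] at hv
      rcases hv with rfl | hv
      · exact absurd h hx
      · obtain ⟨a', b', w₁, h', w₂, e, h1, h2⟩ := ih hb ⟨v, hv, h⟩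
        refine ⟨a', b', .cons hab w₁, h', w₂, by rw [e]; rfl, fun u hu => ?_, h2⟩
        rw [SimpleGraph.Walk.support_cons, List.mem_cons] at hu
        rcases hu with rfl | hu
        exacts [hx, h1 u hu]

/-- last vertex of a walk with property `P` -/
lemma last_hit {H : SimpleGraph V} (P : V → Prop) (w : H.Walk x y) (hy : ¬ P y)
    (hx : ∃ v ∈ w.support, P v) :
    ∃ (a b : V) (w₁ : H.Walk x a) (h : H.Adj a b) (w₂ : H.Walk b y),
      w = w₁.append (SimpleGraph.Walk.cons h w₂) ∧ P a ∧ ∀ v ∈ w₂.support, ¬ P v := by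
  induction w with
  | nil => obtain ⟨v, hv, h⟩ := hx; simp at hv; exact absurd (hv ▸ h) hy
  | @cons a b c hab w ih =>
    by_cases hb : ∃ v ∈ w.support, P v
    · obtain ⟨a', b', w₁, h', w₂, e, h1, h2⟩ := ih hy hb
      exact ⟨a', b', .cons hab w₁, h', w₂, by rw [e]; rfl, h1, h2⟩
    · obtain ⟨v, hv, h⟩ := hx
      rw [SimpleGraph.Walk.support_cons, List.mem_cons] at hv
      rcases hv with rfl | hv
      · exact ⟨v, b, .nil, hab, w, rfl, h, fun u hu hp => hb ⟨u, hu, hp⟩⟩
      · exact absurd ⟨v, hv, h⟩ hb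

/-- a walk can be cut at any of its vertices -/
lemma cut_at {H : SimpleGraph V} (w : H.Walk x y) {u : V} (hu : u ∈ w.support) :
    ∃ (w₁ : H.Walk x u) (w₂ : H.Walk u y), w = w₁.append w₂ :=
  ⟨w.takeUntil u hu, w.dropUntil u hu, (w.take_spec hu).symm⟩

lemma conn_monotone (G : SimpleGraph V) (D : Finset V) (x y : V) :
    Monotone fun ω => conn G D ω x y := fun _ _ h h2 => h2.mono subset_rfl h

section bk

variable {ι : Type} [DecidableEq ι] {π : ι → ℝ}

lemma bk2 (h : St_BK) (E : Finset ι) (hπ : Prob π) {A B : Finset ι → Prop} (hA : Monotone A)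
    (hB : Monotone B) :
    PE E π (fun ω => ind (∃ S T : Finset ι, S ⊆ ω ∧ T ⊆ ω ∧ Disjoint S T ∧ A S ∧ B T)) ≤
      PE E π (fun ω => ind (A ω)) * PE E π (fun ω => ind (B ω)) := by
  have := h ι E π hπ (Fin 2) univ ![A, B] (by intro i; fin_cases i <;> assumption)
  rw [Fin.prod_univ_two] at this
  refine le_trans (PE_ind_mono hπ ?_) this
  rintro ω ⟨S, T, h1, h2, h3, h4, h5⟩
  refine ⟨![S, T], fun i _ => ?_, fun i _ j _ hij => ?_⟩
  · fin_cases i
    exacts [⟨h1, h4⟩, ⟨h2, h5⟩]
  · fin_cases i <;> fin_cases j <;> first | exact absurd rfl hij | exact h3 | exact h3.symm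

lemma bk3 (h : St_BK) (E : Finset ι) (hπ : Prob π) {A B C : Finset ι → Prop} (hA : Monotone A)
    (hB : Monotone B) (hC : Monotone C) :
    PE E π (fun ω => ind (∃ S T R : Finset ι, S ⊆ ω ∧ T ⊆ ω ∧ R ⊆ ω ∧ Disjoint S T ∧
      Disjoint S R ∧ Disjoint T R ∧ A S ∧ B T ∧ C R)) ≤
      PE E π (fun ω => ind (A ω)) * PE E π (fun ω => ind (B ω)) * PE E π (fun ω => ind (C ω)) := by
  have := h ι E π hπ (Fin 3) univ ![A, B, C] (by intro i; fin_cases i <;> assumption)
  rw [Fin.prod_univ_three] at this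
  refine le_trans (PE_ind_mono hπ ?_) this
  rintro ω ⟨S, T, R, h1, h2, h3, d1, d2, d3, h4, h5, h6⟩
  refine ⟨![S, T, R], fun i _ => ?_, fun i _ j _ hij => ?_⟩
  · fin_cases i
    exacts [⟨h1, h4⟩, ⟨h2, h5⟩, ⟨h3, h6⟩]
  · fin_cases i <;> fin_cases j <;>
      first | exact absurd rfl hij | exact d1 | exact d1.symm | exact d2 | exact d2.symm | exact d3 |
        exact d3.symm

lemma bk4 (h : St_BK) (E : Finset ι) (hπ : Prob π) {A B C F : Finset ι → Prop} (hA : Monotone A)
    (hB : Monotone B) (hC : Monotone C) (hF : Monotone F) :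
    PE E π (fun ω => ind (∃ S T R Q : Finset ι, S ⊆ ω ∧ T ⊆ ω ∧ R ⊆ ω ∧ Q ⊆ ω ∧ Disjoint S T ∧
      Disjoint S R ∧ Disjoint S Q ∧ Disjoint T R ∧ Disjoint T Q ∧ Disjoint R Q ∧
      A S ∧ B T ∧ C R ∧ F Q)) ≤
      PE E π (fun ω => ind (A ω)) * PE E π (fun ω => ind (B ω)) * PE E π (fun ω => ind (C ω)) *
        PE E π (fun ω => ind (F ω)) := by
  have := h ι E π hπ (Fin 4) univ ![A, B, C, F] (by intro i; fin_cases i <;> assumption)
  rw [Fin.prod_univ_four] at this
  refine le_trans (PE_ind_mono hπ ?_) this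
  rintro ω ⟨S, T, R, Q, h1, h2, h3, h3', d1, d2, d3, d4, d5, d6, h4, h5, h6, h7⟩
  refine ⟨![S, T, R, Q], fun i _ => ?_, fun i _ j _ hij => ?_⟩
  · fin_cases i
    exacts [⟨h1, h4⟩, ⟨h2, h5⟩, ⟨h3, h6⟩, ⟨h3', h7⟩]
  · fin_cases i <;> fin_cases j <;>
      first | exact absurd rfl hij | exact d1 | exact d1.symm | exact d2 | exact d2.symm | exact d3 |
        exact d3.symm | exact d4 | exact d4.symm | exact d5 | exact d5.symm | exact d6 |
        exact d6.symm

end bk

end Pool.Agent.TPC
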