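import Pool.Agent.Lib.TPC.CDefs

/-! Blueprint C: the abstract core. -/

open Finset

namespace Pool.Agent.TPC

/-- deterministic properties of the single-root exploration -/
def St_XB : Prop := ∀ (V : Type) [Fintype V] [DecidableEq V] (G : SimpleGraph V) (Δ : ℕ),
  DegLe G Δ → ∀ (D : Finset V) (i : Fin 5) (x : V) (k : ℝ), 0 < k → ∀ ω : Finset (Bit V),
  xw G D i x k ω ⊆ cl G D (lev i ω) x ∧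
  (((xw G D i x k ω).card : ℝ) < k → xw G D i x k ω = cl G D (lev i ω) x) ∧
  (∀ y ∈ xw G D i x k ω, conn G (xw G D i x k ω) (lev i ω) x y) ∧
  (∀ ω' : Finset (Bit V), (∀ b : Bit V, b.1 ∈ touch (xw G D i x k ω) → b.2 ≤ i →
    (b ∈ ω ↔ b ∈ ω')) → xs G D i x k ω' = xs G D i x k ω) ∧
  (∀ h : V → ℝ, sumF (fun a _ => ind (a.tok = none) * h a.z) (xs G D i x k ω) = h x) ∧
  ∃ W' : Finset V, W' ⊆ xw G D i x k ω ∧ (W'.card : ℝ) < k ∧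
    ∀ h h' : V → ℝ, (∀ b, 0 ≤ h' b) → (∀ b z, G.Adj b z → h z ≤ h' b) →
      sumF (fun a _ => ind (a.tok ≠ none) * h a.z) (xs G D i x k ω) ≤ Δ * ∑ b ∈ W', h' b

/-- cluster tails at all levels -/
def St_BIG : Prop := ∀ (K : Kc) (κ : ℝ), 0 ≤ κ → ∃ C l₀ : ℝ, 0 < C ∧
  ∀ (V : Type) [Fintype V] [DecidableEq V] (M : Core K V) (i : Fin 5) (q : Fin 5 → ℝ),
    M.Lv κ i q → l₀ ≤ M.l → ∀ (D : Finset V) (x : V),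
    PL q (fun ω => ind (M.l ^ 4 ≤ ((M.cv D i ω x).card : ℝ))) ≤ C / M.l ^ 2 ∧
    ∀ k : ℝ, M.l ^ 4 ≤ k → PL q (fun ω => min ((M.cv D i ω x).card : ℝ) k) ≤ C * k / M.l ^ 2

/-- moments of base clusters -/
def St_KER : Prop := ∀ K : Kc, ∃ Λ : ℝ, K.C ≤ Λ ∧
  ∀ (V : Type) [Fintype V] [DecidableEq V] (M : Core K V),
  (∀ (D : Finset V) (z : V) (t : ℝ), 0 ≤ t → 2 * t * Λ ^ 2 * M.l ^ 4 ≤ 1 →
    M.EB D z (fun C => Real.exp (t * C.card)) ≤ 1 + 2 * t * Λ * M.l ^ 2) ∧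
  (∀ (D : Finset V) (z : V), M.EB D z (fun C => (C.card : ℝ) ^ 2) ≤ Λ * M.l ^ 6 ∧
    M.EB D z (fun C => ∑ y ∈ C, M.pot C y) ≤ Λ * M.l ^ 2) ∧
  ∀ U : Finset V, M.Small U → (∀ z, M.pot U z ≤ Λ * M.l ^ 2) ∧ ∀ a : Finset V,
    (∀ v, ∑ u ∈ U, M.g v u * M.Wp a u ≤ Λ * M.l ^ 2 * M.Wp a v) ∧
    (∑ u ∈ U, M.Wp a u ≤ Λ * M.l ^ 2 * a.card) ∧
    ∀ S t : ℝ, (∀ u, M.Wp a u ≤ S) → 0 ≤ t → 2 * t * Λ ^ 2 * M.l ^ 4 * S ≤ 1 →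
      ∀ D : Finset V, D ⊆ U → ∀ z,
        M.EB D z (fun C => Real.exp (t * ∑ y ∈ C, M.pot a y)) ≤ 1 + 2 * t * Λ * M.l ^ 2 * M.Wp a z

/-- energy bound and extraction of a subset with bounded potential -/
def St_EN : Prop := ∀ (K : Kc) (V : Type) [Fintype V] [DecidableEq V] (M : Core K V) (T : Type)
  (s : List (Ent T V)), Disj s → ∀ (bad : Finset V → Finset V → Finset V) (R : Finset V)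
  (Ms M' ζ : ℝ), 0 ≤ Ms → 0 ≤ M' → 0 < ζ →
  (∀ W C : Finset V, W ⊆ Wof s → C ⊆ Wof s → ∀ y ∈ C, y ∈ R → y ∉ bad W C →
    M.pot (C ∩ R) y ≤ Ms ∧ M.pot (W ∩ R) y ≤ M') →
  ∃ A₁ : Finset V, A₁ ⊆ (Wof s ∩ R) \ marked bad s ∧
    ((((Wof s ∩ R) \ marked bad s) \ A₁).card : ℝ) ≤ ζ * ((Wof s ∩ R) \ marked bad s).card ∧
    ∀ u, M.pot A₁ u ≤ K.C * (Ms + 2 * M') / ζ

/-- size and marked points of the single-root exploration -/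
def St_XT : Prop := ∀ (K : Kc) (κ : ℝ), 0 ≤ κ → ∃ Cκ : ℝ, 1 ≤ Cκ ∧ ∀ η : ℝ, 0 < η →
  ∃ η' Ms c C l₀ : ℝ, 0 < η' ∧ 0 < Ms ∧ 0 < c ∧ 0 < C ∧
  ∀ (V : Type) [Fintype V] [DecidableEq V] (M : Core K V) (i : Fin 5) (q : Fin 5 → ℝ),
    M.Lv κ i q → l₀ ≤ M.l → ∀ (D : Finset V) (x : V) (k : ℝ), M.l ^ 4 ≤ k →
    ∀ DD : Finset V → Finset V,
      (∀ W : Finset V, W ⊆ D → (W.card : ℝ) < k → ∀ z,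
        ∑ y ∈ DD W, M.tb univ z y ≤ η' * M.l ^ 2) →
      PL q (fun ω => ind (Cκ * k < (xw M.G D i x k ω).card ∨
        η * k < (marked (M.badS Ms DD) (xs M.G D i x k ω)).card)) ≤
        C / M.l ^ 2 * Real.exp (-(c * k / M.l ^ 4))

/-- potential collected by the single-root exploration -/
def St_XZ : Prop := ∀ (K : Kc) (κ : ℝ), 0 ≤ κ → ∃ CZ : ℝ, 0 < CZ ∧ ∀ S : ℝ, 0 < S →
  ∃ c C l₀ : ℝ, 0 < c ∧ 0 < C ∧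
  ∀ (V : Type) [Fintype V] [DecidableEq V] (M : Core K V) (i : Fin 5) (q : Fin 5 → ℝ),
    M.Lv κ i q → l₀ ≤ M.l → ∀ U D : Finset V, M.Small U → D ⊆ U → ∀ (x : V) (k : ℝ),
    M.l ^ 4 ≤ k → k ≤ M.U → ∀ a : Finset V, (∀ u, M.Wp a u ≤ S) →
    PL q (fun ω => ∑ y ∈ xw M.G D i x k ω, M.pot a y) ≤
      CZ * (M.l ^ 2 * M.Wp a x + a.card / M.l ^ 2) ∧
    (M.l ^ 4 ≤ (a.card : ℝ) →
      PL q (fun ω => ind (CZ * a.card < ∑ y ∈ xw M.G D i x k ω, M.pot a y)) ≤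
        C / M.l ^ 2 * Real.exp (-(c * a.card / M.l ^ 4)))

/-- the explored set is typically ready in most blocks -/
def St_TA : Prop := ∀ (K : Kc) (κ : ℝ), 0 ≤ κ → ∃ Cκ : ℝ, 1 ≤ Cκ ∧ ∀ η MH : ℝ, 0 < η → 0 < MH →
  ∃ M₀ M₁ c C l₀ : ℝ, 0 < M₀ ∧ 0 < M₁ ∧ 0 < c ∧ 0 < C ∧
  ∀ (V : Type) [Fintype V] [DecidableEq V] (M : Core K V) (B : Type) [Fintype B] [DecidableEq B]
    (D : Finset V) (S : Blk M B D) (i : Fin 5) (q : Fin 5 → ℝ), M.Lv κ i q → l₀ ≤ M.l →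
    ∀ (x : V) (k : ℝ), M.l ^ 4 ≤ k →
    PL q (fun ω => ind (¬ S.Typ Cκ MH M₀ M₁ η k (xw M.G D i x k ω))) ≤
      C / M.l ^ 2 * Real.exp (-(c * k / M.l ^ 4))

/-- trial lemma -/
def St_TL : Prop := ∀ (V ι T : Type) [Fintype V] [DecidableEq V] [Fintype ι] [DecidableEq ι]
  (G : SimpleGraph V) (D : Finset V) (base : Sym2 V → ι) (bit : T → ι) (Tk : Finset T)
  (zt : T → V) (π : ι → ℝ) (p q : ℝ), Prob π → Function.Injective base → Set.InjOn bit Tk →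
  (∀ t ∈ Tk, ∀ e, bit t ≠ base e) → (∀ e, π (base e) = p) → (∀ t ∈ Tk, π (bit t) = q) → 0 ≤ q →
  ∀ (X : Finset V → ℝ) (w Wp : V → ℝ) (μ z₀ s₂ lam S θ θ₂ : ℝ), X ∅ = 0 → Monotone X →
  (∀ v, 0 ≤ w v) → 0 ≤ s₂ → 0 ≤ lam → 0 ≤ θ → 0 ≤ θ₂ →
  (∀ J : Finset V, J ⊆ D → ∑ y ∈ J, w y ≤ z₀ →
    μ ≤ ∑ t ∈ Tk, EC G (fun _ => p) (D \ J) (zt t) X) →
  (∀ J : Finset V, ∀ t ∈ Tk,
    EC G (fun _ => p) (D \ J) (zt t) (fun C => X C ^ 2) ≤ s₂ * Wp (zt t) ∧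
    EC G (fun _ => p) (D \ J) (zt t) (fun C => Real.exp (θ₂ * ∑ y ∈ C, w y)) ≤
      1 + θ₂ * lam * Wp (zt t)) →
  ∑ t ∈ Tk, Wp (zt t) ≤ S →
  ∀ Φ : Finset ι → ℝ, (∀ (ω : Finset ι) (S' : Finset T) (P : T → Finset V), S' ⊆ Tk →
    (∀ t ∈ S', bit t ∈ ω ∧ P t ⊆ cl G D (baseOf base ω) (zt t)) →
    (∀ t ∈ S', ∀ t' ∈ S', t ≠ t' → Disjoint (P t) (P t')) → ∑ t ∈ S', X (P t) ≤ Φ ω) →
  PE univ π (fun ω => Real.exp (-(θ * Φ ω))) ≤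
    Real.exp (-min (q * θ * μ) (θ₂ * z₀) + q * (θ ^ 2 * s₂ + θ₂ * lam) * S)

/-- contact lemma -/
def St_CL : Prop := ∀ (K : Kc) (b₀ b₁ MB CZ M₀ M₁ MH : ℝ), 0 < b₀ → 0 < b₁ → 0 < MB → 0 < CZ →
  0 < M₀ → 0 < M₁ → 0 < MH → ∃ θ c l₀ : ℝ, 0 < θ ∧ θ ≤ 1 ∧ 0 < c ∧
  ∀ (V : Type) [Fintype V] [DecidableEq V] (M : Core K V) (q : Fin 5 → ℝ), q 0 = M.p →
    (∀ j, 0 ≤ q j ∧ q j ≤ 1) → 1 / M.l ^ 2 ≤ q 2 → l₀ ≤ M.l →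
    ∀ U Q A a A₁ B₀ B₁ : Finset V, M.Small U → M.LB U Q → a ⊆ A ∩ Q → (∀ u, M.pot a u ≤ M₀) →
    A₁ ⊆ A ∩ U → (∀ u, M.pot A₁ u ≤ M₁) → (a.card : ℝ) ≤ MH * M.U → B₀ ⊆ Q \ A → B₁ ⊆ B₀ →
    (∀ u, M.pot B₁ u ≤ MB) → b₀ * M.U ≤ B₁.card → (B₀.card : ℝ) ≤ b₁ * M.U →
    (∀ x ∈ B₁, ∑ u ∈ (A ∩ U) \ A₁, M.g x u * M.pot a u ≤ K.c / 4 * M.f0 * a.card) →
    ∑ b ∈ B₀, M.pot a b ≤ CZ * a.card →
    PL q (fun ω => Real.exp (-(θ * ec M.G (A ∩ U) (M.ext U A B₀ ω) / M.l ^ 2))) ≤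
      Real.exp (-(c * a.card / M.l ^ 4))

/-- contacts between a ready set and a big cluster -/
def St_TC : Prop := ∀ (K : Kc) (κ₁ c₁ : ℝ), 0 ≤ κ₁ → 0 < c₁ → c₁ ≤ 1 → ∃ η : ℝ, 0 < η ∧
  ∀ M₀ M₁ MH : ℝ, 0 < M₀ → 0 < M₁ → 0 < MH → ∃ θ c C l₀ : ℝ, 0 < θ ∧ θ ≤ 1 ∧ 0 < c ∧ 0 < C ∧
  ∀ (V : Type) [Fintype V] [DecidableEq V] (M : Core K V) (q : Fin 5 → ℝ), M.Lv κ₁ 1 q →
    1 / M.l ^ 2 ≤ q 2 → l₀ ≤ M.l → l₀ ≤ M.N → ∀ U Q A a : Finset V, M.Small U → M.LB U Q →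
    M.Ready A U M₀ M₁ η a → a ⊆ Q → (a.card : ℝ) ≤ MH * M.U →
    (M.l ^ 4 ≤ (a.card : ℝ) →
      ∑ y ∈ Q, PL q (fun ω => ind (M.big c₁ (Q \ A) ω y) *
        Real.exp (-(θ * ec M.G (A ∩ U) (M.cv (U \ A) 2 ω y) / M.l ^ 2))) ≤
        C * M.U * Real.exp (-(c * a.card / M.l ^ 4))) ∧
    (1 - Real.exp (-(c * a.card / M.l ^ 4))) *
      (∑ y ∈ Q, PL q (fun ω => ind (M.big c₁ (Q \ A) ω y)) - c₁ * M.U / 4) ≤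
      ∑ y ∈ Q, PL q (fun ω => ind (M.big c₁ (Q \ A) ω y) *
        (1 - Real.exp (-(θ * ec M.G (A ∩ U) (M.cv (U \ A) 2 ω y) / M.l ^ 2))))

/-- the test of one block -/
def St_TEST : Prop := ∀ (K : Kc) (κ₁ c₁ : ℝ), 0 ≤ κ₁ → 0 < c₁ → c₁ ≤ 1 → ∃ η : ℝ, 0 < η ∧
  ∀ M₀ M₁ MH MY : ℝ, 0 < M₀ → 0 < M₁ → 0 < MH → 0 < MY →
  ∃ θ c m₀ l₀ : ℝ, 0 < θ ∧ 0 < c ∧
  ∀ (V : Type) [Fintype V] [DecidableEq V] (M : Core K V) (q : Fin 5 → ℝ), M.Lv κ₁ 1 q →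
    1 / M.l ^ 2 ≤ q 2 → l₀ ≤ M.l → l₀ ≤ M.N → ∀ U Q A a : Finset V, M.Small U → M.LB U Q →
    M.Ready A U M₀ M₁ η a → a ⊆ Q → (a.card : ℝ) ≤ MH * M.U →
    (m₀ * M.l ^ 4 ≤ a.card ∨ M.YA q MY Q) →
    ∃ φ : Finset (Bit V) → ℝ, DepOn φ {b | b.1 ∈ edges M.G (U \ A) ∧ b.2 ≤ 2} ∧
      PL q φ ≤ Real.exp (-(c * a.card / M.l ^ 4)) ∧
      (∀ ω, Real.exp (-(θ * max (a.card / M.l ^ 4) 1)) ≤ φ ω) ∧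
      ∀ ω, (∃ y, M.big c₁ (Q \ A) ω y) → ∃ y, M.big c₁ (Q \ A) ω y ∧
        Real.exp (-(θ * ec M.G (A ∩ U) (M.cv (U \ A) 2 ω y) / M.l ^ 2)) ≤ φ ω

/-- two big clusters get connected -/
def St_G2 : Prop := ∀ (K : Kc) (κ₁ c₁ : ℝ), 0 ≤ κ₁ → 0 < c₁ → c₁ ≤ 1 → ∃ c C l₀ : ℝ, 0 < c ∧
  ∀ (V : Type) [Fintype V] [DecidableEq V] (M : Core K V) (q : Fin 5 → ℝ), M.Lv κ₁ 1 q →
    1 / M.l ^ 2 ≤ q 2 → 1 / M.l ^ 2 ≤ q 3 → l₀ ≤ M.l → l₀ ≤ M.N →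
    ∀ U Q : Finset V, M.Small U → M.LB U Q →
    PL q (fun ω => ind (∃ y y', M.big c₁ Q ω y ∧ M.big c₁ Q ω y' ∧
      ¬ conn M.G U (lev 3 ω) y y')) ≤ C * Real.exp (-(c * M.N))

/-- many closed edges at the last level -/
def St_REV : Prop := ∀ (V : Type) [Fintype V] [DecidableEq V] (G : SimpleGraph V)
  (q : Fin 5 → ℝ), (∀ j, 0 ≤ q j ∧ q j ≤ 1) → ∀ Γ : Finset (Bit V) → Finset V,
  DepOn Γ {b | b.2 ≤ 3} → ∀ (x : V) (k t : ℝ),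
    PL q (fun ω => ind (k ≤ (cl G univ (lev 4 ω) x).card ∧
      Disjoint (cl G univ (lev 4 ω) x) (Γ ω) ∧ t ≤ ec G (cl G univ (lev 4 ω) x) (Γ ω))) ≤
      Real.exp (-(q 4 * t)) * PL q (fun ω => ind (k ≤ (cl G univ (lev 4 ω) x).card))

/-- main estimate -/
def St_MAIN : Prop := ∀ (K : Kc) (κ₁ c₁ κ : ℝ), 0 ≤ κ₁ → 0 < c₁ → c₁ ≤ 1 → 0 ≤ κ →
  ∃ Cκ : ℝ, 1 ≤ Cκ ∧ ∀ CY MY : ℝ, 0 < CY → 0 < MY →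
  ∃ φ₃ φ₄ c C k₀ l₀ : ℝ, 0 < φ₃ ∧ 0 < φ₄ ∧ 0 < c ∧ 0 < C ∧
  ∀ (V : Type) [Fintype V] [DecidableEq V] (M : Core K V) (B : Type) [Fintype B] [DecidableEq B]
    (S : Sys M B) (q : Fin 5 → ℝ), M.Lv κ₁ 1 q → M.Lv κ 4 q → 1 / M.l ^ 2 ≤ q 2 →
    1 / M.l ^ 2 ≤ q 4 → l₀ ≤ M.l → l₀ ≤ M.N → ∀ O : Finset (Bit V) → Finset B,
    DepOn O {b | b.2 ≤ 3} → (∀ ω, ∀ b ∈ O ω, ∃ y, M.big c₁ (S.K2 b) ω y) →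
    ∀ k : ℝ, M.l ^ 4 ≤ k →
    ((∀ b, M.YA q MY (S.K2 b)) ∨ ((∀ b b' : B, b = b') ∧ k₀ * M.l ^ 4 ≤ k)) → ∀ x : V,
    PL q (fun ω => ind (S.EvE c₁ k (O ω) ω x ∧ ¬ S.BadA CY Cκ φ₃ φ₄ k (O ω) ω x)) ≤
      C / M.l ^ 2 * Real.exp (-(c * k / M.l ^ 4))

/-- contacts of an explored set with heavy base clusters -/
def St_CL0 : Prop := ∀ (K : Kc) (M₀ : ℝ), 0 < M₀ → ∃ η σ cF : ℝ, 0 < η ∧ 0 < σ ∧ 0 < cF ∧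
  ∀ Cγ : ℝ, 0 < Cγ → ∃ δ₀ : ℝ, 0 < δ₀ ∧ ∀ M₁ β : ℝ, 0 < M₁ → 0 < β → β ≤ 1 →
  ∃ c l₀ : ℝ, 0 < c ∧ ∀ (V : Type) [Fintype V] [DecidableEq V] (M : Core K V), l₀ ≤ M.l →
    ∀ U Q A a A₁ : Finset V, M.Small U → M.LB U Q → K.c * M.Vol ≤ Q.card → A ⊆ U →
    (A.card : ℝ) ≤ δ₀ * M.U → ((A ∩ Q).card : ℝ) ≤ 2 * β * M.U → a ⊆ A ∩ Q →
    β * M.U / 8 ≤ a.card → (∀ u, M.pot a u ≤ M₀) → (∀ y ∈ a, ∀ v, v ∉ Q → M.g v y ≤ Cγ * M.f0) →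
    A₁ ⊆ A ∩ Q → (∀ y ∈ A₁, ∀ v, M.G.Adj y v → v ∈ Q) → (∀ u, M.pot A₁ u ≤ M₁) →
    M₀ * ((A ∩ Q) \ A₁).card ≤ η * a.card →
    PE univ (fun _ => M.p) (fun ω => ind (M.FF U Q A σ ω < cF * β * M.N * M.l ^ 2)) ≤
      Real.exp (-(c * M.N))

/-- the multi-root exploration stopped at a completion -/
def Done {V : Type} [Fintype V] [DecidableEq V] (G : SimpleGraph V) (Q : Finset V) (k k' : ℝ)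
    (s : List (Ent (Sym2 V) V)) : Prop :=
  k ≤ ((Wof s ∩ Q).card : ℝ) ∧ ((Wof s ∩ Q).card : ℝ) < 2 * k ∧ ((Wof s).card : ℝ) < k' ∧
    ∀ bz, ¬ Cand G Q s bz

/-- deterministic properties of the multi-root exploration -/
def St_ED : Prop := ∀ (V : Type) [Fintype V] [DecidableEq V] (G : SimpleGraph V) (Δ : ℕ),
  DegLe G Δ → ∀ U Q : Finset V, Q ⊆ U → ∀ (k k' r : ℝ) (rt : Finset V → V), 0 < k → 0 ≤ r →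
  ∀ ω : Finset (Bit V),
  ntok (es G U Q k k' r rt ω) ≤ Δ * (2 * k) ∧ nroot (es G U Q k k' r rt ω) ≤ r + 1 ∧
  ((∃ y, k ≤ ((cl G U (lev 1 ω) y).card : ℝ)) ∨ k' ≤ ((Wof (es G U Q k k' r rt ω)).card : ℝ) ∨
    (r ≤ nroot (es G U Q k k' r rt ω) ∧ ((Wof (es G U Q k k' r rt ω) ∩ Q).card : ℝ) < 2 * k) ∨
    Done G Q k k' (es G U Q k k' r rt ω))

/-- total size of the multi-root exploration -/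
def St_ES : Prop := ∀ (K : Kc) (κ T δ : ℝ), 0 ≤ κ → 0 < T → 0 < δ → ∃ β₀ c l₀ : ℝ, 0 < β₀ ∧ 0 < c ∧
  ∀ β : ℝ, 0 < β → β ≤ β₀ → ∀ (V : Type) [Fintype V] [DecidableEq V] (M : Core K V)
    (q : Fin 5 → ℝ), M.Lv κ 1 q → l₀ ≤ M.l → ∀ U Q : Finset V, Q ⊆ U → ∀ rt : Finset V → V,
    PL q (fun ω => ind (δ * M.U ≤ ((Wof (es M.G U Q (β * M.U) (δ * M.U)
      (T * β * M.N * M.l ^ 2) rt ω)).card : ℝ))) ≤ Real.exp (-(c * M.N))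

/-- good roots exist and few of them are needed -/
def St_ER : Prop := ∀ K : Kc, ∃ T δ₀ c : ℝ, 0 < T ∧ 0 < δ₀ ∧ 0 < c ∧
  ∀ (V : Type) [Fintype V] [DecidableEq V] (M : Core K V) (U Q : Finset V), M.Small U →
    M.LB U Q → K.c * M.Vol ≤ Q.card → ∃ rt : Finset V → V, ∀ (q : Fin 5 → ℝ), q 0 = M.p →
    (∀ j, 0 ≤ q j ∧ q j ≤ 1) → ∀ β δ : ℝ, 0 < β → δ ≤ δ₀ →
    PL q (fun ω => ind (T * β * M.N * M.l ^ 2 ≤ nroot (es M.G U Q (β * M.U) (δ * M.U)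
      (T * β * M.N * M.l ^ 2) rt ω) ∧ ((Wof (es M.G U Q (β * M.U) (δ * M.U)
      (T * β * M.N * M.l ^ 2) rt ω) ∩ Q).card : ℝ) < 2 * (β * M.U))) ≤ Real.exp (-(c * β * M.N))

/-- points of the piece that are outside `Q'`, see the past, or have large self potential -/
noncomputable def badE {K : Kc} {V : Type} [Fintype V] [DecidableEq V] (M : Core K V)
    (Q Q' : Finset V) (Ms : ℝ) (W C : Finset V) : Finset V :=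
  flt (C ∩ Q) fun y => y ∉ Q' ∨ 1 < M.pot W y ∨ Ms < M.pot (C ∩ Q') y

/-- marked points of the multi-root exploration -/
def St_EM : Prop := ∀ (K : Kc) (η : ℝ), 0 < η → ∃ Ms : ℝ, 0 < Ms ∧ ∀ κ T : ℝ, 0 ≤ κ → 0 < T →
  ∃ γ₀ : ℝ, 0 < γ₀ ∧ ∀ β Cγ : ℝ, 0 < β → 0 < Cγ → ∃ c l₀ : ℝ, 0 < c ∧
  ∀ (V : Type) [Fintype V] [DecidableEq V] (M : Core K V) (q : Fin 5 → ℝ), M.Lv κ 1 q →
    l₀ ≤ M.l → l₀ ≤ M.N → ∀ U Q Q' : Finset V, M.Small U → Q ⊆ U → Q' ⊆ Q →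
    ((Q \ Q').card : ℝ) ≤ γ₀ * M.Vol → (∀ y ∈ Q', ∀ v, v ∉ Q → M.g v y ≤ Cγ * M.f0) →
    ∀ δ : ℝ, δ ≤ γ₀ → ∀ rt : Finset V → V,
    PL q (fun ω => ind (((Wof (es M.G U Q (β * M.U) (δ * M.U)
      (T * β * M.N * M.l ^ 2) rt ω) ∩ Q).card : ℝ) < 2 * (β * M.U) ∧
      η * (β * M.U) < (marked (badE M Q Q' Ms) (es M.G U Q (β * M.U) (δ * M.U)
      (T * β * M.N * M.l ^ 2) rt ω)).card)) ≤ Real.exp (-(c * M.N))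

/-- too many failures towards heavy base clusters -/
def St_EB : Prop := ∀ (K : Kc) (V : Type) [Fintype V] [DecidableEq V] (M : Core K V)
  (q : Fin 5 → ℝ), (∀ j, 0 ≤ q j ∧ q j ≤ 1) → ∀ U Q : Finset V, Q ⊆ U →
  ∀ (k k' r σ F : ℝ) (rt : Finset V → V), 0 < σ →
    PL q (fun ω => ind (Done M.G Q k k' (es M.G U Q k k' r rt ω) ∧
      F ≤ M.FF U Q (Wof (es M.G U Q k k' r rt ω)) σ (lev 0 ω))) ≤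
      Real.exp (2 * k / (σ * M.l ^ 4) - q 1 * F / 4)

/-- existence of a big cluster -/
def St_EX : Prop := ∀ K : Kc, ∃ κ₁ c₁ c C l₀ : ℝ, 0 < κ₁ ∧ 0 < c₁ ∧ c₁ ≤ 1 ∧ 0 < c ∧
  ∀ (V : Type) [Fintype V] [DecidableEq V] (M : Core K V) (q : Fin 5 → ℝ), M.Lv κ₁ 1 q →
    q 1 = κ₁ / M.l ^ 2 → l₀ ≤ M.l → l₀ ≤ M.N → ∀ U Q : Finset V, M.Small U → M.LB U Q →
    M.Inner Q → PL q (fun ω => ind (¬ ∃ y, M.big c₁ U ω y)) ≤ C * Real.exp (-(c * M.N))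

/-- bad blocks are exponentially rare -/
def St_BADP : Prop := ∀ K : Kc, ∃ κ₁ c₁ lam l₀ : ℝ, 0 < κ₁ ∧ 0 < c₁ ∧ c₁ ≤ 1 ∧ 0 < lam ∧
  ∀ (V : Type) [Fintype V] [DecidableEq V] (M : Core K V) (B : Type) [Fintype B] [DecidableEq B]
    (S : Sys M B) (q : Fin 5 → ℝ), M.Lv κ₁ 1 q → q 1 = κ₁ / M.l ^ 2 → 1 / M.l ^ 2 ≤ q 2 →
    1 / M.l ^ 2 ≤ q 3 → l₀ ≤ M.l → l₀ ≤ M.N → ∀ T : Finset B,
    PL q (fun ω => ind (∀ b ∈ T, ¬ S.good c₁ ω b)) ≤ Real.exp (-(lam * M.N * T.card))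

/-- good blocks joined by good paths give one cluster -/
def St_GGC : Prop := ∀ (K : Kc) (V : Type) [Fintype V] [DecidableEq V] (M : Core K V) (B : Type)
  [Fintype B] [DecidableEq B] (S : Sys M B) (c₁ : ℝ) (ω : Finset (Bit V)),
  (∀ b, DepOn (fun ω => S.good c₁ ω b) {e | e.1 ∈ edges M.G (S.U2 b) ∧ e.2 ≤ 3}) ∧
  (∀ b, S.good c₁ ω b → ∃ y, M.big c₁ (S.K2 b) ω y) ∧
  ∀ R : B → B → Prop, (∀ b b', R b b' → S.U1 b' ⊆ S.K2 b) → ∀ b b', S.good c₁ ω b →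
    Relation.ReflTransGen (fun u v => S.good c₁ ω v ∧ R u v) b b' →
    ∀ (Z : Finset V), (∀ u, Relation.ReflTransGen (fun u v => S.good c₁ ω v ∧ R u v) b u →
      S.U2 u ⊆ Z) → ∀ y y', M.big c₁ (S.K2 b) ω y → M.big c₁ (S.K2 b') ω y' →
      conn M.G Z (lev 3 ω) y y'

/-- first moment bound for the second largest cluster -/
def St_UPA : Prop := ∀ (K : Kc) (V : Type) [Fintype V] [DecidableEq V] (M : Core K V) (B : Type)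
  [Fintype B] [DecidableEq B] (S : Sys M B) (q : Fin 5 → ℝ), (∀ j, 0 ≤ q j ∧ q j ≤ 1) →
  ∀ (O : Finset (Bit V) → Finset B) (c₁ CY Cκ φ₃ φ₄ k δ₁ δ₂ : ℝ), 0 < k →
    PL q (fun ω => ind ((¬ ∀ b ∈ O ω, ∀ b' ∈ O ω, ∀ y y', M.big c₁ (S.K2 b) ω y →
        M.big c₁ (S.K2 b') ω y' → conn M.G univ (lev 3 ω) y y') ∨
      ∃ x, k ≤ ((M.cv univ 4 ω x).card : ℝ) ∧ S.BadA CY Cκ φ₃ φ₄ k (O ω) ω x)) ≤ δ₁ →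
    (∀ x, PL q (fun ω => ind (S.EvE c₁ k (O ω) ω x ∧
      ¬ S.BadA CY Cκ φ₃ φ₄ k (O ω) ω x)) ≤ δ₂) →
    PL q (fun ω => ind (Two M.G k (lev 4 ω))) ≤ δ₁ + Fintype.card V * δ₂ / k

end Pool.Agent.TPC
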