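import Pool.Agent.Lib.TPC.BlueF1
import Pool.Agent.Lib.TPC.BlueC
import Pool.Agent.Lib.TPC.ZBasic

/-! Blueprint F2: the abstract core on the torus; the three regimes. -/

open Finset

namespace Pool.Agent.TPC

open Pool.Agent.Lib.MP_81a99a_pr (lattice torus)

/-- the core `M` is the torus at `p - l^(-2)` with scales `l`, `N` -/
def TorM {K : Kc} {d n : ℕ} [NeZero n] (M : Core K (Tor d n)) (p l N : ℝ) : Prop :=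
  M.G = torus d n ∧ M.p = p - 1 / l ^ 2 ∧ M.l = l ∧ M.N = N

/-- the kernel of `M` is a multiple of the torus kernel -/
def TorG {K : Kc} {d n : ℕ} [NeZero n] (M : Core K (Tor d n)) (C₁ : ℝ) : Prop :=
  ∀ x y, M.g x y = C₁ * tg M.l x y

/-- the axioms of the core hold on the torus -/
def St_SETC : Prop := ∀ (d : ℕ) (p c C : ℝ), HZ d p c C → ∀ C₀ : ℝ, ∃ C₁ Cc α l₀ : ℝ, 1 ≤ C₁ ∧
  0 < α ∧ ∀ K : Kc, 2 * d ≤ K.Δ → Cc ≤ K.C → K.α ≤ α → ∀ (n : ℕ) [NeZero n] (l N : ℝ), 3 ≤ n →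
    l₀ ≤ l → 1 ≤ N → (((n : ℝ) ≤ C₀ * l ∧ l ^ 6 ≤ (n : ℝ) ^ d) ∨ l ≤ n) →
    ∃ M : Core K (Tor d n), TorM M p l N ∧ TorG M C₁

/-- small regions of the torus -/
def St_SETS : Prop := ∀ d : ℕ, 7 ≤ d → ∀ C₀ C₁ : ℝ, 1 ≤ C₁ → ∃ (Cc : ℝ) (Cs : ℝ → ℝ),
  ∀ K : Kc, Cc ≤ K.C → (∀ η, Cs η ≤ K.Cs η) → ∀ (n : ℕ) [NeZero n] (M : Core K (Tor d n))
    (U : Finset (Tor d n)), TorG M C₁ →
    (((n : ℝ) ≤ C₀ * M.l ∧ M.N = (n : ℝ) ^ d / M.l ^ 6) ∨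
      (M.l ≤ n ∧ M.N = M.l ^ (d - 6) ∧ ∃ x, U ⊆ tball x (C₀ * M.l))) → M.Small U

/-- sets that are sparse in every block carry little two-point mass -/
def St_SETK : Prop := ∀ (d : ℕ) (p c C : ℝ), HZ d p c C → ∃ (l₀ : ℝ) (Cs : ℝ → ℝ),
  ∀ (n m : ℕ) [NeZero n] [NeZero m] (l : ℝ), 3 ≤ n → l₀ ≤ l → m ≤ n → l ≤ (n : ℝ) / m →
    ∀ η ρ : ℝ, 0 < η → 0 ≤ ρ → ∀ F : Finset (Tor d n),
      (∀ b : Tor d m, ((flt F fun y => tblk m y = b).card : ℝ) ≤ ρ * l ^ d) →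
      ∀ z, ∑ y ∈ F, tt (p - 1 / l ^ 2) univ z y ≤ l ^ 2 * (η + Cs η * ρ)

/-- balls of radius `l` are inner regular -/
def St_SETN : Prop := ∀ d : ℕ, 7 ≤ d → ∀ C₁ : ℝ, 1 ≤ C₁ → ∃ Cs : ℝ → ℝ,
  ∀ K : Kc, (∀ η, Cs η ≤ K.Cs η) → ∀ (n : ℕ) [NeZero n] (M : Core K (Tor d n)),
    M.G = torus d n → TorG M C₁ → 4 * M.l ≤ n → M.N = M.l ^ (d - 6) →
    ∀ x, M.Inner (tball x M.l)

/-- lower bound for connections inside balls of the torus -/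
def St_SETL : Prop := ∀ (d : ℕ) (p c C : ℝ), HZ d p c C → ∀ R : ℝ, 1 ≤ R → ∃ R' c₁ l₀ : ℝ,
  R ≤ R' ∧ 0 < c₁ ∧ ∀ (n : ℕ) [NeZero n] (l : ℝ), l₀ ≤ l → 4 * R' * l ≤ n → ∀ x : Tor d n,
    ∀ y ∈ tball x (R * l), ∀ z ∈ tball x (R * l),
      c₁ * (l ^ 2 / l ^ d) ≤ tt (p - 1 / l ^ 2) (tball x (R' * l)) y z

/-- ball of radius `R l` around the reference point of a block -/
noncomputable def rb {d m : ℕ} (n : ℕ) [NeZero n] (l R : ℝ) (b : Tor d m) : Finset (Tor d n) :=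
  tball (tctr n b) (R * l)

/-- geometry of the regions -/
def St_REG : Prop := ∀ (d : ℕ) (R : ℝ), 2 ≤ R → ∃ Ξ : ℕ, 1 ≤ Ξ ∧
  ∀ (n m : ℕ) [NeZero n] [NeZero m] (l : ℝ), 1 ≤ l → m ≤ n → l ≤ (n : ℝ) / m →
    (n : ℝ) / m ≤ 2 * l →
    (∀ y : Tor d n, y ∈ rb n l 2 (tblk m y)) ∧
    (∀ (b : Tor d m) (y : Tor d n), y ∈ rb n l R b →
      rb n l R b ⊆ rb n l (2 * R + 2) (tblk m y) ∧
      rb n l (2 * R + 2) (tblk m y) ⊆ rb n l (3 * R + 4) b) ∧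
    (∀ (y : Tor d n) (S : Finset (Tor d m)), (∀ b ∈ S, y ∈ rb n l R b) → S.card ≤ Ξ) ∧
    (∀ (b : Tor d m), ∀ y ∈ rb n l (3 * R + 4) b, tblk m y ∈ tball b (3 * R + 7)) ∧
    (∀ b : Tor d m, (tball b (3 * R + 7)).card ≤ Ξ) ∧
    (∀ (b' : Tor d m) (S : Finset (Tor d m)), (∀ b ∈ S, b' ∈ tball b (3 * R + 7)) →
      S.card ≤ Ξ) ∧
    (∃ col : Tor d m → Fin Ξ, ∀ b b', b ≠ b' → col b = col b' →
      Disjoint (rb n l R b) (rb n l R b')) ∧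
    ∀ (r : ℝ) (b b' : Tor d m), td b b' ≤ 1 → rb n l r b' ⊆ rb n l (r + 3) b

/-- small tori carry a one-block system -/
def St_SETI : Prop := ∀ (d : ℕ) (p c C : ℝ), HZ d p c C → ∀ C₀ : ℝ, ∃ (K : Kc) (L₀ : ℝ),
  ∀ (n : ℕ) [NeZero n] (l : ℝ), L₀ ≤ l → (n : ℝ) ≤ C₀ * l → L₀ * l ^ 6 ≤ (n : ℝ) ^ d →
    ∃ M : Core K (Tor d n), TorM M p l ((n : ℝ) ^ d / l ^ 6) ∧ Nonempty (Sys M Unit)

/-- the block system lives on the grid of mesh about `l` -/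
def Grid {K : Kc} {d n m : ℕ} [NeZero n] [NeZero m] {M : Core K (Tor d n)}
    (S : Sys M (Tor d m)) (l R : ℝ) : Prop :=
  m ≤ n ∧ l ≤ (n : ℝ) / m ∧ (n : ℝ) / m ≤ 2 * l ∧ (∀ y, S.blk y = tblk m y) ∧
    (∀ b, S.U2 b ⊆ rb n l R b) ∧ ∀ b b', td b b' ≤ 1 → S.U1 b' ⊆ S.K2 b

/-- large tori carry a grid system -/
def St_SETII : Prop := ∀ (d : ℕ) (p c C : ℝ), HZ d p c C → ∃ (K : Kc) (C₀ R L₀ : ℝ), 1 ≤ C₀ ∧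
  1 ≤ R ∧ ∀ (n : ℕ) [NeZero n] (l : ℝ), L₀ ≤ l → C₀ * l ≤ n →
    ∃ (m : ℕ) (_ : NeZero m) (M : Core K (Tor d n)) (S : Sys M (Tor d m)),
      TorM M p l (l ^ (d - 6)) ∧ Grid S l R

/-- the set of bad blocks -/
def badSet {K : Kc} {V B : Type} [Fintype V] [DecidableEq V] [Fintype B] [DecidableEq B]
    {M : Core K V} (S : Sys M B) (c₁ : ℝ) (ω : Finset (Bit V)) : Set B := {b | ¬ S.good c₁ ω b}

/-- all probabilistic inputs of the second regime -/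
def Pk2 (d : ℕ) (p κ C₀ R c₁ lam Cκ θ C₁ : ℝ) (K : Kc) : Prop := ∀ CY : ℝ, 0 < CY →
  ∃ φ₃ φ₄ c C L₀ : ℝ, 0 < φ₃ ∧ 0 < φ₄ ∧ 0 < c ∧ 0 < C ∧
  ∀ (n : ℕ) [NeZero n] (l : ℝ), L₀ ≤ l → C₀ * l ≤ n →
    ∃ (m : ℕ) (_ : NeZero m) (M : Core K (Tor d n)) (S : Sys M (Tor d m)) (q : Fin 5 → ℝ),
      TorM M p l (l ^ (d - 6)) ∧ Grid S l R ∧ (∀ j, 0 ≤ q j ∧ q j ≤ 1) ∧
      plev q 4 = p * (1 + κ / l ^ 2) ∧
      (∀ T : Finset (Tor d m), PL q (fun ω => ind ((T : Set (Tor d m)) ⊆ badSet S c₁ ω)) ≤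
        Real.exp (-(lam * l ^ (d - 6) * T.card))) ∧
      (∀ T : Finset (Tor d m), PL q (fun ω => Real.exp (θ *
        (flt (flt univ fun y => l ^ 4 ≤ ((M.cv univ 4 ω y).card : ℝ)) fun y =>
          tblk m y ∈ T).card / l ^ 4)) ≤ Real.exp (C₁ * l ^ (d - 6) * T.card)) ∧
      ∀ (k : ℝ) (x : Tor d n), l ^ 4 ≤ k →
        PL q (fun ω => ind (S.EvE c₁ k (Oset (badSet S c₁ ω)) ω x ∧
          ¬ S.BadA CY Cκ φ₃ φ₄ k (Oset (badSet S c₁ ω)) ω x)) ≤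
          C / l ^ 2 * Real.exp (-(c * k / l ^ 4))

/-- the inputs of the second regime hold -/
def St_PK2 : Prop := ∀ (d : ℕ) (p c C : ℝ), HZ d p c C →
  ∃ (κ C₀ R c₁ lam Cκ θ C₁ : ℝ) (K : Kc), 1 ≤ κ ∧ 1 ≤ C₀ ∧ 1 ≤ R ∧ 0 < c₁ ∧ 0 < lam ∧ 1 ≤ Cκ ∧
    0 < θ ∧ Pk2 d p κ C₀ R c₁ lam Cκ θ C₁ K

/-- upper bound on small tori -/
def St_UI : Prop := ∀ (d : ℕ) (p c C : ℝ), HZ d p c C → ∀ C₀ : ℝ, ∃ κ A : ℝ, 1 ≤ κ ∧ 0 < A ∧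
  ∀ η : ℝ, 0 < η → ∃ L₀ : ℝ, ∀ (n : ℕ) [NeZero n] (l : ℝ), L₀ ≤ l → (n : ℝ) ≤ C₀ * l →
    L₀ * l ^ 6 ≤ (n : ℝ) ^ d → pTwo d n (p * (1 + κ / l ^ 2)) (A * sMF l ((n : ℝ) ^ d)) ≤ η

/-- upper bound on large tori without droplets -/
def St_UIIa : Prop := ∀ d : ℕ, 9 ≤ d → ∀ (p κ C₀ R c₁ lam Cκ θ C₁ : ℝ) (K : Kc), 1 ≤ C₀ →
  0 < c₁ → 0 < lam → 1 ≤ Cκ → Pk2 d p κ C₀ R c₁ lam Cκ θ C₁ K → ∃ cs A : ℝ, 0 < cs ∧ 0 < A ∧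
  ∀ η : ℝ, 0 < η → ∃ L₀ : ℝ, ∀ (n : ℕ) [NeZero n] (l : ℝ), L₀ ≤ l → C₀ * l ≤ n →
    Real.log ((n : ℝ) ^ d) ≤ cs * l ^ (d - 6) →
    pTwo d n (p * (1 + κ / l ^ 2)) (A * sMF l ((n : ℝ) ^ d)) ≤ η

/-- numerical side conditions of the droplet regime -/
def St_NUMB : Prop := ∀ d : ℕ, 9 ≤ d → ∀ cs lam lam₀ Cκ φ c C : ℝ, 0 < cs → 0 < lam → 0 < Cκ →
  0 < φ → 0 < c → 0 < C → ∃ A : ℝ, 0 < A ∧ ∀ η : ℝ, 0 < η → ∃ L₀ : ℝ,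
  ∀ (n m : ℕ) (l k : ℝ), L₀ ≤ l → m ≤ n → (n : ℝ) ≤ 2 * l * m →
    cs * l ^ (d - 6) ≤ Real.log ((n : ℝ) ^ d) →
    k = A * max (sMF l ((n : ℝ) ^ d)) (sDrop d l ((n : ℝ) ^ d)) → ∃ (s₀ : ℕ) (B : ℝ),
      l ^ 4 ≤ k ∧ lam₀ ≤ lam * l ^ (d - 6) ∧ 1 ≤ φ * k / (l ^ (d - 6) * l ^ 4) ∧ 1 ≤ B ∧
      2 * (Cκ * k) ≤ B * (φ * k / (l ^ (d - 6) * l ^ 4)) ∧
      Real.log B ≤ c * (lam * l ^ (d - 6)) ∧ 4 * (Cκ * k) + 4 * s₀ < m ∧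
      (m : ℝ) ^ d * Real.exp (-(lam * l ^ (d - 6) * s₀ / 2)) ≤ η ∧
      (n : ℝ) ^ d * (C * Real.exp (-(c * k / l ^ 4))) ≤ η ∧
      (n : ℝ) ^ d * (C * Real.exp (-(c * (lam * l ^ (d - 6)) *
        (φ * k / (l ^ (d - 6) * l ^ 4)) ^ (((d : ℝ) - 1) / d)))) ≤ η

/-- upper bound in the droplet regime -/
def St_UIIb : Prop := ∀ d : ℕ, 9 ≤ d → ∀ (p κ C₀ R c₁ lam Cκ θ C₁ : ℝ) (K : Kc), 1 ≤ C₀ →
  0 < c₁ → 0 < lam → 1 ≤ Cκ → 0 < θ → Pk2 d p κ C₀ R c₁ lam Cκ θ C₁ K → ∀ cs : ℝ, 0 < cs →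
  ∃ A : ℝ, 0 < A ∧ ∀ η : ℝ, 0 < η → ∃ L₀ : ℝ, ∀ (n : ℕ) [NeZero n] (l : ℝ), L₀ ≤ l →
    C₀ * l ≤ n → cs * l ^ (d - 6) ≤ Real.log ((n : ℝ) ^ d) →
    pTwo d n (p * (1 + κ / l ^ 2)) (A * max (sMF l ((n : ℝ) ^ d)) (sDrop d l ((n : ℝ) ^ d))) ≤ η

lemma Two.anti {V : Type} [Fintype V] [DecidableEq V] {G : SimpleGraph V} {k k' : ℝ}
    {ω : Finset (Sym2 V)} (h : Two G k ω) (hk : k' ≤ k) : Two G k' ω := by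
  obtain ⟨x, y, h1, h2, h3⟩ := h
  exact ⟨x, y, h1, hk.trans h2, hk.trans h3⟩

lemma pTwo_anti {d n : ℕ} [NeZero n] {q k k' : ℝ} (h0 : 0 ≤ q) (h1 : q ≤ 1) (hk : k' ≤ k) :
    pTwo d n q k ≤ pTwo d n q k' :=
  PE_ind_mono (Prob.const h0 h1) fun _ h => h.anti hk

/-- the level four configuration has the law of percolation at `plev q 4` -/
lemma pTwo_eq_PL {d n : ℕ} [NeZero n] (q : Fin 5 → ℝ) (k : ℝ) :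
    pTwo d n (plev q 4) k = PL q (fun ω => ind (Two (torus d n) k (lev 4 ω))) :=
  (PL_lev q 4 fun η => ind (Two (torus d n) k η)).symm

lemma plev_four (q : Fin 5 → ℝ) : plev q 4 = 1 - ∏ j, (1 - q j) := by
  unfold plev
  congr 2

lemma plev_mem {q : Fin 5 → ℝ} (hq : ∀ j, 0 ≤ q j ∧ q j ≤ 1) (i : Fin 5) :
    0 ≤ plev q i ∧ plev q i ≤ 1 := by
  unfold plev
  have h0 : 0 ≤ ∏ j ∈ Finset.Iic i, (1 - q j) :=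
    Finset.prod_nonneg fun j _ => by linarith [(hq j).2]
  have h1 : ∏ j ∈ Finset.Iic i, (1 - q j) ≤ 1 :=
    Finset.prod_le_one (fun j _ => by linarith [(hq j).2]) fun j _ => by linarith [(hq j).1]
  constructor <;> linarith

section grid

variable {K : Kc} {d n m : ℕ} [NeZero n] [NeZero m] {M : Core K (Tor d n)}
  {S : Sys M (Tor d m)} {l R c₁ : ℝ} {ω : Finset (Bit (Tor d n))}

/-- outer blocks are good -/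
lemma good_of_Oset (hO : St_OJ) (hd : 2 ≤ d) {b : Tor d m} (hb : b ∈ Oset (badSet S c₁ ω)) :
    S.good c₁ ω b := not_not.1 ((hO d m hd _).1 b hb)

/-- in a calm configuration the big clusters of the outer blocks are connected -/
lemma conn_of_calm (hO : St_OJ) (hG : St_GGC) (hd : 2 ≤ d) (hS : Grid S l R) {s₀ : ℕ}
    (h : Calm (badSet S c₁ ω) s₀) : ∀ b ∈ Oset (badSet S c₁ ω), ∀ b' ∈ Oset (badSet S c₁ ω),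
    ∀ y y', M.big c₁ (S.K2 b) ω y → M.big c₁ (S.K2 b') ω y' → conn M.G univ (lev 3 ω) y y' := by
  intro b hb b' hb' y y' hy hy'
  refine (hG K _ M _ S c₁ ω).2.2 (fun u v => td u v ≤ 1) hS.2.2.2.2.2 b b'
    (good_of_Oset hO hd hb) ?_ univ (fun _ _ => Finset.subset_univ _) y y' hy hy'
  refine Relation.ReflTransGen.mono ?_ _ _ ((hO d m hd _).2 s₀ h b hb b' hb')
  exact fun u v huv => ⟨not_not.1 huv.1, huv.2⟩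

/-- without bad blocks the configuration is calm and all blocks are outer -/
lemma calm_of_good (hH : St_HULL) (hd : 2 ≤ d) (h : ∀ b, S.good c₁ ω b) :
    Calm (badSet S c₁ ω) 0 ∧ ∀ b, b ∈ Oset (badSet S c₁ ω) := by
  have e : ∀ Γ : Finset (Zd d), (Γ : Set (Zd d)) ⊆ liftSet (badSet S c₁ ω) → Γ = ∅ := fun Γ hΓ =>
    Finset.eq_empty_of_forall_notMem fun z hz => hΓ hz (h _)
  refine ⟨fun Γ _ hΓ => by rw [e Γ hΓ]; simp, fun b => mem_flt.2 ⟨mem_univ _, ?_⟩⟩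
  rintro ⟨z, Γ, -, -, hΓ, hz⟩
  have := (hH d hd Γ).2.1 {z} (by simpa using hz)
  have h2 : (2 : ℝ) ≤ d := by exact_mod_cast hd
  rw [e Γ hΓ, Finset.card_empty, Nat.cast_zero,
    Real.zero_rpow (div_pos (by linarith) (by linarith)).ne'] at this
  norm_num at this

end grid

end Pool.Agent.TPC
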