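import Pool.Agent.Lib.TPC.BlueZ

open Finset

namespace Pool.Agent.TPC

namespace E1B

variable {d : ℕ}

lemma layer : ∃ B : ℝ, 0 < B ∧ ∀ a : ℝ, 5 / 2 ≤ a → ∀ N : ℕ,
    ∑ j ∈ range N, ((j : ℝ) + 1) * kk a j ≤ B := by
  have h : Summable fun n : ℕ => ((n + 1 : ℕ) : ℝ) ^ (-(3 / 2) : ℝ) :=
    (summable_nat_add_iff 1).2 (Real.summable_nat_rpow.2 (by norm_num))
  have h0 : 0 ≤ ∑' n : ℕ, ((n + 1 : ℕ) : ℝ) ^ (-(3 / 2) : ℝ) := tsum_nonneg fun n => by positivity
  refine ⟨_ + 1, by linarith [h0], fun a ha N => le_trans ?_ (le_add_of_nonneg_right zero_le_one)⟩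
  refine le_trans (sum_le_sum fun j _ => ?_) (h.sum_le_tsum (range N) fun n _ => by positivity)
  have hj : (0 : ℝ) ≤ j := Nat.cast_nonneg j
  rw [add_comm, ← kk_neg_one, kk_mul _ _ hj]
  refine (kk_anti_exp (a := 3 / 2) hj (by linarith)).trans (le_of_eq ?_)
  rw [kk, add_comm]
  push_cast
  rfl

lemma zd_ev (y : Zd d) (i : Fin d) (K : ℕ) : zd y (y + ev i K) ≤ K := zd_le_nat.2 fun j => by
  by_cases h : j = i
  · subst h
    simp only [Pi.add_apply, Pi.single_eq_same]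
    omega
  · simp only [Pi.add_apply, Pi.single_eq_of_ne h]
    omega

lemma shift {p Φ q : ℝ} (hΦ : Psi d p Φ) (q0 : 0 ≤ q) (q1 : q ≤ p) (K : ℕ) (L F : Finset (Zd d))
    (i : Fin d) (h : ℤ) (hL : ∀ y ∈ L, y i ≤ h + K) (hF : ∀ y ∈ F, y i = h) (v : Zd d) :
    ∑ y ∈ F, tz q L (y + ev i K) v ≤ Φ := by
  have := hΦ.2 q q0 q1 L (F.image fun y => y + ev i K) i (h + K) v (Or.inl hL)
    (forall_mem_image.2 fun y hy => by simp [hF y hy])
  rw [(aut_add (ev i K)).sum_image] at this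
  simpa only [tz_comm (x := v)] using this

lemma sq_le {B A a J r : ℝ} (hB : 0 ≤ B) (ha : 0 ≤ a) (hJ : 0 ≤ J) (hr : 0 ≤ r)
    (h1 : B ≤ A * kk a J) (h2 : B ≤ A * kk a r) :
    B * B ≤ A * A * (kk (a / 2) J * kk (3 * a / 2) r) := by
  have e : ∀ s, 0 ≤ s → A * kk a s * (A * kk a s) = A * A * (kk (a / 2) s * kk (3 * a / 2) s) :=
    fun s hs => by
      rw [kk_mul _ _ hs, show a / 2 + 3 * a / 2 = a + a by ring, ← kk_mul _ _ hs]
      ring
  rcases le_total J r with h | h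
  · refine (mul_self_le_mul_self hB h2).trans ((e r hr).le.trans ?_)
    exact mul_le_mul_of_nonneg_left (mul_le_mul_of_nonneg_right (kk_anti (by linarith) hJ h)
      (kk_nonneg _ hr)) (mul_self_nonneg A)
  · refine (mul_self_le_mul_self hB h1).trans ((e J hJ).le.trans ?_)
    exact mul_le_mul_of_nonneg_left (mul_le_mul_of_nonneg_left (kk_anti (by linarith) hr h)
      (kk_nonneg _ hJ)) (mul_self_nonneg A)

lemma reorder {X : Type} (S L F T : Finset X) (a : X → ℝ) (b c e : X → X → ℝ) :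
    ∑ x ∈ T, ∑ y ∈ F, ∑ y' ∈ F, ∑ u ∈ S, ∑ v ∈ L,
      a u * b u y * b u y' * (c y v * c y' v * e v x) =
    ∑ u ∈ S, a u * ∑ v ∈ L, (∑ y ∈ F, b u y * c y v) * (∑ y ∈ F, b u y * c y v) *
      ∑ x ∈ T, e v x := by
  have h : ∀ (f : X → X → X → ℝ) (A : Finset X), ∑ x ∈ A, ∑ u ∈ S, ∑ v ∈ L, f x u v =
      ∑ u ∈ S, ∑ v ∈ L, ∑ x ∈ A, f x u v := fun f A => by
    rw [sum_comm]
    exact sum_congr rfl fun u _ => sum_comm
  simp only [h]
  refine sum_congr rfl fun u _ => ?_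
  rw [mul_sum]
  refine sum_congr rfl fun v _ => ?_
  rw [sum_mul_sum, mul_sum, mul_sum]
  refine sum_congr rfl fun x _ => ?_
  rw [sum_mul, mul_sum]
  refine sum_congr rfl fun y _ => ?_
  rw [sum_mul, mul_sum]
  exact sum_congr rfl fun y' _ => by ring

end E1B

open E1B in
theorem st_E1B (hLAY : St_LAY) (hS : St_S12) : St_E1B := by
  intro d p c C Φ hz hΦ K
  have d9 : (9 : ℝ) ≤ d := by exact_mod_cast hz.hd
  have p1 := hz.p1.le
  have Φ1 := hΦ.1
  have K0 : (0 : ℝ) ≤ K := Nat.cast_nonneg K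
  have C0 : 0 < C := by
    have := hz.up {0} 0 0
    rw [tz_self (mem_singleton_self _), zd_self, kk_zero] at this
    linarith
  obtain ⟨B₀, b0, hB₀⟩ := layer
  obtain ⟨C₂, c2, hC₂⟩ := hS d (3 * d / 2 - 4) (by linarith) (by linarith)
  obtain ⟨M, hM⟩ : ∃ M : ℝ, M = (2 + K) ^ ((d : ℝ) - 2) := ⟨_, rfl⟩
  have M1 : 1 ≤ M := hM ▸ Real.one_le_rpow (by linarith) (by linarith)
  obtain ⟨A, hA⟩ : ∃ A : ℝ, A = 2 * C * M * Φ := ⟨_, rfl⟩
  have A0 : 0 < A := by rw [hA]; positivity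
  refine ⟨A * A * (1 + K) * Φ ^ 2 * C₂ * (Φ ^ 2 * B₀), by positivity,
    fun q q0 q1 S L F T i h k o h1 h2 h3 h4 => ?_⟩
  have q2 := q1.trans p1
  have up : ∀ (D : Finset (Zd d)) (x y : Zd d), tz q D x y ≤ C * kk (d - 2) (zd x y) :=
    fun D x y => (tz_mono_p q0 q1 p1).trans (hz.up D x y)
  have t0 : ∀ (D : Finset (Zd d)) (x y : Zd d), 0 ≤ tz q D x y := fun D x y => tz_nonneg q0 q2
  rw [reorder S L F T (tz q S o) (tz q S) (fun y v => tz q L (y + ev i K) v) (tz q L)]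
  have fin := (hLAY d p Φ p1 hΦ q q0 q1 S i h h1 o).2.1 (fun j => kk (((d : ℝ) - 4) / 2) j) B₀
    (fun j => kk_nonneg _ (Nat.cast_nonneg j)) (hB₀ _ (by linarith))
  refine le_trans ?_ (mul_le_mul_of_nonneg_left fin (by positivity))
  rw [mul_sum]
  refine sum_le_sum fun u hu => ?_
  rw [mul_left_comm]
  refine mul_le_mul_of_nonneg_left ?_ (t0 _ _ _)
  obtain ⟨J, hJ⟩ : ∃ J : ℝ, J = ((h - u i).toNat : ℝ) := ⟨_, rfl⟩
  have J0 : 0 ≤ J := hJ ▸ Nat.cast_nonneg _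
  have J1 : J = h - u i := by
    have : (((h - u i).toNat : ℤ) : ℝ) = ((h - u i : ℤ) : ℝ) := by
      rw [Int.toNat_of_nonneg (sub_nonneg.2 (h1 u hu))]
    rw [hJ]
    exact_mod_cast this
  rw [← hJ]
  have s1 := hΦ.2 q q0 q1 S F i h u (Or.inl h1) h3
  have fin2 := ((hC₂ _ _ (met_zd d) u L 0 le_rfl).2 (by linarith) fun y _ => zd_nonneg u y)
  rw [kk_zero, mul_one] at fin2
  have kJ := kk_nonneg (((d : ℝ) - 4) / 2) J0
  refine le_trans ?_ (le_of_le_of_eq (mul_le_mul_of_nonneg_left fin2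
    (show 0 ≤ A * A * (1 + K) * Φ ^ 2 * kk (((d : ℝ) - 4) / 2) J by positivity)) (by ring))
  rw [mul_sum]
  refine sum_le_sum fun v hv => ?_
  have r0 := zd_nonneg u v
  have s2 := shift hΦ q0 q1 K L F i h h2 h3 v
  have kr := kk_nonneg ((d : ℝ) - 2) r0
  have kJ2 := kk_nonneg ((d : ℝ) - 2) J0
  have B1 : ∑ y ∈ F, tz q S u y * tz q L (y + ev i K) v ≤ A * kk (d - 2) J := by
    have e : ∑ y ∈ F, tz q S u y * tz q L (y + ev i K) v ≤
        C * kk (d - 2) J * ∑ y ∈ F, tz q L (y + ev i K) v := by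
      rw [mul_sum]
      refine sum_le_sum fun y hy => mul_le_mul_of_nonneg_right ((up _ _ _).trans
        (mul_le_mul_of_nonneg_left (kk_anti (by linarith) J0 ?_) C0.le)) (t0 _ _ _)
      have := abs_le_zd u y i
      rw [h3 y hy] at this
      linarith [neg_abs_le ((u i : ℝ) - h)]
    refine e.trans ((mul_le_mul_of_nonneg_left s2 (by positivity)).trans ?_)
    have : 0 ≤ C * Φ * kk (d - 2) J * (2 * M - 1) := mul_nonneg (by positivity) (by linarith)
    rw [hA]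
    linarith
  have B2 : ∑ y ∈ F, tz q S u y * tz q L (y + ev i K) v ≤ A * kk (d - 2) (zd u v) := by
    have e : ∑ y ∈ F, tz q S u y * tz q L (y + ev i K) v ≤ C * M * kk (d - 2) (zd u v) *
        (∑ y ∈ F, tz q S u y + ∑ y ∈ F, tz q L (y + ev i K) v) := by
      rw [← sum_add_distrib, mul_sum]
      refine sum_le_sum fun y _ => ?_
      have a0 := zd_nonneg u y
      have a1 := zd_nonneg (y + ev i K) v
      have a2 := zd_tri u y v
      have a3 := zd_tri y (y + ev i K) v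
      have a4 := zd_ev y i K
      have a5 := t0 S u y
      have a6 := t0 L (y + ev i K) v
      have a7 : ∀ s : ℝ, zd u y ≤ s → zd (y + ev i K) v ≤ s →
          C * kk (d - 2) s ≤ C * M * kk (d - 2) (zd u v) := fun s k1 k2 => by
        rw [mul_assoc, hM]
        exact mul_le_mul_of_nonneg_left
          (kk_le_mul (by linarith) r0 (by linarith) (by nlinarith)) C0.le
      have a8 : 0 ≤ C * M * kk (d - 2) (zd u v) := by positivity
      rcases le_total (zd u y) (zd (y + ev i K) v) with k | k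
      · have := mul_le_mul_of_nonneg_left ((up L _ _).trans (a7 _ k le_rfl)) a5
        nlinarith [mul_nonneg a8 a6]
      · have := mul_le_mul_of_nonneg_right ((up S _ _).trans (a7 _ le_rfl k)) a6
        nlinarith [mul_nonneg a8 a5]
    refine e.trans ((mul_le_mul_of_nonneg_left (add_le_add s1 s2) (by positivity)).trans ?_)
    rw [hA]
    exact le_of_eq (by ring)
  have X : ∑ x ∈ T, tz q L v x ≤ (1 + K) * (1 + J) * (1 + zd u v) * Φ ^ 2 := by
    by_cases hk : k ≤ h + K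
    · refine ((hLAY d p Φ p1 hΦ q q0 q1 L i (h + K) h2 v).1 T k (h2 v hv) hk h4).trans
        (mul_le_mul_of_nonneg_right ?_ (sq_nonneg _))
      have a1 : ((h + K - max (v i) k + 1 : ℤ) : ℝ) ≤ ((h + K - v i + 1 : ℤ) : ℝ) :=
        Int.cast_le.2 (by omega)
      push_cast at a1 ⊢
      have a2 := (le_abs_self _).trans (abs_le_zd u v i)
      have a3 : 0 ≤ K * J := by positivity
      have a4 : 0 ≤ (K + J + K * J) * zd u v := by positivity
      linarith
    · rw [sum_eq_zero fun x hx => tz_of_notMem' fun hL => hk ((h4 x hx).symm.le.trans (h2 x hL))]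
      positivity
  have B0 : 0 ≤ ∑ y ∈ F, tz q S u y * tz q L (y + ev i K) v :=
    sum_nonneg fun y _ => mul_nonneg (t0 _ _ _) (t0 _ _ _)
  have B3 := sq_le B0 (by linarith) J0 r0 B1 B2
  refine (mul_le_mul B3 X (sum_nonneg fun x _ => t0 _ _ _)
    ((mul_self_nonneg _).trans B3)).trans (le_of_eq ?_)
  rw [show ((d : ℝ) - 4) / 2 = (d - 2) / 2 + -1 by ring,
    show 3 * (d : ℝ) / 2 - 4 = 3 * (d - 2) / 2 + -1 by ring, ← kk_mul _ _ J0, ← kk_mul _ _ r0,
    kk_neg_one, kk_neg_one]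
  ring

end Pool.Agent.TPC
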