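import Pool.Agent.Lib.TPC.BlueZ

/-! Pioneers of half spaces and masses of layers. -/

open Finset

namespace Pool.Agent.TPC

namespace PSI

variable {d : ℕ} {p q Φ : ℝ}

lemma lay0 (h1 : p ≤ 1) (hP : Psi d p Φ) (h0 : 0 ≤ q) (hq : q ≤ p) {S T : Finset (Zd d)} {i : Fin d} {k : ℤ}
    {u : Zd d} (hS : ∀ y ∈ S, y i ≤ u i) (hT : ∀ w ∈ T, w i = k) : ∑ w ∈ T, tz q S u w ≤ Φ := by
  have h2 := hP.2 q h0 hq (T.biUnion fun w => S.image fun y => y + (ev i k - w))
    (T.image fun w => u + (ev i k - w)) i (u i) (ev i k) (Or.inl fun y hy => ?_) fun y hy => ?_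
  · rw [sum_image fun a _ b _ e => by simpa using e] at h2
    refine le_trans (sum_le_sum fun w hw => ?_) h2
    have h3 := (aut_add (ev i k - w)).tz_le h0 (hq.trans h1) (D := S)
      (D' := T.biUnion fun w => S.image fun y => y + (ev i k - w))
      (fun z hz => mem_biUnion.2 ⟨w, hw, mem_image_of_mem _ hz⟩) u w
    rwa [add_sub_cancel, tz_comm (y := ev i k)] at h3
  · obtain ⟨w, hw, h3⟩ := mem_biUnion.1 hy
    obtain ⟨z, hz, rfl⟩ := mem_image.1 h3
    simpa [hT w hw] using hS z hz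
  · obtain ⟨w, hw, rfl⟩ := mem_image.1 hy
    simp [hT w hw]

lemma laya (hPL : St_PL5) (h1 : p ≤ 1) (hP : Psi d p Φ) (h0 : 0 ≤ q) (hq : q ≤ p) {S T : Finset (Zd d)}
    {i : Fin d} {h k : ℤ} (hS : ∀ y ∈ S, y i ≤ h) {o : Zd d} (ho : o i ≤ h) (hk : k ≤ h)
    (hT : ∀ w ∈ T, w i = k) : ∑ w ∈ T, tz q S o w ≤ ((h - max (o i) k + 1 : ℤ) : ℝ) * Φ ^ 2 := by
  have hq1 := hq.trans h1
  have hΦ : 0 ≤ Φ := zero_le_one.trans hP.1
  set g : Zd d → ℝ := fun u => tz q (flt S fun y => y i ≤ u i) o u *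
    ∑ w ∈ T, tz q (flt S fun y => y i ≤ u i) u w with hg
  have h2 : ∑ w ∈ T, tz q S o w ≤ ∑ u ∈ S, g u := by
    simp only [hg, mul_sum]
    rw [sum_comm]
    exact sum_le_sum fun w _ => hPL _ _ _ (Prob.const h0 hq1) S (fun y => y i) o w
  have h3 : ∑ u ∈ S with u i ∈ Icc (max (o i) k) h, g u = ∑ u ∈ S, g u := by
    refine sum_filter_of_ne fun u hu hne => mem_Icc.2 ⟨max_le ?_ ?_, hS u hu⟩
    · by_contra hn
      exact left_ne_zero_of_mul hne (tz_of_notMem fun h4 => hn (mem_flt.1 h4).2)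
    · by_contra hn
      exact right_ne_zero_of_mul hne (sum_eq_zero fun w hw => tz_of_notMem' fun h4 =>
        hn (hT w hw ▸ (mem_flt.1 h4).2))
  rw [← h3, ← sum_fiberwise_of_maps_to (g := fun u : Zd d => u i) (t := Icc (max (o i) k) h)
    fun u hu => (mem_filter.1 hu).2] at h2
  refine h2.trans ((sum_le_card_nsmul _ _ (Φ ^ 2) fun t _ => ?_).trans_eq ?_)
  · have h4 := hP.2 q h0 hq (flt S fun y => y i ≤ t)
      ((S.filter fun u => u i ∈ Icc (max (o i) k) h).filter fun u => u i = t) i t o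
      (Or.inl fun y hy => (mem_flt.1 hy).2) fun y hy => (mem_filter.1 hy).2
    refine le_trans (sum_le_sum (g := fun u => tz q (flt S fun y => y i ≤ t) o u * Φ) fun u hu => ?_) ?_
    · rw [← (mem_filter.1 hu).2]
      exact mul_le_mul_of_nonneg_left (lay0 h1 hP h0 hq (fun y hy => (mem_flt.1 hy).2) hT) (tz_nonneg h0 hq1)
    · rw [← sum_mul, sq]
      exact mul_le_mul_of_nonneg_right h4 hΦ
  · rw [Int.card_Icc, nsmul_eq_mul, ← Int.cast_natCast, Int.toNat_of_nonneg (by omega)]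
    congr 2
    ring

lemma layb (hPL : St_PL5) (h1 : p ≤ 1) (hP : Psi d p Φ) (h0 : 0 ≤ q) (hq : q ≤ p) {S : Finset (Zd d)}
    {i : Fin d} {h : ℤ} (hS : ∀ y ∈ S, y i ≤ h) (o : Zd d) (γ : ℕ → ℝ) (B : ℝ) (hγ : ∀ j, 0 ≤ γ j)
    (hB : ∀ N, ∑ j ∈ range N, (j + 1) * γ j ≤ B) :
    ∑ u ∈ S, tz q S o u * γ (h - u i).toNat ≤ Φ ^ 2 * B := by
  by_cases ho : o ∈ S
  swap
  · rw [sum_eq_zero fun u _ => by rw [tz_of_notMem ho, zero_mul]]
    exact mul_nonneg (sq_nonneg _) (by simpa using hB 0)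
  rw [← sum_fiberwise_of_maps_to (g := fun u : Zd d => (h - u i).toNat)
    (t := range (S.sup (fun u => (h - u i).toNat) + 1))
    fun u hu => mem_range.2 (Nat.lt_succ_of_le (le_sup (f := fun u : Zd d => (h - u i).toNat) hu))]
  refine le_trans (sum_le_sum fun j _ => ?_) (mul_le_mul_of_nonneg_left (hB _) (sq_nonneg Φ) |>.trans'
    (mul_sum _ _ _).ge)
  rw [sum_congr rfl fun u hu => by rw [(mem_filter.1 hu).2], ← sum_mul, ← mul_assoc]
  refine mul_le_mul_of_nonneg_right ((laya hPL h1 hP h0 hq hS (hS o ho) (k := h - j) (by omega)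
    fun w hw => ?_).trans ?_) (hγ j)
  · have h2 := (mem_filter.1 hw).2
    have h3 := hS w (mem_filter.1 hw).1
    omega
  · rw [mul_comm]
    refine mul_le_mul_of_nonneg_left ?_ (sq_nonneg Φ)
    have h2 : h - max (o i) (h - j) + 1 ≤ j + 1 := by omega
    exact_mod_cast h2

end PSI

open PSI

theorem st_PSI (hZ : St_Z5) : St_PSI := by
  intro d p c C H
  obtain ⟨Φ, hΦ⟩ := hZ d p c C H
  refine ⟨max 1 Φ, le_max_left _ _, fun q h0 hq S F i h x hS hF => ?_⟩
  have hq1 := hq.trans H.p1.le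
  have key : ∀ (S F : Finset (Zd d)) (x : Zd d), (∀ y ∈ S, y i ≤ h) → (∀ y ∈ F, y i = h) →
      ∑ y ∈ F, tz q S x y ≤ max 1 Φ := fun S F x hS hF => by
    obtain ⟨R, hR⟩ := exists_box S (ev i h)
    have h1 : S ⊆ box (ev i (h - R)) R := fun y hy => mem_box'.2 fun j => by
      have h2 := mem_box'.1 (hR hy) j
      have h3 := hS y hy
      by_cases hj : j = i
      · subst hj
        simp only [Pi.single_eq_same] at h2 ⊢
        omega
      · simpa only [Pi.single_eq_of_ne hj] using h2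
    refine le_trans ?_ ((hΦ (ev i (h - R)) R i x).trans (le_max_right _ _))
    rw [← sum_filter_of_ne (p := fun y => y ∈ S) fun y _ hne => by
      by_contra hn
      exact hne (tz_of_notMem' hn)]
    refine (sum_le_sum fun y _ => (tz_mono_p h0 hq H.p1.le).trans
      (tz_mono_dom H.p0.le H.p1.le h1)).trans (sum_le_sum_of_subset_of_nonneg (fun y hy => ?_)
        fun _ _ _ => tz_nonneg H.p0.le H.p1.le)
    exact mem_flt.2 ⟨h1 (mem_filter.1 hy).2, by simp [hF y (mem_filter.1 hy).1]⟩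
  rcases hS with hS | hS
  · exact key S F x hS hF
  · have hA := aut_refl i (2 * h)
    have h1 := key (S.image (refl i (2 * h))) (F.image (refl i (2 * h))) (refl i (2 * h) x)
      (fun y hy => ?_) fun y hy => ?_
    · simpa only [hA.sum_image, hA.tz_eq] using h1
    · obtain ⟨z, hz, rfl⟩ := mem_image.1 hy
      have := hS z hz
      rw [refl_same]
      omega
    · obtain ⟨z, hz, rfl⟩ := mem_image.1 hy
      have := hF z hz
      rw [refl_same]
      omega

theorem st_LAY (hPL : St_PL5) : St_LAY := by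
  intro d p Φ h1 hP q h0 hq S i h hS o
  refine ⟨fun T k ho hk hT => laya hPL h1 hP h0 hq hS ho hk hT, layb hPL h1 hP h0 hq hS o,
    fun F A Γ hF hΓ hA => ?_⟩
  refine le_trans (sum_le_sum fun u hu => mul_le_mul_of_nonneg_left ?_ (tz_nonneg h0 (hq.trans h1)))
    (layb hPL h1 hP h0 hq hS o (fun j => ∑ a ∈ A with (a i).toNat = j, Γ a) _
      (fun j => sum_nonneg fun a _ => hΓ a) fun N => ?_)
  · rw [← sum_image (g := fun y => y - u) (f := Γ) fun a _ b _ e => sub_left_injective e]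
    refine sum_le_sum_of_subset_of_nonneg (fun a ha => ?_) fun a _ _ => hΓ a
    obtain ⟨y, hy, rfl⟩ := mem_image.1 ha
    exact mem_filter.2 ⟨hA u hu y hy, by rw [Pi.sub_apply, hF y hy]⟩
  · refine le_trans (sum_le_sum fun j _ => ?_) (sum_fiberwise_le_sum_of_sum_fiber_nonneg (t := range N)
      (g := fun a : Zd d => (a i).toNat) fun j _ => sum_nonneg fun a _ => mul_nonneg (by positivity) (hΓ a))
    rw [mul_sum]
    refine sum_le_sum fun a ha => mul_le_mul_of_nonneg_right ?_ (hΓ a)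
    have h2 := norm_le_pi_norm a i
    rw [Int.norm_eq_abs] at h2
    have h3 : (j : ℤ) ≤ |a i| := by
      have := (mem_filter.1 ha).2
      have := le_abs_self (a i)
      have := abs_nonneg (a i)
      omega
    have h4 : (j : ℝ) ≤ |(a i : ℝ)| := by exact_mod_cast h3
    linarith

end Pool.Agent.TPC
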