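import Pool.Agent.Lib.TPC.Path

open Finset

namespace Pool.Agent.TPC

namespace S3

lemma half_nonneg {r : ℝ} (hr : 0 ≤ r) : 0 ≤ r / 2 := by linarith

lemma kk_pos (a : ℝ) {r : ℝ} (hr : 0 ≤ r) : 0 < kk a r := Real.rpow_pos_of_pos (by linarith) _

lemma kk_anti {a r s : ℝ} (ha : 0 ≤ a) (hr : 0 ≤ r) (h : r ≤ s) : kk a s ≤ kk a r :=
  Real.rpow_le_rpow_of_nonpos (by linarith) (by linarith) (by linarith)

lemma kk_mono {a r s : ℝ} (ha : a ≤ 0) (hr : 0 ≤ r) (h : r ≤ s) : kk a r ≤ kk a s :=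
  Real.rpow_le_rpow (by linarith) (by linarith) (by linarith)

lemma kk_exp {a b r : ℝ} (h : a ≤ b) (hr : 0 ≤ r) : kk b r ≤ kk a r :=
  Real.rpow_le_rpow_of_exponent_le (by linarith) (by linarith)

lemma kk_add (a b : ℝ) {r : ℝ} (hr : 0 ≤ r) : kk (a + b) r = kk a r * kk b r := by
  rw [kk, kk, kk, neg_add, Real.rpow_add (by linarith)]

lemma kk_half {a r : ℝ} (ha : 0 ≤ a) (hr : 0 ≤ r) : kk a (r / 2) ≤ 2 ^ a * kk a r := by
  have h1 : (1 + r / 2) ^ (-a) ≤ ((1 + r) / 2) ^ (-a) :=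
    Real.rpow_le_rpow_of_nonpos (by linarith) (by linarith) (by linarith)
  refine h1.trans_eq ?_
  rw [Real.div_rpow (by linarith) (by norm_num), Real.rpow_neg (by norm_num : (0 : ℝ) ≤ 2),
    div_inv_eq_mul, mul_comm, kk]

lemma point {a b R s t : ℝ} (ha : 0 ≤ a) (hb : 0 ≤ b) (hR : 0 ≤ R) (hs : 0 ≤ s) (ht : 0 ≤ t)
    (h : R ≤ s + t) : kk a s * kk b t ≤
      kk b (R / 2) * (if s ≤ R / 2 then kk a s else 0) +
      kk a (R / 2) * (if t ≤ R / 2 then kk b t else 0) +
      (if R / 2 ≤ s then kk (a + b) s else 0) + if R / 2 ≤ t then kk (a + b) t else 0 := by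
  have p1 := kk_pos a hs
  have p2 := kk_pos b ht
  have p3 := kk_pos (a + b) hs
  have p4 := kk_pos (a + b) ht
  have p5 := kk_pos a (half_nonneg hR)
  have p6 := kk_pos b (half_nonneg hR)
  have q1 : 0 ≤ kk b (R / 2) * (if s ≤ R / 2 then kk a s else 0) := by positivity
  have q2 : 0 ≤ kk a (R / 2) * (if t ≤ R / 2 then kk b t else 0) := by positivity
  have q3 : 0 ≤ if R / 2 ≤ s then kk (a + b) s else 0 := by positivity
  have q4 : 0 ≤ if R / 2 ≤ t then kk (a + b) t else 0 := by positivity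
  by_cases h1 : s ≤ R / 2
  · rw [if_pos h1]
    have := mul_le_mul_of_nonneg_left (kk_anti hb (half_nonneg hR) (by linarith : R / 2 ≤ t)) p1.le
    linarith
  by_cases h2 : t ≤ R / 2
  · rw [if_pos h2]
    have := mul_le_mul_of_nonneg_right (kk_anti ha (half_nonneg hR) (by linarith : R / 2 ≤ s)) p2.le
    linarith
  rcases le_total s t with h3 | h3
  · rw [if_pos (by linarith : R / 2 ≤ s), kk_add a b hs]
    have := mul_le_mul_of_nonneg_left (kk_anti hb hs h3) p1.le
    linarith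
  · rw [if_pos (by linarith : R / 2 ≤ t), kk_add a b ht]
    have := mul_le_mul_of_nonneg_right (kk_anti ha ht h3) p2.le
    linarith

end S3

open S3 in
theorem st_S3 (h : St_S12) : St_S3 := by
  intro d a b ha had hab hbd
  have hb : 0 ≤ b := by linarith
  obtain ⟨C1, hC1, h1⟩ := h d a ha had.ne
  obtain ⟨C2, hC2, h2⟩ := h d b hb hbd
  obtain ⟨C3, hC3, h3⟩ := h d (a + b) (by linarith) hab.ne'
  refine ⟨2 ^ b * C1 + 2 ^ a * C2 + 2 * (C3 * 2 ^ (a + b - d)), by positivity, ?_⟩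
  intro X ρ hρ x y S
  have h0 : ∀ u v, 0 ≤ ρ u v := fun u v => by
    have := hρ.tri u v u
    rw [hρ.self, hρ.symm v u] at this
    linarith
  have hR := h0 x y
  have hR2 := half_nonneg hR
  generalize hRe : ρ x y = R at hR hR2
  have k1 : kk (a + b - d) R ≤ kk (min a (a + b - d)) R := kk_exp (min_le_right _ _) hR
  have k2 : kk a R ≤ kk (min a (a + b - d)) R := kk_exp (min_le_left _ _) hR
  generalize kk (min a (a + b - d)) R = K at k1 k2
  have a1 : kk b (R / 2) * ∑ u ∈ S.filter (fun u => ρ x u ≤ R / 2), kk a (ρ x u) ≤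
      2 ^ b * C1 * K := by
    have b1 := (h1 X ρ hρ x _ (R / 2) hR2).1 had fun u hu =>
      (mem_filter.1 (show u ∈ S.filter (fun u => ρ x u ≤ R / 2) from hu)).2
    have b2 := kk_mono (by linarith : a - d ≤ 0) hR2 (by linarith : R / 2 ≤ R)
    have b3 : kk (a + b - d) R = kk b R * kk (a - d) R := by
      rw [← kk_add _ _ hR]; congr 1; ring
    have p1 := kk_pos b hR
    calc _ ≤ 2 ^ b * kk b R * (C1 * kk (a - d) R) :=
          mul_le_mul (kk_half hb hR) (b1.trans (by gcongr))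
            (sum_nonneg fun u _ => (kk_pos _ (h0 _ _)).le) (by positivity)
      _ = 2 ^ b * C1 * kk (a + b - d) R := by rw [b3]; ring
      _ ≤ _ := by gcongr
  have a2 : kk a (R / 2) * ∑ u ∈ S.filter (fun u => ρ y u ≤ R / 2), kk b (ρ y u) ≤
      2 ^ a * C2 * K := by
    have p1 := kk_pos a hR
    rcases lt_or_gt_of_ne hbd with hlt | hgt
    · have b1 := (h2 X ρ hρ y _ (R / 2) hR2).1 hlt fun u hu =>
        (mem_filter.1 (show u ∈ S.filter (fun u => ρ y u ≤ R / 2) from hu)).2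
      have b2 := kk_mono (by linarith : b - d ≤ 0) hR2 (by linarith : R / 2 ≤ R)
      have b3 : kk (a + b - d) R = kk a R * kk (b - d) R := by
        rw [← kk_add _ _ hR]; congr 1; ring
      calc _ ≤ 2 ^ a * kk a R * (C2 * kk (b - d) R) :=
            mul_le_mul (kk_half ha hR) (b1.trans (by gcongr))
              (sum_nonneg fun u _ => (kk_pos _ (h0 _ _)).le) (by positivity)
        _ = 2 ^ a * C2 * kk (a + b - d) R := by rw [b3]; ring
        _ ≤ _ := by gcongr
    · have b1 := (h2 X ρ hρ y (S.filter fun u => ρ y u ≤ R / 2) 0 le_rfl).2 hgt fun u _ => h0 _ _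
      have b2 : kk (b - d) 0 = 1 := by simp [kk]
      rw [b2, mul_one] at b1
      calc _ ≤ 2 ^ a * kk a R * C2 :=
            mul_le_mul (kk_half ha hR) b1
              (sum_nonneg fun u _ => (kk_pos _ (h0 _ _)).le) (by positivity)
        _ = 2 ^ a * C2 * kk a R := by ring
        _ ≤ _ := by gcongr
  have a3 : ∀ z, ∑ u ∈ S.filter (fun u => R / 2 ≤ ρ z u), kk (a + b) (ρ z u) ≤
      C3 * 2 ^ (a + b - d) * K := by
    intro z
    have b1 := (h3 X ρ hρ z _ (R / 2) hR2).2 hab fun u hu =>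
      (mem_filter.1 (show u ∈ S.filter (fun u => R / 2 ≤ ρ z u) from hu)).2
    have b2 := kk_half (by linarith : 0 ≤ a + b - d) hR
    calc _ ≤ C3 * (2 ^ (a + b - d) * kk (a + b - d) R) := b1.trans (by gcongr)
      _ ≤ C3 * (2 ^ (a + b - d) * K) := by gcongr
      _ = _ := by ring
  have a4 := a3 x
  have a5 := a3 y
  rw [sum_filter] at a1 a2 a4 a5
  have a6 := sum_le_sum (s := S) fun u _ =>
    point ha hb hR (h0 x u) (h0 y u) (by rw [← hRe, hρ.symm y u]; exact hρ.tri x u y)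
  rw [sum_add_distrib, sum_add_distrib, sum_add_distrib, ← mul_sum, ← mul_sum] at a6
  have a7 : ∑ u ∈ S, kk a (ρ x u) * kk b (ρ u y) = ∑ u ∈ S, kk a (ρ x u) * kk b (ρ y u) :=
    sum_congr rfl fun u _ => by rw [hρ.symm u y]
  linarith

end Pool.Agent.TPC
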