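import Pool.Agent.Lib.TPC.ZDefs

/-! Blueprint A: general tools. -/

open Finset MeasureTheory ProbabilityTheory

namespace Pool.Agent.TPC

open Pool.Agent.Lib.MP_81a99a_pr (lattice torus cluster kthLargest pc MeanField)

/-- BK inequality for two increasing events -/
def St_BK2 : Prop := ∀ (ι : Type) [DecidableEq ι] (E : Finset ι) (π : ι → ℝ), Prob π →
  ∀ A B : Finset ι → Prop, Monotone A → Monotone B →
    PE E π (fun ω => ind (∃ S T : Finset ι, S ⊆ ω ∧ T ⊆ ω ∧ Disjoint S T ∧ A S ∧ B T)) ≤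
      PE E π (fun ω => ind (A ω)) * PE E π (fun ω => ind (B ω))

/-- BK inequality for a family of increasing events -/
def St_BK : Prop := ∀ (ι : Type) [DecidableEq ι] (E : Finset ι) (π : ι → ℝ), Prob π →
  ∀ (κ : Type) (s : Finset κ) (A : κ → Finset ι → Prop), (∀ i, Monotone (A i)) →
    PE E π (fun ω => ind (∃ W : κ → Finset ι, (∀ i ∈ s, W i ⊆ ω ∧ A i (W i)) ∧
      ∀ i ∈ s, ∀ j ∈ s, i ≠ j → Disjoint (W i) (W j))) ≤ ∏ i ∈ s, PE E π (fun ω => ind (A i ω))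

/-- Russo formula -/
def St_RUSSO : Prop := ∀ (ι : Type) [DecidableEq ι] (E : Finset ι) (f : Finset ι → ℝ) (s : ℝ),
  HasDerivAt (fun t => PE E (fun _ => t) f)
    (∑ e ∈ E, PE E (fun _ => s) fun ω => f (insert e ω) - f (ω.erase e)) s

/-- `S` is a stopping set -/
def IsStop {ι : Type} (S : Finset ι → Finset ι) : Prop :=
  ∀ ω ω' : Finset ι, (∀ e ∈ S ω, (e ∈ ω ↔ e ∈ ω')) → S ω' = S ω

/-- `f` is determined by the configuration on the stopping set `S` -/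
def DetBy {ι : Type} (S : Finset ι → Finset ι) (f : Finset ι → ℝ) : Prop :=
  ∀ ω ω' : Finset ι, (∀ e ∈ S ω, (e ∈ ω ↔ e ∈ ω')) → f ω' = f ω

/-- upper bound for the relative entropy of `Q` with respect to `P` along `S` -/
noncomputable def entB {ι : Type} [DecidableEq ι] (E : Finset ι) (P Q : ι → ℝ)
    (S : Finset ι → Finset ι) : ℝ :=
  ∑ e ∈ E, PE E Q (fun ω => ind (e ∈ S ω)) * ((P e - Q e) ^ 2 / (P e * (1 - P e)))

/-- entropy comparison, Jensen form -/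
def St_ENT0 : Prop := ∀ (ι : Type) [DecidableEq ι] (E : Finset ι) (P Q : ι → ℝ),
  (∀ e, 0 < P e ∧ P e < 1) → (∀ e, 0 < Q e ∧ Q e < 1) → ∀ S : Finset ι → Finset ι, IsStop S →
  ∀ f : Finset ι → ℝ, DetBy S f →
    Real.exp (-(PE E Q f) - entB E P Q S) ≤ PE E P (fun ω => Real.exp (-f ω))

/-- entropy comparison for small expectations and for likely events -/
def St_ENT : Prop := ∀ (ι : Type) [DecidableEq ι] (E : Finset ι) (P Q : ι → ℝ),
  (∀ e, 0 < P e ∧ P e < 1) → (∀ e, 0 < Q e ∧ Q e < 1) → ∀ S : Finset ι → Finset ι, IsStop S →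
  (∀ f : Finset ι → ℝ, DetBy S f → (∀ ω, 0 ≤ f ω ∧ f ω ≤ 1) →
    PE E P f ≤ 2 * (PE E Q f + entB E P Q S)) ∧
  (∀ A : Finset ι → Prop, DetBy S (fun ω => ind (A ω)) → 1 / 2 ≤ PE E Q (fun ω => ind (A ω)) →
    Real.exp (-2 * (entB E P Q S + 2)) ≤ PE E P (fun ω => ind (A ω)))

/-- change of parameter for a function of the cluster -/
def St_E1 : Prop := ∀ (V : Type) [DecidableEq V] (G : SimpleGraph V) (Δ : ℕ), DegLe G Δ →
  ∀ (D : Finset V) (x : V) (p q : ℝ), 0 < p → p < 1 → 0 < q → q < 1 →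
  ∀ F : Finset V → ℝ, (∀ C, 0 ≤ F C ∧ F C ≤ 1) →
    EC G (fun _ => p) D x F ≤ 2 * (EC G (fun _ => q) D x F +
      Δ * chi G (fun _ => q) D x * ((p - q) ^ 2 / (p * (1 - p))))

/-- exponential functionals of all clusters of `D` -/
def St_DC : Prop := ∀ (V : Type) [DecidableEq V] (G : SimpleGraph V) (π : Sym2 V → ℝ), Prob π →
  ∀ (D : Finset V) (ψ : V → Finset V → ℝ) (b : V → ℝ), (∀ y C, 0 ≤ ψ y C) →
    (∀ y ∈ D, ∀ D', D' ⊆ D → EC G π D' y (fun C => ind (y ∈ C) * ψ y C) ≤ b y) →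
    PE (edges G D) π (fun ω => ∏ C ∈ D.image (cl G D ω), (1 + ∑ y ∈ C, ψ y C)) ≤
      Real.exp (∑ y ∈ D, b y)

/-- two points in distinct clusters -/
def St_DC2 : Prop := ∀ (V : Type) [DecidableEq V] (G : SimpleGraph V) (π : Sym2 V → ℝ), Prob π →
  ∀ (D : Finset V) (x y : V) (F F' : Finset V → ℝ), (∀ C, 0 ≤ F C) → (∀ C, 0 ≤ F' C) →
    Monotone F' →
    PE (edges G D) π (fun ω => ind (¬ conn G D ω x y) * (F (cl G D ω x) * F' (cl G D ω y))) ≤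
      EC G π D x F * EC G π D y F'

/-- paths through a set -/
def St_PL1 : Prop := ∀ (V : Type) [DecidableEq V] (G : SimpleGraph V) (π : Sym2 V → ℝ), Prob π →
  ∀ (U S : Finset V) (x y : V),
    tau G π U x y ≤ tau G π (U \ S) x y + ∑ u ∈ S, tau G π U x u * tau G π U u y

/-- three-point tree bound with two domains -/
def St_PL2 : Prop := ∀ (V : Type) [DecidableEq V] (G : SimpleGraph V) (π : Sym2 V → ℝ), Prob π →
  ∀ (E : Finset (Sym2 V)) (D₁ D₂ : Finset V) (x y u : V),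
    PE E π (fun ω => ind (conn G D₁ ω x y ∧ conn G D₂ ω x u)) ≤
      ∑ v ∈ D₁, tau G π D₁ x v * tau G π D₁ v y * tau G π D₂ v u

/-- last exit from `B`, first entrance to `A` -/
def St_PL3 : Prop := ∀ (V : Type) [DecidableEq V] (G : SimpleGraph V) (π : Sym2 V → ℝ), Prob π →
  ∀ (U A B S : Finset V) (x a : V), x ∈ B → a ∈ A → Disjoint A B →
    tau G π U x a ≤ ∑ u ∈ S, tau G π U x u * tau G π U u a +
      ∑ b ∈ B, ∑ a' ∈ A \ S, ind (G.Adj b a') * (tau G π U x b * tau G π U a' a) +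
      ∑ b ∈ B, ∑ z ∈ U \ (A ∪ B ∪ S), ∑ v ∈ U \ (A ∪ B ∪ S), ∑ a' ∈ A \ S,
        ind (G.Adj b z) * ind (G.Adj v a') *
          (tau G π U x b * tau G π (U \ (A ∪ B ∪ S)) z v * tau G π U a' a)

/-- first entrance to `A` -/
def St_PL3a : Prop := ∀ (V : Type) [DecidableEq V] (G : SimpleGraph V) (π : Sym2 V → ℝ), Prob π →
  ∀ (U A S : Finset V) (z a : V), z ∉ A → a ∈ A →
    tau G π U z a ≤ ∑ u ∈ S, tau G π U z u * tau G π U u a +
      ∑ v ∈ U \ (A ∪ S), ∑ a' ∈ A \ S,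
        ind (G.Adj v a') * (tau G π (U \ (A ∪ S)) z v * tau G π U a' a)

/-- Simon-Lieb inequality -/
def St_PL4 : Prop := ∀ (V : Type) [DecidableEq V] (G : SimpleGraph V) (π : Sym2 V → ℝ), Prob π →
  ∀ (U S T : Finset V) (x : V), x ∈ S →
    EC G π U x (fun C => ind (∃ t ∈ T, t ∈ C)) ≤ EC G π S x (fun C => ind (∃ t ∈ T, t ∈ C)) +
      ∑ a ∈ S, ∑ b ∈ U \ S, ind (G.Adj a b) *
        (tau G π S x a * π s(a, b) * EC G π U b (fun C => ind (∃ t ∈ T, t ∈ C)))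

/-- cutting at the highest point -/
def St_PL5 : Prop := ∀ (V : Type) [DecidableEq V] (G : SimpleGraph V) (π : Sym2 V → ℝ), Prob π →
  ∀ (S : Finset V) (h : V → ℤ) (v w : V),
    tau G π S v w ≤ ∑ u ∈ S, tau G π (flt S fun y => h y ≤ h u) v u *
      tau G π (flt S fun y => h y ≤ h u) u w

/-- open path of length at most `m` inside `U` -/
def connL {V : Type} (G : SimpleGraph V) (U : Finset V) (ω : Finset (Sym2 V)) (x y : V)
    (m : ℝ) : Prop := x ∈ U ∧ ∃ w : (opD G U ω).Walk x y, (w.length : ℝ) ≤ m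

/-- long connections are rare; thinning of short connections -/
def St_PL6 : Prop := ∀ (V : Type) [DecidableEq V] (G : SimpleGraph V) (U : Finset V) (x y : V)
  (m : ℝ), 0 < m →
  (∀ π : Sym2 V → ℝ, Prob π →
    PE (edges G U) π (fun ω => ind (conn G U ω x y ∧ ¬ connL G U ω x y m)) ≤
      (∑ v ∈ U, tau G π U x v * tau G π U v y) / m) ∧
  ∀ p q : ℝ, 0 < q → q ≤ p → p ≤ 1 →
    (q / p) ^ m * PE (edges G U) (fun _ => p) (fun ω => ind (connL G U ω x y m)) ≤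
      tau G (fun _ => q) U x y

/-- the susceptibility at most doubles under a small sprinkling -/
def St_CHI : Prop := ∀ (V : Type) [DecidableEq V] (G : SimpleGraph V) (Δ : ℕ), DegLe G Δ →
  ∀ (D : Finset V) (p q χ : ℝ), 0 ≤ q → q ≤ p → p ≤ 1 → q < 1 →
    (∀ x, chi G (fun _ => q) D x ≤ χ) → Δ * χ * ((p - q) / (1 - q)) ≤ 1 / 2 →
    ∀ x, chi G (fun _ => p) D x ≤ 2 * χ

/-- tree-graph decomposition of a multi-point connection -/
def St_TREE : Prop := ∀ (V : Type) [DecidableEq V] (G : SimpleGraph V) (D : Finset V)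
  (ω : Finset (Sym2 V)) (z : V) (κ : Type) [DecidableEq κ] (s : Finset κ) (y : κ → V),
  2 ≤ s.card → (∀ i ∈ s, conn G D ω z (y i)) →
  ∃ v ∈ D, ∃ t : Finset κ, t ⊆ s ∧ t.Nonempty ∧ t ≠ s ∧ ∃ W₀ W₁ W₂ : Finset (Sym2 V),
    W₀ ⊆ ω ∧ W₁ ⊆ ω ∧ W₂ ⊆ ω ∧ Disjoint W₀ W₁ ∧ Disjoint W₀ W₂ ∧ Disjoint W₁ W₂ ∧
    conn G D W₀ z v ∧ (∀ i ∈ t, conn G D W₁ v (y i)) ∧ ∀ i ∈ s \ t, conn G D W₂ v (y i)

/-- exponential tree-graph bound -/
def St_ET : Prop := ∀ (V : Type) [DecidableEq V] (G : SimpleGraph V) (π : Sym2 V → ℝ), Prob π →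
  ∀ (D : Finset V) (w ψ : V → ℝ), (∀ v, 0 ≤ w v) → (∀ v, 0 ≤ ψ v) →
    (∀ v ∈ D, ∑ u ∈ D, tau G π D v u * (w u + ψ u ^ 2 / 2) ≤ ψ v) →
    ∀ z, EC G π D z (fun C => Real.exp (∑ y ∈ C, w y)) ≤ 1 + ψ z

/-- second moment tree-graph bound -/
def St_ET2 : Prop := ∀ (V : Type) [DecidableEq V] (G : SimpleGraph V) (π : Sym2 V → ℝ), Prob π →
  ∀ (D : Finset V) (z : V) (f : V → V → ℝ), (∀ y u, 0 ≤ f y u) →
    EC G π D z (fun C => ∑ y ∈ C, ∑ u ∈ C, f y u) ≤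
      ∑ v ∈ D, tau G π D z v * ∑ y ∈ D, ∑ u ∈ D, tau G π D v y * tau G π D v u * f y u

/-- kernel sums over balls and their complements -/
def St_S12 : Prop := ∀ (d : ℕ) (a : ℝ), 0 ≤ a → a ≠ d → ∃ C : ℝ, 0 < C ∧
  ∀ (X : Type) (ρ : X → X → ℝ), Met d ρ → ∀ (x : X) (S : Finset X) (r : ℝ), 0 ≤ r →
    (a < d → (∀ y ∈ S, ρ x y ≤ r) → ∑ y ∈ S, kk a (ρ x y) ≤ C * kk (a - d) r) ∧
    ((d : ℝ) < a → (∀ y ∈ S, r ≤ ρ x y) → ∑ y ∈ S, kk a (ρ x y) ≤ C * kk (a - d) r)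

/-- kernel convolutions -/
def St_S3 : Prop := ∀ (d : ℕ) (a b : ℝ), 0 ≤ a → a < d → d < a + b → b ≠ d → ∃ C : ℝ, 0 < C ∧
  ∀ (X : Type) (ρ : X → X → ℝ), Met d ρ → ∀ (x y : X) (S : Finset X),
    ∑ u ∈ S, kk a (ρ x u) * kk b (ρ u y) ≤ C * kk (min a (a + b - d)) (ρ x y)

/-- kernel sums with an exponential cutoff at scale `l` -/
def St_S4 : Prop := ∀ (d : ℕ) (a c : ℝ), 0 ≤ a → a < d → 0 < c → ∃ C : ℝ, 0 < C ∧
  ∀ (X : Type) (ρ : X → X → ℝ), Met d ρ → ∀ (x : X) (S : Finset X) (l r : ℝ), 1 ≤ l → 0 ≤ r →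
    (∀ y ∈ S, r ≤ ρ x y) →
    ∑ y ∈ S, kk a (ρ x y) * Real.exp (-(c * ρ x y / l)) ≤
      C * l ^ ((d : ℝ) - a) * Real.exp (-(c * r / (2 * l)))

/-- greedy colouring -/
def St_COL : Prop := ∀ (B : Type) [Fintype B] (R : B → B → Prop) (Ξ : ℕ), (∀ a b, R a b → R b a) →
  (∀ a (S : Finset B), (∀ b ∈ S, R a b) → S.card ≤ Ξ) →
  ∃ col : B → Fin (Ξ + 1), ∀ a b, a ≠ b → R a b → col a ≠ col b

/-- bridge from the product measure to finite sums, for cylinder events -/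
def St_BR0 : Prop := ∀ (ι : Type) [DecidableEq ι] (u : Set ι) (p : unitInterval) (E : Finset ι),
  (E : Set ι) ⊆ u → ∀ A : Finset ι → Prop,
    MeasurableSet {ω : Set ι | A (flt E (· ∈ ω))} ∧
    (setBernoulli u p).real {ω | A (flt E (· ∈ ω))} = PE E (fun _ => (p : ℝ)) fun ω => ind (A ω)

/-- bridge for the hypothesis -/
def St_BRZ : Prop := ∀ d : ℕ, 9 ≤ d → HighDim d → ∃ c C : ℝ, HZ d (pc d) c C

/-- bridge for the tail of the cluster size on the lattice -/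
def St_BRC : Prop := ∀ (d : ℕ) (p : unitInterval) (k : ℕ) (b : ℝ),
  (∀ R : ℕ, ez p (box (0 : Zd d) R) 0 (fun C => ind (k ≤ C.card)) ≤ b) →
  (setBernoulli (lattice d).edgeSet p).real {ω | (k : ℕ∞) ≤ (cluster ω 0).encard} ≤ b

/-- bridge for the largest and second largest cluster of the torus -/
def St_BRT : Prop := ∀ (d n : ℕ) [NeZero n] (p : unitInterval) (t : ℝ), 0 < t →
  (setBernoulli (torus d n).edgeSet p).real {ω | t ≤ kthLargest 2 ω} = pTwo d n p t ∧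
  (setBernoulli (torus d n).edgeSet p).real {ω | t ≤ kthLargest 1 ω} =
    PE univ (fun _ => (p : ℝ)) fun ω => ind (∃ x, t ≤ (cl (torus d n) univ ω x).card)

end Pool.Agent.TPC
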