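import Pool.Agent.Lib.TPC.Path

/-! Blueprint I: end statements of sections 2 and 3 (lattice and torus estimates). -/

open Finset

namespace Pool.Agent.TPC

open Pool.Agent.Lib.MP_81a99a_pr (lattice torus cluster kthLargest pc MeanField)

/-- `γ ≤ 1` -/
def St_Z1 : Prop := ∀ (d : ℕ) (p c C : ℝ), HZ d p c C → ∃ C₁ : ℝ, 0 < C₁ ∧
  ∀ q : ℝ, 0 ≤ q → q < p → ∀ (D : Finset (Zd d)) (x : Zd d), cz q D x ≤ C₁ / (p - q)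

/-- `δ ≥ 2` -/
def St_Z2 : Prop := ∀ (d : ℕ) (p c C : ℝ), HZ d p c C → ∃ C₁ : ℝ, 0 < C₁ ∧
  ∀ q : ℝ, 0 ≤ q → q ≤ p → ∀ (D : Finset (Zd d)) (x : Zd d) (s : ℝ), 1 ≤ s →
    ez q D x (fun A => min (A.card : ℝ) s) ≤ C₁ * √s

/-- subcritical two-point function with the sharp length -/
def St_Z7a : Prop := ∀ (d : ℕ) (p c C : ℝ), HZ d p c C → ∃ C₁ c₁ l₀ : ℝ, 0 < C₁ ∧ 0 < c₁ ∧
  ∀ l : ℝ, l₀ ≤ l → ∀ (D : Finset (Zd d)) (x y : Zd d),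
    tz (p - 1 / l ^ 2) D x y ≤ C₁ * kk (d - 2) (zd x y) * Real.exp (-(c₁ * zd x y / l))

/-- critical one-arm bound -/
def St_Z7b : Prop := ∀ (d : ℕ) (p c C : ℝ), HZ d p c C → ∃ C₁ : ℝ, 0 < C₁ ∧
  ∀ (D : Finset (Zd d)) (x : Zd d) (r : ℝ), 0 < r →
    ez p D x (fun A => ind (∃ y ∈ A, r ≤ zd x y)) ≤ C₁ / r ^ 2

/-- subcritical one-arm bound -/
def St_Z7c : Prop := ∀ (d : ℕ) (p c C : ℝ), HZ d p c C → ∃ C₁ c₁ l₀ : ℝ, 0 < C₁ ∧ 0 < c₁ ∧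
  ∀ l : ℝ, l₀ ≤ l → ∀ (D : Finset (Zd d)) (x : Zd d) (r : ℝ), 0 < r →
    ez (p - 1 / l ^ 2) D x (fun A => ind (∃ y ∈ A, r ≤ zd x y)) ≤
      C₁ / r ^ 2 * Real.exp (-(c₁ * r / l))

/-- restricted lower bound -/
def St_Z8 : Prop := ∀ (d : ℕ) (p c C : ℝ), HZ d p c C → ∀ R : ℝ, ∃ R' c₁ l₀ : ℝ, R ≤ R' ∧ 0 < c₁ ∧
  ∀ l : ℝ, l₀ ≤ l → ∀ x y : Zd d, zd x y ≤ R * l → ∀ D : Finset (Zd d),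
    (∀ z, zd x z ≤ R' * l → z ∈ D) → c₁ * kk (d - 2) (zd x y) ≤ tz (p - 1 / l ^ 2) D x y

/-- volume tail slightly above the critical point -/
def St_Z9 : Prop := ∀ (d : ℕ) (p c C : ℝ), HZ d p c C → ∀ κ : ℝ, ∃ C₁ l₀ : ℝ, 0 < C₁ ∧
  ∀ l : ℝ, l₀ ≤ l → ∀ q : ℝ, 0 ≤ q → q ≤ p + κ / l ^ 2 → ∀ (D : Finset (Zd d)) (x : Zd d),
    ez q D x (fun A => ind (l ^ 4 ≤ (A.card : ℝ))) ≤ C₁ / l ^ 2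

/-- upper bounds on the torus at `p - l^(-2)` -/
def St_T1 : Prop := ∀ (d : ℕ) (p c C : ℝ), HZ d p c C → ∃ C₁ c₁ l₀ : ℝ, 0 < C₁ ∧ 0 < c₁ ∧
  ∀ (n : ℕ) [NeZero n], 3 ≤ n → ∀ l : ℝ, l₀ ≤ l → ∀ x : Tor d n,
    (∀ y, tt (p - 1 / l ^ 2) univ x y ≤ C₁ * tg l x y) ∧
    chi (torus d n) (fun _ => p - 1 / l ^ 2) univ x ≤ C₁ * l ^ 2 ∧
    (∀ s : ℝ, 1 ≤ s →
      EC (torus d n) (fun _ => p - 1 / l ^ 2) univ x (fun A => min (A.card : ℝ) s) ≤ C₁ * √s) ∧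
    ∀ (r : ℝ) (S : Finset (Tor d n)), 0 ≤ r → (∀ y ∈ S, r ≤ td x y) →
      ∑ y ∈ S, tt (p - 1 / l ^ 2) univ x y ≤ C₁ * l ^ 2 * Real.exp (-(c₁ * r / l))

/-- plateau lower bound on small tori -/
def St_T2 : Prop := ∀ (d : ℕ) (p c C : ℝ), HZ d p c C → ∀ C₀ : ℝ, ∃ c₁ L₀ : ℝ, 0 < c₁ ∧
  ∀ (n : ℕ) [NeZero n], 3 ≤ n → ∀ l : ℝ, L₀ ≤ l → (n : ℝ) ≤ C₀ * l → L₀ * l ^ 6 ≤ (n : ℝ) ^ d →
    ∀ x y : Tor d n, c₁ * (l ^ 2 / (n : ℝ) ^ d) ≤ tt (p - 1 / l ^ 2) univ x y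

/-- the hypothesis of the landed lower bound -/
def St_T3 : Prop := ∀ (d : ℕ) (c C : ℝ), HZ d (pc d) c C → MeanField d

end Pool.Agent.TPC
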