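import Pool.Agent.Lib.TPC.ZBasic
import Pool.Agent.Lib.TPC.BlueA
import Pool.Agent.Lib.TPC.BlueI

/-! Blueprint Z: intermediate statements of sections 2 and 3. -/

open Finset

namespace Pool.Agent.TPC

open Pool.Agent.Lib.MP_81a99a_pr (lattice torus cluster kthLargest pc MeanField)

/-- the vector `t e_i` -/
abbrev ev {d : ℕ} (i : Fin d) (t : ℤ) : Zd d := Pi.single i t

/-! ### exit mass and Simon-Lieb for cubes -/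

/-- mass of the top face of the cube of radius `r` in direction `i` -/
noncomputable def face (d : ℕ) (q : ℝ) (r : ℕ) (i : Fin d) : ℝ :=
  ∑ y ∈ flt (box (0 : Zd d) r) (fun y => y i = r), tz q (box 0 r) 0 y

def St_FACE : Prop := ∀ (d : ℕ) (q : ℝ) (r : ℕ) (i : Fin d), phi d q r = 2 * d * q * face d q r i

/-- Simon-Lieb inequality for the cube of radius `r` around the starting point -/
def St_SLB : Prop := ∀ (d : ℕ) (q : ℝ), 0 ≤ q → q ≤ 1 →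
  ∀ (U T : Finset (Zd d)) (x : Zd d) (r : ℕ) (m : ℝ), 0 ≤ m →
    ((∀ b, zd x b = r + 1 → ez q U b (fun A => ind (∃ t ∈ T, t ∈ A)) ≤ m) →
      ez q U x (fun A => ind (∃ t ∈ T, t ∈ A)) ≤
        ez q (box x r) x (fun A => ind (∃ t ∈ T, t ∈ A)) + phi d q r * m) ∧
    ∀ w : Zd d → ℝ, (∀ y, 0 ≤ w y) → (∀ b, zd x b = r + 1 → ∑ y ∈ T, tz q U b y * w y ≤ m) →
      ∑ y ∈ T, tz q U x y * w y ≤ ∑ y ∈ T, tz q (box x r) x y * w y + phi d q r * m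

/-! ### the susceptibility -/

/-- `0` is joined to `u`, not to `z`, and `u + K e_i` is joined to `z` -/
noncomputable def zsum {d : ℕ} (s : ℝ) (Λ U : Finset (Zd d)) (i : Fin d) (K : ℕ) : ℝ :=
  ∑ u ∈ U, ∑ z ∈ Λ, PE (edges (lattice d) Λ) (fun _ => s) fun ω =>
    ind (conn (lattice d) Λ ω 0 u ∧ ¬ conn (lattice d) Λ ω 0 z ∧
      conn (lattice d) Λ ω (u + ev i K) z)

/-- one of the edges of the column is pivotal -/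
def St_Z1p : Prop := ∀ (d : ℕ) (s : ℝ), 0 ≤ s → s ≤ 1 →
  ∀ (Λ U : Finset (Zd d)) (i : Fin d) (K : ℕ), (∀ u ∈ U, ∀ t : ℕ, t ≤ K → u + ev i t ∈ Λ) →
    s ^ K * zsum s Λ U i K ≤ K * ∑ e ∈ edges (lattice d) Λ,
      PE (edges (lattice d) Λ) (fun _ => s) fun ω =>
        ((cl (lattice d) Λ (insert e ω) 0).card : ℝ) - (cl (lattice d) Λ (ω.erase e) 0).card

/-- lower bound for the sum, `x` maximises the susceptibility of the cube -/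
def St_Z1m : Prop := ∀ (d : ℕ) (p c C : ℝ), HZ d p c C → ∃ C₁ : ℝ, 0 < C₁ ∧
  ∀ s : ℝ, 0 ≤ s → s ≤ p → ∀ (r K : ℕ) (i : Fin d) (x : Zd d),
    (∀ u : Zd d, cz s (box 0 r) u ≤ cz s (box 0 r) x) →
    cz s (box 0 r) x * (cz s (box 0 r) x -
        C₁ * kk (d - 6) K * cz s (box (0 : Zd d) (4 * r + K)) 0) ≤
      zsum s (box 0 (4 * r + K)) (box 0 (2 * r)) i K

/-! ### pioneers -/

def St_Z3a : Prop := ∀ (d : ℕ) (p c C : ℝ), HZ d p c C → ∀ r : ℕ, 1 ≤ phi d p r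

/-- connections inside a box with comparable sides -/
def St_Z3 : Prop := ∀ (d : ℕ) (p c C : ℝ), HZ d p c C → ∃ C₁ : ℝ, 0 < C₁ ∧
  ∀ (a b : Zd d) (R : ℕ), (∀ j, (R : ℤ) ≤ b j - a j ∧ b j - a j ≤ 2 * R) →
    ∀ v ∈ rect a b, ∀ w ∈ rect a b,
      Real.exp (-(C₁ * Real.log (R + 2) ^ 2)) ≤ tz p (rect a b) v w

/-- exponential moment of the number of points of a cluster in a cube -/
def St_ETQ : Prop := ∀ (d : ℕ) (p c C : ℝ), HZ d p c C → ∃ c₁ : ℝ, 0 < c₁ ∧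
  ∀ s : ℕ, 1 ≤ s → ∀ (D : Finset (Zd d)) (y u : Zd d),
    ez p D u (fun A => Real.exp (c₁ * (A ∩ box y s).card / (s : ℝ) ^ 4)) ≤ 2

/-- few clusters cross a very thick annulus -/
def St_CROSS : Prop := ∀ (d : ℕ) (p c C : ℝ), HZ d p c C → ∃ s₀ : ℕ,
  ∀ s : ℕ, s₀ ≤ s → ∀ (D : Finset (Zd d)) (y : Zd d) (m : ℕ),
    PE (edges (lattice d) D) (fun _ => p) (fun ω => ind (m <
      (flt (D.image (cl (lattice d) D ω)) fun A =>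
        (∃ u ∈ A, zd y u ≤ s) ∧ ∃ w ∈ A, (s : ℝ) ^ (2 * d + 6) ≤ zd y w).card)) ≤ 3 / 2 ^ m

/-- a local event costs little under the conditioning on a connection -/
def St_TOUCH : Prop := ∀ (V : Type) [DecidableEq V] (G : SimpleGraph V) (π : Sym2 V → ℝ), Prob π →
  ∀ (B D : Finset V) (x y : V) (κ : ℝ) (L : Finset (Sym2 V) → Prop), D ⊆ B → y ∈ D → 0 ≤ κ →
    DepOn L (edges G D : Set (Sym2 V)) → (∀ w ∈ D, κ ≤ tau G π D w y) →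
    κ * PE (edges G B) π (fun ω => ind (conn G B ω x y ∧ L ω)) ≤
      tau G π B x y * PE (edges G D) π (fun ω => ind (L ω))

/-- regularity -/
def St_Z4 : Prop := ∀ (d : ℕ) (p c C : ℝ), HZ d p c C → ∃ s₀ : ℕ,
  ∀ s : ℕ, s₀ ≤ s → ∀ (b : Zd d) (M : ℕ) (x y : Zd d),
    ez p (box b M) x (fun A => ind (y ∈ A ∧ (s : ℝ) ^ (9 / 2 : ℝ) < (A ∩ box y s).card)) ≤
      tz p (box b M) x y / (s : ℝ) ^ 2

/-- kernel sums over regular sets -/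
def St_RS : Prop := ∀ a : ℝ, 9 / 2 < a → ∃ C₁ : ℝ, 0 < C₁ ∧
  ∀ (d : ℕ) (A : Finset (Zd d)) (y : Zd d) (K : ℕ), 1 ≤ K →
    (∀ s : ℕ, K ≤ s → ((A ∩ box y s).card : ℝ) ≤ (s : ℝ) ^ (9 / 2 : ℝ)) →
    ∑ v ∈ A, kk a (max (K : ℝ) (zd y v)) ≤ C₁ * kk (a - 9 / 2) K

/-- reversed Simon-Lieb inequality with columns, conditional form -/
def St_SLR : Prop := ∀ (d : ℕ) (q θ : ℝ), 0 ≤ q → q ≤ 1 → 0 ≤ θ → θ ≤ 1 →
  ∀ (S L F : Finset (Zd d)) (i : Fin d) (h : ℤ) (K : ℕ) (o x : Zd d)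
    (Reg : Zd d → Finset (Zd d) → Prop), S ⊆ L → (∀ y ∈ S, y i ≤ h) →
    (∀ y ∈ F, y i = h ∧ ∀ t : ℕ, t ≤ K → y + ev i t ∈ L) →
    θ * q ^ K * ez q S o (fun A => ∑ y ∈ F, ind (y ∈ A ∧ Reg y A) *
        (tz q L (y + ev i K) x - ∑ v ∈ A, tz q L (y + ev i K) v * tz q L v x)) ≤
      tz q L o x + θ ^ 2 * ez q S o (fun A => ∑ y ∈ F, ∑ y' ∈ F, ind (y ∈ A ∧ Reg y A ∧ y' ∈ A) *
        ∑ v ∈ L, tz q L (y + ev i K) v * tz q L (y' + ev i K) v * tz q L v x)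

/-- reversed Simon-Lieb inequality with columns -/
def St_SLK : Prop := ∀ (d : ℕ) (q θ : ℝ), 0 ≤ q → q ≤ 1 → 0 ≤ θ → θ ≤ 1 →
  ∀ (S L F : Finset (Zd d)) (i : Fin d) (h : ℤ) (K : ℕ) (o x : Zd d),
    S ⊆ L → (∀ y ∈ S, y i ≤ h) → (∀ y ∈ F, y i = h ∧ ∀ t : ℕ, t ≤ K → y + ev i t ∈ L) →
    tz q S o x + θ * q ^ K * ∑ y ∈ F, tz q S o y * tz q L (y + ev i K) x ≤
      tz q L o x +
        θ * q ^ K * ∑ y ∈ F, ∑ u ∈ S, ∑ v ∈ S,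
          tz q S o u * tz q S u y * tz q S u v * (tz q L (y + ev i K) v * tz q L v x) +
        θ ^ 2 * ∑ y ∈ F, ∑ y' ∈ F, ∑ u ∈ S, ∑ v ∈ L, tz q S o u * tz q S u y * tz q S u y' *
          (tz q L (y + ev i K) v * tz q L (y' + ev i K) v * tz q L v x)

/-- pioneers of a cube -/
def St_Z5 : Prop := ∀ (d : ℕ) (p c C : ℝ), HZ d p c C → ∃ Φ : ℝ,
  ∀ (b : Zd d) (M : ℕ) (i : Fin d) (x : Zd d),
    ∑ y ∈ flt (box b M) (fun y => y i = b i + M), tz p (box b M) x y ≤ Φ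

/-- the expected number of pioneers of a half space is at most `Φ`, at all levels `q ≤ p` -/
def Psi (d : ℕ) (p Φ : ℝ) : Prop := 1 ≤ Φ ∧ ∀ q : ℝ, 0 ≤ q → q ≤ p →
  ∀ (S F : Finset (Zd d)) (i : Fin d) (h : ℤ) (x : Zd d),
    ((∀ y ∈ S, y i ≤ h) ∨ ∀ y ∈ S, h ≤ y i) → (∀ y ∈ F, y i = h) → ∑ y ∈ F, tz q S x y ≤ Φ

def St_PSI : Prop := ∀ (d : ℕ) (p c C : ℝ), HZ d p c C → ∃ Φ : ℝ, Psi d p Φ

/-! ### the sharp length -/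

/-- masses of the layers of a half space -/
def St_LAY : Prop := ∀ (d : ℕ) (p Φ : ℝ), p ≤ 1 → Psi d p Φ → ∀ q : ℝ, 0 ≤ q → q ≤ p →
  ∀ (S : Finset (Zd d)) (i : Fin d) (h : ℤ), (∀ y ∈ S, y i ≤ h) → ∀ o : Zd d,
    (∀ (T : Finset (Zd d)) (k : ℤ), o i ≤ h → k ≤ h → (∀ w ∈ T, w i = k) →
      ∑ w ∈ T, tz q S o w ≤ ((h - max (o i) k + 1 : ℤ) : ℝ) * Φ ^ 2) ∧
    (∀ (γ : ℕ → ℝ) (B : ℝ), (∀ j, 0 ≤ γ j) → (∀ N, ∑ j ∈ range N, (j + 1) * γ j ≤ B) →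
      ∑ u ∈ S, tz q S o u * γ (h - u i).toNat ≤ Φ ^ 2 * B) ∧
    ∀ (F A : Finset (Zd d)) (Γ : Zd d → ℝ), (∀ y ∈ F, y i = h) → (∀ a, 0 ≤ Γ a) →
      (∀ u ∈ S, ∀ y ∈ F, y - u ∈ A) →
      ∑ u ∈ S, tz q S o u * ∑ y ∈ F, Γ (y - u) ≤ Φ ^ 2 * ∑ a ∈ A, (1 + ‖a‖) * Γ a

/-- the triangle error summed over a layer -/
def St_E2B : Prop := ∀ (d : ℕ) (p c C Φ : ℝ), HZ d p c C → Psi d p Φ → ∃ C₁ : ℝ, 0 < C₁ ∧
  ∀ q : ℝ, 0 ≤ q → q ≤ p → ∀ (K : ℕ) (S L F T : Finset (Zd d)) (i : Fin d) (h k : ℤ) (o : Zd d),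
    (∀ y ∈ S, y i ≤ h) → (∀ y ∈ L, y i ≤ h + K) → (∀ y ∈ F, y i = h) → (∀ x ∈ T, x i = k) →
    ∑ x ∈ T, ∑ y ∈ F, ∑ u ∈ S, ∑ v ∈ S,
      tz q S o u * tz q S u y * tz q S u v * (tz q L (y + ev i K) v * tz q L v x) ≤
        C₁ * kk (d - 8) K

/-- the square error summed over a layer -/
def St_E1B : Prop := ∀ (d : ℕ) (p c C Φ : ℝ), HZ d p c C → Psi d p Φ → ∀ K : ℕ, ∃ C₁ : ℝ, 0 < C₁ ∧
  ∀ q : ℝ, 0 ≤ q → q ≤ p → ∀ (S L F T : Finset (Zd d)) (i : Fin d) (h k : ℤ) (o : Zd d),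
    (∀ y ∈ S, y i ≤ h) → (∀ y ∈ L, y i ≤ h + K) → (∀ y ∈ F, y i = h) → (∀ x ∈ T, x i = k) →
    ∑ x ∈ T, ∑ y ∈ F, ∑ y' ∈ F, ∑ u ∈ S, ∑ v ∈ L, tz q S o u * tz q S u y * tz q S u y' *
      (tz q L (y + ev i K) v * tz q L (y' + ev i K) v * tz q L v x) ≤ C₁

/-- below the sharp length the susceptibility grows quadratically -/
def St_INC : Prop := ∀ (d : ℕ) (p c C : ℝ), HZ d p c C → ∃ (c₁ : ℝ) (M₀ : ℕ), 0 < c₁ ∧
  ∀ q : ℝ, p / 2 ≤ q → q ≤ p → ∀ M : ℕ, M₀ ≤ M → (∀ r : ℕ, r ≤ 2 * M → 1 / 2 ≤ phi d q r) →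
    c₁ * (M : ℝ) ^ 2 ≤ cz q (box (0 : Zd d) (5 * M)) 0

/-- the sharp length at `p - l^(-2)` is `O(l)` -/
def St_Z7L : Prop := ∀ (d : ℕ) (p c C : ℝ), HZ d p c C → ∃ K l₀ : ℝ, 1 ≤ K ∧ 1 ≤ l₀ ∧
  ∀ l : ℝ, l₀ ≤ l → p / 2 ≤ p - 1 / l ^ 2 ∧
    ∃ L : ℕ, (L : ℝ) + 1 ≤ K * l ∧ phi d (p - 1 / l ^ 2) L ≤ 1 / 2

/-! ### the torus -/

/-- the cluster of the torus is dominated by the projection of the cluster of the lattice -/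
def St_COVER : Prop := ∀ (d n : ℕ) [NeZero n], 3 ≤ n → ∀ q : ℝ, 0 ≤ q → q ≤ 1 →
  ∀ (x : Zd d) (F : Finset (Tor d n) → ℝ), Monotone F →
    EC (torus d n) (fun _ => q) univ (proj n x) F ≤
      ez q (box x (n ^ d)) x fun A => F (A.image (proj n))

/-- points of `A` that are not related to a point of `A` -/
noncomputable def lone {V : Type} (R : V → V → Prop) (A : Finset V) : Finset V :=
  flt A fun v => ∀ w ∈ A, ¬ R v w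

/-- distinct points with the same projection -/
def Twin {d : ℕ} (n : ℕ) (v w : Zd d) : Prop := proj n w = proj n v ∧ w ≠ v

/-- paths of points without a twin in the cluster project to open paths of the torus -/
def St_T2a : Prop := ∀ (d n : ℕ) [NeZero n], 3 ≤ n → ∀ q : ℝ, 0 ≤ q → q ≤ 1 →
  ∀ (Λ : Finset (Zd d)) (x : Zd d) (y : Tor d n),
    PE (edges (lattice d) Λ) (fun _ => q) (fun ω => ind (∃ y', proj n y' = y ∧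
      conn (lattice d) (lone (Twin n) (cl (lattice d) Λ ω x)) ω x y')) ≤ tt q univ (proj n x) y

/-- a connection that cannot avoid the points with a relative in the cluster -/
def St_T2b : Prop := ∀ (V : Type) [DecidableEq V] (G : SimpleGraph V) (π : Sym2 V → ℝ), Prob π →
  ∀ (D : Finset V) (x y : V) (R : V → V → Prop),
    PE (edges G D) π (fun ω => ind (conn G D ω x y ∧ ¬ conn G (lone R (cl G D ω x)) ω x y)) ≤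
      ∑ u ∈ D, ∑ v ∈ D, ∑ w ∈ D, ind (R v w) *
        (tau G π D x u * tau G π D u v * tau G π D v y * tau G π D u w +
          tau G π D x v * tau G π D v u * tau G π D u y * tau G π D u w)

/-- the subcritical kernel -/
noncomputable def ge {d : ℕ} (c l : ℝ) (x y : Zd d) : ℝ :=
  kk (d - 2) (zd x y) * Real.exp (-(c * zd x y / l))

/-- periodisation of the subcritical kernel -/
def St_TG0 : Prop := ∀ (d : ℕ) (c : ℝ), 3 ≤ d → 0 < c → ∃ C₁ : ℝ, 0 < C₁ ∧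
  ∀ (n : ℕ) [NeZero n] (l : ℝ), 1 ≤ l → ∀ (x : Zd d) (y : Tor d n) (S : Finset (Zd d)),
    (∀ v ∈ S, proj n v = y) →
    ∑ v ∈ S, ge c l x v ≤ C₁ * tg l (proj n x) y ∧
    ((∀ v ∈ S, (n : ℝ) / 2 ≤ zd x v) → ∑ v ∈ S, ge c l x v ≤ C₁ * ((l ^ 2 + n ^ 2) / (n : ℝ) ^ d))

/-- triple convolution of the torus kernel -/
def St_T2c : Prop := ∀ (d : ℕ) (C₀ ε : ℝ), 9 ≤ d → 0 < ε → ∃ L₀ : ℝ, 1 ≤ L₀ ∧
  ∀ (n : ℕ) [NeZero n] (l : ℝ), L₀ ≤ l → (n : ℝ) ≤ C₀ * l → L₀ * l ^ 6 ≤ (n : ℝ) ^ d →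
    ∀ x y : Tor d n,
      l ^ 2 / (n : ℝ) ^ d * ∑ a, ∑ b, tg l x a * tg l a b * tg l b y ≤ ε * tg l x y

/-- the diagrams with twins, projected to the torus -/
def St_T2e : Prop := ∀ (d : ℕ) (c C₀ : ℝ), 3 ≤ d → 0 < c → ∃ C₁ : ℝ, 0 < C₁ ∧
  ∀ (n : ℕ) [NeZero n] (l : ℝ), 1 ≤ l → (n : ℝ) ≤ C₀ * l →
    ∀ (x : Zd d) (y : Tor d n) (D Y : Finset (Zd d)), (∀ v ∈ Y, proj n v = y) →
    ∑ y' ∈ Y, ∑ u ∈ D, ∑ v ∈ D, ∑ w ∈ D, ind (Twin n v w) *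
        (ge c l x u * ge c l u v * ge c l v y' * ge c l u w +
          ge c l x v * ge c l v u * ge c l u y' * ge c l u w) ≤
      C₁ * (l ^ 2 / (n : ℝ) ^ d * ∑ a, ∑ b, tg l (proj n x) a * tg l a b * tg l b y)

/-- the sum over the lifts -/
def St_T2m : Prop := ∀ (d : ℕ) (p c C : ℝ), HZ d p c C → ∀ C₀ : ℝ, ∃ c₁ l₀ : ℝ, 0 < c₁ ∧
  ∀ (n : ℕ) [NeZero n] (l : ℝ), l₀ ≤ l → (n : ℝ) ≤ C₀ * l → ∀ (x : Zd d) (y : Tor d n),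
    ∃ D Y : Finset (Zd d), (∀ v ∈ Y, proj n v = y) ∧
      c₁ * tg l (proj n x) y ≤ ∑ v ∈ Y, tz (p - 1 / l ^ 2) D x v

end Pool.Agent.TPC
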