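import Pool.Agent.Lib.TPC.BlueG

/-! Blueprint F1: finite-volume end statements and the final theorem. -/

open Finset MeasureTheory ProbabilityTheory Filter Topology

namespace Pool.Agent.TPC

open Pool.Agent.Lib.MP_81a99a_pr (lattice torus cluster kthLargest pc MeanField)

/-- the droplet scale `l^4 N^(-1/(d-1)) (log V)^(d/(d-1))` with `N = l^(d-6)` -/
noncomputable def sDrop (d : ℕ) (l V : ℝ) : ℝ :=
  l ^ 4 * l ^ (-(((d : ℝ) - 6) / (d - 1))) * Real.log V ^ ((d : ℝ) / (d - 1))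

/-- the mean-field scale `l^4 log (V / l^6)` -/
noncomputable def sMF (l V : ℝ) : ℝ := l ^ 4 * Real.log (V / l ^ 6)

/-- upper bound on the second largest cluster, finite form -/
def St_UP : Prop := ∀ (d : ℕ) (p c C : ℝ), HZ d p c C → ∃ κ A : ℝ, 0 < κ ∧ 0 < A ∧
  ∀ η : ℝ, 0 < η → ∃ L₀ : ℝ, ∀ (n : ℕ) [NeZero n] (l : ℝ), L₀ ≤ l → L₀ * l ^ 6 ≤ (n : ℝ) ^ d →
    pTwo d n (p * (1 + κ / l ^ 2)) (A * max (sMF l ((n : ℝ) ^ d)) (sDrop d l ((n : ℝ) ^ d))) ≤ η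

/-- a cube of radius about `m l` contains a cluster of order `m^d l^(d-2)` -/
def St_LIN : Prop := ∀ (d : ℕ) (p c C : ℝ), HZ d p c C → ∃ κ K c₁ l₀ : ℝ, 0 < κ ∧ 0 < K ∧
  0 < c₁ ∧ ∀ l : ℝ, l₀ ≤ l → ∀ m : ℕ, 1 ≤ m → ∃ L : ℕ, l ≤ L ∧ (L : ℝ) ≤ K * m * l ∧
    3 / 4 ≤ pIn d (p * (1 + κ / l ^ 2)) (c₁ * (m : ℝ) ^ d * l ^ (d - 2)) L

/-- lower bound on the second largest cluster in the droplet regime, finite form -/
def St_LOW : Prop := ∀ (d : ℕ) (p c C : ℝ), HZ d p c C → ∃ κ a Cs : ℝ, 0 < κ ∧ 0 < a ∧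
  ∀ η : ℝ, 0 < η → ∃ L₀ : ℝ, ∀ (n : ℕ) [NeZero n] (l : ℝ), L₀ ≤ l →
    Cs * l ^ (d - 6) ≤ Real.log ((n : ℝ) ^ d) →
    1 - η ≤ pTwo d n (p * (1 + κ / l ^ 2)) (a * sDrop d l ((n : ℝ) ^ d))

/-- the scale of the second largest cluster -/
noncomputable def scale (d : ℕ) (V ε : ℝ) : ℝ :=
  max (ε⁻¹ ^ 2 * Real.log (ε ^ 3 * V))
    (ε ^ (1 - 5 * (d : ℝ) / (2 * (d - 1))) * Real.log V ^ ((d : ℝ) / (d - 1)))

/-- upper half of the theorem -/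
def St_FUP : Prop := ∀ d : ℕ, 9 ≤ d → HighDim d → ∃ A : ℝ, 0 < A ∧ ∀ ε : ℕ → ℝ, (∀ n, 0 < ε n) →
  Tendsto ε atTop (𝓝 0) → Tendsto (fun n : ℕ => ε n * ((n : ℝ) ^ d) ^ (1 / 3 : ℝ)) atTop atTop →
  Tendsto (fun n : ℕ => (setBernoulli (torus d n).edgeSet
      (Set.projIcc 0 1 zero_le_one ((pc d : ℝ) * (1 + ε n)))).real
    {ω | A * scale d ((n : ℝ) ^ d) (ε n) ≤ kthLargest 2 ω}) atTop (𝓝 0)

/-- lower half of the theorem -/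
def St_FLOW : Prop := ∀ d : ℕ, 9 ≤ d → HighDim d → ∃ a : ℝ, 0 < a ∧ ∀ ε : ℕ → ℝ, (∀ n, 0 < ε n) →
  Tendsto ε atTop (𝓝 0) → Tendsto (fun n : ℕ => ε n * ((n : ℝ) ^ d) ^ (1 / 3 : ℝ)) atTop atTop →
  Tendsto (fun n : ℕ => (setBernoulli (torus d n).edgeSet
      (Set.projIcc 0 1 zero_le_one ((pc d : ℝ) * (1 + ε n)))).real
    {ω | a * scale d ((n : ℝ) ^ d) (ε n) ≤ kthLargest 2 ω}) atTop (𝓝 1)

/-- the theorem -/
def St_THM : Prop := ∀ d : ℕ, 9 ≤ d → HighDim d → ∃ a A : ℝ, 0 < a ∧ ∀ ε : ℕ → ℝ,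
  (∀ n, 0 < ε n) → Tendsto ε atTop (𝓝 0) →
  Tendsto (fun n : ℕ => ε n * ((n : ℝ) ^ d) ^ (1 / 3 : ℝ)) atTop atTop →
  Tendsto (fun n : ℕ => (setBernoulli (torus d n).edgeSet
      (Set.projIcc 0 1 zero_le_one ((pc d : ℝ) * (1 + ε n)))).real
    {ω | a * scale d ((n : ℝ) ^ d) (ε n) ≤ kthLargest 2 ω ∧
      (kthLargest 2 ω : ℝ) ≤ A * scale d ((n : ℝ) ^ d) (ε n)}) atTop (𝓝 1)

theorem st_THM (hU : St_FUP) (hL : St_FLOW) : St_THM := by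
  intro d hd h
  obtain ⟨A, -, hA⟩ := hU d hd h
  obtain ⟨a, ha, hl⟩ := hL d hd h
  refine ⟨a, A, ha, fun ε e0 e1 e2 => ?_⟩
  have lim := (hl ε e0 e1 e2).sub (hA ε e0 e1 e2)
  rw [sub_zero] at lim
  refine tendsto_of_tendsto_of_tendsto_of_le_of_le lim tendsto_const_nhds (fun n => ?_)
    fun n => measureReal_le_one
  beta_reduce
  rw [sub_le_iff_le_add]
  refine le_trans (measureReal_mono ?_) (measureReal_union_le _ _)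
  intro ω hω
  rcases le_total (kthLargest 2 ω : ℝ) (A * scale d ((n : ℝ) ^ d) (ε n)) with h2 | h2
  · exact Or.inl ⟨hω, h2⟩
  · exact Or.inr h2

end Pool.Agent.TPC
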