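import Pool.Agent.Lib.TPC.BlueZ

/-! Block INC: quadratic growth of the susceptibility below the sharp length. -/

open Finset

namespace Pool.Agent.TPC

namespace Inc

variable {d : ℕ} {q : ℝ} {M : ℕ}

/-- the part of the big cube below height `c` -/
noncomputable def Lo (i : Fin d) (M c : ℕ) : Finset (Zd d) := flt (box 0 (5 * M)) fun y => y i ≤ c

/-- the layer at height `-h` -/
noncomputable def Ly (i : Fin d) (M h : ℕ) : Finset (Zd d) := flt (box 0 (5 * M)) fun y => y i = -h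

/-- the top face of a cube -/
noncomputable def Fa (i : Fin d) (r : ℕ) : Finset (Zd d) := flt (box 0 r) fun y => y i = r

theorem mem_Lo {i : Fin d} {c : ℕ} {y : Zd d} :
    y ∈ Lo i M c ↔ (∀ j, -(5 * M : ℤ) ≤ y j ∧ y j ≤ 5 * M) ∧ y i ≤ c := by
  simp [Lo, mem_box']

theorem mem_Ly {i : Fin d} {h : ℕ} {y : Zd d} :
    y ∈ Ly i M h ↔ (∀ j, -(5 * M : ℤ) ≤ y j ∧ y j ≤ 5 * M) ∧ y i = -h := by
  simp [Ly, mem_box']

theorem mem_Fa {i : Fin d} {r : ℕ} {y : Zd d} :
    y ∈ Fa i r ↔ (∀ j, -(r : ℤ) ≤ y j ∧ y j ≤ r) ∧ y i = r := by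
  simp [Fa, mem_box']

theorem evb (i j : Fin d) (t : ℕ) : 0 ≤ ev i t j ∧ ev i t j ≤ t ∧ ev i t i = t ∧
    (j ≠ i → ev i (t : ℤ) j = 0) := by
  by_cases h : j = i <;> simp [h]

theorem low (hF : St_FACE) (q0 : 0 < q) (q1 : q ≤ 1) (i : Fin d) {r : ℕ} (h : 1 / 2 ≤ phi d q r) :
    1 / (4 * d) ≤ ∑ y ∈ Fa i r, tz q (box 0 r) 0 y := by
  have d0 : (0 : ℝ) < d := by exact_mod_cast i.pos
  have f0 : 0 ≤ face d q r i := sum_nonneg fun _ _ => tz_nonneg q0.le q1
  rw [hF d q r i] at h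
  change _ ≤ face d q r i
  rw [div_le_iff₀ (by positivity)]
  nlinarith [mul_le_mul_of_nonneg_right q1 (mul_nonneg d0.le f0)]

theorem main (hF : St_FACE) (q0 : 0 < q) (q1 : q ≤ 1) (i : Fin d)
    (hp : ∀ r : ℕ, r ≤ 2 * M → 1 / 2 ≤ phi d q r) {c K h : ℕ} (hc : c + K ≤ M) (hh : h ≤ M) :
    1 / (4 * d) * (1 / (4 * d)) ≤ ∑ x ∈ Ly i M h, ∑ y ∈ Fa i c,
      tz q (Lo i M c) 0 y * tz q (Lo i M (c + K)) (y + ev i K) x := by
  rw [sum_comm]
  refine (mul_le_mul_of_nonneg_right (low hF q0 q1 i (hp c (by omega))) (by positivity)).trans ?_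
  rw [sum_mul]
  refine sum_le_sum fun y hy => ?_
  obtain ⟨y1, y2⟩ := mem_Fa.1 hy
  rw [← mul_sum]
  refine mul_le_mul (tz_mono_dom q0.le q1 fun z hz => mem_Lo.2 ⟨fun j => ?_, ?_⟩) ?_ (by positivity)
    (tz_nonneg q0.le q1)
  · have := mem_box'.1 hz j
    simp only [Pi.zero_apply] at this
    omega
  · simpa using (mem_box'.1 hz i).2
  refine (low hF q0 q1 i (hp (c + K + h) (by omega))).trans
    (le_trans (sum_le_sum fun w hw => ?_) ((sum_image (g := fun w => y + ev i K - w)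
      fun _ _ _ _ e => sub_right_injective e).symm.trans_le
      (sum_le_sum_of_subset_of_nonneg (image_subset_iff.2 fun w hw => mem_Ly.2 ⟨fun j => ?_, ?_⟩)
        fun _ _ _ => tz_nonneg q0.le q1)))
  · obtain ⟨w1, w2⟩ := mem_Fa.1 hw
    rw [tz_comm (x := y + ev i K)]
    refine le_trans (le_of_eq ?_) (tz_mono_dom (D := box (y + ev i K - w) (c + K + h)) q0.le q1
      fun z hz => mem_Lo.2 ⟨fun j => ?_, ?_⟩)
    · rw [tz_box_zero q (y + ev i K - w), sub_self, sub_sub_cancel]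
    · have := mem_box'.1 hz j
      have := y1 j
      have := w1 j
      have := evb i j K
      simp only [Pi.sub_apply, Pi.add_apply] at *
      by_cases e : j = i
      · subst e
        omega
      · omega
    · have := mem_box'.1 hz i
      have := evb i i K
      simp only [Pi.sub_apply, Pi.add_apply] at *
      omega
  · have := y1 j
    have := (mem_Fa.1 hw).1 j
    have := evb i j K
    simp only [Pi.sub_apply, Pi.add_apply]
    omega
  · have := (mem_Fa.1 hw).2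
    have := evb i i K
    simp only [Pi.sub_apply, Pi.add_apply]
    omega

theorem layers (q0 : 0 ≤ q) (q1 : q ≤ 1) (i : Fin d) (c : ℕ) :
    ∑ h ∈ range M, ∑ x ∈ Ly i M h, tz q (Lo i M c) 0 x ≤ cz q (box (0 : Zd d) (5 * M)) 0 := by
  simp only [Ly, sum_flt]
  rw [sum_comm, cz_eq_sum]
  refine sum_le_sum fun x _ => ?_
  rw [← sum_mul, ← card_flt]
  refine (mul_le_of_le_one_left (tz_nonneg q0 q1) ?_).trans (tz_mono_dom q0 q1 (flt_subset _ _))
  exact_mod_cast card_le_one.2 fun a ha b hb => by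
    have := (mem_flt.1 ha).2
    have := (mem_flt.1 hb).2
    omega

end Inc

open Inc in
theorem st_INC (hP : St_PSI) (hF : St_FACE) (hS : St_SLK) (h2 : St_E2B) (h1 : St_E1B) :
    St_INC := by
  intro d p c C h
  obtain ⟨Φ, hΦ⟩ := hP d p c C h
  obtain ⟨C₂, C2, e2⟩ := h2 d p c C Φ h hΦ
  have p0 := h.p0
  have d9 : (9 : ℝ) ≤ d := by exact_mod_cast h.hd
  obtain ⟨β, hβ⟩ : ∃ β : ℝ, β = 1 / (4 * d) * (1 / (4 * d)) := ⟨_, rfl⟩
  have β0 : 0 < β := by rw [hβ]; positivity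
  obtain ⟨K, hK⟩ := exists_nat_gt (2 * C₂ / β)
  have K0 : (0 : ℝ) < K := lt_trans (by positivity) hK
  have kb : C₂ * kk (d - 8) K ≤ β / 2 := by
    have := kk_anti_exp (a := (1 : ℕ)) (b := d - 8) K0.le (by push_cast; linarith)
    rw [kk_nat 1 K0.le, pow_one] at this
    refine (mul_le_mul_of_nonneg_left this C2.le).trans ?_
    rw [div_lt_iff₀ β0] at hK
    rw [mul_one_div, div_le_iff₀ (by positivity)]
    nlinarith
  obtain ⟨C₃, C3, e1⟩ := h1 d p c C Φ h hΦ K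
  obtain ⟨θ, hθ⟩ : ∃ θ : ℝ, θ = min 1 ((p / 2) ^ K * β / (4 * C₃)) := ⟨_, rfl⟩
  have θ0 : 0 < θ := by rw [hθ]; positivity
  have θ1 : θ ≤ 1 := hθ ▸ min_le_left _ _
  have θ2 : θ * (4 * C₃) ≤ (p / 2) ^ K * β := (le_div_iff₀ (by positivity)).1 (hθ ▸ min_le_right _ _)
  refine ⟨θ * ((p / 2) ^ K * β) / 4 / (2 * K), 2 * K, by positivity, fun q hq qp M hM hp => ?_⟩
  have q0 : 0 < q := by linarith
  have q1 := qp.trans h.p1.le
  have i : Fin d := ⟨0, by have := h.hd; omega⟩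
  have step : ∀ c k : ℕ, c + K ≤ M → k ≤ M → ∑ x ∈ Ly i M k, tz q (Lo i M c) 0 x +
      θ * ((p / 2) ^ K * β) / 4 ≤ ∑ x ∈ Ly i M k, tz q (Lo i M (c + K)) 0 x := fun c k hc hk => by
    have a1 : ∀ y ∈ Lo i M c, y i ≤ c := fun y hy => (mem_Lo.1 hy).2
    have a2 : ∀ y ∈ Lo i M (c + K), y i ≤ (c : ℤ) + K := fun y hy => by
      exact_mod_cast (mem_Lo.1 hy).2
    have a3 : ∀ y ∈ Fa i c, y i = c := fun y hy => (mem_Fa.1 hy).2
    have a4 : ∀ x ∈ Ly i M k, x i = -k := fun y hy => (mem_Ly.1 hy).2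
    have s := sum_le_sum fun x (_ : x ∈ Ly i M k) => hS d q θ q0.le q1 θ0.le θ1 (Lo i M c)
      (Lo i M (c + K)) (Fa i c) i c K 0 x
      (fun y hy => mem_Lo.2 ⟨(mem_Lo.1 hy).1, by have := a1 y hy; omega⟩) a1
      fun y hy => ⟨a3 y hy, fun t ht => mem_Lo.2 ⟨fun j => by
        have := (mem_Fa.1 hy).1 j
        have := evb i j t
        simp only [Pi.add_apply]
        omega, by
        have := a3 y hy
        have := evb i i t
        simp only [Pi.add_apply]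
        omega⟩⟩
    rw [sum_add_distrib, sum_add_distrib, sum_add_distrib, ← mul_sum, ← mul_sum, ← mul_sum] at s
    have m := mul_le_mul_of_nonneg_left (hβ ▸ main hF q0 q1 i hp hc hk)
      (show 0 ≤ θ * q ^ K by positivity)
    have b2 := mul_le_mul_of_nonneg_left ((e2 q q0.le qp K _ _ _ _ i c _ 0 a1 a2 a3 a4).trans kb)
      (show 0 ≤ θ * q ^ K by positivity)
    have b1 := mul_le_mul_of_nonneg_left (e1 q q0.le qp _ _ _ _ i c _ 0 a1 a2 a3 a4) (sq_nonneg θ)
    have b3 : θ * ((p / 2) ^ K * β) ≤ θ * (q ^ K * β) := by gcongr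
    nlinarith [mul_le_mul_of_nonneg_left θ2 θ0.le]
  have tel : ∀ k ≤ M, ∀ j : ℕ, j * K ≤ M →
      j * (θ * ((p / 2) ^ K * β) / 4) ≤ ∑ x ∈ Ly i M k, tz q (Lo i M (j * K)) 0 x := by
    intro k hk j
    induction j with
    | zero => exact fun _ => by simpa using sum_nonneg fun _ _ => tz_nonneg q0.le q1
    | succ j ih =>
      intro hj
      rw [Nat.succ_mul] at hj ⊢
      have := step (j * K) k hj hk
      have := ih (by omega)
      push_cast
      linarith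
  refine le_trans ?_ (layers q0.le q1 i (M / K * K))
  refine le_trans ?_ (card_nsmul_le_sum _ _ _ fun k hk =>
    tel k (mem_range.1 hk).le (M / K) (Nat.div_mul_le_self M K))
  have j : (M : ℝ) ≤ 2 * K * (M / K : ℕ) := by
    have K1 : 0 < K := by exact_mod_cast K0
    have := Nat.lt_mul_div_succ M K1
    have : 1 ≤ M / K := (Nat.le_div_iff_mul_le K1).2 (by omega)
    exact_mod_cast (by nlinarith : M ≤ 2 * K * (M / K))
  rw [card_range, nsmul_eq_mul, div_mul_eq_mul_div, div_le_iff₀ (by positivity)]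
  have : 0 ≤ θ * ((p / 2) ^ K * β) / 4 * M := by positivity
  nlinarith [mul_le_mul_of_nonneg_left j this]

end Pool.Agent.TPC
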