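import Pool.Agent.Lib.TPC.B_LBba

/-! Block LBb: entropy cost of isolating the cluster of a cube. -/

open Finset

namespace Pool.Agent.TPC

open Pool.Agent.Lib.MP_81a99a_pr (lattice torus)

namespace LBb

variable {d : ℕ}

/-- parameter `q` inside the cube, `s` outside -/
noncomputable def QQ (q s : ℝ) (L : ℕ) (e : Sym2 (Zd d)) : ℝ :=
  if e ∈ edges (lattice d) (box 0 L) then q else s

/-- probability that `v` lies in the chosen cluster -/
noncomputable def gg (q s k : ℝ) (L L' : ℕ) (v : Zd d) : ℝ :=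
  PE (edges (lattice d) (box 0 L')) (QQ q s L) fun ω => ind (Big k L ω ∧ v ∈ CC k L L' ω)

variable {q s k : ℝ} {L L' : ℕ}

lemma QQ_mem (h0 : 0 < s) (h : s ≤ q) (h1 : q < 1) (e : Sym2 (Zd d)) :
    0 < QQ q s L e ∧ QQ q s L e ≤ q := by
  unfold QQ
  split_ifs
  exacts [⟨by linarith, le_rfl⟩, ⟨h0, h⟩]

lemma prob_QQ (h0 : 0 < s) (h : s ≤ q) (h1 : q < 1) : Prob (QQ (d := d) q s L) := fun e =>
  ⟨(QQ_mem h0 h h1 e).1.le, (QQ_mem h0 h h1 e).2.trans h1.le⟩

lemma Q_big (hL : L ≤ L') :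
    PE (edges (lattice d) (box 0 L')) (QQ q s L) (fun ω => ind (Big k L ω)) = pIn d q k L := by
  rw [PE_restrict (edges_mono (box_mono _ hL)) (dep_Big k L) fun e he _ => he]
  exact PE_congr_prob (fun e he => if_pos he) _

lemma Q_out (x : Zd d) (F : Finset (Zd d) → ℝ) :
    PE (edges (lattice d) (box 0 L')) (QQ q s L)
      (fun ω => F (cl (lattice d) (box 0 L' \ box 0 L) ω x)) =
      ez s (box 0 L' \ box 0 L) x F := by
  rw [PE_cl (edges_mono Finset.sdiff_subset)]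
  exact PE_congr_prob (fun e he => if_neg
    (Finset.disjoint_left.1 (edges_disjoint Finset.sdiff_disjoint) he)) _

lemma Q_AA (h0 : 0 < s) (h : s ≤ q) (h1 : q < 1) (hk : 0 < k) (hL : L < L') {a : ℝ}
    (ha : ∀ (D : Finset (Zd d)) (x : Zd d),
      ez s D x (fun A => ind (∃ y ∈ A, (L' : ℝ) - L - 1 ≤ zd x y)) ≤ a) :
    pIn d q k L ≤ PE (edges (lattice d) (box 0 L')) (QQ q s L) (fun ω => ind (AA k L L' ω)) +
      (2 * ((L : ℝ) + 1) + 1) ^ d * a := by
  have hP := prob_QQ (d := d) (L := L) h0 h h1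
  rw [← Q_big (s := s) hL.le]
  refine le_trans (PE_ind_mono hP (Q := fun ω => AA k L L' ω ∨ ∃ b ∈ box (0 : Zd d) (L + 1),
    ∃ y ∈ cl (lattice d) (box 0 L' \ box 0 L) ω b, (L' : ℝ) - L - 1 ≤ zd b y) ?_)
    ((PE_ind_or hP _ _).trans (add_le_add le_rfl ((PE_ind_exists hP _ _).trans ?_)))
  · intro ω hb
    by_cases hA : AA k L L' ω
    · exact Or.inl hA
    · right
      have h2 : ∃ z ∈ CC k L L' ω, (L' : ℝ) ≤ zd 0 z := by
        by_contra hc
        exact hA ⟨hb, fun z hz => not_le.1 fun h3 => hc ⟨z, hz, h3⟩⟩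
      obtain ⟨z, hz, h3⟩ := h2
      have h4 : (L : ℝ) + 1 ≤ L' := by exact_mod_cast hL
      obtain ⟨b, hb1, hb2⟩ := exit (mem_cl.1 hz).symm (ys_mem hk hb) (notMem_box.2 (by linarith))
      refine ⟨b, hb1, z, mem_cl.2 hb2.symm, ?_⟩
      have h5 := mem_box.1 hb1
      have h6 := zd_tri 0 b z
      push_cast at h5
      linarith
  · have h2 := Finset.sum_le_card_nsmul (box (0 : Zd d) (L + 1)) (fun b =>
      PE (edges (lattice d) (box 0 L')) (QQ q s L) fun ω => ind (∃ y ∈ cl (lattice d)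
        (box 0 L' \ box 0 L) ω b, (L' : ℝ) - L - 1 ≤ zd b y)) a fun b _ => by
      rw [Q_out b fun A => ind (∃ y ∈ A, (L' : ℝ) - L - 1 ≤ zd b y)]
      exact ha _ _
    rw [card_box, nsmul_eq_mul] at h2
    push_cast at h2
    exact h2

lemma gg_vol (h0 : 0 < s) (h : s ≤ q) (h1 : q < 1) (hL : L ≤ L') {m : ℝ} (hm : m ≤ k) (v : Zd d) :
    gg q s k L L' v ≤ ez q (box 0 L') v fun A => ind (m ≤ (A.card : ℝ)) := by
  have hP := prob_QQ (d := d) (L := L) h0 h h1
  refine le_trans ?_ (EC_mono_prob hP (Prob.const (by linarith) h1.le)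
    (fun e _ => (QQ_mem h0 h h1 e).2) fun A B hAB => ind_mono fun h2 =>
      h2.trans (Nat.cast_le.2 (Finset.card_le_card hAB)))
  refine PE_ind_mono hP fun ω h2 => ?_
  rw [cl_eq_of_conn (mem_cl.1 h2.2)]
  exact hm.trans (card_CC hL h2.1)

lemma gg_arm (h0 : 0 < s) (h : s ≤ q) (h1 : q < 1) (hk : 0 < k) {v : Zd d}
    (hv : (L : ℝ) + 1 ≤ zd 0 v) :
    gg q s k L L' v ≤ ez s (box 0 L' \ box 0 L) v
      fun A => ind (∃ y ∈ A, zd 0 v - L - 1 ≤ zd v y) := by
  rw [← Q_out (q := q)]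
  refine PE_ind_mono (prob_QQ h0 h h1) fun ω h2 => ?_
  obtain ⟨b, hb1, hb2⟩ := exit (mem_cl.1 h2.2).symm (ys_mem hk h2.1) (notMem_box.2 hv)
  refine ⟨b, mem_cl.2 hb2, ?_⟩
  have h5 := mem_box.1 hb1
  have h6 := zd_tri 0 b v
  rw [zd_comm b v] at h6
  push_cast at h5
  linarith

lemma ent_le (h0 : 0 < s) (h : s ≤ q) (h1 : q < 1) :
    entB (edges (lattice d) (box 0 L')) (fun _ => q) (QQ q s L) (SS k L L') ≤
      (q - s) ^ 2 / (q * (1 - q)) * (2 * d *
        ∑ v ∈ flt (box (0 : Zd d) L') (fun v => (L : ℝ) ≤ zd 0 v), gg q s k L L' v) := by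
  have hP := prob_QQ (d := d) (L := L) h0 h h1
  have hq : 0 < q * (1 - q) := mul_pos (by linarith) (by linarith)
  have hW : 0 ≤ (q - s) ^ 2 / (q * (1 - q)) := by positivity
  have hg : ∀ v : Zd d, 0 ≤ gg q s k L L' v := fun v => PE_ind_nonneg hP _
  set T := flt (box (0 : Zd d) L') (fun v => (L : ℝ) ≤ zd 0 v) with hT
  have key : ∀ e ∈ edges (lattice d) (box (0 : Zd d) L'),
      PE (edges (lattice d) (box 0 L')) (QQ q s L) (fun ω => ind (e ∈ SS k L L' ω)) *
        ((q - QQ q s L e) ^ 2 / (q * (1 - q))) ≤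
      (q - s) ^ 2 / (q * (1 - q)) * ∑ v ∈ T, ind (v ∈ e) * gg q s k L L' v := by
    intro e he
    by_cases hin : e ∈ edges (lattice d) (box (0 : Zd d) L)
    · have : QQ q s L e = q := if_pos hin
      rw [this, sub_self]
      simp only [ne_eq, OfNat.ofNat_ne_zero, not_false_eq_true, zero_pow, zero_div, mul_zero]
      exact mul_nonneg hW (Finset.sum_nonneg fun v _ => mul_nonneg (ind_nonneg _) (hg v))
    · have : QQ q s L e = s := if_neg hin
      rw [this, mul_comm]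
      refine mul_le_mul_of_nonneg_left ?_ hW
      refine le_trans (PE_ind_mono hP (Q := fun ω => ∃ v ∈ T, v ∈ e ∧
        (Big k L ω ∧ v ∈ CC k L L' ω)) ?_) ((PE_ind_exists hP _ _).trans (le_of_eq ?_))
      · intro ω h2
        rcases Finset.mem_union.1 h2 with h2 | h2
        · exact absurd h2 hin
        · obtain ⟨-, hb, v, hv, hve⟩ := mem_flt.1 h2
          refine ⟨v, mem_flt.2 ⟨cl_subset hv, ?_⟩, hve, hb, hv⟩
          obtain ⟨y, rfl⟩ := Sym2.mem_iff_exists.1 hve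
          have hadj := (mk_mem_edges.1 he).1
          by_cases hvL : v ∈ box (0 : Zd d) L
          · have hy : y ∉ box (0 : Zd d) L := fun hy => hin (mk_mem_edges.2 ⟨hadj, hvL, hy⟩)
            have h3 := notMem_box.1 hy
            have h4 := zd_tri 0 v y
            rw [zd_adj hadj] at h4
            linarith
          · have := notMem_box.1 hvL
            linarith
      · refine Finset.sum_congr rfl fun v _ => ?_
        unfold gg
        rw [← PE_mul_left]
        exact PE_congr fun ω _ => ind_and _ _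
  refine (Finset.sum_le_sum key).trans ?_
  rw [← Finset.mul_sum, Finset.sum_comm]
  refine mul_le_mul_of_nonneg_left ?_ hW
  rw [Finset.mul_sum]
  refine Finset.sum_le_sum fun v _ => ?_
  rw [← Finset.sum_mul]
  refine mul_le_mul_of_nonneg_right ?_ (hg v)
  have := sum_edges_mem (degLe_lattice d) (box (0 : Zd d) L') v
  push_cast at this
  exact this

lemma P_AA (h0 : 0 ≤ q) (h1 : q ≤ 1) (hL : L ≤ L') :
    PE (edges (lattice d) (box 0 L')) (fun _ => q) (fun ω => ind (AA k L L' ω)) ≤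
      pIso d q k L' :=
  PE_ind_mono (Prob.const h0 h1) fun ω h => ⟨ys k L ω, card_CC hL h.1, h.2⟩

/-- the two one-point bounds combined -/
lemma comb {g A B c l t : ℝ} (hA : 0 < A) (hB : 0 < B) (hc : 0 < c) (hl : 1 ≤ l)
    (h1 : g ≤ A / l ^ 2)
    (h2 : 1 < t → g ≤ B / (t - 1) ^ 2 * Real.exp (-(c * (t - 1) / l))) :
    g ≤ (A + B) * Real.exp (2 * c) / l ^ 2 * Real.exp (-(c * t / l)) := by
  have hl0 : 0 < l := by linarith
  have hcl : c / l ≤ c := div_le_self hc.le hl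
  by_cases ht : t ≤ l + 1
  · have h3 : 1 ≤ Real.exp (2 * c) * Real.exp (-(c * t / l)) := by
      rw [← Real.exp_add]
      refine Real.one_le_exp ?_
      have h4 : c * t / l ≤ c * (l + 1) / l := by gcongr
      have h5 : c * (l + 1) / l = c + c / l := by field_simp
      linarith
    refine h1.trans ?_
    have e : (A + B) * Real.exp (2 * c) / l ^ 2 * Real.exp (-(c * t / l)) =
        (A + B) * (Real.exp (2 * c) * Real.exp (-(c * t / l))) / l ^ 2 := by ring
    rw [e]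
    refine div_le_div_of_nonneg_right ?_ (by positivity)
    nlinarith
  · push Not at ht
    refine (h2 (by linarith)).trans ?_
    have h3 : B / (t - 1) ^ 2 ≤ (A + B) / l ^ 2 :=
      div_le_div₀ (by linarith) (by linarith) (by positivity)
        (pow_le_pow_left₀ hl0.le (by linarith) 2)
    have h4 : Real.exp (-(c * (t - 1) / l)) ≤ Real.exp (2 * c) * Real.exp (-(c * t / l)) := by
      rw [← Real.exp_add]
      refine Real.exp_le_exp.2 ?_
      have h5 : c * (t - 1) / l = c * t / l - c / l := by ring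
      linarith
    refine (mul_le_mul h3 h4 (Real.exp_pos _).le (by positivity)).trans (le_of_eq ?_)
    ring

/-- the exit probability is small -/
lemma exit_small {B c C₁ l r : ℝ} {L : ℕ} (hB : 0 < B) (hc : 0 < c) (hl : 1 ≤ l) (hlL : l ≤ L)
    (h4 : 4 ≤ C₁) (hC : 2 * (2 * d + 4 * B) / c ≤ C₁) (hr : C₁ * l * Real.log (L + 2) ≤ r + 1) :
    1 ≤ r ∧ (2 * ((L : ℝ) + 1) + 1) ^ d * (B / r ^ 2 * Real.exp (-(c * r / l))) ≤ 1 / 4 := by
  have hl0 : 0 < l := by linarith
  set X := Real.log ((L : ℝ) + 2) with hX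
  have hX1 : 1 ≤ X := by
    rw [hX, Real.le_log_iff_exp_le (by linarith)]
    have := Real.exp_one_lt_d9
    linarith
  have hlX : 1 ≤ l * X := by nlinarith
  have h1 : 4 ≤ C₁ * l * X := by rw [mul_assoc]; nlinarith
  have hr1 : 1 ≤ r := by linarith
  refine ⟨hr1, ?_⟩
  have h2 : C₁ / 2 * X ≤ r / l := by
    rw [le_div_iff₀ hl0]; nlinarith
  have h3 : 2 * d + 4 * B ≤ c * (C₁ / 2) := by
    rw [div_le_iff₀ hc] at hC; linarith
  have h5 : (2 * d + 4 * B) * X ≤ c * r / l := by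
    rw [mul_div_assoc]
    have h6 := mul_le_mul_of_nonneg_right h3 (by linarith : 0 ≤ X)
    have h7 := mul_le_mul_of_nonneg_left h2 hc.le
    nlinarith
  have h6 : (2 * ((L : ℝ) + 1) + 1) ^ d ≤ Real.exp (2 * d * X) := by
    have h7 : Real.exp X = L + 2 := Real.exp_log (by linarith)
    have h8 : Real.exp (2 * d * X) = (Real.exp X ^ 2) ^ d := by
      rw [← pow_mul, ← Real.exp_nat_mul]; push_cast; ring_nf
    rw [h8, h7]
    refine pow_le_pow_left₀ (by linarith) ?_ d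
    nlinarith
  have h7 : B / r ^ 2 ≤ B := div_le_self hB.le (one_le_pow₀ hr1)
  have h8 : Real.exp (2 * d * X) * Real.exp (-(c * r / l)) ≤ Real.exp (-(4 * B)) := by
    rw [← Real.exp_add]
    refine Real.exp_le_exp.2 ?_
    nlinarith
  have h9 : B * Real.exp (-(4 * B)) ≤ 1 / 4 := by
    have h10 := Real.add_one_le_exp (4 * B)
    have h11 : Real.exp (-(4 * B)) * Real.exp (4 * B) = 1 := by rw [← Real.exp_add]; simp
    nlinarith [Real.exp_pos (-(4 * B))]
  calc (2 * ((L : ℝ) + 1) + 1) ^ d * (B / r ^ 2 * Real.exp (-(c * r / l)))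
      ≤ Real.exp (2 * d * X) * (B * Real.exp (-(c * r / l))) :=
        mul_le_mul h6 (mul_le_mul_of_nonneg_right h7 (Real.exp_pos _).le) (by positivity)
          (Real.exp_pos _).le
    _ = B * (Real.exp (2 * d * X) * Real.exp (-(c * r / l))) := by ring
    _ ≤ B * Real.exp (-(4 * B)) := mul_le_mul_of_nonneg_left h8 hB.le
    _ ≤ 1 / 4 := h9

end LBb

open LBb in
theorem st_LBb (hE : St_ENT) (h7 : St_Z7c) (h9 : St_Z9) : St_LBb := by
  intro d p c C H κ
  obtain ⟨B, c₁, l₇, hB, hc, h7⟩ := h7 d p c C H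
  obtain ⟨A, l₉, hA, h9⟩ := h9 d p c C H κ
  obtain ⟨M, hM, hMs⟩ := shell_sum d hc
  have hp0 := H.p0
  have hp1 : 0 < 1 - p := sub_pos.2 H.p1
  set K : ℝ := (κ + 1) ^ 2 / (p / 2 * ((1 - p) / 2)) *
    (2 * d * ((A + B) * Real.exp (2 * c₁) * M)) with hK
  have hK0 : 0 ≤ K := by positivity
  have hC0 : 0 ≤ 2 * (2 * d + 4 * B) / c₁ := by positivity
  refine ⟨4 + 2 * (2 * d + 4 * B) / c₁ + 2 * K,
    max (max 1 (max l₇ l₉)) (max (2 / p) (2 * |κ| / (1 - p))), by positivity, ?_⟩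
  intro l q k L L' hl hlL hk hq0 hq1 hIn hL'
  simp only [max_le_iff] at hl
  obtain ⟨⟨hl1, hl7, hl9⟩, hlp, hlκ⟩ := hl
  have hl0 : 0 < l := by linarith
  have hll : l ≤ l ^ 2 := by nlinarith
  have hs : p / 2 ≤ p - 1 / l ^ 2 := by
    have : 1 / l ^ 2 ≤ p / 2 := by
      rw [div_le_iff₀ hp0] at hlp
      rw [div_le_iff₀ (by positivity)]
      nlinarith
    linarith
  have hq : q ≤ 1 - (1 - p) / 2 := by
    have : κ / l ^ 2 ≤ (1 - p) / 2 := by
      rw [div_le_iff₀ hp1] at hlκ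
      rw [div_le_iff₀ (by positivity)]
      have := le_abs_self κ
      nlinarith
    linarith
  have h0 : 0 < p - 1 / l ^ 2 := by linarith
  have h1 : q < 1 := by linarith
  have hk0 : 0 < k := lt_of_lt_of_le (by positivity) hk
  obtain ⟨hr1, hex⟩ := exit_small (d := d) (r := (L' : ℝ) - L - 1)
    (C₁ := 4 + 2 * (2 * d + 4 * B) / c₁ + 2 * K) hB hc hl1 hlL (by linarith) (by linarith)
    (by linarith)
  have hLL : L < L' := by
    have : (L : ℝ) < L' := by linarith
    exact_mod_cast this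
  have hQ := Q_AA (d := d) h0 hq0 h1 hk0 hLL fun D x => h7 l hl7 D x _ (by linarith)
  have hent := (hE _ (edges (lattice d) (box 0 L')) (fun _ => q) (QQ q (p - 1 / l ^ 2) L)
    (fun _ => ⟨by linarith, h1⟩)
    (fun e => ⟨(QQ_mem h0 hq0 h1 e).1, (QQ_mem h0 hq0 h1 e).2.trans_lt h1⟩)
    (SS k L L') (isStop k L L')).2 (AA k L L') (detBy k L L') (by linarith)
  refine le_trans (Real.exp_le_exp.2 ?_) (hent.trans (P_AA (by linarith) h1.le hLL.le))
  have hg : ∀ v ∈ flt (box (0 : Zd d) L') (fun v => (L : ℝ) ≤ zd 0 v),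
      gg q (p - 1 / l ^ 2) k L L' v ≤
        (A + B) * Real.exp (2 * c₁) / l ^ 2 * Real.exp (-(c₁ * (zd 0 v - L) / l)) := by
    intro v _
    refine comb hA hB hc hl1 ((gg_vol h0 hq0 h1 hLL.le hk v).trans
      (h9 l hl9 q (by linarith) hq1 _ _)) fun ht => ?_
    exact (gg_arm h0 hq0 h1 hk0 (by linarith)).trans (h7 l hl7 _ _ _ (by linarith))
  have hsum := Finset.sum_le_sum hg
  rw [← Finset.mul_sum] at hsum
  replace hsum := hsum.trans (mul_le_mul_of_nonneg_left
    (hMs l L _ hl1 hlL fun v hv => (mem_flt.1 hv).2) (by positivity))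
  have hW : (q - (p - 1 / l ^ 2)) ^ 2 / (q * (1 - q)) ≤
      ((κ + 1) / l ^ 2) ^ 2 / (p / 2 * ((1 - p) / 2)) := by
    refine div_le_div₀ (by positivity) (pow_le_pow_left₀ (by linarith) ?_ 2) (by positivity)
      (mul_le_mul (by linarith) (by linarith) (by positivity) (by linarith))
    rw [add_div]; linarith
  have hP := prob_QQ (d := d) (L := L) h0 hq0 h1
  have hB1 := (ent_le (d := d) (k := k) (L := L) (L' := L') h0 hq0 h1).trans (mul_le_mul hW
    (mul_le_mul_of_nonneg_left hsum (by positivity))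
    (mul_nonneg (by positivity) (Finset.sum_nonneg fun v _ => PE_ind_nonneg hP _)) (by positivity))
  have e : ((κ + 1) / l ^ 2) ^ 2 / (p / 2 * ((1 - p) / 2)) * (2 * d * ((A + B) *
      Real.exp (2 * c₁) / l ^ 2 * (M * ((L : ℝ) ^ (d - 1) * l)))) =
      K * ((L : ℝ) ^ (d - 1) / l ^ 5) := by
    rw [hK]; field_simp
  rw [e] at hB1
  have hY : 0 ≤ (L : ℝ) ^ (d - 1) / l ^ 5 := by positivity
  have h2 := mul_nonneg hC0 hY
  nlinarith

end Pool.Agent.TPC
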