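import Pool.Agent.Lib.TPC.BlueF2

/-! Block LIN: a cube of radius about `m l` contains a large cluster. -/

open Finset

namespace Pool.Agent.TPC

open Pool.Agent.Lib.MP_81a99a_pr (lattice torus)

namespace LIN

/-- double counting with bounded overlap -/
lemma overlap {V B : Type} (U : B → Finset V) (Ξ : ℕ)
    (h : ∀ y (S : Finset B), (∀ b ∈ S, y ∈ U b) → S.card ≤ Ξ) (A : Finset V) (J : Finset B) :
    ∑ b ∈ J, ((flt A fun y => y ∈ U b).card : ℝ) ≤ Ξ * A.card := by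
  simp only [card_flt]
  rw [sum_comm]
  have e : ∀ y ∈ A, ∑ b ∈ J, ind (y ∈ U b) ≤ (Ξ : ℝ) := by
    intro y _
    rw [← card_flt]
    exact_mod_cast h y _ fun b hb => (mem_flt.1 hb).2
  refine (sum_le_sum e).trans (le_of_eq ?_)
  rw [sum_const, nsmul_eq_mul, mul_comm]

variable {d : ℕ}

lemma tctr_zero (n m : ℕ) [NeZero m] : tctr n (0 : Tor d m) = 0 := by
  funext i
  have h : (m - 1) / m = 0 := Nat.div_eq_of_lt (by have := NeZero.pos m; omega)
  simp [tctr, h]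

lemma injOn_box {m r : ℕ} [NeZero m] (h : 2 * r < m) :
    Set.InjOn (proj m) (box (0 : Zd d) r : Set (Zd d)) := by
  intro x hx y hy e
  refine proj_inj ?_ e
  have h1 : zd 0 x ≤ r := mem_box.1 hx
  have h2 : zd 0 y ≤ r := mem_box.1 hy
  have h3 := zd_tri x 0 y
  have h4 : (2 * r : ℝ) < m := by exact_mod_cast h
  rw [zd_comm x 0] at h3
  linarith

lemma joined_mem {X : Set (Zd d)} {x y : Zd d} (h : Joined X x y) : y ∈ X := by
  obtain ⟨h0, h1⟩ := h
  induction h1 with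
  | refl => exact h0
  | tail _ h2 _ => exact h2.1

/-- from the torus to the cube -/
lemma lift {n : ℕ} [NeZero n] {q : ℝ} (q0 : 0 ≤ q) (q1 : q ≤ 1) (k : ℝ) {L : ℕ}
    (hL : 2 * L + 2 ≤ n) :
    PE univ (fun _ => q) (fun η => ind (∃ y, k ≤
      ((cl (torus d n) ((box (0 : Zd d) L).image (proj n)) η y).card : ℝ))) ≤ pIn d q k L := by
  have hI := locIso_proj (0 : Zd d) hL
  rw [PE_restrict (E' := edges (torus d n) ((box (0 : Zd d) L).image (proj n)))
    (U := (edges (torus d n) ((box (0 : Zd d) L).image (proj n)) : Set _)) (subset_univ _)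
    (fun ω ω' h => by
      have e : ∀ y, cl (torus d n) ((box (0 : Zd d) L).image (proj n)) ω y =
          cl (torus d n) ((box (0 : Zd d) L).image (proj n)) ω' y :=
        fun y => dep_cl _ _ y ω ω' h
      simp only [e]) (fun e he _ => he), hI.PE_eq]
  refine PE_mono' (Prob.const q0 q1) fun ω hω => ind_mono ?_
  rintro ⟨y, hy⟩
  by_cases h : y ∈ (box (0 : Zd d) L).image (proj n)
  · obtain ⟨x, hx, rfl⟩ := mem_image.1 h
    rw [hI.cl_image Subset.rfl hω hx] at hy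
    exact ⟨x, hy.trans (by exact_mod_cast card_image_le)⟩
  · rw [cl_of_notMem h] at hy
    exact ⟨0, hy.trans (by exact_mod_cast Nat.zero_le _)⟩

/-- the big clusters of the blocks joined to the centre lie in one cluster -/
lemma det (hG : St_GRID) (hC : St_GGC) {K : Kc} {n m : ℕ} [NeZero n] [NeZero m]
    {M : Core K (Tor d n)} {S : Sys M (Tor d m)} {l R c₁ : ℝ} (hc : 0 < c₁) (hl : 1 ≤ l)
    (hS : Grid S l R) {r L : ℕ} (hr : 4 * r < m) (hL : (4 * r + 1 + R) * l ≤ L)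
    (ω : Finset (Bit (Tor d n)))
    (h : ((box (0 : Zd d) r).card : ℝ) / 2 ≤ (flt (box (0 : Zd d) r)
      (Joined ((box (0 : Zd d) (2 * r) : Set (Zd d)) \ liftSet (badSet S c₁ ω)) 0)).card) :
    ∃ y, c₁ / (2 * K.Ξ) * (r : ℝ) ^ d * M.U ≤
      ((cl M.G ((box (0 : Zd d) L).image (proj n)) (lev 4 ω) y).card : ℝ) := by
  set X : Set (Zd d) := (box (0 : Zd d) (2 * r) : Set (Zd d)) \ liftSet (badSet S c₁ ω) with hX
  set J := flt (box (0 : Zd d) r) (Joined X 0) with hJ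
  set Z := (box (0 : Zd d) L).image (proj n) with hZ
  obtain ⟨hmn, -, h2l, -, hU2, hU1⟩ := hS
  obtain ⟨-, g2, g3⟩ := hC K _ M _ S c₁ ω
  have good : ∀ z ∈ X, S.good c₁ ω (proj m z) := fun z hz => not_not.1 hz.2
  have hcard : ((r : ℝ) ^ d) ≤ (box (0 : Zd d) r).card := by
    rw [card_box]
    push_cast
    exact pow_le_pow_left₀ (Nat.cast_nonneg r) (by linarith [(Nat.cast_nonneg r : (0 : ℝ) ≤ r)]) d
  have hne : J.Nonempty := by
    rw [← card_pos]
    have h1 : (0 : ℝ) < (box (0 : Zd d) r).card := by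
      exact_mod_cast card_pos.2 ⟨0, self_mem_box 0 r⟩
    have h2 : (0 : ℝ) < J.card := by linarith
    exact_mod_cast h2
  obtain ⟨z0, hz0⟩ := hne
  have X0 : (0 : Zd d) ∈ X := (mem_flt.1 hz0).2.1
  obtain ⟨y0, hy0⟩ := g2 _ (good 0 X0)
  have inZ : ∀ w ∈ box (0 : Zd d) (2 * r), S.U2 (proj m w) ⊆ Z := by
    intro w hw y hy
    have h1 : td (tctr n (proj m w)) y ≤ R * l := mem_tball.1 (hU2 _ hy)
    have h2 := ((hG d n m hmn).2.2.1 (proj m 0) (proj m w)).1
    have h3 : td (proj m 0) (proj m w) ≤ (2 * r : ℕ) := (td_proj_le 0 w).trans (mem_box.1 hw)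
    have h4 := mul_le_mul h2l h3 (td_nonneg _ _) (by linarith)
    have h5 := td_tri (tctr n (proj m (0 : Zd d))) (tctr n (proj m w)) y
    have e0 : tctr n (proj m (0 : Zd d)) = proj n 0 := by rw [proj_zero, proj_zero, tctr_zero]
    rw [hZ, image_proj_box, mem_tball, ← e0]
    push_cast at h4
    nlinarith
  set Rr : Tor d m → Tor d m → Prop :=
    fun u v => td u v ≤ 1 ∧ ∃ w ∈ box (0 : Zd d) (2 * r), proj m w = v with hRr
  have reach : ∀ u, Relation.ReflTransGen (fun u v => S.good c₁ ω v ∧ Rr u v) (proj m 0) u →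
      S.U2 u ⊆ Z := by
    intro u hu
    rcases hu.cases_tail with e | ⟨v, -, -, -, w, hw, e⟩
    · rw [e]
      exact inZ 0 (self_mem_box _ _)
    · rw [← e]
      exact inZ w hw
  have path : ∀ z, Joined X 0 z →
      Relation.ReflTransGen (fun u v => S.good c₁ ω v ∧ Rr u v) (proj m 0) (proj m z) := by
    rintro z ⟨-, hz⟩
    induction hz with
    | refl => exact Relation.ReflTransGen.refl
    | tail _ h2 ih =>
      exact ih.tail ⟨good _ h2.1, (td_proj_le _ _).trans (zd_adj h2.2).le, _, h2.1.1, rfl⟩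
  refine ⟨y0, ?_⟩
  set A := cl M.G Z (lev 4 ω) y0 with hA
  have each : ∀ b ∈ J.image (proj m), c₁ * M.U ≤ ((flt A fun y => y ∈ S.U2 b).card : ℝ) := by
    intro b hb
    obtain ⟨z, hz, rfl⟩ := mem_image.1 hb
    have hj : Joined X 0 z := (mem_flt.1 hz).2
    obtain ⟨y, hy⟩ := g2 _ (good z (joined_mem hj))
    have c3 := g3 Rr (fun b b' h => hU1 b b' h.1) _ _ (good 0 X0) (path z hj) Z reach y0 y hy0 hy
    have s1 : S.K2 (proj m z) ⊆ S.U2 (proj m z) := (S.lb2 _).1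
    refine le_trans hy (Nat.cast_le.2 (card_le_card fun v hv => ?_))
    have hv' : conn M.G (S.K2 (proj m z)) (lev 1 ω) y v := mem_cl.1 hv
    refine mem_flt.2 ⟨mem_cl.2 ?_, s1 hv'.right⟩
    exact (c3.mono Subset.rfl (lev_mono (by decide) Subset.rfl)).trans
      (hv'.mono (s1.trans (reach _ (path z hj))) (lev_mono (by decide) Subset.rfl))
  have s1 := (sum_le_sum each).trans (overlap S.U2 K.Ξ S.ovl A _)
  have inj : Set.InjOn (proj m) (J : Set (Zd d)) := (injOn_box (r := r) (by omega)).mono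
    fun z hz => (mem_flt.1 hz).1
  rw [sum_const, nsmul_eq_mul, card_image_of_injOn inj] at s1
  have hΞ : (0 : ℝ) < K.Ξ := by exact_mod_cast K.hΞ
  have hU : 0 < c₁ * M.U := mul_pos hc M.U_pos
  have s2 : (r : ℝ) ^ d / 2 * (c₁ * M.U) ≤ J.card * (c₁ * M.U) :=
    mul_le_mul_of_nonneg_right (by linarith) hU.le
  refine le_of_mul_le_mul_left ?_ hΞ
  refine le_trans (le_of_eq ?_) (s2.trans s1)
  field_simp

end LIN

open LIN in
theorem st_LIN (hP : St_PK2) (hQ : St_CUBE) (hG : St_GRID) (hC : St_GGC) : St_LIN := by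
  intro d p c C H
  have hd := H.hd
  obtain ⟨κ, C₀, R, c₁, lam, Cκ, θ, C₁, K, hκ, hC₀, hR, hc₁, hlam, -, -, P⟩ := hP d p c C H
  obtain ⟨φ₃, φ₄, c', C', L₀, -, -, -, -, P⟩ := P 1 one_pos
  obtain ⟨lam₀, Q⟩ := hQ d (by omega)
  have hΞ : (0 : ℝ) < K.Ξ := by exact_mod_cast K.hΞ
  refine ⟨κ, R + 6, c₁ / (2 * K.Ξ), max L₀ (max 1 (lam₀ / lam)), by linarith, by linarith,
    by positivity, fun l hl r hr => ?_⟩
  have l0 : L₀ ≤ l := (le_max_left _ _).trans hl
  have l1 : 1 ≤ l := ((le_max_left _ _).trans (le_max_right _ _)).trans hl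
  have l2 : lam₀ / lam ≤ l := ((le_max_right _ _).trans (le_max_right _ _)).trans hl
  have r1 : (1 : ℝ) ≤ r := by exact_mod_cast hr
  set L : ℕ := ⌈(4 * r + 1 + R) * l⌉₊ with hL
  have L1 : (4 * r + 1 + R) * l ≤ L := Nat.le_ceil _
  have L2 : (L : ℝ) < (4 * r + 1 + R) * l + 1 := Nat.ceil_lt_add_one (by positivity)
  refine ⟨L, by nlinarith, ?_, ?_⟩
  · have e1 : 0 ≤ (r - 1) * ((R + 2) * l) := mul_nonneg (by linarith) (by positivity)
    nlinarith
  obtain ⟨n, n1, n2, n3⟩ : ∃ n : ℕ, C₀ * l ≤ n ∧ 2 * l * (4 * r + 1) ≤ n ∧ 2 * L + 2 ≤ n := by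
    refine ⟨⌈C₀ * l⌉₊ + ⌈2 * l * (4 * r + 1)⌉₊ + (2 * L + 2), ?_, ?_, by omega⟩
    · refine (Nat.le_ceil _).trans (Nat.cast_le.2 (by omega))
    · refine (Nat.le_ceil _).trans (Nat.cast_le.2 (by omega))
  have : NeZero n := ⟨by omega⟩
  obtain ⟨m, _, M, S, q, hM, hS, hq, hp, hbad, -, -⟩ := P n l l0 n1
  have m0 : (0 : ℝ) < m := by exact_mod_cast NeZero.pos m
  have hm : 4 * r < m := by
    have h1 : (n : ℝ) ≤ 2 * l * m := by
      have := hS.2.2.1
      rwa [div_le_iff₀ m0] at this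
    have h2 : (4 * r + 1 : ℝ) ≤ m := le_of_mul_le_mul_left (n2.trans h1) (by linarith)
    exact_mod_cast h2
  have hlam₀ : lam₀ ≤ lam * l ^ (d - 6) := by
    have h1 : l ≤ l ^ (d - 6) := le_self_pow₀ l1 (by omega)
    rw [div_le_iff₀ hlam] at l2
    nlinarith
  have main := Q (Bit (Tor d n)) univ (fun b => q b.2) (prob_lev hq)
    (fun ω => liftSet (badSet S c₁ ω)) 0 r (lam * l ^ (d - 6)) hlam₀ (by
      intro T hT
      have h1 := hbad (T.image (proj m))
      rw [card_image_of_injOn ((injOn_box (r := 2 * r) (by omega)).mono hT)] at h1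
      refine le_trans (PE_ind_mono (prob_lev hq) fun ω h b hb => ?_) h1
      obtain ⟨z, hz, rfl⟩ := mem_image.1 hb
      exact h hz)
  have hU : M.U = l ^ (d - 2) := by
    rw [Core.U, hM.2.2.1, hM.2.2.2, ← pow_add]
    exact congrArg _ (by omega)
  have pm := plev_mem hq 4
  rw [← hp]
  refine le_trans ?_ (lift pm.1 pm.2 _ n3)
  rw [← PL_lev]
  refine main.trans (PE_ind_mono (prob_lev hq) fun ω h => ?_)
  have h1 := det hG hC hc₁ l1 hS hm L1 ω h
  rwa [hU, hM.1] at h1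

end Pool.Agent.TPC
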