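import Pool.Agent.Lib.TPC.BlueF2

/-! Large tori carry a grid system. -/

open Finset

namespace Pool.Agent.TPC

open Pool.Agent.Lib.MP_81a99a_pr (lattice torus)

namespace SETII

lemma rb_mono {d m n : ℕ} [NeZero n] {l R R' : ℝ} (hl : 0 ≤ l) (h : R ≤ R') (b : Tor d m) :
    rb n l R b ⊆ rb n l R' b := fun _ hy =>
  mem_tball.2 ((mem_tball.1 hy).trans (mul_le_mul_of_nonneg_right h hl))

lemma mesh {n : ℕ} {l : ℝ} (hl : 1 ≤ l) (h : l ≤ n) :
    ⌊n / l⌋₊ ≠ 0 ∧ ⌊n / l⌋₊ ≤ n ∧ l ≤ (n : ℝ) / ⌊n / l⌋₊ ∧ (n : ℝ) / ⌊n / l⌋₊ ≤ 2 * l := by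
  have l0 : 0 < l := by linarith
  have h1 : 1 ≤ n / l := (one_le_div l0).2 h
  have h2 : 1 ≤ ⌊n / l⌋₊ := Nat.le_floor (by simpa using h1)
  have h3 : (1 : ℝ) ≤ ⌊n / l⌋₊ := by exact_mod_cast h2
  have h4 : (⌊n / l⌋₊ : ℝ) ≤ n / l := Nat.floor_le (by linarith)
  have h5 : n / l < ⌊n / l⌋₊ + 1 := Nat.lt_floor_add_one _
  rw [le_div_iff₀ l0] at h4
  rw [div_lt_iff₀ l0] at h5
  refine ⟨by omega, ?_, ?_, ?_⟩
  · have : (⌊n / l⌋₊ : ℝ) ≤ n := by nlinarith
    exact_mod_cast this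
  · rw [le_div_iff₀ (by linarith)]; linarith
  · rw [div_le_iff₀ (by linarith)]; nlinarith

end SETII

open SETII in
theorem st_SETII (hC : St_SETC) (hS : St_SETS) (hK : St_SETK) (hN : St_SETN) (hL : St_SETL)
    (hR : St_REG) : St_SETII := by
  intro d p c C h
  have d7 : 7 ≤ d := by have := h.hd; omega
  obtain ⟨R1, c1, l1, r1, c10, h1⟩ := hL d p c C h 1 le_rfl
  obtain ⟨R2, c2, l2, r2, c20, h2⟩ := hL d p c C h (R1 + 3) (by linarith)
  obtain ⟨C1, Cc, α, l0, hC1, α0, hc⟩ := hC d p c C h 1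
  obtain ⟨Cc', Cs1, hs⟩ := hS d d7 R2 C1 hC1
  obtain ⟨lK, CsK, hk⟩ := hK d p c C h
  obtain ⟨CsN, hn⟩ := hN d d7 C1 hC1
  obtain ⟨Ξ, Ξ1, hr⟩ := hR d R2 (by linarith)
  let K : Kc := ⟨2 * d, Ξ, max (max Cc Cc') 1, min (min c1 c2) 1, α,
    fun η => max (max (Cs1 η) (CsK η)) (max (CsN η) 1), by omega, Ξ1, le_max_right _ _,
    lt_min (lt_min c10 c20) one_pos, min_le_right _ _, α0,
    fun η => (le_max_right _ _).trans (le_max_right _ _)⟩
  refine ⟨K, 4 * R2, R2, max (max (max l0 l1) (max l2 lK)) 1, by linarith, by linarith, ?_⟩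
  intro n _ l hl hn4
  simp only [max_le_iff] at hl
  obtain ⟨⟨⟨a0, a1⟩, a2, aK⟩, a1'⟩ := hl
  have l0' : 0 < l := by linarith
  have ln : 16 * l ≤ n := by nlinarith
  have n3 : 3 ≤ n := by
    have : (3 : ℝ) ≤ n := by linarith
    exact_mod_cast this
  obtain ⟨m0, mn, lm, ml⟩ := mesh a1' (show l ≤ n by linarith)
  generalize ⌊n / l⌋₊ = m at m0 mn lm ml
  have : NeZero m := ⟨m0⟩
  obtain ⟨M, hM, hG⟩ := hc K le_rfl ((le_max_left _ _).trans (le_max_left _ _)) le_rfl n l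
    (l ^ (d - 6)) n3 a0 (one_le_pow₀ a1') (Or.inr (by linarith))
  obtain ⟨g1, g2, g3, g4⟩ := hM
  obtain ⟨b1, b2, b3, b4, b5, b6, ⟨col, b7⟩, b8⟩ := hr n m l a1' mn lm ml
  have eV : M.Vol = l ^ d := by
    unfold Core.Vol; rw [g3, g4, ← pow_add]; congr 1; omega
  have ef : M.f0 = l ^ 2 / l ^ d := by
    rw [← eV, eq_div_iff M.Vol_pos.ne', M.f0_mul_Vol, g3]
  have et : ∀ D x y, M.tb D x y = tt (p - 1 / l ^ 2) D x y := fun D x y => by
    unfold Core.tb tt; rw [g1, g2]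
  have f0 : 0 ≤ l ^ 2 / l ^ d := by positivity
  refine ⟨m, this, M,
    { blk := tblk m
      U2 := rb n l R2
      U3 := rb n l (2 * R2 + 2)
      U4 := rb n l (3 * R2 + 4)
      mem2 := fun y _ => rb_mono l0'.le (by linarith) _ (b1 y)
      s234 := fun b y _ hy => b2 b y hy
      ovl := b3
      sm := fun b => hs K ((le_max_right _ _).trans (le_max_left _ _))
        (fun η => (le_max_left _ _).trans (le_max_left _ _)) n M _ hG
        (Or.inr ⟨by rw [g3]; linarith, by rw [g3, g4], tctr n b, by rw [g3]; exact subset_rfl⟩)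
      kd := ?_
      K0 := rb n l 1
      U1 := rb n l R1
      K2 := rb n l (R1 + 3)
      nb := fun b => tball b (3 * R2 + 7)
      col := col
      lb1 := fun b => ⟨rb_mono l0'.le r1 b, fun x hx y hy => ?_⟩
      in0 := fun b => ?_
      s12 := fun b => rb_mono l0'.le (by linarith) b
      lb2 := fun b => ⟨rb_mono l0'.le r2 b, fun x hx y hy => ?_⟩
      memK := fun y => rb_mono l0'.le (by linarith) _ (b1 y)
      nb4 := b4
      nbc := b5
      nbc' := b6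
      colD := b7 }, ⟨g1, g2, g3, g4⟩, mn, lm, ml, fun _ => rfl, fun _ => subset_rfl,
    fun b b' hb => b8 R1 b b' hb⟩
  · intro η ρ hη hρ F _ hF z
    simp only [et, g3]
    refine (hk n m l n3 aK mn lm η ρ hη hρ F (fun b => eV ▸ hF b) z).trans ?_
    exact mul_le_mul_of_nonneg_left (add_le_add_right (mul_le_mul_of_nonneg_right
      ((le_max_right _ _).trans (le_max_left _ _)) hρ) _) (by positivity)
  · rw [et, ef]
    exact (mul_le_mul_of_nonneg_right ((min_le_left _ _).trans (min_le_left _ _)) f0).trans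
      (h1 n l a1 (by nlinarith) _ x hx y hy)
  · have := hn K (fun η => (le_max_left _ _).trans (le_max_right _ _)) n M g1 hG
      (by rw [g3]; linarith) (by rw [g3, g4]) (tctr n b)
    rw [g3, ← one_mul l] at this
    exact this
  · rw [et, ef]
    exact (mul_le_mul_of_nonneg_right ((min_le_left _ _).trans (min_le_right _ _)) f0).trans
      (h2 n l a2 hn4 _ x hx y hy)

end Pool.Agent.TPC
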