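import Pool.Agent.Lib.TPC.BlueF2

/-! Block SETK: sets that are sparse in every block carry little two-point mass. -/

open Finset

namespace Pool.Agent.TPC

namespace SETK

variable {d n m : ℕ} [NeZero n] [NeZero m]

/-- close points lie in close blocks -/
lemma blk_near (hG : St_GRID) (hm : m ≤ n) {l Γ : ℝ} (hl : 1 ≤ l) (hΓ : 0 ≤ Γ)
    (hn : l ≤ (n : ℝ) / m) {z y : Tor d n} (h : td z y ≤ Γ * l) :
    td (tblk m z) (tblk m y) ≤ Γ + 3 := by
  obtain ⟨g1, -, g3, -⟩ := hG d n m hm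
  have h1 := (g3 (tblk m z) (tblk m y)).2
  have h2 := td_tri (tctr n (tblk m z)) z (tctr n (tblk m y))
  have h3 := td_tri z y (tctr n (tblk m y))
  have h4 := g1 z
  have h5 := g1 y
  rw [td_comm] at h5
  have h6 : Γ * l ≤ Γ * ((n : ℝ) / m) := mul_le_mul_of_nonneg_left hn hΓ
  have h7 : (n : ℝ) / m * td (tblk m z) (tblk m y) ≤ (n : ℝ) / m * (Γ + 3) := by linarith
  exact le_of_mul_le_mul_left h7 (by linarith)

/-- counting the points of a sparse set close to `z` -/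
lemma card_near (hG : St_GRID) (hm : m ≤ n) {l Γ w : ℝ} (hl : 1 ≤ l) (hΓ : 0 ≤ Γ) (hw : 0 ≤ w)
    (hn : l ≤ (n : ℝ) / m) (F : Finset (Tor d n))
    (hF : ∀ b : Tor d m, ((flt F fun y => tblk m y = b).card : ℝ) ≤ w) (z : Tor d n) :
    ((flt F fun y => td z y ≤ Γ * l).card : ℝ) ≤ (2 * (Γ + 3) + 1) ^ d * w := by
  set A := flt F fun y => td z y ≤ Γ * l with hA
  have h1 : A.card = ∑ b ∈ A.image (tblk m), (A.filter fun y => tblk m y = b).card :=
    Finset.card_eq_sum_card_image _ _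
  have h2 : ((A.image (tblk m)).card : ℝ) ≤ (2 * (Γ + 3) + 1) ^ d :=
    (met_td d m).ball (tblk m z) _ _ (by linarith) fun b hb => by
      obtain ⟨y, hy, rfl⟩ := mem_image.1 hb
      exact blk_near hG hm hl hΓ hn (mem_flt.1 hy).2
  have h3 : ∀ b ∈ A.image (tblk m), ((A.filter fun y => tblk m y = b).card : ℝ) ≤ w :=
    fun b _ => le_trans (Nat.cast_le.2 (card_le_card fun y hy =>
      mem_flt.2 ⟨(mem_flt.1 (mem_filter.1 hy).1).1, (mem_filter.1 hy).2⟩)) (hF b)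
  rw [h1, Nat.cast_sum]
  calc _ ≤ ∑ _b ∈ A.image (tblk m), w := Finset.sum_le_sum h3
    _ = (A.image (tblk m)).card * w := by simp
    _ ≤ _ := mul_le_mul_of_nonneg_right h2 hw

end SETK

open SETK in
theorem st_SETK (h1 : St_T1) (h2 : St_TK2) (hG : St_GRID) : St_SETK := by
  intro d p c C hz
  obtain ⟨C₁, c₁, l₁, hC, hc, H1⟩ := h1 d p c C hz
  obtain ⟨Cs, hCs, H2⟩ := h2 d (by have := hz.hd; omega) 0
  refine ⟨max l₁ 1, fun η => C₁ * Cs (η / (2 * C₁)) *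
    (2 * (max 0 (Real.log (2 * C₁ / η) / c₁) + 3) + 1) ^ d, ?_⟩
  intro n m _ _ l hn hl hm hlm η ρ hη hρ F hF z
  have hl1 : 1 ≤ l := (le_max_right _ _).trans hl
  have hl0 : 0 < l := by linarith
  have hln : l ≤ n := hlm.trans (div_le_self (Nat.cast_nonneg _)
    (by exact_mod_cast Nat.one_le_iff_ne_zero.2 (NeZero.ne m)))
  obtain ⟨t1, -, -, t4⟩ := H1 n hn l ((le_max_left _ _).trans hl) z
  set Γ := max 0 (Real.log (2 * C₁ / η) / c₁) with hΓ
  have hΓ0 : 0 ≤ Γ := le_max_left _ _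
  have hw : 0 ≤ ρ * l ^ d := by positivity
  have hcard := card_near hG hm hl1 hΓ0 hw hlm F hF z
  set A := flt F fun y => td z y ≤ Γ * l with hA
  have hAF : A ⊆ F := fun y hy => (mem_flt.1 hy).1
  have hfar := t4 (Γ * l) (F \ A) (by positivity) fun y hy => by
    obtain ⟨a, b⟩ := mem_sdiff.1 hy
    exact (not_le.1 fun h => b (mem_flt.2 ⟨a, h⟩)).le
  have hexp : Real.exp (-(c₁ * (Γ * l) / l)) ≤ η / (2 * C₁) := by
    have e1 : c₁ * (Γ * l) / l = c₁ * Γ := by field_simp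
    have e2 : Real.log (2 * C₁ / η) ≤ c₁ * Γ := by
      have := le_max_right 0 (Real.log (2 * C₁ / η) / c₁)
      rw [← hΓ, div_le_iff₀ hc] at this
      linarith
    rw [e1]
    calc _ ≤ Real.exp (-Real.log (2 * C₁ / η)) := Real.exp_le_exp.2 (by linarith)
      _ = _ := by rw [Real.exp_neg, Real.exp_log (by positivity), inv_div]
  have hfar' : ∑ y ∈ F \ A, tt (p - 1 / l ^ 2) univ z y ≤ l ^ 2 * (η / 2) := by
    refine hfar.trans ?_
    calc _ ≤ C₁ * l ^ 2 * (η / (2 * C₁)) := by gcongr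
      _ = _ := by field_simp
  have hnear := (H2 n l (l ^ 2 / l ^ d) ∅ hl1 (Or.inr ⟨hln, rfl, z, empty_subset _⟩)
    (η / (2 * C₁)) (by positivity)).1 z A
  have hs : ∑ y ∈ A, tt (p - 1 / l ^ 2) univ z y ≤ C₁ * ∑ y ∈ A, tg l z y := by
    rw [Finset.mul_sum]; exact Finset.sum_le_sum fun y _ => t1 y
  have hCs0 : 0 < Cs (η / (2 * C₁)) := by linarith [hCs (η / (2 * C₁))]
  have hnear' : ∑ y ∈ A, tg l z y ≤ η / (2 * C₁) * l ^ 2 +
      Cs (η / (2 * C₁)) * (l ^ 2 / l ^ d) * ((2 * (Γ + 3) + 1) ^ d * (ρ * l ^ d)) := by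
    refine hnear.trans ?_
    gcongr
  rw [← Finset.sum_sdiff hAF]
  have e : C₁ * (η / (2 * C₁) * l ^ 2 +
      Cs (η / (2 * C₁)) * (l ^ 2 / l ^ d) * ((2 * (Γ + 3) + 1) ^ d * (ρ * l ^ d))) =
      l ^ 2 * (η / 2) + l ^ 2 * (C₁ * Cs (η / (2 * C₁)) * (2 * (Γ + 3) + 1) ^ d * ρ) := by
    field_simp
  have := mul_le_mul_of_nonneg_left hnear' hC.le
  rw [e] at this
  linarith

end Pool.Agent.TPC
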