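import Pool.Agent.Lib.TPC.BlueZ

/-! Upper bounds on the torus below the critical point. -/

open Finset

namespace Pool.Agent.TPC

open Pool.Agent.Lib.MP_81a99a_pr (lattice torus cluster kthLargest pc MeanField)

namespace T1

lemma lift (hC : St_COVER) {d n : ℕ} [NeZero n] (hn : 3 ≤ n) {q : ℝ} (h0 : 0 ≤ q) (h1 : q ≤ 1)
    (x : Zd d) (S : Finset (Tor d n)) :
    ∑ y ∈ S, tt q univ (proj n x) y ≤
      ∑ v ∈ flt (box x (n ^ d)) (fun v => proj n v ∈ S), tz q (box x (n ^ d)) x v := by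
  have e1 : ∑ y ∈ S, tt q univ (proj n x) y =
      EC (torus d n) (fun _ => q) univ (proj n x) (fun A => ∑ y ∈ A, ind (y ∈ S)) := by
    rw [EC_sum]
    have : S = flt univ (· ∈ S) := by ext y; simp
    conv_lhs => rw [this, sum_flt]
    exact Finset.sum_congr rfl fun y _ => mul_comm _ _
  have e2 : ∑ v ∈ flt (box x (n ^ d)) (fun v => proj n v ∈ S), tz q (box x (n ^ d)) x v =
      ez q (box x (n ^ d)) x (fun A => ∑ v ∈ A, ind (proj n v ∈ S)) := by
    rw [ez, EC_sum, sum_flt]
    exact Finset.sum_congr rfl fun y _ => mul_comm _ _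
  rw [e1, e2]
  refine (hC d n hn q h0 h1 x _ fun A B hAB => ?_).trans (EC_mono (Prob.const h0 h1) fun A _ => ?_)
  · exact Finset.sum_le_sum_of_subset_of_nonneg hAB fun _ _ _ => ind_nonneg _
  · exact Finset.sum_image_le_of_nonneg (f := fun y => ind (y ∈ S)) fun _ _ => ind_nonneg _

end T1

theorem st_T1 (hC : St_COVER) (hG : St_TG0) (h1 : St_Z1) (h2 : St_Z2) (h7 : St_Z7a) (h4 : St_S4) :
    St_T1 := by
  intro d p c C H
  have hd : (9 : ℝ) ≤ d := by exact_mod_cast H.hd
  obtain ⟨A1, a1, k1⟩ := h1 d p c C H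
  obtain ⟨A2, a2, k2⟩ := h2 d p c C H
  obtain ⟨A7, c7, l7, a7, b7, k7⟩ := h7 d p c C H
  obtain ⟨AG, aG, kG⟩ := hG d c7 (by have := H.hd; omega) b7
  obtain ⟨A4, a4, k4⟩ := h4 d (d - 2) c7 (by linarith) (by linarith) b7
  have p0 := H.p0
  have p1 := H.p1
  refine ⟨A1 + A2 + A7 * AG + A7 * A4, c7 / 2, max l7 (max 1 (1 / p)), by positivity,
    by positivity, fun n _ hn l hl x => ?_⟩
  have hl7 : l7 ≤ l := (le_max_left _ _).trans hl
  have hl1 : 1 ≤ l := (le_max_left _ _).trans ((le_max_right _ _).trans hl)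
  have hlp : 1 / p ≤ l := (le_max_right _ _).trans ((le_max_right _ _).trans hl)
  have hl0 : 0 < l := by linarith
  have q1 : 0 < 1 / l ^ 2 := by positivity
  have q0 : 0 ≤ p - 1 / l ^ 2 := by
    rw [div_le_iff₀ p0] at hlp
    rw [sub_nonneg, div_le_iff₀ (by positivity)]
    nlinarith
  have q2 : p - 1 / l ^ 2 ≤ 1 := by linarith
  have m1 := mul_pos a7 aG
  have m2 := mul_pos a7 a4
  obtain ⟨x, rfl⟩ := proj_surj (d := d) (n := n) x
  have key : ∀ S : Finset (Tor d n), ∑ y ∈ S, tt (p - 1 / l ^ 2) univ (proj n x) y ≤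
      A7 * ∑ v ∈ flt (box x (n ^ d)) (fun v => proj n v ∈ S), ge c7 l x v := fun S => by
    refine (T1.lift hC hn q0 q2 x S).trans ?_
    rw [Finset.mul_sum]
    exact Finset.sum_le_sum fun v _ => (k7 l hl7 _ x v).trans_eq (by rw [ge, mul_assoc])
  refine ⟨fun y => ?_, ?_, fun s hs => ?_, fun r S hr hS => ?_⟩
  · have a := key {y}
    rw [Finset.sum_singleton] at a
    have b := (kG n l hl1 x y (flt (box x (n ^ d)) (fun v => proj n v ∈ ({y} : Finset _)))
      fun v hv => by simpa using (mem_flt.1 hv).2).1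
    have t : 0 ≤ tg l (proj n x) y := add_nonneg (kk_nonneg _ (td_nonneg _ _)) (by positivity)
    have b' := mul_le_mul_of_nonneg_left b a7.le
    refine a.trans (b'.trans ?_)
    rw [← mul_assoc]
    exact mul_le_mul_of_nonneg_right (by linarith) t
  · refine (T1.lift hC hn q0 q2 x univ).trans ((sum_tz_le_cz q0 q2 _).trans
      ((k1 _ q0 (by linarith) _ x).trans ?_))
    rw [sub_sub_cancel, div_div_eq_mul_div, div_one]
    exact mul_le_mul_of_nonneg_right (by linarith) (by positivity)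
  · refine (hC d n hn _ q0 q2 x _ fun A B hAB => ?_).trans
      ((EC_mono (Prob.const q0 q2) fun A _ => ?_).trans
        ((k2 _ q0 (by linarith) (box x (n ^ d)) x s hs).trans ?_))
    · exact min_le_min_right _ (Nat.cast_le.2 (card_le_card hAB))
    · exact min_le_min_right _ (Nat.cast_le.2 card_image_le)
    · exact mul_le_mul_of_nonneg_right (by linarith) (Real.sqrt_nonneg _)
  · have b := k4 _ zd (met_zd d) x (flt (box x (n ^ d)) (fun v => proj n v ∈ S)) l r hl1 hr
      fun v hv => (hS _ (mem_flt.1 hv).2).trans (td_proj_le x v)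
    have e : l ^ ((d : ℝ) - (d - 2)) = l ^ 2 := by
      rw [sub_sub_cancel, Real.rpow_two]
    have e' : c7 * r / (2 * l) = c7 / 2 * r / l := by field_simp
    rw [e, e'] at b
    refine (key S).trans ((mul_le_mul_of_nonneg_left b a7.le).trans ?_)
    rw [← mul_assoc, ← mul_assoc]
    gcongr
    linarith

end Pool.Agent.TPC
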