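import Pool.Agent.Lib.TPC.BlueZ

/-! Block T2C: triple convolution of the torus kernel. -/

open Finset

namespace Pool.Agent.TPC

namespace T2C

/-- abstract form of the estimate -/
theorem abs {X : Type} [Fintype X] (k k4 : X → X → ℝ) (β A2 A4 C2 E : ℝ) (x y : X) (hβ : 0 ≤ β)
    (hC2 : 0 ≤ C2) (hA2 : 0 ≤ A2) (hk : ∀ a b, 0 ≤ k a b)
    (h1 : ∀ a, ∑ b, (k a b + β) ≤ A2) (h1' : ∑ b, (k b y + β) ≤ A2)
    (h2 : ∀ a, ∑ b, k a b * k b y ≤ C2 * k4 a y) (h3 : ∑ a, k x a * k4 a y ≤ E)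
    (h4 : ∑ a, k4 a y ≤ A4) :
    ∑ a, ∑ b, (k x a + β) * (k a b + β) * (k b y + β) ≤
      C2 * E + β * (C2 * A4 + 2 * A2 ^ 2) := by
  have s1 : ∀ a, ∑ b, (k a b + β) * (k b y + β) ≤ C2 * k4 a y + 2 * β * A2 := by
    intro a
    have e : ∑ b, (k a b + β) * (k b y + β) =
        ∑ b, k a b * k b y + β * ∑ b, k a b + β * ∑ b, (k b y + β) := by
      rw [mul_sum, mul_sum, ← sum_add_distrib, ← sum_add_distrib]
      exact sum_congr rfl fun b _ => by ring
    have e1 : ∑ b, k a b ≤ A2 :=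
      (sum_le_sum fun b _ => le_add_of_nonneg_right hβ).trans (h1 a)
    have e2 := mul_le_mul_of_nonneg_left e1 hβ
    have e3 := mul_le_mul_of_nonneg_left h1' hβ
    rw [e]
    linarith [h2 a]
  calc ∑ a, ∑ b, (k x a + β) * (k a b + β) * (k b y + β)
      = ∑ a, (k x a + β) * ∑ b, (k a b + β) * (k b y + β) := by
        refine sum_congr rfl fun a _ => ?_
        rw [mul_sum]
        exact sum_congr rfl fun b _ => by ring
    _ ≤ ∑ a, (k x a + β) * (C2 * k4 a y + 2 * β * A2) :=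
        sum_le_sum fun a _ => mul_le_mul_of_nonneg_left (s1 a) (add_nonneg (hk _ _) hβ)
    _ = C2 * ∑ a, k x a * k4 a y + β * C2 * ∑ a, k4 a y + 2 * β * A2 * ∑ a, (k x a + β) := by
        rw [mul_sum, mul_sum, mul_sum, ← sum_add_distrib, ← sum_add_distrib]
        exact sum_congr rfl fun a _ => by ring
    _ ≤ C2 * E + β * C2 * A4 + 2 * β * A2 * A2 := by
        have e1 := mul_le_mul_of_nonneg_left h3 hC2
        have e2 := mul_le_mul_of_nonneg_left h4 (mul_nonneg hβ hC2)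
        have e3 := mul_le_mul_of_nonneg_left (h1 x) (by positivity : 0 ≤ 2 * β * A2)
        linarith
    _ = _ := by ring

end T2C

theorem st_T2c (h12 : St_S12) (h3 : St_S3) : St_T2c := by
  intro d C₀ ε hd hε
  have hd' : (9 : ℝ) ≤ d := by exact_mod_cast hd
  obtain ⟨C1, hC1, a1⟩ := h12 d (d - 2) (by linarith) (by linarith)
  obtain ⟨C4, hC4, a4⟩ := h12 d (d - 4) (by linarith) (by linarith)
  obtain ⟨C2, hC2, a2⟩ := h3 d (d - 2) (d - 2) (by linarith) (by linarith) (by linarith)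
    (by linarith)
  obtain ⟨C3, hC3, a3⟩ := h3 d (d - 2) (d - 4) (by linarith) (by linarith) (by linarith)
    (by linarith)
  set D : ℝ := 1 + |C₀| with hD
  have hD1 : 1 ≤ D := le_add_of_nonneg_right (abs_nonneg _)
  set P : ℝ := C2 * C3 * D ^ 4 with hP
  set Q : ℝ := C2 * (C4 * D ^ 4) + 2 * (C1 * D ^ 2 + 1) ^ 2 with hQ
  have hP0 : 0 ≤ P := by positivity
  have hQ0 : 0 ≤ Q := by positivity
  refine ⟨max 1 ((P + Q) / ε), le_max_left _ _, fun n _ l hl hn hV x y => ?_⟩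
  have hl1 : 1 ≤ l := (le_max_left _ _).trans hl
  have hn0 : (0 : ℝ) < n := by exact_mod_cast Nat.pos_of_ne_zero (NeZero.ne n)
  have hV0 : (0 : ℝ) < (n : ℝ) ^ d := by positivity
  set β : ℝ := l ^ 2 / (n : ℝ) ^ d with hβ
  have hβ0 : 0 ≤ β := by positivity
  have hr : 1 + (n : ℝ) / 2 ≤ D * l := by
    have h1 : C₀ * l ≤ |C₀| * l := mul_le_mul_of_nonneg_right (le_abs_self _) (by linarith)
    rw [hD]
    nlinarith
  have hr0 : 0 ≤ 1 + (n : ℝ) / 2 := by positivity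
  have m := met_td d n
  have k2 : kk ((d : ℝ) - 2 - d) ((n : ℝ) / 2) ≤ D ^ 2 * l ^ 2 := by
    have e : (d : ℝ) - 2 - d = -2 := by ring
    rw [e, kk_neg_two, ← mul_pow]
    exact pow_le_pow_left₀ hr0 hr 2
  have k4 : ∀ t : ℝ, 0 ≤ t → t ≤ (n : ℝ) / 2 → kk (-4) t ≤ D ^ 4 * l ^ 4 := by
    intro t h0 ht
    have e : (-4 : ℝ) = -((4 : ℕ) : ℝ) := by norm_num
    rw [e, kk_neg_nat, ← mul_pow]
    exact pow_le_pow_left₀ (by linarith) (by linarith) 4
  have s1 : ∀ a : Tor d n, ∑ b, (kk ((d : ℝ) - 2) (td a b) + β) ≤ (C1 * D ^ 2 + 1) * l ^ 2 := by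
    intro a
    have h1 := (a1 _ _ m a univ ((n : ℝ) / 2) (by positivity)).1 (by linarith)
      fun b _ => td_le_half a b
    have h2 : ∑ _b : Tor d n, β = l ^ 2 := by
      rw [sum_const, card_univ, card_Tor, nsmul_eq_mul, hβ]
      push_cast
      field_simp
    have h4 := mul_le_mul_of_nonneg_left k2 hC1.le
    rw [sum_add_distrib, h2]
    linarith
  have s4 : ∑ a : Tor d n, kk ((d : ℝ) - 4) (td a y) ≤ C4 * D ^ 4 * l ^ 4 := by
    have h1 := (a4 _ _ m y univ ((n : ℝ) / 2) (by positivity)).1 (by linarith)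
      fun b _ => td_le_half y b
    have e : (d : ℝ) - 4 - d = -4 := by ring
    rw [e] at h1
    have h4 := mul_le_mul_of_nonneg_left (k4 _ (by positivity) le_rfl) hC4.le
    simp only [td_comm _ y]
    linarith
  have e2 : min ((d : ℝ) - 2) (d - 2 + (d - 2) - d) = d - 4 := by
    rw [min_eq_right (by linarith)]
    ring
  have e3 : min ((d : ℝ) - 2) (d - 2 + (d - 4) - d) = d - 2 + -4 := by
    rw [min_eq_right (by linarith)]
    ring
  have t0 := td_nonneg x y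
  have hk0 := kk_nonneg ((d : ℝ) - 2) t0
  have s3 : ∑ a : Tor d n, kk ((d : ℝ) - 2) (td x a) * kk ((d : ℝ) - 4) (td a y) ≤
      C3 * (kk ((d : ℝ) - 2) (td x y) * (D ^ 4 * l ^ 4)) := by
    have h1 := a3 _ _ m x y univ
    rw [e3, ← kk_mul _ _ t0] at h1
    refine h1.trans (mul_le_mul_of_nonneg_left ?_ hC3.le)
    exact mul_le_mul_of_nonneg_left (k4 _ t0 (td_le_half x y)) hk0
  have key := T2C.abs (fun a b : Tor d n => kk ((d : ℝ) - 2) (td a b))
    (fun a b => kk ((d : ℝ) - 4) (td a b)) β ((C1 * D ^ 2 + 1) * l ^ 2) (C4 * D ^ 4 * l ^ 4) C2 _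
    x y hβ0 hC2.le (by positivity) (fun a b => kk_nonneg _ (td_nonneg a b)) s1
    (by simpa only [td_comm _ y] using s1 y)
    (fun a => by simpa only [e2] using a2 _ _ m a y univ) s3 s4
  have hb : β * l ^ 4 * (P + Q) ≤ ε := by
    have h1 : (P + Q) / ε * l ^ 6 ≤ (n : ℝ) ^ d :=
      (mul_le_mul_of_nonneg_right (le_max_right _ _) (by positivity)).trans hV
    rw [div_mul_eq_mul_div, div_le_iff₀ hε] at h1
    have e : β * l ^ 4 * (P + Q) = (P + Q) * l ^ 6 / (n : ℝ) ^ d := by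
      rw [hβ]
      ring
    rw [e, div_le_iff₀ hV0]
    linarith
  have hbl : 0 ≤ β * l ^ 4 := by positivity
  have hbP : β * l ^ 4 * P ≤ ε := by nlinarith
  have hbQ : β * l ^ 4 * Q ≤ ε := by nlinarith
  unfold tg
  rw [← hβ]
  refine (mul_le_mul_of_nonneg_left key hβ0).trans ?_
  have e : β * (C2 * (C3 * (kk ((d : ℝ) - 2) (td x y) * (D ^ 4 * l ^ 4))) +
      β * (C2 * (C4 * D ^ 4 * l ^ 4) + 2 * ((C1 * D ^ 2 + 1) * l ^ 2) ^ 2)) =
      β * l ^ 4 * P * kk ((d : ℝ) - 2) (td x y) + β * l ^ 4 * Q * β := by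
    rw [hP, hQ]
    ring
  rw [e, mul_add ε]
  exact add_le_add (mul_le_mul_of_nonneg_right hbP hk0) (mul_le_mul_of_nonneg_right hbQ hβ0)

end Pool.Agent.TPC
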