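import Pool.Agent.Lib.TPC.BlueF2

/-! Block UIIa: upper bound on large tori when no block is bad. -/

open Finset

namespace Pool.Agent.TPC

open Pool.Agent.Lib.MP_81a99a_pr (lattice torus)

namespace UIIa

lemma exp_le {a η : ℝ} (hη : 0 < η) (h : 1 / η ≤ a) : Real.exp (-a) ≤ η := by
  have ha : 0 < a := lt_of_lt_of_le (by positivity) h
  rw [Real.exp_neg, inv_le_comm₀ (Real.exp_pos _) hη, ← one_div]
  linarith [Real.add_one_le_exp a]

lemma second {C A c l X : ℝ} (hC : 0 < C) (hc : 0 < c) (hA : A = 2 / c) (hl : 0 < l) (hX : 0 < X)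
    (h1 : 1 ≤ A * Real.log X) :
    X * l ^ 6 * (C / l ^ 2 * Real.exp (-(c * (A * (l ^ 4 * Real.log X)) / l ^ 4))) /
      (A * (l ^ 4 * Real.log X)) ≤ C / X := by
  have e1 : c * (A * (l ^ 4 * Real.log X)) / l ^ 4 = Real.log X + Real.log X := by
    rw [hA]; field_simp; ring
  have h2 : 0 < A * Real.log X := by linarith
  have e2 : A * (l ^ 4 * Real.log X) = l ^ 4 * (A * Real.log X) := by ring
  rw [e1, e2, Real.exp_neg, Real.exp_add, Real.exp_log hX]
  generalize A * Real.log X = t at h1 h2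
  have e3 : X * l ^ 6 * (C / l ^ 2 * (X * X)⁻¹) / (l ^ 4 * t) = C / X / t := by field_simp
  rw [e3]
  exact div_le_self (by positivity) h1

end UIIa

open UIIa in
theorem st_UIIa (hU : St_UPA) (hO : St_OJ) (hG : St_GGC) (hH : St_HULL) : St_UIIa := by
  intro d hd p κ C₀ R c₁ lam Cκ θ C₁ K hC₀ hc₁ hlam hCκ hP
  obtain ⟨φ₃, φ₄, c, C, L₀, hφ₃, hφ₄, hc, hC, hP⟩ := hP 1 one_pos
  have hd2 : 2 ≤ d := by omega
  set A := 2 / c with hA
  have hA0 : 0 < A := by positivity
  refine ⟨min (lam / 2) (1 / (Cκ * A)), A, lt_min (by positivity) (by positivity), hA0,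
    fun η hη => ⟨max (max L₀ 1) (max (Real.exp (1 / A)) (max (4 / (lam * η)) (2 * C / η))),
      fun n _ l hl hn hlog => ?_⟩⟩
  simp only [max_le_iff] at hl
  obtain ⟨⟨hl0, hl1⟩, hl2, hl3, hl4⟩ := hl
  obtain ⟨m, _, M, S, q, hM, hS, hq, hp, hbad, -, hE⟩ := hP n l hl0 hn
  have hlp : 0 < l := by linarith
  have hln : l ≤ n := by nlinarith
  have hn0 : (0 : ℝ) < n := by linarith
  set V := (n : ℝ) ^ d with hV
  set N := l ^ (d - 6) with hN
  set X := V / l ^ 6 with hX
  have hV0 : 0 < V := by positivity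
  have hVX : V = X * l ^ 6 := by rw [hX]; field_simp
  have hlX : l ≤ X := by
    rw [hX, le_div_iff₀ (by positivity)]
    calc l * l ^ 6 = l ^ 7 := by ring
      _ ≤ l ^ d := pow_le_pow_right₀ hl1 (by omega)
      _ ≤ V := pow_le_pow_left₀ hlp.le hln d
  have hX0 : 0 < X := by linarith
  have hXV : X ≤ V := div_le_self hV0.le (one_le_pow₀ hl1)
  have hlN : l ≤ N := le_self_pow₀ hl1 (by omega)
  have h1 : 1 ≤ A * Real.log X := by
    have := (Real.le_log_iff_exp_le hX0).2 (hl2.trans hlX)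
    rwa [div_le_iff₀' hA0] at this
  have hl4p : 0 < l ^ 4 := by positivity
  have hk : A * sMF l V = l ^ 4 * (A * Real.log X) := by unfold sMF; rw [← hX]; ring
  have hk1 : l ^ 4 ≤ A * sMF l V := by rw [hk]; nlinarith
  have hk0 : 0 < A * sMF l V := by linarith
  have hUe : M.U = N * l ^ 4 := by unfold Core.U; rw [hM.2.2.1, hM.2.2.2]
  have hkU : Cκ * (A * sMF l V) ≤ M.U := by
    have a1 : Real.log X ≤ 1 / (Cκ * A) * N :=
      (Real.log_le_log hX0 hXV).trans (hlog.trans
        (mul_le_mul_of_nonneg_right (min_le_right _ _) (by linarith)))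
    rw [one_div_mul_eq_div, le_div_iff₀ (by positivity)] at a1
    rw [hUe, hk]
    nlinarith
  have hδ₁ : PL q (fun ω => ind ((¬ ∀ b ∈ Oset (badSet S c₁ ω), ∀ b' ∈ Oset (badSet S c₁ ω),
      ∀ y y', M.big c₁ (S.K2 b) ω y → M.big c₁ (S.K2 b') ω y' →
        conn M.G univ (lev 3 ω) y y') ∨ ∃ x, A * sMF l V ≤ ((M.cv univ 4 ω x).card : ℝ) ∧
      S.BadA 1 Cκ φ₃ φ₄ (A * sMF l V) (Oset (badSet S c₁ ω)) ω x)) ≤ η / 2 := by
    refine (PE_ind_mono (prob_lev hq) (Q := fun ω => ∃ b ∈ (univ : Finset (Tor d m)),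
      (({b} : Finset (Tor d m)) : Set (Tor d m)) ⊆ badSet S c₁ ω) fun ω h => ?_).trans ?_
    · by_contra hno
      have hg : ∀ b, S.good c₁ ω b := fun b => by
        by_contra hb
        exact hno ⟨b, mem_univ _, by rw [Finset.coe_singleton, Set.singleton_subset_iff]; exact hb⟩
      obtain ⟨a1, a2⟩ := calm_of_good hH hd2 hg
      rcases h with h | ⟨x, -, B, -, -, b1, b2 | b2⟩
      · exact h (conn_of_calm hO hG hd2 hS a1)
      · have e : (flt B fun y => 1 * M.U < (flt B fun z => S.blk z = S.blk y).card) = ∅ := by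
          refine Finset.eq_empty_of_forall_notMem fun y hy => ?_
          have c1 := (mem_flt.1 hy).2
          have c2 : ((flt B fun z => S.blk z = S.blk y).card : ℝ) ≤ B.card := by
            exact_mod_cast Finset.card_le_card (flt_subset _ _)
          linarith
        rw [e, Finset.card_empty, Nat.cast_zero] at b2
        exact absurd b2 (not_le.2 (mul_pos hφ₄ hk0))
      · have e : flt (B.image S.blk) (· ∉ Oset (badSet S c₁ ω)) = ∅ :=
          Finset.eq_empty_of_forall_notMem fun b hb => (mem_flt.1 hb).2 (a2 b)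
        rw [e, Finset.card_empty, Nat.cast_zero] at b2
        exact absurd b2 (not_le.2 (div_pos (mul_pos hφ₃ hk0) M.U_pos))
    · refine (PE_ind_exists (prob_lev hq) _ _).trans
        ((Finset.sum_le_sum fun b _ => hbad {b}).trans ?_)
      simp only [Finset.card_singleton, Nat.cast_one, mul_one]
      rw [Finset.sum_const, nsmul_eq_mul, Finset.card_univ, card_Tor]
      have a1 : ((m ^ d : ℕ) : ℝ) ≤ V := by
        rw [hV]; exact_mod_cast Nat.pow_le_pow_left hS.1 d
      have a2 : V ≤ Real.exp (lam / 2 * N) := by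
        rw [← Real.log_le_iff_le_exp hV0]
        exact hlog.trans (mul_le_mul_of_nonneg_right (min_le_left _ _) (by linarith))
      calc _ ≤ Real.exp (lam / 2 * N) * Real.exp (-(lam * N)) :=
            mul_le_mul_of_nonneg_right (a1.trans a2) (Real.exp_pos _).le
        _ = Real.exp (-(lam / 2 * N)) := by rw [← Real.exp_add]; ring_nf
        _ ≤ η / 2 := by
            refine exp_le (by positivity) ?_
            rw [div_le_iff₀ (by positivity)] at hl3 ⊢
            nlinarith [mul_le_mul_of_nonneg_left hlN (mul_pos hlam hη).le]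
  have key := hU K _ M _ S q hq (fun ω => Oset (badSet S c₁ ω)) c₁ 1 Cκ φ₃ φ₄ (A * sMF l V) _ _ hk0
    hδ₁ fun x => hE _ x hk1
  rw [hM.1, ← pTwo_eq_PL, hp, card_Tor] at key
  refine key.trans ?_
  have a1 := second hC hc hA hlp hX0 h1
  have a2 : C / X ≤ η / 2 := by
    rw [div_le_iff₀ hη] at hl4
    rw [div_le_iff₀ hX0]
    nlinarith [mul_le_mul_of_nonneg_left hlX hη.le]
  have e : ((n ^ d : ℕ) : ℝ) = X * l ^ 6 := by rw [← hVX, hV]; push_cast; rfl
  have e2 : sMF l V = l ^ 4 * Real.log X := rfl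
  rw [e, e2]
  linarith

end Pool.Agent.TPC
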