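import Pool.Agent.Lib.TPC.BlueG
import Pool.Agent.Lib.TPC.ZBasic

/-! Block Y: exponential moment of the number of big points on the torus. -/

open Finset

namespace Pool.Agent.TPC

open Pool.Agent.Lib.MP_81a99a_pr (lattice torus)

namespace Y

/-- exponential moment of a sum of local functionals with a bounded range of dependence -/
lemma exp_sum_le {ι B : Type} [DecidableEq ι] (E : Finset ι) {π : ι → ℝ} (hπ : Prob π)
    (T : Finset B) (k : ℕ) (col : B → Fin (k + 1)) (F : B → Finset ι → ℝ) (U : B → Set ι)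
    (hF : ∀ b, DepOn (F b) (U b)) (hU : ∀ a b, a ≠ b → col a = col b → Disjoint (U a) (U b))
    {M : ℝ} (hM0 : 0 ≤ M) (hM : ∀ b, PE E π (fun ω => Real.exp (F b ω)) ≤ Real.exp M) :
    PE E π (fun ω => Real.exp ((∑ b ∈ T, F b ω) / (k + 1))) ≤ Real.exp (M * T.card) := by
  classical
  have hk : (0 : ℝ) < k + 1 := by positivity
  have h1 : ∀ ω, Real.exp ((∑ b ∈ T, F b ω) / (k + 1)) ≤
      ∑ j : Fin (k + 1), 1 / ((k : ℝ) + 1) *
        ∏ b ∈ T.filter (fun b => col b = j), Real.exp (F b ω) := by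
    intro ω
    have h2 := convexOn_exp.map_sum_le (t := (univ : Finset (Fin (k + 1))))
      (w := fun _ => 1 / ((k : ℝ) + 1))
      (p := fun j => ∑ b ∈ T.filter (fun b => col b = j), F b ω)
      (fun _ _ => by positivity) (by simp; field_simp) (fun _ _ => Set.mem_univ _)
    simp only [smul_eq_mul] at h2
    rw [← Finset.mul_sum, Finset.sum_fiberwise] at h2
    simp only [Real.exp_sum] at h2
    rw [div_eq_inv_mul, ← one_div]
    exact h2
  refine (PE_mono hπ h1).trans ?_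
  rw [PE_sum]
  have h3 : ∀ j : Fin (k + 1), PE E π (fun ω => 1 / ((k : ℝ) + 1) *
      ∏ b ∈ T.filter (fun b => col b = j), Real.exp (F b ω)) ≤
      1 / ((k : ℝ) + 1) * Real.exp (M * T.card) := by
    intro j
    rw [PE_mul_left]
    refine mul_le_mul_of_nonneg_left ?_ (by positivity)
    rw [PE_prod _ (fun b ω => Real.exp (F b ω)) U (fun b _ => (hF b).comp Real.exp)
      (fun a ha b hb hab => hU a b hab
        ((Finset.mem_filter.1 ha).2.trans (Finset.mem_filter.1 hb).2.symm))]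
    refine (Finset.prod_le_prod (fun b _ => PE_nonneg hπ fun _ => (Real.exp_pos _).le)
      fun b _ => hM b).trans ?_
    rw [Finset.prod_const, ← Real.exp_nat_mul, mul_comm]
    refine Real.exp_le_exp.2 (mul_le_mul_of_nonneg_left ?_ hM0)
    exact_mod_cast Finset.card_filter_le _ _
  refine (Finset.sum_le_sum fun j _ => h3 j).trans (le_of_eq ?_)
  simp only [Finset.sum_const, Finset.card_univ, Fintype.card_fin, nsmul_eq_mul]
  push_cast
  field_simp

variable {d n : ℕ} [NeZero n]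

/-- torus form of `Lam` -/
def LamT (r : ℕ) (ω : Finset (Sym2 (Tor d n))) (y : Tor d n) : Prop :=
  (r : ℝ) ^ 4 ≤ (cl (torus d n) (tball y r) ω y).card ∨
    ∃ z ∈ cl (torus d n) (tball y r) ω y, (r : ℝ) ≤ td y z

lemma lamT_of_big {r : ℕ} {ω : Finset (Sym2 (Tor d n))} {y : Tor d n}
    (h : (r : ℝ) ^ 4 ≤ (cl (torus d n) univ ω y).card) : LamT r ω y := by
  by_cases h2 : ∃ z ∈ cl (torus d n) (tball y r) ω y, (r : ℝ) ≤ td y z
  · exact Or.inr h2
  · push Not at h2
    refine Or.inl (h.trans (Nat.cast_le.2 (Finset.card_le_card fun z hz => ?_)))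
    refine mem_cl.2 ((mem_cl.1 hz).induction (P := conn (torus d n) (tball y r) ω y)
      (conn.refl (mem_tball.2 (by rw [td_self]; positivity))) fun a b h1 hab _ _ he => ?_)
    refine h1.tail (mem_tball.2 ?_) hab he h1.right
    have h3 := h2 a (mem_cl.2 h1)
    have h4 := td_tri y a b
    have h5 := td_adj hab
    obtain ⟨k, hk⟩ := td_nat y b
    have h6 : (k : ℝ) < r + 1 := by linarith
    have h7 : k < r + 1 := by exact_mod_cast h6
    rw [hk]
    exact_mod_cast Nat.lt_succ_iff.1 h7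

lemma tball_sub {r : ℕ} {c y : Tor d n} (hy : y ∈ tball c r) :
    tball y r ⊆ tball c ((2 * r : ℕ) : ℝ) := fun z hz => by
  rw [mem_tball] at hy hz ⊢
  have := td_tri c y z
  push_cast
  linarith

/-- number of long or heavy points in the ball of radius `r` around `c` -/
noncomputable def cnt (r : ℕ) (c : Tor d n) (ω : Finset (Sym2 (Tor d n))) : ℝ :=
  (flt (tball c r) (LamT r ω)).card

lemma dep_cnt (r : ℕ) (c : Tor d n) :
    DepOn (cnt r c) (edges (torus d n) (tball c ((2 * r : ℕ) : ℝ)) : Set (Sym2 (Tor d n))) := by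
  intro ω ω' h
  unfold cnt
  congr 2
  ext y
  simp only [mem_flt]
  refine and_congr_right fun hy => ?_
  have := ((dep_cl (torus d n) (tball y r) y).mono
    (Finset.coe_subset.2 (edges_mono (tball_sub hy)))) ω ω' h
  simp only at this
  unfold LamT
  rw [this]

lemma cnt_le {r : ℕ} (hn : 2 * (2 * r) + 2 ≤ n) (x : Zd d) {ω : Finset (Sym2 (Zd d))}
    (hω : ω ⊆ edges (lattice d) (box x (2 * r))) :
    cnt r (proj n x) (ω.image (Sym2.map (proj n))) ≤ (flt (box x r) (Lam r ω)).card := by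
  unfold cnt
  refine Nat.cast_le.2 (le_trans (Finset.card_le_card fun w hw => ?_)
    (Finset.card_image_le (f := proj n)))
  obtain ⟨h1, h2⟩ := mem_flt.1 hw
  rw [← image_proj_box] at h1
  obtain ⟨y, hy, rfl⟩ := Finset.mem_image.1 h1
  refine Finset.mem_image_of_mem _ (mem_flt.2 ⟨hy, ?_⟩)
  have hs : box y r ⊆ box x (2 * r) := box_subset (by
    have := mem_box.1 hy
    push_cast
    linarith)
  have e := (locIso_proj x hn).cl_image hs hω (hs (self_mem_box y r))
  rw [image_proj_box] at e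
  unfold LamT at h2
  rw [e] at h2
  rcases h2 with h2 | ⟨z, hz, h2⟩
  · exact Or.inl (h2.trans (Nat.cast_le.2 Finset.card_image_le))
  · obtain ⟨u, hu, rfl⟩ := Finset.mem_image.1 hz
    exact Or.inr ⟨u, hu, h2.trans (td_proj_le y u)⟩

lemma local_le {r : ℕ} (hn : 2 * (2 * r) + 2 ≤ n) {q θ M : ℝ} (h0 : 0 ≤ q) (h1 : q ≤ 1)
    (hθ : 0 ≤ θ)
    (h : ∀ x : Zd d, PE (edges (lattice d) (box x (2 * r))) (fun _ => q) (fun ω =>
      Real.exp (θ * (flt (box x r) (Lam r ω)).card / (r : ℝ) ^ 4)) ≤ M) (c : Tor d n) :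
    PE univ (fun _ => q) (fun ω => Real.exp (θ * cnt r c ω / (r : ℝ) ^ 4)) ≤ M := by
  obtain ⟨x, rfl⟩ := proj_surj c
  rw [PE_restrict (Finset.subset_univ _)
    ((dep_cnt r (proj n x)).comp fun t => Real.exp (θ * t / (r : ℝ) ^ 4)) (fun _ he _ => he),
    ← image_proj_box, (locIso_proj x hn).PE_eq]
  refine le_trans (PE_mono' (Prob.const h0 h1) fun ω hω => ?_) (h x)
  exact Real.exp_le_exp.2 (div_le_div_of_nonneg_right
    (mul_le_mul_of_nonneg_left (cnt_le hn x hω) hθ) (by positivity))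

/-- a grid of mesh comparable to `r` -/
lemma grid (hG : St_GRID) {r : ℕ} (hr : 1 ≤ r) (hn : r ≤ n) :
    ∃ (m : ℕ) (_ : NeZero m), (∀ y : Tor d n, td (tctr n (tblk m y)) y ≤ r) ∧
      ∀ b b' : Tor d m, (r : ℝ) / 2 * td b b' ≤ td (tctr n b) (tctr n b') + 1 := by
  have hr0 : (0 : ℝ) < r := by exact_mod_cast hr
  have hn0 : (r : ℝ) ≤ n := by exact_mod_cast hn
  have hm1 : (n : ℝ) / r ≤ ⌈(n : ℝ) / r⌉₊ := Nat.le_ceil _
  have hm2 : (⌈(n : ℝ) / r⌉₊ : ℝ) < (n : ℝ) / r + 1 := Nat.ceil_lt_add_one (by positivity)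
  have hq : 1 ≤ (n : ℝ) / r := by rw [le_div_iff₀ hr0]; linarith
  have hm0 : (0 : ℝ) < ⌈(n : ℝ) / r⌉₊ := by linarith
  have hmn : ⌈(n : ℝ) / r⌉₊ ≤ n := Nat.ceil_le.2 (div_le_self (by positivity) (by exact_mod_cast hr))
  set m := ⌈(n : ℝ) / r⌉₊
  have : NeZero m := ⟨by
    intro h
    rw [h] at hm0
    simp at hm0⟩
  obtain ⟨g1, -, g3, -⟩ := hG d n m hmn
  refine ⟨m, this, fun y => (g1 y).trans ?_, fun b b' => le_trans ?_ (g3 b b').2⟩
  · rw [div_le_iff₀ hm0]
    rw [div_le_iff₀ hr0] at hm1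
    linarith
  · refine mul_le_mul_of_nonneg_right ?_ (td_nonneg _ _)
    rw [div_le_div_iff₀ (by norm_num) hm0]
    have h3 : (m : ℝ) ≤ 2 * ((n : ℝ) / r) := by linarith
    have h4 : (r : ℝ) * (2 * ((n : ℝ) / r)) = n * 2 := by field_simp
    rw [← h4]
    exact mul_le_mul_of_nonneg_left h3 hr0.le

end Y

open Y in
theorem st_Y (hb : St_Yb) (hG : St_GRID) (hc : St_COL) : St_Y := by
  classical
  intro d p c C hZ κ R
  obtain ⟨κ₀, θ₀, C₁, hκ₀, hθ₀, hb⟩ := hb d p c C hZ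
  have hκ1 : (0 : ℝ) < max κ 1 := lt_of_lt_of_le one_pos (le_max_right _ _)
  obtain ⟨a, ha0, ha1, ha2⟩ : ∃ a : ℝ, 0 < a ∧ a ≤ 1 ∧ a * max κ 1 ≤ κ₀ :=
    ⟨min 1 (κ₀ / max κ 1), lt_min one_pos (by positivity), min_le_left _ _,
      (le_div_iff₀ hκ1).1 (min_le_right _ _)⟩
  have hC : (0 : ℝ) < max C₁ 1 := lt_of_lt_of_le one_pos (le_max_right _ _)
  refine ⟨θ₀ / ((21 ^ d : ℕ) + 1), max C₁ 1 * (2 * (6 + 4 * |R| / a) + 1) ^ d, 2 / a, 6,
    by positivity, by positivity, ?_⟩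
  intro n _ l q hl hn h0 h1 hq Z P hP
  have hal : 2 ≤ a * l := by rw [div_le_iff₀ ha0] at hl; linarith
  have hl0 : 0 < l := lt_of_lt_of_le (by positivity) hl
  have hr1 : (⌊a * l⌋₊ : ℝ) ≤ a * l := Nat.floor_le (by linarith)
  have hr2 : a * l < (⌊a * l⌋₊ : ℝ) + 1 := Nat.lt_floor_add_one _
  set r := ⌊a * l⌋₊
  have hr3 : (1 : ℝ) ≤ r := by linarith
  have hr0 : (0 : ℝ) < r := by linarith
  have hr4 : 1 ≤ r := by exact_mod_cast hr3
  have hrl : (r : ℝ) ≤ l := by nlinarith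
  have hr5 : a * l ≤ 2 * r := by linarith
  have hn1 : 2 * (2 * r) + 2 ≤ n := by
    have : ((2 * (2 * r) + 2 : ℕ) : ℝ) ≤ n := by push_cast; linarith
    exact_mod_cast this
  have hq' : q ≤ p + κ₀ / (r : ℝ) ^ 2 := by
    refine hq.trans (add_le_add le_rfl ?_)
    rw [div_le_div_iff₀ (by positivity) (by positivity)]
    have e1 : (r : ℝ) ^ 2 ≤ a * l ^ 2 := by nlinarith
    calc κ * (r : ℝ) ^ 2 ≤ max κ 1 * (r : ℝ) ^ 2 :=
          mul_le_mul_of_nonneg_right (le_max_left _ _) (by positivity)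
      _ ≤ max κ 1 * (a * l ^ 2) := mul_le_mul_of_nonneg_left e1 hκ1.le
      _ = a * max κ 1 * l ^ 2 := by ring
      _ ≤ κ₀ * l ^ 2 := mul_le_mul_of_nonneg_right ha2 (by positivity)
  have hloc : ∀ x : Tor d n, PE univ (fun _ => q)
      (fun ω => Real.exp (θ₀ * cnt r x ω / (r : ℝ) ^ 4)) ≤ Real.exp (max C₁ 1 * l ^ (d - 6)) := by
    refine local_le hn1 h0 h1 hθ₀.le fun x => (hb r hr4 q h0 h1 hq' x).trans ?_
    refine Real.exp_le_exp.2 ?_
    exact (mul_le_mul_of_nonneg_right (le_max_left _ 1) (by positivity)).trans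
      (mul_le_mul_of_nonneg_left (pow_le_pow_left₀ hr0.le hrl _) hC.le)
  obtain ⟨m, _, g1, g2⟩ := grid (d := d) (n := n) hG hr4 (by omega)
  obtain ⟨col, hcol⟩ := hc (Tor d m) (fun b b' => td (tctr n b) (tctr n b') ≤ 4 * r) (21 ^ d)
    (fun b b' h => by rwa [td_comm]) (fun b S hS => by
      have h2 := (met_td d m).ball b 10 S (by norm_num) fun b' hb' => by
        have h3 := g2 b b'
        have h4 := hS b' hb'
        by_contra h5
        push Not at h5
        nlinarith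
      have h3 : (S.card : ℝ) ≤ ((21 ^ d : ℕ) : ℝ) := by
        push_cast
        exact h2.trans (le_of_eq (by norm_num))
      exact_mod_cast h3)
  have main := exp_sum_le univ (Prob.const h0 h1) (P.image (tblk m)) (21 ^ d) col
    (fun b ω => θ₀ * cnt r (tctr n b) ω / (r : ℝ) ^ 4)
    (fun b => (edges (torus d n) (tball (tctr n b) ((2 * r : ℕ) : ℝ)) : Set (Sym2 (Tor d n))))
    (fun b => (dep_cnt r (tctr n b)).comp fun t => θ₀ * t / (r : ℝ) ^ 4)
    (fun b b' hne he => by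
      refine Finset.disjoint_coe.2 (edges_disjoint (Finset.disjoint_left.2 fun z hz hz' => ?_))
      refine hcol b b' hne ?_ he
      rw [mem_tball] at hz hz'
      have h3 := td_tri (tctr n b) z (tctr n b')
      rw [td_comm z] at h3
      push_cast at hz hz'
      linarith)
    (M := max C₁ 1 * l ^ (d - 6)) (by positivity) (fun b => hloc _)
  have hT : ((P.image (tblk m)).card : ℝ) ≤ (2 * (6 + 4 * |R| / a) + 1) ^ d * Z.card := by
    have hs : P.image (tblk m) ⊆ Z.biUnion fun z => tball (tblk m z) (6 + 4 * |R| / a) := by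
      intro b hb
      obtain ⟨y, hy, rfl⟩ := Finset.mem_image.1 hb
      obtain ⟨z, hz, hzy⟩ := hP y hy
      refine Finset.mem_biUnion.2 ⟨z, hz, mem_tball.2 ?_⟩
      have h3 := g2 (tblk m z) (tblk m y)
      have h4 := td_tri (tctr n (tblk m z)) z (tctr n (tblk m y))
      have h5 := td_tri z y (tctr n (tblk m y))
      rw [td_comm y] at h5
      have h6 := g1 z
      have h7 := g1 y
      have h8 : R * l ≤ (r : ℝ) / 2 * (4 * |R| / a) := by
        have e1 : l ≤ 2 * r / a := by rw [le_div_iff₀ ha0]; linarith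
        calc R * l ≤ |R| * l := mul_le_mul_of_nonneg_right (le_abs_self R) hl0.le
          _ ≤ |R| * (2 * r / a) := mul_le_mul_of_nonneg_left e1 (abs_nonneg R)
          _ = (r : ℝ) / 2 * (4 * |R| / a) := by ring
      refine le_of_mul_le_mul_left (a := (r : ℝ) / 2) ?_ (by positivity)
      linarith
    calc ((P.image (tblk m)).card : ℝ)
        ≤ ((∑ z ∈ Z, (tball (tblk m z) (6 + 4 * |R| / a)).card : ℕ) : ℝ) :=
          Nat.cast_le.2 ((Finset.card_le_card hs).trans Finset.card_biUnion_le)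
      _ = ∑ z ∈ Z, ((tball (tblk m z) (6 + 4 * |R| / a)).card : ℝ) := Nat.cast_sum _ _
      _ ≤ ∑ _z ∈ Z, (2 * (6 + 4 * |R| / a) + 1) ^ d := Finset.sum_le_sum fun z _ =>
          (met_td d m).ball _ _ _ (by positivity) fun _ h => mem_tball.1 h
      _ = _ := by rw [Finset.sum_const, nsmul_eq_mul, mul_comm]
  refine le_trans (PE_mono (Prob.const h0 h1) fun ω => ?_) (main.trans (Real.exp_le_exp.2 ?_))
  · refine Real.exp_le_exp.2 ?_
    have hs : (flt P fun y => l ^ 4 ≤ ((cl (torus d n) univ ω y).card : ℝ)) ⊆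
        (P.image (tblk m)).biUnion fun b => flt (tball (tctr n b) r) (LamT r ω) := by
      intro y hy
      obtain ⟨h2, h3⟩ := mem_flt.1 hy
      exact Finset.mem_biUnion.2 ⟨_, Finset.mem_image_of_mem _ h2, mem_flt.2
        ⟨mem_tball.2 (g1 y), lamT_of_big ((pow_le_pow_left₀ hr0.le hrl 4).trans h3)⟩⟩
    have h2 : ((flt P fun y => l ^ 4 ≤ ((cl (torus d n) univ ω y).card : ℝ)).card : ℝ) ≤
        ∑ b ∈ P.image (tblk m), cnt r (tctr n b) ω := by
      unfold cnt
      rw [← Nat.cast_sum]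
      exact Nat.cast_le.2 ((Finset.card_le_card hs).trans Finset.card_biUnion_le)
    rw [← Finset.sum_div, ← Finset.mul_sum]
    have h3 : (r : ℝ) ^ 4 ≤ l ^ 4 := pow_le_pow_left₀ hr0.le hrl 4
    calc θ₀ / ((21 ^ d : ℕ) + 1) *
          ((flt P fun y => l ^ 4 ≤ ((cl (torus d n) univ ω y).card : ℝ)).card : ℝ) / l ^ 4
        ≤ θ₀ / ((21 ^ d : ℕ) + 1) * (∑ b ∈ P.image (tblk m), cnt r (tctr n b) ω) / (r : ℝ) ^ 4 :=
          div_le_div₀ (mul_nonneg (by positivity) ((Nat.cast_nonneg _).trans h2))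
            (mul_le_mul_of_nonneg_left h2 (by positivity)) (by positivity) h3
      _ = _ := by ring
  · calc max C₁ 1 * l ^ (d - 6) * ((P.image (tblk m)).card : ℝ)
        ≤ max C₁ 1 * l ^ (d - 6) * ((2 * (6 + 4 * |R| / a) + 1) ^ d * Z.card) :=
          mul_le_mul_of_nonneg_left hT (by positivity)
      _ = _ := by ring

end Pool.Agent.TPC
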