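import Pool.Agent.Lib.TPC.BlueI

/-! Blueprint G: coarse geometry, torus kernels, big points, droplet lower bound. -/

open Finset

namespace Pool.Agent.TPC

open Pool.Agent.Lib.MP_81a99a_pr (lattice torus)

/-- a cutset contains a star-connected cutset -/
def St_CUT : Prop := ∀ d : ℕ, 2 ≤ d → ∀ (Bad : Set (Zd d)) (b b' : Zd d), b ∉ Bad → b' ∉ Bad →
  ¬ Joined Badᶜ b b' → ∃ Γ : Set (Zd d), Γ ⊆ Bad ∧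
    (∀ x ∈ Γ, ∀ y ∈ Γ, Relation.ReflTransGen (fun u v => u ∈ Γ ∧ v ∈ Γ ∧ zd u v ≤ 1) x y) ∧
    ¬ Joined Γᶜ b b'

/-- Loomis-Whitney -/
def St_LW : Prop := ∀ (d : ℕ) (S : Finset (Zd d)) (t : ℕ),
  (∀ i, (S.image fun x => Function.update x i 0).card ≤ t) → 2 ≤ d → S.card ^ (d - 1) ≤ t ^ d

/-- hulls of finite sets -/
def St_HULL : Prop := ∀ d : ℕ, 2 ≤ d → ∀ Γ : Finset (Zd d),
  (∀ b b', ¬ InHull Γ b → ¬ InHull Γ b' → Joined (Γ : Set (Zd d))ᶜ b b') ∧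
  (∀ P : Finset (Zd d), (∀ x ∈ P, InHull Γ x) →
    (P.card : ℝ) ≤ (Γ.card : ℝ) ^ ((d : ℝ) / (d - 1))) ∧
  (StarConn Γ → ∀ x, InHull Γ x → ∃ γ ∈ Γ, zd x γ ≤ Γ.card) ∧
  (∀ Γ' : Finset (Zd d), Γ ⊆ Γ' → ∀ x, InHull Γ x → InHull Γ' x) ∧
  ∀ x v, InHull Γ x → InHull (Γ.image (· + v)) (x + v)

/-- covering walk of a connected set -/
def St_WALK : Prop := ∀ (V : Type) [DecidableEq V] (R : V → V → Prop), (∀ a b, R a b → R b a) →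
  ∀ (A : Finset V) (x : V), x ∈ A →
    (∀ y ∈ A, Relation.ReflTransGen (fun a b => a ∈ A ∧ b ∈ A ∧ R a b) x y) →
    (∃ f : ℕ → V, f 0 = x ∧ (∀ i, f (i + 1) = f i ∨ R (f i) (f (i + 1))) ∧
      ∀ y ∈ A, ∃ i ≤ 2 * A.card, f i = y) ∧
    ∀ t : ℕ, 1 ≤ t → t ≤ A.card → ∃ A' : Finset V, A' ⊆ A ∧ x ∈ A' ∧ A'.card = t ∧
      ∀ y ∈ A', Relation.ReflTransGen (fun a b => a ∈ A' ∧ b ∈ A' ∧ R a b) x y

/-- counting subsets of lazy walks -/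
def St_SEQ : Prop := ∀ d : ℕ, ∃ C : ℝ, 1 ≤ C ∧ ∀ (x₀ : Zd d) (L s : ℕ), 1 ≤ s →
  ∃ F : Finset (Finset (Zd d)), (F.card : ℝ) ≤ (C * (1 + L / s)) ^ (d * s) ∧
    ∀ f : ℕ → Zd d, Lazy f → f 0 = x₀ → ∀ P : Finset (Zd d), P.card = s →
      (∀ y ∈ P, ∃ i ≤ L, f i = y) → P ∈ F

/-- counting lattice animals -/
def St_ANI : Prop := ∀ d : ℕ, ∃ C : ℝ, 1 ≤ C ∧ ∀ (x₀ : Zd d) (t : ℕ),
  ∃ F : Finset (Finset (Zd d)), (F.card : ℝ) ≤ C ^ t ∧ (∀ Γ ∈ F, Γ.card = t ∧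
    ∀ y ∈ Γ, zd x₀ y ≤ t) ∧ ∀ Γ : Finset (Zd d), StarConn Γ → x₀ ∈ Γ → Γ.card = t → Γ ∈ F

/-- many points of a walk inside bad droplets -/
def St_DROP : Prop := ∀ d : ℕ, 2 ≤ d → ∃ c lam₀ C : ℝ, 0 < c ∧
  ∀ (ι : Type) [DecidableEq ι] (E : Finset ι) (π : ι → ℝ), Prob π →
  ∀ (Bad : Finset ι → Set (Zd d)) (x₀ : Zd d) (L s₀ : ℕ) (w lam B : ℝ), lam₀ ≤ lam → 1 ≤ w →
    1 ≤ B → (L : ℝ) ≤ B * w → Real.log B ≤ c * lam →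
    (∀ T : Finset (Zd d), (∀ t ∈ T, zd x₀ t ≤ L + 2 * s₀) →
      PE E π (fun ω => ind ((T : Set (Zd d)) ⊆ Bad ω)) ≤ Real.exp (-(lam * T.card))) →
    PE E π (fun ω => ind (∃ f : ℕ → Zd d, Lazy f ∧ f 0 = x₀ ∧ ∃ P : Finset (Zd d),
      w ≤ P.card ∧ ∀ y ∈ P, (∃ i ≤ L, f i = y) ∧ ∃ Γ : Finset (Zd d), StarConn Γ ∧
        (Γ : Set (Zd d)) ⊆ Bad ω ∧ Γ.card ≤ s₀ ∧ InHull Γ y)) ≤
      C * Real.exp (-(c * lam * w ^ (((d : ℝ) - 1) / d)))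

/-- most of a cube is joined to its centre by good paths -/
def St_CUBE : Prop := ∀ d : ℕ, 2 ≤ d → ∃ lam₀ : ℝ,
  ∀ (ι : Type) [DecidableEq ι] (E : Finset ι) (π : ι → ℝ), Prob π →
  ∀ (Bad : Finset ι → Set (Zd d)) (b₀ : Zd d) (m : ℕ) (lam : ℝ), lam₀ ≤ lam →
    (∀ T : Finset (Zd d), T ⊆ box b₀ (2 * m) →
      PE E π (fun ω => ind ((T : Set (Zd d)) ⊆ Bad ω)) ≤ Real.exp (-(lam * T.card))) →
    3 / 4 ≤ PE E π fun ω => ind (((box b₀ m).card : ℝ) / 2 ≤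
      (flt (box b₀ m) (Joined ((box b₀ (2 * m) : Set (Zd d)) \ Bad ω) b₀)).card)

/-- periodic lift of a set of torus points -/
def liftSet {d m : ℕ} (Bd : Set (Tor d m)) : Set (Zd d) := {z | proj m z ∈ Bd}

/-- points with no lift in the hull of a finite star-connected bad set -/
noncomputable def Oset {d m : ℕ} [NeZero m] (Bd : Set (Tor d m)) : Finset (Tor d m) :=
  flt univ fun b => ¬ ∃ (z : Zd d) (Γ : Finset (Zd d)), proj m z = b ∧ StarConn Γ ∧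
    (Γ : Set (Zd d)) ⊆ liftSet Bd ∧ InHull Γ z

/-- all star-connected bad sets are small -/
def Calm {d m : ℕ} (Bd : Set (Tor d m)) (s₀ : ℕ) : Prop :=
  ∀ Γ : Finset (Zd d), StarConn Γ → (Γ : Set (Zd d)) ⊆ liftSet Bd → Γ.card ≤ s₀

/-- outer points are good and joined by good paths -/
def St_OJ : Prop := ∀ (d m : ℕ) [NeZero m], 2 ≤ d → ∀ Bd : Set (Tor d m),
  (∀ b ∈ Oset Bd, b ∉ Bd) ∧ ∀ s₀, Calm Bd s₀ → ∀ b ∈ Oset Bd, ∀ b' ∈ Oset Bd,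
    Relation.ReflTransGen (fun u v => v ∉ Bd ∧ td u v ≤ 1) b b'

/-- large bad droplets are rare -/
def St_CALM : Prop := ∀ d : ℕ, ∃ lam₀ : ℝ, ∀ (m : ℕ) [NeZero m]
  (ι : Type) [DecidableEq ι] (E : Finset ι) (π : ι → ℝ), Prob π →
  ∀ (Bad : Finset ι → Set (Tor d m)) (s₀ : ℕ) (lam : ℝ), lam₀ ≤ lam → s₀ < m →
    (∀ T : Finset (Tor d m),
      PE E π (fun ω => ind ((T : Set (Tor d m)) ⊆ Bad ω)) ≤ Real.exp (-(lam * T.card))) →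
    PE E π (fun ω => ind (¬ Calm (Bad ω) s₀)) ≤ (m : ℝ) ^ d * Real.exp (-(lam * s₀ / 2))

/-- the block grid of the torus -/
def St_GRID : Prop := ∀ (d n m : ℕ) [NeZero n] [NeZero m], m ≤ n →
  (∀ y : Tor d n, td (tctr n (tblk m y)) y ≤ (n : ℝ) / m) ∧
  (∀ b : Tor d m, tblk m (tctr n b) = b) ∧
  (∀ b b' : Tor d m, td (tctr n b) (tctr n b') ≤ (n : ℝ) / m * td b b' + 1 ∧
    (n : ℝ) / m * td b b' ≤ td (tctr n b) (tctr n b') + 1) ∧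
  (∀ x : Zd d, tblk m (proj n x) = proj m (zblk n m x)) ∧
  ∀ x y : Zd d, zd x y ≤ 1 → zd (zblk n m x) (zblk n m y) ≤ 1

/-- a connected set rarely visits many inner blocks -/
def St_NONO : Prop := ∀ d : ℕ, 2 ≤ d → ∃ c lam₀ C : ℝ, 0 < c ∧
  ∀ (n m : ℕ) [NeZero n] [NeZero m], m ≤ n →
  ∀ (ι : Type) [DecidableEq ι] (E : Finset ι) (π : ι → ℝ), Prob π →
  ∀ (Bad : Finset ι → Set (Tor d m)) (x : Tor d n) (s₀ : ℕ) (v w lam B : ℝ), lam₀ ≤ lam → 1 ≤ w →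
    1 ≤ B → 0 ≤ v → 2 * v ≤ B * w → Real.log B ≤ c * lam → 4 * v + 4 * s₀ < m →
    (∀ T : Finset (Tor d m),
      PE E π (fun ω => ind ((T : Set (Tor d m)) ⊆ Bad ω)) ≤ Real.exp (-(lam * T.card))) →
    PE E π (fun ω => ind (Calm (Bad ω) s₀ ∧ ∃ A : Finset (Tor d n),
      (∀ y ∈ A, conn (torus d n) A univ x y) ∧ (A.card : ℝ) ≤ v ∧
      w ≤ (flt (A.image (tblk m)) (· ∉ Oset (Bad ω))).card)) ≤
      C * Real.exp (-(c * lam * w ^ (((d : ℝ) - 1) / d)))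

/-- a connected set of big points rarely has much mass in overfull blocks -/
def St_OVER : Prop := ∀ (d : ℕ) (θ C₁ : ℝ), 0 < θ → ∃ Y₀ : ℝ, 0 < Y₀ ∧ ∀ CY φ Cκ : ℝ, Y₀ ≤ CY →
  0 < φ → 0 < Cκ → ∃ c C l₀ : ℝ, 0 < c ∧ ∀ (n m : ℕ) [NeZero n] [NeZero m], m ≤ n →
  ∀ (ι : Type) [DecidableEq ι] (E : Finset ι) (π : ι → ℝ), Prob π →
  ∀ (Big : Finset ι → Finset (Tor d n)) (l N : ℝ), l₀ ≤ l → l ≤ N →
    (∀ T : Finset (Tor d m), PE E π (fun ω =>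
      Real.exp (θ * (flt (Big ω) fun y => tblk m y ∈ T).card / l ^ 4)) ≤
        Real.exp (C₁ * N * T.card)) →
    ∀ (x : Tor d n) (k : ℝ), l ^ 4 ≤ k →
    PE E π (fun ω => ind (∃ A : Finset (Tor d n), A ⊆ Big ω ∧
      (∀ y ∈ A, conn (torus d n) A univ x y) ∧ (A.card : ℝ) ≤ Cκ * k ∧
      φ * k ≤ (flt A fun y => CY * (N * l ^ 4) <
        (flt A fun z => tblk m z = tblk m y).card).card)) ≤ C * Real.exp (-(c * k / l ^ 4))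

/-- pointwise properties of the torus kernel -/
def St_TK1 : Prop := ∀ d : ℕ, 7 ≤ d → ∀ C₀ : ℝ, ∃ C : ℝ, 1 ≤ C ∧ ∀ (n : ℕ) [NeZero n] (l : ℝ),
  1 ≤ l → (((n : ℝ) ≤ C₀ * l ∧ l ^ 6 ≤ (n : ℝ) ^ d) ∨ l ≤ n) →
  (∀ x y : Tor d n, tg l x y ≤ C) ∧
  (∀ x x' y : Tor d n, (torus d n).Adj x x' → tg l x' y ≤ C * tg l x y) ∧
  (∀ v u a : Tor d n, tg l v u * tg l u a ≤ C * tg l v a * (tg l v u + tg l u a)) ∧
  (∀ (A : Finset (Tor d n)) (M : ℝ), 0 ≤ M → (∀ a ∈ A, ∑ b ∈ A, tg l a b ≤ M) →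
    ∀ u, ∑ b ∈ A, tg l u b ≤ C * M) ∧
  ∀ v : Tor d n, ∑ y, ∑ u, tg l v y * tg l v u * tg l y u ≤ C

/-- near-far bounds for the torus kernel on a small region -/
def St_TK2 : Prop := ∀ d : ℕ, 7 ≤ d → ∀ C₀ : ℝ, ∃ Cs : ℝ → ℝ, (∀ η, 1 ≤ Cs η) ∧
  ∀ (n : ℕ) [NeZero n] (l f : ℝ) (U : Finset (Tor d n)), 1 ≤ l →
  (((n : ℝ) ≤ C₀ * l ∧ f = l ^ 2 / (n : ℝ) ^ d) ∨
    (l ≤ n ∧ f = l ^ 2 / l ^ d ∧ ∃ x, U ⊆ tball x (C₀ * l))) → ∀ η : ℝ, 0 < η →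
  (∀ (z : Tor d n) (D : Finset (Tor d n)),
    ∑ y ∈ D, tg l z y ≤ η * l ^ 2 + Cs η * f * D.card) ∧
  (∀ z a : Tor d n, ∑ y ∈ U, tg l z y * tg l y a ≤ l ^ 2 * (η * tg l z a + Cs η * f)) ∧
  ∀ x y : Tor d n, η * l ≤ td x y → tg l x y ≤ Cs η * f

/-- the cluster of `y` in the cube of radius `r` around `y` is long or heavy -/
def Lam {d : ℕ} (r : ℕ) (ω : Finset (Sym2 (Zd d))) (y : Zd d) : Prop :=
  (r : ℝ) ^ 4 ≤ (cl (lattice d) (box y r) ω y).card ∨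
    ∃ z ∈ cl (lattice d) (box y r) ω y, (r : ℝ) ≤ zd y z

/-- local exponential moment of the number of long or heavy points -/
def St_Yb : Prop := ∀ (d : ℕ) (p c C : ℝ), HZ d p c C → ∃ κ₀ θ C₁ : ℝ, 0 < κ₀ ∧ 0 < θ ∧
  ∀ r : ℕ, 1 ≤ r → ∀ q : ℝ, 0 ≤ q → q ≤ 1 → q ≤ p + κ₀ / (r : ℝ) ^ 2 → ∀ x : Zd d,
    PE (edges (lattice d) (box x (2 * r))) (fun _ => q) (fun ω =>
      Real.exp (θ * (flt (box x r) (Lam r ω)).card / (r : ℝ) ^ 4)) ≤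
      Real.exp (C₁ * (r : ℝ) ^ (d - 6))

/-- exponential moment of the number of big points -/
def St_Y : Prop := ∀ (d : ℕ) (p c C : ℝ), HZ d p c C → ∀ κ R : ℝ, ∃ θ C₁ l₀ C₀ : ℝ, 0 < θ ∧
  0 < C₁ ∧ ∀ (n : ℕ) [NeZero n] (l q : ℝ), l₀ ≤ l → C₀ * l ≤ n → 0 ≤ q → q ≤ 1 →
    q ≤ p + κ / l ^ 2 → ∀ Z P : Finset (Tor d n), (∀ y ∈ P, ∃ z ∈ Z, td z y ≤ R * l) →
    PE univ (fun _ => q) (fun ω => Real.exp (θ *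
      (flt P fun y => l ^ 4 ≤ ((cl (torus d n) univ ω y).card : ℝ)).card / l ^ 4)) ≤
      Real.exp (C₁ * l ^ (d - 6) * Z.card)

/-- probability that the cube of radius `L` contains a cluster with at least `k` points -/
noncomputable def pIn (d : ℕ) (q k : ℝ) (L : ℕ) : ℝ :=
  PE (edges (lattice d) (box (0 : Zd d) L)) (fun _ => q) fun ω =>
    ind (∃ y, k ≤ ((cl (lattice d) (box 0 L) ω y).card : ℝ))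

/-- the same with a cluster that avoids the boundary of the cube -/
noncomputable def pIso (d : ℕ) (q k : ℝ) (L : ℕ) : ℝ :=
  PE (edges (lattice d) (box (0 : Zd d) L)) (fun _ => q) fun ω =>
    ind (∃ y, k ≤ ((cl (lattice d) (box 0 L) ω y).card : ℝ) ∧
      ∀ z ∈ cl (lattice d) (box 0 L) ω y, zd 0 z < L)

/-- entropy cost of isolating the cluster of a cube -/
def St_LBb : Prop := ∀ (d : ℕ) (p c C : ℝ), HZ d p c C → ∀ κ : ℝ, ∃ C₁ l₀ : ℝ, 0 < C₁ ∧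
  ∀ (l q k : ℝ) (L L' : ℕ), l₀ ≤ l → l ≤ L → l ^ 4 ≤ k → p - 1 / l ^ 2 ≤ q → q ≤ p + κ / l ^ 2 →
    3 / 4 ≤ pIn d q k L → L + C₁ * l * Real.log (L + 2) ≤ L' →
    Real.exp (-(C₁ * ((L : ℝ) ^ (d - 1) / l ^ 5 + 1))) ≤ pIso d q k L'

/-- independent trials in disjoint cubes of the torus -/
def St_LBc : Prop := ∀ (d n : ℕ) [NeZero n], 1 ≤ d → ∀ (q k ρ : ℝ) (L t : ℕ), 0 ≤ q → q ≤ 1 →
  0 < k → (2 * L + 2) * (2 * t) ≤ n → ρ ≤ pIso d q k L →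
  1 - 2 * Real.exp (-(ρ * t)) ≤ pTwo d n q k

/-- the levels of sprinkling -/
def St_LEV : Prop := ∀ p κ₁ : ℝ, 0 < p → p < 1 → 0 ≤ κ₁ → ∃ κ κ₄ l₀ : ℝ, 1 ≤ κ ∧ κ₁ ≤ κ₄ ∧
  1 ≤ κ₄ ∧ ∀ l : ℝ, l₀ ≤ l → ∃ q : Fin 5 → ℝ, (∀ j, 0 ≤ q j ∧ q j ≤ 1) ∧ q 0 = p - 1 / l ^ 2 ∧
    q 1 = κ₁ / l ^ 2 ∧ q 2 = 1 / l ^ 2 ∧ q 3 = 1 / l ^ 2 ∧ 1 / l ^ 2 ≤ q 4 ∧ q 4 ≤ κ₄ / l ^ 2 ∧
    1 - ∏ j, (1 - q j) = p * (1 + κ / l ^ 2)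

end Pool.Agent.TPC
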