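import Pool.Agent.Lib.TPC.BlueZ

/-! The susceptibility bound below the critical value. -/

open Finset

namespace Pool.Agent.TPC

open Pool.Agent.Lib.MP_81a99a_pr (lattice)

namespace Z1

variable {d : ℕ}

lemma exists_max (s : ℝ) (r : ℕ) : ∃ x : Zd d, 0 ≤ s → s ≤ 1 →
    ∀ u : Zd d, cz s (box 0 r) u ≤ cz s (box 0 r) x := by
  obtain ⟨x, -, hx⟩ := exists_max_image (box (0 : Zd d) r) (cz s (box 0 r)) ⟨0, self_mem_box 0 r⟩
  refine ⟨x, fun h0 h1 u => ?_⟩
  by_cases hu : u ∈ box (0 : Zd d) r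
  · exact hx u hu
  · rw [cz_eq_sum, sum_eq_zero fun y _ => tz_of_notMem hu]
    exact cz_nonneg h0 h1

lemma iter {b : ℕ → ℝ} {a M : ℝ} (h0 : 64 ≤ a * b 0) (ha : 0 < a)
    (hs : ∀ j, 32 * b j ≤ b (j + 1) ∨ a / 2 ^ (j + 1) * b j ^ 2 ≤ b (j + 1)) (hM : ∀ j, b j ≤ M * 16 ^ j) :
    False := by
  have hb : 0 < b 0 := by
    by_contra hn
    nlinarith
  have h1 : ∀ j, 32 ^ j * b 0 ≤ b j := fun j => by
    induction j with
    | zero => simp
    | succ j ih =>
      have h2 : 32 * b j ≤ b (j + 1) := by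
        refine (hs j).elim id fun h3 => le_trans ?_ h3
        have h4 : (2 : ℝ) ^ j ≤ 32 ^ j := pow_le_pow_left₀ (by norm_num) (by norm_num) j
        have h5 : (0 : ℝ) < 2 ^ j := by positivity
        have h6 : 2 ^ j * b 0 ≤ b j := (mul_le_mul_of_nonneg_right h4 hb.le).trans ih
        have h7 : 0 < b j := (mul_pos h5 hb).trans_le h6
        rw [sq, ← mul_assoc]
        refine mul_le_mul_of_nonneg_right ?_ h7.le
        rw [div_mul_eq_mul_div, le_div_iff₀ (by positivity), pow_succ]
        nlinarith [mul_le_mul_of_nonneg_left h6 ha.le]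
      rw [pow_succ]
      linarith
  obtain ⟨j, hj⟩ := pow_unbounded_of_one_lt (M / b 0) (one_lt_two (α := ℝ))
  rw [div_lt_iff₀ hb] at hj
  have h8 := (h1 j).trans (hM j)
  rw [show (32 : ℝ) = 2 * 16 by norm_num, mul_pow] at h8
  nlinarith [show (0 : ℝ) < 16 ^ j by positivity]

end Z1

theorem st_Z1 (hR : St_RUSSO) (hp : St_Z1p) (hm : St_Z1m) (hS : St_S12) : St_Z1 := by
  intro d p c C H
  have hd : (9 : ℝ) ≤ d := by exact_mod_cast H.hd
  have hp0 := H.p0
  have hp1 := H.p1
  obtain ⟨C₁, hC₁, hm⟩ := hm d p c C H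
  obtain ⟨C₂, hC₂, hS⟩ := hS d (d - 2) (by linarith) (by linarith)
  have hC : 0 ≤ C := by
    have h1 := H.up {0} 0 0
    rw [tz_self (mem_singleton_self _), zd_self, kk_zero] at h1
    linarith
  obtain ⟨K, hK⟩ := exists_nat_gt (64 * C₁)
  have hK0 : (0 : ℝ) < K := by linarith
  have hK1 : C₁ * kk (d - 6) K ≤ 1 / 64 := by
    have h1 : kk (d - 6) K ≤ kk (1 : ℕ) K := kk_anti_exp hK0.le (by push_cast; linarith)
    rw [kk_nat 1 hK0.le, pow_one, le_div_iff₀ (by linarith)] at h1
    nlinarith [kk_nonneg (d - 6) hK0.le]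
  choose xm hx using Z1.exists_max (d := d)
  set b : ℝ → ℕ → ℝ := fun s r => cz s (box 0 r) (xm s r) with hb
  have hb1 : ∀ s r, 0 ≤ s → s ≤ p → b s r ≤ C * C₂ * (1 + 2 * r) ^ 2 := fun s r h0 h1 => by
    by_cases hu : xm s r ∈ box (0 : Zd d) r
    · have h2 := (hS _ _ (met_zd d) (xm s r) (box 0 r) (2 * r) (by positivity)).1 (by linarith) fun y hy => by
        linarith [zd_tri (xm s r) 0 y, zd_comm (xm s r) 0, mem_box.1 hu, mem_box.1 hy]
      rw [show (d : ℝ) - 2 - d = -2 by ring, kk_neg_two] at h2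
      refine (sum_le_sum fun y _ => (tz_mono_p h0 h1 hp1.le).trans (H.up _ _ y)).trans ?_
      rw [← mul_sum, mul_assoc]
      exact mul_le_mul_of_nonneg_left h2 hC
    · simp only [hb]
      rw [cz_eq_sum, sum_eq_zero fun y _ => tz_of_notMem hu]
      positivity
  set i : Fin d := ⟨0, by have := H.hd; omega⟩
  set a : ℝ := (p / 2) ^ K / (2 * K) with ha
  have ha0 : 0 < a := by positivity
  have step : ∀ (s s' : ℝ) (r : ℕ), p / 2 ≤ s → s ≤ s' → s' ≤ p →
      32 * b s r ≤ b s' (4 * r + K) ∨ a * (s' - s) * b s r ^ 2 ≤ b s' (4 * r + K) := fun s s' r h1 h2 h3 => by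
    have h4 := hx s' (4 * r + K) (by linarith) (by linarith) 0
    by_cases h5 : 32 * b s r ≤ cz s' (box (0 : Zd d) (4 * r + K)) 0
    · exact Or.inl (h5.trans h4)
    refine Or.inr (le_trans ?_ h4)
    have hder := fun t => hR _ (edges (lattice d) (box 0 (4 * r + K)))
      (fun ω => ((cl (lattice d) (box 0 (4 * r + K)) ω 0).card : ℝ)) t
    have hf : (fun t => PE (edges (lattice d) (box 0 (4 * r + K))) (fun _ => t)
        fun ω => ((cl (lattice d) (box (0 : Zd d) (4 * r + K)) ω 0).card : ℝ)) =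
        fun t => cz t (box (0 : Zd d) (4 * r + K)) 0 := funext fun t => EC_card
    rw [hf] at hder
    have hb0 : 0 ≤ b s r := cz_nonneg (by linarith) (by linarith)
    have h6 := (convex_Icc s s').mul_sub_le_image_sub_of_le_deriv (C := a * b s r ^ 2)
      (fun t _ => (hder t).continuousAt.continuousWithinAt)
      (fun t _ => (hder t).differentiableAt.differentiableWithinAt) (fun t ht => ?_)
      s (Set.left_mem_Icc.2 h2) s' (Set.right_mem_Icc.2 h2) h2
    · linarith [cz_nonneg (D := box (0 : Zd d) (4 * r + K)) (x := 0) (show 0 ≤ s by linarith) (by linarith)]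
    · obtain ⟨t1, t2⟩ := interior_subset ht
      have t0 : 0 ≤ t := by linarith
      have t3 : t ≤ 1 := by linarith
      have h7 : b s r ≤ b t r := (cz_mono_p (by linarith) t1 t3).trans (hx t r t0 t3 _)
      have h8 : cz t (box (0 : Zd d) (4 * r + K)) 0 ≤ 32 * b t r :=
        (cz_mono_p t0 t2 (by linarith)).trans (by linarith)
      have h9 := hm t t0 (by linarith) r K i (xm t r) (hx t r t0 t3)
      have h10 := hp d t t0 t3 (box 0 (4 * r + K)) (box 0 (2 * r)) i K fun u hu k hk => mem_box'.2 fun j => by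
        have h11 := mem_box'.1 hu j
        by_cases hj : j = i
        · subst hj
          simp only [Pi.add_apply, Pi.single_eq_same, Pi.zero_apply] at h11 ⊢
          omega
        · simp only [Pi.add_apply, Pi.single_eq_of_ne hj, Pi.zero_apply] at h11 ⊢
          omega
      rw [(hder t).deriv]
      have h12 : C₁ * kk (d - 6) K * cz t (box (0 : Zd d) (4 * r + K)) 0 ≤ 1 / 64 * (32 * b t r) :=
        mul_le_mul hK1 h8 (cz_nonneg t0 t3) (by norm_num)
      have h13 : b s r ^ 2 / 2 ≤ zsum t (box 0 (4 * r + K)) (box 0 (2 * r)) i K := by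
        refine le_trans ?_ h9
        change _ ≤ b t r * (b t r - _)
        nlinarith
      have h14 : (p / 2) ^ K * (b s r ^ 2 / 2) ≤ t ^ K * zsum t (box 0 (4 * r + K)) (box 0 (2 * r)) i K :=
        mul_le_mul (pow_le_pow_left₀ (by linarith) (by linarith) K) h13
          (div_nonneg (sq_nonneg _) two_pos.le) (pow_nonneg t0 K)
      refine le_of_mul_le_mul_left (le_trans (le_of_eq ?_) (h14.trans h10)) hK0
      rw [ha]
      field_simp
  have main : ∀ q, p / 2 ≤ q → q < p → ∀ (D : Finset (Zd d)) (x : Zd d), cz q D x ≤ 64 / a / (p - q) := by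
    intro q h1 h2 D x
    obtain ⟨R, hR⟩ := exists_box D x
    have hδ : 0 < p - q := by linarith
    have h3 : cz q D x ≤ b q R := by
      refine (cz_mono_dom (by linarith) (by linarith) hR).trans ?_
      rw [cz_box_zero]
      exact hx q R (by linarith) (by linarith) 0
    refine h3.trans (le_of_not_gt fun hn => ?_)
    rw [div_div, div_lt_iff₀ (by positivity)] at hn
    set r : ℕ → ℕ := fun j => Nat.rec R (fun _ m => 4 * m + K) j with hr
    have hr1 : ∀ j, r (j + 1) = 4 * r j + K := fun j => rfl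
    have hr2 : ∀ j, (1 + 2 * (r j + K) : ℝ) ≤ 4 ^ j * (1 + 2 * (R + K)) := fun j => by
      induction j with
      | zero => simp [hr]
      | succ j ih =>
        rw [hr1, pow_succ]
        push_cast
        linarith
    have hq : ∀ j : ℕ, 0 < (p - q) / 2 ^ j ∧ (p - q) / 2 ^ j ≤ p - q := fun j =>
      ⟨div_pos hδ (pow_pos two_pos j), div_le_self hδ.le (one_le_pow₀ one_le_two)⟩
    refine Z1.iter (b := fun j => b (p - (p - q) / 2 ^ j) (r j)) (a := a * (p - q))
      (M := C * C₂ * (1 + 2 * (R + K)) ^ 2) (by simpa [hr, mul_comm] using hn.le) (by positivity)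
      (fun j => ?_) fun j => ?_
    · have h4 : (p - q) / 2 ^ j = (p - q) / 2 ^ (j + 1) + (p - q) / 2 ^ (j + 1) := by
        rw [pow_succ]; field_simp; ring
      have h5 := step (p - (p - q) / 2 ^ j) (p - (p - q) / 2 ^ (j + 1)) (r j) (by linarith [(hq j).2])
        (by linarith [(hq (j + 1)).1]) (by linarith [(hq (j + 1)).1])
      rwa [show p - (p - q) / 2 ^ (j + 1) - (p - (p - q) / 2 ^ j) = (p - q) / 2 ^ (j + 1) by linarith,
        ← mul_div_assoc] at h5
    · refine (hb1 _ _ (by linarith [(hq j).2]) (by linarith [(hq j).1])).trans ?_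
      rw [mul_assoc (C * C₂), show (16 : ℝ) ^ j = (4 ^ j) ^ 2 by rw [← pow_mul, mul_comm, pow_mul]; norm_num,
        ← mul_pow]
      refine mul_le_mul_of_nonneg_left (pow_le_pow_left₀ (by positivity) ?_ 2) (by positivity)
      linarith [hr2 j]
  refine ⟨2 * (64 / a), mul_pos two_pos (div_pos (by norm_num) ha0), fun q h0 h1 D x => ?_⟩
  have hA : 0 < 64 / a := div_pos (by norm_num) ha0
  rcases le_total (p / 2) q with h2 | h2
  · exact (main q h2 h1 D x).trans (div_le_div_of_nonneg_right (by linarith) (by linarith))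
  · refine (cz_mono_p h0 h2 (by linarith)).trans ((main _ le_rfl (by linarith) D x).trans ?_)
    rw [div_le_div_iff₀ (by linarith) (by linarith)]
    nlinarith

end Pool.Agent.TPC
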