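import Pool.Agent.Lib.TPC.BlueZ

/-! Regularity of the cluster near a point it contains. -/

open Finset

namespace Pool.Agent.TPC

open Pool.Agent.Lib.MP_81a99a_pr (lattice torus cluster kthLargest pc MeanField)

namespace Z4

variable {d : ℕ}

/-- crossing clusters -/
noncomputable def crs (D : Finset (Zd d)) (y : Zd d) (s : ℕ) (f : Zd d → Finset (Zd d)) :
    Finset (Finset (Zd d)) :=
  flt (D.image f) fun A => (∃ u ∈ A, zd y u ≤ s) ∧ ∃ w ∈ A, (s : ℝ) ^ (2 * d + 6) ≤ zd y w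

/-- the local bad event -/
def bad (D : Finset (Zd d)) (y : Zd d) (s m : ℕ) (T : ℝ) (f : Zd d → Finset (Zd d)) : Prop :=
  m < (crs D y s f).card ∨ ∃ u ∈ box y s, T < ((f u ∩ box y s).card : ℝ)

lemma good {B : Finset (Zd d)} {y : Zd d} {s m : ℕ} (_hs : 1 ≤ s) {T : ℝ} (hT : 0 ≤ T)
    {ω : Finset (Sym2 (Zd d))}
    (h : ¬ bad (box y (s ^ (2 * d + 6)) ∩ B) y s m T
      (cl (lattice d) (box y (s ^ (2 * d + 6)) ∩ B) ω)) :
    ((cl (lattice d) B ω y ∩ box y s).card : ℝ) ≤ (m + 1) * T := by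
  obtain ⟨D, hD⟩ : ∃ D, D = box y (s ^ (2 * d + 6)) ∩ B := ⟨_, rfl⟩
  rw [← hD, bad, not_or] at h
  obtain ⟨h1, h2⟩ := h
  have h2' : ∀ u ∈ box y s, ((cl (lattice d) D ω u ∩ box y s).card : ℝ) ≤ T := fun u hu =>
    not_lt.1 fun h3 => h2 ⟨u, hu, h3⟩
  have hsR : s ≤ s ^ (2 * d + 6) := Nat.le_self_pow (by omega) s
  have hsub : cl (lattice d) B ω y ∩ box y s ⊆
      (insert (cl (lattice d) D ω y) (crs D y s (cl (lattice d) D ω))).biUnion (· ∩ box y s) := by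
    intro z hz
    obtain ⟨hz1, hz2⟩ := mem_inter.1 hz
    have hzD : z ∈ D := hD ▸ mem_inter.2 ⟨box_mono y hsR hz2, cl_subset hz1⟩
    by_cases hc : ∃ w ∈ cl (lattice d) D ω z, (s : ℝ) ^ (2 * d + 6) ≤ zd y w
    · exact mem_biUnion.2 ⟨cl (lattice d) D ω z, mem_insert_of_mem (mem_flt.2
        ⟨mem_image_of_mem _ hzD, ⟨z, self_mem_cl hzD, mem_box.1 hz2⟩, hc⟩),
        mem_inter.2 ⟨self_mem_cl hzD, hz2⟩⟩
    · have h3 : cl (lattice d) B ω z ⊆ cl (lattice d) D ω z := by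
        refine cl_subset_of (self_mem_cl hzD) fun a ha b hb hab he => ?_
        have h4 : zd y a < ((s ^ (2 * d + 6) : ℕ) : ℝ) := by
          push_cast
          exact not_le.1 fun h5 => hc ⟨a, ha, h5⟩
        have h5 : zd y b ≤ ((s ^ (2 * d + 6) : ℕ) : ℝ) := by
          have h6 := zd_tri y a b
          rw [zd_adj hab] at h6
          obtain ⟨k, hk⟩ := zd_nat y a
          rw [hk] at h4 h6
          have h7 : k + 1 ≤ s ^ (2 * d + 6) := by exact_mod_cast h4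
          exact h6.trans (by exact_mod_cast h7)
        have h6 : b ∈ D := hD ▸ mem_inter.2 ⟨mem_box.2 h5, hb⟩
        exact mem_cl.2 ((mem_cl.1 ha).tail h6 hab he (mem_cl.1 ha).right)
      have h4 := mem_cl.1 (h3 (mem_cl.2 (mem_cl.1 hz1).symm))
      exact mem_biUnion.2 ⟨_, mem_insert_self _ _, mem_inter.2 ⟨mem_cl.2 h4.symm, hz2⟩⟩
  have h3 : ((cl (lattice d) B ω y ∩ box y s).card : ℝ) ≤
      ∑ A ∈ insert (cl (lattice d) D ω y) (crs D y s (cl (lattice d) D ω)),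
        ((A ∩ box y s).card : ℝ) := by
    exact_mod_cast (card_le_card hsub).trans card_biUnion_le
  have h4 := sum_le_card_nsmul (insert (cl (lattice d) D ω y) (crs D y s (cl (lattice d) D ω)))
    (fun A => ((A ∩ box y s).card : ℝ)) T (by
      intro A hA
      rcases mem_insert.1 hA with rfl | hA
      · exact h2' y (self_mem_box y s)
      · obtain ⟨h5, ⟨u, hu, h6⟩, -⟩ := mem_flt.1 hA
        obtain ⟨v, -, rfl⟩ := mem_image.1 h5
        rw [← cl_eq_of_conn (mem_cl.1 hu)]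
        exact h2' u (mem_box.2 h6))
  rw [nsmul_eq_mul] at h4
  refine h3.trans (h4.trans (mul_le_mul_of_nonneg_right ?_ hT))
  exact_mod_cast (card_insert_le _ _).trans (by omega)

lemma inter_eq (y b : Zd d) (R M : ℕ) : box y R ∩ box b M =
    rect (fun j => max (y j - R) (b j - M)) fun j => min (y j + R) (b j + M) := by
  ext z
  simp only [mem_inter, mem_box', mem_rect, ← forall_and]
  exact forall_congr' fun j => by omega

lemma num (K : ℝ) {c : ℝ} (hc : 0 < c) : ∃ s₀ : ℕ, ∀ s : ℕ, s₀ ≤ s →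
    K * Real.log s ^ 2 ≤ c * (s : ℝ) ^ (1 / 4 : ℝ) := by
  have h1 := ((isLittleO_log_rpow_rpow_atTop 2 (s := 1 / 4) (by norm_num)).const_mul_left K).bound hc
  obtain ⟨s₀, h⟩ := Filter.eventually_atTop.1 (tendsto_natCast_atTop_atTop.eventually h1)
  refine ⟨s₀, fun s hs => ?_⟩
  have h2 := h s hs
  rw [Real.rpow_two, Real.norm_of_nonneg (by positivity : 0 ≤ (s : ℝ) ^ (1 / 4 : ℝ))] at h2
  exact (le_abs_self _).trans h2

lemma fin {C₁ c₁ : ℝ} (hC : 0 < C₁) (hc : 0 < c₁) (d : ℕ) : ∃ s₀ : ℕ, ∀ s : ℕ, s₀ ≤ s → 3 ≤ s ∧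
    ∃ m : ℕ, 3 / 2 ^ m + ((2 * s + 1) ^ d : ℕ) *
      (2 / Real.exp (c₁ * ((s : ℝ) ^ (9 / 2 : ℝ) / (m + 1)) / (s : ℝ) ^ 4)) ≤
      Real.exp (-(C₁ * Real.log (((s ^ (2 * d + 6) : ℕ) : ℝ) + 2) ^ 2)) / (s : ℝ) ^ 2 := by
  obtain ⟨c, hc0, hc1, hc2⟩ : ∃ c : ℝ, 0 < c ∧ c ≤ 1 / 2 ∧ c ≤ c₁ / 3 :=
    ⟨min (1 / 2) (c₁ / 3), by positivity, min_le_left _ _, min_le_right _ _⟩
  obtain ⟨s₀, h⟩ := num (2 * d + 4 + C₁ * (2 * d + 7) ^ 2) hc0
  refine ⟨max s₀ 3, fun s hs => ⟨(le_max_right _ _).trans hs, ⌈(s : ℝ) ^ (1 / 4 : ℝ)⌉₊, ?_⟩⟩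
  have h1 := h s ((le_max_left _ _).trans hs)
  have s3 : (3 : ℝ) ≤ s := by exact_mod_cast (le_max_right _ _).trans hs
  have s0 : (0 : ℝ) < s := by linarith
  have e1 : (s : ℝ) ^ (9 / 2 : ℝ) = (s : ℝ) ^ 4 * ((s : ℝ) ^ (1 / 4 : ℝ)) ^ 2 := by
    rw [← Real.rpow_natCast, ← Real.rpow_natCast, ← Real.rpow_mul s0.le, ← Real.rpow_add s0]
    norm_num
  have t1 : 1 ≤ (s : ℝ) ^ (1 / 4 : ℝ) := Real.one_le_rpow (by linarith) (by norm_num)
  rw [e1]
  generalize (s : ℝ) ^ (1 / 4 : ℝ) = t at h1 t1 ⊢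
  have m1 := Nat.le_ceil t
  have m2 := Nat.ceil_lt_add_one (by linarith : 0 ≤ t)
  generalize ⌈t⌉₊ = m at m1 m2 ⊢
  have l1 : 1 ≤ Real.log s := by
    rw [Real.le_log_iff_exp_le s0]
    exact Real.exp_one_lt_d9.le.trans (by linarith)
  have a1 : Real.exp (c * t) ≤ 2 ^ m := by
    rw [← Real.exp_log (by norm_num : (0 : ℝ) < 2), ← Real.exp_nat_mul, Real.exp_le_exp]
    have := Real.log_two_gt_d9
    nlinarith
  have a2 : Real.exp (c * t) ≤ Real.exp (c₁ * ((s : ℝ) ^ 4 * t ^ 2 / (m + 1)) / (s : ℝ) ^ 4) := by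
    have e2 : c₁ * ((s : ℝ) ^ 4 * t ^ 2 / (m + 1)) / (s : ℝ) ^ 4 = c₁ * t ^ 2 / (m + 1) := by
      field_simp
    rw [e2, Real.exp_le_exp, le_div_iff₀ (by positivity)]
    have b1 : c * t * (m + 1) ≤ c * t * (3 * t) := by gcongr; linarith
    nlinarith
  have a3 : (((2 * s + 1) ^ d : ℕ) : ℝ) ≤ (s : ℝ) ^ (2 * d) := by
    rw [pow_mul]
    push_cast
    gcongr
    nlinarith
  have a4 : Real.log (((s ^ (2 * d + 6) : ℕ) : ℝ) + 2) ≤ (2 * d + 7) * Real.log s := by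
    have b1 : (1 : ℝ) ≤ (s : ℝ) ^ (2 * d + 6) := one_le_pow₀ (by linarith)
    have b2 : ((s ^ (2 * d + 6) : ℕ) : ℝ) + 2 ≤ (s : ℝ) ^ (2 * d + 7) := by
      push_cast
      rw [pow_succ (s : ℝ) (2 * d + 6)]
      nlinarith
    refine (Real.log_le_log (by positivity) b2).trans (le_of_eq ?_)
    rw [Real.log_pow]
    push_cast
    ring
  have a5 : 0 ≤ Real.log (((s ^ (2 * d + 6) : ℕ) : ℝ) + 2) :=
    Real.log_nonneg (by have : (0 : ℝ) ≤ ((s ^ (2 * d + 6) : ℕ) : ℝ) := by positivity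
                        linarith)
  have a6 : (s : ℝ) ^ (2 * d + 4) ≤ Real.exp ((2 * d + 4) * Real.log s ^ 2) := by
    rw [← Real.exp_log (by positivity : (0 : ℝ) < (s : ℝ) ^ (2 * d + 4)), Real.exp_le_exp,
      Real.log_pow]
    push_cast
    gcongr
    nlinarith
  have a7 : (1 : ℝ) ≤ (s : ℝ) ^ (2 * d) := one_le_pow₀ (by linarith)
  have p1 := Real.exp_pos (c * t)
  calc 3 / 2 ^ m + (((2 * s + 1) ^ d : ℕ) : ℝ) *
        (2 / Real.exp (c₁ * ((s : ℝ) ^ 4 * t ^ 2 / (m + 1)) / (s : ℝ) ^ 4))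
      ≤ 3 * (s : ℝ) ^ (2 * d) / Real.exp (c * t) + (s : ℝ) ^ (2 * d) * (2 / Real.exp (c * t)) := by
        gcongr
        linarith
    _ = 5 * (s : ℝ) ^ 2 * (s : ℝ) ^ (2 * d) / Real.exp (c * t) / (s : ℝ) ^ 2 := by
        field_simp
        ring
    _ ≤ _ := by
        refine div_le_div_of_nonneg_right ?_ (by positivity)
        rw [div_le_iff₀ p1, ← Real.exp_add]
        have b1 : 5 * (s : ℝ) ^ 2 * (s : ℝ) ^ (2 * d) ≤ (s : ℝ) ^ (2 * d + 4) := by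
          have : (s : ℝ) ^ (2 * d + 4) = (s : ℝ) ^ 2 * (s : ℝ) ^ 2 * (s : ℝ) ^ (2 * d) := by ring
          rw [this]
          gcongr
          nlinarith
        refine b1.trans (a6.trans (Real.exp_le_exp.2 ?_))
        have b2 : C₁ * Real.log (((s ^ (2 * d + 6) : ℕ) : ℝ) + 2) ^ 2 ≤
            C₁ * ((2 * d + 7) * Real.log s) ^ 2 := by gcongr
        nlinarith

end Z4

open Z4 in
theorem st_Z4 (h3 : St_Z3) (hE : St_ETQ) (hX : St_CROSS) (hT : St_TOUCH) : St_Z4 := by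
  intro d p c C H
  obtain ⟨C₁, hC₁, h3⟩ := h3 d p c C H
  obtain ⟨c₁, hc₁, hE⟩ := hE d p c C H
  obtain ⟨s₁, hX⟩ := hX d p c C H
  obtain ⟨s₂, hN⟩ := fin hC₁ hc₁ d
  refine ⟨max s₁ s₂, fun s hs b M x y => ?_⟩
  obtain ⟨s3, m, hm⟩ := hN s ((le_max_right _ _).trans hs)
  have hπ : Prob (fun _ : Sym2 (Zd d) => p) := Prob.const H.p0.le H.p1.le
  have htz : 0 ≤ tz p (box b M) x y := tz_nonneg H.p0.le H.p1.le
  have s0 : (0 : ℝ) < s := by exact_mod_cast (by omega : 0 < s)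
  by_cases hy : y ∈ box b M
  swap
  · refine (PE_le_const hπ (c := 0) fun ω => le_of_eq (ind_neg fun h => hy (cl_subset h.1))).trans ?_
    positivity
  obtain ⟨T, hTd⟩ : ∃ T : ℝ, T = (s : ℝ) ^ (9 / 2 : ℝ) / (m + 1) := ⟨_, rfl⟩
  have hT0 : 0 ≤ T := by rw [hTd]; positivity
  obtain ⟨κ, hκ⟩ : ∃ κ : ℝ,
    κ = Real.exp (-(C₁ * Real.log (((s ^ (2 * d + 6) : ℕ) : ℝ) + 2) ^ 2)) := ⟨_, rfl⟩
  have hκ0 : 0 < κ := hκ ▸ Real.exp_pos _
  obtain ⟨D, hD⟩ : ∃ D, D = box y (s ^ (2 * d + 6)) ∩ box b M := ⟨_, rfl⟩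
  have hyD : y ∈ D := hD ▸ mem_inter.2 ⟨self_mem_box _ _, hy⟩
  have hlow : ∀ w ∈ D, κ ≤ tau (lattice d) (fun _ => p) D w y := by
    intro w hw
    rw [hD, inter_eq] at hw hyD ⊢
    refine le_trans ?_ (h3 _ _ (min (s ^ (2 * d + 6)) M) (fun j => ?_) w hw y hyD)
    · rw [hκ, Real.exp_le_exp, neg_le_neg_iff]
      have a1 : (0 : ℝ) ≤ ((min (s ^ (2 * d + 6)) M : ℕ) : ℝ) := by positivity
      have a2 : ((min (s ^ (2 * d + 6)) M : ℕ) : ℝ) ≤ ((s ^ (2 * d + 6) : ℕ) : ℝ) :=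
        Nat.cast_le.2 (min_le_left _ _)
      have a3 : 0 ≤ Real.log (((min (s ^ (2 * d + 6)) M : ℕ) : ℝ) + 2) :=
        Real.log_nonneg (by linarith)
      gcongr
    · have := mem_box'.1 hy j
      generalize s ^ (2 * d + 6) = R
      omega
  have h1 := hT (Zd d) (lattice d) _ hπ (box b M) D x y κ
    (fun ω => bad D y s m T (cl (lattice d) D ω)) (hD ▸ inter_subset_right) hyD hκ0.le
    (fun ω ω' h => congrArg (bad D y s m T) (funext fun u => dep_cl (lattice d) D u ω ω' h)) hlow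
  have h2 : ez p (box b M) x
      (fun A => ind (y ∈ A ∧ (s : ℝ) ^ (9 / 2 : ℝ) < (A ∩ box y s).card)) ≤
      PE (edges (lattice d) (box b M)) (fun _ => p) fun ω =>
        ind (conn (lattice d) (box b M) ω x y ∧ bad D y s m T (cl (lattice d) D ω)) := by
    refine PE_ind_mono hπ fun ω h => ⟨mem_cl.1 h.1, by_contra fun h4 => ?_⟩
    have h5 := good (by omega) hT0 (hD ▸ h4)
    rw [cl_eq_of_conn (mem_cl.1 h.1), hTd, mul_div_cancel₀ _ (by positivity)] at h5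
    exact absurd h.2 (not_lt.2 h5)
  have h4 : PE (edges (lattice d) D) (fun _ => p)
      (fun ω => ind (bad D y s m T (cl (lattice d) D ω))) ≤ κ / (s : ℝ) ^ 2 := by
    refine (PE_ind_or hπ _ _).trans (le_trans ?_ (hκ ▸ hm))
    refine add_le_add (hX s ((le_max_left _ _).trans hs) D y m) ?_
    refine (PE_ind_exists hπ _ _).trans ?_
    rw [← card_box y s, ← nsmul_eq_mul]
    refine sum_le_card_nsmul _ _ _ fun u _ => ?_
    have h5 := PE_markov (E := edges (lattice d) D) hπ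
      (f := fun ω => Real.exp (c₁ * (cl (lattice d) D ω u ∩ box y s).card / (s : ℝ) ^ 4))
      (fun _ => (Real.exp_pos _).le) (Real.exp_pos (c₁ * T / (s : ℝ) ^ 4))
    rw [← hTd]
    refine (PE_ind_mono hπ fun ω h => ?_).trans (h5.trans
      (div_le_div_of_nonneg_right (hE s (by omega) D y u) (Real.exp_pos _).le))
    gcongr
  have h5 : κ * ez p (box b M) x
      (fun A => ind (y ∈ A ∧ (s : ℝ) ^ (9 / 2 : ℝ) < (A ∩ box y s).card)) ≤
      κ * (tz p (box b M) x y / (s : ℝ) ^ 2) :=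
    ((mul_le_mul_of_nonneg_left h2 hκ0.le).trans h1).trans
      ((mul_le_mul_of_nonneg_left h4 htz).trans (le_of_eq (by unfold tz; ring)))
  exact le_of_mul_le_mul_left h5 hκ0

end Pool.Agent.TPC
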