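import Pool.Agent.Lib.TPC.BlueZ

/-! Block Z7: exponential decay beyond the sharp length and the one-arm bounds. -/

open Finset

namespace Pool.Agent.TPC

namespace Z7

variable {d : ℕ} {p q c C K l : ℝ}

theorem iter (hS : St_SLB) (q0 : 0 ≤ q) (q1 : q ≤ 1) {L : ℕ} (hL : phi d q L ≤ 1 / 2)
    (U T : Finset (Zd d)) {s B : ℝ} (s0 : 0 ≤ s) (B0 : 0 ≤ B)
    (hB : ∀ b, (∀ t ∈ T, s ≤ zd b t) → ez q U b (fun A => ind (∃ t ∈ T, t ∈ A)) ≤ B) (m : ℕ) :
    ∀ b, (∀ t ∈ T, s + m * (L + 1) ≤ zd b t) →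
      ez q U b (fun A => ind (∃ t ∈ T, t ∈ A)) ≤ (1 / 2) ^ m * B := by
  induction m with
  | zero => simpa using hB
  | succ m ih =>
    intro b hb
    push_cast at hb
    have h := (hS d q q0 q1 U T b L ((1 / 2) ^ m * B) (by positivity)).1 fun b' e =>
      ih b' fun t ht => by linarith [hb t ht, zd_tri b b' t]
    have z : ez q (box b L) b (fun A => ind (∃ t ∈ T, t ∈ A)) ≤ 0 :=
      (EC_mono (F' := fun _ => 0) (Prob.const q0 q1) fun A hA => (ind_neg fun ⟨t, ht, hA'⟩ => by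
        have := mem_box.1 (hA hA')
        have : (0 : ℝ) ≤ m * (L + 1) := by positivity
        linarith [hb t ht]).le).trans_eq (PE_const _ _ _)
    have : phi d q L * ((1 / 2) ^ m * B) ≤ 1 / 2 * ((1 / 2) ^ m * B) := by gcongr
    rw [pow_succ]
    linarith

theorem dec (hS : St_SLB) (q0 : 0 ≤ q) (q1 : q ≤ 1) {L : ℕ} (hL : phi d q L ≤ 1 / 2) {a : ℝ}
    (ha : (L : ℝ) + 1 ≤ a) (U T : Finset (Zd d)) {s B : ℝ} (s0 : 0 ≤ s) (B0 : 0 ≤ B)
    (hB : ∀ b, (∀ t ∈ T, s ≤ zd b t) → ez q U b (fun A => ind (∃ t ∈ T, t ∈ A)) ≤ B) (b : Zd d)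
    (hb : ∀ t ∈ T, 2 * s ≤ zd b t) :
    ez q U b (fun A => ind (∃ t ∈ T, t ∈ A)) ≤ Real.exp (1 / 2 - s / a / 2) * B := by
  have a0 : 0 < a := lt_of_lt_of_le (by positivity) ha
  have m1 := Nat.floor_le (div_nonneg s0 a0.le)
  have m2 := Nat.lt_floor_add_one (s / a)
  refine (iter hS q0 q1 hL U T s0 B0 hB ⌊s / a⌋₊ b fun t ht => le_trans ?_ (hb t ht)).trans ?_
  · rw [le_div_iff₀ a0] at m1
    nlinarith [mul_le_mul_of_nonneg_left ha (Nat.cast_nonneg (α := ℝ) ⌊s / a⌋₊)]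
  · gcongr
    refine (pow_le_pow_left₀ (by norm_num) (show 1 / 2 ≤ Real.exp (-(1 / 2)) by
      linarith [Real.add_one_le_exp (-(1 / 2))]) _).trans ?_
    rw [← Real.exp_nat_mul, Real.exp_le_exp]
    linarith

theorem arm (hS : St_SLB) (q0 : 0 ≤ q) (qp : q ≤ p) (p1 : p ≤ 1) {L : ℕ} (hL : phi d q L ≤ 1 / 2)
    {a : ℝ} (ha : (L : ℝ) + 1 ≤ a) {r B : ℝ} (r0 : 0 ≤ r) (B0 : 0 ≤ B) (D : Finset (Zd d))
    (hB : ∀ b, ez p D b (fun A => ind (∃ y ∈ A, r / 2 ≤ zd b y)) ≤ B) (x : Zd d) :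
    ez q D x (fun A => ind (∃ y ∈ A, r ≤ zd x y)) ≤ Real.exp (1 / 2 - r / 2 / a / 2) * B := by
  have P := Prob.const (ι := Sym2 (Zd d)) q0 (qp.trans p1)
  refine le_trans (EC_mono P fun A hA => ind_mono fun ⟨y, hy, h⟩ => ⟨y, mem_flt.2 ⟨hA hy, h⟩, hy⟩)
    (dec hS q0 (qp.trans p1) hL ha D (flt D fun y => r ≤ zd x y) (by positivity) B0
      (fun b hb => le_trans ?_ (hB b)) x fun t ht => by linarith [(mem_flt.1 ht).2])
  exact (EC_mono P fun A _ => ind_mono fun ⟨t, ht, h⟩ => ⟨t, h, hb t ht⟩).trans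
    (EC_mono_prob P (Prob.const (q0.trans qp) p1) (fun _ _ => qp)
      fun _ _ hA => ind_mono fun ⟨t, ht, h⟩ => ⟨t, hA ht, h⟩)

end Z7

open Z7

theorem st_Z7a (hL : St_Z7L) (hS : St_SLB) : St_Z7a := by
  intro d p c C h
  obtain ⟨K, l₀, K1, l1, H⟩ := hL d p c C h
  have C1 : 1 ≤ C := by simpa [tz_self, zd_self, kk_zero] using h.up {0} 0 0
  have d2 : (0 : ℝ) ≤ d - 2 := by
    have : (9 : ℝ) ≤ d := by exact_mod_cast h.hd
    linarith
  refine ⟨Real.exp (1 / 2) * C * 2 ^ (d - 2 : ℝ), 1 / (4 * K), l₀, by positivity, by positivity,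
    fun l hl D x y => ?_⟩
  obtain ⟨q0, L, hL1, hL2⟩ := H l hl
  have qp : p - 1 / l ^ 2 ≤ p := sub_le_self _ (by positivity)
  have q0' : 0 ≤ p - 1 / l ^ 2 := by linarith [h.p0]
  have e : ∀ b, ez (p - 1 / l ^ 2) D b (fun A => ind (∃ t ∈ ({y} : Finset (Zd d)), t ∈ A)) =
      tz (p - 1 / l ^ 2) D b y := fun b => by simp [ez, tz, tau_eq_EC]
  have z := zd_nonneg x y
  have := dec hS q0' (qp.trans h.p1.le) hL2 hL1 D {y} (s := zd x y / 2)
    (B := C * (2 ^ (d - 2 : ℝ) * kk (d - 2) (zd x y))) (by positivity)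
    (by have := kk_pos (d - 2) z; positivity) (fun b hb => by
      rw [e]
      refine (tz_mono_p q0' qp h.p1.le).trans ((h.up D b y).trans ?_)
      gcongr
      exact (kk_anti d2 (by positivity) (hb y (mem_singleton_self y))).trans (kk_half d2 z)) x
    fun t ht => by rw [mem_singleton.1 ht]; linarith
  rw [e, sub_eq_add_neg (1 / 2 : ℝ), Real.exp_add] at this
  refine this.trans_eq ?_
  rw [show zd x y / 2 / (K * l) / 2 = 1 / (4 * K) * zd x y / l by ring]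
  ring

theorem st_Z7b (hL : St_Z7L) (hS : St_SLB) (hE : St_E1) (hZ : St_Z1) : St_Z7b := by
  intro d p c C h
  obtain ⟨K, l₀, K1, l1, H⟩ := hL d p c C h
  obtain ⟨C', C0, hC⟩ := hZ d p c C h
  have p0 := h.p0
  have p1 := sub_pos.2 h.p1
  obtain ⟨A, hA⟩ : ∃ A : ℝ, A = 2 * d * C' / (p * (1 - p)) * (62 * K) ^ 2 := ⟨_, rfl⟩
  have A0 : 0 ≤ A := by rw [hA]; positivity
  refine ⟨(62 * K * l₀) ^ 2 + 4 * A, by positivity, fun D x r r0 => ?_⟩
  have small : ∀ r : ℝ, 0 < r → r ≤ 62 * K * l₀ → ∀ x : Zd d,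
      ez p D x (fun A => ind (∃ y ∈ A, r ≤ zd x y)) ≤ ((62 * K * l₀) ^ 2 + 4 * A) / r ^ 2 :=
    fun r r0 hr x => (PE_ind_le_one (Prob.const p0.le h.p1.le) _).trans (by
      rw [le_div_iff₀ (by positivity)]
      nlinarith)
  obtain ⟨n, hn⟩ := pow_unbounded_of_one_lt r one_lt_two
  replace hn := hn.le
  induction n generalizing r x with
  | zero => exact small r r0 (by nlinarith) x
  | succ n ih =>
    rcases le_total r (62 * K * l₀) with hr | hr
    · exact small r r0 hr x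
    obtain ⟨l, hl⟩ : ∃ l, l = r / (62 * K) := ⟨_, rfl⟩
    have l0 : 0 < l := by rw [hl]; positivity
    obtain ⟨q0, L, hL1, hL2⟩ := H l (by rw [hl, le_div_iff₀ (by positivity)]; linarith)
    have qp : p - 1 / l ^ 2 < p := sub_lt_self _ (by positivity)
    have q0' : 0 < p - 1 / l ^ 2 := by linarith
    have a := arm hS q0'.le qp.le h.p1.le hL2 hL1 r0.le (by positivity) D
      (fun b => ih b (r / 2) (by positivity) (by rw [pow_succ] at hn; linarith)) x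
    have e := hE _ _ _ (degLe_lattice d) D x p _ p0 h.p1 q0' (qp.trans h.p1)
      (fun A => ind (∃ y ∈ A, r ≤ zd x y)) fun _ => ⟨ind_nonneg _, ind_le_one _⟩
    have x1 : Real.exp (1 / 2 - r / 2 / (K * l) / 2) ≤ 1 / 16 := by
      rw [show 1 / 2 - r / 2 / (K * l) / 2 = -15 by rw [hl]; field_simp; norm_num, Real.exp_neg,
        one_div]
      exact inv_anti₀ (by norm_num) (by linarith [Real.add_one_le_exp 15])
    have x2 : ((2 * d : ℕ) : ℝ) * cz (p - 1 / l ^ 2) D x * ((p - (p - 1 / l ^ 2)) ^ 2 / (p * (1 - p))) ≤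
        A / r ^ 2 := by
      refine (mul_le_mul_of_nonneg_right (mul_le_mul_of_nonneg_left (hC _ q0'.le qp D x)
        (Nat.cast_nonneg _)) (by positivity)).trans_eq ?_
      rw [hA, sub_sub_cancel, hl]
      push_cast
      field_simp
    refine e.trans ?_
    calc _ ≤ 2 * (1 / 16 * (((62 * K * l₀) ^ 2 + 4 * A) / (r / 2) ^ 2) + A / r ^ 2) := by
          gcongr 2 * (?_ + ?_)
          · exact a.trans (by gcongr)
          · exact x2
      _ = ((62 * K * l₀) ^ 2 / 2 + 4 * A) / r ^ 2 := by field_simp; ring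
      _ ≤ _ := by gcongr; exact half_le_self (by positivity)

theorem st_Z7c (hL : St_Z7L) (hS : St_SLB) (hb : St_Z7b) : St_Z7c := by
  intro d p c C h
  obtain ⟨K, l₀, K1, l1, H⟩ := hL d p c C h
  obtain ⟨C', C0, hC⟩ := hb d p c C h
  refine ⟨Real.exp (1 / 2) * 4 * C', 1 / (4 * K), l₀, by positivity, by positivity,
    fun l hl D x r r0 => ?_⟩
  obtain ⟨q0, L, hL1, hL2⟩ := H l hl
  have := arm hS (by linarith [h.p0]) (sub_le_self _ (by positivity)) h.p1.le hL2 hL1 r0.le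
    (by positivity) D (fun b => hC D b (r / 2) (by positivity)) x
  rw [sub_eq_add_neg (1 / 2 : ℝ), Real.exp_add] at this
  refine this.trans_eq ?_
  rw [show r / 2 / (K * l) / 2 = 1 / (4 * K) * r / l by ring]
  field_simp
  norm_num

end Pool.Agent.TPC
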