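import Pool.Agent.Lib.TPC.BlueF2

/-! Upper bound on the second largest cluster in the droplet regime. -/

open Finset

set_option linter.unusedSectionVars false

namespace Pool.Agent.TPC

open Pool.Agent.Lib.MP_81a99a_pr (lattice torus)

namespace UIIb

variable {K : Kc} {d n m : ℕ} [NeZero n] [NeZero m] {M : Core K (Tor d n)}

/-- much mass in overfull blocks -/
def Ov (M : Core K (Tor d n)) (m : ℕ) (l CY Cκ φ k : ℝ) (x : Tor d n)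
    (ω : Finset (Bit (Tor d n))) : Prop :=
  ∃ A : Finset (Tor d n), A ⊆ (flt univ fun y => l ^ 4 ≤ ((M.cv univ 4 ω y).card : ℝ)) ∧
    (∀ y ∈ A, conn (torus d n) A univ x y) ∧ (A.card : ℝ) ≤ Cκ * k ∧
    φ * k ≤ (flt A fun y => CY * (l ^ (d - 6) * l ^ 4) <
      (flt A fun z => tblk m z = tblk m y).card).card

/-- many inner blocks are visited -/
def No (S : Sys M (Tor d m)) (c₁ : ℝ) (s₀ : ℕ) (v w : ℝ) (x : Tor d n)
    (ω : Finset (Bit (Tor d n))) : Prop :=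
  Calm (badSet S c₁ ω) s₀ ∧ ∃ A : Finset (Tor d n),
    (∀ y ∈ A, conn (torus d n) A univ x y) ∧ (A.card : ℝ) ≤ v ∧
    w ≤ (flt (A.image (tblk m)) (· ∉ Oset (badSet S c₁ ω))).card

lemma pointwise (hO : St_OJ) (hG : St_GGC) (hd : 2 ≤ d) {S : Sys M (Tor d m)}
    {p l R c₁ CY Cκ φ₃ φ₄ k : ℝ} (hT : TorM M p l (l ^ (d - 6))) (hS : Grid S l R) (s₀ : ℕ)
    (hk : l ^ 4 ≤ k) (ω : Finset (Bit (Tor d n))) :
    ind ((¬ ∀ b ∈ Oset (badSet S c₁ ω), ∀ b' ∈ Oset (badSet S c₁ ω), ∀ y y',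
        M.big c₁ (S.K2 b) ω y → M.big c₁ (S.K2 b') ω y' → conn M.G univ (lev 3 ω) y y') ∨
      ∃ x, k ≤ ((M.cv univ 4 ω x).card : ℝ) ∧
        S.BadA CY Cκ φ₃ φ₄ k (Oset (badSet S c₁ ω)) ω x) ≤
      ind (¬ Calm (badSet S c₁ ω) s₀) + (∑ x, ind (Ov M m l CY Cκ φ₄ k x ω) +
        ∑ x, ind (No S c₁ s₀ (Cκ * k) (φ₃ * k / (l ^ (d - 6) * l ^ 4)) x ω)) := by
  have n1 : 0 ≤ ∑ x, ind (Ov M m l CY Cκ φ₄ k x ω) := Finset.sum_nonneg fun _ _ => ind_nonneg _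
  have n2 : 0 ≤ ∑ x, ind (No S c₁ s₀ (Cκ * k) (φ₃ * k / (l ^ (d - 6) * l ^ 4)) x ω) :=
    Finset.sum_nonneg fun _ _ => ind_nonneg _
  have n3 := ind_nonneg (¬ Calm (badSet S c₁ ω) s₀)
  refine ind_le_of (by linarith) fun h => ?_
  by_cases hc : Calm (badSet S c₁ ω) s₀
  swap
  · rw [ind_pos hc]; linarith
  rcases h with h | ⟨x, hx, A, a1, a2, a3, a4⟩
  · exact absurd (conn_of_calm hO hG hd hS hc) h
  have eU : M.U = l ^ (d - 6) * l ^ 4 := by rw [Core.U, hT.2.2.1, hT.2.2.2]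
  have eb : S.blk = tblk m := funext hS.2.2.2.1
  rw [hT.1] at a2
  rw [eU, eb] at a4
  rcases a4 with a4 | a4
  · have b1 : Ov M m l CY Cκ φ₄ k x ω := by
      refine ⟨A, fun y hy => mem_flt.2 ⟨mem_univ _, ?_⟩, a2, a3, a4⟩
      have : M.cv univ 4 ω y = M.cv univ 4 ω x := cl_eq_of_conn (mem_cl.1 (a1 hy))
      rw [this]
      exact hk.trans hx
    have b2 := Finset.single_le_sum (f := fun x => ind (Ov M m l CY Cκ φ₄ k x ω))
      (fun _ _ => ind_nonneg _) (mem_univ x)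
    simp only [ind_pos b1] at b2
    linarith
  · have b1 : No S c₁ s₀ (Cκ * k) (φ₃ * k / (l ^ (d - 6) * l ^ 4)) x ω := ⟨hc, A, a2, a3, a4⟩
    have b2 := Finset.single_le_sum
      (f := fun x => ind (No S c₁ s₀ (Cκ * k) (φ₃ * k / (l ^ (d - 6) * l ^ 4)) x ω))
      (fun _ _ => ind_nonneg _) (mem_univ x)
    simp only [ind_pos b1] at b2
    linarith

lemma cmp {C C' c c' t : ℝ} (h0 : 0 ≤ C) (hC : C' ≤ C) (hc : c ≤ c') (ht : 0 ≤ t) :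
    C' * Real.exp (-(c' * t)) ≤ C * Real.exp (-(c * t)) :=
  (mul_le_mul_of_nonneg_right hC (Real.exp_pos _).le).trans (mul_le_mul_of_nonneg_left
    (Real.exp_le_exp.2 (neg_le_neg (mul_le_mul_of_nonneg_right hc ht))) h0)

lemma sum_le {f : Tor d n → ℝ} {a η : ℝ} (h : ∀ x, f x ≤ a) (ha : (n : ℝ) ^ d * a ≤ η) :
    ∑ x, f x ≤ η := by
  refine (Finset.sum_le_sum fun x _ => h x).trans ?_
  rw [Finset.sum_const, Finset.card_univ, card_Tor, nsmul_eq_mul]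
  push_cast
  exact ha

end UIIb

theorem st_UIIb (hN : St_NUMB) (hU : St_UPA) (hO : St_OJ) (hG : St_GGC) (hC : St_CALM)
    (hNo : St_NONO) (hOv : St_OVER) : St_UIIb := by
  intro d hd p κ C₀ R c₁ lam Cκ θ C₁ K _ _ hlam hCκ hθ hP cs hcs
  obtain ⟨Y₀, hY, hOv⟩ := hOv d θ C₁ hθ
  obtain ⟨φ₃, φ₄, cP, CP, LP, h3, h4, hcP, hCP, hP⟩ := hP Y₀ hY
  obtain ⟨cO, CO, lO, hcO, hOv⟩ := hOv Y₀ φ₄ Cκ le_rfl h4 (by linarith)
  obtain ⟨cN, lamN, CN, hcN, hNo⟩ := hNo d (by omega)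
  obtain ⟨lamC, hC⟩ := hC d
  obtain ⟨c, c0, c1, c2, c3⟩ : ∃ c : ℝ, 0 < c ∧ c ≤ cP ∧ c ≤ cO ∧ c ≤ cN :=
    ⟨min cP (min cO cN), lt_min hcP (lt_min hcO hcN), min_le_left _ _,
      (min_le_right _ _).trans (min_le_left _ _), (min_le_right _ _).trans (min_le_right _ _)⟩
  obtain ⟨C, C1, C2, C3⟩ : ∃ C : ℝ, CP ≤ C ∧ CO ≤ C ∧ CN ≤ C :=
    ⟨max CP (max CO CN), le_max_left _ _, (le_max_left _ _).trans (le_max_right _ _),
      (le_max_right _ _).trans (le_max_right _ _)⟩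
  have C0 : 0 < C := hCP.trans_le C1
  obtain ⟨A, hA, hN⟩ := hN d hd cs lam (max lamN lamC) Cκ φ₃ c C hcs hlam (by linarith) h3 c0 C0
  refine ⟨A, hA, fun η hη => ?_⟩
  obtain ⟨LN, hN⟩ := hN (η / 4) (by linarith)
  refine ⟨max (max LN LP) (max lO 1), fun n _ l hl hn hlog => ?_⟩
  rw [max_le_iff, max_le_iff, max_le_iff] at hl
  obtain ⟨⟨l1, l2⟩, l3, l4⟩ := hl
  obtain ⟨m, _, M, S, q, hT, hS, hq, hplev, hbad, hexp, hEv⟩ := hP n l l2 hn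
  have m0 : (0 : ℝ) < m := by exact_mod_cast Nat.pos_of_ne_zero (NeZero.ne m)
  obtain ⟨s₀, B, k1, k2, k3, k4, k5, k6, k7, k8, k9, k10⟩ :=
    hN n m l _ l1 hS.1 ((div_le_iff₀ m0).1 hS.2.2.1) hlog rfl
  generalize A * max (sMF l ((n : ℝ) ^ d)) (sDrop d l ((n : ℝ) ^ d)) = k at *
  have l0 : 0 < l := by linarith
  have l5 : 1 ≤ l ^ 4 := one_le_pow₀ l4
  have k0 : 1 ≤ k := l5.trans k1
  have v0 : 0 ≤ Cκ * k := by positivity
  have lam0 : 0 ≤ lam * l ^ (d - 6) := by positivity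
  have hπ := prob_lev (V := Tor d n) hq
  rw [max_le_iff] at k2
  have e1 := hC m _ univ _ hπ (badSet S c₁) s₀ _ k2.2
    (by
      have : (s₀ : ℝ) < m := by linarith [(Nat.cast_nonneg s₀ : (0 : ℝ) ≤ s₀)]
      exact_mod_cast this) hbad
  have e2 : ∀ x, PL q (fun ω => ind (UIIb.Ov M m l Y₀ Cκ φ₄ k x ω)) ≤
      C * Real.exp (-(c * k / l ^ 4)) := fun x => by
    refine (hOv n m hS.1 _ univ _ hπ
      (fun ω => flt univ fun y => l ^ 4 ≤ ((M.cv univ 4 ω y).card : ℝ)) l (l ^ (d - 6)) l3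
      (le_self_pow₀ l4 (by omega)) hexp x k k1).trans ?_
    rw [mul_div_assoc, mul_div_assoc]
    exact UIIb.cmp C0.le C2 c2 (by positivity)
  have e3 : ∀ x, PL q (fun ω => ind (UIIb.No S c₁ s₀ (Cκ * k)
      (φ₃ * k / (l ^ (d - 6) * l ^ 4)) x ω)) ≤ C * Real.exp (-(c * (lam * l ^ (d - 6)) *
        (φ₃ * k / (l ^ (d - 6) * l ^ 4)) ^ (((d : ℝ) - 1) / d))) := fun x => by
    refine (hNo n m hS.1 _ univ _ hπ (badSet S c₁) x s₀ _ _ _ B k2.1 k3 k4 v0 k5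
      (k6.trans (mul_le_mul_of_nonneg_right c3 lam0)) k7 hbad).trans ?_
    rw [mul_assoc cN, mul_assoc c]
    exact UIIb.cmp C0.le C3 c3 (mul_nonneg lam0 (Real.rpow_nonneg (by linarith) _))
  have e4 := PE_mono (E := univ) hπ
    (UIIb.pointwise (c₁ := c₁) (CY := Y₀) (Cκ := Cκ) (φ₃ := φ₃) (φ₄ := φ₄) hO hG (by omega) hT hS
      s₀ k1)
  rw [PE_add, PE_add, PE_sum, PE_sum] at e4
  have e5 := UIIb.sum_le e2 k9
  have e6 := UIIb.sum_le e3 k10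
  have e7 := hU K _ M _ S q hq (fun ω => Oset (badSet S c₁ ω)) c₁ Y₀ Cκ φ₃ φ₄ k (3 * (η / 4)) _
    (by linarith) (by
      unfold PL at e5 e6 ⊢
      linarith) fun x => hEv k x k1
  rw [← hplev, pTwo_eq_PL, ← hT.1]
  refine e7.trans ?_
  have e8 : CP / l ^ 2 * Real.exp (-(cP * k / l ^ 4)) / k ≤ C * Real.exp (-(c * k / l ^ 4)) := by
    have l6 : 1 ≤ l ^ 2 := one_le_pow₀ l4
    have f1 : CP / l ^ 2 ≤ C := (div_le_self hCP.le l6).trans C1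
    refine (div_le_self (by positivity) k0).trans ?_
    rw [mul_div_assoc, mul_div_assoc]
    exact UIIb.cmp C0.le f1 c1 (by positivity)
  have e9 := mul_le_mul_of_nonneg_left e8 (show (0 : ℝ) ≤ (n : ℝ) ^ d by positivity)
  rw [card_Tor, mul_div_assoc]
  push_cast
  linarith

end Pool.Agent.TPC
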