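import Pool.Agent.Lib.TPC.BlueC

/-! Blocks GGC, UPA, BADP: good blocks and the first moment bound. -/

open Finset

set_option linter.unusedSectionVars false

namespace Pool.Agent.TPC

namespace Badp

variable {K : Kc} {V : Type} [Fintype V] [DecidableEq V] {M : Core K V}

lemma big_mono {c₁ : ℝ} {D D' : Finset V} {ω : Finset (Bit V)} {y : V} (h : M.big c₁ D ω y)
    (hD : D ⊆ D') : M.big c₁ D' ω y :=
  le_trans h (by exact_mod_cast card_le_card (cl_mono hD subset_rfl))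

lemma cl_same {D U : Finset V} (hD : D ⊆ U) {i : Fin 5} (hi : i ≤ 3) {ω ω' : Finset (Bit V)}
    (h : ∀ e ∈ {e : Bit V | e.1 ∈ edges M.G U ∧ e.2 ≤ 3}, (e ∈ ω ↔ e ∈ ω')) (y : V) :
    cl M.G D (lev i ω) y = cl M.G D (lev i ω') y :=
  dep_cl_lev M.G D y i ω ω' fun e he => h e ⟨edges_mono hD he.1, he.2.trans hi⟩

lemma big_same {c₁ : ℝ} {D U : Finset V} (hD : D ⊆ U) {ω ω' : Finset (Bit V)}
    (h : ∀ e ∈ {e : Bit V | e.1 ∈ edges M.G U ∧ e.2 ≤ 3}, (e ∈ ω ↔ e ∈ ω')) (y : V) :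
    M.big c₁ D ω y ↔ M.big c₁ D ω' y := by
  unfold Core.big Core.cv
  rw [cl_same hD (by decide) h y]

lemma color {B : Type} [DecidableEq B] {n : ℕ} (hn : 1 ≤ n) (col : B → Fin n) (T : Finset B) :
    ∃ T' : Finset B, T' ⊆ T ∧ (T.card : ℝ) ≤ n * T'.card ∧ ∀ b ∈ T', ∀ b' ∈ T', col b = col b' := by
  have hn0 : (0 : ℝ) < n := by exact_mod_cast hn
  obtain ⟨c, -, hc⟩ := exists_le_card_fiber_of_nsmul_le_card_of_maps_to (s := T)
    (t := (univ : Finset (Fin n))) (f := col) (b := (T.card : ℝ) / n) (fun _ _ => mem_univ _)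
    ⟨⟨0, hn⟩, mem_univ _⟩ (by
      rw [card_univ, Fintype.card_fin, nsmul_eq_mul, mul_div_cancel₀ _ hn0.ne'])
  refine ⟨T.filter fun b => col b = c, filter_subset _ _, (div_le_iff₀' hn0).1 hc,
    fun b hb b' hb' => (mem_filter.1 hb).2.trans (mem_filter.1 hb').2.symm⟩

lemma two_exp {c c' C C' m N : ℝ} (hm : 0 < m) (h1 : m ≤ c) (h2 : m ≤ c') (hN0 : 0 ≤ N)
    (hN : 2 * (|C| + |C'|) / m ≤ N) :
    C * Real.exp (-(c * N)) + C' * Real.exp (-(c' * N)) ≤ Real.exp (-(m / 2 * N)) := by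
  have a1 : Real.exp (-(c * N)) ≤ Real.exp (-(m * N)) :=
    Real.exp_le_exp.2 (neg_le_neg (mul_le_mul_of_nonneg_right h1 hN0))
  have a2 : Real.exp (-(c' * N)) ≤ Real.exp (-(m * N)) :=
    Real.exp_le_exp.2 (neg_le_neg (mul_le_mul_of_nonneg_right h2 hN0))
  have b1 := mul_le_mul (le_abs_self C) a1 (Real.exp_pos _).le (abs_nonneg C)
  have b2 := mul_le_mul (le_abs_self C') a2 (Real.exp_pos _).le (abs_nonneg C')
  have e : Real.exp (-(m / 2 * N)) = Real.exp (m / 2 * N) * Real.exp (-(m * N)) := by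
    rw [← Real.exp_add]; exact congrArg Real.exp (by ring)
  rw [div_le_iff₀ hm] at hN
  have a3 : |C| + |C'| ≤ Real.exp (m / 2 * N) := by linarith [Real.add_one_le_exp (m / 2 * N)]
  have a4 := mul_le_mul_of_nonneg_right a3 (Real.exp_pos (-(m * N))).le
  rw [e]
  linarith

end Badp

open Badp in
theorem st_GGC : St_GGC := by
  intro K V _ _ M B _ _ S c₁ ω
  refine ⟨fun b ω₁ ω₂ h => propext ?_, fun b hb => ?_, fun R hR b b' hb hp Z hZ y y' hy hy' => ?_⟩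
  · have h2 : S.K2 b ⊆ S.U2 b := (S.lb2 b).1
    refine and_congr (exists_congr fun y => big_same ((S.s12 b).trans h2) h y)
      (forall₂_congr fun y y' => imp_congr (big_same h2 h y) (imp_congr (big_same h2 h y') ?_))
    rw [← mem_cl, ← mem_cl, cl_same subset_rfl le_rfl h y]
  · obtain ⟨y, hy⟩ := hb.1
    exact ⟨y, big_mono hy (S.s12 b)⟩
  · induction hp generalizing y' with
    | refl => exact (hb.2 y y' hy hy').mono (hZ b .refl) subset_rfl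
    | @tail u v hu huv ih =>
      obtain ⟨y₁, h1⟩ := huv.1.1
      exact (ih y₁ (big_mono h1 (hR u v huv.2))).trans
        ((huv.1.2 y₁ y' (big_mono h1 (S.s12 v)) hy').mono (hZ v (hu.tail huv)) subset_rfl)

theorem st_UPA : St_UPA := by
  intro K V _ _ M B _ _ S q hq O c₁ CY Cκ φ₃ φ₄ k δ₁ δ₂ hk h1 h2
  have hπ : Prob fun b : Bit V => q b.2 := prob_lev hq
  have key : ∀ ω, ind (Two M.G k (lev 4 ω)) ≤
      ind ((¬ ∀ b ∈ O ω, ∀ b' ∈ O ω, ∀ y y', M.big c₁ (S.K2 b) ω y →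
        M.big c₁ (S.K2 b') ω y' → conn M.G univ (lev 3 ω) y y') ∨
        ∃ x, k ≤ ((M.cv univ 4 ω x).card : ℝ) ∧ S.BadA CY Cκ φ₃ φ₄ k (O ω) ω x) +
      (∑ x, ind (S.EvE c₁ k (O ω) ω x ∧ ¬ S.BadA CY Cκ φ₃ φ₄ k (O ω) ω x)) / k := by
    intro ω
    have n2 : 0 ≤ (∑ x, ind (S.EvE c₁ k (O ω) ω x ∧ ¬ S.BadA CY Cκ φ₃ φ₄ k (O ω) ω x)) / k :=
      div_nonneg (sum_nonneg fun _ _ => ind_nonneg _) hk.le
    refine ind_le_of (add_nonneg (ind_nonneg _) n2) ?_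
    rintro ⟨x, y, hxy, hx, hy⟩
    by_cases hb : (¬ ∀ b ∈ O ω, ∀ b' ∈ O ω, ∀ y y', M.big c₁ (S.K2 b) ω y →
        M.big c₁ (S.K2 b') ω y' → conn M.G univ (lev 3 ω) y y') ∨
        ∃ x, k ≤ ((M.cv univ 4 ω x).card : ℝ) ∧ S.BadA CY Cκ φ₃ φ₄ k (O ω) ω x
    · rw [ind_pos hb]; linarith
    rw [ind_neg hb, zero_add, le_div_iff₀ hk, one_mul]
    obtain ⟨hb1, hb2⟩ := not_or.1 hb
    have hc := not_not.1 hb1
    have main : ∀ x, k ≤ ((M.cv univ 4 ω x).card : ℝ) →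
        Disjoint (M.cv univ 4 ω x) (S.GG c₁ (O ω) ω) →
        k ≤ ∑ x, ind (S.EvE c₁ k (O ω) ω x ∧ ¬ S.BadA CY Cκ φ₃ φ₄ k (O ω) ω x) := by
      intro x h3 h4
      rw [← card_flt]
      refine h3.trans (Nat.cast_le.2 (card_le_card fun z hz => ?_))
      have e : M.cv univ 4 ω z = M.cv univ 4 ω x := cl_eq_of_conn (mem_cl.1 hz)
      exact mem_flt.2 ⟨mem_univ _, ⟨e ▸ h3, e ▸ h4⟩, fun h5 => hb2 ⟨z, e ▸ h3, h5⟩⟩
    by_cases d1 : Disjoint (M.cv univ 4 ω x) (S.GG c₁ (O ω) ω)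
    · exact main x hx d1
    by_cases d2 : Disjoint (M.cv univ 4 ω y) (S.GG c₁ (O ω) ω)
    · exact main y hy d2
    obtain ⟨v, hv, hv'⟩ := not_disjoint_iff.1 d1
    obtain ⟨w, hw, hw'⟩ := not_disjoint_iff.1 d2
    obtain ⟨b, hb', y₁, g1, g2⟩ := (mem_flt.1 hv').2
    obtain ⟨b', hb'', y₂, g3, g4⟩ := (mem_flt.1 hw').2
    have g5 := (g2.symm.trans ((hc b hb' b' hb'' y₁ y₂ g1 g3).trans g4)).mono subset_rfl
      (lev_mono (i' := 4) (by decide) subset_rfl)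
    exact absurd ((mem_cl.1 hv).trans (g5.trans (mem_cl.1 hw).symm)) hxy
  refine (PE_mono hπ key).trans ?_
  rw [PE_add, PE_div, PE_sum]
  refine add_le_add h1 (div_le_div_of_nonneg_right ?_ hk.le)
  have := sum_le_card_nsmul univ _ δ₂ fun x _ => h2 x
  rwa [card_univ, nsmul_eq_mul] at this

open Badp in
theorem st_BADP (hEX : St_EX) (hG2 : St_G2) (hGGC : St_GGC) : St_BADP := by
  intro K
  obtain ⟨κ₁, c₁, c, C, l₀, hκ, hc₁, hc₁', hc, hex⟩ := hEX K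
  obtain ⟨c', C', l₀', hc', hg2⟩ := hG2 K κ₁ c₁ hκ.le hc₁ hc₁'
  have hm : 0 < min c c' := lt_min hc hc'
  have hΞ : (0 : ℝ) < K.Ξ := by exact_mod_cast K.hΞ
  refine ⟨κ₁, c₁, min c c' / 2 / K.Ξ, max (max l₀ l₀') (2 * (|C| + |C'|) / min c c'), hκ, hc₁, hc₁',
    by positivity, ?_⟩
  intro V _ _ M B _ _ S q hq hq1 hq2 hq3 hl hN T
  have hπ := hq.prob
  obtain ⟨hl1, -⟩ := max_le_iff.1 hl
  obtain ⟨hN1, hN2⟩ := max_le_iff.1 hN
  have one : ∀ b, PL q (fun ω => ind (¬ S.good c₁ ω b)) ≤ Real.exp (-(min c c' / 2 * M.N)) := by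
    intro b
    have a1 := hex V M q hq hq1 (max_le_iff.1 hl1).1 (max_le_iff.1 hN1).1 (S.U1 b) (S.K0 b)
      ((S.sm b).mono ((S.s12 b).trans (S.lb2 b).1)) (S.lb1 b) (S.in0 b)
    have a2 := hg2 V M q hq hq2 hq3 (max_le_iff.1 hl1).2 (max_le_iff.1 hN1).2 (S.U2 b) (S.K2 b)
      (S.sm b) (S.lb2 b)
    refine le_trans ?_ ((add_le_add a1 a2).trans
      (two_exp hm (min_le_left _ _) (min_le_right _ _) M.N_pos.le hN2))
    refine le_trans (PE_ind_mono hπ fun ω hω => ?_) (PE_ind_or hπ _ _)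
    by_contra hn
    obtain ⟨n1, n2⟩ := not_or.1 hn
    exact hω ⟨not_not.1 n1, fun y y' h1 h2 => by_contra fun h3 => n2 ⟨y, y', h1, h2, h3⟩⟩
  obtain ⟨T', hT, hcard, hcol⟩ := color K.hΞ S.col T
  have ind_le : ∀ ω : Finset (Bit V), ind (∀ b ∈ T, ¬ S.good c₁ ω b) ≤
      ∏ b ∈ T', ind (¬ S.good c₁ ω b) := fun ω =>
    ind_le_of (prod_nonneg fun _ _ => ind_nonneg _) fun h =>
      (prod_eq_one fun b hb => ind_pos (h b (hT hb))).ge
  refine (PE_mono hπ ind_le).trans ?_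
  rw [PE_prod T' (fun b ω => ind (¬ S.good c₁ ω b))
    (fun b => {e : Bit V | e.1 ∈ edges M.G (S.U2 b) ∧ e.2 ≤ 3})
    (fun b _ => ((hGGC K V M B S c₁ ∅).1 b).comp fun P => ind (¬ P))
    (fun b hb b' hb' hne => Set.disjoint_left.2 fun e h1 h2 =>
      disjoint_left.1 (edges_disjoint (S.colD b b' hne (hcol b hb b' hb'))) h1.1 h2.1)]
  refine (prod_le_prod (fun b _ => PE_ind_nonneg hπ _) fun b _ => one b).trans ?_
  rw [prod_const, ← Real.exp_nat_mul]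
  refine Real.exp_le_exp.2 ?_
  have h1 : min c c' / 2 / K.Ξ * M.N * T.card ≤ min c c' / 2 / K.Ξ * M.N * (K.Ξ * T'.card) :=
    mul_le_mul_of_nonneg_left hcard (by have := M.N_pos; positivity)
  have e : min c c' / 2 / K.Ξ * M.N * (K.Ξ * T'.card) = T'.card * (min c c' / 2 * M.N) := by
    field_simp
  linarith

end Pool.Agent.TPC
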