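import Pool.Agent.Lib.TPC.BlueA

/-! Bridges from the product measure to finite sums. -/

open Finset MeasureTheory ProbabilityTheory

namespace Pool.Agent.TPC

open Pool.Agent.Lib.MP_81a99a_pr (lattice torus cluster kthLargest pc MeanField)

namespace BR0

lemma cyl_eq {ι : Type} {E s : Finset ι} (hs : s ⊆ E) (ω : Set ι) :
    flt E (· ∈ ω) = s ↔ ∀ i ∈ E, (i ∈ ω ↔ i ∈ s) := by
  constructor
  · intro h i hi
    rw [← h, mem_flt]
    exact ⟨fun h2 => ⟨hi, h2⟩, fun h2 => h2.2⟩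
  · intro h
    ext i
    rw [mem_flt]
    exact ⟨fun h2 => (h i h2.1).1 h2.2, fun h2 => ⟨hs h2, (h i (hs h2)).2 h2⟩⟩

lemma meas_cyl {ι : Type} {E s : Finset ι} (hs : s ⊆ E) :
    MeasurableSet {ω : Set ι | flt E (· ∈ ω) = s} := by
  have e : {ω : Set ι | flt E (· ∈ ω) = s} =
      ⋂ i ∈ E, (fun ω : Set ι => i ∈ ω) ⁻¹' {P | P ↔ i ∈ s} := by
    ext ω
    simp only [Set.mem_ofPred_eq, cyl_eq hs, Set.mem_iInter, Set.mem_preimage]
  rw [e]
  exact Finset.measurableSet_biInter _ fun i _ => measurable_set_mem i MeasurableSet.of_discrete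

lemma real_cyl {ι : Type} [DecidableEq ι] (u : Set ι) (p : unitInterval) {E s : Finset ι}
    (hE : (E : Set ι) ⊆ u) (hs : s ⊆ E) :
    (setBernoulli u p).real {ω | flt E (· ∈ ω) = s} = wt E (fun _ => (p : ℝ)) s := by
  rw [measureReal_def, setBernoulli_apply']
  have e2 : (fun q : ι → Prop => {i | q i}) ⁻¹' {ω | flt E (· ∈ ω) = s} =
      Set.pi (E : Set ι) fun i => {P | P ↔ i ∈ s} := by
    ext q
    simp only [Set.mem_preimage, Set.mem_ofPred_eq, cyl_eq hs, Set.mem_pi, Finset.mem_coe]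
  rw [e2, Measure.infinitePi_pi _ (fun _ _ => MeasurableSet.of_discrete), ENNReal.toReal_prod, wt]
  refine Finset.prod_congr rfl fun e he => ?_
  have h1 : e ∈ u := hE he
  simp only [Measure.add_apply, Measure.smul_apply,
    Measure.dirac_apply' _ MeasurableSet.of_discrete, Set.indicator, Set.mem_ofPred_eq]
  by_cases h2 : e ∈ s <;> simp [h1, h2]

lemma event_eq {ι : Type} (E : Finset ι) (A : Finset ι → Prop) :
    {ω : Set ι | A (flt E (· ∈ ω))} = ⋃ s ∈ flt E.powerset A, {ω | flt E (· ∈ ω) = s} := by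
  ext ω
  simp only [Set.mem_ofPred_eq, Set.mem_iUnion, mem_flt, Finset.mem_powerset]
  constructor
  · intro h
    exact ⟨_, ⟨flt_subset _ _, h⟩, rfl⟩
  · rintro ⟨s, hs, rfl⟩
    exact hs.2

variable {V : Type} [Fintype V] [DecidableEq V]

lemma cluster_eq (G : SimpleGraph V) {ω : Set (Sym2 V)} (hω : ω ⊆ G.edgeSet) (x : V) :
    cluster ω x = (cl G univ (flt (edges G univ) (· ∈ ω)) x : Set V) := by
  have e : SimpleGraph.fromEdgeSet ω = opD G univ (flt (edges G univ) (· ∈ ω)) := by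
    ext a b
    rw [SimpleGraph.fromEdgeSet_adj, opD_adj, mem_flt, mk_mem_edges]
    constructor
    · rintro ⟨h1, -⟩
      have h2 : G.Adj a b := hω h1
      exact ⟨h2, mem_univ _, mem_univ _, ⟨h2, mem_univ _, mem_univ _⟩, h1⟩
    · rintro ⟨h1, -, -, -, h2⟩
      exact ⟨h2, h1.ne⟩
  ext y
  rw [Finset.mem_coe, mem_cl, conn, ← e]
  exact ⟨fun h => ⟨mem_univ _, h⟩, fun h => h.2⟩

omit [DecidableEq V] in
lemma le_kth_iff (ω : Set (Sym2 V)) {m : ℕ} (hm : 0 < m) {t : ℝ} (ht : 0 < t) :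
    t ≤ kthLargest m ω ↔ ∃ S : Finset V, S.card = m ∧
      (∀ x ∈ S, ∀ y ∈ S, x ≠ y → y ∉ cluster ω x) ∧ ∀ x ∈ S, t ≤ (cluster ω x).ncard := by
  have hb : BddAbove {j | ∃ S : Finset V, S.card = m ∧
      (∀ x ∈ S, ∀ y ∈ S, x ≠ y → y ∉ cluster ω x) ∧ ∀ x ∈ S, j ≤ (cluster ω x).ncard} := by
    refine ⟨Fintype.card V, ?_⟩
    rintro j ⟨S, h1, _, h3⟩
    obtain ⟨x, hx⟩ := Finset.card_pos.1 (show 0 < S.card by omega)
    refine (h3 x hx).trans ?_
    rw [← Nat.card_eq_fintype_card, ← Set.ncard_univ]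
    exact Set.ncard_le_ncard (Set.subset_univ _)
  constructor
  · intro h
    have h0 : 0 < kthLargest m ω := by exact_mod_cast ht.trans_le h
    have hne : {j | ∃ S : Finset V, S.card = m ∧
        (∀ x ∈ S, ∀ y ∈ S, x ≠ y → y ∉ cluster ω x) ∧
        ∀ x ∈ S, j ≤ (cluster ω x).ncard}.Nonempty := by
      by_contra h1
      rw [kthLargest, Set.not_nonempty_iff_eq_empty.1 h1] at h0
      simp at h0
    obtain ⟨S, h1, h2, h3⟩ := Nat.sSup_mem hne hb
    exact ⟨S, h1, h2, fun x hx => h.trans (Nat.cast_le.2 (h3 x hx))⟩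
  · rintro ⟨S, h1, h2, h3⟩
    have : ⌈t⌉₊ ≤ kthLargest m ω := le_csSup hb ⟨S, h1, h2, fun x hx => Nat.ceil_le.2 (h3 x hx)⟩
    exact Nat.ceil_le.1 this

lemma two_iff (G : SimpleGraph V) {ω : Set (Sym2 V)} (hω : ω ⊆ G.edgeSet) {t : ℝ} (ht : 0 < t) :
    t ≤ kthLargest 2 ω ↔ Two G t (flt (edges G univ) (· ∈ ω)) := by
  rw [le_kth_iff ω two_pos ht]
  simp only [cluster_eq G hω, Set.ncard_coe_finset, Finset.mem_coe, mem_cl]
  constructor
  · rintro ⟨S, h1, h2, h3⟩
    obtain ⟨x, y, hxy, rfl⟩ := Finset.card_eq_two.1 h1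
    exact ⟨x, y, h2 x (by simp) y (by simp) hxy, h3 x (by simp), h3 y (by simp)⟩
  · rintro ⟨x, y, h1, h2, h3⟩
    have hxy : x ≠ y := by
      rintro rfl
      exact h1 (conn.refl (mem_univ _))
    refine ⟨{x, y}, Finset.card_pair hxy, ?_, ?_⟩
    · intro a ha b hb hab
      rcases Finset.mem_insert.1 ha with rfl | ha
      · rcases Finset.mem_insert.1 hb with rfl | hb
        · exact absurd rfl hab
        · rw [Finset.mem_singleton.1 hb]; exact h1
      · rw [Finset.mem_singleton.1 ha] at hab ⊢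
        rcases Finset.mem_insert.1 hb with rfl | hb
        · exact fun h => h1 h.symm
        · exact absurd (Finset.mem_singleton.1 hb).symm hab
    · intro a ha
      rcases Finset.mem_insert.1 ha with rfl | ha
      · exact h2
      · rw [Finset.mem_singleton.1 ha]; exact h3

lemma one_iff (G : SimpleGraph V) {ω : Set (Sym2 V)} (hω : ω ⊆ G.edgeSet) {t : ℝ} (ht : 0 < t) :
    t ≤ kthLargest 1 ω ↔ ∃ x, t ≤ (cl G univ (flt (edges G univ) (· ∈ ω)) x).card := by
  rw [le_kth_iff ω one_pos ht]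
  simp only [cluster_eq G hω, Set.ncard_coe_finset, Finset.mem_coe, mem_cl]
  constructor
  · rintro ⟨S, h1, -, h3⟩
    obtain ⟨x, rfl⟩ := Finset.card_eq_one.1 h1
    exact ⟨x, h3 x (by simp)⟩
  · rintro ⟨x, h⟩
    refine ⟨{x}, Finset.card_singleton x, ?_, ?_⟩
    · intro a ha b hb hab
      exact absurd ((Finset.mem_singleton.1 ha).trans (Finset.mem_singleton.1 hb).symm) hab
    · intro a ha
      rw [Finset.mem_singleton.1 ha]; exact h

lemma bridge (h : St_BR0) (G : SimpleGraph V) (p : unitInterval) (B : Set (Sym2 V) → Prop)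
    (A : Finset (Sym2 V) → Prop) (hA : DepOn A (edges G univ : Set (Sym2 V)))
    (hB : ∀ ω, ω ⊆ G.edgeSet → (B ω ↔ A (flt (edges G univ) (· ∈ ω)))) :
    (setBernoulli G.edgeSet p).real {ω | B ω} = PE univ (fun _ => (p : ℝ)) fun ω => ind (A ω) := by
  have hE : (edges G univ : Set (Sym2 V)) ⊆ G.edgeSet := fun e he =>
    (mem_edges.1 (Finset.mem_coe.1 he)).1
  rw [PE_restrict (subset_univ (edges G univ)) (hA.comp ind) (fun e he _ => he),
    ← (h _ G.edgeSet p _ hE A).2]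
  refine measureReal_congr ?_
  filter_upwards [setBernoulli_ae_subset (u := G.edgeSet) (p := p)] with ω hω
  exact propext (hB ω hω)

end BR0

theorem st_BR0 : St_BR0 := by
  intro ι _ u p E hE A
  have hm : ∀ s ∈ flt E.powerset A, MeasurableSet {ω : Set ι | flt E (· ∈ ω) = s} :=
    fun s hs => BR0.meas_cyl (Finset.mem_powerset.1 (mem_flt.1 hs).1)
  rw [BR0.event_eq]
  refine ⟨Finset.measurableSet_biUnion _ hm, ?_⟩
  rw [measureReal_biUnion_finset ?_ hm, sum_flt, PE]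
  · refine Finset.sum_congr rfl fun s hs => ?_
    rw [BR0.real_cyl u p hE (Finset.mem_powerset.1 hs), mul_comm]
  · intro s _ t _ hst
    rw [Function.onFun, Set.disjoint_left]
    intro ω h1 h2
    exact hst (h1.symm.trans h2)

theorem st_BRT (h : St_BR0) : St_BRT := by
  intro d n _ p t ht
  refine ⟨BR0.bridge h _ p _ _ ?_ fun ω hω => BR0.two_iff _ hω ht,
    BR0.bridge h _ p _ _ ?_ fun ω hω => BR0.one_iff _ hω ht⟩
  · intro ω ω' h2
    have h3 : ∀ x, cl (torus d n) univ ω x = cl (torus d n) univ ω' x :=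
      fun x => dep_cl _ _ x ω ω' h2
    have h4 : ∀ x y, conn (torus d n) univ ω x y = conn (torus d n) univ ω' x y :=
      fun x y => dep_conn _ _ x y ω ω' h2
    simp only [Two, h3, h4]
  · intro ω ω' h2
    have h3 : ∀ x, cl (torus d n) univ ω x = cl (torus d n) univ ω' x :=
      fun x => dep_cl _ _ x ω ω' h2
    simp only [h3]

end Pool.Agent.TPC
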