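import Pool.Agent.Lib.TPC.Path

open Finset MeasureTheory ProbabilityTheory Filter Topology

namespace Pool.Agent.TPC

open Pool.Agent.Lib.MP_81a99a_pr (lattice torus cluster kthLargest pc MeanField)

namespace BRZ

variable {d : ℕ}

/-- restriction of a configuration to the edges of `D` -/
noncomputable def res (D : Finset (Zd d)) (ω : Set (Sym2 (Zd d))) : Finset (Sym2 (Zd d)) :=
  flt (edges (lattice d) D) (· ∈ ω)

lemma res_mono {D D' : Finset (Zd d)} (h : D ⊆ D') (ω : Set (Sym2 (Zd d))) :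
    res D ω ⊆ res D' ω := fun _ he =>
  mem_flt.2 ⟨edges_mono h (mem_flt.1 he).1, (mem_flt.1 he).2⟩

lemma mem_box {x y : Zd d} {r : ℕ} : y ∈ box x r ↔ ∀ i, x i - r ≤ y i ∧ y i ≤ x i + r := by
  simp [box, rect, Fintype.mem_piFinset]

lemma box_mono (x : Zd d) {r s : ℕ} (h : r ≤ s) : box x r ⊆ box x s := fun y hy => by
  rw [mem_box] at hy ⊢
  intro i
  have := hy i
  omega

lemma ev_box (y : Zd d) : ∀ᶠ R : ℕ in atTop, y ∈ box (0 : Zd d) R := by
  simp only [mem_box]
  refine eventually_all.2 fun i => ?_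
  filter_upwards [eventually_ge_atTop (y i).natAbs] with R hR
  simp only [Pi.zero_apply]
  omega

lemma sub_cluster {D : Finset (Zd d)} {ω : Set (Sym2 (Zd d))} {x y : Zd d}
    (h : conn (lattice d) D (res D ω) x y) : y ∈ cluster ω x :=
  h.induction (P := fun b => (SimpleGraph.fromEdgeSet ω).Reachable x b) .rfl
    fun _ _ h1 ha _ _ he => h1.trans (SimpleGraph.Adj.reachable
      ((SimpleGraph.fromEdgeSet_adj _).2 ⟨(mem_flt.1 he).2, ha.ne⟩))

lemma ev_conn {ω : Set (Sym2 (Zd d))} (hω : ω ⊆ (lattice d).edgeSet) {y : Zd d}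
    (h : y ∈ cluster ω 0) :
    ∀ᶠ R : ℕ in atTop, conn (lattice d) (box 0 R) (res (box 0 R) ω) 0 y := by
  have h' := (SimpleGraph.reachable_iff_reflTransGen _ _).1 h
  induction h' with
  | refl => exact (ev_box 0).mono fun R hR => conn.refl hR
  | @tail a b h1 h2 ih =>
    have he := ((SimpleGraph.fromEdgeSet_adj _).1 h2).1
    have ha : (lattice d).Adj a b := hω he
    filter_upwards [ih ((SimpleGraph.reachable_iff_reflTransGen _ _).2 h1), ev_box b] with R h3 h4
    exact h3.tail h4 ha (mem_flt.2 ⟨mk_mem_edges.2 ⟨ha, h3.right, h4⟩, he⟩) h3.right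

lemma br (h : St_BR0) (p : unitInterval) (D : Finset (Zd d)) (x : Zd d)
    (A : Finset (Zd d) → Prop) :
    MeasurableSet {ω | A (cl (lattice d) D (res D ω) x)} ∧
    (setBernoulli (lattice d).edgeSet p).real {ω | A (cl (lattice d) D (res D ω) x)} =
      ez p D x (fun C => ind (A C)) :=
  h _ (lattice d).edgeSet p (edges (lattice d) D) (fun _ he => (mem_edges.1 he).1)
    fun ω => A (cl (lattice d) D ω x)

lemma lim_le (h : St_BR0) (p : unitInterval) (A : Finset (Zd d) → Prop) (hA : Monotone A)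
    (S : Set (Set (Sym2 (Zd d)))) (b : ℝ)
    (hS : ∀ ω ∈ S, ω ⊆ (lattice d).edgeSet →
      ∃ R : ℕ, A (cl (lattice d) (box 0 R) (res (box 0 R) ω) 0))
    (hb : ∀ R : ℕ, ez p (box (0 : Zd d) R) 0 (fun C => ind (A C)) ≤ b) :
    (setBernoulli (lattice d).edgeSet p).real S ≤ b := by
  set μ := setBernoulli (lattice d).edgeSet p with hμ
  set E : ℕ → Set (Set (Sym2 (Zd d))) :=
    fun R => {ω | A (cl (lattice d) (box 0 R) (res (box 0 R) ω) 0)} with hE
  have hm : Monotone E := fun R R' hR ω hω =>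
    hA (cl_mono (box_mono 0 hR) (res_mono (box_mono 0 hR) ω)) hω
  have h1 : μ S ≤ μ (⋃ R, E R) := by
    refine measure_mono_ae ?_
    filter_upwards [setBernoulli_ae_subset (u := (lattice d).edgeSet) (p := p)] with ω h1 h2
    exact Set.mem_iUnion.2 (hS ω h2 h1)
  have h2 : Tendsto (fun R => μ.real (E R)) atTop (𝓝 (μ.real (⋃ R, E R))) :=
    (ENNReal.tendsto_toReal (measure_ne_top _ _)).comp (tendsto_measure_iUnion_atTop hm)
  refine (ENNReal.toReal_mono (measure_ne_top _ _) h1).trans (le_of_tendsto' h2 fun R => ?_)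
  exact ((br h p _ 0 A).2).trans_le (hb R)

lemma iso (a : Zd d) (D : Finset (Zd d)) : LocIso (lattice d) (lattice d) (· + a) D := by
  refine ⟨fun x _ y _ h => add_right_cancel h, fun x _ y _ => ?_⟩
  have key : ∀ u v : Zd d, (∃ i, v + a = u + a + Pi.single i 1) ↔ ∃ i, v = u + Pi.single i 1 :=
    fun u v => exists_congr fun i => by
      rw [add_right_comm u a, add_left_inj]
  simp only [lattice, SimpleGraph.fromRel_adj, key, ne_eq, add_left_inj]

lemma box_image (x : Zd d) (R : ℕ) : (box (0 : Zd d) R).image (· + x) = box x R := by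
  ext y
  rw [Finset.mem_image, mem_box]
  constructor
  · rintro ⟨z, hz, rfl⟩ i
    have := mem_box.1 hz i
    simp only [Pi.zero_apply, Pi.add_apply] at this ⊢
    omega
  · intro hy
    refine ⟨y - x, mem_box.2 fun i => ?_, sub_add_cancel y x⟩
    have := hy i
    simp only [Pi.zero_apply, Pi.sub_apply]
    omega

lemma tz_br (h : St_BR0) (p : unitInterval) (D : Finset (Zd d)) (x y : Zd d) :
    MeasurableSet {ω | conn (lattice d) D (res D ω) x y} ∧
    (setBernoulli (lattice d).edgeSet p).real {ω | conn (lattice d) D (res D ω) x y} =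
      tz p D x y := by
  have := br h p D x (fun C => y ∈ C)
  simp only [mem_cl] at this
  rw [tz, tau_eq_EC]
  exact this

lemma one_le_norm {z : Zd d} (hz : z ≠ 0) : 1 ≤ ‖z‖ := by
  obtain ⟨i, hi⟩ := Function.ne_iff.1 hz
  refine le_trans ?_ (norm_le_pi_norm z i)
  rw [Int.norm_eq_abs]
  exact_mod_cast Int.one_le_abs hi

lemma prob (p : unitInterval) : Prob (fun _ : Sym2 (Zd d) => (p : ℝ)) := Prob.const p.2.1 p.2.2

lemma up (h : St_BR0) (hd : 9 ≤ d) (p : unitInterval) {C : ℝ}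
    (hC : ∀ x : Zd d, x ≠ 0 → (setBernoulli (lattice d).edgeSet p).real {ω | x ∈ cluster ω 0} ≤
      C * ‖x‖ ^ (2 - (d : ℝ))) (D : Finset (Zd d)) (x y : Zd d) :
    tz p D x y ≤ (1 + |C| * 2 ^ ((d : ℝ) - 2)) * kk (d - 2) (zd x y) := by
  have hd' : (9 : ℝ) ≤ d := by exact_mod_cast hd
  have hk : 0 < kk (d - 2) (zd x y) := by
    unfold kk zd
    positivity
  by_cases hx : x ∈ D
  swap
  · rw [tz, tau_of_notMem hx]
    positivity
  by_cases hy : y ∈ D
  swap
  · rw [tz, tau_comm, tau_of_notMem hy]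
    positivity
  by_cases hxy : x = y
  · subst hxy
    have : kk (d - 2) (zd x x) = 1 := by simp [kk, zd]
    rw [this, tz, tau_self hx]
    have : 0 ≤ |C| * 2 ^ ((d : ℝ) - 2) := by positivity
    linarith
  have hz : y + -x ≠ 0 := fun e => hxy (add_neg_eq_zero.1 e).symm
  have e1 := (iso (-x) D).tau_eq hx hy (p : ℝ)
  simp only [add_neg_cancel] at e1
  have e2 : zd x y = ‖y + -x‖ := by rw [zd, norm_sub_rev, sub_eq_add_neg]
  have h1 := one_le_norm hz
  have h2 : ‖y + -x‖ ^ (2 - (d : ℝ)) ≤ 2 ^ ((d : ℝ) - 2) * kk (d - 2) (zd x y) := by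
    rw [e2, kk, neg_sub]
    have a1 : (2 * ‖y + -x‖) ^ (2 - (d : ℝ)) ≤ (1 + ‖y + -x‖) ^ (2 - (d : ℝ)) :=
      Real.rpow_le_rpow_of_nonpos (by positivity) (by linarith) (by linarith)
    rw [Real.mul_rpow (by norm_num) (norm_nonneg _)] at a1
    have a2 : (2 : ℝ) ^ ((d : ℝ) - 2) * 2 ^ (2 - (d : ℝ)) = 1 := by
      rw [← Real.rpow_add (by norm_num)]
      simp
    calc ‖y + -x‖ ^ (2 - (d : ℝ))
        = 2 ^ ((d : ℝ) - 2) * (2 ^ (2 - (d : ℝ)) * ‖y + -x‖ ^ (2 - (d : ℝ))) := by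
          rw [← mul_assoc, a2, one_mul]
      _ ≤ _ := by gcongr
  calc tz p D x y = tz p (D.image (· + -x)) 0 (y + -x) := e1.symm
    _ ≤ (setBernoulli (lattice d).edgeSet p).real {ω | y + -x ∈ cluster ω 0} := by
        rw [← (tz_br h p _ _ _).2]
        exact measureReal_mono (fun ω hω => sub_cluster hω) (measure_ne_top _ _)
    _ ≤ C * ‖y + -x‖ ^ (2 - (d : ℝ)) := hC _ hz
    _ ≤ |C| * (2 ^ ((d : ℝ) - 2) * kk (d - 2) (zd x y)) :=
        mul_le_mul (le_abs_self C) h2 (by positivity) (abs_nonneg C)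
    _ ≤ _ := by nlinarith

lemma low (h : St_BR0) (hd : 9 ≤ d) (p : unitInterval) {c : ℝ} (hc : 0 < c)
    (hC : ∀ x : Zd d, x ≠ 0 → c * ‖x‖ ^ (2 - (d : ℝ)) ≤
      (setBernoulli (lattice d).edgeSet p).real {ω | x ∈ cluster ω 0}) (x y : Zd d) :
    ∃ R : ℕ, min (c / 2) 1 * kk (d - 2) (zd x y) ≤ tz p (box x R) x y := by
  have hd' : (9 : ℝ) ≤ d := by exact_mod_cast hd
  have hk : 0 < kk (d - 2) (zd x y) := by
    unfold kk zd
    positivity
  by_cases hxy : x = y
  · subst hxy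
    have : kk (d - 2) (zd x x) = 1 := by simp [kk, zd]
    refine ⟨0, ?_⟩
    rw [this, tz, tau_self (mem_box.2 fun i => by simp), mul_one]
    exact min_le_right _ _
  have hz : y - x ≠ 0 := fun e => hxy (sub_eq_zero.1 e).symm
  have e2 : zd x y = ‖y - x‖ := by rw [zd, norm_sub_rev]
  have h1 := one_le_norm hz
  have h2 : kk (d - 2) (zd x y) ≤ ‖y - x‖ ^ (2 - (d : ℝ)) := by
    rw [e2, kk, neg_sub]
    exact Real.rpow_le_rpow_of_nonpos (by linarith) (by linarith) (by linarith)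
  by_contra hn
  push Not at hn
  have h3 := lim_le h p (fun C => y - x ∈ C) (fun _ _ hab h => hab h)
    {ω | y - x ∈ cluster ω 0} (min (c / 2) 1 * kk (d - 2) (zd x y))
    (fun ω h1 h2 => by
      obtain ⟨R, hR⟩ := (ev_conn h2 h1).exists
      exact ⟨R, mem_cl.2 hR⟩)
    (fun R => by
      by_cases hy : y - x ∈ box (0 : Zd d) R
      · have e1 := (iso x (box 0 R)).tau_eq (mem_box.2 fun i => by simp) hy (p : ℝ) (x := 0)
        simp only [zero_add, sub_add_cancel, box_image] at e1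
        rw [ez, ← tau_eq_EC, ← e1]
        exact (hn R).le
      · rw [ez, ← tau_eq_EC, tau_comm, tau_of_notMem hy]
        positivity)
  have h4 := (hC _ hz).trans h3
  have h5 : min (c / 2) 1 * kk (d - 2) (zd x y) ≤ c / 2 * kk (d - 2) (zd x y) := by
    gcongr
    exact min_le_left _ _
  have h6 : c * kk (d - 2) (zd x y) ≤ c * ‖y - x‖ ^ (2 - (d : ℝ)) := by gcongr
  nlinarith [mul_pos hc hk]

lemma tz_zero (h : St_BR0) (D : Finset (Zd d)) {x y : Zd d} (hxy : x ≠ y) :
    tz (0 : unitInterval) D x y = 0 := by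
  obtain ⟨h1, h2⟩ := tz_br h 0 D x y
  rw [← h2, setBernoulli_zero, measureReal_def, Measure.dirac_apply' _ h1,
    Set.indicator_of_notMem]
  · rfl
  · intro hc
    exact hxy (conn.induction (P := fun b => x = b) hc rfl
      fun _ _ _ _ _ _ he => absurd (mem_flt.1 he).2 (Set.notMem_empty _))

lemma tz_one (h : St_BR0) (D : Finset (Zd d)) {x y : Zd d}
    (hc : conn (lattice d) D (edges (lattice d) D) x y) : tz (1 : unitInterval) D x y = 1 := by
  obtain ⟨h1, h2⟩ := tz_br h 1 D x y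
  rw [← h2, setBernoulli_one, measureReal_def, Measure.dirac_apply' _ h1, Set.indicator_of_mem]
  · rfl
  · exact hc.mono subset_rfl fun e he => mem_flt.2 ⟨he, (mem_edges.1 he).1⟩

lemma axis (i : Fin d) (n : ℕ) : ∃ D : Finset (Zd d),
    conn (lattice d) D (edges (lattice d) D) 0 (Pi.single i (n : ℤ)) := by
  induction n with
  | zero => exact ⟨{0}, by simpa using conn.refl (Finset.mem_singleton_self _)⟩
  | succ n ih =>
    obtain ⟨D, hD⟩ := ih
    have hs : D ⊆ insert (Pi.single i ((n + 1 : ℕ) : ℤ)) D := Finset.subset_insert _ _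
    have ha : (lattice d).Adj (Pi.single i (n : ℤ)) (Pi.single i ((n + 1 : ℕ) : ℤ)) := by
      rw [lattice, SimpleGraph.fromRel_adj]
      refine ⟨fun e => ?_, Or.inl ⟨i, ?_⟩⟩
      · have := congrFun e i
        simp at this
      · rw [← Pi.single_add]
        push_cast
        rfl
    exact ⟨_, (hD.mono hs (edges_mono hs)).tail (Finset.mem_insert_self _ _) ha
      (mk_mem_edges.2 ⟨ha, hs hD.right, Finset.mem_insert_self _ _⟩) (hs hD.right)⟩

end BRZ

open BRZ in
theorem st_BRZ (h : St_BR0) : St_BRZ := by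
  rintro d hd ⟨c, C, hc, hH⟩
  have hd' : (9 : ℝ) ≤ d := by exact_mod_cast hd
  have hu := up h hd (pc d) fun x hx => (hH x hx).2
  have hl := low h hd (pc d) hc fun x hx => (hH x hx).1
  have hc' : 0 < min (c / 2) 1 := lt_min (by positivity) one_pos
  let i : Fin d := ⟨0, by omega⟩
  refine ⟨_, _, hd, ?_, ?_, hc', hu, hl⟩
  · refine lt_of_le_of_ne (pc d).2.1 fun e => ?_
    have e' : pc d = 0 := Subtype.ext e.symm
    obtain ⟨R, hR⟩ := hl 0 (Pi.single i 1)
    have hne : (0 : Zd d) ≠ Pi.single i 1 := fun e => by simpa using congrFun e i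
    rw [e', tz_zero h _ hne] at hR
    have hk : 0 < kk (d - 2) (zd (0 : Zd d) (Pi.single i 1)) := by
      unfold kk zd
      positivity
    exact absurd hR (not_le.2 (mul_pos hc' hk))
  · refine lt_of_le_of_ne (pc d).2.2 fun e => ?_
    have e' : pc d = 1 := Subtype.ext e
    set K : ℝ := 1 + |C| * 2 ^ ((d : ℝ) - 2) with hK
    have hK0 : 0 < K := by positivity
    obtain ⟨n, hn⟩ := exists_nat_ge K
    obtain ⟨D, hD⟩ := axis i n
    have h1 := hu D 0 (Pi.single i (n : ℤ))
    rw [e', tz_one h D hD] at h1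
    have h2 : zd (0 : Zd d) (Pi.single i (n : ℤ)) = n := by
      rw [zd, zero_sub, norm_neg, Pi.norm_single, Int.norm_natCast]
    have hn0 : (0 : ℝ) ≤ n := Nat.cast_nonneg n
    have h3 : kk (d - 2) (n : ℝ) ≤ (1 + n : ℝ)⁻¹ := by
      rw [kk, ← Real.rpow_neg_one]
      exact Real.rpow_le_rpow_of_exponent_le (by linarith) (by linarith)
    rw [h2] at h1
    have h4 : K * kk (d - 2) (n : ℝ) ≤ K * (1 + n : ℝ)⁻¹ := by gcongr
    have h5 : K * (1 + n : ℝ)⁻¹ < 1 := by
      rw [← div_eq_mul_inv, div_lt_one (by positivity)]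
      linarith
    linarith

open BRZ in
theorem st_BRC (h : St_BR0) : St_BRC := by
  intro d p k b hb
  refine lim_le h p (fun C => k ≤ C.card) (fun _ _ hab h => h.trans (Finset.card_le_card hab))
    _ b (fun ω h1 h2 => ?_) hb
  obtain ⟨T, hT, hk⟩ := Set.exists_subset_encard_eq h1
  have hf : T.Finite := Set.finite_of_encard_eq_coe hk
  lift T to Finset (Zd d) using hf
  have hk' : T.card = k := by
    rw [Set.encard_coe_eq_coe_finsetCard] at hk
    exact_mod_cast hk
  obtain ⟨R, hR⟩ := ((eventually_all_finset T).2 fun y hy => ev_conn h2 (hT hy)).exists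
  exact ⟨R, hk' ▸ Finset.card_le_card fun y hy => mem_cl.2 (hR y hy)⟩

end Pool.Agent.TPC
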