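import Pool.Agent.Lib.TPC.BlueC

/-! The contact lemma. -/

open Finset

set_option linter.unusedSectionVars false

namespace Pool.Agent.TPC

namespace CL

variable {K : Kc} {V : Type} [Fintype V] [DecidableEq V] (M : Core K V)

/-- weighted number of neighbours in `A₁` -/
noncomputable def ph (a A₁ : Finset V) (v : V) : ℝ := ∑ u ∈ A₁, ind (M.G.Adj v u) * M.pot a u

/-- edges from `B` to `D` -/
noncomputable def tk (B D : Finset V) : Finset (V × V) := flt (B ×ˢ D) fun t => M.G.Adj t.1 t.2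

lemma sum_tk (B D : Finset V) (F : V × V → ℝ) :
    ∑ t ∈ tk M B D, F t = ∑ b ∈ B, ∑ z ∈ D, ind (M.G.Adj b z) * F (b, z) := by
  rw [tk, sum_flt, Finset.sum_product]

lemma ph_nonneg (a A₁ : Finset V) (v : V) : 0 ≤ ph M a A₁ v :=
  Finset.sum_nonneg fun _ _ => mul_nonneg (ind_nonneg _) (M.pot_nonneg _ _)

lemma C_pos : 0 < K.C := by linarith [K.hC]

lemma conv_ph (a A₁ D : Finset V) (v : V) :
    ∑ y ∈ D, M.g v y * ph M a A₁ y ≤ K.Δ * K.C * ∑ u ∈ A₁, M.g v u * M.pot a u := by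
  simp only [ph, Finset.mul_sum]
  rw [Finset.sum_comm]
  refine Finset.sum_le_sum fun u _ => ?_
  have h0 : 0 ≤ K.C * (M.g v u * M.pot a u) :=
    mul_nonneg C_pos.le (mul_nonneg (M.g_nonneg _ _) (M.pot_nonneg _ _))
  calc ∑ y ∈ D, M.g v y * (ind (M.G.Adj y u) * M.pot a u)
      ≤ ∑ y ∈ D, ind (M.G.Adj u y) * (K.C * (M.g v u * M.pot a u)) := by
        refine Finset.sum_le_sum fun y _ => ?_
        by_cases h : M.G.Adj u y
        · rw [ind_pos h, ind_pos h.symm, one_mul, one_mul, ← mul_assoc, M.symm v y, M.symm v u]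
          exact mul_le_mul_of_nonneg_right (M.nbr u y v h) (M.pot_nonneg _ _)
        · rw [ind_neg h, ind_neg fun h2 => h h2.symm]; simp
    _ ≤ K.Δ * (K.C * (M.g v u * M.pot a u)) := by
        rw [← Finset.sum_mul]
        exact mul_le_mul_of_nonneg_right (M.deg.sum_ind u D) h0
    _ = _ := by ring

lemma conv_le1 {a A₁ : Finset V} {M₀ M₁ : ℝ} (h0 : ∀ u, M.pot a u ≤ M₀) (h1 : ∀ u, M.pot A₁ u ≤ M₁)
    (v : V) : ∑ u ∈ A₁, M.g v u * M.pot a u ≤ M₁ * M₀ := by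
  calc ∑ u ∈ A₁, M.g v u * M.pot a u ≤ ∑ u ∈ A₁, M.g v u * M₀ :=
        Finset.sum_le_sum fun u _ => mul_le_mul_of_nonneg_left (h0 u) (M.g_nonneg _ _)
    _ = M.pot A₁ v * M₀ := by rw [← Finset.sum_mul]; rfl
    _ ≤ M₁ * M₀ := mul_le_mul_of_nonneg_right (h1 v) ((M.pot_nonneg a v).trans (h0 v))

lemma conv_le2 {a A₁ : Finset V} {M₁ : ℝ} (h1 : ∀ u, M.pot A₁ u ≤ M₁) (v : V) :
    ∑ u ∈ A₁, M.g v u * M.pot a u ≤ 2 * K.C * M₁ * M.pot a v := by
  have e : ∑ u ∈ A₁, M.g v u * M.pot a u = ∑ y ∈ a, ∑ u ∈ A₁, M.g v u * M.g u y := by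
    simp only [Core.pot, Finset.mul_sum]; exact Finset.sum_comm
  rw [e, Core.pot, Finset.mul_sum]
  refine Finset.sum_le_sum fun y _ => ?_
  calc ∑ u ∈ A₁, M.g v u * M.g u y ≤ ∑ u ∈ A₁, K.C * M.g v y * (M.g v u + M.g y u) :=
        Finset.sum_le_sum fun u _ => by rw [M.symm y u]; exact M.k3 v u y
    _ = K.C * M.g v y * (M.pot A₁ v + M.pot A₁ y) := by
        rw [← Finset.mul_sum, Finset.sum_add_distrib]; rfl
    _ ≤ K.C * M.g v y * (M₁ + M₁) :=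
        mul_le_mul_of_nonneg_left (add_le_add (h1 v) (h1 y)) (mul_nonneg C_pos.le (M.g_nonneg _ _))
    _ = _ := by ring

/-- second moment of the payoff -/
lemma second (hET : St_ET2) {a A₁ U D : Finset V} {M₀ M₁ L : ℝ} (h0 : ∀ u, M.pot a u ≤ M₀)
    (h1 : ∀ u, M.pot A₁ u ≤ M₁) (hD : D ⊆ U)
    (hL : ∀ v, ∑ u ∈ U, M.g v u * M.Wp a u ≤ L * M.Wp a v) (z : V) :
    EC M.G (fun _ => M.p) D z (fun C => (∑ v ∈ C, ph M a A₁ v) ^ 2) ≤
      2 * K.Δ ^ 2 * K.C ^ 3 * M₀ * M₁ ^ 2 * L * M.Wp a z := by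
  have hM0 : 0 ≤ M₀ := (M.pot_nonneg a z).trans (h0 z)
  have hM1 : 0 ≤ M₁ := (M.pot_nonneg A₁ z).trans (h1 z)
  have hC := (C_pos (K := K)).le
  have h := hET V M.G (fun _ => M.p) M.prob D z (fun y u => ph M a A₁ y * ph M a A₁ u)
    fun y u => mul_nonneg (ph_nonneg M _ _ _) (ph_nonneg M _ _ _)
  simp only [sq (∑ v ∈ _, ph M a A₁ v), Finset.sum_mul_sum]
  refine h.trans ?_
  have key : ∀ v, ∑ y ∈ D, ∑ u ∈ D, tau M.G (fun _ => M.p) D v y * tau M.G (fun _ => M.p) D v u *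
      (ph M a A₁ y * ph M a A₁ u) ≤ 2 * K.Δ ^ 2 * K.C ^ 3 * M₀ * M₁ ^ 2 * M.Wp a v := by
    intro v
    have e : ∑ y ∈ D, ∑ u ∈ D, tau M.G (fun _ => M.p) D v y * tau M.G (fun _ => M.p) D v u *
        (ph M a A₁ y * ph M a A₁ u) = (∑ y ∈ D, M.tb D v y * ph M a A₁ y) *
          ∑ y ∈ D, M.tb D v y * ph M a A₁ y := by
      rw [Finset.sum_mul_sum]
      exact Finset.sum_congr rfl fun _ _ => Finset.sum_congr rfl fun _ _ => by
        unfold Core.tb; ring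
    have p0 : 0 ≤ ∑ y ∈ D, M.tb D v y * ph M a A₁ y :=
      Finset.sum_nonneg fun _ _ => mul_nonneg (M.tb_nonneg _ _ _) (ph_nonneg M _ _ _)
    have p1 : ∑ y ∈ D, M.tb D v y * ph M a A₁ y ≤ K.Δ * K.C * ∑ u ∈ A₁, M.g v u * M.pot a u :=
      (Finset.sum_le_sum fun y _ => mul_le_mul_of_nonneg_right (M.tb_le D v y)
        (ph_nonneg M _ _ _)).trans (conv_ph M a A₁ D v)
    have hΔ : (0 : ℝ) ≤ K.Δ * K.C := by positivity
    have p2 := p1.trans (mul_le_mul_of_nonneg_left (conv_le1 M h0 h1 v) hΔ)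
    have p3 := p1.trans (mul_le_mul_of_nonneg_left (conv_le2 M h1 v) hΔ)
    have p4 : M.pot a v ≤ M.Wp a v :=
      le_add_of_nonneg_right (mul_nonneg M.f0_pos.le (Nat.cast_nonneg _))
    rw [e]
    calc _ ≤ (K.Δ * K.C * (M₁ * M₀)) * (K.Δ * K.C * (2 * K.C * M₁ * M.pot a v)) :=
          mul_le_mul p2 p3 p0 (by positivity)
      _ = 2 * K.Δ ^ 2 * K.C ^ 3 * M₀ * M₁ ^ 2 * M.pot a v := by ring
      _ ≤ _ := mul_le_mul_of_nonneg_left p4 (by positivity)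
  have hs : (0 : ℝ) ≤ 2 * K.Δ ^ 2 * K.C ^ 3 * M₀ * M₁ ^ 2 := by positivity
  calc _ ≤ ∑ v ∈ D, M.g z v * (2 * K.Δ ^ 2 * K.C ^ 3 * M₀ * M₁ ^ 2 * M.Wp a v) :=
        Finset.sum_le_sum fun v _ => (mul_le_mul_of_nonneg_left (key v) (tau_nonneg M.prob)).trans
          (mul_le_mul_of_nonneg_right (M.tb_le D z v) (mul_nonneg hs (M.Wp_nonneg _ _)))
    _ ≤ ∑ v ∈ U, M.g z v * (2 * K.Δ ^ 2 * K.C ^ 3 * M₀ * M₁ ^ 2 * M.Wp a v) :=
        Finset.sum_le_sum_of_subset_of_nonneg hD fun _ _ _ =>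
          mul_nonneg (M.g_nonneg _ _) (mul_nonneg hs (M.Wp_nonneg _ _))
    _ = 2 * K.Δ ^ 2 * K.C ^ 3 * M₀ * M₁ ^ 2 * ∑ v ∈ U, M.g z v * M.Wp a v := by
        rw [Finset.mul_sum]; exact Finset.sum_congr rfl fun _ _ => by ring
    _ ≤ 2 * K.Δ ^ 2 * K.C ^ 3 * M₀ * M₁ ^ 2 * (L * M.Wp a z) :=
        mul_le_mul_of_nonneg_left (hL z) hs
    _ = _ := by ring

/-- total weight of the starting points -/
lemma sum_Wp {a B D : Finset V} {CZ b₁ : ℝ} (hZ : ∑ b ∈ B, M.pot a b ≤ CZ * a.card)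
    (hB : (B.card : ℝ) ≤ b₁ * M.U) :
    ∑ t ∈ tk M B D, M.Wp a t.2 ≤ K.Δ * (K.C * CZ + b₁) * a.card := by
  rw [sum_tk]
  have hf : 0 ≤ M.f0 * a.card := mul_nonneg M.f0_pos.le (Nat.cast_nonneg _)
  have h1 : ∀ b ∈ B, ∑ z ∈ D, ind (M.G.Adj b z) * M.Wp a z ≤
      K.Δ * (K.C * M.pot a b + M.f0 * a.card) := by
    intro b _
    have h0 : 0 ≤ K.C * M.pot a b + M.f0 * a.card :=
      add_nonneg (mul_nonneg C_pos.le (M.pot_nonneg _ _)) hf
    calc _ ≤ ∑ z ∈ D, ind (M.G.Adj b z) * (K.C * M.pot a b + M.f0 * a.card) := by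
          refine Finset.sum_le_sum fun z _ => ?_
          by_cases h : M.G.Adj b z
          · rw [ind_pos h, one_mul, one_mul]
            exact add_le_add (M.pot_nbr a h) le_rfl
          · rw [ind_neg h]; simp
      _ ≤ _ := by
          rw [← Finset.sum_mul]
          exact mul_le_mul_of_nonneg_right (M.deg.sum_ind b D) h0
  refine (Finset.sum_le_sum h1).trans ?_
  rw [← Finset.mul_sum, Finset.sum_add_distrib, ← Finset.mul_sum, Finset.sum_const, nsmul_eq_mul,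
    mul_assoc]
  refine mul_le_mul_of_nonneg_left ?_ (Nat.cast_nonneg _)
  have h2 := mul_le_mul_of_nonneg_left hZ (C_pos (K := K)).le
  have h3 := mul_le_mul_of_nonneg_right hB hf
  have e : b₁ * M.U * (M.f0 * a.card) = b₁ * a.card := by
    calc _ = b₁ * (M.f0 * M.U) * a.card := by ring
      _ = _ := by rw [M.f0_mul_U, mul_one]
  linarith

lemma sum_ph_le {a A₁ A' E : Finset V} {M₀ : ℝ} (h0 : ∀ u, M.pot a u ≤ M₀) (hM : 0 ≤ M₀)
    (hA : A₁ ⊆ A') : ∑ v ∈ E, ph M a A₁ v ≤ M₀ * ec M.G A' E := by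
  refine le_trans ?_ (mul_le_mul_of_nonneg_left (ec_mono hA subset_rfl) hM)
  rw [ec_comm, ec, Finset.mul_sum]
  refine Finset.sum_le_sum fun v _ => ?_
  rw [ph, Finset.mul_sum]
  exact Finset.sum_le_sum fun u _ => by
    rw [mul_comm M₀]; exact mul_le_mul_of_nonneg_left (h0 u) (ind_nonneg _)

/-- one pair of points -/
lemma pair (hP : St_PL3) {U A A₁ B J : Finset V} (hBA : Disjoint A B) {x y : V} (hx : x ∈ B)
    (hy : y ∈ A ∩ U) :
    M.tb U x y ≤ ∑ u ∈ J, M.g x u * M.g u y + ∑ u ∈ (A ∩ U) \ A₁, M.g x u * M.g u y +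
      ∑ b ∈ B, M.g x b * ∑ u ∈ A₁, ind (M.G.Adj b u) * M.g u y +
      ∑ b ∈ B, M.g x b * ∑ z ∈ U \ (A ∪ B), ind (M.G.Adj b z) *
        ∑ v ∈ (U \ (A ∪ B)) \ J, M.tb ((U \ (A ∪ B)) \ J) z v *
          ∑ u ∈ A₁, ind (M.G.Adj v u) * M.g u y := by
  have h := hP V M.G (fun _ => M.p) M.prob U (A ∩ U) B (J ∪ (A ∩ U) \ A₁) x y hx hy
    (hBA.mono_left Finset.inter_subset_left)
  have e : U \ (A ∩ U ∪ B ∪ (J ∪ (A ∩ U) \ A₁)) = (U \ (A ∪ B)) \ J := by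
    ext v; simp only [Finset.mem_sdiff, Finset.mem_union, Finset.mem_inter]; tauto
  have hs : (A ∩ U) \ (J ∪ (A ∩ U) \ A₁) ⊆ A₁ := by
    intro v; simp only [Finset.mem_sdiff, Finset.mem_union, Finset.mem_inter]; tauto
  rw [e] at h
  have gg : ∀ u v w z : V, tau M.G (fun _ => M.p) U u v * tau M.G (fun _ => M.p) U w z ≤
      M.g u v * M.g w z := fun u v w z =>
    mul_le_mul (M.tb_le U u v) (M.tb_le U w z) (tau_nonneg M.prob) (M.g_nonneg _ _)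
  have g0 : ∀ u v w z : V, 0 ≤ M.g u v * M.g w z := fun u v w z =>
    mul_nonneg (M.g_nonneg _ _) (M.g_nonneg _ _)
  refine h.trans (add_le_add (add_le_add ?_ ?_) ?_)
  · refine (Finset.sum_le_sum fun u _ => gg x u u y).trans ?_
    rw [← Finset.sum_union_inter]
    exact le_add_of_nonneg_right (Finset.sum_nonneg fun _ _ => g0 _ _ _ _)
  · refine Finset.sum_le_sum fun b _ => ?_
    rw [Finset.mul_sum]
    refine (Finset.sum_le_sum fun u _ => mul_le_mul_of_nonneg_left (gg x b u y)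
      (ind_nonneg _)).trans ((Finset.sum_le_sum_of_subset_of_nonneg hs fun _ _ _ =>
        mul_nonneg (ind_nonneg _) (g0 _ _ _ _)).trans (le_of_eq ?_))
    exact Finset.sum_congr rfl fun _ _ => by ring
  · refine Finset.sum_le_sum fun b _ => ?_
    rw [Finset.mul_sum]
    refine le_trans (Finset.sum_le_sum fun z _ => ?_) (Finset.sum_le_sum_of_subset_of_nonneg
      (Finset.sdiff_subset (t := J)) fun z _ _ => mul_nonneg (M.g_nonneg _ _) (mul_nonneg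
        (ind_nonneg _) (Finset.sum_nonneg fun v _ => mul_nonneg (M.tb_nonneg _ _ _)
          (Finset.sum_nonneg fun u _ => mul_nonneg (ind_nonneg _) (M.g_nonneg _ _)))))
    rw [Finset.mul_sum, Finset.mul_sum]
    refine Finset.sum_le_sum fun v _ => ?_
    rw [Finset.mul_sum, Finset.mul_sum, Finset.mul_sum]
    refine le_trans (Finset.sum_le_sum fun u _ => ?_) (Finset.sum_le_sum_of_subset_of_nonneg hs
      fun u _ _ => mul_nonneg (M.g_nonneg _ _) (mul_nonneg (ind_nonneg _) (mul_nonneg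
        (M.tb_nonneg _ _ _) (mul_nonneg (ind_nonneg _) (M.g_nonneg _ _)))))
    have h1 := mul_le_mul_of_nonneg_left (gg x b u y) (mul_nonneg (mul_nonneg
      (ind_nonneg (M.G.Adj b z)) (ind_nonneg (M.G.Adj v u)))
        (M.tb_nonneg ((U \ (A ∪ B)) \ J) z v))
    unfold Core.tb at h1 ⊢
    linarith

lemma sum_g_ph (a A₁ : Finset V) (v : V) :
    ∑ y ∈ a, ∑ u ∈ A₁, ind (M.G.Adj v u) * M.g u y = ph M a A₁ v := by
  rw [Finset.sum_comm]
  simp only [ph, Core.pot, Finset.mul_sum]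

lemma sum_g_left {B₁ B : Finset V} {MB : ℝ} (hB : ∀ u, M.pot B₁ u ≤ MB) (F : V → ℝ)
    (hF : ∀ b, 0 ≤ F b) : ∑ x ∈ B₁, ∑ b ∈ B, M.g x b * F b ≤ MB * ∑ b ∈ B, F b := by
  rw [Finset.sum_comm, Finset.mul_sum]
  refine Finset.sum_le_sum fun b _ => ?_
  rw [← Finset.sum_mul]
  refine mul_le_mul_of_nonneg_right (le_trans (le_of_eq ?_) (hB b)) (hF b)
  exact Finset.sum_congr rfl fun x _ => M.symm _ _

/-- the path lemma summed over both ends -/
lemma summed (hP : St_PL3) {U Q A a A₁ B B₁ J : Finset V} {MB : ℝ} (hL : M.LB U Q)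
    (ha : a ⊆ A ∩ Q) (hB : B ⊆ Q \ A) (hB1 : B₁ ⊆ B) (hMB : ∀ u, M.pot B₁ u ≤ MB)
    (hF : ∀ x ∈ B₁, ∑ u ∈ (A ∩ U) \ A₁, M.g x u * M.pot a u ≤ K.c / 4 * M.f0 * a.card) :
    3 / 4 * K.c * (M.f0 * B₁.card) * a.card ≤ MB * (∑ u ∈ J, M.pot a u + ∑ b ∈ B, ph M a A₁ b +
      ∑ t ∈ tk M B (U \ (A ∪ B)), EC M.G (fun _ => M.p) ((U \ (A ∪ B)) \ J) t.2
        fun C => ∑ v ∈ C, ph M a A₁ v) := by
  have hd : Disjoint A B :=
    Finset.disjoint_left.2 fun v h1 h2 => (Finset.mem_sdiff.1 (hB h2)).2 h1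
  set H : V → ℝ := fun b => ∑ z ∈ U \ (A ∪ B), ind (M.G.Adj b z) *
    ∑ v ∈ (U \ (A ∪ B)) \ J, M.tb ((U \ (A ∪ B)) \ J) z v * ph M a A₁ v with hH
  have H0 : ∀ b, 0 ≤ H b := fun b => Finset.sum_nonneg fun _ _ => mul_nonneg (ind_nonneg _)
    (Finset.sum_nonneg fun _ _ => mul_nonneg (M.tb_nonneg _ _ _) (ph_nonneg M _ _ _))
  have one : ∀ x ∈ B₁, 3 / 4 * K.c * M.f0 * a.card ≤ ∑ u ∈ J, M.g x u * M.pot a u +
      ∑ b ∈ B, M.g x b * ph M a A₁ b + ∑ b ∈ B, M.g x b * H b := by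
    intro x hx
    have h1 : ∑ _y ∈ a, K.c * M.f0 ≤ _ := Finset.sum_le_sum fun y hy =>
      (hL.2 x (Finset.mem_sdiff.1 (hB (hB1 hx))).1 y (Finset.mem_inter.1 (ha hy)).2).trans
        (pair M hP (A₁ := A₁) (J := J) hd (hB1 hx) (Finset.mem_inter.2
          ⟨(Finset.mem_inter.1 (ha hy)).1, hL.1 (Finset.mem_inter.1 (ha hy)).2⟩))
    rw [Finset.sum_const, nsmul_eq_mul, Finset.sum_add_distrib, Finset.sum_add_distrib,
      Finset.sum_add_distrib] at h1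
    have e1 : ∀ S : Finset V, ∑ y ∈ a, ∑ u ∈ S, M.g x u * M.g u y =
        ∑ u ∈ S, M.g x u * M.pot a u := fun S => by
      rw [Finset.sum_comm]; simp only [Core.pot, Finset.mul_sum]
    have e2 : ∑ y ∈ a, ∑ b ∈ B, M.g x b * ∑ u ∈ A₁, ind (M.G.Adj b u) * M.g u y =
        ∑ b ∈ B, M.g x b * ph M a A₁ b := by
      rw [Finset.sum_comm]
      exact Finset.sum_congr rfl fun b _ => by rw [← Finset.mul_sum, sum_g_ph]
    have e3 : ∑ y ∈ a, ∑ b ∈ B, M.g x b * ∑ z ∈ U \ (A ∪ B), ind (M.G.Adj b z) *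
        ∑ v ∈ (U \ (A ∪ B)) \ J, M.tb ((U \ (A ∪ B)) \ J) z v *
          ∑ u ∈ A₁, ind (M.G.Adj v u) * M.g u y = ∑ b ∈ B, M.g x b * H b := by
      rw [Finset.sum_comm]
      refine Finset.sum_congr rfl fun b _ => ?_
      rw [← Finset.mul_sum, Finset.sum_comm]
      refine congrArg _ (Finset.sum_congr rfl fun z _ => ?_)
      rw [← Finset.mul_sum, Finset.sum_comm]
      refine congrArg _ (Finset.sum_congr rfl fun v _ => ?_)
      rw [← Finset.mul_sum, sum_g_ph]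
    rw [e1, e1, e2, e3] at h1
    have h2 := hF x hx
    linarith
  have h3 := Finset.sum_le_sum one
  rw [Finset.sum_const, nsmul_eq_mul, Finset.sum_add_distrib, Finset.sum_add_distrib] at h3
  have h4 := sum_g_left M (B := J) hMB (M.pot a) (M.pot_nonneg a)
  have h5 := sum_g_left M (B := B) hMB (ph M a A₁) (ph_nonneg M a A₁)
  have h6 := sum_g_left M (B := B) hMB H H0
  have e4 : ∑ t ∈ tk M B (U \ (A ∪ B)), EC M.G (fun _ => M.p) ((U \ (A ∪ B)) \ J) t.2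
      (fun C => ∑ v ∈ C, ph M a A₁ v) = ∑ b ∈ B, H b := by
    rw [sum_tk]
    simp only [EC_sum]
    rfl
  rw [e4]
  linarith

lemma ext_mono (U A B : Finset V) {ω ω' : Finset (Bit V)} (h : ω ⊆ ω') :
    M.ext U A B ω ⊆ M.ext U A B ω' := by
  intro v hv
  obtain ⟨h1, h2⟩ := mem_flt.1 hv
  refine mem_flt.2 ⟨h1, h2.imp id ?_⟩
  rintro ⟨b, hb, z, h3, h4, h5⟩
  exact ⟨b, hb, z, h3, h h4, h5.mono subset_rfl (lev_mono le_rfl h)⟩

end CL

open CL in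
theorem st_CL (hTL : St_TL) (hK : St_KER) (hP : St_PL3) (hET : St_ET2) : St_CL := by
  intro K b₀ b₁ MB CZ M₀ M₁ MH hb0 hb1 hMB hCZ hM0 hM1 hMH
  obtain ⟨Λ, hΛ, hker⟩ := hK K
  have hC : 0 < K.C := C_pos
  have hc := K.hc
  have hΛ0 : 0 < Λ := hC.trans_le hΛ
  have hΔ : (0 : ℝ) < K.Δ := by exact_mod_cast K.hΔ
  obtain ⟨β, hβ⟩ : ∃ β : ℝ, β = K.c * b₀ / (4 * MB) := ⟨_, rfl⟩
  obtain ⟨σ, hσ⟩ : ∃ σ : ℝ, σ = K.Δ * (K.C * CZ + b₁) := ⟨_, rfl⟩
  obtain ⟨s, hs⟩ : ∃ s : ℝ, s = 2 * K.Δ ^ 2 * K.C ^ 3 * M₀ * M₁ ^ 2 * Λ := ⟨_, rfl⟩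
  have β0 : 0 < β := by rw [hβ]; positivity
  have σ0 : 0 < σ := by rw [hσ]; positivity
  have s0 : 0 < s := by rw [hs]; positivity
  obtain ⟨κ, κ0, κ1, κ2⟩ : ∃ κ : ℝ, 0 < κ ∧ κ ≤ 1 ∧ 8 * Λ * σ * κ ≤ β := by
    refine ⟨min 1 (β / (8 * Λ * σ)), by positivity, min_le_left _ _, ?_⟩
    rw [mul_comm, ← le_div_iff₀ (by positivity)]
    exact min_le_right _ _
  obtain ⟨τ, τ0, τ1, τ2, τ3⟩ : ∃ τ : ℝ, 0 < τ ∧ τ * M₀ ≤ 1 ∧ τ * (4 * s * σ) ≤ β ∧
      τ * (2 * Λ ^ 2 * (M₀ + MH)) ≤ 1 := by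
    refine ⟨min (1 / M₀) (min (β / (4 * s * σ)) (1 / (2 * Λ ^ 2 * (M₀ + MH)))), by positivity,
      ?_, ?_, ?_⟩
    · rw [← le_div_iff₀ hM0]; exact min_le_left _ _
    · rw [← le_div_iff₀ (by positivity)]; exact (min_le_right _ _).trans (min_le_left _ _)
    · rw [← le_div_iff₀ (by positivity)]; exact (min_le_right _ _).trans (min_le_right _ _)
  refine ⟨τ * M₀, κ * τ * β / 2, 1, by positivity, τ1, by positivity, ?_⟩
  intro V _ _ M q q0 hq q2 _ U Q A a A₁ B₀ B₁ hS hL ha h0 hA1 h1 haM hB0 hB1 hB hb hb' hF hZ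
  have hl := M.l_pos
  have hl2 : 1 ≤ M.l ^ 2 := one_le_pow₀ M.l1
  have n0 : (0 : ℝ) ≤ a.card := Nat.cast_nonneg _
  have hBU : B₀ ⊆ U \ A := fun v hv => Finset.mem_sdiff.2
    ⟨hL.1 (Finset.mem_sdiff.1 (hB0 hv)).1, (Finset.mem_sdiff.1 (hB0 hv)).2⟩
  by_cases hX : β * a.card ≤ ∑ b ∈ B₀, ph M a A₁ b
  · refine PE_le_const (prob_lev hq) fun ω => Real.exp_le_exp.2 (neg_le_neg ?_)
    have e1 : B₀ ⊆ M.ext U A B₀ ω := fun v hv => mem_flt.2 ⟨hBU hv, Or.inl hv⟩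
    have e2 := (hX.trans (sum_ph_le M h0 hM0.le hA1)).trans
      (mul_le_mul_of_nonneg_left (ec_mono subset_rfl e1) hM0.le)
    have e3 := mul_le_mul_of_nonneg_left e2 τ0.le
    have e4 : κ * τ * β / 2 * a.card / M.l ^ 4 = κ / 2 / M.l ^ 2 * (τ * (β * a.card)) / M.l ^ 2 := by
      field_simp
    have e5 : κ / 2 / M.l ^ 2 ≤ 1 := by
      rw [div_le_one (by positivity)]; linarith
    have e6 := mul_le_of_le_one_left (by positivity : 0 ≤ τ * (β * a.card)) e5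
    rw [e4]
    refine div_le_div_of_nonneg_right ?_ (by positivity)
    linarith
  have hκl : κ / M.l ^ 2 ≤ q 2 := (div_le_div_of_nonneg_right κ1 (by positivity)).trans q2
  have hκ0 : 0 ≤ κ / M.l ^ 2 := by positivity
  set q' : Fin 5 → ℝ := Function.update q 2 (κ / M.l ^ 2) with hq'
  have le' : ∀ j, 0 ≤ q' j ∧ q' j ≤ q j := fun j => by
    by_cases h : j = 2
    · rw [h, hq', Function.update_self]; exact ⟨hκ0, hκl⟩
    · rw [hq', Function.update_of_ne h]; exact ⟨(hq j).1, le_rfl⟩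
  have pq' : Prob fun b : Bit V => q' b.2 :=
    prob_lev fun j => ⟨(le' j).1, (le' j).2.trans (hq j).2⟩
  have step : PL q (fun ω => Real.exp (-(τ * M₀ * ec M.G (A ∩ U) (M.ext U A B₀ ω) / M.l ^ 2))) ≤
      PE univ (fun b : Bit V => q' b.2) (fun ω =>
        Real.exp (-(τ / M.l ^ 2 * (M₀ * ec M.G (A ∩ U) (M.ext U A B₀ ω))))) := by
    have h := PE_mono_prob (E := univ) (f := fun ω => (-1) *
      Real.exp (-(τ / M.l ^ 2 * (M₀ * ec M.G (A ∩ U) (M.ext U A B₀ ω))))) pq' (prob_lev hq)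
      (fun b _ => (le' b.2).2) fun ω ω' hω => by
        have := Real.exp_le_exp.2 (neg_le_neg (mul_le_mul_of_nonneg_left
          (mul_le_mul_of_nonneg_left (ec_mono (G := M.G) (subset_rfl (a := A ∩ U))
            (ext_mono M U A B₀ hω)) hM0.le) (by positivity : 0 ≤ τ / M.l ^ 2)))
        linarith
    rw [PE_mul_left, PE_mul_left] at h
    have e : ∀ x : ℝ, τ * M₀ * x / M.l ^ 2 = τ / M.l ^ 2 * (M₀ * x) := fun x => by ring
    simp only [PL, e]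
    linarith
  refine step.trans ?_
  obtain ⟨-, -, hk⟩ := hker V M
  obtain ⟨k1, -, k3⟩ := (hk U hS).2 a
  have hW : ∀ u, M.Wp a u ≤ M₀ + MH := fun u => by
    have h2 := mul_le_mul_of_nonneg_left haM M.f0_pos.le
    have e : M.f0 * (MH * M.U) = MH := by
      calc _ = MH * (M.f0 * M.U) := by ring
        _ = _ := by rw [M.f0_mul_U, mul_one]
    exact add_le_add (h0 u) (h2.trans e.le)
  have hDU : ∀ J : Finset V, (U \ (A ∪ B₀)) \ J ⊆ U := fun J =>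
    Finset.sdiff_subset.trans Finset.sdiff_subset
  have mem : ∀ t ∈ tk M B₀ (U \ (A ∪ B₀)), t.1 ∈ B₀ ∧ t.2 ∉ B₀ ∧ M.G.Adj t.1 t.2 := fun t ht => by
    obtain ⟨h2, h3⟩ := mem_flt.1 ht
    obtain ⟨h4, h5⟩ := Finset.mem_product.1 h2
    exact ⟨h4, fun h => (Finset.mem_sdiff.1 h5).2 (Finset.mem_union_right _ h), h3⟩
  have hT := hTL V (Bit V) (V × V) M.G (U \ (A ∪ B₀)) (fun e => (e, 0))
    (fun t => (s(t.1, t.2), 2)) (tk M B₀ (U \ (A ∪ B₀))) Prod.snd (fun b => q' b.2) M.p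
    (κ / M.l ^ 2) pq' (fun _ _ h => (Prod.mk.inj h).1)
    (fun t ht t' ht' h => by
      rcases Sym2.eq_iff.1 (Prod.mk.inj h).1 with h2 | h2
      · exact Prod.ext h2.1 h2.2
      · exact absurd (h2.1 ▸ (mem t ht).1) (mem t' ht').2.1)
    (fun t _ e h => absurd (Prod.mk.inj h).2 (by decide))
    (fun e => by
      show q' 0 = M.p
      rw [hq', Function.update_of_ne (by decide), q0])
    (fun t _ => by rw [hq', Function.update_self]) hκ0
    (fun C => ∑ v ∈ C, ph M a A₁ v) (M.pot a) (M.Wp a) (β * a.card) (β * a.card) (s * M.l ^ 2)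
    (2 * Λ * M.l ^ 2) (σ * a.card) (τ / M.l ^ 2) (κ * τ / M.l ^ 4) (by simp)
    (fun _ _ h => Finset.sum_le_sum_of_subset_of_nonneg h fun _ _ _ => ph_nonneg M _ _ _)
    (M.pot_nonneg a) (by positivity) (by positivity) (by positivity) (by positivity)
    (fun J _ hJ => by
      have h2 := summed M hP (J := J) hL ha hB0 hB1 hB hF
      have h3 : b₀ ≤ M.f0 * B₁.card := by
        have := mul_le_mul_of_nonneg_left hb M.f0_pos.le
        have e : M.f0 * (b₀ * M.U) = b₀ := by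
          calc _ = b₀ * (M.f0 * M.U) := by ring
            _ = _ := by rw [M.f0_mul_U, mul_one]
        linarith
      have h4 : MB * (3 * (β * a.card)) ≤ 3 / 4 * K.c * (M.f0 * B₁.card) * a.card := by
        have e : MB * (3 * (β * a.card)) = 3 / 4 * K.c * b₀ * a.card := by
          rw [hβ]; field_simp
        rw [e]
        exact mul_le_mul_of_nonneg_right (mul_le_mul_of_nonneg_left h3 (by positivity)) n0
      have h5 := le_of_mul_le_mul_left (h4.trans h2) hMB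
      linarith [not_le.1 hX])
    (fun J t _ => by
      refine ⟨(second M hET h0 h1 (hDU J) k1 t.2).trans (le_of_eq (by rw [hs]; ring)), ?_⟩
      refine (k3 (M₀ + MH) (κ * τ / M.l ^ 4) hW (by positivity) ?_ _ (hDU J) t.2).trans
        (le_of_eq (by ring))
      have e : 2 * (κ * τ / M.l ^ 4) * Λ ^ 2 * M.l ^ 4 * (M₀ + MH) =
          κ * (τ * (2 * Λ ^ 2 * (M₀ + MH))) := by field_simp
      rw [e]
      exact mul_le_one₀ κ1 (by positivity) τ3)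
    (by rw [hσ]; exact sum_Wp M hZ hb')
    (fun ω => M₀ * ec M.G (A ∩ U) (M.ext U A B₀ ω))
    (fun ω S' P hS' hP' hd => by
      classical
      rw [← Finset.sum_biUnion fun t ht t' ht' h => hd t ht t' ht' h]
      refine le_trans (Finset.sum_le_sum_of_subset_of_nonneg ?_ fun _ _ _ => ph_nonneg M _ _ _)
        (sum_ph_le M h0 hM0.le hA1)
      intro v hv
      obtain ⟨t, ht, hv⟩ := Finset.mem_biUnion.1 hv
      have h2 := mem_cl.1 ((hP' t ht).2 hv)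
      have h3 := Finset.mem_sdiff.1 h2.right
      refine mem_flt.2 ⟨Finset.mem_sdiff.2 ⟨h3.1, fun h => h3.2 (Finset.mem_union_left _ h)⟩,
        Or.inr ⟨t.1, (mem t (hS' ht)).1, t.2, (mem t (hS' ht)).2.2, (hP' t ht).1, ?_⟩⟩
      rwa [lev_zero])
  refine hT.trans (Real.exp_le_exp.2 ?_)
  have e1 : κ / M.l ^ 2 * (τ / M.l ^ 2) * (β * a.card) = κ * τ / M.l ^ 4 * (β * a.card) := by
    field_simp
  rw [e1, min_self]
  have e2 : κ / M.l ^ 2 * ((τ / M.l ^ 2) ^ 2 * (s * M.l ^ 2) + κ * τ / M.l ^ 4 * (2 * Λ * M.l ^ 2)) *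
      (σ * a.card) = κ * τ / M.l ^ 4 * a.card * (τ * (4 * s * σ) / 4 + 8 * Λ * σ * κ / 4) := by
    field_simp; ring
  have e3 : κ * τ * β / 2 * a.card / M.l ^ 4 = κ * τ / M.l ^ 4 * a.card * (β / 2) := by ring
  have e4 := mul_le_mul_of_nonneg_left
    (by linarith : τ * (4 * s * σ) / 4 + 8 * Λ * σ * κ / 4 ≤ β / 2)
    (by positivity : 0 ≤ κ * τ / M.l ^ 4 * a.card)
  rw [e2, e3]
  linarith

end Pool.Agent.TPC
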