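import Pool.Agent.Lib.TPC.B_CL0a

/-! Block CL0: contacts of an explored set with heavy base clusters. -/

open Finset

set_option linter.unusedSectionVars false

namespace Pool.Agent.TPC

namespace CL0

variable {K : Kc} {V : Type} [Fintype V] [DecidableEq V]
variable {M : Core K V} {U Q A a A₁ : Finset V} {M₀ M₁ s : ℝ}

lemma pair_le (hP : St_PL3a) (hLB : M.LB U Q) (ha : a ⊆ A ∩ Q) (J : Finset V) {z b : V}
    (hz : z ∈ Q \ A) (hb : b ∈ a) :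
    K.c * M.f0 ≤ ∑ u ∈ J ∪ (A \ A₁), M.tb U z u * M.g u b +
      ∑ v ∈ (U \ A) \ J, M.tb ((U \ A) \ J) z v * ∑ u ∈ A₁, ind (M.G.Adj u v) * M.g u b := by
  have hb' := Finset.mem_inter.1 (ha hb)
  have hz' := Finset.mem_sdiff.1 hz
  have e : U \ (A ∪ (J ∪ (A \ A₁))) = (U \ A) \ J := by
    ext x
    simp only [Finset.mem_sdiff, Finset.mem_union]
    tauto
  have c1 := hP V M.G (fun _ => M.p) M.prob U A (J ∪ (A \ A₁)) z b hz'.2 hb'.1
  rw [e] at c1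
  refine (hLB.2 z hz'.1 b hb'.2).trans (c1.trans (add_le_add ?_ ?_))
  · exact Finset.sum_le_sum fun u _ =>
      mul_le_mul_of_nonneg_left (M.tb_le U u b) (M.tb_nonneg U z u)
  · refine Finset.sum_le_sum fun v _ => ?_
    rw [Finset.mul_sum]
    have hs : A \ (J ∪ (A \ A₁)) ⊆ A₁ := by
      intro x
      simp only [Finset.mem_sdiff, Finset.mem_union]
      tauto
    refine le_trans (Finset.sum_le_sum fun u _ => ?_) (Finset.sum_le_sum_of_subset_of_nonneg hs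
      fun u _ _ => mul_nonneg (M.tb_nonneg _ z v) (mul_nonneg (ind_nonneg _) (M.g_nonneg u b)))
    rw [ind_congr (M.G.adj_comm v u), mul_left_comm]
    exact mul_le_mul_of_nonneg_left (mul_le_mul_of_nonneg_left (M.tb_le U u b) (ind_nonneg _))
      (M.tb_nonneg _ z v)

/-- first moment of the unrestricted payoff -/
lemma first_moment (hP : St_PL3a) (h0 : 0 < M₀) (hLB : M.LB U Q) (ha : a ⊆ A ∩ Q)
    (J : Finset V) :
    K.c * M.f0 * ((Q \ A).card * a.card) ≤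
      K.C * M.l ^ 2 * (∑ u ∈ J, M.pot a u + ∑ u ∈ A \ A₁, M.pot a u) +
        M₀ * ∑ z ∈ Q \ A, M.EB ((U \ A) \ J) z (fun C => ∑ v ∈ C, hh M a A₁ M₀ v) := by
  have hC : 0 ≤ K.C * M.l ^ 2 := mul_nonneg (by linarith [K.hC]) (sq_nonneg _)
  have c0 : K.c * M.f0 * ((Q \ A).card * a.card) = ∑ _z ∈ Q \ A, ∑ _b ∈ a, K.c * M.f0 := by
    simp only [Finset.sum_const, nsmul_eq_mul]; ring
  rw [c0]
  refine (Finset.sum_le_sum fun z hz => Finset.sum_le_sum fun b hb =>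
    pair_le (A₁ := A₁) hP hLB ha J hz hb).trans ?_
  simp only [Finset.sum_add_distrib]
  refine add_le_add ?_ (le_of_eq ?_)
  · have e : ∀ z, ∑ b ∈ a, ∑ u ∈ J ∪ (A \ A₁), M.tb U z u * M.g u b =
        ∑ u ∈ J ∪ (A \ A₁), M.tb U z u * M.pot a u := by
      intro z
      rw [Finset.sum_comm]
      exact Finset.sum_congr rfl fun u _ => by rw [Core.pot, Finset.mul_sum]
    simp only [e]
    rw [Finset.sum_comm]
    have c1 : ∀ u, ∑ z ∈ Q \ A, M.tb U z u * M.pot a u ≤ K.C * M.l ^ 2 * M.pot a u := by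
      intro u
      rw [← Finset.sum_mul]
      refine mul_le_mul_of_nonneg_right (le_trans ?_ (M.chi_le' U u)) (M.pot_nonneg a u)
      refine le_trans (le_of_eq (Finset.sum_congr rfl fun z _ => tau_comm)) ?_
      exact Finset.sum_le_sum_of_subset_of_nonneg (Finset.sdiff_subset.trans hLB.1)
        fun z _ _ => tau_nonneg M.prob
    refine (Finset.sum_le_sum fun u _ => c1 u).trans ?_
    rw [← Finset.mul_sum]
    refine mul_le_mul_of_nonneg_left ?_ hC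
    rw [← Finset.sum_union_inter]
    exact le_add_of_nonneg_right (Finset.sum_nonneg fun u _ => M.pot_nonneg a u)
  · rw [Finset.mul_sum]
    refine Finset.sum_congr rfl fun z _ => ?_
    rw [Core.EB, EC_sum, Finset.sum_comm, Finset.mul_sum]
    refine Finset.sum_congr rfl fun v _ => ?_
    rw [← Finset.mul_sum, Finset.sum_comm, mul_left_comm]
    congr 1
    rw [hh, Finset.mul_sum]
    refine Finset.sum_congr rfl fun u _ => ?_
    rw [← Finset.mul_sum, mul_left_comm, mul_div_cancel₀ _ h0.ne']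
    rfl

/-- potential of `a` on the discarded part of `A` -/
lemma rest_le (ha : ∀ u, M.pot a u ≤ M₀) {Cγ : ℝ} (hγ : 0 ≤ Cγ)
    (hg : ∀ y ∈ a, ∀ v, v ∉ Q → M.g v y ≤ Cγ * M.f0) :
    ∑ u ∈ A \ A₁, M.pot a u ≤ M₀ * ((A ∩ Q) \ A₁).card + Cγ * M.f0 * a.card * A.card := by
  have hs : A \ A₁ ⊆ ((A ∩ Q) \ A₁) ∪ (A \ Q) := by
    intro x
    simp only [Finset.mem_sdiff, Finset.mem_union, Finset.mem_inter]
    tauto
  refine (Finset.sum_le_sum_of_subset_of_nonneg hs fun u _ _ => M.pot_nonneg a u).trans ?_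
  refine le_trans (le_add_of_nonneg_right (Finset.sum_nonneg
    (s := ((A ∩ Q) \ A₁) ∩ (A \ Q)) fun u _ => M.pot_nonneg a u)) ?_
  rw [Finset.sum_union_inter]
  refine add_le_add ?_ ?_
  · have := Finset.sum_le_card_nsmul ((A ∩ Q) \ A₁) (M.pot a) M₀ fun u _ => ha u
    rwa [nsmul_eq_mul, mul_comm] at this
  · have n0 : 0 ≤ Cγ * M.f0 * a.card :=
      mul_nonneg (mul_nonneg hγ M.f0_pos.le) (Nat.cast_nonneg _)
    have := Finset.sum_le_card_nsmul (A \ Q) (M.pot a) (Cγ * M.f0 * a.card) fun u hu => by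
      have := Finset.sum_le_card_nsmul a (M.g u) (Cγ * M.f0)
        fun y hy => hg y hy u (Finset.mem_sdiff.1 hu).2
      rwa [nsmul_eq_mul, mul_comm] at this
    rw [nsmul_eq_mul, mul_comm] at this
    refine this.trans (mul_le_mul_of_nonneg_left ?_ n0)
    exact_mod_cast Finset.card_le_card Finset.sdiff_subset

lemma split_heavy (D : Finset V) (z : V) :
    M.EB D z (fun C => ∑ v ∈ C, hh M a A₁ M₀ v) = M.EB D z (XX M Q a A₁ M₀ s) +
      M.EB D z (fun C => ind (¬ s ≤ ((C ∩ Q).card : ℝ)) * ∑ v ∈ C, hh M a A₁ M₀ v) := by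
  unfold Core.EB EC
  rw [← PE_add]
  refine PE_congr fun ω _ => ?_
  simp only [XX, ind_not]; ring

/-- lower bound for the total mean payoff -/
lemma mean_ge (hP : St_PL3a) (h0 : 0 < M₀) (hLB : M.LB U Q) (hV : K.c * M.Vol ≤ Q.card)
    {β Cγ r : ℝ} (hβ : β ≤ 1) (hγ : 0 < Cγ) (hl : 4 ≤ K.c * M.l ^ 2) (hr : 0 ≤ r)
    (hr1 : 1 ≤ r ^ 2 * M.l ^ 4) (hr2 : 16 * K.Δ * K.C * M₀ * r ≤ K.c ^ 2 / 8)
    (hA : (A.card : ℝ) ≤ K.c ^ 2 / (16 * K.C * Cγ) * M.U)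
    (hAQ : ((A ∩ Q).card : ℝ) ≤ 2 * β * M.U) (ha : a ⊆ A ∩ Q) (hm : β * M.U / 8 ≤ a.card)
    (hpa : ∀ u, M.pot a u ≤ M₀) (hg : ∀ y ∈ a, ∀ v, v ∉ Q → M.g v y ≤ Cγ * M.f0)
    (h1 : A₁ ⊆ A ∩ Q) (hη : M₀ * ((A ∩ Q) \ A₁).card ≤ K.c ^ 2 / (16 * K.C) * a.card)
    (J : Finset V) (hJ : ∑ y ∈ J, M.pot a y ≤ K.c ^ 2 / (8 * K.C) * a.card) :
    K.c ^ 2 / (8 * M₀) * M.l ^ 2 * a.card ≤
      ∑ z ∈ Q \ A, M.EB ((U \ A) \ J) z (XX M Q a A₁ M₀ (r ^ 2 * M.l ^ 4)) := by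
  have hC : 0 < K.C := by linarith [K.hC]
  have hm0 : (0 : ℝ) ≤ a.card := Nat.cast_nonneg _
  have hU := M.U_pos
  have hf := M.f0_pos
  have f1 := first_moment (A₁ := A₁) hP h0 hLB ha J
  simp only [split_heavy (Q := Q) (s := r ^ 2 * M.l ^ 4), Finset.sum_add_distrib] at f1
  have f2 := light_cost (A₁ := A₁) h0 hpa hr1 ((U \ A) \ J) (Q \ A) Finset.sdiff_subset
  have f3 := rest_le (A := A) (A₁ := A₁) hpa hγ.le hg
  have s1 : √(r ^ 2 * M.l ^ 4) = r * M.l ^ 2 := by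
    rw [show r ^ 2 * M.l ^ 4 = (r * M.l ^ 2) ^ 2 by ring]
    exact Real.sqrt_sq (mul_nonneg hr (sq_nonneg _))
  rw [s1] at f2
  -- size of the token set
  have g1 : K.c / 2 * M.l ^ 2 ≤ M.f0 * (Q \ A).card := by
    have e1 : ((Q \ A).card : ℝ) + (A ∩ Q).card = Q.card := by
      rw [Finset.inter_comm]
      exact_mod_cast Finset.card_sdiff_add_card_inter Q A
    have e2 : K.c / 2 * M.l ^ 2 * M.U ≤ (Q \ A).card := by
      rw [M.Vol_eq] at hV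
      nlinarith [mul_le_mul_of_nonneg_right hl hU.le, mul_le_mul_of_nonneg_right hβ hU.le]
    have := mul_le_mul_of_nonneg_left e2 hf.le
    calc K.c / 2 * M.l ^ 2 = K.c / 2 * M.l ^ 2 * (M.f0 * M.U) := by rw [M.f0_mul_U, mul_one]
      _ = M.f0 * (K.c / 2 * M.l ^ 2 * M.U) := by ring
      _ ≤ _ := this
  have g2 : K.c ^ 2 / 2 * M.l ^ 2 * a.card ≤ K.c * M.f0 * ((Q \ A).card * a.card) := by
    have := mul_le_mul_of_nonneg_right (mul_le_mul_of_nonneg_left g1 K.hc.le) hm0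
    linarith
  -- the discarded potential
  have g3 : Cγ * M.f0 * a.card * A.card ≤ K.c ^ 2 / (16 * K.C) * a.card := by
    refine (mul_le_mul_of_nonneg_left hA (mul_nonneg (mul_nonneg hγ.le hf.le) hm0)).trans
      (le_of_eq ?_)
    calc Cγ * M.f0 * a.card * (K.c ^ 2 / (16 * K.C * Cγ) * M.U)
        = K.c ^ 2 / (16 * K.C) * a.card * (M.f0 * M.U) := by field_simp
      _ = _ := by rw [M.f0_mul_U, mul_one]
  have g4 : K.C * M.l ^ 2 * (∑ u ∈ J, M.pot a u + ∑ u ∈ A \ A₁, M.pot a u) ≤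
      K.c ^ 2 / 4 * M.l ^ 2 * a.card := by
    have : ∑ u ∈ J, M.pot a u + ∑ u ∈ A \ A₁, M.pot a u ≤ K.c ^ 2 / (4 * K.C) * a.card := by
      have e : K.c ^ 2 / (4 * K.C) * a.card = K.c ^ 2 / (8 * K.C) * a.card +
          (K.c ^ 2 / (16 * K.C) * a.card + K.c ^ 2 / (16 * K.C) * a.card) := by
        field_simp; ring
      linarith
    refine (mul_le_mul_of_nonneg_left this (mul_nonneg hC.le (sq_nonneg _))).trans (le_of_eq ?_)
    field_simp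
  -- the light clusters
  have g5 : M₀ * (K.Δ * A₁.card * (K.C * (r * M.l ^ 2))) ≤ K.c ^ 2 / 8 * M.l ^ 2 * a.card := by
    have e1 : (A₁.card : ℝ) ≤ 16 * a.card := by
      have : (A₁.card : ℝ) ≤ (A ∩ Q).card := by exact_mod_cast Finset.card_le_card h1
      linarith
    have n1 : 0 ≤ M₀ * K.Δ * K.C * r * M.l ^ 2 := by positivity
    have e2 := mul_le_mul_of_nonneg_left e1 n1
    have e3 := mul_le_mul_of_nonneg_right hr2 (mul_nonneg (sq_nonneg M.l) hm0)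
    linarith
  have g6 := mul_le_mul_of_nonneg_left f2 h0.le
  rw [mul_add] at f1
  rw [show K.c ^ 2 / (8 * M₀) * M.l ^ 2 * a.card = K.c ^ 2 / 8 * M.l ^ 2 * a.card / M₀ by
    field_simp, div_le_iff₀' h0]
  linarith

/-- reduction to the trial lemma -/
lemma trial (hT : St_TL) (h0 : 0 < M₀) (hpa : ∀ u, M.pot a u ≤ M₀) (h1 : A₁ ⊆ A ∩ Q)
    (hQ : ∀ y ∈ A₁, ∀ v, M.G.Adj y v → v ∈ Q) {σ q μ z₀ s₂ lam S θ θ₂ F : ℝ} (hq0 : 0 ≤ q)
    (hq1 : q ≤ 1) (hs₂ : 0 ≤ s₂) (hlam : 0 ≤ lam) (hθ : 0 ≤ θ) (hθ₂ : 0 ≤ θ₂)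
    (hμ : ∀ J : Finset V, ∑ y ∈ J, M.pot a y ≤ z₀ →
      μ ≤ ∑ z ∈ Q \ A, M.EB ((U \ A) \ J) z (XX M Q a A₁ M₀ (σ * M.l ^ 4)))
    (h2 : ∀ D : Finset V, D ⊆ U → ∀ z,
      M.EB D z (fun C => XX M Q a A₁ M₀ (σ * M.l ^ 4) C ^ 2) ≤ s₂ * M.Wp a z ∧
      M.EB D z (fun C => Real.exp (θ₂ * ∑ y ∈ C, M.pot a y)) ≤ 1 + θ₂ * lam * M.Wp a z)
    (hS : ∑ z ∈ Q \ A, M.Wp a z ≤ S) :
    PE univ (fun _ => M.p) (fun ω => ind (M.FF U Q A σ ω < F)) ≤
      Real.exp (θ * F + (-min (q * θ * μ) (θ₂ * z₀) + q * (θ ^ 2 * s₂ + θ₂ * lam) * S)) := by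
  have hπ : Prob (Sum.elim (fun _ : Sym2 V => M.p) (fun _ : V => q)) := by
    rintro (e | v)
    exacts [M.prob e, ⟨hq0, hq1⟩]
  have key := hT V (Sym2 V ⊕ V) V M.G (U \ A) Sum.inl Sum.inr (Q \ A) id
    (Sum.elim (fun _ : Sym2 V => M.p) (fun _ : V => q)) M.p q hπ Sum.inl_injective
    Sum.inr_injective.injOn (fun _ _ _ => Sum.inr_ne_inl) (fun _ => rfl) (fun _ _ => rfl) hq0
    (XX M Q a A₁ M₀ (σ * M.l ^ 4)) (M.pot a) (M.Wp a) μ z₀ s₂ lam S θ θ₂ XX_empty (XX_mono h0)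
    (M.pot_nonneg a) hs₂ hlam hθ hθ₂ (fun J _ hJ => hμ J hJ)
    (fun J t _ => h2 _ (Finset.sdiff_subset.trans Finset.sdiff_subset) t) hS
    (fun ω => M.FF U Q A σ (baseOf Sum.inl ω))
    (fun ω S' P _ hP hd => sum_XX_le h0 hpa h1 hQ σ _ S' P (fun t ht => (hP t ht).2) hd)
  rw [PE_baseOf Sum.inl_injective _ fun η => Real.exp (-(θ * M.FF U Q A σ η))] at key
  rw [Real.exp_add]
  refine le_trans ?_ (mul_le_mul_of_nonneg_left key (Real.exp_pos _).le)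
  rw [← PE_mul_left]
  refine PE_mono M.prob fun ω => ind_le_of (by positivity) fun h => ?_
  rw [← Real.exp_add]
  exact Real.one_le_exp (by nlinarith [mul_le_mul_of_nonneg_left h.le hθ])

end CL0

open CL0

theorem st_CL0 (hT : St_TL) (hK : St_KER) (hP : St_PL3a) (hE : St_ET2) : St_CL0 := by
  intro K M₀ h0
  obtain ⟨Λ, hΛ, hK⟩ := hK K
  have hC : 0 < K.C := by linarith [K.hC]
  have hC1 := K.hC
  have hc := K.hc
  have hc1 := K.hc1
  have hΛ1 : 1 ≤ Λ := hC1.trans hΛ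
  have hΛ0 : 0 < Λ := by linarith
  have hΔ : (0 : ℝ) < K.Δ := by exact_mod_cast K.hΔ
  obtain ⟨r, hr⟩ : ∃ r : ℝ, r = K.c ^ 2 / (128 * K.Δ * K.C * M₀) := ⟨_, rfl⟩
  obtain ⟨μ, hμ⟩ : ∃ μ : ℝ, μ = K.c ^ 2 / (8 * M₀) := ⟨_, rfl⟩
  obtain ⟨q, hq⟩ : ∃ q : ℝ, q = K.c ^ 2 / (8 * K.C) / (16 * Λ ^ 2) := ⟨_, rfl⟩
  have r0 : 0 < r := by rw [hr]; positivity
  have μ0 : 0 < μ := by rw [hμ]; positivity
  have q0 : 0 < q := by rw [hq]; positivity
  have q1 : q ≤ 1 := by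
    rw [hq, div_div, div_le_one (by positivity)]
    nlinarith [mul_le_mul hC1 (one_le_pow₀ (n := 2) hΛ1) zero_le_one hC.le]
  refine ⟨K.c ^ 2 / (16 * K.C), r ^ 2, q * μ / 32, by positivity, by positivity, by positivity,
    fun Cγ hγ => ⟨K.c ^ 2 / (16 * K.C * Cγ), by positivity, fun M₁ β hM hβ hβ1 => ?_⟩⟩
  obtain ⟨s, hs⟩ : ∃ s : ℝ, s = 2 * K.C ^ 3 * K.Δ ^ 2 * M₁ ^ 2 / M₀ * Λ := ⟨_, rfl⟩
  have s0 : 0 < s := by rw [hs]; positivity
  obtain ⟨θ, θ0, θ1, θ2⟩ : ∃ θ : ℝ, 0 < θ ∧ θ * (s * Λ) ≤ μ / 8 ∧ θ * (μ * (M₀ + 2)) ≤ 8 := by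
    refine ⟨min (μ / 8 / (s * Λ)) (8 / (μ * (M₀ + 2))), by positivity, ?_, ?_⟩
    · rw [← le_div_iff₀ (by positivity)]; exact min_le_left _ _
    · rw [← le_div_iff₀ (by positivity)]; exact min_le_right _ _
  refine ⟨q * θ * μ * β / 16, max (4 / K.c) (1 / r ^ 2), by positivity, ?_⟩
  intro V _ _ M hl U Q A a A₁ hU hLB hV _ hA hAQ ha hm hpa hg h1 hQ hp1 hη
  obtain ⟨-, -, hK⟩ := hK V M
  obtain ⟨k1, k2, k3⟩ := (hK U hU).2 a
  have l1 := M.l1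
  have l0 := M.l_pos
  have hm0 : (0 : ℝ) ≤ a.card := Nat.cast_nonneg _
  have hl4 : 4 ≤ K.c * M.l ^ 2 := by
    have := (div_le_iff₀' hc).1 ((le_max_left _ _).trans hl)
    exact this.trans (mul_le_mul_of_nonneg_left (le_self_pow₀ l1 two_ne_zero) hc.le)
  have hr1 : 1 ≤ r ^ 2 * M.l ^ 4 := by
    have := (div_le_iff₀' (pow_pos r0 2)).1 ((le_max_right _ _).trans hl)
    exact this.trans (mul_le_mul_of_nonneg_left (le_self_pow₀ l1 four_ne_zero) (sq_nonneg r))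
  have hr2 : 16 * K.Δ * K.C * M₀ * r ≤ K.c ^ 2 / 8 := by
    rw [hr]; refine le_of_eq ?_; field_simp; ring
  have hW : ∀ u, M.Wp a u ≤ M₀ + 2 := by
    intro u
    refine add_le_add (hpa u) ?_
    have e1 : (a.card : ℝ) ≤ (A ∩ Q).card := by exact_mod_cast Finset.card_le_card ha
    have e2 := mul_le_mul_of_nonneg_left (e1.trans hAQ) M.f0_pos.le
    have e3 : M.f0 * (2 * β * M.U) = 2 * β := by rw [mul_left_comm, M.f0_mul_U, mul_one]
    linarith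
  have key := trial (U := U) (σ := r ^ 2) (q := q / M.l ^ 4) (μ := μ * M.l ^ 2 * a.card)
    (z₀ := K.c ^ 2 / (8 * K.C) * a.card) (s₂ := s * M.l ^ 2) (lam := 2 * Λ * M.l ^ 2)
    (S := Λ * M.l ^ 2 * a.card) (θ := θ / M.l ^ 2) (θ₂ := θ * μ / (16 * Λ ^ 2) / M.l ^ 4)
    (F := q * μ / 32 * β * M.N * M.l ^ 2) hT h0 hpa h1 hQ (by positivity)
    ((div_le_one (by positivity)).2 (q1.trans (one_le_pow₀ l1))) (by positivity) (by positivity)
    (by positivity) (by positivity)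
    (fun J hJ => hμ ▸ mean_ge hP h0 hLB hV hβ1 hγ hl4 r0.le hr1 hr2 hA hAQ ha hm hpa hg h1 hη J hJ)
    (fun D hD z => ⟨?_, ?_⟩) ?_
  · refine key.trans (Real.exp_le_exp.2 ?_)
    obtain ⟨t, ht⟩ : ∃ t : ℝ, t = a.card / M.l ^ 4 := ⟨_, rfl⟩
    have t1 : β * M.N / 8 ≤ t := by
      rw [ht, le_div_iff₀ (by positivity)]
      unfold Core.U at hm
      linarith
    have t0 : 0 ≤ t := by rw [ht]; positivity
    have e1 : q / M.l ^ 4 * (θ / M.l ^ 2) * (μ * M.l ^ 2 * a.card) = q * θ * μ * t := by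
      rw [ht]; field_simp
    have e2 : θ * μ / (16 * Λ ^ 2) / M.l ^ 4 * (K.c ^ 2 / (8 * K.C) * a.card) =
        q * θ * μ * t := by
      rw [ht, hq]; field_simp
    have e3 : q / M.l ^ 4 * ((θ / M.l ^ 2) ^ 2 * (s * M.l ^ 2) +
        θ * μ / (16 * Λ ^ 2) / M.l ^ 4 * (2 * Λ * M.l ^ 2)) * (Λ * M.l ^ 2 * a.card) =
        q * θ * t * (θ * (s * Λ)) + q * θ * μ * t / 8 := by
      rw [ht]; field_simp; ring
    have e4 : θ / M.l ^ 2 * (q * μ / 32 * β * M.N * M.l ^ 2) = q * θ * μ * (β * M.N / 8) / 4 := by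
      field_simp; ring
    rw [e1, e2, e3, e4, min_self]
    have b1 := mul_le_mul_of_nonneg_left θ1 (show 0 ≤ q * θ * t by positivity)
    have b2 := mul_le_mul_of_nonneg_left t1 (show 0 ≤ q * θ * μ by positivity)
    linarith
  · refine (second_moment hE h0 hpa hM hp1 k1 D hD z).trans (le_of_eq ?_)
    rw [hs]; ring
  · refine (k3 (M₀ + 2) _ hW (by positivity) ?_ D hD z).trans (le_of_eq (by ring))
    have : 2 * (θ * μ / (16 * Λ ^ 2) / M.l ^ 4) * Λ ^ 2 * M.l ^ 4 * (M₀ + 2) =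
        θ * (μ * (M₀ + 2)) / 8 := by field_simp; ring
    rw [this]; linarith
  · exact le_trans (Finset.sum_le_sum_of_subset_of_nonneg (Finset.sdiff_subset.trans hLB.1)
      fun u _ _ => M.Wp_nonneg a u) k2

end Pool.Agent.TPC
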