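import Pool.Agent.Lib.TPC.BlueG
import Pool.Agent.Lib.TPC.ZBasic

/-! Block CUBE: most points of a cube are joined to its centre by good paths. -/

open Finset

namespace Pool.Agent.TPC

open Pool.Agent.Lib.MP_81a99a_pr (lattice torus)

namespace CubeB

variable {d : ℕ}

lemma joined_mono {X Y : Set (Zd d)} (h : X ⊆ Y) {x y : Zd d} (hj : Joined X x y) : Joined Y x y := by
  obtain ⟨h1, h2⟩ := hj
  refine ⟨h h1, ?_⟩
  induction h2 with
  | refl => exact .refl
  | tail _ hab ih => exact ih.tail ⟨h hab.1, hab.2⟩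

lemma joined_box (b₀ : Zd d) (m : ℕ) (b : Zd d) (hb : b ∈ box b₀ m) :
    Joined (box b₀ m : Set (Zd d)) b₀ b := by
  refine ⟨self_mem_box _ _, ?_⟩
  induction hn : ∑ i, (b i - b₀ i).natAbs using Nat.strong_induction_on generalizing b with
  | _ n ih =>
    by_cases hbb : b = b₀
    · rw [hbb]
    obtain ⟨i, hi⟩ := Function.ne_iff.1 hbb
    obtain ⟨s, hs, hs2⟩ : ∃ s : ℤ, (s = b i + 1 ∨ s = b i - 1) ∧ (s - b₀ i).natAbs < (b i - b₀ i).natAbs := by
      rcases lt_or_gt_of_ne hi with h | h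
      · exact ⟨b i + 1, Or.inl rfl, by omega⟩
      · exact ⟨b i - 1, Or.inr rfl, by omega⟩
    have hm : Function.update b i s ∈ box b₀ m := by
      rw [mem_box'] at hb ⊢
      intro j
      have := hb j
      by_cases hj : j = i
      · subst hj
        rw [Function.update_self]
        omega
      · rwa [Function.update_of_ne hj]
    have hlt : ∑ j, (Function.update b i s j - b₀ j).natAbs < n := by
      rw [← hn]
      refine Finset.sum_lt_sum (fun j _ => ?_) ⟨i, mem_univ _, by rwa [Function.update_self]⟩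
      by_cases hj : j = i
      · subst hj
        rw [Function.update_self]
        exact hs2.le
      · rw [Function.update_of_ne hj]
    refine (ih _ hlt _ hm rfl).tail ⟨hb, SimpleGraph.Adj.symm (lattice_adj'.2 ⟨i, ?_, fun j hj => ?_⟩)⟩
    · rwa [Function.update_self]
    · rw [Function.update_of_ne hj]

/-- star steps inside a set -/
def St (S : Set (Zd d)) (u v : Zd d) : Prop := u ∈ S ∧ v ∈ S ∧ zd u v ≤ 1

lemma st_symm {S : Set (Zd d)} {u v : Zd d} (h : Relation.ReflTransGen (St S) u v) :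
    Relation.ReflTransGen (St S) v u := by
  induction h with
  | refl => exact .refl
  | tail _ h ih => exact ih.head ⟨h.2.1, h.1, by rw [zd_comm]; exact h.2.2⟩

/-- the star component of `y` in `S`, for `S` inside a finite set -/
lemma comp (B : Finset (Zd d)) (S : Set (Zd d)) (hS : S ⊆ B) (y : Zd d) (hy : y ∈ S) :
    ∃ A : Finset (Zd d), StarConn A ∧ (A : Set (Zd d)) ⊆ S ∧ y ∈ A ∧
      ∀ u ∈ A, ∀ v ∈ S, zd u v ≤ 1 → v ∈ A := by
  set A := flt B fun z => Relation.ReflTransGen (St S) y z with hA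
  have h1 : ∀ z, Relation.ReflTransGen (St S) y z → z ∈ S := fun z hz => by
    induction hz with
    | refl => exact hy
    | tail _ h _ => exact h.2.1
  have h2 : ∀ z, z ∈ A ↔ Relation.ReflTransGen (St S) y z := fun z => by
    rw [hA, mem_flt]
    exact ⟨fun h => h.2, fun h => ⟨hS (h1 z h), h⟩⟩
  have h3 : ∀ z, Relation.ReflTransGen (St S) y z → Relation.ReflTransGen (St (A : Set (Zd d))) y z := fun z hz => by
    induction hz with
    | refl => exact .refl
    | tail h0 h ih => exact ih.tail ⟨(h2 _).2 h0, (h2 _).2 (h0.tail h), h.2.2⟩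
  refine ⟨A, fun u hu v hv => (st_symm (h3 u ((h2 u).1 hu))).trans (h3 v ((h2 v).1 hv)),
    fun z hz => h1 z ((h2 z).1 hz), (h2 y).2 .refl, fun u hu v hv huv => ?_⟩
  exact (h2 v).2 (((h2 u).1 hu).tail ⟨h1 u ((h2 u).1 hu), hv, huv⟩)

/-- a bad droplet inside `B` that is close to `x` compared to its size -/
def Near (B : Finset (Zd d)) (Bad : Set (Zd d)) (x : Zd d) : Prop :=
  ∃ Γ : Finset (Zd d), StarConn Γ ∧ Γ ⊆ B ∧ (Γ : Set (Zd d)) ⊆ Bad ∧ ∃ γ ∈ Γ, zd x γ ≤ Γ.card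

lemma near_self {B : Finset (Zd d)} {Bad : Set (Zd d)} {x : Zd d} (hB : x ∈ B) (h : x ∈ Bad) : Near B Bad x := by
  refine ⟨{x}, fun u hu v hv => ?_, by simpa using hB, by simpa using h, x, mem_singleton_self x, ?_⟩
  · rw [mem_singleton.1 hu, mem_singleton.1 hv]
  · rw [zd_self]; positivity

lemma key (hC : St_CUT) (hH : St_HULL) (hd : 2 ≤ d) (Bad : Set (Zd d)) (b₀ : Zd d) (m : ℕ) (b : Zd d)
    (hb : b ∈ box b₀ m) (hj : ¬ Joined ((box b₀ (2 * m) : Set (Zd d)) \ Bad) b₀ b) :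
    Near (box b₀ (2 * m)) Bad b₀ ∨ Near (box b₀ (2 * m)) Bad b := by
  have hb2 : b ∈ box b₀ (2 * m) := box_mono _ (by omega) hb
  by_cases h0 : b₀ ∈ Bad
  · exact Or.inl (near_self (self_mem_box _ _) h0)
  by_cases h1 : b ∈ Bad
  · exact Or.inr (near_self hb2 h1)
  obtain ⟨Γ, hΓ, hc, hn⟩ := hC d hd ((box b₀ (2 * m) : Set (Zd d)) \ Bad)ᶜ b₀ b
    (fun h => h ⟨self_mem_box _ _, h0⟩) (fun h => h ⟨hb2, h1⟩) (by rwa [compl_compl])
  have hbad : ∀ z ∈ Γ, z ∈ box b₀ (2 * m) → z ∈ Bad := fun z hz hz2 => by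
    by_contra h
    exact hΓ hz ⟨hz2, h⟩
  by_cases hin : Γ ⊆ box b₀ (2 * m)
  · obtain ⟨G, rfl⟩ : ∃ G : Finset (Zd d), (G : Set (Zd d)) = Γ :=
      ⟨flt (box b₀ (2 * m)) (· ∈ Γ), Set.ext fun z => by
        rw [mem_coe, mem_flt]; exact ⟨fun h => h.2, fun h => ⟨hin h, h⟩⟩⟩
    have hG : StarConn G := hc
    obtain ⟨ha, -, hc', -⟩ := hH d hd G
    have h2 : ∀ x, InHull G x → Near (box b₀ (2 * m)) Bad x := fun x hx =>
      ⟨G, hG, hin, fun z hz => hbad z hz (hin hz), hc' hG x hx⟩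
    by_cases h3 : InHull G b₀
    · exact Or.inl (h2 _ h3)
    by_cases h4 : InHull G b
    · exact Or.inr (h2 _ h4)
    exact absurd (ha _ _ h3 h4) hn
  · obtain ⟨w, hw, hw2⟩ := Set.not_subset.1 hin
    obtain ⟨y, hy, hy2⟩ : ∃ y ∈ Γ, y ∈ box b₀ m := by
      by_contra h
      exact hn (joined_mono (fun z hz hz2 => h ⟨z, hz2, hz⟩) (joined_box b₀ m b hb))
    obtain ⟨A, hA, hAS, hyA, hcl⟩ := comp (box b₀ (2 * m)) (Γ ∩ box b₀ (2 * m)) Set.inter_subset_right y
      ⟨hy, box_mono _ (by omega) hy2⟩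
    have hzn : ∀ (z : Zd d) (r : ℕ), z ∈ box b₀ r ↔ zn b₀ z ≤ r := fun z r => by rw [mem_box', zn_le]
    have hall : Finset.Icc m (2 * m) ⊆ A.image (zn b₀) := by
      intro k hk
      rw [Finset.mem_Icc] at hk
      by_contra hno
      have hno' : ∀ z ∈ A, zn b₀ z ≠ k := fun z hz e => hno (mem_image.2 ⟨z, hz, e⟩)
      have h5 : ∀ v, Relation.ReflTransGen (fun u v => u ∈ Γ ∧ v ∈ Γ ∧ zd u v ≤ 1) y v → v ∈ A ∧ zn b₀ v < k := by
        intro v hv
        induction hv with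
        | refl => exact ⟨hyA, lt_of_le_of_ne (((hzn _ _).1 hy2).trans hk.1) (hno' y hyA)⟩
        | @tail u v _ h ih =>
          have h6 : zn b₀ v ≤ zn b₀ u + 1 := by
            have h7 := zd_tri b₀ u v
            have h8 := h.2.2
            rw [zd_eq_zn b₀ v, zd_eq_zn b₀ u] at h7
            have h9 : (zn b₀ v : ℝ) ≤ zn b₀ u + 1 := by linarith
            exact_mod_cast h9
          have h10 := ih.2
          have hvA : v ∈ A := hcl u ih.1 v ⟨h.2.1, (hzn _ _).2 (by omega)⟩ h.2.2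
          have := hno' v hvA
          exact ⟨hvA, by omega⟩
      exact hw2 (hAS (h5 w (hc y hy w hw)).1).2
    have hcard : m ≤ A.card := by
      have h5 := (card_le_card hall).trans card_image_le
      rw [Nat.card_Icc] at h5
      omega
    exact Or.inl ⟨A, hA, fun z hz => (hAS hz).2, fun z hz => hbad z (hAS hz).1 (hAS hz).2, y, hyA,
      (mem_box.1 hy2).trans (by exact_mod_cast hcard)⟩

lemma geo (N : ℕ) : ∑ t ∈ range N, (1 / 17 : ℝ) ^ (t + 1) ≤ 1 / 16 - (1 / 17) ^ N / 16 := by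
  induction N with
  | zero => simp
  | succ N ih => rw [sum_range_succ, pow_succ]; linarith

lemma pow_three (t : ℕ) : 2 * t + 1 ≤ 3 ^ t := by
  induction t with
  | zero => simp
  | succ t ih => rw [pow_succ]; omega

lemma prob (hA : St_ANI) (d : ℕ) : ∃ lam₀ : ℝ, ∀ (ι : Type) [DecidableEq ι] (E : Finset ι) (π : ι → ℝ), Prob π →
    ∀ (Bad : Finset ι → Set (Zd d)) (B : Finset (Zd d)) (lam : ℝ), lam₀ ≤ lam →
    (∀ T : Finset (Zd d), T ⊆ B → PE E π (fun ω => ind ((T : Set (Zd d)) ⊆ Bad ω)) ≤ Real.exp (-(lam * T.card))) →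
    ∀ x, PE E π (fun ω => ind (Near B (Bad ω) x)) ≤ 1 / 16 := by
  obtain ⟨C, hC, hF⟩ := hA d
  choose F hF1 hF2 hF3 using hF
  refine ⟨Real.log (17 * 3 ^ d * C), fun ι _ E π hπ Bad B lam hl hT x => ?_⟩
  have hq : 3 ^ d * C * Real.exp (-lam) ≤ 1 / 17 := by
    have h1 : Real.exp (-lam) ≤ Real.exp (-Real.log (17 * 3 ^ d * C)) := Real.exp_le_exp.2 (by linarith)
    rw [Real.exp_neg (Real.log _), Real.exp_log (by positivity)] at h1
    calc 3 ^ d * C * Real.exp (-lam) ≤ 3 ^ d * C * (17 * 3 ^ d * C)⁻¹ := by gcongr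
      _ = 1 / 17 := by field_simp
  calc PE E π (fun ω => ind (Near B (Bad ω) x))
      ≤ PE E π (fun ω => ind (∃ t ∈ range B.card, ∃ γ ∈ box x (t + 1), ∃ Γ ∈ F γ (t + 1),
          Γ ⊆ B ∧ (Γ : Set (Zd d)) ⊆ Bad ω)) := by
        refine PE_ind_mono hπ ?_
        rintro ω ⟨Γ, h1, h2, h3, γ, h4, h5⟩
        have h6 : 0 < Γ.card := card_pos.2 ⟨γ, h4⟩
        have h7 := card_le_card h2
        have h8 : Γ.card - 1 + 1 = Γ.card := by omega
        refine ⟨Γ.card - 1, mem_range.2 (by omega), γ, ?_, Γ, ?_, h2, h3⟩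
        · rw [h8]; exact mem_box.2 h5
        · rw [h8]; exact hF3 γ _ Γ h1 h4 rfl
    _ ≤ ∑ t ∈ range B.card, (1 / 17 : ℝ) ^ (t + 1) := by
        refine (PE_ind_exists hπ _ _).trans (sum_le_sum fun t _ => ?_)
        refine (PE_ind_exists hπ _ _).trans ?_
        have h1 : ∀ γ ∈ box x (t + 1), PE E π (fun ω => ind (∃ Γ ∈ F γ (t + 1), Γ ⊆ B ∧ (Γ : Set (Zd d)) ⊆ Bad ω)) ≤
            C ^ (t + 1) * Real.exp (-lam) ^ (t + 1) := by
          intro γ _
          refine (PE_ind_exists hπ _ _).trans ?_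
          have h2 : ∀ Γ ∈ F γ (t + 1), PE E π (fun ω => ind (Γ ⊆ B ∧ (Γ : Set (Zd d)) ⊆ Bad ω)) ≤
              Real.exp (-lam) ^ (t + 1) := by
            intro Γ hΓ
            by_cases hB : Γ ⊆ B
            · refine (PE_ind_mono hπ fun ω h => h.2).trans ((hT Γ hB).trans (le_of_eq ?_))
              rw [(hF2 γ _ Γ hΓ).1, ← Real.exp_nat_mul]
              congr 1
              ring
            · exact PE_le_const hπ fun ω => by rw [ind_neg fun h => hB h.1]; positivity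
          refine (sum_le_card_nsmul _ _ _ h2).trans ?_
          rw [nsmul_eq_mul]
          exact mul_le_mul_of_nonneg_right (hF1 γ _) (by positivity)
        refine (sum_le_card_nsmul _ _ _ h1).trans ?_
        rw [nsmul_eq_mul, card_box]
        have h3 : (((2 * (t + 1) + 1) ^ d : ℕ) : ℝ) ≤ (3 ^ d) ^ (t + 1) := by
          rw [← pow_mul, mul_comm d, pow_mul]
          exact_mod_cast Nat.pow_le_pow_left (pow_three (t + 1)) d
        calc (((2 * (t + 1) + 1) ^ d : ℕ) : ℝ) * (C ^ (t + 1) * Real.exp (-lam) ^ (t + 1))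
            ≤ (3 ^ d) ^ (t + 1) * (C ^ (t + 1) * Real.exp (-lam) ^ (t + 1)) :=
              mul_le_mul_of_nonneg_right h3 (by positivity)
          _ = (3 ^ d * C * Real.exp (-lam)) ^ (t + 1) := by rw [mul_pow, mul_pow, mul_assoc]
          _ ≤ (1 / 17) ^ (t + 1) := pow_le_pow_left₀ (by positivity) hq _
    _ ≤ 1 / 16 := (geo _).trans (by have : (0 : ℝ) ≤ (1 / 17) ^ B.card / 16 := by positivity
                                    linarith)

end CubeB

open CubeB in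
theorem st_CUBE (hC : St_CUT) (hH : St_HULL) (hA : St_ANI) (_hW : St_WALK) : St_CUBE := by
  intro d hd
  obtain ⟨lam₀, h⟩ := prob hA d
  refine ⟨lam₀, fun ι _ E π hπ Bad b₀ m lam hl hT => ?_⟩
  have h1 := h ι E π hπ Bad _ lam hl hT
  have hN : (0 : ℝ) < (box b₀ m).card := by exact_mod_cast card_pos.2 ⟨b₀, self_mem_box _ _⟩
  have h2 : PE E π (fun ω => ∑ b ∈ box b₀ m, ind (¬ Joined ((box b₀ (2 * m) : Set (Zd d)) \ Bad ω) b₀ b)) ≤
      (box b₀ m).card / 8 := by
    rw [PE_sum]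
    have h3 : ∀ b ∈ box b₀ m,
        PE E π (fun ω => ind (¬ Joined ((box b₀ (2 * m) : Set (Zd d)) \ Bad ω) b₀ b)) ≤ 1 / 8 := fun b hb => by
      refine (PE_ind_mono hπ fun ω hω => key hC hH hd (Bad ω) b₀ m b hb hω).trans ((PE_ind_or hπ _ _).trans ?_)
      have := h1 b₀
      have := h1 b
      linarith
    refine (sum_le_card_nsmul _ _ _ h3).trans (le_of_eq ?_)
    rw [nsmul_eq_mul]
    ring
  have h4 := PE_markov (E := E) hπ
    (f := fun ω => ∑ b ∈ box b₀ m, ind (¬ Joined ((box b₀ (2 * m) : Set (Zd d)) \ Bad ω) b₀ b))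
    (fun ω => sum_nonneg fun _ _ => ind_nonneg _) (t := ((box b₀ m).card : ℝ) / 2) (by positivity)
  have h5 : PE E π (fun ω => ind (¬ ((box b₀ m).card : ℝ) / 2 ≤
      (flt (box b₀ m) (Joined ((box b₀ (2 * m) : Set (Zd d)) \ Bad ω) b₀)).card)) ≤ 1 / 4 := by
    refine (PE_ind_mono hπ fun ω hω => ?_).trans (h4.trans ?_)
    · rw [card_flt] at hω
      simp only [ind_not, sum_sub_distrib, sum_const, nsmul_eq_mul, mul_one]
      linarith
    · rw [div_le_iff₀ (by positivity)]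
      linarith
  rw [PE_ind_not] at h5
  linarith

end Pool.Agent.TPC
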