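import Pool.Agent.Lib.TPC.BlueG
import Pool.Agent.Lib.TPC.ZBasic

/-! Block CUT: a cutset of the lattice contains a star-connected cutset. -/

open Finset

namespace Pool.Agent.TPC

open Pool.Agent.Lib.MP_81a99a_pr (lattice torus)

namespace CUT

variable {d : ℕ}

/-- a function invariant under the unit shifts is constant -/
lemma const {β : Type} (f : Zd d → β) (h : ∀ x i, f (x + Pi.single i 1) = f x) (x y : Zd d) :
    f x = f y := by
  let P : AddSubgroup (Zd d) :=
    { carrier := {v | ∀ x, f (x + v) = f x}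
      add_mem' := fun {a b} ha hb x => by rw [← add_assoc, hb, ha]
      zero_mem' := fun x => by rw [add_zero]
      neg_mem' := fun {a} ha x => by
        have := ha (x + -a)
        rw [neg_add_cancel_right] at this
        exact this.symm }
  have all : ∀ v, v ∈ P := by
    intro v
    rw [← Finset.univ_sum_single v]
    refine P.sum_mem fun i _ => ?_
    have e : (Pi.single i (v i) : Zd d) = v i • (Pi.single i 1 : Zd d) := by
      rw [← Pi.single_smul, smul_eq_mul, mul_one]
    rw [e]
    exact P.zsmul_mem (fun x => h x i) _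
  have := all (x - y) y
  rwa [add_sub_cancel] at this

/-- the shift of the extended lattice -/
def T {A : Type} [AddCommGroup A] (ω : Zd d → Fin d → A) (i : Fin d) : Equiv.Perm (Zd d × A) where
  toFun p := (p.1 + Pi.single i 1, p.2 + ω p.1 i)
  invFun p := (p.1 - Pi.single i 1, p.2 - ω (p.1 - Pi.single i 1) i)
  left_inv p := by simp
  right_inv p := by simp

/-- a closed form on the lattice is exact -/
lemma exact {A : Type} [AddCommGroup A] (ω : Zd d → Fin d → A)
    (h : ∀ x i j, i ≠ j → ω x i + ω (x + Pi.single i 1) j = ω x j + ω (x + Pi.single j 1) i) :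
    ∃ g : Zd d → A, ∀ x i, g (x + Pi.single i 1) = g x + ω x i := by
  let ϕ : ∀ _ : Fin d, Multiplicative ℤ →* Equiv.Perm (Zd d × A) := fun i => zpowersHom _ (T ω i)
  have hc : Pairwise fun i j => ∀ x y, Commute (ϕ i x) (ϕ j y) := by
    intro i j hij x y
    have c : Commute (T ω i) (T ω j) := by
      refine Equiv.ext fun p => Prod.ext ?_ ?_
      · change p.1 + Pi.single j 1 + Pi.single i 1 = p.1 + Pi.single i 1 + Pi.single j 1
        exact add_right_comm _ _ _
      · change p.2 + ω p.1 j + ω (p.1 + Pi.single j 1) i = p.2 + ω p.1 i + ω (p.1 + Pi.single i 1) j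
        rw [add_assoc, add_assoc, h p.1 i j hij]
    exact c.zpow_zpow _ _
  let Φ : Zd d → Equiv.Perm (Zd d × A) := fun x =>
    MonoidHom.noncommPiCoprod ϕ hc fun i => Multiplicative.ofAdd (x i)
  have st : ∀ x i, Φ (x + Pi.single i 1) = T ω i * Φ x := by
    intro x i
    have e : (fun l => Multiplicative.ofAdd ((x + Pi.single i 1 : Zd d) l)) =
        (Pi.mulSingle i (Multiplicative.ofAdd (1 : ℤ)) : Fin d → Multiplicative ℤ) *
          fun l => Multiplicative.ofAdd (x l) := by
      funext l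
      by_cases hl : l = i
      · subst hl
        simp [mul_comm]
      · simp [hl]
    simp only [Φ]
    rw [e, map_mul, MonoidHom.noncommPiCoprod_mulSingle]
    simp [ϕ]
  have f1 : ∀ x, (Φ x (0, 0)).1 = x := by
    intro x
    have c := const (fun x => (Φ x (0, 0)).1 - x) (fun x i => by
      rw [st]
      change (Φ x (0, 0)).1 + Pi.single i 1 - (x + Pi.single i 1) = _
      abel) x 0
    have e0 : Φ 0 = 1 := map_one (MonoidHom.noncommPiCoprod ϕ hc)
    simp only [e0, Equiv.Perm.coe_one, id, sub_zero] at c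
    exact sub_eq_zero.1 c
  refine ⟨fun x => (Φ x (0, 0)).2, fun x i => ?_⟩
  simp only [st]
  change (Φ x (0, 0)).2 + ω (Φ x (0, 0)).1 i = _
  rw [f1]

/-- star steps inside the bad set -/
def R (Bad : Set (Zd d)) (u v : Zd d) : Prop := u ∈ Bad ∧ v ∈ Bad ∧ zd u v ≤ 1

/-- star component -/
def comp (Bad : Set (Zd d)) (y : Zd d) : Set (Zd d) := {z | Relation.ReflTransGen (R Bad) y z}

lemma comp_eq {Bad : Set (Zd d)} {y z : Zd d} (h : R Bad y z) : comp Bad y = comp Bad z := by
  ext u
  exact ⟨fun hu => Relation.ReflTransGen.head ⟨h.2.1, h.1, by rw [zd_comm]; exact h.2.2⟩ hu,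
    fun hu => Relation.ReflTransGen.head h hu⟩

open Classical in
/-- integer indicator -/
noncomputable def ch (X : Set (Zd d)) (x : Zd d) : ℤ := if x ∈ X then 1 else 0

open Classical in
/-- outer end of an edge -/
noncomputable def out (X : Set (Zd d)) (x : Zd d) (i : Fin d) : Zd d :=
  if x ∈ X then x + Pi.single i 1 else x

lemma out_or (X : Set (Zd d)) (x : Zd d) (i : Fin d) :
    out X x i = x + Pi.single i 1 ∨ out X x i = x := by
  unfold out
  split_ifs
  · exact Or.inl rfl
  · exact Or.inr rfl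

lemma out_bad {Bad : Set (Zd d)} {b x : Zd d} {i : Fin d}
    (h : ch {y | Joined Badᶜ b y} (x + Pi.single i 1) - ch {y | Joined Badᶜ b y} x ≠ 0) :
    out {y | Joined Badᶜ b y} x i ∈ Bad := by
  by_contra hb
  by_cases h1 : x ∈ {y | Joined Badᶜ b y}
  · have e : out {y | Joined Badᶜ b y} x i = x + Pi.single i 1 := if_pos h1
    rw [e] at hb
    have h2 : x + Pi.single i 1 ∈ {y | Joined Badᶜ b y} :=
      ⟨h1.1, h1.2.tail ⟨hb, lattice_adj_add x i⟩⟩
    exact h (by unfold ch; rw [if_pos h1, if_pos h2, sub_self])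
  · have e : out {y | Joined Badᶜ b y} x i = x := if_neg h1
    rw [e] at hb
    have h2 : x + Pi.single i 1 ∉ {y | Joined Badᶜ b y} := fun h2 =>
      h1 ⟨h2.1, h2.2.tail ⟨hb, (lattice_adj_add x i).symm⟩⟩
    exact h (by unfold ch; rw [if_neg h1, if_neg h2, sub_self])

/-- the boundary form, labelled by star components -/
noncomputable def om (Bad : Set (Zd d)) (b x : Zd d) (i : Fin d) : Set (Zd d) →₀ ℤ :=
  Finsupp.single (comp Bad (out {y | Joined Badᶜ b y} x i))
    (ch {y | Joined Badᶜ b y} (x + Pi.single i 1) - ch {y | Joined Badᶜ b y} x)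

/-- unit cube -/
def Q (x : Zd d) : Set (Zd d) := {y | ∀ l, x l ≤ y l ∧ y l ≤ x l + 1}

lemma Q_zd {x y z : Zd d} (hy : y ∈ Q x) (hz : z ∈ Q x) : zd y z ≤ 1 := by
  have : zd y z ≤ (1 : ℕ) := zd_le_nat.2 fun l => by
    have a := hy l
    have c := hz l
    constructor <;> push_cast <;> omega
  simpa using this

lemma om_cube (Bad : Set (Zd d)) (b x : Zd d) : ∃ K : Set (Zd d), ∀ u l, u ∈ Q x →
    u + Pi.single l 1 ∈ Q x → om Bad b u l = Finsupp.single K
      (ch {y | Joined Badᶜ b y} (u + Pi.single l 1) - ch {y | Joined Badᶜ b y} u) := by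
  have oQ : ∀ u l, u ∈ Q x → u + Pi.single l 1 ∈ Q x → out {y | Joined Badᶜ b y} u l ∈ Q x := by
    intro u l h1 h2
    rcases out_or {y | Joined Badᶜ b y} u l with e | e <;> rw [e] <;> assumption
  by_cases h : ∃ y ∈ Q x, y ∈ Bad
  · obtain ⟨y, hy, hb⟩ := h
    refine ⟨comp Bad y, fun u l h1 h2 => ?_⟩
    unfold om
    by_cases e : ch {y | Joined Badᶜ b y} (u + Pi.single l 1) - ch {y | Joined Badᶜ b y} u = 0
    · rw [e, Finsupp.single_zero, Finsupp.single_zero]
    · rw [comp_eq (y := y) ⟨hb, out_bad e, Q_zd hy (oQ u l h1 h2)⟩]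
  · refine ⟨∅, fun u l h1 h2 => ?_⟩
    unfold om
    by_cases e : ch {y | Joined Badᶜ b y} (u + Pi.single l 1) - ch {y | Joined Badᶜ b y} u = 0
    · rw [e, Finsupp.single_zero, Finsupp.single_zero]
    · exact absurd ⟨_, oQ u l h1 h2, out_bad e⟩ h

lemma om_closed (Bad : Set (Zd d)) (b x : Zd d) (i j : Fin d) (hij : i ≠ j) :
    om Bad b x i + om Bad b (x + Pi.single i 1) j =
      om Bad b x j + om Bad b (x + Pi.single j 1) i := by
  obtain ⟨K, hK⟩ := om_cube Bad b x
  have q0 : x ∈ Q x := fun l => ⟨le_rfl, by omega⟩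
  have q1 : ∀ i : Fin d, x + Pi.single i 1 ∈ Q x := by
    intro i l
    by_cases hl : l = i
    · subst hl; simp
    · simp [hl]
  have q2 : ∀ i j : Fin d, i ≠ j → x + Pi.single i 1 + Pi.single j 1 ∈ Q x := by
    intro i j hij l
    by_cases hl : l = i
    · subst hl; simp [hij]
    · by_cases hl' : l = j
      · subst hl'; simp [hl]
      · simp [hl, hl']
  rw [hK x i q0 (q1 i), hK x j q0 (q1 j), hK _ j (q1 i) (q2 i j hij), hK _ i (q1 j) (q2 j i hij.symm),
    ← Finsupp.single_add, ← Finsupp.single_add, add_right_comm x (Pi.single j 1)]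
  refine congrArg _ ?_
  ring

end CUT

open CUT in
theorem st_CUT : St_CUT := by
  intro d _ Bad b b' hb _ hJ
  obtain ⟨g, hg⟩ := exact (om Bad b) (om_closed Bad b)
  let ε : (Set (Zd d) →₀ ℤ) →+ ℤ := Finsupp.liftAddHom fun _ => AddMonoidHom.id ℤ
  have hε : ∀ K c, ε (Finsupp.single K c) = c := fun K c => by simp [ε]
  have ne : g b ≠ g b' := by
    intro e
    have c := const (fun x => ε (g x) - ch {y | Joined Badᶜ b y} x) (fun x i => by
      rw [hg, map_add]
      unfold om
      rw [hε]
      ring) b b'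
    have c1 : ch {y | Joined Badᶜ b y} b = 1 := if_pos ⟨hb, Relation.ReflTransGen.refl⟩
    have c2 : ch {y | Joined Badᶜ b y} b' = 0 := if_neg hJ
    simp only [e, c1, c2] at c
    omega
  obtain ⟨K, hK⟩ : ∃ K, g b K ≠ g b' K := by
    by_contra h
    push Not at h
    exact ne (Finsupp.ext h)
  refine ⟨{y | y ∈ Bad ∧ comp Bad y = K}, fun y hy => hy.1, fun x hx y hy => ?_, fun h => hK ?_⟩
  · have hxy : y ∈ comp Bad x := by
      rw [hx.2, ← hy.2]; exact Relation.ReflTransGen.refl
    have gen : ∀ z, Relation.ReflTransGen (R Bad) x z → comp Bad z = K ∧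
        Relation.ReflTransGen (fun u v => u ∈ {y | y ∈ Bad ∧ comp Bad y = K} ∧
          v ∈ {y | y ∈ Bad ∧ comp Bad y = K} ∧ zd u v ≤ 1) x z := by
      intro z hz
      induction hz with
      | refl => exact ⟨hx.2, Relation.ReflTransGen.refl⟩
      | tail _ h2 ih =>
        have e := (comp_eq h2).symm.trans ih.1
        exact ⟨e, ih.2.tail ⟨⟨h2.1, ih.1⟩, ⟨h2.2.1, e⟩, h2.2.2⟩⟩
    exact (gen y hxy).2
  · have step : ∀ x i, x ∉ {y | y ∈ Bad ∧ comp Bad y = K} →
        x + Pi.single i 1 ∉ {y | y ∈ Bad ∧ comp Bad y = K} →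
        g (x + Pi.single i 1) K = g x K := by
      intro x i h1 h2
      rw [hg, Finsupp.add_apply, add_eq_left]
      unfold om
      by_cases e : ch {y | Joined Badᶜ b y} (x + Pi.single i 1) - ch {y | Joined Badᶜ b y} x = 0
      · rw [e, Finsupp.single_zero, Finsupp.zero_apply]
      · refine Finsupp.single_eq_of_ne fun e' => ?_
        have m : out {y | Joined Badᶜ b y} x i ∈ {y | y ∈ Bad ∧ comp Bad y = K} :=
          ⟨out_bad e, e'.symm⟩
        rcases out_or {y | Joined Badᶜ b y} x i with o | o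
        · exact h2 (o ▸ m)
        · exact h1 (o ▸ m)
    have gen : ∀ z, Relation.ReflTransGen (fun a c => c ∈ {y | y ∈ Bad ∧ comp Bad y = K}ᶜ ∧
        (lattice d).Adj a c) b z → z ∉ {y | y ∈ Bad ∧ comp Bad y = K} ∧ g b K = g z K := by
      intro z hz
      induction hz with
      | refl => exact ⟨h.1, rfl⟩
      | @tail a c _ h2 ih =>
        refine ⟨h2.1, ih.2.trans ?_⟩
        obtain ⟨i, e | e⟩ := lattice_adj.1 h2.2
        · have h3 := h2.1
          rw [e] at h3 ⊢
          exact (step a i ih.1 h3).symm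
        · have e' : a = c + Pi.single i 1 := by rw [e]; simp
          have h3 := ih.1
          rw [e'] at h3 ⊢
          exact step c i h2.1 h3
    exact (gen b' h.2).2

end Pool.Agent.TPC
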