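import Pool.Agent.Lib.TPC.Path

/-! Block DC: exponential functionals of all clusters; two points in distinct clusters. -/

open Finset

set_option linter.unusedSectionVars false

namespace Pool.Agent.TPC

namespace DC

variable {V : Type} [DecidableEq V] {G : SimpleGraph V} {D : Finset V} {ω : Finset (Sym2 V)}
  {π : Sym2 V → ℝ}

/-- product over all clusters, only the points of `T` being marked -/
noncomputable def pr (G : SimpleGraph V) (ψ : V → Finset V → ℝ) (T D : Finset V)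
    (ω : Finset (Sym2 V)) : ℝ := ∏ C ∈ D.image (cl G D ω), (1 + ∑ y ∈ C ∩ T, ψ y C)

lemma dep_pr (G : SimpleGraph V) (ψ : V → Finset V → ℝ) (T D : Finset V) :
    DepOn (pr G ψ T D) (edges G D : Set (Sym2 V)) := by
  intro ω ω' h
  have : cl G D ω = cl G D ω' := funext fun x => dep_cl G D x ω ω' h
  unfold pr
  rw [this]

lemma sub_compl (G : SimpleGraph V) (D A : Finset V) :
    (edges G (D \ A) : Set (Sym2 V)) ⊆ {e | ¬ (e ∈ edges G D ∧ e ∈ touch A)} :=
  fun _ he h => edges_sdiff_not_touch (Finset.mem_coe.1 he) h.2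

lemma image_erase (x : V) : (D.image (cl G D ω)).erase (cl G D ω x) =
    (D \ cl G D ω x).image (cl G (D \ cl G D ω x) ω) := by
  ext C
  rw [Finset.mem_erase, Finset.mem_image, Finset.mem_image]
  constructor
  · rintro ⟨h1, y, hy, rfl⟩
    have h2 : ¬ conn G D ω x y := fun h => h1 (cl_eq_of_conn h)
    exact ⟨y, Finset.mem_sdiff.2 ⟨hy, fun h => h2 (mem_cl.1 h)⟩, cl_sdiff_cl h2⟩
  · rintro ⟨y, hy, rfl⟩
    obtain ⟨h1, h2⟩ := Finset.mem_sdiff.1 hy
    rw [cl_sdiff_cl fun h => h2 (mem_cl.2 h)]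
    exact ⟨fun h => h2 (h ▸ self_mem_cl h1), y, h1, rfl⟩

lemma pr_insert (ψ : V → Finset V → ℝ) {T : Finset V} {x : V} (hx : x ∉ T) :
    pr G ψ (insert x T) D ω = pr G ψ T D ω +
      ind (x ∈ cl G D ω x) * ψ x (cl G D ω x) * pr G ψ T (D \ cl G D ω x) ω := by
  by_cases hD : x ∈ D
  · have h1 : cl G D ω x ∈ D.image (cl G D ω) := Finset.mem_image_of_mem _ hD
    have h2 : ∏ C ∈ (D.image (cl G D ω)).erase (cl G D ω x), (1 + ∑ y ∈ C ∩ insert x T, ψ y C) =
        ∏ C ∈ (D.image (cl G D ω)).erase (cl G D ω x), (1 + ∑ y ∈ C ∩ T, ψ y C) := by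
      refine Finset.prod_congr rfl fun C hC => ?_
      obtain ⟨h3, h4⟩ := Finset.mem_erase.1 hC
      obtain ⟨y, -, rfl⟩ := Finset.mem_image.1 h4
      rw [Finset.inter_insert_of_notMem fun h => h3 (cl_eq_of_conn (mem_cl.1 h)).symm]
    unfold pr
    rw [← image_erase, ← Finset.mul_prod_erase _ _ h1, ← Finset.mul_prod_erase _ _ h1, h2,
      ind_pos (self_mem_cl hD), Finset.inter_insert_of_mem (self_mem_cl hD),
      Finset.sum_insert fun h => hx (Finset.mem_inter.1 h).2]
    ring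
  · rw [ind_neg fun h => hD (cl_subset h), zero_mul, zero_mul, add_zero]
    refine Finset.prod_congr rfl fun C hC => ?_
    obtain ⟨y, -, rfl⟩ := Finset.mem_image.1 hC
    rw [Finset.inter_insert_of_notMem fun h => hD (cl_subset h)]

lemma main (hπ : Prob π) {ψ : V → Finset V → ℝ} {b : V → ℝ} (hψ : ∀ y C, 0 ≤ ψ y C)
    (hb : ∀ y ∈ D, ∀ D', D' ⊆ D → EC G π D' y (fun C => ind (y ∈ C) * ψ y C) ≤ b y)
    (T : Finset V) (hT : T ⊆ D) :
    ∀ D', D' ⊆ D → PE (edges G D') π (pr G ψ T D') ≤ Real.exp (∑ y ∈ T, b y) := by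
  induction T using Finset.induction_on with
  | empty =>
    intro D' _
    refine PE_le_const hπ fun ω => le_of_eq ?_
    simp [pr]
  | insert x T hx ih =>
    intro D' hD'
    have ih' := ih ((Finset.subset_insert x T).trans hT)
    have h1 : pr G ψ (insert x T) D' = fun ω => pr G ψ T D' ω +
        ind (x ∈ cl G D' ω x) * ψ x (cl G D' ω x) * pr G ψ T (D' \ cl G D' ω x) ω :=
      funext fun ω => pr_insert ψ hx
    have h2 := PE_cond_cl G D' x (fun A ω => ind (x ∈ A) * ψ x A * pr G ψ T (D' \ A) ω)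
      (fun A _ => ((dep_pr G ψ T (D' \ A)).mono (sub_compl G D' A)).comp
        fun t => ind (x ∈ A) * ψ x A * t) (edges G D') π
    have h3 : PE (edges G D') π (fun ω => PE (edges G D') π (fun ω' => ind (x ∈ cl G D' ω x) *
        ψ x (cl G D' ω x) * pr G ψ T (D' \ cl G D' ω x) ω')) ≤
        PE (edges G D') π (fun ω => ind (x ∈ cl G D' ω x) * ψ x (cl G D' ω x) *
          Real.exp (∑ y ∈ T, b y)) := by
      refine PE_mono hπ fun ω => ?_
      rw [PE_mul_left, PE_restrict (edges_mono Finset.sdiff_subset) (dep_pr G ψ T _)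
        (fun _ he _ => he) π]
      exact mul_le_mul_of_nonneg_left (ih' _ (Finset.sdiff_subset.trans hD'))
        (mul_nonneg (ind_nonneg _) (hψ _ _))
    rw [PE_mul_right] at h3
    have h4 : PE (edges G D') π (fun ω => ind (x ∈ cl G D' ω x) * ψ x (cl G D' ω x)) ≤ b x :=
      hb x (hT (Finset.mem_insert_self x T)) D' hD'
    have h5 := mul_le_mul_of_nonneg_right h4 (Real.exp_pos (∑ y ∈ T, b y)).le
    have h6 := mul_le_mul_of_nonneg_right (Real.add_one_le_exp (b x))
      (Real.exp_pos (∑ y ∈ T, b y)).le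
    have h7 := ih' D' hD'
    rw [h1, PE_add, h2, Finset.sum_insert hx, Real.exp_add]
    linarith

end DC

theorem st_DC : St_DC := by
  intro V _ G π hπ D ψ b hψ hb
  refine le_trans (le_of_eq (PE_congr fun ω _ => ?_)) (DC.main hπ hψ hb D subset_rfl D subset_rfl)
  refine Finset.prod_congr rfl fun C hC => ?_
  obtain ⟨y, -, rfl⟩ := Finset.mem_image.1 hC
  rw [Finset.inter_eq_left.2 cl_subset]

theorem st_DC2 : St_DC2 := by
  intro V _ G π hπ D x y F F' hF hF' hm
  have h1 : PE (edges G D) π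
      (fun ω => ind (¬ conn G D ω x y) * (F (cl G D ω x) * F' (cl G D ω y))) =
      PE (edges G D) π (fun ω => ind (y ∉ cl G D ω x) * F (cl G D ω x) *
        F' (cl G (D \ cl G D ω x) ω y)) := by
    refine PE_congr fun ω _ => ?_
    by_cases h : conn G D ω x y
    · rw [ind_neg (not_not.2 h), ind_neg (not_not.2 (mem_cl.2 h)), zero_mul, zero_mul, zero_mul]
    · rw [cl_sdiff_cl h, ind_pos h, ind_pos fun h2 => h (mem_cl.1 h2), one_mul, one_mul]
  have h2 := PE_cond_cl G D x (fun A ω => ind (y ∉ A) * F A * F' (cl G (D \ A) ω y))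
    (fun A _ => ((dep_cl G (D \ A) y).mono (DC.sub_compl G D A)).comp
      fun C => ind (y ∉ A) * F A * F' C) (edges G D) π
  rw [h1, h2, EC, ← PE_mul_right]
  refine PE_mono hπ fun ω => ?_
  rw [PE_mul_left, PE_cl (edges_mono Finset.sdiff_subset)]
  refine mul_le_mul ?_ (EC_mono_dom hπ Finset.sdiff_subset hm) (PE_nonneg hπ fun _ => hF' _)
    (hF _)
  exact ind_mul_le (hF _) fun _ => le_rfl

end Pool.Agent.TPC
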