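import Pool.Agent.Lib.TPC.BlueZ

/-! Row E2B: the triangle error summed over a layer. -/

open Finset

namespace Pool.Agent.TPC

theorem st_E2B (hL : St_LAY) (h3 : St_S3) : St_E2B := by
  classical
  intro d p c C Φ hz hΨ
  have hd : (9 : ℝ) ≤ d := by exact_mod_cast hz.hd
  obtain ⟨C3, hC3, H3⟩ := h3 d (d - 2) (d - 3) (by linarith) (by linarith) (by linarith)
    (by linarith)
  obtain ⟨C4, hC4, H4⟩ := h3 d (d - 3) (d - 5) (by linarith) (by linarith) (by linarith)
    (by linarith)
  rw [min_eq_right (by linarith), show (d : ℝ) - 2 + (d - 3) - d = d - 5 by ring] at H3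
  rw [min_eq_right (by linarith), show (d : ℝ) - 3 + (d - 5) - d = d - 8 by ring] at H4
  have hC : 1 ≤ C := by
    have := hz.up {0} 0 0
    rwa [tz_self (mem_singleton_self _), zd_self, kk_zero, mul_one] at this
  have hΦ := hΨ.1
  refine ⟨C ^ 3 * Φ ^ 2 * C3 * (Φ ^ 2 * C4), by positivity, ?_⟩
  intro q hq0 hqp K S L F T i h k o hS hLh hF hT
  have hq1 : q ≤ 1 := hqp.trans hz.p1.le
  have up : ∀ (D : Finset (Zd d)) x y, tz q D x y ≤ C * kk (d - 2) (zd x y) := fun D x y =>
    (tz_mono_p hq0 hqp hz.p1.le).trans (hz.up D x y)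
  have nn : ∀ (D : Finset (Zd d)) x y, 0 ≤ tz q D x y := fun _ _ _ => tz_nonneg hq0 hq1
  -- the last leg
  have s1 : ∀ y ∈ F, ∀ v ∈ S, ∑ x ∈ T, tz q L v x ≤ (1 + zd v (y + ev i K)) * Φ ^ 2 := by
    intro y hy v hv
    have hz0 := zd_nonneg v (y + ev i K)
    by_cases hk : k ≤ h + K
    · have hv' := hS v hv
      refine ((hL d p Φ hz.p1.le hΨ q hq0 hqp L i (h + K) hLh v).1 T k (by omega) hk hT).trans ?_
      refine mul_le_mul_of_nonneg_right ?_ (by positivity)
      have h1 := abs_le_zd v (y + ev i K) i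
      have h2 : (y + ev i K) i = h + K := by simp [hF y hy]
      rw [h2] at h1
      have h3 := (abs_le.1 h1).1
      have h4 : ((h + K - max (v i) k + 1 : ℤ) : ℝ) ≤ ((h + K - v i + 1 : ℤ) : ℝ) := by
        exact_mod_cast (by omega : h + K - max (v i) k + 1 ≤ h + K - v i + 1)
      push_cast at h3 h4 ⊢
      linarith
    · rw [Finset.sum_eq_zero fun x hx => tz_of_notMem' fun hx' => hk (hT x hx ▸ hLh x hx')]
      positivity
  -- the sum over the middle vertex
  have s2 : ∀ y ∈ F, ∀ u, ∑ v ∈ S, tz q S u v * (tz q L (y + ev i K) v * ∑ x ∈ T, tz q L v x) ≤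
      C ^ 2 * Φ ^ 2 * C3 * kk (d - 5) (zd u (y + ev i K)) := by
    intro y hy u
    calc _ ≤ ∑ v ∈ S, C ^ 2 * Φ ^ 2 * (kk (d - 2) (zd u v) * kk (d - 3) (zd v (y + ev i K))) := by
          refine Finset.sum_le_sum fun v hv => ?_
          have hz0 := zd_nonneg v (y + ev i K)
          have e : kk (d - 3) (zd v (y + ev i K)) =
              kk (d - 2) (zd v (y + ev i K)) * (1 + zd v (y + ev i K)) := by
            rw [← kk_neg_one, kk_mul _ _ hz0, show (d : ℝ) - 2 + -1 = d - 3 by ring]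
          have a1 := up S u v
          have a2 := up L (y + ev i K) v
          rw [zd_comm] at a2
          have a3 := s1 y hy v hv
          have k1 := kk_nonneg ((d : ℝ) - 2) (zd_nonneg u v)
          have k2 := kk_nonneg ((d : ℝ) - 2) hz0
          calc _ ≤ (C * kk (d - 2) (zd u v)) * ((C * kk (d - 2) (zd v (y + ev i K))) *
                ((1 + zd v (y + ev i K)) * Φ ^ 2)) :=
                mul_le_mul a1 (mul_le_mul a2 a3 (Finset.sum_nonneg fun _ _ => nn _ _ _)
                  (by positivity)) (mul_nonneg (nn _ _ _) (Finset.sum_nonneg fun _ _ => nn _ _ _))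
                  (by positivity)
            _ = _ := by rw [e]; ring
      _ ≤ _ := by
          rw [← Finset.mul_sum, mul_assoc _ C3]
          exact mul_le_mul_of_nonneg_left (H3 _ _ (met_zd d) u _ S) (by positivity)
  set Γ : Zd d → ℝ := fun a => kk (d - 2) ‖a‖ * kk (d - 5) ‖a + ev i K‖ with hΓ
  have Γ0 : ∀ a, 0 ≤ Γ a := fun a =>
    mul_nonneg (kk_nonneg _ (norm_nonneg _)) (kk_nonneg _ (norm_nonneg _))
  have s3 := (hL d p Φ hz.p1.le hΨ q hq0 hqp S i h hS o).2.2 F
    ((S ×ˢ F).image fun z => z.2 - z.1) Γ hF Γ0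
    fun u hu y hy => mem_image.2 ⟨(u, y), mem_product.2 ⟨hu, hy⟩, rfl⟩
  have s4 : ∀ A : Finset (Zd d), ∑ a ∈ A, (1 + ‖a‖) * Γ a ≤ C4 * kk (d - 8) K := by
    intro A
    have h1 := H4 _ _ (met_zd d) 0 (-ev i K) A
    have h2 : (K : ℝ) ≤ zd 0 (-ev i K) := by
      have := abs_le_zd 0 (-ev i (K : ℤ)) i
      simpa using this
    refine le_trans (le_of_eq ?_) (h1.trans (mul_le_mul_of_nonneg_left
      (kk_anti (by linarith) (Nat.cast_nonneg K) h2) hC4.le))
    refine Finset.sum_congr rfl fun a _ => ?_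
    rw [hΓ, zd_zero_left, zd, sub_neg_eq_add, ← mul_assoc, ← kk_neg_one,
      kk_mul _ _ (norm_nonneg a), show -1 + ((d : ℝ) - 2) = d - 3 by ring]
  calc _ = ∑ u ∈ S, tz q S o u * ∑ y ∈ F, tz q S u y * ∑ v ∈ S, tz q S u v *
          (tz q L (y + ev i K) v * ∑ x ∈ T, tz q L v x) := by
        simp only [Finset.mul_sum]
        rw [Finset.sum_comm]
        refine Eq.trans (Finset.sum_congr rfl fun y _ => Finset.sum_comm) ?_
        rw [Finset.sum_comm]
        refine Finset.sum_congr rfl fun u _ => Finset.sum_congr rfl fun y _ => ?_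
        rw [Finset.sum_comm]
        refine Finset.sum_congr rfl fun v _ => Finset.sum_congr rfl fun x _ => ?_
        ring
    _ ≤ ∑ u ∈ S, C ^ 3 * Φ ^ 2 * C3 * (tz q S o u * ∑ y ∈ F, Γ (y - u)) := by
        refine Finset.sum_le_sum fun u _ => ?_
        rw [mul_left_comm]
        refine mul_le_mul_of_nonneg_left ?_ (nn _ _ _)
        rw [Finset.mul_sum]
        refine Finset.sum_le_sum fun y hy => ?_
        have e1 : zd u y = ‖y - u‖ := by rw [zd_comm]; rfl
        have e2 : zd u (y + ev i K) = ‖y - u + ev i K‖ := by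
          rw [zd_comm, zd, add_sub_right_comm]
        have k1 := kk_nonneg ((d : ℝ) - 2) (zd_nonneg u y)
        calc _ ≤ (C * kk (d - 2) (zd u y)) *
              (C ^ 2 * Φ ^ 2 * C3 * kk (d - 5) (zd u (y + ev i K))) :=
              mul_le_mul (up S u y) (s2 y hy u) (Finset.sum_nonneg fun _ _ => mul_nonneg (nn _ _ _)
                (mul_nonneg (nn _ _ _) (Finset.sum_nonneg fun _ _ => nn _ _ _))) (by positivity)
          _ = _ := by rw [hΓ, e1, e2]; ring
    _ ≤ _ := by
        rw [← Finset.mul_sum, mul_assoc _ (Φ ^ 2 * C4), mul_assoc (Φ ^ 2) C4]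
        refine mul_le_mul_of_nonneg_left (s3.trans ?_) (by positivity)
        exact mul_le_mul_of_nonneg_left (s4 _) (by positivity)

end Pool.Agent.TPC
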