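import Pool.Agent.Lib.TPC.BlueC

/-! Failures of the multi-root exploration towards heavy base clusters. -/

open Finset

namespace Pool.Agent.TPC

namespace EB

variable {V : Type} [Fintype V] [DecidableEq V]

lemma sum_ind_eq_le (X : Finset V) (b : V) : ∑ u ∈ X, ind (u = b) ≤ 1 := by
  simp only [ind_eq_ite, Finset.sum_ite_eq']
  split_ifs <;> norm_num

lemma sum2_le {X Y : Finset V} {P : V → V → Prop} {H : Prop} (b z : V)
    (h : ∀ u ∈ X, ∀ v ∈ Y, P u v → u = b ∧ v = z ∧ H) :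
    ∑ u ∈ X, ∑ v ∈ Y, ind (P u v) ≤ ind H := by
  calc ∑ u ∈ X, ∑ v ∈ Y, ind (P u v) ≤ ∑ u ∈ X, ∑ v ∈ Y, ind (u = b) * (ind (v = z) * ind H) :=
        Finset.sum_le_sum fun u hu => Finset.sum_le_sum fun v hv => by
          rw [← ind_and, ← ind_and]; exact ind_mono (h u hu v hv)
    _ = (∑ u ∈ X, ind (u = b)) * ((∑ v ∈ Y, ind (v = z)) * ind H) := by
        simp only [← Finset.mul_sum, ← Finset.sum_mul]
    _ ≤ 1 * (1 * ind H) := by
        have := ind_nonneg H
        have : 0 ≤ ∑ v ∈ Y, ind (v = z) := Finset.sum_nonneg fun _ _ => ind_nonneg _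
        gcongr <;> exact sum_ind_eq_le _ _
    _ = _ := by ring

/-- the increments of the exponent -/
noncomputable def inc (G : SimpleGraph V) (U Q : Finset V) (T x : ℝ) (η : Finset (Sym2 V))
    (a : Ent (Sym2 V) V) (s : List (Ent (Sym2 V) V)) : ℝ :=
  ind (a.tok ≠ none ∧ T ≤ (cl G (U \ Wof s) η a.z ∩ Q).card) * if a.ok then -1 else x

lemma det (G : SimpleGraph V) {U Q : Finset V} (hQ : Q ⊆ U) (k k' r : ℝ) (rt : Finset V → V)
    {T x : ℝ} (hT : 0 < T) (hx : 0 ≤ x) (ω : Finset (Bit V)) (A : Finset V) (n : ℕ) :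
    Wof ((eproc G U Q k k' r rt).run ω n) ⊆ A →
    x * (∑ u ∈ A ∩ Q, ∑ v ∈ flt (Q \ A) fun v => T ≤ (cl G (U \ A) (lev 0 ω) v ∩ Q).card,
      ind (∃ a ∈ (eproc G U Q k k' r rt).run ω n, a.tok = some s(u, v))) -
      (Wof ((eproc G U Q k k' r rt).run ω n) ∩ Q).card / T ≤
      sumF (inc G U Q T x (lev 0 ω)) ((eproc G U Q k k' r rt).run ω n) := by
  set Y := flt (Q \ A) fun v => T ≤ (cl G (U \ A) (lev 0 ω) v ∩ Q).card with hY
  refine Proc.run_inv (Inv := fun s => Wof s ⊆ A → x * (∑ u ∈ A ∩ Q, ∑ v ∈ Y,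
    ind (∃ a ∈ s, a.tok = some s(u, v))) - (Wof s ∩ Q).card / T ≤
      sumF (inc G U Q T x (lev 0 ω)) s) (fun _ => by simp [Wof, sumF, ind_neg]) ?_ n
  intro s ih
  have key : ∀ (a : Ent (Sym2 V) V) (H : Prop) (b : V), a.piece ⊆ U \ Wof s →
      (Wof (a :: s) ⊆ A → ∀ u ∈ A ∩ Q, ∀ v ∈ Y, a.tok = some s(u, v) → u = b ∧ v = a.z ∧ H) →
      x * ind H - (a.piece ∩ Q).card / T ≤ inc G U Q T x (lev 0 ω) a s →
      Wof (a :: s) ⊆ A → x * (∑ u ∈ A ∩ Q, ∑ v ∈ Y,
        ind (∃ c ∈ a :: s, c.tok = some s(u, v))) - (Wof (a :: s) ∩ Q).card / T ≤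
        sumF (inc G U Q T x (lev 0 ω)) (a :: s) := by
    intro a H b h1 h2 h3 h4
    have h5 := ih (Finset.subset_union_right.trans h4)
    have h6 : ((Wof (a :: s) ∩ Q).card : ℝ) = (a.piece ∩ Q).card + (Wof s ∩ Q).card := by
      rw [Wof, Finset.union_inter_distrib_right, Finset.card_union_of_disjoint, Nat.cast_add]
      exact Finset.disjoint_left.2 fun v c d =>
        (Finset.mem_sdiff.1 (h1 (Finset.mem_inter.1 c).1)).2 (Finset.mem_inter.1 d).1
    have h7 : ∑ u ∈ A ∩ Q, ∑ v ∈ Y, ind (∃ c ∈ a :: s, c.tok = some s(u, v)) ≤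
        ind H + ∑ u ∈ A ∩ Q, ∑ v ∈ Y, ind (∃ c ∈ s, c.tok = some s(u, v)) := by
      refine le_trans ?_ (add_le_add_left (sum2_le b a.z (h2 h4)) _)
      simp only [← Finset.sum_add_distrib]
      refine Finset.sum_le_sum fun u _ => Finset.sum_le_sum fun v _ => ?_
      rw [List.exists_mem_cons_iff]
      exact ind_or_le _ _
    have h8 := mul_le_mul_of_nonneg_left h7 hx
    rw [sumF, h6, add_div]
    linarith
  have cand : ∀ t z, (eproc G U Q k k' r rt).next s = some (some t, z) →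
      ∃ b, Cand G Q s (b, z) ∧ t = s(b, z) := by
    intro t z h0
    rcases eproc_next (G := G) (U := U) (Q := Q) (k := k) (k' := k') (r := r) (rt := rt) s with
      ⟨-, h⟩ | ⟨-, -, ⟨b, z', c, h⟩ | ⟨-, ⟨-, -, h⟩ | ⟨-, h⟩⟩⟩ <;> rw [h0] at h
    · simp at h
    · simp only [Option.some.injEq, Prod.mk.injEq] at h
      exact ⟨b, h.2 ▸ c, h.2 ▸ h.1⟩
    · simp at h
    · simp at h
  have pair : ∀ b z, Cand G Q s (b, z) → Wof s ⊆ A → ∀ u, ∀ v ∈ Y, s(b, z) = s(u, v) →
      u = b ∧ v = z := by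
    intro b z c hA u v hv e
    rcases Sym2.eq_iff.1 e with e | e
    · exact ⟨e.1.symm, e.2.symm⟩
    · exact absurd (hA c.1) (e.1 ▸ (Finset.mem_sdiff.1 (mem_flt.1 hv).1).2)
  rcases (eproc G U Q k k' r rt).step_cases ω s with
    ⟨-, h⟩ | ⟨z, -, h⟩ | ⟨t, z, h0, -, h⟩ | ⟨t, z, h0, -, h⟩ <;> rw [h]
  · exact ih
  · refine key _ False z cl_subset (fun _ u _ v _ e => by simp at e) ?_
    rw [inc, ind_neg not_false, ind_neg (by simp), zero_mul, mul_zero, zero_sub, neg_nonpos]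
    positivity
  · obtain ⟨b, c, rfl⟩ := cand t z h0
    refine key _ False b cl_subset (fun hA u _ v hv e => ?_) ?_
    · obtain ⟨e1, e2⟩ := pair b z c (Finset.subset_union_right.trans hA) u v hv
        (Option.some.inj e)
      refine ⟨e1, e2, (Finset.mem_sdiff.1 (mem_flt.1 hv).1).2 (hA (Finset.mem_union_left _ ?_))⟩
      rw [e2]
      exact self_mem_cl (Finset.mem_sdiff.2 ⟨hQ c.2.2.1, c.2.2.2.1⟩)
    · rw [inc, ind_neg not_false, mul_zero, zero_sub, if_pos rfl, mul_neg_one, neg_le_neg_iff]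
      refine ind_le_of (by positivity) fun h1 => ?_
      rw [le_div_iff₀ hT, one_mul]
      have := h1.2
      rwa [lev_zero] at this
  · obtain ⟨b, c, rfl⟩ := cand t z h0
    refine key _ (T ≤ (cl G (U \ Wof s) (lev 0 ω) z ∩ Q).card) b (Finset.empty_subset _)
      (fun hA u _ v hv e => ?_) ?_
    · have hA' := Finset.subset_union_right.trans hA
      obtain ⟨e1, e2⟩ := pair b z c hA' u v hv (Option.some.inj e)
      refine ⟨e1, e2, (mem_flt.1 hv).2.trans ?_⟩
      rw [e2]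
      exact_mod_cast Finset.card_le_card (Finset.inter_subset_inter_right
        (cl_mono (Finset.sdiff_subset_sdiff subset_rfl hA') subset_rfl))
    · simp [inc, mul_comm]

end EB

open EB in
theorem st_EB : St_EB := by
  intro K V _ _ M q hq U Q hQ k k' r σ F rt hσ
  have hT : 0 < σ * M.l ^ 4 := mul_pos hσ (pow_pos M.l_pos 4)
  have q1 := hq 1
  have hx : 0 ≤ q 1 / 4 := by linarith
  have hπ : Prob fun b : Bit V => q b.2 := prob_lev hq
  set B0 : Finset (Bit V) := univ.filter fun b => b.2 = 0 with hB0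
  rw [PL, PE_freeze univ B0, ← PE_const (univ ∩ B0) (fun b : Bit V => q b.2) (Real.exp _)]
  refine PE_mono' hπ fun a ha => ?_
  have hπa : Prob fun e : Bit V => if e ∈ B0 then (if e ∈ a then 1 else 0) else q e.2 := by
    intro e
    beta_reduce
    split_ifs
    exacts [by norm_num, by norm_num, hq _]
  have sup := Proc.super_exp (eproc_ok M.G U Q k k' r rt) hπa (fun _ => True)
    (inc M.G U Q (σ * M.l ^ 4) (q 1 / 4) (lev 0 a)) (fun _ _ => trivial)
    (fun s z _ _ => by simp [inc, ind_neg, EC, PE_const]) (fun s t z _ _ => by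
      have e : ∏ b ∈ (eproc M.G U Q k k' r rt).bits t,
          (1 - if b ∈ B0 then (if b ∈ a then 1 else 0) else q b.2) = 1 - q 1 := by
        rw [Finset.prod_congr rfl (g := fun b => 1 - q b.2) fun b hb => by
          rw [if_neg (by simpa [hB0] using (mem_lbits.1 hb).2.1.ne')]]
        refine (prod_lbits q 1 t).trans ?_
        rw [show Finset.Ioc (0 : Fin 5) 1 = {1} by decide, Finset.prod_singleton]
      rw [e]
      simp only [inc, EC, PE_const, if_true, Bool.false_eq_true, if_false]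
      by_cases H : (some t ≠ none ∧
        σ * M.l ^ 4 ≤ (cl M.G (U \ Wof s) (lev 0 a) z ∩ Q).card)
      · rw [ind_pos H, one_mul, one_mul]
        have e1 : Real.exp (-1) ≤ 1 / 2 := by
          rw [Real.exp_neg, inv_le_comm₀ (Real.exp_pos _) (by norm_num)]
          linarith [Real.add_one_le_exp 1]
        have e2 : Real.exp (q 1 / 4) ≤ 1 + q 1 / 2 := by
          have := Real.abs_exp_sub_one_le (x := q 1 / 4) (by rw [abs_of_nonneg hx]; linarith)
          rw [abs_of_nonneg hx] at this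
          linarith [le_abs_self (Real.exp (q 1 / 4) - 1)]
        nlinarith [mul_le_mul_of_nonneg_left e1 q1.1,
          mul_le_mul_of_nonneg_left e2 (sub_nonneg.2 q1.2)]
      · rw [ind_neg H, zero_mul, zero_mul, Real.exp_zero]
        linarith) (Fintype.card (Sym2 V) + ⌈r⌉₊ + 1)
  rw [PE_det ha] at sup
  refine le_trans (PE_mono' hπ fun b hb => ?_)
    ((PE_mul_right _ _ _ _).trans_le (mul_le_of_le_one_left (Real.exp_pos _).le sup))
  refine ind_le_of (by positivity) ?_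
  rintro ⟨⟨-, d2, -, d4⟩, hF⟩
  have el : lev 0 (a ∪ b) = lev 0 a := by
    ext e
    simp only [lev_zero, mem_baseOf, Finset.mem_union]
    exact or_iff_left fun h => (Finset.mem_sdiff.1 (hb h)).2 (by simp [hB0])
  have h1 := det M.G hQ k k' r rt hT hx (a ∪ b) _ (Fintype.card (Sym2 V) + ⌈r⌉₊ + 1) subset_rfl
  have h2 := hF.trans (Finset.sum_le_sum fun u hu => Finset.sum_le_sum fun v hv =>
    ind_mono (Q := ∃ c ∈ es M.G U Q k k' r rt (a ∪ b), c.tok = some s(u, v)) fun h => by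
      by_contra h3
      have hv' := Finset.mem_sdiff.1 (mem_flt.1 hv).1
      exact d4 (u, v) ⟨(Finset.mem_inter.1 hu).1, (Finset.mem_inter.1 hu).2, hv'.1, hv'.2, h,
        fun c hc e => h3 ⟨c, hc, e⟩⟩)
  have h3 := mul_le_mul_of_nonneg_left h2 hx
  have h4 := div_le_div_of_nonneg_right d2.le hT.le
  rw [← Real.exp_add, Real.one_le_exp_iff, ← el]
  unfold es at h3 h4
  linarith

end Pool.Agent.TPC
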