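import Pool.Agent.Lib.TPC.BlueC

/-! Block ED: deterministic properties of the multi-root exploration. -/

open Finset

set_option linter.unusedSectionVars false

namespace Pool.Agent.TPC

namespace EdB

variable {V : Type} [Fintype V] [DecidableEq V] {G : SimpleGraph V} {U Q : Finset V} {k k' r : ℝ}
  {rt : Finset V → V} {ω : Finset (Bit V)}

/-- the three kinds of steps -/
lemma step_cases (G : SimpleGraph V) (U Q : Finset V) (k k' r : ℝ) (rt : Finset V → V)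
    (ω : Finset (Bit V)) (s : List (Ent (Sym2 V) V)) :
    ((eproc G U Q k k' r rt).next s = none ∧ (eproc G U Q k k' r rt).step ω s = s) ∨
    (∃ z C, C ⊆ cl G U (lev 1 ω) z ∧ (∀ bz, ¬ Cand G Q s bz) ∧ ((Wof s ∩ Q).card : ℝ) < k ∧
      nroot s < r ∧ (eproc G U Q k k' r rt).step ω s = ⟨none, z, true, C⟩ :: s) ∨
    (∃ b z o C, Cand G Q s (b, z) ∧ ((Wof s ∩ Q).card : ℝ) < 2 * k ∧
      (C = ∅ ∨ (s(b, z) ∈ lev 1 ω ∧ C ⊆ cl G U (lev 1 ω) z)) ∧
      (eproc G U Q k k' r rt).step ω s = ⟨some s(b, z), z, o, C⟩ :: s) := by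
  have hsub : ∀ z, cl G (U \ Wof s) (baseOf (fun e => (e, (0 : Fin 5))) ω) z ⊆
      cl G U (lev 1 ω) z := fun z => by
    rw [← lev_zero]
    exact cl_mono sdiff_subset (lev_mono (by decide) subset_rfl)
  rcases eproc_next (G := G) (U := U) (Q := Q) (k := k) (k' := k') (r := r) (rt := rt) s with
    ⟨_, h⟩ | ⟨h1, _, ⟨b, z, hc, h⟩ | ⟨hc, ⟨h3, h4, h⟩ | ⟨_, h⟩⟩⟩
  · exact Or.inl ⟨h, Proc.step_none h⟩
  · refine Or.inr (Or.inr ?_)
    by_cases hb : ∃ x ∈ (eproc G U Q k k' r rt).bits s(b, z), x ∈ ω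
    · refine ⟨b, z, true, _, hc, h1, Or.inr ⟨?_, hsub z⟩, Proc.step_succ h hb⟩
      obtain ⟨⟨e, j⟩, hx, hx'⟩ := hb
      obtain ⟨h5, _, h6⟩ := mem_lbits.1 hx
      have h5' : e = s(b, z) := h5
      exact mem_lev.2 ⟨j, h6, h5' ▸ hx'⟩
    · exact ⟨b, z, false, ∅, hc, h1, Or.inl rfl, Proc.step_fail h hb⟩
  · exact Or.inr (Or.inl ⟨_, _, hsub _, hc, h3, h4, Proc.step_root h⟩)
  · exact Or.inl ⟨h, Proc.step_none h⟩

lemma nroot_root (z : V) (o : Bool) (C : Finset V) (s : List (Ent (Sym2 V) V)) :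
    nroot (⟨none, z, o, C⟩ :: s) = nroot s + 1 := by
  simp only [nroot, sumF]; rw [ind_pos trivial, add_comm]

lemma nroot_tok (t : Sym2 V) (z : V) (o : Bool) (C : Finset V) (s : List (Ent (Sym2 V) V)) :
    nroot (⟨some t, z, o, C⟩ :: s) = nroot s := by
  simp only [nroot, sumF]; rw [ind_neg (by simp), zero_add]

lemma ntok_root (z : V) (o : Bool) (C : Finset V) (s : List (Ent (Sym2 V) V)) :
    ntok (⟨none, z, o, C⟩ :: s) = ntok s := by
  simp only [ntok, sumF]; rw [ind_neg (by simp), zero_add]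

lemma ntok_tok (t : Sym2 V) (z : V) (o : Bool) (C : Finset V) (s : List (Ent (Sym2 V) V)) :
    ntok (⟨some t, z, o, C⟩ :: s) = ntok s + 1 := by
  simp only [ntok, sumF]; rw [ind_pos (by simp), add_comm]

lemma inv_root (n : ℕ) : ∃ j : ℕ, nroot ((eproc G U Q k k' r rt).run ω n) = j ∧ j ≤ ⌈r⌉₊ := by
  refine Proc.run_inv (Inv := fun s => ∃ j : ℕ, nroot s = j ∧ j ≤ ⌈r⌉₊)
    ⟨0, by simp [nroot, sumF], Nat.zero_le _⟩ ?_ n
  rintro s ⟨j, h1, h2⟩
  rcases step_cases G U Q k k' r rt ω s with ⟨_, h⟩ | ⟨z, C, _, _, _, h3, h⟩ |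
    ⟨b, z, o, C, _, _, _, h⟩ <;> rw [h]
  · exact ⟨j, h1, h2⟩
  · rw [h1] at h3
    exact ⟨j + 1, by rw [nroot_root, h1]; push_cast; rfl, Nat.lt_ceil.2 h3⟩
  · exact ⟨j, by rw [nroot_tok, h1], h2⟩

lemma inv_tok (n : ℕ) : ntok ((eproc G U Q k k' r rt).run ω n) ≤ Fintype.card (Sym2 V) := by
  have := Proc.run_inv (P := eproc G U Q k k' r rt) (ω := ω) (Inv := fun s =>
    ∃ T : Finset (Sym2 V), ntok s = T.card ∧ ∀ t ∈ T, ∃ a ∈ s, a.tok = some t)
    ⟨∅, by simp [ntok, sumF], by simp⟩ ?_ n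
  · obtain ⟨T, h1, -⟩ := this
    rw [h1]
    exact_mod_cast card_le_univ T
  rintro s ⟨T, h1, h2⟩
  rcases step_cases G U Q k k' r rt ω s with ⟨_, h⟩ | ⟨z, C, _, _, _, h3, h⟩ |
    ⟨b, z, o, C, hc, _, _, h⟩ <;> rw [h]
  · exact ⟨T, h1, h2⟩
  · refine ⟨T, by rw [ntok_root, h1], fun t ht => ?_⟩
    obtain ⟨a, ha, e⟩ := h2 t ht
    exact ⟨a, List.mem_cons_of_mem _ ha, e⟩
  · have hn : s(b, z) ∉ T := fun ht => by
      obtain ⟨a, ha, e⟩ := h2 _ ht
      exact hc.2.2.2.2.2 a ha e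
    refine ⟨insert s(b, z) T, by rw [ntok_tok, h1, card_insert_of_notMem hn]; push_cast; rfl,
      fun t ht => ?_⟩
    rcases mem_insert.1 ht with rfl | ht
    · exact ⟨_, List.mem_cons_self, rfl⟩
    · obtain ⟨a, ha, e⟩ := h2 t ht
      exact ⟨a, List.mem_cons_of_mem _ ha, e⟩

lemma len_eq (s : List (Ent (Sym2 V) V)) : (s.length : ℝ) = nroot s + ntok s := by
  induction s with
  | nil => simp [nroot, ntok, sumF]
  | cons a s ih =>
    obtain ⟨_ | t, z, o, C⟩ := a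
    · rw [nroot_root, ntok_root, List.length_cons]; push_cast; linarith
    · rw [nroot_tok, ntok_tok, List.length_cons]; push_cast; linarith

lemma stop_or_len (n : ℕ) :
    (eproc G U Q k k' r rt).next ((eproc G U Q k k' r rt).run ω n) = none ∨
      ((eproc G U Q k k' r rt).run ω n).length = n := by
  induction n with
  | zero => exact Or.inr rfl
  | succ n ih =>
    rw [Proc.run_succ]
    rcases ih with ih | ih
    · left; rw [Proc.step_none ih]; exact ih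
    · rcases step_cases G U Q k k' r rt ω ((eproc G U Q k k' r rt).run ω n) with ⟨h0, h⟩ |
        ⟨z, C, _, _, _, h3, h⟩ | ⟨b, z, o, C, hc, _, _, h⟩ <;> rw [h]
      · exact Or.inl h0
      · right; rw [List.length_cons, ih]
      · right; rw [List.length_cons, ih]

lemma stopped : (eproc G U Q k k' r rt).next (es G U Q k k' r rt ω) = none := by
  rcases stop_or_len (G := G) (U := U) (Q := Q) (k := k) (k' := k') (r := r) (rt := rt) (ω := ω)
    (Fintype.card (Sym2 V) + ⌈r⌉₊ + 1) with h | h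
  · exact h
  · exfalso
    have h1 := len_eq ((eproc G U Q k k' r rt).run ω (Fintype.card (Sym2 V) + ⌈r⌉₊ + 1))
    obtain ⟨j, h2, h3⟩ := inv_root (G := G) (U := U) (Q := Q) (k := k) (k' := k') (r := r)
      (rt := rt) (ω := ω) (Fintype.card (Sym2 V) + ⌈r⌉₊ + 1)
    have h4 := inv_tok (G := G) (U := U) (Q := Q) (k := k) (k' := k') (r := r)
      (rt := rt) (ω := ω) (Fintype.card (Sym2 V) + ⌈r⌉₊ + 1)
    have h5 : (j : ℝ) ≤ ⌈r⌉₊ := by exact_mod_cast h3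
    rw [h, h2] at h1
    push_cast at h1
    linarith

lemma inv_deg {Δ : ℕ} (hΔ : DegLe G Δ) (hk : 0 < k) (n : ℕ) :
    ntok ((eproc G U Q k k' r rt).run ω n) ≤ Δ * (2 * k) := by
  have := Proc.run_inv (P := eproc G U Q k k' r rt) (ω := ω) (Inv := fun s =>
    ∃ (W : Finset V) (E : Finset (V × V)), (W.card : ℝ) < 2 * k ∧ W ⊆ Wof s ∩ Q ∧
      ntok s = E.card ∧ ∀ x ∈ E, x.1 ∈ W ∧ G.Adj x.1 x.2 ∧ ∃ a ∈ s, a.tok = some s(x.1, x.2))
    ⟨∅, ∅, by simpa using hk, empty_subset _, by simp [ntok, sumF], by simp⟩ ?_ n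
  · obtain ⟨W, E, h1, -, h2, h3⟩ := this
    have h4 : E.card ≤ Δ * W.card := by
      refine card_le_mul_card_image_of_maps_to (f := Prod.fst) (fun x hx => (h3 x hx).1) Δ
        fun b _ => ?_
      rw [← card_image_of_injOn (f := Prod.snd)]
      · refine hΔ b _ fun y hy => ?_
        obtain ⟨x, hx, rfl⟩ := mem_image.1 hy
        obtain ⟨hx1, rfl⟩ := mem_filter.1 hx
        exact (h3 x hx1).2.1
      · intro x hx y hy e
        exact Prod.ext ((mem_filter.1 hx).2.trans (mem_filter.1 hy).2.symm) e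
    have h5 : (E.card : ℝ) ≤ Δ * W.card := by exact_mod_cast h4
    rw [h2]
    exact h5.trans (mul_le_mul_of_nonneg_left h1.le (Nat.cast_nonneg _))
  rintro s ⟨W, E, h1, h2, h3, h4⟩
  rcases step_cases G U Q k k' r rt ω s with ⟨_, h⟩ | ⟨z, C, _, _, _, _, h⟩ |
    ⟨b, z, o, C, hc, h5, _, h⟩ <;> rw [h]
  · exact ⟨W, E, h1, h2, h3, h4⟩
  · refine ⟨W, E, h1, h2.trans (inter_subset_inter_right subset_union_right),
      by rw [ntok_root, h3], fun x hx => ?_⟩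
    obtain ⟨a1, a2, a, ha, e⟩ := h4 x hx
    exact ⟨a1, a2, a, List.mem_cons_of_mem _ ha, e⟩
  · have hn : (b, z) ∉ E := fun ht => by
      obtain ⟨_, _, a, ha, e⟩ := h4 _ ht
      exact hc.2.2.2.2.2 a ha e
    refine ⟨Wof s ∩ Q, insert (b, z) E, h5, inter_subset_inter_right subset_union_right,
      by rw [ntok_tok, h3, card_insert_of_notMem hn]; push_cast; rfl, fun x hx => ?_⟩
    rcases mem_insert.1 hx with rfl | hx
    · exact ⟨mem_inter.2 ⟨hc.1, hc.2.1⟩, hc.2.2.2.2.1, _, List.mem_cons_self, rfl⟩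
    · obtain ⟨a1, a2, a, ha, e⟩ := h4 x hx
      exact ⟨h2 a1, a2, a, List.mem_cons_of_mem _ ha, e⟩

lemma cand_back {s : List (Ent (Sym2 V) V)} {a : Ent (Sym2 V) V} {b z : V} (hb : b ∈ Wof s)
    (h : Cand G Q (a :: s) (b, z)) : Cand G Q s (b, z) :=
  ⟨hb, h.2.1, h.2.2.1, fun h2 => h.2.2.2.1 (mem_union_right _ h2), h.2.2.2.2.1,
    fun x hx => h.2.2.2.2.2 x (List.mem_cons_of_mem _ hx)⟩

lemma inv_cl (hQ : Q ⊆ U) (hk : 0 < k) (n : ℕ) : ∃ (W₀ : Finset V) (y : V),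
    ((W₀ ∩ Q).card : ℝ) < k ∧
      Wof ((eproc G U Q k k' r rt).run ω n) ⊆ W₀ ∪ cl G U (lev 1 ω) y := by
  have := Proc.run_inv (P := eproc G U Q k k' r rt) (ω := ω) (Inv := fun s =>
    ∃ (W₀ : Finset V) (y : V), ((W₀ ∩ Q).card : ℝ) < k ∧ W₀ ⊆ Wof s ∧
      Wof s ⊆ W₀ ∪ cl G U (lev 1 ω) y ∧ ∀ b ∈ W₀, ∀ z, ¬ Cand G Q s (b, z))
    ⟨∅, rt ∅, by simpa using hk, empty_subset _, empty_subset _, by simp⟩ ?_ n
  · obtain ⟨W₀, y, h1, -, h2, -⟩ := this
    exact ⟨W₀, y, h1, h2⟩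
  rintro s ⟨W₀, y, h1, h2, h3, h4⟩
  rcases step_cases G U Q k k' r rt ω s with ⟨_, h⟩ | ⟨z, C, hC, hc, h5, _, h⟩ |
    ⟨b, z, o, C, hc, _, hC, h⟩ <;> rw [h]
  · exact ⟨W₀, y, h1, h2, h3, h4⟩
  · exact ⟨Wof s, z, h5, subset_union_right,
      union_subset (hC.trans subset_union_right) subset_union_left,
      fun b hb x hx => hc _ (cand_back hb hx)⟩
  · refine ⟨W₀, y, h1, h2.trans subset_union_right, union_subset ?_ h3,
      fun b' hb' x hx => h4 b' hb' x (cand_back (h2 hb') hx)⟩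
    rcases hC with rfl | ⟨he, hC⟩
    · exact empty_subset _
    · have hb : b ∈ cl G U (lev 1 ω) y :=
        (mem_union.1 (h3 hc.1)).resolve_left fun hb => h4 b hb z hc
      have hz : conn G U (lev 1 ω) y z :=
        (mem_cl.1 hb).tail (hQ hc.2.2.1) hc.2.2.2.2.1 he (hQ hc.2.1)
      rw [cl_eq_of_conn hz] at hC
      exact hC.trans subset_union_right

end EdB

open EdB in
theorem st_ED : St_ED := by
  intro V _ _ G Δ hΔ U Q hQ k k' r rt hk hr ω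
  refine ⟨inv_deg hΔ hk _, ?_, ?_⟩
  · obtain ⟨j, h1, h2⟩ := inv_root (G := G) (U := U) (Q := Q) (k := k) (k' := k') (r := r)
      (rt := rt) (ω := ω) (Fintype.card (Sym2 V) + ⌈r⌉₊ + 1)
    have h3 : (j : ℝ) ≤ ⌈r⌉₊ := by exact_mod_cast h2
    have h4 := Nat.ceil_lt_add_one hr
    unfold es
    linarith
  have hs := stopped (G := G) (U := U) (Q := Q) (k := k) (k' := k') (r := r) (rt := rt) (ω := ω)
  rcases eproc_next (G := G) (U := U) (Q := Q) (k := k) (k' := k') (r := r) (rt := rt)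
    (es G U Q k k' r rt ω) with
    ⟨h1 | h1, _⟩ | ⟨h1, h2, ⟨b, z, _, h⟩ | ⟨hc, ⟨_, _, h⟩ | ⟨h3 | h3, _⟩⟩⟩
  · left
    obtain ⟨W₀, y, a1, a2⟩ := inv_cl (G := G) (k' := k') (r := r) (rt := rt) (ω := ω) hQ hk
      (Fintype.card (Sym2 V) + ⌈r⌉₊ + 1)
    refine ⟨y, ?_⟩
    have a3 : Wof (es G U Q k k' r rt ω) ∩ Q ⊆ W₀ ∩ Q ∪ cl G U (lev 1 ω) y := by
      intro v hv
      rcases mem_union.1 (a2 (mem_inter.1 hv).1) with h | h
      · exact mem_union_left _ (mem_inter.2 ⟨h, (mem_inter.1 hv).2⟩)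
      · exact mem_union_right _ h
    have a4 : ((Wof (es G U Q k k' r rt ω) ∩ Q).card : ℝ) ≤
        (W₀ ∩ Q).card + (cl G U (lev 1 ω) y).card := by
      exact_mod_cast (card_le_card a3).trans (card_union_le _ _)
    linarith
  · exact Or.inr (Or.inl h1)
  · rw [hs] at h; exact absurd h (by simp)
  · rw [hs] at h; exact absurd h (by simp)
  · exact Or.inr (Or.inr (Or.inr ⟨h3, h1, h2, hc⟩))
  · exact Or.inr (Or.inr (Or.inl ⟨h3, h1⟩))

end Pool.Agent.TPC
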