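import Pool.Agent.Lib.TPC.BlueC

/-! Marked points of the multi-root exploration. -/

open Finset

set_option linter.unusedSectionVars false

namespace Pool.Agent.TPC.EM

lemma exp_le (y : ℝ) : Real.exp y ≤ 1 + y + y ^ 2 * Real.exp |y| := by
  have h1 : Real.exp y * (1 - y) ≤ 1 := by
    have h := Real.add_one_le_exp (-y)
    have h2 : Real.exp y * Real.exp (-y) = 1 := by rw [← Real.exp_add]; simp
    nlinarith [Real.exp_pos y]
  rcases le_total 0 y with h | h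
  · rw [abs_of_nonneg h]
    nlinarith [mul_le_mul_of_nonneg_left h1 h]
  · have h2 : 1 ≤ Real.exp |y| := Real.one_le_exp (abs_nonneg _)
    have h3 : y ^ 2 ≤ y ^ 2 * Real.exp |y| := le_mul_of_one_le_right (sq_nonneg _) h2
    have h4 : Real.exp y ≤ 1 + y + y ^ 2 := by
      have h5 : 1 ≤ (1 + y + y ^ 2) * (1 - y) := by nlinarith [mul_nonneg (sq_nonneg y) (neg_nonneg.2 h)]
      exact le_of_mul_le_mul_right (h1.trans h5) (by linarith)
    linarith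

lemma exp_bound {y u θ : ℝ} (hu : 0 ≤ u) (_h0 : 0 ≤ θ) (h1 : θ ≤ 1) (hy : |y| ≤ θ * u) :
    Real.exp y ≤ 1 + y + 2 * θ ^ 2 * (Real.exp (2 * u) - 1) := by
  have a1 : y ^ 2 ≤ (θ * u) ^ 2 := by
    rw [← sq_abs y]; exact pow_le_pow_left₀ (abs_nonneg _) hy 2
  have a2 : Real.exp |y| ≤ Real.exp u := Real.exp_le_exp.2 (hy.trans (by nlinarith))
  have a3 : y ^ 2 * Real.exp |y| ≤ (θ * u) ^ 2 * Real.exp u :=
    mul_le_mul a1 a2 (Real.exp_pos _).le (sq_nonneg _)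
  have a4 : 1 + u + u ^ 2 / 2 ≤ Real.exp u := Real.quadratic_le_exp_of_nonneg hu
  have a5 : Real.exp (2 * u) = Real.exp u * Real.exp u := by rw [← Real.exp_add]; congr 1; ring
  have a6 : 1 ≤ Real.exp u := Real.one_le_exp hu
  have a7 : u ^ 2 * Real.exp u ≤ 2 * (Real.exp (2 * u) - 1) := by
    rw [a5]; nlinarith [mul_le_mul_of_nonneg_left a4 (Real.exp_pos u).le, mul_nonneg hu (Real.exp_pos u).le]
  have a8 := mul_le_mul_of_nonneg_left a7 (sq_nonneg θ)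
  have := exp_le y
  nlinarith

variable {K : Kc} {V : Type} [Fintype V] [DecidableEq V] {M : Core K V}

/-- pair kernel restricted to `Q'` -/
noncomputable def ff (M : Core K V) (Q' : Finset V) (y u : V) : ℝ :=
  ind (y ∈ Q') * ind (u ∈ Q') * M.g y u

lemma ff_nonneg (Q' : Finset V) (y u : V) : 0 ≤ ff M Q' y u :=
  mul_nonneg (mul_nonneg (ind_nonneg _) (ind_nonneg _)) (M.g_nonneg _ _)

lemma ff_le (Q' : Finset V) (y u : V) : ff M Q' y u ≤ M.g y u :=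
  mul_le_of_le_one_left (M.g_nonneg _ _) (mul_le_one₀ (ind_le_one _) (ind_nonneg _) (ind_le_one _))

lemma pair_le {U Q Q' D : Finset V} {Λ Cγ : ℝ} (hU : M.Small U) (hD : D ⊆ U) (hΛ : 0 ≤ Λ)
    (hp : ∀ z, M.pot U z ≤ Λ * M.l ^ 2) (hγ : 0 ≤ Cγ)
    (hQ : ∀ y ∈ Q', ∀ v, v ∉ Q → M.g v y ≤ Cγ * M.f0) (v : V) :
    ∑ y ∈ D, ∑ u ∈ D, M.tb D v y * M.tb D v u * ff M Q' y u ≤
      K.C * ind (v ∈ Q) + Cγ ^ 2 * K.C * Λ / M.N := by
  have hC : 0 ≤ K.C := le_trans zero_le_one K.hC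
  have hB : 0 ≤ Cγ ^ 2 * K.C * Λ / M.N := div_nonneg (by positivity) M.N_pos.le
  by_cases hv : v ∈ Q
  · rw [ind_pos hv, mul_one]
    refine le_trans ?_ (le_add_of_nonneg_right hB)
    refine le_trans ?_ (M.tri v)
    have h0 : ∀ y u, 0 ≤ M.g v y * M.g v u * M.g y u := fun y u =>
      mul_nonneg (mul_nonneg (M.g_nonneg _ _) (M.g_nonneg _ _)) (M.g_nonneg _ _)
    refine le_trans (Finset.sum_le_sum fun y _ => ?_)
      (Finset.sum_le_sum_of_subset_of_nonneg (Finset.subset_univ D)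
        fun y _ _ => Finset.sum_nonneg fun u _ => h0 y u)
    refine le_trans (Finset.sum_le_sum fun u _ => ?_)
      (Finset.sum_le_sum_of_subset_of_nonneg (Finset.subset_univ D) fun u _ _ => h0 y u)
    exact mul_le_mul (mul_le_mul (M.tb_le _ _ _) (M.tb_le _ _ _) (M.tb_nonneg _ _ _)
      (M.g_nonneg _ _)) (ff_le _ _ _) (ff_nonneg _ _ _)
      (mul_nonneg (M.g_nonneg _ _) (M.g_nonneg _ _))
  · rw [ind_neg hv, mul_zero, zero_add]
    have hf := M.f0_pos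
    have h1 : ∀ y u, M.tb D v y * M.tb D v u * ff M Q' y u ≤ (Cγ * M.f0) ^ 2 * M.g y u := by
      intro y u
      have h0 : 0 ≤ (Cγ * M.f0) ^ 2 * M.g y u := mul_nonneg (sq_nonneg _) (M.g_nonneg _ _)
      by_cases hy : y ∈ Q'
      · by_cases hu : u ∈ Q'
        · rw [sq]
          exact mul_le_mul (mul_le_mul ((M.tb_le _ _ _).trans (hQ y hy v hv))
            ((M.tb_le _ _ _).trans (hQ u hu v hv)) (M.tb_nonneg _ _ _) (by positivity))
            (ff_le _ _ _) (ff_nonneg _ _ _) (by positivity)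
        · simpa [ff, ind_neg hu] using h0
      · simpa [ff, ind_neg hy] using h0
    have h2 : ∀ y ∈ D, ∑ u ∈ D, M.tb D v y * M.tb D v u * ff M Q' y u ≤
        (Cγ * M.f0) ^ 2 * (Λ * M.l ^ 2) := by
      intro y _
      refine le_trans (Finset.sum_le_sum fun u _ => h1 y u) ?_
      rw [← Finset.mul_sum]
      exact mul_le_mul_of_nonneg_left ((M.pot_mono hD y).trans (hp y)) (sq_nonneg _)
    refine le_trans (Finset.sum_le_sum h2) ?_
    rw [Finset.sum_const, nsmul_eq_mul]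
    have h3 : (D.card : ℝ) ≤ K.C * M.Vol := (hU.mono hD).card
    refine le_trans (mul_le_mul_of_nonneg_right h3 (by positivity)) (le_of_eq ?_)
    have hl := M.l_pos
    have hN := M.N_pos
    unfold Core.Vol Core.f0
    field_simp

/-- the signed increment -/
noncomputable def YY (M : Core K V) (Q Q' : Finset V) (Ms a : ℝ) (W C : Finset V) : ℝ :=
  ((badE M Q Q' Ms W C).card : ℝ) - a * ∑ y ∈ C, ind (y ∈ Q)

lemma sum_ind (C Q : Finset V) : ∑ y ∈ C, ind (y ∈ Q) = ((C ∩ Q).card : ℝ) := by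
  rw [← card_flt]; congr 2; ext y; simp

lemma YY_abs (Q Q' : Finset V) (Ms : ℝ) {a : ℝ} (h0 : 0 ≤ a) (h1 : a ≤ 1) (W C : Finset V) :
    |YY M Q Q' Ms a W C| ≤ C.card := by
  unfold YY
  rw [sum_ind]
  have a1 : ((badE M Q Q' Ms W C).card : ℝ) ≤ C.card := by
    exact_mod_cast Finset.card_le_card ((flt_subset _ _).trans Finset.inter_subset_left)
  have a2 : ((C ∩ Q).card : ℝ) ≤ C.card := by
    exact_mod_cast Finset.card_le_card Finset.inter_subset_left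
  have a3 : (0 : ℝ) ≤ (C ∩ Q).card := Nat.cast_nonneg _
  have a4 : (0 : ℝ) ≤ (badE M Q Q' Ms W C).card := Nat.cast_nonneg _
  rw [abs_le]
  constructor <;> nlinarith

lemma YY_empty (Q Q' : Finset V) (Ms a : ℝ) (W : Finset V) : YY M Q Q' Ms a W ∅ = 0 := by
  have : badE M Q Q' Ms W ∅ = ∅ := by ext y; simp [badE]
  simp [YY, this]

lemma bad_le {U Q Q' : Finset V} (hQU : Q ⊆ U) {Ms : ℝ} (hMs : 0 < Ms) (W C : Finset V) :
    ((badE M Q Q' Ms W C).card : ℝ) ≤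
      ∑ y ∈ C, ind (y ∈ (Q \ Q') ∪ flt U fun y => 1 < M.pot W y) +
        (∑ y ∈ C, ∑ u ∈ C, ff M Q' y u) / Ms := by
  rw [badE, card_flt, Finset.sum_div, ← Finset.sum_add_distrib]
  have h0 : ∀ y, 0 ≤ (∑ u ∈ C, ff M Q' y u) / Ms := fun y =>
    div_nonneg (Finset.sum_nonneg fun u _ => ff_nonneg _ _ _) hMs.le
  refine le_trans (Finset.sum_le_sum fun y hy => ?_)
    (Finset.sum_le_sum_of_subset_of_nonneg (Finset.inter_subset_left (s₂ := Q))
      fun y _ _ => add_nonneg (ind_nonneg _) (h0 y))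
  have hyQ := (Finset.mem_inter.1 hy).2
  refine ind_le_of (add_nonneg (ind_nonneg _) (h0 y)) fun h => ?_
  by_cases h1 : y ∈ Q'
  · rcases h with h | h | h
    · exact absurd h1 h
    · rw [ind_pos (Finset.mem_union_right _ (mem_flt.2 ⟨hQU hyQ, h⟩))]; linarith [h0 y]
    · have e : ∑ u ∈ C, ff M Q' y u = M.pot (C ∩ Q') y := by
        have e2 : C ∩ Q' = flt C (· ∈ Q') := by ext u; simp
        rw [Core.pot, e2, sum_flt]
        exact Finset.sum_congr rfl fun u _ => by rw [ff, ind_pos h1, one_mul]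
      have : 1 ≤ (∑ u ∈ C, ff M Q' y u) / Ms := by rw [e, le_div_iff₀ hMs]; linarith
      linarith [ind_nonneg (y ∈ (Q \ Q') ∪ flt U fun y => 1 < M.pot W y)]
  · rw [ind_pos (Finset.mem_union_left _ (Finset.mem_sdiff.2 ⟨hyQ, h1⟩))]; linarith [h0 y]

lemma forb_card {U W : Finset V} {Λ γ : ℝ} (hΛ : 0 ≤ Λ) (hp : ∀ z, M.pot U z ≤ Λ * M.l ^ 2)
    (hW : (W.card : ℝ) ≤ γ * M.U) :
    ((flt U fun y => 1 < M.pot W y).card : ℝ) ≤ γ * Λ * M.Vol := by
  rw [card_flt]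
  have h1 : ∑ y ∈ U, ind (1 < M.pot W y) ≤ ∑ y ∈ U, M.pot W y :=
    Finset.sum_le_sum fun y _ => ind_le_of (M.pot_nonneg _ _) le_of_lt
  rw [M.sum_pot] at h1
  have h2 : ∑ a ∈ W, M.pot U a ≤ W.card * (Λ * M.l ^ 2) := by
    refine le_trans (Finset.sum_le_sum fun a _ => hp a) ?_
    rw [Finset.sum_const, nsmul_eq_mul]
  have h3 := mul_le_mul_of_nonneg_right hW (show 0 ≤ Λ * M.l ^ 2 by positivity)
  rw [M.Vol_eq]
  linarith

lemma meanY (hET : St_ET2) {U Q Q' D W : Finset V} {Λ Cγ a ε γ : ℝ} (hU : M.Small U) (hD : D ⊆ U)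
    (hQU : Q ⊆ U) (hΛ : 0 ≤ Λ) (hp : ∀ z, M.pot U z ≤ Λ * M.l ^ 2) (hγ : 0 ≤ Cγ)
    (hQ : ∀ y ∈ Q', ∀ v, v ∉ Q → M.g v y ≤ Cγ * M.f0) (ha : 0 < a) (hε : 0 < ε)
    (hQQ : ((Q \ Q').card : ℝ) ≤ γ * M.Vol) (hW : (W.card : ℝ) ≤ γ * M.U)
    (h1 : K.Cs ε * (γ * (1 + Λ)) ≤ ε) (h2 : a * (Cγ ^ 2 * K.C * Λ) ≤ ε * M.N) (z : V) :
    M.EB D z (YY M Q Q' (K.C / a) a W) ≤ 3 * ε * M.l ^ 2 := by
  have hC : 0 < K.C := lt_of_lt_of_le one_pos K.hC
  have hMs : 0 < K.C / a := div_pos hC ha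
  set Fb : Finset V := (Q \ Q') ∪ flt U fun y => 1 < M.pot W y with hFb
  have b1 : M.EB D z (YY M Q Q' (K.C / a) a W) ≤ M.EB D z (fun C => ∑ y ∈ C, ind (y ∈ Fb) +
      (∑ y ∈ C, ∑ u ∈ C, ff M Q' y u) / (K.C / a) - a * ∑ y ∈ C, ind (y ∈ Q)) :=
    EC_mono M.prob fun C _ => sub_le_sub_right (bad_le hQU hMs W C) _
  have b2 : M.EB D z (fun C => ∑ y ∈ C, ind (y ∈ Fb) +
      (∑ y ∈ C, ∑ u ∈ C, ff M Q' y u) / (K.C / a) - a * ∑ y ∈ C, ind (y ∈ Q)) =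
      M.EB D z (fun C => ∑ y ∈ C, ind (y ∈ Fb)) +
      M.EB D z (fun C => ∑ y ∈ C, ∑ u ∈ C, ff M Q' y u) / (K.C / a) -
        a * M.EB D z (fun C => ∑ y ∈ C, ind (y ∈ Q)) := by
    simp only [Core.EB, EC]
    rw [PE_sub, PE_add, PE_div, PE_mul_left]
  have b3 : M.EB D z (fun C => ∑ y ∈ C, ind (y ∈ Fb)) ≤ 2 * ε * M.l ^ 2 := by
    have hsub : Fb ⊆ U := Finset.union_subset (Finset.sdiff_subset.trans hQU) (flt_subset _ _)
    have c1 : M.EB D z (fun C => ∑ y ∈ C, ind (y ∈ Fb)) ≤ ∑ y ∈ Fb, M.g z y := by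
      rw [Core.EB, EC_sum]
      have e : Fb = flt U (· ∈ Fb) := by
        ext y; rw [mem_flt]; exact ⟨fun h => ⟨hsub h, h⟩, fun h => h.2⟩
      rw [show ∑ y ∈ Fb, M.g z y = ∑ y ∈ flt U (· ∈ Fb), M.g z y by rw [← e], sum_flt]
      refine le_trans (Finset.sum_le_sum fun y _ => ?_)
        (Finset.sum_le_sum_of_subset_of_nonneg hD
          fun y _ _ => mul_nonneg (ind_nonneg _) (M.g_nonneg _ _))
      rw [mul_comm]
      exact mul_le_mul_of_nonneg_left (M.tb_le D z y) (ind_nonneg _)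
    have c2 := hU.r1 ε hε z Fb hsub
    have c3 : (Fb.card : ℝ) ≤ γ * (1 + Λ) * M.Vol := by
      have c4 : (Fb.card : ℝ) ≤ (Q \ Q').card + (flt U fun y => 1 < M.pot W y).card := by
        exact_mod_cast Finset.card_union_le _ _
      have c5 := forb_card hΛ hp hW
      linarith
    have c6 : K.Cs ε * M.f0 * Fb.card ≤ K.Cs ε * M.f0 * (γ * (1 + Λ) * M.Vol) :=
      mul_le_mul_of_nonneg_left c3 (mul_nonneg (by linarith [K.hCs ε]) M.f0_pos.le)
    have c7 : K.Cs ε * M.f0 * (γ * (1 + Λ) * M.Vol) = K.Cs ε * (γ * (1 + Λ)) * M.l ^ 2 := by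
      rw [← M.f0_mul_Vol]; ring
    have c8 := mul_le_mul_of_nonneg_right h1 (sq_nonneg M.l)
    linarith
  have b4 : M.EB D z (fun C => ∑ y ∈ C, ∑ u ∈ C, ff M Q' y u) ≤
      K.C * M.EB D z (fun C => ∑ y ∈ C, ind (y ∈ Q)) +
        K.C * M.l ^ 2 * (Cγ ^ 2 * K.C * Λ / M.N) := by
    refine le_trans (hET V M.G _ M.prob D z _ (ff_nonneg Q')) ?_
    have c1 : ∀ v ∈ D, tau M.G (fun _ => M.p) D z v * ∑ y ∈ D, ∑ u ∈ D,
        tau M.G (fun _ => M.p) D v y * tau M.G (fun _ => M.p) D v u * ff M Q' y u ≤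
        K.C * (tau M.G (fun _ => M.p) D z v * ind (v ∈ Q)) +
          tau M.G (fun _ => M.p) D z v * (Cγ ^ 2 * K.C * Λ / M.N) := by
      intro v _
      have := mul_le_mul_of_nonneg_left (pair_le hU hD hΛ hp hγ hQ v) (M.tb_nonneg D z v)
      simp only [Core.tb] at this
      linarith
    refine le_trans (Finset.sum_le_sum c1) ?_
    rw [Finset.sum_add_distrib, ← Finset.mul_sum, ← Finset.sum_mul, Core.EB, EC_sum]
    refine add_le_add le_rfl (mul_le_mul_of_nonneg_right (M.chi_le' D z) ?_)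
    exact div_nonneg (by positivity) M.N_pos.le
  have b5 : M.EB D z (fun C => ∑ y ∈ C, ∑ u ∈ C, ff M Q' y u) / (K.C / a) ≤
      a * M.EB D z (fun C => ∑ y ∈ C, ind (y ∈ Q)) + ε * M.l ^ 2 := by
    refine le_trans (div_le_div_of_nonneg_right b4 hMs.le) ?_
    have hN := M.N_pos
    have c1 : a * (Cγ ^ 2 * K.C * Λ) / M.N ≤ ε := by rwa [div_le_iff₀ hN]
    have c2 := mul_le_mul_of_nonneg_right c1 (sq_nonneg M.l)
    refine le_trans (le_of_eq ?_) (add_le_add le_rfl c2)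
    field_simp
  linarith

lemma expY {Q Q' D W : Finset V} {Ms a ε Λ θ : ℝ} {z : V} (ha0 : 0 ≤ a) (ha1 : a ≤ 1)
    (hΛ : 1 ≤ Λ) (hθ0 : 0 ≤ θ) (hθ1 : θ ≤ 1) (hθ : 8 * θ * Λ ≤ ε)
    (hK : ∀ t : ℝ, 0 ≤ t → 2 * t * Λ ^ 2 * M.l ^ 4 ≤ 1 →
      M.EB D z (fun C => Real.exp (t * C.card)) ≤ 1 + 2 * t * Λ * M.l ^ 2)
    (hm : M.EB D z (YY M Q Q' Ms a W) ≤ 3 * ε * M.l ^ 2) :
    M.EB D z (fun C => Real.exp (θ / (4 * Λ ^ 2 * M.l ^ 4) * YY M Q Q' Ms a W C)) ≤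
      1 + 4 * ε * (θ / (4 * Λ ^ 2 * M.l ^ 4)) * M.l ^ 2 := by
  have hl := M.l_pos
  obtain ⟨τ, hτ⟩ : ∃ τ : ℝ, τ = 1 / (4 * Λ ^ 2 * M.l ^ 4) := ⟨_, rfl⟩
  have τ0 : 0 < τ := by rw [hτ]; positivity
  have e : θ / (4 * Λ ^ 2 * M.l ^ 4) = θ * τ := by rw [hτ]; ring
  rw [e]
  have h1 := hK (2 * τ) (by positivity) (le_of_eq (by rw [hτ]; field_simp; ring))
  have h2 : M.EB D z (fun C => Real.exp (θ * τ * YY M Q Q' Ms a W C)) ≤
      M.EB D z (fun C => 1 + θ * τ * YY M Q Q' Ms a W C +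
        2 * θ ^ 2 * (Real.exp (2 * τ * C.card) - 1)) := by
    refine EC_mono M.prob fun C _ => ?_
    rw [mul_assoc 2 τ]
    refine exp_bound (by positivity) hθ0 hθ1 ?_
    rw [abs_mul, abs_of_nonneg (by positivity), mul_assoc]
    exact mul_le_mul_of_nonneg_left (mul_le_mul_of_nonneg_left (YY_abs Q Q' Ms ha0 ha1 W C) τ0.le)
      hθ0
  have h3 : M.EB D z (fun C => 1 + θ * τ * YY M Q Q' Ms a W C +
        2 * θ ^ 2 * (Real.exp (2 * τ * C.card) - 1)) =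
      1 + θ * τ * M.EB D z (YY M Q Q' Ms a W) +
        2 * θ ^ 2 * (M.EB D z (fun C => Real.exp (2 * τ * C.card)) - 1) := by
    simp only [Core.EB, EC]
    rw [PE_add, PE_add, PE_const, PE_mul_left, PE_mul_left, PE_sub, PE_const]
  have h4 := mul_le_mul_of_nonneg_left hm (show 0 ≤ θ * τ by positivity)
  have h5 := mul_le_mul_of_nonneg_left h1 (show 0 ≤ 2 * θ ^ 2 by positivity)
  have h6 := mul_le_mul_of_nonneg_right hθ (show 0 ≤ θ * τ * M.l ^ 2 by positivity)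
  nlinarith

lemma comp_le {x m : ℝ} (h : x ≤ 1 + m) : x * Real.exp (-m) ≤ 1 := by
  have h1 := Real.add_one_le_exp m
  have h2 : Real.exp m * Real.exp (-m) = 1 := by rw [← Real.exp_add]; simp
  nlinarith [Real.exp_pos (-m)]

/-- the exponential supermartingale -/
lemma sup_le {q : Fin 5 → ℝ} {κ : ℝ} (hq : M.Lv κ 1 q) {U Q : Finset V} (k k' r : ℝ)
    (rt : Finset V → V) (Y : Finset V → Finset V → ℝ) (hY0 : ∀ W, Y W ∅ = 0) {m : ℝ} (hm : 0 ≤ m)
    (hY : ∀ (W : Finset V) (z : V), (W.card : ℝ) < k' →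
      M.EB (U \ W) z (fun C => Real.exp (Y W C)) ≤ 1 + m) :
    PL q (fun ω => Real.exp (sumF (fun a s => Y (Wof s) a.piece) (es M.G U Q k k' r rt ω) -
      m * nroot (es M.G U Q k k' r rt ω) - m * (κ / M.l ^ 2) * ntok (es M.G U Q k k' r rt ω))) ≤
      1 := by
  have hlt : ∀ (s : List (Ent (Sym2 V) V)) x, (eproc M.G U Q k k' r rt).next s = some x →
      ((Wof s).card : ℝ) < k' := by
    intro s x hx
    rcases eproc_next (G := M.G) (U := U) (Q := Q) (k := k) (k' := k') (r := r) (rt := rt) s with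
      ⟨_, h⟩ | ⟨_, h, _⟩
    · rw [h] at hx; exact absurd hx (by simp)
    · exact h
  have hb : (fun e : Sym2 V => (fun b : Bit V => q b.2) ((eproc M.G U Q k k' r rt).base e)) =
      fun _ => M.p := funext fun _ => hq.1
  have := Proc.super_exp (eproc_ok M.G U Q k k' r rt) hq.prob (fun _ => True)
    (fun a s => Y (Wof s) a.piece + (-m * ind (a.tok = none) +
      -(m * (κ / M.l ^ 2)) * ind (a.tok ≠ none))) (fun _ _ => trivial) ?_ ?_
      (Fintype.card (Sym2 V) + ⌈r⌉₊ + 1)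
  · refine le_trans (le_of_eq ?_) this
    refine PE_congr fun ω _ => ?_
    rw [sumF_add, sumF_add, sumF_mul, sumF_mul]
    simp only [es, nroot, ntok]
    congr 1; ring
  · intro s z _ h0
    rw [hb]
    have e1 : ind True = 1 := ind_pos trivial
    have e2 : ind ((none : Option (Sym2 V)) ≠ none) = 0 := ind_neg (by simp)
    simp only [e1, e2, mul_one, mul_zero, add_zero, Real.exp_add, EC]
    rw [PE_mul_right]
    exact comp_le (hY (Wof s) z (hlt s _ h0))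
  · intro s t z _ h0
    rw [hb]
    have e1 : ind (some t = none) = 0 := ind_neg (by simp)
    have e2 : ind (some t ≠ none) = 1 := ind_pos (by simp)
    have e3 : ∏ b ∈ (eproc M.G U Q k k' r rt).bits t, (1 - q b.2) = 1 - q 1 := by
      refine (prod_lbits q 1 t).trans ?_
      rw [show Finset.Ioc (0 : Fin 5) 1 = {1} by decide, Finset.prod_singleton]
    simp only [e1, e2, e3, hY0, mul_one, mul_zero, zero_add, Real.exp_add, EC]
    rw [PE_mul_right]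
    have h1 := hY (Wof s) z (hlt s _ h0)
    have h2 := hq.2.1 1
    have h3 := hq.2.2 1 (by decide) le_rfl
    have h4 := mul_le_mul_of_nonneg_left h1 h2.1
    have h5 := mul_le_mul_of_nonneg_left h3 hm
    simp only [Core.EB, EC] at h4
    have h6 := comp_le (m := m * (κ / M.l ^ 2)) (x := q 1 * PE (edges M.G (U \ Wof s))
      (fun _ => M.p) (fun ω => Real.exp (Y (Wof s) (cl M.G (U \ Wof s) ω z))) + (1 - q 1))
      (by linarith)
    refine le_trans (le_of_eq ?_) h6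
    simp only [eproc]
    ring

end Pool.Agent.TPC.EM

namespace Pool.Agent.TPC

open EM in
theorem st_EM (hED : St_ED) (hKER : St_KER) (hET : St_ET2) : St_EM := by
  intro K η hη
  obtain ⟨Λ, hΛC, hK⟩ := hKER K
  have hC : 0 < K.C := lt_of_lt_of_le one_pos K.hC
  have hΛ : 1 ≤ Λ := K.hC.trans hΛC
  obtain ⟨a, ha0, ha1, haη⟩ : ∃ a : ℝ, 0 < a ∧ a ≤ 1 ∧ 4 * a ≤ η :=
    ⟨min 1 (η / 4), by positivity, min_le_left _ _, by linarith [min_le_right 1 (η / 4)]⟩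
  refine ⟨K.C / a, div_pos hC ha0, fun κ T hκ hT => ?_⟩
  obtain ⟨ε, hε0, hε1, hεη⟩ : ∃ ε : ℝ, 0 < ε ∧ ε ≤ 1 ∧ 16 * ε * (T + 1 + 2 * κ * K.Δ) ≤ η := by
    have hp : 0 < 16 * (T + 1 + 2 * κ * K.Δ) := by positivity
    refine ⟨min 1 (η / (16 * (T + 1 + 2 * κ * K.Δ))), by positivity, min_le_left _ _, ?_⟩
    have := min_le_right 1 (η / (16 * (T + 1 + 2 * κ * K.Δ)))
    rw [le_div_iff₀ hp] at this
    linarith
  have hCs : 0 < K.Cs ε := lt_of_lt_of_le one_pos (K.hCs ε)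
  refine ⟨ε / (K.Cs ε * (1 + Λ)), by positivity, fun β Cγ hβ hγ => ?_⟩
  obtain ⟨θ, hθ⟩ : ∃ θ : ℝ, θ = ε / (8 * Λ) := ⟨_, rfl⟩
  have θ0 : 0 < θ := by rw [hθ]; positivity
  have θ8 : 8 * θ * Λ = ε := by rw [hθ]; field_simp
  have θ1 : θ ≤ 1 := by nlinarith
  refine ⟨θ * η * β / (16 * Λ ^ 2), max (1 / β) (a * (Cγ ^ 2 * K.C * Λ) / ε), by positivity, ?_⟩
  intro V _ _ M q hq _ hN U Q Q' hU hQU _ hQQ hQ δ hδ rt
  obtain ⟨hK1, -, hK3⟩ := hK V M
  have hp := (hK3 U hU).1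
  have hl := M.l_pos
  have hN0 := M.N_pos
  have hU0 := M.U_pos
  have N1 : 1 ≤ β * M.N := by
    have := (le_max_left _ _).trans hN
    rw [div_le_iff₀ hβ] at this; linarith
  have N2 : a * (Cγ ^ 2 * K.C * Λ) ≤ ε * M.N := by
    have := (le_max_right _ _).trans hN
    rw [div_le_iff₀ hε0] at this; linarith
  obtain ⟨t, ht⟩ : ∃ t : ℝ, t = θ / (4 * Λ ^ 2 * M.l ^ 4) := ⟨_, rfl⟩
  have t0 : 0 < t := by rw [ht]; positivity
  have hs := sup_le (U := U) (Q := Q) hq (β * M.U) (δ * M.U) (T * β * M.N * M.l ^ 2) rt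
    (fun W C => t * YY M Q Q' (K.C / a) a W C) (fun W => by rw [YY_empty, mul_zero])
    (m := 4 * ε * t * M.l ^ 2) (by positivity) (fun W z hW => by
      rw [ht]
      refine expY ha0.le ha1 hΛ θ0.le θ1 θ8.le (hK1 _ z) ?_
      refine meanY hET hU Finset.sdiff_subset hQU (by linarith) hp hγ.le hQ ha0 hε0 hQQ
        (hW.le.trans (mul_le_mul_of_nonneg_right hδ hU0.le)) (le_of_eq ?_) N2 z
      field_simp)
  obtain ⟨c, hc⟩ : ∃ c : ℝ, c = θ * η * β / (16 * Λ ^ 2) := ⟨_, rfl⟩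
  rw [← hc]
  have hc2 : c * M.N = t * η * (β * M.U) / 4 := by
    rw [hc, ht]; unfold Core.U; field_simp; ring
  refine le_trans ?_ (mul_le_of_le_one_left (Real.exp_pos (-(c * M.N))).le hs)
  unfold PL
  rw [← PE_mul_right]
  refine PE_mono hq.prob fun ω => ind_le_of (by positivity) fun h => ?_
  obtain ⟨e1, e2, -⟩ := hED V M.G K.Δ M.deg U Q hQU (β * M.U) (δ * M.U) (T * β * M.N * M.l ^ 2) rt
    (by positivity) (by positivity) ω
  have hd : Disj (es M.G U Q (β * M.U) (δ * M.U) (T * β * M.N * M.l ^ 2) rt ω) :=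
    (Proc.disj_run _ ω _).1
  generalize es M.G U Q (β * M.U) (δ * M.U) (T * β * M.N * M.l ^ 2) rt ω = s at h e1 e2 hd ⊢
  rw [← Real.exp_add]
  refine Real.one_le_exp ?_
  have f1 : sumF (fun b s => t * YY M Q Q' (K.C / a) a (Wof s) b.piece) s =
      t * (sumF (fun b s => ((badE M Q Q' (K.C / a) (Wof s) b.piece).card : ℝ)) s +
        -a * ((Wof s ∩ Q).card : ℝ)) := by
    rw [sumF_mul, ← sum_ind, hd.sum_Wof, ← sumF_mul (-a), ← sumF_add]
    congr 2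
    funext b s
    unfold YY; ring
  have f2 := card_marked_le (badE M Q Q' (K.C / a)) s
  obtain ⟨k, hk⟩ : ∃ k : ℝ, k = β * M.U := ⟨_, rfl⟩
  have k0 : 0 < k := by rw [hk]; positivity
  have k1 : M.l ^ 2 * (T * β * M.N * M.l ^ 2) = T * k := by rw [hk]; unfold Core.U; ring
  have k2 : M.l ^ 2 ≤ k := by
    have g1 : M.l ^ 2 ≤ M.l ^ 4 := pow_le_pow_right₀ M.l1 (by norm_num)
    have g2 := mul_le_mul_of_nonneg_right N1 (show 0 ≤ M.l ^ 4 by positivity)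
    rw [hk]; unfold Core.U; linarith
  rw [f1, hc2]
  rw [← hk] at h e1 ⊢
  have f3 : M.l ^ 2 * nroot s ≤ (T + 1) * k := by
    have := mul_le_mul_of_nonneg_left e2 (sq_nonneg M.l)
    linarith
  have f4 : κ * ntok s ≤ κ * (K.Δ * (2 * k)) := mul_le_mul_of_nonneg_left e1 hκ
  have f5 : 4 * ε * t * M.l ^ 2 * (κ / M.l ^ 2) * ntok s = t * (4 * ε * (κ * ntok s)) := by
    field_simp
  have f6 : a * ((Wof s ∩ Q).card : ℝ) ≤ a * (2 * k) := mul_le_mul_of_nonneg_left h.1.le ha0.le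
  have f7 := mul_le_mul_of_nonneg_right haη k0.le
  have f8 := mul_le_mul_of_nonneg_right hεη k0.le
  have f9 := mul_le_mul_of_nonneg_left f3 hε0.le
  have f10 := mul_le_mul_of_nonneg_left f4 hε0.le
  have f11 : 0 ≤ sumF (fun b s => ((badE M Q Q' (K.C / a) (Wof s) b.piece).card : ℝ)) s +
      -a * ((Wof s ∩ Q).card : ℝ) - 4 * ε * (M.l ^ 2 * nroot s) - 4 * ε * (κ * ntok s)
      - η * k / 4 := by
    have := h.2
    linarith
  have f12 := mul_nonneg t0.le f11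
  rw [f5]
  linarith

end Pool.Agent.TPC
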