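import Pool.Agent.Lib.TPC.BlueC

/-! Energy bound for the unmarked points of an exploration. -/

open Finset

set_option linter.unusedSectionVars false

namespace Pool.Agent.TPC

namespace EN

variable {K : Kc} {V : Type} [Fintype V] [DecidableEq V] {T : Type}

/-- energy of any part of the unmarked set -/
lemma energy (M : Core K V) (bad : Finset V → Finset V → Finset V) (R : Finset V) {Ms M' : ℝ}
    (s : List (Ent T V))
    (h : ∀ W C : Finset V, W ⊆ Wof s → C ⊆ Wof s → ∀ y ∈ C, y ∈ R → y ∉ bad W C →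
      M.pot (C ∩ R) y ≤ Ms ∧ M.pot (W ∩ R) y ≤ M') :
    ∀ A : Finset V, A ⊆ (Wof s ∩ R) \ marked bad s →
      ∑ y ∈ A, M.pot A y ≤ (Ms + 2 * M') * A.card := by
  induction s with
  | nil =>
    intro A hA
    have : A = ∅ := by
      simpa [Wof] using hA
    subst this
    simp
  | cons a s ih =>
    intro A hA
    have hW : Wof s ⊆ Wof (a :: s) := Finset.subset_union_right
    have hP : a.piece ⊆ Wof (a :: s) := Finset.subset_union_left
    have ih' := ih (fun W C hW' hC' => h W C (hW'.trans hW) (hC'.trans hW)) (A \ a.piece) (by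
      intro y hy
      obtain ⟨hy1, hy2⟩ := Finset.mem_sdiff.1 hy
      have := hA hy1
      simp only [Wof, marked, Finset.mem_sdiff, Finset.mem_inter, Finset.mem_union, not_or] at this ⊢
      exact ⟨⟨this.1.1.resolve_left hy2, this.1.2⟩, this.2.2⟩)
    have hsplit : ∀ f : V → ℝ, ∑ y ∈ A, f y = ∑ y ∈ A ∩ a.piece, f y + ∑ y ∈ A \ a.piece, f y :=
      fun f => (Finset.sum_inter_add_sum_sdiff A a.piece f).symm
    have hpt : ∀ y ∈ A ∩ a.piece,
        M.pot (A ∩ a.piece) y ≤ Ms ∧ M.pot (A \ a.piece) y ≤ M' := by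
      intro y hy
      obtain ⟨hy1, hy2⟩ := Finset.mem_inter.1 hy
      have h1 := hA hy1
      simp only [Wof, marked, Finset.mem_sdiff, Finset.mem_inter, Finset.mem_union, not_or] at h1
      obtain ⟨h2, h3⟩ := h (Wof s) a.piece hW hP y hy2 h1.1.2 h1.2.1
      refine ⟨(M.pot_mono ?_ y).trans h2, (M.pot_mono ?_ y).trans h3⟩
      · intro v hv
        obtain ⟨hv1, hv2⟩ := Finset.mem_inter.1 hv
        exact Finset.mem_inter.2 ⟨hv2, (Finset.mem_inter.1 (Finset.mem_sdiff.1 (hA hv1)).1).2⟩
      · intro v hv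
        obtain ⟨hv1, hv2⟩ := Finset.mem_sdiff.1 hv
        have h4 := Finset.mem_inter.1 (Finset.mem_sdiff.1 (hA hv1)).1
        refine Finset.mem_inter.2 ⟨?_, h4.2⟩
        exact (Finset.mem_union.1 h4.1).resolve_left hv2
    have e1 : ∀ y, M.pot A y = M.pot (A ∩ a.piece) y + M.pot (A \ a.piece) y := fun y => hsplit _
    have e2 : ∑ y ∈ A \ a.piece, M.pot (A ∩ a.piece) y =
        ∑ y ∈ A ∩ a.piece, M.pot (A \ a.piece) y := M.sum_pot _ _
    have b1 : ∑ y ∈ A ∩ a.piece, M.pot (A ∩ a.piece) y ≤ Ms * (A ∩ a.piece).card := by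
      have := Finset.sum_le_card_nsmul (A ∩ a.piece) _ Ms fun y hy => (hpt y hy).1
      rw [nsmul_eq_mul] at this; linarith
    have b2 : ∑ y ∈ A ∩ a.piece, M.pot (A \ a.piece) y ≤ M' * (A ∩ a.piece).card := by
      have := Finset.sum_le_card_nsmul (A ∩ a.piece) _ M' fun y hy => (hpt y hy).2
      rw [nsmul_eq_mul] at this; linarith
    have c1 : (A.card : ℝ) = (A ∩ a.piece).card + (A \ a.piece).card := by
      exact_mod_cast (Finset.card_inter_add_card_sdiff A a.piece).symm
    rw [hsplit]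
    simp only [e1, Finset.sum_add_distrib]
    rw [e2, c1]
    nlinarith

end EN

theorem st_EN : St_EN := by
  intro K V _ _ M T s _ bad R Ms M' ζ hMs hM' hζ h
  classical
  set G := (Wof s ∩ R) \ marked bad s with hG
  set L := Ms + 2 * M' with hL
  have hL0 : 0 ≤ L := by positivity
  have hE : ∑ y ∈ G, M.pot G y ≤ L * G.card := EN.energy M bad R s h G subset_rfl
  refine ⟨G.filter fun y => M.pot G y ≤ L / ζ, Finset.filter_subset _ _, ?_, ?_⟩
  · set B := G \ G.filter fun y => M.pot G y ≤ L / ζ with hB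
    have hBG : B ⊆ G := Finset.sdiff_subset
    have hlt : ∀ y ∈ B, L / ζ < M.pot G y := by
      intro y hy
      obtain ⟨h1, h2⟩ := Finset.mem_sdiff.1 hy
      by_contra h3
      exact h2 (Finset.mem_filter.2 ⟨h1, not_lt.1 h3⟩)
    rcases B.eq_empty_or_nonempty with h0 | h0
    · rw [h0]; simp only [Finset.card_empty, Nat.cast_zero]; positivity
    · have h1 : ∑ _y ∈ B, L / ζ < ∑ y ∈ B, M.pot G y := Finset.sum_lt_sum_of_nonempty h0 hlt
      have h2 : ∑ y ∈ B, M.pot G y ≤ ∑ y ∈ G, M.pot G y :=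
        Finset.sum_le_sum_of_subset_of_nonneg hBG fun _ _ _ => M.pot_nonneg _ _
      rw [Finset.sum_const, nsmul_eq_mul] at h1
      have h3 : (B.card : ℝ) * (L / ζ) < L * G.card := by linarith
      rcases hL0.eq_or_lt with h4 | h4
      · rw [← h4] at h3; simp at h3
      · have h5 : (B.card : ℝ) * L < L * G.card * ζ := by
          rw [← mul_div_assoc, div_lt_iff₀ hζ] at h3; exact h3
        have h6 : (B.card : ℝ) * L < (ζ * G.card) * L := by linarith
        exact (lt_of_mul_lt_mul_right h6 hL0).le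
  · intro u
    have := M.maxp (G.filter fun y => M.pot G y ≤ L / ζ) (L / ζ) (by positivity) (fun a ha =>
      (M.pot_mono (Finset.filter_subset _ _) a).trans (Finset.mem_filter.1 ha).2) u
    rw [mul_div_assoc]
    exact this

end Pool.Agent.TPC
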