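import Pool.Agent.Lib.TPC.Path

/-! Entropy comparison: consequences of the Jensen form. -/

open Finset

set_option linter.unusedSectionVars false

namespace Pool.Agent.TPC

namespace ENT

lemma exp_neg_le {f : ℝ} (h0 : 0 ≤ f) (h1 : f ≤ 1) : Real.exp (-f) ≤ 1 - f / 2 := by
  have h2 := Real.add_one_le_exp f
  have h3 : Real.exp (-f) * Real.exp f = 1 := by rw [← Real.exp_add]; simp
  have h4 := Real.exp_pos (-f)
  have h5 : Real.exp (-f) * (f + 1) ≤ 1 :=
    (mul_le_mul_of_nonneg_left h2 h4.le).trans h3.le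
  have h6 : 1 ≤ (1 - f / 2) * (f + 1) := by nlinarith
  have h7 : 0 < f + 1 := by linarith
  exact le_of_mul_le_mul_right (h5.trans h6) h7

lemma entB_nonneg {ι : Type} [DecidableEq ι] (E : Finset ι) {P Q : ι → ℝ}
    (hP : ∀ e, 0 < P e ∧ P e < 1) (hQ : Prob Q) (S : Finset ι → Finset ι) :
    0 ≤ entB E P Q S := by
  refine Finset.sum_nonneg fun e _ => mul_nonneg (PE_ind_nonneg hQ _) ?_
  have := hP e
  exact div_nonneg (sq_nonneg _) (mul_nonneg this.1.le (by linarith [this.2]))

lemma card_touch {V : Type} [DecidableEq V] {G : SimpleGraph V} {Δ : ℕ} (h : DegLe G Δ)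
    (D A : Finset V) : ((flt (edges G D) (· ∈ touch A)).card : ℝ) ≤ Δ * A.card := by
  refine le_trans ?_ (ec_le h A D)
  have h1 : flt (edges G D) (· ∈ touch A) ⊆
      A.biUnion (fun u => (flt D (G.Adj u)).image (fun v => s(u, v))) := by
    intro e he
    obtain ⟨h2, h3⟩ := mem_flt.1 he
    induction e using Sym2.ind with
    | h a b =>
      obtain ⟨h4, h5, h6⟩ := mk_mem_edges.1 h2
      rcases mk_mem_touch.1 h3 with h7 | h7
      · exact Finset.mem_biUnion.2 ⟨a, h7, Finset.mem_image.2 ⟨b, mem_flt.2 ⟨h6, h4⟩, rfl⟩⟩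
      · exact Finset.mem_biUnion.2
          ⟨b, h7, Finset.mem_image.2 ⟨a, mem_flt.2 ⟨h5, h4.symm⟩, Sym2.eq_swap⟩⟩
  have h2 := (Finset.card_le_card h1).trans Finset.card_biUnion_le
  have h3 : ((flt (edges G D) (· ∈ touch A)).card : ℝ) ≤
      ∑ u ∈ A, (((flt D (G.Adj u)).image (fun v => s(u, v))).card : ℝ) := by
    exact_mod_cast h2
  refine h3.trans (Finset.sum_le_sum fun u _ => ?_)
  rw [← card_flt]
  exact_mod_cast Finset.card_image_le

end ENT

open ENT

theorem st_ENT (h : St_ENT0) : St_ENT := by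
  intro ι _ E P Q hP hQ S hS
  have hP' : Prob P := fun e => ⟨(hP e).1.le, (hP e).2.le⟩
  have hQ' : Prob Q := fun e => ⟨(hQ e).1.le, (hQ e).2.le⟩
  have hH := entB_nonneg E hP hQ' S
  constructor
  · intro f hf hb
    have h1 := h ι E P Q hP hQ S hS f hf
    have h2 : PE E P (fun ω => Real.exp (-f ω)) ≤ PE E P (fun ω => 1 - f ω / 2) :=
      PE_mono hP' fun ω => exp_neg_le (hb ω).1 (hb ω).2
    rw [PE_sub, PE_const, PE_div] at h2
    have h3 := Real.add_one_le_exp (-(PE E Q f) - entB E P Q S)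
    linarith
  · intro A hA hq
    obtain ⟨H, hHd⟩ : ∃ H, H = entB E P Q S := ⟨_, rfl⟩
    rw [← hHd] at hH ⊢
    have hf : DetBy S (fun ω => (2 * H + 2) * (1 - ind (A ω))) := by
      intro ω ω' h2
      have := hA ω ω' h2
      simp only at this ⊢
      rw [this]
    have h1 := h ι E P Q hP hQ S hS _ hf
    rw [← hHd, PE_mul_left, PE_sub, PE_const] at h1
    have h2 : PE E P (fun ω => Real.exp (-((2 * H + 2) * (1 - ind (A ω))))) ≤
        PE E P (fun ω => ind (A ω) + Real.exp (-(2 * H + 2))) := by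
      refine PE_mono hP' fun ω => ?_
      by_cases h3 : A ω
      · rw [ind_pos h3]
        have := Real.exp_pos (-(2 * H + 2))
        simp only [sub_self, mul_zero, neg_zero, Real.exp_zero]
        linarith
      · rw [ind_neg h3]
        simp
    rw [PE_add, PE_const] at h2
    have h3 : Real.exp (-(2 * H + 2) + 1) ≤
        Real.exp (-((2 * H + 2) * (1 - PE E Q fun ω => ind (A ω))) - H) := by
      refine Real.exp_le_exp.2 ?_
      nlinarith
    have h4 : Real.exp (-2 * (H + 2)) ≤ Real.exp (-(2 * H + 2)) :=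
      Real.exp_le_exp.2 (by linarith)
    have h5 : 2 ≤ Real.exp 1 := by linarith [Real.add_one_le_exp 1]
    rw [Real.exp_add] at h3
    have h6 := Real.exp_pos (-(2 * H + 2))
    nlinarith

theorem st_E1 (h : St_ENT) : St_E1 := by
  intro V _ G Δ hG D x p q hp0 hp1 hq0 hq1 F hF
  have hS : IsStop (fun ω => flt (edges G D) (· ∈ touch (cl G D ω x))) := by
    intro ω ω' h2
    have : cl G D ω' x = cl G D ω x := cl_congr fun e h3 h4 => h2 e (mem_flt.2 ⟨h3, h4⟩)
    simp only [this]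
  have hf : DetBy (fun ω => flt (edges G D) (· ∈ touch (cl G D ω x)))
      (fun ω => F (cl G D ω x)) := by
    intro ω ω' h2
    have : cl G D ω' x = cl G D ω x := cl_congr fun e h3 h4 => h2 e (mem_flt.2 ⟨h3, h4⟩)
    simp only [this]
  have h1 := (h (Sym2 V) (edges G D) (fun _ => p) (fun _ => q) (fun _ => ⟨hp0, hp1⟩)
    (fun _ => ⟨hq0, hq1⟩) _ hS).1 _ hf fun ω => hF _
  have hq : Prob (fun _ : Sym2 V => q) := Prob.const hq0.le hq1.le
  have hc : 0 ≤ (p - q) ^ 2 / (p * (1 - p)) :=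
    div_nonneg (sq_nonneg _) (mul_nonneg hp0.le (by linarith))
  have h2 : entB (edges G D) (fun _ => p) (fun _ => q)
      (fun ω => flt (edges G D) (· ∈ touch (cl G D ω x))) ≤
      Δ * chi G (fun _ => q) D x * ((p - q) ^ 2 / (p * (1 - p))) := by
    unfold entB
    rw [← Finset.sum_mul, ← PE_sum]
    refine mul_le_mul_of_nonneg_right ?_ hc
    rw [← EC_card]
    unfold EC
    rw [← PE_mul_left]
    refine PE_mono hq fun ω => ?_
    refine le_trans (le_of_eq ?_) (card_touch hG D (cl G D ω x))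
    rw [card_flt]
    exact Finset.sum_congr rfl fun e he => ind_congr ⟨fun h3 => (mem_flt.1 h3).2,
      fun h3 => mem_flt.2 ⟨he, h3⟩⟩
  unfold EC
  linarith

end Pool.Agent.TPC
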