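import Pool.Agent.Lib.TPC.Path

/-! Entropy comparison along a stopping set. -/

open Finset

namespace Pool.Agent.TPC

namespace ENT0

variable {ι : Type} [DecidableEq ι]

lemma PE_coord_mul {E : Finset ι} {e : ι} (he : e ∈ E) (π : ι → ℝ) (a b : ℝ) {g : Finset ι → ℝ}
    (hg : DepOn g ({e} : Set ι)ᶜ) :
    PE E π (fun ω => (if e ∈ ω then a else b) * g ω) = (π e * a + (1 - π e) * b) * PE E π g := by
  rw [PE_mul_of_dep (U := {e}) (f := fun ω => if e ∈ ω then a else b) _ hg, PE_split he]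
  · simp only [Finset.mem_insert_self, Finset.notMem_erase, if_true, if_false, PE_const]
  · intro ω ω' h
    simp only [h e rfl]

omit [DecidableEq ι] in
lemma eq_of_notMem {S : Finset ι → Finset ι} (hS : IsStop S) {e : ι} {ω ω' : Finset ι}
    (h : ∀ x ∈ ({e} : Set ι)ᶜ, (x ∈ ω ↔ x ∈ ω')) (he : e ∉ S ω) : S ω' = S ω :=
  hS ω ω' fun x hx => h x fun h2 => he ((Set.mem_singleton_iff.1 h2) ▸ hx)

omit [DecidableEq ι] in
lemma mem_iff {S : Finset ι → Finset ι} (hS : IsStop S) {e : ι} {ω ω' : Finset ι}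
    (h : ∀ x ∈ ({e} : Set ι)ᶜ, (x ∈ ω ↔ x ∈ ω')) : e ∈ S ω ↔ e ∈ S ω' := by
  refine not_iff_not.1 ⟨fun h2 => by rwa [eq_of_notMem hS h h2], fun h2 => ?_⟩
  rwa [eq_of_notMem hS (fun x hx => (h x hx).symm) h2]

/-- likelihood ratio of one coordinate -/
noncomputable def lr (P Q : ι → ℝ) (e : ι) (ω : Finset ι) : ℝ :=
  if e ∈ ω then P e / Q e else (1 - P e) / (1 - Q e)

lemma change (E : Finset ι) (P : ι → ℝ) {Q : ι → ℝ} (hQ : ∀ e, 0 < Q e ∧ Q e < 1)
    {S : Finset ι → Finset ι} (hS : IsStop S) {Y : Finset ι → ℝ} (hY : DetBy S Y) :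
    PE E P Y = PE E Q (fun ω => Y ω * ∏ e ∈ E ∩ S ω, lr P Q e ω) := by
  have key : ∀ U : Finset ι, U ⊆ E → PE E Q (fun ω => Y ω * ∏ e ∈ E ∩ S ω ∪ U, lr P Q e ω) =
      PE E Q (fun ω => Y ω * ∏ e ∈ E ∩ S ω, lr P Q e ω) := by
    intro U
    induction U using Finset.induction_on with
    | empty => simp
    | insert f U hf ih =>
      intro hU
      have hfE : f ∈ E := hU (Finset.mem_insert_self _ _)
      rw [← ih ((Finset.subset_insert _ _).trans hU)]
      have : ∀ ω, Y ω * ∏ e ∈ E ∩ S ω ∪ insert f U, lr P Q e ω =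
          Y ω * ∏ e ∈ E ∩ S ω ∪ U, lr P Q e ω +
            (if f ∈ ω then P f / Q f - 1 else (1 - P f) / (1 - Q f) - 1) *
              (ind (f ∉ S ω) * (Y ω * ∏ e ∈ E ∩ S ω ∪ U, lr P Q e ω)) := by
        intro ω
        by_cases h : f ∈ S ω
        · rw [ind_neg (not_not.2 h), Finset.union_insert,
            Finset.insert_eq_of_mem (Finset.mem_union_left _ (Finset.mem_inter.2 ⟨hfE, h⟩))]
          ring
        · rw [ind_pos h, Finset.union_insert, Finset.prod_insert (by simp [h, hf])]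
          unfold lr
          split_ifs <;> ring
      simp only [this]
      rw [PE_add, PE_coord_mul hfE]
      · have h0 : Q f * (P f / Q f - 1) + (1 - Q f) * ((1 - P f) / (1 - Q f) - 1) = 0 := by
          have h1 : 1 - Q f ≠ 0 := by linarith [(hQ f).2]
          have h2 : Q f ≠ 0 := (hQ f).1.ne'
          field_simp
          ring
        rw [h0]; ring
      · intro ω ω' h
        beta_reduce
        by_cases h2 : f ∈ S ω
        · rw [ind_neg (not_not.2 h2), ind_neg (not_not.2 ((mem_iff hS h).1 h2))]; ring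
        · rw [eq_of_notMem hS h h2,
            hY ω ω' fun x hx => h x fun h3 => h2 ((Set.mem_singleton_iff.1 h3) ▸ hx)]
          congr 2
          refine Finset.prod_congr rfl fun e he => ?_
          have : e ≠ f := by
            rintro rfl
            rcases Finset.mem_union.1 he with h4 | h4
            · exact h2 (Finset.mem_inter.1 h4).2
            · exact hf h4
          unfold lr
          simp only [h e this]
  rw [← key E subset_rfl]
  unfold PE
  refine Finset.sum_congr rfl fun ω _ => ?_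
  have : wt E P ω = wt E Q ω * ∏ e ∈ E, lr P Q e ω := by
    unfold wt lr
    rw [← Finset.prod_mul_distrib]
    refine Finset.prod_congr rfl fun e _ => ?_
    have h1 : 1 - Q e ≠ 0 := by linarith [(hQ e).2]
    have h2 : Q e ≠ 0 := (hQ e).1.ne'
    split_ifs <;> field_simp
  beta_reduce
  rw [this, Finset.union_eq_right.2 Finset.inter_subset_left]
  ring

lemma exp_le_div {a b : ℝ} (ha : 0 < a) (hb : 0 < b) : Real.exp (1 - b / a) ≤ a / b := by
  rw [← Real.le_log_iff_exp_le (div_pos ha hb), ← inv_div a b]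
  exact Real.one_sub_inv_le_log_of_pos (div_pos ha hb)

end ENT0

open ENT0 in
theorem st_ENT0 : St_ENT0 := by
  intro ι _ E P Q hP hQ S hS f hf
  have hQ' : Prob Q := fun e => ⟨(hQ e).1.le, (hQ e).2.le⟩
  rw [change E P hQ hS (Y := fun ω => Real.exp (-f ω)) fun ω ω' h => by simp only [hf ω ω' h]]
  let l : ι → Finset ι → ℝ := fun e ω =>
    if e ∈ ω then 1 - Q e / P e else 1 - (1 - Q e) / (1 - P e)
  have h1 : PE E Q (fun ω => (∑ e ∈ E, l e ω * ind (e ∈ S ω)) - f ω) =
      -(PE E Q f) - entB E P Q S := by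
    rw [PE_sub, PE_sum, entB, sub_eq_neg_add, sub_eq_add_neg, ← Finset.sum_neg_distrib]
    congr 1
    refine Finset.sum_congr rfl fun e he => ?_
    rw [PE_coord_mul he Q _ _ fun ω ω' h => ind_congr (mem_iff hS h)]
    have h1 : 1 - P e ≠ 0 := by linarith [(hP e).2]
    have h2 : P e ≠ 0 := (hP e).1.ne'
    field_simp
    ring
  rw [← h1]
  refine (exp_PE_le hQ' _).trans (PE_mono hQ' fun ω => ?_)
  have h2 : ∑ e ∈ E, l e ω * ind (e ∈ S ω) = ∑ e ∈ E ∩ S ω, l e ω := by
    rw [← Finset.filter_mem_eq_inter, Finset.sum_filter]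
    refine Finset.sum_congr rfl fun e _ => ?_
    rw [ind_eq_ite]
    split_ifs <;> simp
  rw [h2, sub_eq_neg_add, Real.exp_add, Real.exp_sum]
  refine mul_le_mul_of_nonneg_left (Finset.prod_le_prod (fun _ _ => (Real.exp_pos _).le)
    fun e _ => ?_) (Real.exp_pos _).le
  simp only [l, lr]
  split_ifs
  · exact exp_le_div (hP e).1 (hQ e).1
  · exact exp_le_div (by linarith [(hP e).2]) (by linarith [(hQ e).2])

end Pool.Agent.TPC
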