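import Pool.Agent.Lib.TPC.BlueC

/-! Size and number of roots of the multi-root exploration. -/

open Finset

set_option linter.unusedSectionVars false

namespace Pool.Agent.TPC

namespace ES

lemma chern {ι : Type} [DecidableEq ι] {E : Finset ι} {π : ι → ℝ} (hπ : Prob π)
    {Y : Finset ι → ℝ} (hY : PE E π (fun ω => Real.exp (Y ω)) ≤ 1) {A : Finset ι → Prop} {a : ℝ}
    (h : ∀ ω, A ω → a ≤ Y ω) : PE E π (fun ω => ind (A ω)) ≤ Real.exp (-a) := by
  have h1 : PE E π (fun ω => ind (A ω)) ≤ PE E π (fun ω => Real.exp (-a) * Real.exp (Y ω)) := by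
    refine PE_mono hπ fun ω => ind_le_of (by positivity) fun h2 => ?_
    rw [← Real.exp_add]
    exact Real.one_le_exp (by linarith [h ω h2])
  rw [PE_mul_left] at h1
  exact h1.trans (mul_le_of_le_one_right (Real.exp_pos _).le hY)

lemma one_add_mul {x : ℝ} : (1 + x) * Real.exp (-x) ≤ 1 := by
  have h := mul_le_mul_of_nonneg_right (Real.add_one_le_exp x) (Real.exp_pos (-x)).le
  rw [← Real.exp_add, add_neg_cancel, Real.exp_zero] at h
  linarith

lemma exp_neg_le {y : ℝ} (hy : 0 ≤ y) : Real.exp (-y) ≤ 1 - y + y ^ 2 := by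
  have h1 := one_add_mul (x := y)
  have h2 : 1 ≤ (1 + y) * (1 - y + y ^ 2) := by nlinarith [pow_nonneg hy 3]
  exact le_of_mul_le_mul_left (h1.trans h2) (by linarith)

variable {V : Type} [Fintype V] [DecidableEq V]

lemma prod_one (q : Fin 5 → ℝ) (e : Sym2 V) : ∏ b ∈ lbits 1 e, (1 - q b.2) = 1 - q 1 := by
  rw [prod_lbits, show Finset.Ioc (0 : Fin 5) 1 = {1} by decide, prod_singleton]

lemma card_cap (C Q : Finset V) : ((C ∩ Q).card : ℝ) = ∑ y ∈ C, ind (y ∈ Q) := by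
  rw [← card_flt]
  congr 2
  ext y; simp

lemma EC_inter (G : SimpleGraph V) (π : Sym2 V → ℝ) (D Q : Finset V) (z : V) :
    EC G π D z (fun C => ((C ∩ Q).card : ℝ)) = ∑ y ∈ Q, tau G π D z y := by
  simp only [inter_comm _ Q, card_cap, tau_eq_EC, EC]
  rw [PE_sum]

variable {K : Kc}

/-- a root with a large mean exists off a small set -/
lemma root (h1 : St_PL1) (M : Core K V) {U Q : Finset V} (hL : M.LB U Q)
    (hQ : K.c * M.Vol ≤ Q.card) (W : Finset V) : ∃ z,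
    (W.card : ℝ) ≤ K.c ^ 3 / (2 * K.C ^ 2) * M.U →
      K.c ^ 2 * M.l ^ 2 / 2 ≤ ∑ y ∈ Q, M.tb (U \ W) z y := by
  by_contra hn
  simp only [not_exists, Classical.not_imp, not_le] at hn
  have hc := K.hc
  have hC := K.hC
  have hV := M.Vol_pos
  have hl := M.l_pos
  have hQ0 : (0 : ℝ) < Q.card := lt_of_lt_of_le (by positivity) hQ
  obtain ⟨z₀, hz₀⟩ : Q.Nonempty := card_pos.1 (by exact_mod_cast hQ0)
  have hW := (hn z₀).1
  have a1 : ∑ z ∈ Q, ∑ y ∈ Q, M.tb (U \ W) z y < Q.card * (K.c ^ 2 * M.l ^ 2 / 2) := by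
    rw [← nsmul_eq_mul, ← sum_const]
    exact sum_lt_sum_of_nonempty ⟨z₀, hz₀⟩ fun z _ => (hn z).2
  have a2 : ∀ u, ∑ y ∈ Q, M.tb U u y ≤ K.C * M.l ^ 2 := fun u =>
    (sum_le_sum_of_subset_of_nonneg hL.1 fun _ _ _ => M.tb_nonneg _ _ _).trans (M.chi_le' U u)
  have a3 : ∑ z ∈ Q, ∑ y ∈ Q, ∑ u ∈ W, M.tb U z u * M.tb U u y ≤
      W.card * (K.C * M.l ^ 2) ^ 2 := by
    have e : ∑ z ∈ Q, ∑ y ∈ Q, ∑ u ∈ W, M.tb U z u * M.tb U u y =
        ∑ u ∈ W, (∑ z ∈ Q, M.tb U u z) * ∑ y ∈ Q, M.tb U u y := by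
      simp only [sum_mul_sum]
      rw [sum_comm (s := W)]
      refine sum_congr rfl fun z _ => ?_
      rw [sum_comm (s := W)]
      refine sum_congr rfl fun y _ => sum_congr rfl fun u _ => ?_
      unfold Core.tb
      rw [tau_comm (x := z)]
    rw [e, ← nsmul_eq_mul]
    refine sum_le_card_nsmul _ _ _ fun u _ => ?_
    rw [sq (K.C * _)]
    exact mul_le_mul (a2 u) (a2 u) (sum_nonneg fun _ _ => M.tb_nonneg _ _ _) (by positivity)
  have a4 : (Q.card : ℝ) * (Q.card * (K.c * M.f0)) ≤ ∑ z ∈ Q, ∑ y ∈ Q, M.tb (U \ W) z y +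
      ∑ z ∈ Q, ∑ y ∈ Q, ∑ u ∈ W, M.tb U z u * M.tb U u y := by
    rw [← sum_add_distrib, ← nsmul_eq_mul]
    refine card_nsmul_le_sum _ _ _ fun z hz => ?_
    rw [← sum_add_distrib, ← nsmul_eq_mul]
    exact card_nsmul_le_sum _ _ _ fun y hy =>
      (hL.2 z hz y hy).trans (h1 V M.G _ M.prob U W z y)
  have a5 : K.c ^ 2 * M.l ^ 2 ≤ Q.card * (K.c * M.f0) := by
    have := mul_le_mul_of_nonneg_right hQ (mul_pos hc M.f0_pos).le
    rw [← M.f0_mul_Vol]
    linarith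
  have a6 : W.card * (K.C * M.l ^ 2) ^ 2 ≤ Q.card * (K.c ^ 2 * M.l ^ 2 / 2) := by
    calc W.card * (K.C * M.l ^ 2) ^ 2
        ≤ K.c ^ 3 / (2 * K.C ^ 2) * M.U * (K.C * M.l ^ 2) ^ 2 := by gcongr
      _ = K.c * M.Vol * (K.c ^ 2 * M.l ^ 2 / 2) := by rw [M.Vol_eq]; field_simp
      _ ≤ _ := by gcongr
  have a7 := mul_le_mul_of_nonneg_left a5 hQ0.le
  linarith

end ES

open ES in
theorem st_ES (hD : St_ED) (hK : St_KER) : St_ES := by
  intro K κ T δ hκ hT hδ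
  obtain ⟨Λ, hΛ, hK⟩ := hK K
  have hΛ0 : 0 < Λ := by linarith [K.hC]
  have hS : 0 < T + 2 * κ * K.Δ := by positivity
  refine ⟨δ / (8 * Λ * (T + 2 * κ * K.Δ)), δ / (4 * Λ ^ 2), 8 * Λ / δ, by positivity,
    by positivity, ?_⟩
  intro β hβ hβ0 V _ _ M q hq hl U Q hQ rt
  have hl0 := M.l_pos
  have hN := M.N1
  have hU := M.U_pos
  obtain ⟨t, ht⟩ : ∃ t : ℝ, t = 1 / (2 * Λ ^ 2 * M.l ^ 4) := ⟨_, rfl⟩
  obtain ⟨ρ, hρ⟩ : ∃ ρ : ℝ, ρ = 1 / (Λ * M.l ^ 2) := ⟨_, rfl⟩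
  have ρ0 : 0 < ρ := by rw [hρ]; positivity
  have t0 : 0 < t := by rw [ht]; positivity
  have hE : ∀ (D : Finset V) (z : V) (x : ℝ), EC M.G (fun _ => q 0) D z
      (fun C => Real.exp (t * C.card + x)) ≤ (1 + ρ) * Real.exp x := by
    intro D z x
    have := (hK V M).1 D z t t0.le (le_of_eq (by rw [ht]; field_simp))
    have e : 2 * t * Λ * M.l ^ 2 = ρ := by rw [ht, hρ]; field_simp
    rw [e] at this
    simp only [Real.exp_add, EC, hq.1]
    rw [PE_mul_right]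
    exact mul_le_mul_of_nonneg_right this (Real.exp_pos _).le
  have hq1 := hq.2.1 1
  have key := Proc.super_exp (eproc_ok M.G U Q (β * M.U) (δ * M.U) (T * β * M.N * M.l ^ 2) rt)
    hq.prob (fun _ => True)
    (fun a _ => t * a.piece.card + (-ρ * ind (a.tok = none) + -(q 1 * ρ) * ind (a.tok ≠ none)))
    (fun _ _ => trivial) (fun s z _ _ => by
      have e1 : ind True = 1 := ind_pos trivial
      have e2 : ind ((none : Option (Sym2 V)) ≠ none) = 0 := ind_neg (by simp)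
      have a := (hE (U \ Wof s) z (-ρ)).trans one_add_mul
      change EC M.G (fun _ => q 0) (U \ Wof s) z _ ≤ 1
      simpa only [e1, e2, mul_zero, mul_one, add_zero] using a) (fun s e z _ _ => by
      have a := mul_le_mul_of_nonneg_left (hE (U \ Wof s) z (-(q 1 * ρ))) hq1.1
      have b := one_add_mul (x := q 1 * ρ)
      have e1 : ind ((some e : Option (Sym2 V)) = none) = 0 := ind_neg (by simp)
      have e2 : ind ((some e : Option (Sym2 V)) ≠ none) = 1 := ind_pos (by simp)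
      change (1 - ∏ b ∈ lbits 1 e, (1 - q b.2)) * EC M.G (fun _ => q 0) (U \ Wof s) z _ +
        (∏ b ∈ lbits 1 e, (1 - q b.2)) * _ ≤ 1
      simp only [prod_one, e1, e2, mul_zero, mul_one, zero_add, card_empty, Nat.cast_zero,
        sub_sub_cancel]
      linarith) (Fintype.card (Sym2 V) + ⌈T * β * M.N * M.l ^ 2⌉₊ + 1)
  refine chern hq.prob key fun ω h => ?_
  obtain ⟨h1, h2, -⟩ := hD V M.G K.Δ M.deg U Q hQ (β * M.U) (δ * M.U) (T * β * M.N * M.l ^ 2) rt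
    (by positivity) (by positivity) ω
  have h3 := ((eproc M.G U Q (β * M.U) (δ * M.U) (T * β * M.N * M.l ^ 2) rt).disj_run ω
    (Fintype.card (Sym2 V) + ⌈T * β * M.N * M.l ^ 2⌉₊ + 1)).1.sum_Wof fun _ => 1
  simp only [sum_const, nsmul_eq_mul, mul_one] at h3
  rw [sumF_add, sumF_add, sumF_mul, sumF_mul, sumF_mul, ← h3]
  change δ / (4 * Λ ^ 2) * M.N ≤ t * (Wof (es M.G U Q _ _ _ rt ω)).card +
    (-ρ * nroot (es M.G U Q _ _ _ rt ω) + -(q 1 * ρ) * ntok (es M.G U Q _ _ _ rt ω))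
  have a1 := mul_le_mul_of_nonneg_left h t0.le
  have a2 := mul_le_mul_of_nonneg_left h2 ρ0.le
  have a3 := mul_le_mul_of_nonneg_left h1 (mul_nonneg hq1.1 ρ0.le)
  have a4 : q 1 * ρ * (K.Δ * (2 * (β * M.U))) ≤ κ / M.l ^ 2 * ρ * (K.Δ * (2 * (β * M.U))) := by
    gcongr
    exact hq.2.2 1 (by decide) le_rfl
  have e1 : t * (δ * M.U) = 4 * (δ / (8 * Λ ^ 2) * M.N) := by
    rw [ht, Core.U]; field_simp; ring
  have e2 : ρ * (T * β * M.N * M.l ^ 2 + 1) + κ / M.l ^ 2 * ρ * (K.Δ * (2 * (β * M.U))) =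
      β * ((T + 2 * κ * K.Δ) / Λ * M.N) + ρ := by
    rw [hρ, Core.U]; field_simp; ring
  have a5 : β * ((T + 2 * κ * K.Δ) / Λ * M.N) ≤ δ / (8 * Λ ^ 2) * M.N := by
    refine (mul_le_mul_of_nonneg_right hβ0 (by positivity)).trans (le_of_eq ?_)
    field_simp
  have a6 : ρ ≤ δ / (8 * Λ ^ 2) * M.N := by
    refine le_trans ?_ (le_mul_of_one_le_right (by positivity) hN)
    rw [div_le_iff₀ hδ] at hl
    have b1 : M.l ≤ M.l ^ 2 := by nlinarith [M.l1]
    have b2 := mul_le_mul_of_nonneg_right b1 hδ.le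
    rw [hρ, div_le_div_iff₀ (by positivity) (by positivity)]
    nlinarith
  have e3 : δ / (4 * Λ ^ 2) * M.N = 2 * (δ / (8 * Λ ^ 2) * M.N) := by field_simp; ring
  linarith

open ES in
theorem st_ER (hK : St_KER) (h1 : St_PL1) : St_ER := by
  intro K
  obtain ⟨Λ, hΛ, hK⟩ := hK K
  have hc := K.hc
  have hC := K.hC
  have hΛ0 : 0 < Λ := by linarith
  refine ⟨12 / K.c ^ 2, K.c ^ 3 / (2 * K.C ^ 2), K.c ^ 2 / (4 * Λ), by positivity, by positivity,
    by positivity, ?_⟩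
  intro V _ _ M U Q _ hL hQ
  choose rt hrt using root h1 M hL hQ
  refine ⟨rt, fun q hq0 hq β δ hβ hδ => ?_⟩
  have hl0 := M.l_pos
  have hU := M.U_pos
  have hπ := prob_lev (V := V) hq
  obtain ⟨t, ht⟩ : ∃ t : ℝ, t = K.c ^ 2 / (4 * Λ) / M.l ^ 4 := ⟨_, rfl⟩
  have t0 : 0 < t := by rw [ht]; positivity
  obtain ⟨x, hx⟩ : ∃ x : ℝ, x = t * (K.c ^ 2 * M.l ^ 2 / 4) := ⟨_, rfl⟩
  have x0 : 0 < x := by rw [hx]; positivity
  have key := Proc.super_exp
    (eproc_ok M.G U Q (β * M.U) (δ * M.U) (12 / K.c ^ 2 * β * M.N * M.l ^ 2) rt) hπ (fun _ => True)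
    (fun a _ => -t * ((a.piece ∩ Q).card : ℝ) + x * ind (a.tok = none))
    (fun _ _ => trivial) (fun s z _ hn => by
      have a : z = rt (Wof s) ∧ ((Wof s).card : ℝ) < δ * M.U := by
        rcases eproc_next (G := M.G) (U := U) (Q := Q) (k := β * M.U) (k' := δ * M.U)
          (r := 12 / K.c ^ 2 * β * M.N * M.l ^ 2) (rt := rt) s with
          ⟨-, h⟩ | ⟨-, h2, ⟨b, z', -, h⟩ | ⟨-, ⟨-, -, h⟩ | ⟨-, h⟩⟩⟩ <;> rw [hn] at h
        · simp at h
        · simp at h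
        · exact ⟨by simpa using h, h2⟩
        · simp at h
      have b := hrt (Wof s) (a.2.le.trans (mul_le_mul_of_nonneg_right hδ hU.le))
      rw [← a.1] at b
      have c1 := ((hK V M).2.1 (U \ Wof s) z).1
      have c2 : EC M.G (fun _ => M.p) (U \ Wof s) z
          (fun C => Real.exp (-t * ((C ∩ Q).card : ℝ))) ≤ EC M.G (fun _ => M.p) (U \ Wof s) z
          (fun C => 1 - t * ((C ∩ Q).card : ℝ) + t ^ 2 * (C.card : ℝ) ^ 2) := by
        refine EC_mono M.prob fun C _ => ?_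
        rw [neg_mul]
        refine (exp_neg_le (by positivity)).trans ?_
        rw [mul_pow]
        gcongr
        exact inter_subset_left
      have c3 := EC_inter M.G (fun _ => M.p) (U \ Wof s) Q z
      unfold Core.EB at c1
      unfold Core.tb at b
      unfold EC at c1 c2 c3
      rw [PE_add, PE_sub, PE_const, PE_mul_left, PE_mul_left, c3] at c2
      have c4 := mul_le_mul_of_nonneg_left b t0.le
      have c5 := mul_le_mul_of_nonneg_left c1 (sq_nonneg t)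
      have c6 : t ^ 2 * (Λ * M.l ^ 6) = x := by rw [hx, ht]; field_simp
      have c7 := one_add_mul (x := -x)
      change EC M.G (fun _ => q 0) (U \ Wof s) z _ ≤ 1
      simp only [Real.exp_add, EC, hq0, ind_pos, mul_one]
      rw [PE_mul_right]
      rw [neg_neg] at c7
      refine le_trans (mul_le_mul_of_nonneg_right (c2.trans ?_) (Real.exp_pos _).le) c7
      linarith) (fun s e z _ _ => by
      have e1 : ind ((some e : Option (Sym2 V)) = none) = 0 := ind_neg (by simp)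
      have a : EC M.G (fun _ => q 0) (U \ Wof s) z
          (fun C => Real.exp (-t * ((C ∩ Q).card : ℝ))) ≤ 1 :=
        PE_le_const (Prob.const (hq 0).1 (hq 0).2) fun ω =>
          Real.exp_le_one_iff.2 (by rw [neg_mul]; exact neg_nonpos.2 (by positivity))
      have b := mul_le_mul_of_nonneg_left a (hq 1).1
      change (1 - ∏ b ∈ lbits 1 e, (1 - q b.2)) * EC M.G (fun _ => q 0) (U \ Wof s) z _ +
        (∏ b ∈ lbits 1 e, (1 - q b.2)) * _ ≤ 1
      simp only [prod_one, e1, mul_zero, add_zero, empty_inter, card_empty, Nat.cast_zero,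
        sub_sub_cancel, Real.exp_zero]
      linarith) (Fintype.card (Sym2 V) + ⌈12 / K.c ^ 2 * β * M.N * M.l ^ 2⌉₊ + 1)
  refine chern hπ key fun ω h => ?_
  have h3 := ((eproc M.G U Q (β * M.U) (δ * M.U) (12 / K.c ^ 2 * β * M.N * M.l ^ 2) rt).disj_run ω
    (Fintype.card (Sym2 V) + ⌈12 / K.c ^ 2 * β * M.N * M.l ^ 2⌉₊ + 1)).1.sum_Wof
      fun y => ind (y ∈ Q)
  simp only [← card_cap] at h3
  rw [sumF_add, sumF_mul, sumF_mul, ← h3]
  change K.c ^ 2 / (4 * Λ) * β * M.N ≤ -t * ((Wof (es M.G U Q _ _ _ rt ω) ∩ Q).card : ℝ) +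
    x * nroot (es M.G U Q _ _ _ rt ω)
  have a1 := mul_le_mul_of_nonneg_left h.1 x0.le
  have a2 := mul_le_mul_of_nonneg_left h.2.le t0.le
  have e1 : x * (12 / K.c ^ 2 * β * M.N * M.l ^ 2) = 3 * (K.c ^ 2 / (4 * Λ) * β * M.N) := by
    rw [hx, ht]; field_simp; ring
  have e2 : t * (2 * (β * M.U)) = 2 * (K.c ^ 2 / (4 * Λ) * β * M.N) := by
    rw [ht, Core.U]; field_simp
  linarith

end Pool.Agent.TPC
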