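import Pool.Agent.Lib.TPC.Path

/-! The exponential tree-graph bound. -/

open Finset

set_option linter.unusedSectionVars false

namespace Pool.Agent.TPC

namespace ET

variable {V : Type} [DecidableEq V] {G : SimpleGraph V} {D : Finset V} {π : Sym2 V → ℝ}

lemma ind_forall {κ : Type} (t : Finset κ) (P : κ → Prop) :
    ind (∀ i ∈ t, P i) = ∏ i ∈ t, ind (P i) := by
  classical
  induction t using Finset.induction_on with
  | empty => simp [ind]
  | insert a t ha ih =>
    rw [Finset.prod_insert ha, ← ih, ← ind_and]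
    exact ind_congr (by simp)

/-- moments of the additive functional of the cluster -/
noncomputable def mom (G : SimpleGraph V) (π : Sym2 V → ℝ) (D : Finset V) (w : V → ℝ) (n : ℕ)
    (v : V) : ℝ := EC G π D v fun C => (∑ y ∈ C, w y) ^ n

/-- probability of a multi-point connection -/
noncomputable def pc (G : SimpleGraph V) (π : Sym2 V → ℝ) (D : Finset V) {n : ℕ}
    (t : Finset (Fin n)) (v : V) (y : Fin n → V) : ℝ :=
  PE (edges G D) π fun ω => ind (∀ i ∈ t, conn G D ω v (y i))

lemma mom_nonneg (hπ : Prob π) {w : V → ℝ} (hw : ∀ v, 0 ≤ w v) (n : ℕ) (v : V) :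
    0 ≤ mom G π D w n v :=
  PE_nonneg hπ fun _ => pow_nonneg (Finset.sum_nonneg fun y _ => hw y) n

lemma split_sum (w : V → ℝ) {n : ℕ} (t : Finset (Fin n)) (a b : V → ℝ) :
    ∑ y ∈ Fintype.piFinset (fun _ : Fin n => D),
      (∏ i, w (y i)) * ((∏ i ∈ t, a (y i)) * ∏ i ∈ univ \ t, b (y i)) =
      (∑ u ∈ D, a u * w u) ^ t.card * (∑ u ∈ D, b u * w u) ^ (n - t.card) := by
  have h1 : ∀ y : Fin n → V,
      (∏ i, w (y i)) * ((∏ i ∈ t, a (y i)) * ∏ i ∈ univ \ t, b (y i)) =
        ∏ i, (if i ∈ t then a (y i) * w (y i) else b (y i) * w (y i)) := by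
    intro y
    rw [Finset.prod_ite, Finset.prod_mul_distrib, Finset.prod_mul_distrib,
      ← Finset.prod_filter_mul_prod_filter_not univ (· ∈ t)]
    have e1 : univ.filter (· ∈ t) = t := by ext i; simp
    have e2 : univ.filter (fun i => ¬ i ∈ t) = univ \ t := by ext i; simp
    rw [e1, e2]; ring
  simp only [h1]
  rw [← Finset.prod_univ_sum (fun _ : Fin n => D)
    (fun i u => if i ∈ t then a u * w u else b u * w u)]
  have h2 : ∀ i : Fin n, ∑ u ∈ D, (if i ∈ t then a u * w u else b u * w u) =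
      if i ∈ t then ∑ u ∈ D, a u * w u else ∑ u ∈ D, b u * w u := by
    intro i; split_ifs <;> rfl
  simp only [h2]
  rw [Finset.prod_ite, Finset.prod_const, Finset.prod_const]
  have e1 : univ.filter (· ∈ t) = t := by ext i; simp
  have e2 : univ.filter (fun i => ¬ i ∈ t) = univ \ t := by ext i; simp
  rw [e1, e2, Finset.card_univ_sdiff, Fintype.card_fin]

lemma sum_pc_mul (w : V → ℝ) {n : ℕ} (t : Finset (Fin n)) (v : V) :
    ∑ y ∈ Fintype.piFinset (fun _ : Fin n => D),
      (∏ i, w (y i)) * (pc G π D t v y * pc G π D (univ \ t) v y) =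
      mom G π D w t.card v * mom G π D w (n - t.card) v := by
  have h1 : ∀ y : Fin n → V, (∏ i, w (y i)) * (pc G π D t v y * pc G π D (univ \ t) v y) =
      PE (edges G D) π fun ω => PE (edges G D) π fun ω' => (∏ i, w (y i)) *
        ((∏ i ∈ t, ind (conn G D ω v (y i))) * ∏ i ∈ univ \ t, ind (conn G D ω' v (y i))) := by
    intro y
    simp only [PE_mul_left, PE_mul_right, pc, ind_forall]
  simp only [h1]
  rw [← PE_sum]
  unfold mom EC
  rw [← PE_mul_right]
  refine PE_congr fun ω _ => ?_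
  rw [← PE_sum, ← PE_mul_left]
  refine PE_congr fun ω' _ => ?_
  rw [split_sum w t (fun u => ind (conn G D ω v u)) (fun u => ind (conn G D ω' v u))]
  simp only [sum_cl]

lemma mom_eq (w : V → ℝ) (n : ℕ) (v : V) :
    mom G π D w n v = ∑ y ∈ Fintype.piFinset (fun _ : Fin n => D),
      (∏ i, w (y i)) * pc G π D univ v y := by
  have h := sum_pc_mul (G := G) (π := π) (D := D) w (univ : Finset (Fin n)) v
  have h0 : mom G π D w 0 v = 1 := by simp [mom, EC, PE_const]
  have h1 : ∀ y : Fin n → V, pc G π D (univ \ univ) v y = 1 := by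
    intro y
    simp [pc, ind, PE_const]
  simp only [h1, mul_one, Finset.card_univ, Fintype.card_fin, Nat.sub_self, h0] at h
  exact h.symm

lemma pc_tree (hT : St_TREE) (hBK : St_BK) (hπ : Prob π) {n : ℕ} (hn : 2 ≤ n) (z : V)
    (y : Fin n → V) :
    2 * pc G π D univ z y ≤ ∑ v ∈ D, ∑ t ∈ (univ : Finset (Fin n)).powerset,
      ind (t.Nonempty ∧ t ≠ univ) *
        (tau G π D z v * (pc G π D t v y * pc G π D (univ \ t) v y)) := by
  let B : V → Finset (Fin n) → Finset (Sym2 V) → Prop := fun v t ω =>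
    ∃ S T R : Finset (Sym2 V), S ⊆ ω ∧ T ⊆ ω ∧ R ⊆ ω ∧ Disjoint S T ∧
      Disjoint S R ∧ Disjoint T R ∧ conn G D S z v ∧ (∀ i ∈ t, conn G D T v (y i)) ∧
        ∀ i ∈ univ \ t, conn G D R v (y i)
  have h1 : ∀ ω, 2 * ind (∀ i ∈ (univ : Finset (Fin n)), conn G D ω z (y i)) ≤
      ∑ v ∈ D, ∑ t ∈ (univ : Finset (Fin n)).powerset,
        ind (t.Nonempty ∧ t ≠ univ) * ind (B v t ω) := by
    intro ω
    have hnn : ∀ v t, 0 ≤ ind (t.Nonempty ∧ t ≠ (univ : Finset (Fin n))) * ind (B v t ω) :=
      fun v t => mul_nonneg (ind_nonneg _) (ind_nonneg _)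
    rw [mul_comm]
    refine ind_mul_le (Finset.sum_nonneg fun v _ => Finset.sum_nonneg fun t _ => hnn v t) ?_
    intro hc
    obtain ⟨v, hv, t, -, ht, hts, W0, W1, W2, a0, a1, a2, d1, d2, d3, c0, c1, c2⟩ :=
      hT V G D ω z (Fin n) univ y (by simpa using hn) hc
    refine le_trans ?_ (Finset.single_le_sum (f := fun v => ∑ t ∈ (univ : Finset (Fin n)).powerset,
        ind (t.Nonempty ∧ t ≠ univ) * ind (B v t ω))
        (fun v _ => Finset.sum_nonneg fun t _ => hnn v t) hv)
    have hne : t ≠ univ \ t := by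
      obtain ⟨i, hi⟩ := ht
      intro h
      have : i ∈ univ \ t := h ▸ hi
      exact (Finset.mem_sdiff.1 this).2 hi
    have hsub : ({t, univ \ t} : Finset (Finset (Fin n))) ⊆ (univ : Finset (Fin n)).powerset := by
      intro u _; simp
    refine le_trans ?_ (Finset.sum_le_sum_of_subset_of_nonneg hsub fun t _ _ => hnn v t)
    rw [Finset.sum_pair hne]
    have e1 : ind (B v t ω) = 1 := ind_pos ⟨W0, W1, W2, a0, a1, a2, d1, d2, d3, c0, c1, c2⟩
    have e2 : ind (B v (univ \ t) ω) = 1 := by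
      refine ind_pos ⟨W0, W2, W1, a0, a2, a1, d2, d1, d3.symm, c0, c2, fun i hi => c1 i ?_⟩
      simpa using hi
    have e3 : ind ((univ \ t).Nonempty ∧ univ \ t ≠ (univ : Finset (Fin n))) = 1 := by
      refine ind_pos ⟨?_, ?_⟩
      · rw [Finset.sdiff_nonempty]
        exact fun h => hts (Finset.univ_subset_iff.1 h)
      · obtain ⟨i, hi⟩ := ht
        intro h
        have : i ∈ univ \ t := h.symm ▸ Finset.mem_univ i
        exact (Finset.mem_sdiff.1 this).2 hi
    rw [e1, e2, e3, ind_pos ⟨ht, hts⟩]; norm_num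
  unfold pc
  rw [← PE_mul_left]
  refine (PE_mono hπ h1).trans ?_
  rw [PE_sum]
  refine Finset.sum_le_sum fun v _ => ?_
  rw [PE_sum]
  refine Finset.sum_le_sum fun t _ => ?_
  rw [PE_mul_left]
  refine mul_le_mul_of_nonneg_left ?_ (ind_nonneg _)
  have := bk3 hBK (edges G D) hπ (A := fun S => conn G D S z v)
    (B := fun T => ∀ i ∈ t, conn G D T v (y i)) (C := fun R => ∀ i ∈ univ \ t, conn G D R v (y i))
    (conn_monotone G D z v) (fun _ _ h h2 i hi => (h2 i hi).mono subset_rfl h)
    (fun _ _ h h2 i hi => (h2 i hi).mono subset_rfl h)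
  rw [← mul_assoc]
  exact this

/-- normalised moments with the constant term removed -/
noncomputable def am (G : SimpleGraph V) (π : Sym2 V → ℝ) (D : Finset V) (w : V → ℝ) (n : ℕ)
    (v : V) : ℝ := if n = 0 then 0 else mom G π D w n v / n.factorial

lemma am_nonneg (hπ : Prob π) {w : V → ℝ} (hw : ∀ v, 0 ≤ w v) (n : ℕ) (v : V) :
    0 ≤ am G π D w n v := by
  unfold am
  split_ifs
  · exact le_rfl
  · exact div_nonneg (mom_nonneg hπ hw n v) (Nat.cast_nonneg _)

lemma sum_subsets (w : V → ℝ) (n : ℕ) (v : V) :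
    ∑ t ∈ (univ : Finset (Fin n)).powerset, ind (t.Nonempty ∧ t ≠ univ) *
      (mom G π D w t.card v * mom G π D w (n - t.card) v) =
      n.factorial * ∑ k ∈ range (n + 1), am G π D w k v * am G π D w (n - k) v := by
  have h1 : ∀ t : Finset (Fin n), ind (t.Nonempty ∧ t ≠ univ) *
      (mom G π D w t.card v * mom G π D w (n - t.card) v) =
      (fun k : ℕ => ((k.factorial : ℝ) * (n - k).factorial) *
        (am G π D w k v * am G π D w (n - k) v)) t.card := by
    intro t
    have hle : t.card ≤ n := by simpa using Finset.card_le_univ t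
    by_cases h : t.Nonempty ∧ t ≠ univ
    · have a1 : t.card ≠ 0 := h.1.card_pos.ne'
      have a2 : n - t.card ≠ 0 := by
        intro h0
        refine h.2 (Finset.eq_univ_of_card t ?_)
        rw [Fintype.card_fin]; omega
      have f1 : (t.card.factorial : ℝ) ≠ 0 := by positivity
      have f2 : ((n - t.card).factorial : ℝ) ≠ 0 := by positivity
      simp only [ind_pos h, am, if_neg a1, if_neg a2]
      field_simp
    · rw [ind_neg h, zero_mul]
      rw [not_and_or, Finset.not_nonempty_iff_eq_empty, not_not] at h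
      rcases h with rfl | rfl <;> simp [am]
  simp only [h1]
  rw [Finset.sum_powerset_apply_card (fun k : ℕ => ((k.factorial : ℝ) * (n - k).factorial) *
        (am G π D w k v * am G π D w (n - k) v)), Finset.card_univ, Fintype.card_fin,
    Finset.mul_sum]
  refine Finset.sum_congr rfl fun k hk => ?_
  have hk' : k ≤ n := Nat.lt_succ_iff.1 (Finset.mem_range.1 hk)
  have := Nat.choose_mul_factorial_mul_factorial hk'
  rw [nsmul_eq_mul, ← this]
  push_cast; ring

lemma am_rec (hT : St_TREE) (hBK : St_BK) (hπ : Prob π) {w : V → ℝ} (hw : ∀ v, 0 ≤ w v)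
    {n : ℕ} (hn : 2 ≤ n) (z : V) :
    am G π D w n z ≤ ∑ v ∈ D, tau G π D z v *
      ((∑ k ∈ range (n + 1), am G π D w k v * am G π D w (n - k) v) / 2) := by
  have h1 : 2 * mom G π D w n z ≤ ∑ v ∈ D, tau G π D z v *
      (n.factorial * ∑ k ∈ range (n + 1), am G π D w k v * am G π D w (n - k) v) := by
    rw [mom_eq, Finset.mul_sum]
    have h2 : ∀ y ∈ Fintype.piFinset (fun _ : Fin n => D),
        2 * ((∏ i, w (y i)) * pc G π D univ z y) ≤
          ∑ v ∈ D, ∑ t ∈ (univ : Finset (Fin n)).powerset, tau G π D z v *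
            (ind (t.Nonempty ∧ t ≠ univ) *
              ((∏ i, w (y i)) * (pc G π D t v y * pc G π D (univ \ t) v y))) := by
      intro y _
      have h3 := mul_le_mul_of_nonneg_left (pc_tree (G := G) (D := D) hT hBK hπ hn z y)
        (Finset.prod_nonneg fun i (_ : i ∈ univ) => hw (y i))
      rw [Finset.mul_sum] at h3
      refine le_trans (le_of_eq (by ring)) (h3.trans (le_of_eq ?_))
      refine Finset.sum_congr rfl fun v _ => ?_
      rw [Finset.mul_sum]
      exact Finset.sum_congr rfl fun t _ => by ring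
    refine (Finset.sum_le_sum h2).trans (le_of_eq ?_)
    rw [Finset.sum_comm]
    refine Finset.sum_congr rfl fun v _ => ?_
    rw [Finset.sum_comm, ← sum_subsets, Finset.mul_sum]
    refine Finset.sum_congr rfl fun t _ => ?_
    rw [← Finset.mul_sum, ← Finset.mul_sum, sum_pc_mul]
  have f1 : (0 : ℝ) < n.factorial := by positivity
  have h4 : ∑ v ∈ D, tau G π D z v *
      (n.factorial * ∑ k ∈ range (n + 1), am G π D w k v * am G π D w (n - k) v) =
      2 * n.factorial * ∑ v ∈ D, tau G π D z v *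
        ((∑ k ∈ range (n + 1), am G π D w k v * am G π D w (n - k) v) / 2) := by
    rw [Finset.mul_sum]
    exact Finset.sum_congr rfl fun v _ => by ring
  rw [h4] at h1
  rw [am, if_neg (by omega), div_le_iff₀ f1]
  nlinarith

lemma conv_le (a : ℕ → ℝ) (h0 : a 0 = 0) (ha : ∀ k, 0 ≤ a k) (N : ℕ) :
    ∑ n ∈ range (N + 2), ∑ k ∈ range (n + 1), a k * a (n - k) ≤ (∑ k ∈ range (N + 1), a k) ^ 2 := by
  rw [Finset.sum_range_diag_flip (N + 2) (fun m k => a m * a k), Finset.sum_range_succ]
  have e : N + 2 - (N + 1) = 1 := by omega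
  rw [e, Finset.sum_range_one, h0, mul_zero, add_zero, sq, Finset.sum_mul]
  refine Finset.sum_le_sum fun m _ => ?_
  rw [← Finset.mul_sum]
  rcases Nat.eq_zero_or_pos m with rfl | hm
  · simp [h0]
  · refine mul_le_mul_of_nonneg_left ?_ (ha m)
    exact Finset.sum_le_sum_of_subset_of_nonneg (Finset.range_subset_range.2 (by omega))
      fun k _ _ => ha k

lemma sum_am_le (hT : St_TREE) (hBK : St_BK) (hπ : Prob π) {w ψ : V → ℝ} (hw : ∀ v, 0 ≤ w v)
    (hψ : ∀ v, 0 ≤ ψ v)
    (h : ∀ v ∈ D, ∑ u ∈ D, tau G π D v u * (w u + ψ u ^ 2 / 2) ≤ ψ v) (N : ℕ) :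
    ∀ z ∈ D, ∑ k ∈ range (N + 1), am G π D w k z ≤ ψ z := by
  induction N with
  | zero => intro z _; simpa [am] using hψ z
  | succ N ih =>
    intro z hz
    have h1 : ∀ n, am G π D w n z ≤ ∑ v ∈ D, tau G π D z v * ((if n = 1 then w v else 0) +
        (∑ k ∈ range (n + 1), am G π D w k v * am G π D w (n - k) v) / 2) := by
      intro n
      rcases Nat.lt_or_ge n 2 with hn | hn
      · interval_cases n
        · simp [am]
        · have := EC_sum (G := G) (π := π) (D := D) (x := z) w
          simp [am, mom, Finset.sum_range_succ, this]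
      · have := am_rec (G := G) (D := D) hT hBK hπ hw hn z
        simpa [show n ≠ 1 by omega] using this
    refine (Finset.sum_le_sum fun n _ => h1 n).trans (le_trans ?_ (h z hz))
    rw [Finset.sum_comm]
    refine Finset.sum_le_sum fun v hv => ?_
    rw [← Finset.mul_sum]
    refine mul_le_mul_of_nonneg_left ?_ (tau_nonneg hπ)
    rw [Finset.sum_add_distrib, Finset.sum_ite_eq' (range (N + 1 + 1)) 1 fun _ => w v,
      if_pos (by simp), ← Finset.sum_div]
    have h2 := conv_le (fun k => am G π D w k v) (by simp [am]) (fun k => am_nonneg hπ hw k v) N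
    have h3 := pow_le_pow_left₀ (Finset.sum_nonneg fun k _ => am_nonneg hπ hw k v) (ih v hv) 2
    linarith

end ET

theorem st_ET (hT : St_TREE) (hBK : St_BK) : St_ET := by
  intro V _ G π hπ D w ψ hw hψ h z
  by_cases hz : z ∈ D
  · have h1 : HasSum (fun n : ℕ => ET.mom G π D w n z / n.factorial)
        (EC G π D z fun C => Real.exp (∑ y ∈ C, w y)) := by
      unfold ET.mom EC PE
      simp only [Finset.sum_div, mul_div_assoc]
      refine hasSum_sum fun ω _ => HasSum.mul_left _ ?_
      rw [Real.exp_eq_exp_ℝ]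
      exact NormedSpace.expSeries_div_hasSum_exp _
    refine le_of_tendsto' ((Filter.tendsto_add_atTop_iff_nat 1).2 h1.tendsto_sum_nat) fun N => ?_
    have h2 := ET.sum_am_le hT hBK hπ hw hψ h N z hz
    rw [Finset.sum_range_succ'] at h2 ⊢
    have h0 : ET.mom G π D w 0 z = 1 := by simp [ET.mom, EC, PE_const]
    simp only [ET.am, Nat.succ_ne_zero, if_false, if_true, add_zero] at h2
    rw [h0]
    simp only [Nat.factorial_zero, Nat.cast_one, div_one]
    linarith
  · simp only [EC, cl_of_notMem hz, Finset.sum_empty, Real.exp_zero, PE_const]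
    linarith [hψ z]

end Pool.Agent.TPC
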