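import Pool.Agent.Lib.TPC.BlueZ
import Pool.Agent.Lib.TPC.B_S3

/-! Exponential moment of the number of points of a critical cluster in a cube. -/

open Finset

namespace Pool.Agent.TPC

open Pool.Agent.Lib.MP_81a99a_pr (lattice torus)

theorem st_ETQ (hET : St_ET) (h12 : St_S12) : St_ETQ := by
  intro d p c C H
  have hd : (9 : ℝ) ≤ d := by exact_mod_cast H.hd
  obtain ⟨C3, hC3, h3⟩ := st_S3 h12 d (d - 2) 4 (by linarith) (by linarith) (by linarith)
    (by linarith)
  have hmin : min ((d : ℝ) - 2) (d - 2 + 4 - d) = 2 := by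
    rw [show (d : ℝ) - 2 + 4 - d = 2 by ring]
    exact min_eq_right (by linarith)
  rw [hmin] at h3
  set K : ℝ := max C 0 * C3 + 1 with hK
  have hC0 : 0 ≤ max C 0 := le_max_right _ _
  have hK1 : 1 ≤ K := by have := mul_nonneg hC0 hC3.le; linarith
  have hK0 : 0 < K := by linarith
  refine ⟨1 / (32 * K ^ 2), by positivity, fun s hs D y u => ?_⟩
  have hs1 : (1 : ℝ) ≤ s := by exact_mod_cast hs
  have hπ : Prob (fun _ : Sym2 (Zd d) => p) := Prob.const H.p0.le H.p1.le
  have key := hET (Zd d) (lattice d) (fun _ => p) hπ D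
    (fun v => 1 / (32 * K ^ 2) / (s : ℝ) ^ 4 * ind (v ∈ box y s))
    (fun v => 1 / K * kk 2 (zd v y))
    (fun v => mul_nonneg (by positivity) (ind_nonneg _))
    (fun v => mul_nonneg (by positivity) (kk_nonneg _ (zd_nonneg _ _))) ?_ u
  · have e : ∀ A : Finset (Zd d), ∑ v ∈ A, 1 / (32 * K ^ 2) / (s : ℝ) ^ 4 * ind (v ∈ box y s) =
        1 / (32 * K ^ 2) * (A ∩ box y s).card / (s : ℝ) ^ 4 := by
      intro A
      rw [← mul_sum, ← card_flt, flt_eq_filter, filter_mem_eq_inter]
      ring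
    simp only [e] at key
    refine key.trans ?_
    have h1 : kk 2 (zd u y) ≤ 1 := kk_le_one (by norm_num) (zd_nonneg _ _)
    have h2 : 1 / K ≤ 1 := by rw [div_le_one hK0]; exact hK1
    have h4 := mul_le_mul h2 h1 (kk_nonneg _ (zd_nonneg _ _)) zero_le_one
    linarith
  · intro v _
    have pt : ∀ w, 1 / (32 * K ^ 2) / (s : ℝ) ^ 4 * ind (w ∈ box y s) +
        (1 / K * kk 2 (zd w y)) ^ 2 / 2 ≤ 1 / K ^ 2 * kk 4 (zd w y) := by
      intro w
      have h0 := zd_nonneg w y
      have e : kk 2 (zd w y) ^ 2 = kk 4 (zd w y) := by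
        rw [sq, kk_mul _ _ h0]; norm_num
      have h1 : ind (w ∈ box y s) ≤ 16 * (s : ℝ) ^ 4 * kk 4 (zd w y) := by
        refine ind_le_of (mul_nonneg (by positivity) (kk_nonneg _ h0)) fun hw => ?_
        have h2 : zd w y ≤ s := by rw [zd_comm]; exact mem_box.1 hw
        have h4 := kk_nat 4 h0
        rw [show ((4 : ℕ) : ℝ) = 4 by norm_num] at h4
        rw [h4, mul_one_div, le_div_iff₀ (by positivity), one_mul,
          show 16 * (s : ℝ) ^ 4 = (2 * s) ^ 4 by ring]
        exact pow_le_pow_left₀ (by linarith) (by linarith) 4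
      have h5 : 1 / (32 * K ^ 2) / (s : ℝ) ^ 4 * ind (w ∈ box y s) ≤
          1 / K ^ 2 * kk 4 (zd w y) / 2 := by
        refine (mul_le_mul_of_nonneg_left h1 (by positivity)).trans (le_of_eq ?_)
        field_simp
        ring
      rw [mul_pow, e, div_pow, one_pow]
      linarith
    have tw : ∀ w, tau (lattice d) (fun _ => p) D v w ≤ max C 0 * kk (d - 2) (zd v w) := fun w =>
      (H.up D v w).trans (mul_le_mul_of_nonneg_right (le_max_left _ _)
        (kk_nonneg _ (zd_nonneg _ _)))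
    have s1 : ∑ w ∈ D, tau (lattice d) (fun _ => p) D v w *
        (1 / (32 * K ^ 2) / (s : ℝ) ^ 4 * ind (w ∈ box y s) + (1 / K * kk 2 (zd w y)) ^ 2 / 2) ≤
        ∑ w ∈ D, max C 0 / K ^ 2 * (kk (d - 2) (zd v w) * kk 4 (zd w y)) := by
      refine sum_le_sum fun w _ => ?_
      refine (mul_le_mul (tw w) (pt w) ?_ (mul_nonneg hC0 (kk_nonneg _ (zd_nonneg _ _)))).trans
        (le_of_eq (by ring))
      exact add_nonneg (mul_nonneg (by positivity) (ind_nonneg _)) (by positivity)
    refine s1.trans ?_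
    rw [← mul_sum]
    refine (mul_le_mul_of_nonneg_left (h3 _ _ (met_zd d) v y D) (by positivity)).trans ?_
    rw [← mul_assoc]
    refine mul_le_mul_of_nonneg_right ?_ (kk_nonneg _ (zd_nonneg _ _))
    rw [div_mul_eq_mul_div, div_le_div_iff₀ (by positivity) hK0]
    nlinarith

end Pool.Agent.TPC
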