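import Pool.Agent.Lib.TPC.BlueC

open Finset

set_option linter.unusedSectionVars false

namespace Pool.Agent.TPC

namespace EX

variable {K : Kc} {V : Type} [Fintype V] [DecidableEq V]

lemma plev_zero (q : Fin 5 → ℝ) : plev q 0 = q 0 := by
  have : Finset.Iic (0 : Fin 5) = {0} := by decide
  simp [plev, this]

lemma mem_marked (M : Core K V) (Q Q' : Finset V) (Ms : ℝ) (s : List (Ent (Sym2 V) V)) {y : V}
    (h1 : y ∈ Wof s) (h2 : y ∈ Q) (h3 : y ∉ Q') : y ∈ marked (badE M Q Q' Ms) s := by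
  induction s with
  | nil => simp [Wof] at h1
  | cons a s ih =>
    rw [marked, Finset.mem_union]
    rcases Finset.mem_union.1 h1 with h | h
    · exact Or.inl (mem_flt.2 ⟨Finset.mem_inter.2 ⟨h, h2⟩, Or.inl h3⟩)
    · exact Or.inr (ih h)

/-- extraction of a large subset with bounded potential -/
lemma extract (hEN : St_EN) (M : Core K V) {Q Q' : Finset V} (hQ : Q' ⊆ Q) {Ms ζ : ℝ}
    (hMs : 0 ≤ Ms) (hζ : 0 < ζ) (s : List (Ent (Sym2 V) V)) (hs : Disj s) :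
    ∃ A₁ : Finset V, A₁ ⊆ Wof s ∩ Q' ∧ (∀ u, M.pot A₁ u ≤ K.C * (Ms + 2 * 1) / ζ) ∧
      (((Wof s ∩ Q) \ A₁).card : ℝ) ≤ (marked (badE M Q Q' Ms) s).card +
        ζ * (Wof s ∩ Q).card := by
  obtain ⟨A₁, h1, h2, h3⟩ := hEN K V M (Sym2 V) s hs (badE M Q Q' Ms) Q' Ms 1 ζ hMs zero_le_one hζ
    (by
      intro W C _ _ y hy hy' hb
      have : ¬ (y ∉ Q' ∨ 1 < M.pot W y ∨ Ms < M.pot (C ∩ Q') y) := fun h =>
        hb (mem_flt.2 ⟨Finset.mem_inter.2 ⟨hy, hQ hy'⟩, h⟩)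
      push Not at this
      exact ⟨this.2.2, (M.pot_mono Finset.inter_subset_left y).trans this.2.1⟩)
  refine ⟨A₁, h1.trans Finset.sdiff_subset, h3, ?_⟩
  have a : (Wof s ∩ Q) \ A₁ ⊆ marked (badE M Q Q' Ms) s ∪
      ((Wof s ∩ Q') \ marked (badE M Q Q' Ms) s) \ A₁ := by
    intro y hy
    simp only [Finset.mem_sdiff, Finset.mem_inter, Finset.mem_union] at hy ⊢
    by_cases h : y ∈ marked (badE M Q Q' Ms) s
    · exact Or.inl h
    · refine Or.inr ⟨⟨⟨hy.1.1, ?_⟩, h⟩, hy.2⟩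
      by_contra h4
      exact h (mem_marked M Q Q' Ms s hy.1.1 hy.1.2 h4)
  have b : (((Wof s ∩ Q) \ A₁).card : ℝ) ≤ (marked (badE M Q Q' Ms) s).card +
      ((((Wof s ∩ Q') \ marked (badE M Q Q' Ms) s) \ A₁).card : ℝ) := by
    exact_mod_cast (Finset.card_le_card a).trans (Finset.card_union_le _ _)
  have c : (((Wof s ∩ Q') \ marked (badE M Q Q' Ms) s).card : ℝ) ≤ (Wof s ∩ Q).card := by
    exact_mod_cast Finset.card_le_card
      (Finset.sdiff_subset.trans (Finset.inter_subset_inter_left hQ))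
  nlinarith [mul_le_mul_of_nonneg_left c hζ.le]

lemma dep_FF (M : Core K V) (U Q A : Finset V) (σ : ℝ) :
    DepOn (fun η => M.FF U Q A σ η) (touch A)ᶜ := by
  intro η η' h
  have : ∀ v, cl M.G (U \ A) η v = cl M.G (U \ A) η' v := fun v => dep_cl_sdiff M.G U A v η η' h
  simp only [Core.FF, this]

lemma cond (M : Core K V) {q : Fin 5 → ℝ} (hq : ∀ j, 0 ≤ q j ∧ q j ≤ 1) (h0 : q 0 = M.p)
    (U Q : Finset V) (k k' r σ F b : ℝ) (rt : Finset V → V) (hb : 0 ≤ b)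
    (Gd : List (Ent (Sym2 V) V) → Prop)
    (h : ∀ s, Gd s → PE univ (fun _ => M.p) (fun η => ind (M.FF U Q (Wof s) σ η < F)) ≤ b) :
    PL q (fun ω => ind (Gd (es M.G U Q k k' r rt ω) ∧
      M.FF U Q (Wof (es M.G U Q k k' r rt ω)) σ (lev 0 ω) < F)) ≤ b := by
  have := Proc.markov (eproc M.G U Q k k' r rt) (Fintype.card (Sym2 V) + ⌈r⌉₊ + 1)
    (fun s ω => ind (Gd s ∧ M.FF U Q (Wof s) σ (lev 0 ω) < F)) (by
      intro ω
      refine ((dep_lev (dep_FF M U Q _ σ) 0).comp fun x => ind (Gd _ ∧ x < F)).mono ?_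
      rintro b ⟨h1, h2⟩ (⟨e, he, rfl⟩ | ⟨a, _, t, _, h3⟩)
      · exact h1 he
      · exact absurd (mem_lbits.1 h3).2.1 (not_lt.2 h2)) (fun b => q b.2)
  unfold PL es
  rw [this]
  refine PE_le_const (prob_lev hq) fun ω => ?_
  generalize (eproc M.G U Q k k' r rt).run ω _ = s
  by_cases hs : Gd s
  · have e := PL_lev q 0 (fun η => ind (M.FF U Q (Wof s) σ η < F))
    rw [plev_zero, h0] at e
    simp only [hs, true_and]
    exact le_trans (le_of_eq e) (h s hs)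
  · simp only [hs, false_and, ind_neg not_false, PE_const]
    exact hb

end EX

theorem st_EX (hED : St_ED) (hES : St_ES) (hER : St_ER) (hEM : St_EM) (hEB : St_EB)
    (hCL : St_CL0) (hEN : St_EN) : St_EX := by
  intro K
  have hC : 0 < K.C := by linarith [K.hC]
  obtain ⟨T, δR, cR, hT, hδR, hcR, HR⟩ := hER K
  obtain ⟨Ms0, hMs0, H0⟩ := hEM K (1 / 4) (by norm_num)
  obtain ⟨M0, hM0e⟩ : ∃ M0, M0 = K.C * (Ms0 + 2 * 1) / (1 / 2) := ⟨_, rfl⟩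
  have hM0 : 0 < M0 := by rw [hM0e]; positivity
  obtain ⟨η, σ, cF, hη, hσ, hcF, HC⟩ := hCL K M0 hM0
  obtain ⟨Ms1, hMs1, H1⟩ := hEM K (η / (8 * M0)) (by positivity)
  obtain ⟨M1, hM1e⟩ : ∃ M1, M1 = K.C * (Ms1 + 2 * 1) / (η / (16 * M0)) := ⟨_, rfl⟩
  have hM1 : 0 < M1 := by rw [hM1e]; positivity
  obtain ⟨κ, hκe⟩ : ∃ κ, κ = 12 / (σ * cF) := ⟨_, rfl⟩
  have hκ : 0 < κ := by rw [hκe]; positivity
  obtain ⟨γ0, hγ0, H0⟩ := H0 κ T hκ.le hT
  obtain ⟨γ1, hγ1, H1⟩ := H1 κ T hκ.le hT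
  have hγ : 0 < min γ0 γ1 := lt_min hγ0 hγ1
  have hCγ : 0 < K.Cs (min γ0 γ1) := by linarith [K.hCs (min γ0 γ1)]
  obtain ⟨δ0, hδ0, HC⟩ := HC _ hCγ
  obtain ⟨δ, hδe⟩ : ∃ δ, δ = min (min γ0 γ1) (min δ0 δR) := ⟨_, rfl⟩
  have hδ : 0 < δ := by rw [hδe]; exact lt_min hγ (lt_min hδ0 hδR)
  have d0 : δ ≤ γ0 := by rw [hδe]; exact (min_le_left _ _).trans (min_le_left _ _)
  have d1 : δ ≤ γ1 := by rw [hδe]; exact (min_le_left _ _).trans (min_le_right _ _)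
  have d2 : δ ≤ δ0 := by rw [hδe]; exact (min_le_right _ _).trans (min_le_left _ _)
  have d3 : δ ≤ δR := by rw [hδe]; exact (min_le_right _ _).trans (min_le_right _ _)
  obtain ⟨β0, cS, lS, hβ0, hcS, HS⟩ := hES K κ T δ hκ.le hT hδ
  obtain ⟨β, hβe⟩ : ∃ β, β = min β0 1 := ⟨_, rfl⟩
  have hβ : 0 < β := by rw [hβe]; exact lt_min hβ0 one_pos
  have b0 : β ≤ β0 := by rw [hβe]; exact min_le_left _ _
  have b1 : β ≤ 1 := by rw [hβe]; exact min_le_right _ _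
  obtain ⟨c0, l0, hc0, H0⟩ := H0 β _ hβ hCγ
  obtain ⟨c1, l1, hc1, H1⟩ := H1 β _ hβ hCγ
  obtain ⟨cC, lC, hcC, HC⟩ := HC M1 β hM1 hβ b1
  obtain ⟨c, hce⟩ : ∃ c, c = min (min (min cS (cR * β)) (min c0 c1)) (min cC (β / σ)) := ⟨_, rfl⟩
  have hc : 0 < c := by
    rw [hce]
    exact lt_min (lt_min (lt_min hcS (by positivity)) (lt_min hc0 hc1))
      (lt_min hcC (by positivity))
  have e1 : c ≤ cS := by simp [hce]
  have e2 : c ≤ cR * β := by simp [hce]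
  have e3 : c ≤ c0 := by simp [hce]
  have e4 : c ≤ c1 := by simp [hce]
  have e5 : c ≤ cC := by simp [hce]
  have e6 : c ≤ β / σ := by simp [hce]
  refine ⟨κ, β, c, 6, max (max (max lS l0) (max l1 lC)) (K.Cs (min γ0 γ1)), hκ, hβ, b1, hc, ?_⟩
  intro V _ _ M q hLv hq1 hl hN U Q hU hLB hIn
  simp only [max_le_iff] at hl hN
  obtain ⟨Q', hQ', hQc, hQg, hQn⟩ := hIn.2 _ hγ hl.2
  obtain ⟨rt, HR⟩ := HR V M U Q hU hLB hIn.1
  have hUp := M.U_pos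
  have hNp := M.N_pos
  have hlp := M.l_pos
  have hVp := M.Vol_pos
  have ex : ∀ x : ℝ, c ≤ x → Real.exp (-(x * M.N)) ≤ Real.exp (-(c * M.N)) := fun x hx =>
    Real.exp_le_exp.2 (by nlinarith)
  have pS := (HS β hβ b0 V M q hLv hl.1.1.1 U Q hLB.1 rt).trans (ex _ e1)
  have pR := (HR q hLv.1 hLv.2.1 β δ hβ d3).trans (ex _ e2)
  have p0 := (H0 V M q hLv hl.1.1.2 hN.1.1.2 U Q Q' hU hLB.1 hQ'
    (hQc.trans (mul_le_mul_of_nonneg_right (min_le_left _ _) hVp.le)) hQg δ d0 rt).trans (ex _ e3)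
  have p1 := (H1 V M q hLv hl.1.2.1 hN.1.2.1 U Q Q' hU hLB.1 hQ'
    (hQc.trans (mul_le_mul_of_nonneg_right (min_le_right _ _) hVp.le)) hQg δ d1 rt).trans
      (ex _ e4)
  have pB := hEB K V M q hLv.2.1 U Q hLB.1 (β * M.U) (δ * M.U) (T * β * M.N * M.l ^ 2) σ
    (cF * β * M.N * M.l ^ 2) rt hσ
  have eB : 2 * (β * M.U) / (σ * M.l ^ 4) - q 1 * (cF * β * M.N * M.l ^ 2) / 4 =
      -(β / σ * M.N) := by
    rw [hq1, hκe]; unfold Core.U; field_simp; ring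
  rw [eB] at pB
  replace pB := pB.trans (ex _ e6)
  have pC := EX.cond M hLv.2.1 hLv.1 U Q (β * M.U) (δ * M.U) (T * β * M.N * M.l ^ 2) σ
    (cF * β * M.N * M.l ^ 2) (Real.exp (-(c * M.N))) rt (Real.exp_pos _).le
    (fun s => Done M.G Q (β * M.U) (δ * M.U) s ∧ Disj s ∧ Wof s ⊆ U ∧
      ((marked (badE M Q Q' Ms0) s).card : ℝ) ≤ 1 / 4 * (β * M.U) ∧
      ((marked (badE M Q Q' Ms1) s).card : ℝ) ≤ η / (8 * M0) * (β * M.U)) (by
      rintro s ⟨⟨k1, k2, k3, -⟩, hd, hW, m0, m1⟩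
      obtain ⟨a, a1, a2, a3⟩ := EX.extract hEN M hQ' hMs0.le (ζ := 1 / 2) (by norm_num) s hd
      obtain ⟨A₁, f1, f2, f3⟩ := EX.extract hEN M hQ' hMs1.le (ζ := η / (16 * M0))
        (by positivity) s hd
      rw [← hM0e] at a2
      rw [← hM1e] at f2
      have a1' : a ⊆ Wof s ∩ Q := a1.trans (Finset.inter_subset_inter_left hQ')
      have a4 : (((Wof s ∩ Q) \ a).card : ℝ) + a.card = (Wof s ∩ Q).card := by
        exact_mod_cast Finset.card_sdiff_add_card_eq_card a1'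
      have a5 : β * M.U / 4 ≤ a.card := by linarith
      have bU : 0 < β * M.U := by positivity
      refine (HC V M hl.1.2.2 U Q (Wof s) a A₁ hU hLB hIn.1 hW
        (k3.le.trans (mul_le_mul_of_nonneg_right d2 hUp.le)) (by linarith) a1' (by linarith) a2
        (fun y hy => hQg y (Finset.mem_inter.1 (a1 hy)).2)
        (f1.trans (Finset.inter_subset_inter_left hQ'))
        (fun y hy => hQn y (Finset.mem_inter.1 (f1 hy)).2) f2 ?_).trans (ex _ e5)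
      have g1 : η / (16 * M0) * ((Wof s ∩ Q).card : ℝ) ≤ η / (16 * M0) * (2 * (β * M.U)) :=
        mul_le_mul_of_nonneg_left k2.le (by positivity)
      have g2 : M0 * (η / (8 * M0) * (β * M.U) + η / (16 * M0) * (2 * (β * M.U))) =
          η * (β * M.U / 4) := by field_simp; ring
      calc M0 * (((Wof s ∩ Q) \ A₁).card : ℝ)
          ≤ M0 * (η / (8 * M0) * (β * M.U) + η / (16 * M0) * (2 * (β * M.U))) :=
            mul_le_mul_of_nonneg_left (by linarith) hM0.le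
        _ = η * (β * M.U / 4) := g2
        _ ≤ η * a.card := mul_le_mul_of_nonneg_left a5 hη.le)
  have hr : 0 ≤ T * β * M.N * M.l ^ 2 := by positivity
  have sum := add_le_add (add_le_add (add_le_add pS pR) (add_le_add p0 p1)) (add_le_add pB pC)
  refine le_trans ?_ (sum.trans (le_of_eq (by ring)))
  unfold PL
  rw [← PE_add, ← PE_add, ← PE_add, ← PE_add, ← PE_add]
  refine PE_mono hLv.prob fun ω => ?_
  obtain ⟨-, -, hcase⟩ := hED V M.G K.Δ M.deg U Q hLB.1 (β * M.U) (δ * M.U)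
    (T * β * M.N * M.l ^ 2) rt (by positivity) hr ω
  have hd := Proc.disj_run (eproc M.G U Q (β * M.U) (δ * M.U) (T * β * M.N * M.l ^ 2) rt) ω
    (Fintype.card (Sym2 V) + ⌈T * β * M.N * M.l ^ 2⌉₊ + 1)
  change Disj (es M.G U Q (β * M.U) (δ * M.U) (T * β * M.N * M.l ^ 2) rt ω) ∧
    Wof (es M.G U Q (β * M.U) (δ * M.U) (T * β * M.N * M.l ^ 2) rt ω) ⊆ U at hd
  generalize es M.G U Q (β * M.U) (δ * M.U) (T * β * M.N * M.l ^ 2) rt ω = s at hcase hd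
  have key : ∀ P₀ P₁ P₂ P₃ P₄ P₅ P₆ : Prop, (P₀ → P₁ ∨ P₂ ∨ P₃ ∨ P₄ ∨ P₅ ∨ P₆) →
      ind P₀ ≤ ind P₁ + ind P₂ + (ind P₃ + ind P₄) + (ind P₅ + ind P₆) := by
    intro P₀ P₁ P₂ P₃ P₄ P₅ P₆ h
    have := ind_mono h
    have := ind_or_le P₁ (P₂ ∨ P₃ ∨ P₄ ∨ P₅ ∨ P₆)
    have := ind_or_le P₂ (P₃ ∨ P₄ ∨ P₅ ∨ P₆)
    have := ind_or_le P₃ (P₄ ∨ P₅ ∨ P₆)
    have := ind_or_le P₄ (P₅ ∨ P₆)
    have := ind_or_le P₅ P₆
    linarith
  refine key _ _ _ _ _ _ _ fun hno => ?_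
  rcases hcase with h | h | h | h
  · exact absurd h hno
  · exact Or.inl h
  · exact Or.inr (Or.inl h)
  · refine Or.inr (Or.inr ?_)
    by_cases m0 : ((marked (badE M Q Q' Ms0) s).card : ℝ) ≤ 1 / 4 * (β * M.U)
    · by_cases m1 : ((marked (badE M Q Q' Ms1) s).card : ℝ) ≤ η / (8 * M0) * (β * M.U)
      · by_cases m2 : cF * β * M.N * M.l ^ 2 ≤ M.FF U Q (Wof s) σ (lev 0 ω)
        · exact Or.inr (Or.inr (Or.inl ⟨h, m2⟩))
        · exact Or.inr (Or.inr (Or.inr ⟨⟨h, hd.1, hd.2, m0, m1⟩, not_le.1 m2⟩))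
      · exact Or.inr (Or.inl ⟨h.2.1, not_le.1 m1⟩)
    · exact Or.inl ⟨h.2.1, not_le.1 m0⟩

end Pool.Agent.TPC
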