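import Pool.Agent.Lib.TPC.BlueF1

/-! The upper half of the theorem from its finite form. -/

open Finset MeasureTheory ProbabilityTheory Filter Topology

namespace Pool.Agent.TPC.FUP

open Pool.Agent.Lib.MP_81a99a_pr (lattice torus cluster kthLargest pc MeanField)

lemma pTwo_anti {d n : ℕ} [NeZero n] {p k k' : ℝ} (h0 : 0 ≤ p) (h1 : p ≤ 1) (h : k ≤ k') :
    pTwo d n p k' ≤ pTwo d n p k :=
  PE_ind_mono (Prob.const h0 h1) fun _ ⟨x, y, a, b, c⟩ => ⟨x, y, a, h.trans b, h.trans c⟩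

lemma l_sq {κ ε : ℝ} (hκ : 0 < κ) (hε : 0 < ε) : √(κ / ε) ^ 2 = κ / ε :=
  Real.sq_sqrt (by positivity)

lemma l_six {κ ε : ℝ} (hκ : 0 < κ) (hε : 0 < ε) : √(κ / ε) ^ 6 = κ ^ 3 / ε ^ 3 := by
  rw [show 6 = 2 * 3 from rfl, pow_mul, l_sq hκ hε, div_pow]

lemma sMF_le {κ ε V : ℝ} (hκ : 0 < κ) (hε : 0 < ε) (hV : 0 < V)
    (h : |3 * Real.log κ| ≤ Real.log (ε ^ 3 * V)) :
    sMF √(κ / ε) V ≤ 2 * κ ^ 2 * (ε⁻¹ ^ 2 * Real.log (ε ^ 3 * V)) := by
  have e : V / (κ ^ 3 / ε ^ 3) = ε ^ 3 * V / κ ^ 3 := by field_simp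
  rw [sMF, l_six hκ hε, show 4 = 2 * 2 from rfl, pow_mul, l_sq hκ hε, e,
    Real.log_div (by positivity) (by positivity), Real.log_pow κ 3]
  have h1 := neg_abs_le (3 * Real.log κ)
  calc _ ≤ (κ / ε) ^ 2 * (2 * Real.log (ε ^ 3 * V)) := by
        gcongr
        push_cast
        linarith
    _ = _ := by field_simp

lemma sDrop_eq {d : ℕ} (hd : 9 ≤ d) {κ ε : ℝ} (hκ : 0 < κ) (hε : 0 < ε) (V : ℝ) :
    sDrop d √(κ / ε) V = κ ^ (5 * (d : ℝ) / (2 * (d - 1)) - 1) *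
      (ε ^ (1 - 5 * (d : ℝ) / (2 * (d - 1))) * Real.log V ^ ((d : ℝ) / (d - 1))) := by
  have h9 : (9 : ℝ) ≤ d := by exact_mod_cast hd
  have h1 : (d : ℝ) - 1 ≠ 0 := by linarith
  have h0 : 0 < κ / ε := by positivity
  rw [sDrop, ← mul_assoc]
  congr 1
  rw [← Real.rpow_natCast, ← Real.rpow_add (Real.sqrt_pos.2 h0), Real.sqrt_eq_rpow,
    ← Real.rpow_mul h0.le, ← neg_sub (5 * (d : ℝ) / (2 * (d - 1))) 1, Real.rpow_neg hε.le,
    ← div_eq_mul_inv, ← Real.div_rpow hκ.le hε.le]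
  congr 1
  push_cast
  field_simp
  ring

end Pool.Agent.TPC.FUP

namespace Pool.Agent.TPC

open Pool.Agent.Lib.MP_81a99a_pr (lattice torus cluster kthLargest pc MeanField)
open FUP

theorem st_FUP (hU : St_UP) (hZ : St_BRZ) (hT : St_BRT) : St_FUP := by
  intro d hd hH
  obtain ⟨c, C, hz⟩ := hZ d hd hH
  obtain ⟨κ, A, hκ, hA, h⟩ := hU d _ c C hz
  set e := 5 * (d : ℝ) / (2 * (d - 1)) - 1 with he
  have k1 : 0 < κ ^ e := Real.rpow_pos_of_pos hκ _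
  have k2 : 0 < 2 * κ ^ 2 := by positivity
  refine ⟨A * (2 * κ ^ 2 + κ ^ e), by positivity, fun ε e0 e1 e2 => ?_⟩
  refine tendsto_order.2 ⟨fun a ha => Eventually.of_forall fun n => ha.trans_le measureReal_nonneg,
    fun η hη => ?_⟩
  obtain ⟨L₀, hL⟩ := h (η / 2) (half_pos hη)
  have t1 : Tendsto (fun n : ℕ => ε n ^ 3 * (n : ℝ) ^ d) atTop atTop := by
    refine ((tendsto_pow_atTop three_ne_zero).comp e2).congr fun n => ?_
    rw [Function.comp, mul_pow, ← Real.rpow_natCast (_ ^ (1 / 3 : ℝ)),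
      ← Real.rpow_mul (by positivity)]
    norm_num
  have t2 : Tendsto (fun n => √(κ / ε n)) atTop atTop := by
    refine Real.tendsto_sqrt_atTop.comp ?_
    have := (tendsto_inv_nhdsGT_zero.comp
      (tendsto_nhdsWithin_iff.2 ⟨e1, Eventually.of_forall e0⟩)).const_mul_atTop hκ
    exact this.congr fun n => by simp [div_eq_mul_inv]
  have t3 := Real.tendsto_log_atTop.comp t1
  have p0 := hz.p0
  have p1 := hz.p1
  have t4 : Tendsto (fun n => (pc d : ℝ) * (1 + ε n)) atTop (𝓝 ((pc d : ℝ) * (1 + 0))) :=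
    (e1.const_add 1).const_mul _
  filter_upwards [t2.eventually_ge_atTop L₀, t1.eventually_ge_atTop (L₀ * κ ^ 3),
    t3.eventually_ge_atTop |3 * Real.log κ|, t3.eventually_gt_atTop 0,
    t4.eventually (gt_mem_nhds (show (pc d : ℝ) * (1 + 0) < 1 by linarith)),
    eventually_ge_atTop 1] with n a1 a2 a3 a4 a5 a6
  have : NeZero n := ⟨by omega⟩
  have hε := e0 n
  have hn : (1 : ℝ) ≤ n := by exact_mod_cast a6
  have hV : (1 : ℝ) ≤ (n : ℝ) ^ d := one_le_pow₀ hn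
  have q0 : 0 ≤ (pc d : ℝ) * (1 + ε n) := by positivity
  have b1 := hL n _ a1 (by
    rw [l_six hκ hε, ← mul_div_assoc, div_le_iff₀ (by positivity)]
    linarith)
  rw [l_sq hκ hε, show κ / (κ / ε n) = ε n by field_simp] at b1
  simp only [Function.comp] at a3 a4
  have s1 : 0 < (ε n)⁻¹ ^ 2 * Real.log (ε n ^ 3 * (n : ℝ) ^ d) := by positivity
  have s2 : 0 < scale d ((n : ℝ) ^ d) (ε n) := lt_max_of_lt_left s1
  have b2 : max (sMF √(κ / ε n) ((n : ℝ) ^ d)) (sDrop d √(κ / ε n) ((n : ℝ) ^ d)) ≤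
      (2 * κ ^ 2 + κ ^ e) * scale d ((n : ℝ) ^ d) (ε n) := by
    refine max_le ((sMF_le hκ hε (by positivity) a3).trans ?_) ?_
    · have : 2 * κ ^ 2 * _ ≤ 2 * κ ^ 2 * scale d ((n : ℝ) ^ d) (ε n) :=
        mul_le_mul_of_nonneg_left (le_max_left _ _) k2.le
      nlinarith [mul_pos k1 s2]
    · rw [sDrop_eq hd hκ hε, ← he]
      have : κ ^ e * _ ≤ κ ^ e * scale d ((n : ℝ) ^ d) (ε n) :=
        mul_le_mul_of_nonneg_left (le_max_right _ _) k1.le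
      nlinarith [mul_pos k2 s2]
  rw [(hT d n _ _ (by positivity)).1, Set.projIcc_of_mem _ ⟨q0, a5.le⟩]
  refine lt_of_le_of_lt ((pTwo_anti q0 a5.le ?_).trans b1) (half_lt_self hη)
  rw [mul_assoc]
  exact mul_le_mul_of_nonneg_left b2 hA.le

end Pool.Agent.TPC
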