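import Pool.Agent.Lib.TPC.BlueC

/-! Blocks REV and G2. -/

open Finset

set_option linter.unusedSectionVars false

namespace Pool.Agent.TPC

namespace G2

variable {V : Type} [Fintype V] [DecidableEq V]

/-- the level `j` bits of all edges between `A` and `Γ` are closed -/
def Clo (G : SimpleGraph V) (j : Fin 5) (A Γ : Finset V) (ω : Finset (Bit V)) : Prop :=
  ∀ u ∈ A, ∀ v ∈ Γ, G.Adj u v → (s(u, v), j) ∉ ω

lemma clo_congr {G : SimpleGraph V} {j : Fin 5} {A Γ : Finset V} {ω ω' : Finset (Bit V)}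
    (h : ∀ b : Bit V, b.2 = j → b.1 ∈ touch Γ → (b ∈ ω ↔ b ∈ ω')) :
    Clo G j A Γ ω ↔ Clo G j A Γ ω' :=
  forall₂_congr fun u _ => forall₂_congr fun v hv => forall_congr' fun _ =>
    not_congr (h (s(u, v), j) rfl (mk_mem_touch.2 (Or.inr hv)))

lemma closed_cost (G : SimpleGraph V) {q : Fin 5 → ℝ} (hq : ∀ j, 0 ≤ q j ∧ q j ≤ 1) (j : Fin 5)
    {A Γ : Finset V} (h : Disjoint A Γ) :
    PL q (fun ω => ind (Clo G j A Γ ω)) ≤ Real.exp (-(q j * ec G A Γ)) := by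
  let P : Finset (V × V) := flt (A ×ˢ Γ) fun p => G.Adj p.1 p.2
  let f : V × V → Bit V := fun p => (s(p.1, p.2), j)
  have h1 : ∀ ω, Clo G j A Γ ω ↔ ∀ b ∈ P.image f, b ∉ ω := fun ω => by
    constructor
    · intro hc b hb
      obtain ⟨p, hp, rfl⟩ := mem_image.1 hb
      have h2 := mem_flt.1 hp
      exact hc _ (mem_product.1 h2.1).1 _ (mem_product.1 h2.1).2 h2.2
    · intro hc u hu v hv ha
      exact hc _ (mem_image.2 ⟨(u, v), mem_flt.2 ⟨mem_product.2 ⟨hu, hv⟩, ha⟩, rfl⟩)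
  have hinj : Set.InjOn f P := by
    rintro ⟨u, v⟩ hp ⟨u', v'⟩ hp' he
    have h2 := mem_product.1 (mem_flt.1 (mem_coe.1 hp)).1
    have h3 := mem_product.1 (mem_flt.1 (mem_coe.1 hp')).1
    rcases Sym2.eq_iff.1 (Prod.mk.inj he).1 with ⟨rfl, rfl⟩ | ⟨rfl, rfl⟩
    · rfl
    · exact absurd h3.2 (disjoint_left.1 h h2.1)
  have hc : (P.card : ℝ) = ec G A Γ := by
    rw [card_flt, sum_product]
    rfl
  simp only [ind_congr (h1 _)]
  unfold PL
  rw [PE_all_closed (subset_univ _), prod_image hinj, ← hc]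
  simp only [f, prod_const]
  rw [mul_comm, ← mul_neg, Real.exp_nat_mul]
  exact pow_le_pow_left₀ (by linarith [(hq j).2]) (by linarith [Real.add_one_le_exp (-q j)]) _

lemma cl_eq_sdiff {G : SimpleGraph V} {D A : Finset V} {η : Finset (Sym2 V)} {x : V}
    (h : Disjoint (cl G D η x) A) : cl G (D \ A) η x = cl G D η x :=
  subset_antisymm (cl_mono sdiff_subset subset_rfl) fun _ hy => mem_cl.2
    ((conn_cl (mem_cl.1 hy)).mono (subset_sdiff.2 ⟨cl_subset, h⟩) subset_rfl)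

end G2

open G2 in
theorem st_REV : St_REV := by
  intro V _ _ G q hq Γ hΓ x k t
  have hπ : Prob fun b : Bit V => q b.2 := prob_lev hq
  let T : Finset (Bit V) → Finset V × Finset V := fun ω =>
    (Γ ω, cl G (univ \ Γ ω) (lev 4 ω) x)
  let F : Finset V × Finset V → Finset (Bit V) → ℝ := fun p ω =>
    ind (k ≤ (p.2.card : ℝ) ∧ t ≤ ec G p.2 p.1) * ind (Clo G 4 p.2 p.1 ω)
  have h1 := PE_stop T (fun p => {b | b.2 ≤ 3 ∨ b.1 ∈ edges G (univ \ p.1)})
    (fun ω ω' h => by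
      have e1 : Γ ω' = Γ ω := (hΓ ω ω' fun b hb => h b (Or.inl hb)).symm
      have e2 := dep_cl_lev G (univ \ Γ ω) x 4 ω ω' fun b hb => h b (Or.inr hb.1)
      simp only [T, e1]
      exact congrArg _ e2.symm) F
    (fun ω₀ ω ω' h => by
      refine congrArg₂ (· * ·) rfl (ind_congr (clo_congr fun b hb ht => h b ?_))
      rintro (h2 | h2)
      · rw [hb] at h2
        exact absurd h2 (by decide)
      · exact edges_sdiff_not_touch h2 ht) univ fun b : Bit V => q b.2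
  unfold PL
  rw [← PE_mul_left]
  refine le_trans (PE_mono hπ fun ω => ?_) (h1.le.trans (PE_mono hπ fun ω => ?_))
  · simp only [F, T]
    rw [← ind_and]
    refine ind_mono fun ⟨h2, h3, h4⟩ => ?_
    rw [cl_eq_sdiff h3]
    refine ⟨⟨h2, h4⟩, fun u hu v hv ha hb => disjoint_left.1 h3 (mem_cl.2 ?_) hv⟩
    exact (mem_cl.1 hu).tail (mem_univ _) ha (mem_lev.2 ⟨4, le_rfl, hb⟩) (mem_univ _)
  · simp only [F, T]
    rw [PE_mul_left]
    refine ind_mul_le (mul_nonneg (Real.exp_pos _).le (ind_nonneg _)) fun ⟨h2, h3⟩ => ?_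
    have h4 : k ≤ ((cl G univ (lev 4 ω) x).card : ℝ) :=
      h2.trans (Nat.cast_le.2 (card_le_card (cl_mono sdiff_subset subset_rfl)))
    rw [ind_pos h4, mul_one]
    refine (closed_cost G hq 4 (disjoint_sdiff.symm.mono_left cl_subset)).trans
      (Real.exp_le_exp.2 (neg_le_neg (mul_le_mul_of_nonneg_left h3 (hq 4).1)))

namespace G2

variable {K : Kc} {V : Type} [Fintype V] [DecidableEq V] (M : Core K V)

/-- the system with one block -/
def blk1 {U Q : Finset V} (hU : M.Small U) (hQ : Q ⊆ U) : Blk M Unit Q where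
  blk := fun _ => ()
  U2 := fun _ => U
  U3 := fun _ => U
  U4 := fun _ => U
  mem2 := fun _ hy => hQ hy
  s234 := fun _ _ _ _ => ⟨subset_rfl, subset_rfl⟩
  ovl := fun _ S _ => (card_le_univ S).trans (by simpa using K.hΞ)
  sm := fun _ => hU
  kd := fun η ρ hη _ F hF h z => by
    have h1 := hU.r1 η hη z F (hF.trans hQ)
    have h2 : (F.card : ℝ) ≤ ρ * M.Vol :=
      le_trans (Nat.cast_le.2 (card_le_card fun y hy => mem_flt.2 ⟨hy, rfl⟩)) (h ())
    have h3 : K.Cs η * M.f0 * F.card ≤ K.Cs η * M.f0 * (ρ * M.Vol) :=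
      mul_le_mul_of_nonneg_left h2 (mul_nonneg (by linarith [K.hCs η]) M.f0_pos.le)
    have h4 : K.Cs η * M.f0 * (ρ * M.Vol) = M.l ^ 2 * (K.Cs η * ρ) := by
      rw [← M.f0_mul_Vol]; ring
    have h5 : ∑ y ∈ F, M.tb univ z y ≤ ∑ y ∈ F, M.g z y := sum_le_sum fun y _ => M.tb_le _ _ _
    linarith

/-- `y` is big off `A` and its level two cluster is not joined to `A` -/
noncomputable def Fa (c₁ : ℝ) (U Q A : Finset V) (y : V) (ω : Finset (Bit V)) : ℝ :=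
  ind (M.big c₁ (Q \ A) ω y) * ind (Clo M.G 3 A (M.cv (U \ A) 2 ω y) ω)

lemma dep_Fa (c₁ : ℝ) (U Q A : Finset V) (y : V) :
    DepOn (Fa M c₁ U Q A y) {b | b.1 ∈ touch A ∧ b.2 ≤ 1}ᶜ := by
  intro ω ω' h
  have e1 : M.cv (Q \ A) 1 ω y = M.cv (Q \ A) 1 ω' y :=
    dep_cl_lev M.G (Q \ A) y 1 ω ω' fun b hb => h b fun h2 => edges_sdiff_not_touch hb.1 h2.1
  have e2 : M.cv (U \ A) 2 ω y = M.cv (U \ A) 2 ω' y :=
    dep_cl_lev M.G (U \ A) y 2 ω ω' fun b hb => h b fun h2 => edges_sdiff_not_touch hb.1 h2.1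
  unfold Fa Core.big
  rw [e1, e2]
  refine congrArg _ (ind_congr (clo_congr fun b hb _ => h b fun h2 => ?_))
  have h3 := h2.2
  rw [hb] at h3
  exact absurd h3 (by decide)

lemma PL_Fa {q : Fin 5 → ℝ} (hq : ∀ j, 0 ≤ q j ∧ q j ≤ 1) (h3 : 1 / M.l ^ 2 ≤ q 3) {θ : ℝ}
    (h0 : 0 < θ) (h1 : θ ≤ 1) (c₁ : ℝ) (U Q A : Finset V) (y : V) :
    PL q (Fa M c₁ U Q A y) ≤ PL q fun ω => ind (M.big c₁ (Q \ A) ω y) *
      Real.exp (-(θ * ec M.G (A ∩ U) (M.cv (U \ A) 2 ω y) / M.l ^ 2)) := by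
  have hπ : Prob fun b : Bit V => q b.2 := prob_lev hq
  let T : Finset (Bit V) → Finset V × Finset V := fun ω =>
    (M.cv (Q \ A) 1 ω y, M.cv (U \ A) 2 ω y)
  let F : Finset V × Finset V → Finset (Bit V) → ℝ := fun p ω =>
    ind (c₁ * M.U ≤ (p.1.card : ℝ)) * ind (Clo M.G 3 A p.2 ω)
  have h2 := PE_stop T (fun _ => {b | b.2 ≤ 2})
    (fun ω ω' h => by
      have e1 := dep_cl_lev M.G (Q \ A) y 1 ω ω' fun b hb => h b (hb.2.trans (by decide))
      have e2 := dep_cl_lev M.G (U \ A) y 2 ω ω' fun b hb => h b hb.2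
      exact Prod.ext e1.symm e2.symm) F
    (fun ω₀ ω ω' h => by
      refine congrArg₂ (· * ·) rfl (ind_congr (clo_congr fun b hb _ => h b fun h2 => ?_))
      have h4 : b.2 ≤ 2 := h2
      rw [hb] at h4
      exact absurd h4 (by decide)) univ fun b : Bit V => q b.2
  refine h2.le.trans (PE_mono hπ fun ω => ?_)
  simp only [F, T]
  rw [PE_mul_left]
  refine mul_le_mul_of_nonneg_left ((closed_cost M.G hq 3
    (disjoint_sdiff.mono_right cl_subset)).trans (Real.exp_le_exp.2 (neg_le_neg ?_)))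
    (ind_nonneg _)
  have h4 := ec_mono (G := M.G) (inter_subset_left (s₁ := A) (s₂ := U))
    (subset_refl (M.cv (U \ A) 2 ω y))
  have h5 := ec_nonneg (G := M.G) (A ∩ U) (M.cv (U \ A) 2 ω y)
  have h6 : 0 < M.l ^ 2 := pow_pos M.l_pos 2
  calc θ * ec M.G (A ∩ U) (M.cv (U \ A) 2 ω y) / M.l ^ 2
      ≤ 1 * ec M.G A (M.cv (U \ A) 2 ω y) / M.l ^ 2 := by gcongr
    _ = 1 / M.l ^ 2 * ec M.G A (M.cv (U \ A) 2 ω y) := by ring
    _ ≤ _ := mul_le_mul_of_nonneg_right h3 (h5.trans h4)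

/-- counting pairs of big points -/
lemma pairs {c₁ : ℝ} (hc : 0 < c₁) (U Q : Finset V) (hQ : Q ⊆ U) (ω : Finset (Bit V)) :
    (c₁ * M.U) ^ 2 * ind (∃ y y', M.big c₁ Q ω y ∧ M.big c₁ Q ω y' ∧
      ¬ conn M.G U (lev 3 ω) y y') ≤
    ∑ y ∈ Q, ∑ y' ∈ Q, ind (M.big c₁ Q ω y ∧ M.big c₁ Q ω y' ∧ ¬ conn M.G U (lev 3 ω) y y') := by
  rw [mul_comm]
  refine ind_mul_le (sum_nonneg fun _ _ => sum_nonneg fun _ _ => ind_nonneg _) ?_
  rintro ⟨y, y', h1, h2, h3⟩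
  have hl : lev 1 ω ⊆ lev 3 ω := lev_mono (by decide) subset_rfl
  have h0 : 0 ≤ c₁ * M.U := (mul_pos hc M.U_pos).le
  calc (c₁ * M.U) ^ 2 ≤ ((M.cv Q 1 ω y).card : ℝ) * (M.cv Q 1 ω y').card := by
        rw [sq]; exact mul_le_mul h1 h2 h0 (Nat.cast_nonneg _)
    _ = ∑ z ∈ M.cv Q 1 ω y, ∑ z' ∈ M.cv Q 1 ω y',
        ind (M.big c₁ Q ω z ∧ M.big c₁ Q ω z' ∧ ¬ conn M.G U (lev 3 ω) z z') := by
        rw [sum_congr rfl fun z hz => sum_congr rfl fun z' hz' => ind_pos ?_]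
        · simp
        · have a := mem_cl.1 hz
          have b := mem_cl.1 hz'
          refine ⟨?_, ?_, fun h => h3 (((a.mono hQ hl).trans h).trans (b.mono hQ hl).symm)⟩
          · unfold Core.big Core.cv
            rw [cl_eq_of_conn a]
            exact h1
          · unfold Core.big Core.cv
            rw [cl_eq_of_conn b]
            exact h2
    _ ≤ _ := (sum_le_sum fun _ _ => sum_le_sum_of_subset_of_nonneg cl_subset
        fun _ _ _ => ind_nonneg _).trans (sum_le_sum_of_subset_of_nonneg cl_subset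
          fun _ _ _ => sum_nonneg fun _ _ => ind_nonneg _)

/-- a bad pair seen from the explored set -/
lemma pair_le {c₁ : ℝ} {U Q A : Finset V} (hQ : Q ⊆ U) {ω : Finset (Bit V)} {y : V}
    (h1 : A ⊆ M.cv Q 1 ω y) (h2 : (A.card : ℝ) < c₁ * M.U → A = M.cv Q 1 ω y) (y' : V) :
    ind (M.big c₁ Q ω y ∧ M.big c₁ Q ω y' ∧ ¬ conn M.G U (lev 3 ω) y y') ≤
      ind (c₁ * M.U ≤ (A.card : ℝ)) * Fa M c₁ U Q A y' ω := by
  unfold Fa
  rw [← ind_and, ← ind_and]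
  refine ind_mono fun ⟨a, b, c⟩ => ⟨?_, ?_, fun u hu v hv ha hb => c ?_⟩
  · by_contra h
    have h3 := h2 (not_le.1 h)
    rw [h3] at h
    exact h a
  · have hl : lev 1 ω ⊆ lev 3 ω := lev_mono (by decide) subset_rfl
    unfold Core.big Core.cv
    rw [cl_eq_sdiff ((cl_disjoint fun h => c (h.symm.mono hQ hl)).mono_right h1)]
    exact b
  · have h3 := (mem_cl.1 (h1 hu)).mono hQ (lev_mono (i' := 3) (by decide) subset_rfl)
    have h4 := (mem_cl.1 hv).mono sdiff_subset (lev_mono (i' := 3) (by decide) subset_rfl)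
    exact (h3.tail h4.right ha (mem_lev.2 ⟨3, le_rfl, hb⟩) h3.right).trans h4.symm

end G2

open G2 in
theorem st_G2 (hXB : St_XB) (hBIG : St_BIG) (hTA : St_TA) (hTC : St_TC) : St_G2 := by
  intro K κ₁ c₁ hκ hc hc1
  obtain ⟨η, hη, hTC⟩ := hTC K κ₁ c₁ hκ hc hc1
  obtain ⟨Cκ, hCκ, hTA⟩ := hTA K κ₁ hκ
  obtain ⟨M₀, M₁, cA, CA, lA, hM₀, hM₁, hcA, hCA, hTA⟩ := hTA η Cκ hη (by linarith)
  obtain ⟨θ, cT, CT, lT, hθ, hθ1, hcT, hCT, hTC⟩ := hTC M₀ M₁ Cκ hM₀ hM₁ (by linarith)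
  obtain ⟨CB, lB, hCB, hBIG⟩ := hBIG K κ₁ hκ
  refine ⟨min cA (cT * (3 / 8)) * c₁, (K.C * CA * (K.C * CB) + K.C * CB * CT) / c₁ ^ 2,
    max (max lA lT) (max lB (3 / c₁)), by positivity, ?_⟩
  intro V _ _ M q hq hq2 hq3 hl hN U Q hU hLB
  simp only [max_le_iff] at hl hN
  have hπ := hq.prob
  have hQ := hLB.1
  have hKC : 0 < K.C := by linarith [K.hC]
  have hl2 : 0 < M.l ^ 2 := pow_pos M.l_pos 2
  have hl4 : 0 < M.l ^ 4 := pow_pos M.l_pos 4
  have hUp := M.U_pos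
  have hN3 : 3 ≤ c₁ * M.N := by
    have := hN.2.2
    rw [div_le_iff₀ hc] at this
    linarith
  have hk : c₁ * M.U = c₁ * M.N * M.l ^ 4 := by unfold Core.U; ring
  have hk3 : 3 * M.l ^ 4 ≤ c₁ * M.U := by
    rw [hk]; exact mul_le_mul_of_nonneg_right hN3 hl4.le
  have hk1 : M.l ^ 4 ≤ c₁ * M.U := by linarith
  have hkU : c₁ * M.U ≤ M.U := mul_le_of_le_one_left hUp.le hc1
  have hcard : (Q.card : ℝ) ≤ K.C * (M.U * M.l ^ 2) := by
    rw [← M.Vol_eq]
    exact le_trans (Nat.cast_le.2 (card_le_card hQ)) hU.card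
  have hsum : ∀ (f : V → ℝ) (B : ℝ), 0 ≤ B → (∀ y, f y ≤ B / M.l ^ 2) →
      ∑ y ∈ Q, f y ≤ K.C * B * M.U := fun f B hB h => by
    have h1 := sum_le_card_nsmul Q f _ fun y _ => h y
    rw [nsmul_eq_mul] at h1
    refine h1.trans ((mul_le_mul_of_nonneg_right hcard (by positivity)).trans (le_of_eq ?_))
    have := M.l_pos.ne'
    field_simp
  set E := Real.exp (-(min cA (cT * (3 / 8)) * c₁ * M.N)) with hE
  have hE0 : 0 < E := Real.exp_pos _
  have hcN : 0 ≤ c₁ * M.N := by linarith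
  let S := blk1 M hU hQ
  -- the bound given the explored set
  have hgiven : ∀ A : Finset V, A ⊆ Q →
      ind (c₁ * M.U ≤ (A.card : ℝ)) * ∑ y' ∈ Q, PL q (Fa M c₁ U Q A y') ≤
        K.C * CB * M.U * ind (¬ S.Typ Cκ Cκ M₀ M₁ η (c₁ * M.U) A) +
          CT * M.U * E * ind (c₁ * M.U ≤ (A.card : ℝ)) := fun A hA => by
    have p1 : 0 ≤ K.C * CB * M.U * ind (¬ S.Typ Cκ Cκ M₀ M₁ η (c₁ * M.U) A) :=
      mul_nonneg (by positivity) (ind_nonneg _)
    have p2 : 0 ≤ CT * M.U * E * ind (c₁ * M.U ≤ (A.card : ℝ)) :=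
      mul_nonneg (by positivity) (ind_nonneg _)
    refine ind_mul_le (add_nonneg p1 p2) fun hAk => ?_
    by_cases hT : S.Typ Cκ Cκ M₀ M₁ η (c₁ * M.U) A
    · obtain ⟨h1, a, h2, h3⟩ := hT
      have h4 : (A.card : ℝ) ≤ Cκ * M.U :=
        h1.trans (mul_le_mul_of_nonneg_left hkU (by linarith))
      have h5 : (A.card : ℝ) ≤
          (flt A fun y => ((A ∩ S.U4 (S.blk y)).card : ℝ) ≤ Cκ * M.U).card :=
        Nat.cast_le.2 (card_le_card fun y hy => mem_flt.2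
          ⟨hy, le_trans (Nat.cast_le.2 (card_le_card inter_subset_left)) h4⟩)
      rw [Fintype.sum_unique] at h3
      have h6 : 3 / 8 * (c₁ * M.U) ≤ ((a default).card : ℝ) := by linarith
      rcases h2 default with h7 | ⟨-, h7, -⟩
      · rw [h7, card_empty, Nat.cast_zero] at h6
        linarith
      have h8 := (hTC V M q hq hq2 hl.1.2 hN.1.2 U Q A (a default) hU hLB h7 (h7.1.trans hA)
        (le_trans (Nat.cast_le.2 (card_le_card h7.1)) h4)).1 (by linarith)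
      have h9 : Real.exp (-(cT * (a default).card / M.l ^ 4)) ≤ E := by
        refine Real.exp_le_exp.2 (neg_le_neg ?_)
        rw [le_div_iff₀ hl4]
        calc min cA (cT * (3 / 8)) * c₁ * M.N * M.l ^ 4
            = min cA (cT * (3 / 8)) * (c₁ * M.U) := by rw [hk]; ring
          _ ≤ cT * (3 / 8) * (c₁ * M.U) :=
            mul_le_mul_of_nonneg_right (min_le_right _ _) (by linarith)
          _ = cT * (3 / 8 * (c₁ * M.U)) := by ring
          _ ≤ _ := mul_le_mul_of_nonneg_left h6 hcT.le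
      rw [ind_pos hAk, mul_one]
      have h10 := (sum_le_sum fun y' (_ : y' ∈ Q) =>
        PL_Fa M hq.2.1 hq3 hθ hθ1 c₁ U Q A y').trans h8
      have h11 : CT * M.U * Real.exp (-(cT * (a default).card / M.l ^ 4)) ≤ CT * M.U * E :=
        mul_le_mul_of_nonneg_left h9 (by positivity)
      linarith
    · rw [ind_pos hT, mul_one]
      have h1 := hsum (fun y' => PL q (Fa M c₁ U Q A y')) CB hCB.le fun y' =>
        le_trans (PE_mono hπ fun ω => (mul_le_of_le_one_right (ind_nonneg _) (ind_le_one _)).trans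
          (ind_mono fun h => hk1.trans h)) (hBIG V M 1 q hq hl.2.1 (Q \ A) y').1
      linarith
  have hk0 : 0 < c₁ * M.U := mul_pos hc hUp
  -- the bound for one starting point
  have hone : ∀ y, PL q (fun ω => ∑ y' ∈ Q,
      ind (M.big c₁ Q ω y ∧ M.big c₁ Q ω y' ∧ ¬ conn M.G U (lev 3 ω) y y')) ≤
      (K.C * CB * M.U * (CA * E) + CT * M.U * E * CB) / M.l ^ 2 := fun y => by
    have hX := hXB V M.G K.Δ M.deg Q 1 y (c₁ * M.U) hk0
    have h1 := PE_stop (fun ω => xw M.G Q 1 y (c₁ * M.U) ω)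
      (fun A => {b | b.1 ∈ touch A ∧ b.2 ≤ 1})
      (fun ω ω' h => congrArg Wof ((hX ω).2.2.2.1 ω' fun b h1 h2 => h b ⟨h1, h2⟩))
      (fun A ω => ind (c₁ * M.U ≤ (A.card : ℝ)) * ∑ y' ∈ Q, Fa M c₁ U Q A y' ω)
      (fun ω₀ ω ω' h => congrArg₂ (· * ·) rfl (sum_congr rfl fun y' _ => dep_Fa M c₁ U Q _ y' ω ω' h))
      univ fun b : Bit V => q b.2
    have h2 := hTA V M Unit Q S 1 q hq hl.1.1 y (c₁ * M.U) hk1
    have h3 : Real.exp (-(cA * (c₁ * M.U) / M.l ^ 4)) ≤ E := by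
      refine Real.exp_le_exp.2 (neg_le_neg ?_)
      rw [le_div_iff₀ hl4]
      calc min cA (cT * (3 / 8)) * c₁ * M.N * M.l ^ 4
          = min cA (cT * (3 / 8)) * (c₁ * M.U) := by rw [hk]; ring
        _ ≤ _ := mul_le_mul_of_nonneg_right (min_le_left _ _) hk0.le
    have h4 : PL q (fun ω => ind (c₁ * M.U ≤ ((xw M.G Q 1 y (c₁ * M.U) ω).card : ℝ))) ≤
        CB / M.l ^ 2 :=
      le_trans (PE_mono hπ fun ω => ind_mono fun h => (hk1.trans h).trans
        (Nat.cast_le.2 (card_le_card (hX ω).1))) (hBIG V M 1 q hq hl.2.1 Q y).1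
    have h5 := h2.trans (mul_le_mul_of_nonneg_left h3 (by positivity))
    refine le_trans (PE_mono hπ fun ω => ?_) (h1.le.trans (le_trans (PE_mono hπ
      (g := fun ω => K.C * CB * M.U *
        ind (¬ S.Typ Cκ Cκ M₀ M₁ η (c₁ * M.U) (xw M.G Q 1 y (c₁ * M.U) ω)) +
        CT * M.U * E * ind (c₁ * M.U ≤ ((xw M.G Q 1 y (c₁ * M.U) ω).card : ℝ)))
      fun ω => ?_) ?_))
    · rw [mul_sum]
      exact sum_le_sum fun y' _ => pair_le M hQ (hX ω).1 (hX ω).2.1 y'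
    · rw [PE_mul_left, PE_sum]
      exact hgiven _ ((hX ω).1.trans cl_subset)
    · rw [PE_add, PE_mul_left, PE_mul_left]
      refine (add_le_add (mul_le_mul_of_nonneg_left h5 (by positivity))
        (mul_le_mul_of_nonneg_left h4 (by positivity))).trans (le_of_eq ?_)
      ring
  have h1 := hsum _ _ (by positivity) hone
  have h2 := PE_mono (E := univ) hπ (pairs M hc U Q hQ)
  rw [PE_mul_left, PE_sum] at h2
  have h3 := h2.trans h1
  rw [← le_div_iff₀' (by positivity)] at h3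
  refine h3.trans (le_of_eq ?_)
  field_simp

end Pool.Agent.TPC
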