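import Pool.Agent.Lib.TPC.BlueG
import Pool.Agent.Lib.TPC.ZBasic

/-! The block grid of the torus. -/

open Finset

set_option linter.unusedSectionVars false

namespace Pool.Agent.TPC

namespace Grid

/-- the ceiling of `β n / m` -/
def cz (n m : ℕ) (β : ℤ) : ℤ := (β * n + m - 1) / m

def zctr {d : ℕ} (n m : ℕ) (β : Zd d) : Zd d := fun i => cz n m (β i)

theorem div_bd (a : ℤ) {k : ℕ} (hk : 0 < k) : a / k * k ≤ a ∧ a < a / k * k + k := by
  have h : (0 : ℤ) < k := by exact_mod_cast hk
  have h1 := Int.emod_add_ediv_mul a k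
  have h2 := Int.emod_nonneg a h.ne'
  have h3 := Int.emod_lt_of_pos a h
  constructor <;> linarith

theorem cz_bd (n : ℕ) {m : ℕ} (hm : 0 < m) (β : ℤ) :
    β * n ≤ cz n m β * m ∧ cz n m β * m < β * n + m := by
  have := div_bd (β * n + m - 1) hm
  unfold cz
  constructor <;> linarith [this.1, this.2]

theorem cz_add (n : ℕ) {m : ℕ} (hm : 0 < m) (β k : ℤ) :
    cz n m (β + m * k) = cz n m β + n * k := by
  have h : (m : ℤ) ≠ 0 := by exact_mod_cast hm.ne'
  unfold cz
  rw [show (β + m * k) * n + m - 1 = β * n + m - 1 + n * k * m by ring, Int.add_mul_ediv_right _ _ h]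

theorem fz_add {n : ℕ} (m : ℕ) (hn : 0 < n) (x k : ℤ) :
    (x + n * k) * m / n = x * m / n + m * k := by
  have h : (n : ℤ) ≠ 0 := by exact_mod_cast hn.ne'
  rw [show (x + n * k) * m = x * m + m * k * n by ring, Int.add_mul_ediv_right _ _ h]

variable {d n m : ℕ} [NeZero n] [NeZero m]

theorem ctr_proj (β : Zd d) : tctr n (proj m β) = proj n (zctr n m β) := by
  funext i
  have hm : 0 < m := NeZero.pos m
  have e1 : ((((β i : ZMod m).val * n + m - 1) / m : ℕ) : ℤ) = cz n m (β i % m) := by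
    unfold cz
    rw [Int.natCast_div, Nat.cast_sub (by omega), Nat.cast_add, Nat.cast_mul, ZMod.val_intCast,
      Nat.cast_one]
  have e2 : cz n m (β i) = cz n m (β i % m) + n * (β i / m) := by
    rw [← cz_add n hm, Int.emod_add_mul_ediv]
  simp only [tctr, proj, zctr]
  rw [e2, ← e1, Int.cast_add, Int.cast_mul, Int.cast_natCast, Int.cast_natCast, ZMod.natCast_self,
    zero_mul, add_zero]

theorem blk_proj (x : Zd d) : tblk m (proj n x) = proj m (zblk n m x) := by
  funext i
  have hn : 0 < n := NeZero.pos n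
  have e1 : (((x i : ZMod n).val * m / n : ℕ) : ℤ) = x i % n * m / n := by
    rw [Int.natCast_div, Nat.cast_mul, ZMod.val_intCast]
  have e2 : x i * m / n = x i % n * m / n + m * (x i / n) := by
    rw [← fz_add m hn, Int.emod_add_mul_ediv]
  simp only [tblk, proj, zblk]
  rw [e2, ← e1, Int.cast_add, Int.cast_mul, Int.cast_natCast, Int.cast_natCast, ZMod.natCast_self,
    zero_mul, add_zero]

theorem blk_ctr (h : m ≤ n) (β : Zd d) : zblk n m (zctr n m β) = β := by
  funext i
  have hn : 0 < n := NeZero.pos n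
  have hn' : (0 : ℤ) < n := by exact_mod_cast hn
  have h' : (m : ℤ) ≤ n := by exact_mod_cast h
  have a := cz_bd n (NeZero.pos m) (β i)
  have b := div_bd (cz n m (β i) * m) hn
  simp only [zblk, zctr]
  have c1 : cz n m (β i) * m / n < β i + 1 := lt_of_mul_lt_mul_right (by linarith [a.2, b.1]) hn'.le
  have c2 : β i < cz n m (β i) * m / n + 1 := lt_of_mul_lt_mul_right (by linarith [a.1, b.2]) hn'.le
  omega

/-- real form of the rounding error -/
theorem cz_real (β : ℤ) :
    (n : ℝ) / m * β ≤ cz n m β ∧ (cz n m β : ℝ) ≤ (n : ℝ) / m * β + 1 := by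
  have hm : (0 : ℝ) < m := by exact_mod_cast NeZero.pos m
  have a := cz_bd n (NeZero.pos m) β
  have a1 : (β : ℝ) * n ≤ cz n m β * m := by exact_mod_cast a.1
  have a2 : (cz n m β : ℝ) * m < β * n + m := by exact_mod_cast a.2
  have e : (n : ℝ) / m * β * m = β * n := by field_simp
  constructor
  · exact le_of_mul_le_mul_right (by linarith) hm
  · exact le_of_mul_le_mul_right (by linarith) hm

theorem ctr_le (β β' : Zd d) : zd (zctr n m β) (zctr n m β') ≤ (n : ℝ) / m * zd β β' + 1 := by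
  have hq : (0 : ℝ) ≤ (n : ℝ) / m := by positivity
  rw [zd_le_iff (add_nonneg (mul_nonneg hq (zd_nonneg _ _)) zero_le_one)]
  intro i
  have a := cz_real (n := n) (m := m) (β i)
  have b := cz_real (n := n) (m := m) (β' i)
  have c := abs_le.1 (abs_le_zd β β' i)
  have c1 := mul_le_mul_of_nonneg_left c.1 hq
  have c2 := mul_le_mul_of_nonneg_left c.2 hq
  simp only [zctr]
  rw [abs_le]
  constructor <;> linarith [a.1, a.2, b.1, b.2]

theorem le_ctr (β β' : Zd d) : (n : ℝ) / m * zd β β' ≤ zd (zctr n m β) (zctr n m β') + 1 := by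
  have hq : (0 : ℝ) < (n : ℝ) / m :=
    div_pos (by exact_mod_cast NeZero.pos n) (by exact_mod_cast NeZero.pos m)
  rw [← le_div_iff₀' hq, zd_le_iff (div_nonneg (add_nonneg (zd_nonneg _ _) zero_le_one) hq.le)]
  intro i
  have a := cz_real (n := n) (m := m) (β i)
  have b := cz_real (n := n) (m := m) (β' i)
  have c := abs_le.1 (abs_le_zd (zctr n m β) (zctr n m β') i)
  simp only [zctr] at c
  rw [le_div_iff₀' hq, ← abs_of_pos hq, ← abs_mul, abs_le]
  constructor <;> linarith [a.1, a.2, b.1, b.2, c.1, c.2]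

theorem near (x : Zd d) : zd (zctr n m (zblk n m x)) x ≤ (n : ℝ) / m := by
  have hm : (0 : ℝ) < m := by exact_mod_cast NeZero.pos m
  have hm' : (0 : ℤ) < m := by exact_mod_cast NeZero.pos m
  rw [zd_le_iff (by positivity)]
  intro i
  have a := cz_bd n (NeZero.pos m) (x i * m / n)
  have b := div_bd (x i * m) (NeZero.pos n)
  have c1 : cz n m (x i * m / n) < x i + 1 := lt_of_mul_lt_mul_right (by linarith [a.2, b.1]) hm'.le
  have c2 : (x i - cz n m (x i * m / n)) * m ≤ n := by linarith [a.1, b.2]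
  have d1 : (cz n m (x i * m / n) : ℝ) ≤ x i := by exact_mod_cast Int.lt_add_one_iff.1 c1
  have d2 : ((x i : ℝ) - cz n m (x i * m / n)) * m ≤ n := by exact_mod_cast c2
  simp only [zctr, zblk]
  rw [abs_sub_comm, abs_of_nonneg (by linarith), le_div_iff₀ hm]
  exact d2

theorem blk_step (h : m ≤ n) {x y : ℤ} (hxy : x ≤ y + 1) : x * m / n ≤ y * m / n + 1 := by
  have hn' : (0 : ℤ) < n := by exact_mod_cast NeZero.pos n
  have h' : (m : ℤ) ≤ n := by exact_mod_cast h
  have a := div_bd (x * m) (NeZero.pos n)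
  have b := div_bd (y * m) (NeZero.pos n)
  have c : x * m ≤ (y + 1) * m := mul_le_mul_of_nonneg_right hxy (Int.natCast_nonneg m)
  have e : x * m / n < y * m / n + 2 := lt_of_mul_lt_mul_right (by linarith [a.1, b.2]) hn'.le
  omega

end Grid

open Grid in
theorem st_GRID : St_GRID := by
  intro d n m _ _ h
  refine ⟨fun y => ?_, fun b => ?_, fun b b' => ⟨?_, ?_⟩, blk_proj, fun x y hxy => ?_⟩
  · obtain ⟨x, rfl⟩ := proj_surj y
    rw [blk_proj, ctr_proj]
    exact (td_proj_le _ _).trans (near x)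
  · obtain ⟨β, rfl⟩ := proj_surj b
    rw [ctr_proj, blk_proj, blk_ctr h]
  · obtain ⟨β, rfl⟩ := proj_surj b
    obtain ⟨β', rfl, e⟩ := exists_lift β b'
    rw [ctr_proj, ctr_proj, ← e]
    exact (td_proj_le _ _).trans (ctr_le β β')
  · obtain ⟨β, rfl⟩ := proj_surj b
    obtain ⟨β0, rfl⟩ := proj_surj b'
    rw [ctr_proj, ctr_proj]
    obtain ⟨x', hx, e⟩ := exists_lift (zctr n m β) (proj n (zctr n m β0))
    obtain ⟨k, rfl⟩ := proj_eq_iff'.1 hx.symm
    have e1 : zctr n m β0 + (n : ℤ) • k = zctr n m (β0 + (m : ℤ) • k) := by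
      funext i
      simp only [zctr, Pi.add_apply, Pi.smul_apply, smul_eq_mul]
      rw [cz_add n (NeZero.pos m)]
    have e2 : proj m β0 = proj m (β0 + (m : ℤ) • k) := proj_eq_iff'.2 ⟨k, rfl⟩
    rw [← e, e1, e2]
    exact (mul_le_mul_of_nonneg_left (td_proj_le _ _) (by positivity)).trans (le_ctr _ _)
  · have h1 : zd x y ≤ (1 : ℕ) := by rwa [Nat.cast_one]
    have h2 : zd (zblk n m x) (zblk n m y) ≤ (1 : ℕ) := zd_le_nat.2 fun i => by
      have a := zd_le_nat.1 h1 i
      have b1 := blk_step h (x := x i) (y := y i) (by omega)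
      have b2 := blk_step h (x := y i) (y := x i) (by omega)
      simp only [zblk]
      omega
    rwa [Nat.cast_one] at h2

end Pool.Agent.TPC
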