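import Pool.Agent.Lib.TPC.BlueC

/-! Cluster tails at all levels and moments of base clusters. -/

open Finset

namespace Pool.Agent.TPC

namespace KER

lemma one_sub_sum_le {ι : Type} (s : Finset ι) {q : ι → ℝ} (hq : ∀ j, 0 ≤ q j ∧ q j ≤ 1) :
    1 - ∑ j ∈ s, q j ≤ ∏ j ∈ s, (1 - q j) := by
  classical
  induction s using Finset.induction_on with
  | empty => simp
  | insert a s ha ih =>
    rw [Finset.sum_insert ha, Finset.prod_insert ha]
    have h1 : 0 ≤ ∑ j ∈ s, q j := Finset.sum_nonneg fun j _ => (hq j).1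
    have := hq a
    nlinarith [mul_le_mul_of_nonneg_left ih (sub_nonneg.2 this.2), mul_nonneg this.1 h1]

lemma plev_bd {q : Fin 5 → ℝ} {i : Fin 5} {x : ℝ} (hq : ∀ j, 0 ≤ q j ∧ q j ≤ 1) (hx : 0 ≤ x)
    (h : ∀ j, 0 < j → j ≤ i → q j ≤ x) : q 0 ≤ plev q i ∧ plev q i ≤ q 0 + 4 * x := by
  have h0 : (0 : Fin 5) ∈ Finset.Iic i := Finset.mem_Iic.2 (Fin.zero_le _)
  constructor
  · rw [plev, ← Finset.mul_prod_erase _ _ h0]
    have : ∏ j ∈ (Finset.Iic i).erase 0, (1 - q j) ≤ 1 :=
      Finset.prod_le_one (fun j _ => sub_nonneg.2 (hq j).2) fun j _ => sub_le_self _ (hq j).1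
    nlinarith [mul_le_mul_of_nonneg_left this (sub_nonneg.2 (hq 0).2)]
  · have h1 := one_sub_sum_le (Finset.Iic i) hq
    rw [← Finset.add_sum_erase _ _ h0] at h1
    have h2 := Finset.sum_le_card_nsmul ((Finset.Iic i).erase 0) q x fun j hj =>
      h j (Fin.pos_iff_ne_zero.2 (Finset.mem_erase.1 hj).1)
        (Finset.mem_Iic.1 (Finset.mem_erase.1 hj).2)
    have h3 : ((Finset.Iic i).erase 0).card ≤ 4 := by
      rw [Finset.card_erase_of_mem h0]
      have := Finset.card_le_univ (Finset.Iic i)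
      rw [Fintype.card_fin] at this
      omega
    have h4 : (((Finset.Iic i).erase 0).card : ℝ) * x ≤ 4 * x :=
      mul_le_mul_of_nonneg_right (by exact_mod_cast h3) hx
    rw [nsmul_eq_mul] at h2
    rw [plev]
    linarith

end KER

open KER in
theorem st_BIG (h : St_E1) : St_BIG := by
  intro K κ hκ
  have a0 := K.hα
  have c1 := K.hC
  refine ⟨2 * (K.C + K.Δ * K.C * (32 * κ ^ 2 / K.α ^ 2)), 8 * κ / K.α, by positivity, ?_⟩
  intro V _ _ M i q hq hl D x
  have l0 := M.l_pos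
  have l1 := M.l1
  have l4 : 0 < M.l ^ 4 := by positivity
  obtain ⟨b1, b2⟩ := plev_bd hq.2.1 (by positivity) hq.2.2
  rw [hq.1] at b1 b2
  have p0 := M.p0
  have p1 := M.p1
  have b3 : 4 * (κ / M.l ^ 2) ≤ K.α / 2 := by
    rw [div_le_iff₀ a0] at hl
    rw [← mul_div_assoc, div_le_iff₀ (by positivity)]
    nlinarith [mul_le_mul_of_nonneg_left l1 (mul_pos l0 a0).le]
  set P := plev q i
  have key : PL q (fun ω => min ((M.cv D i ω x).card : ℝ) (M.l ^ 4) / M.l ^ 4) ≤
      2 * (K.C + K.Δ * K.C * (32 * κ ^ 2 / K.α ^ 2)) / M.l ^ 2 := by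
    have e := PL_cl q i M.G D x fun C => min (C.card : ℝ) (M.l ^ 4) / M.l ^ 4
    refine e.trans_le ((h V M.G K.Δ M.deg D x P M.p (by linarith) (by linarith) (by linarith)
      (by linarith) _ fun C => ⟨by positivity, (div_le_one l4).2 (min_le_right _ _)⟩).trans ?_)
    have e1 : EC M.G (fun _ => M.p) D x (fun C => min (C.card : ℝ) (M.l ^ 4) / M.l ^ 4) ≤
        K.C / M.l ^ 2 := by
      have h1 := (EC_mono_dom (G := M.G) (x := x) M.prob (Finset.subset_univ D)
        (F := fun C => min (C.card : ℝ) (M.l ^ 4)) fun _ _ hab =>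
          min_le_min_right _ (Nat.cast_le.2 (Finset.card_le_card hab))).trans
        (M.d2 x (M.l ^ 4) (one_le_pow₀ l1))
      rw [show √(M.l ^ 4) = M.l ^ 2 by
        rw [show M.l ^ 4 = (M.l ^ 2) ^ 2 by ring, Real.sqrt_sq (by positivity)]] at h1
      unfold EC at h1 ⊢
      rw [PE_div, div_le_iff₀ l4]
      refine h1.trans (le_of_eq ?_)
      field_simp
    have e2 : (P - M.p) ^ 2 / (P * (1 - P)) ≤ (4 * (κ / M.l ^ 2)) ^ 2 / (K.α * (K.α / 2)) := by
      have : 0 ≤ P - M.p := by linarith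
      gcongr <;> linarith
    have e3 := M.chi_le' D x
    calc _ ≤ 2 * (K.C / M.l ^ 2 + K.Δ * (K.C * M.l ^ 2) *
          ((4 * (κ / M.l ^ 2)) ^ 2 / (K.α * (K.α / 2)))) := by
          have : 0 < P * (1 - P) := mul_pos (by linarith) (by linarith)
          gcongr
      _ = _ := by field_simp; ring
  refine ⟨le_trans (PE_mono hq.prob fun ω => ind_le_of (by positivity) fun h1 => ?_) key,
    fun k hk => ?_⟩
  · rw [min_eq_right h1, div_self l4.ne']
  · have k0 : 0 ≤ k := l4.le.trans hk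
    have := mul_le_mul_of_nonneg_left key k0
    rw [PL, ← PE_mul_left] at this
    refine (PE_mono hq.prob fun ω => ?_).trans (this.trans (le_of_eq (by ring)))
    rcases le_total ((M.cv D i ω x).card : ℝ) (M.l ^ 4) with h1 | h1
    · rw [min_eq_left h1, ← mul_div_assoc, le_div_iff₀ l4, min_eq_left (h1.trans hk), mul_comm]
      gcongr
    · rw [min_eq_right h1, div_self l4.ne', mul_one]
      exact min_le_right _ _

theorem st_KER (hET : St_ET) (hET2 : St_ET2) : St_KER := by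
  intro K
  have c1 := K.hC
  have s1 := K.hCs 1
  have c0 : 0 < K.C := by linarith
  have s0 : 0 < K.Cs 1 := by linarith
  obtain ⟨Λ, hΛ⟩ : ∃ Λ, Λ = K.C ^ 3 + 1 + K.Cs 1 + K.Cs 1 * K.C + K.C := ⟨_, rfl⟩
  have q3 : 0 < K.C ^ 3 := by positivity
  have q4 : 0 < K.Cs 1 * K.C := by positivity
  have L1 : K.C ≤ Λ := by linarith
  have L2 : K.C ^ 3 ≤ Λ := by linarith
  have L3 : K.C * K.C ≤ Λ := by nlinarith
  have L0 : 0 < Λ := by linarith
  refine ⟨Λ, L1, ?_⟩
  intro V _ _ M
  have l0 := M.l_pos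
  have hχ : ∀ (D : Finset V) v, ∑ u ∈ D, tau M.G (fun _ => M.p) D v u ≤ K.C * M.l ^ 2 :=
    fun D v => M.chi_le' D v
  have t0 : ∀ (D : Finset V) v u, 0 ≤ tau M.G (fun _ => M.p) D v u := fun D v u => M.tb_nonneg D v u
  have tg : ∀ (D : Finset V) v u, tau M.G (fun _ => M.p) D v u ≤ M.g v u :=
    fun D v u => M.tb_le D v u
  refine ⟨fun D z t ht h1 => ?_, fun D z => ⟨?_, ?_⟩, fun U hU => ⟨fun z => ?_, fun a => ?_⟩⟩
  · have := hET V M.G _ M.prob D (fun _ => t) (fun _ => 2 * t * Λ * M.l ^ 2) (fun _ => ht)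
      (fun _ => by positivity) (fun v _ => ?_) z
    · simpa only [Core.EB, Finset.sum_const, nsmul_eq_mul, mul_comm t] using this
    · rw [← Finset.sum_mul]
      calc _ ≤ Λ * M.l ^ 2 * (t + t * (2 * t * Λ ^ 2 * M.l ^ 4)) := by
            refine mul_le_mul ((hχ D v).trans (by gcongr)) (le_of_eq (by ring)) (by positivity)
              (by positivity)
        _ ≤ Λ * M.l ^ 2 * (t + t * 1) := by gcongr
        _ = _ := by ring
  · have := hET2 V M.G _ M.prob D z (fun _ _ => 1) fun _ _ => zero_le_one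
    simp only [Finset.sum_const, nsmul_eq_mul, mul_one, ← sq] at this
    refine this.trans ?_
    calc _ ≤ ∑ v ∈ D, tau M.G (fun _ => M.p) D z v * (K.C * M.l ^ 2 * (K.C * M.l ^ 2)) := by
          refine Finset.sum_le_sum fun v _ => mul_le_mul_of_nonneg_left ?_ (t0 _ _ _)
          rw [← Finset.sum_mul_sum]
          exact mul_le_mul (hχ D v) (hχ D v) (Finset.sum_nonneg fun _ _ => t0 _ _ _)
            (by positivity)
      _ ≤ K.C * M.l ^ 2 * (K.C * M.l ^ 2 * (K.C * M.l ^ 2)) := by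
          rw [← Finset.sum_mul]
          exact mul_le_mul_of_nonneg_right (hχ D z) (by positivity)
      _ = K.C ^ 3 * M.l ^ 6 := by ring
      _ ≤ _ := by gcongr
  · refine (hET2 V M.G _ M.prob D z M.g M.g_nonneg).trans ?_
    calc _ ≤ ∑ v ∈ D, tau M.G (fun _ => M.p) D z v * K.C := by
          refine Finset.sum_le_sum fun v _ => mul_le_mul_of_nonneg_left ?_ (t0 _ _ _)
          refine le_trans ?_ (M.tri v)
          have g0 : ∀ y u, 0 ≤ M.g v y * M.g v u * M.g y u := fun y u =>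
            mul_nonneg (mul_nonneg (M.g_nonneg _ _) (M.g_nonneg _ _)) (M.g_nonneg _ _)
          refine le_trans (Finset.sum_le_sum fun y _ => ?_)
            (Finset.sum_le_sum_of_subset_of_nonneg (Finset.subset_univ D) fun y _ _ =>
              Finset.sum_nonneg fun u _ => g0 y u)
          refine le_trans (Finset.sum_le_sum fun u _ => ?_)
            (Finset.sum_le_sum_of_subset_of_nonneg (Finset.subset_univ D) fun u _ _ => g0 y u)
          exact mul_le_mul_of_nonneg_right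
            (mul_le_mul (tg _ _ _) (tg _ _ _) (t0 _ _ _) (M.g_nonneg _ _)) (M.g_nonneg _ _)
      _ ≤ K.C * M.l ^ 2 * K.C := by
          rw [← Finset.sum_mul]
          exact mul_le_mul_of_nonneg_right (hχ D z) c0.le
      _ = K.C * K.C * M.l ^ 2 := by ring
      _ ≤ _ := by gcongr
  · exact (hU.pot_le z).trans (mul_le_mul_of_nonneg_right (by linarith) (by positivity))
  have fa : 0 ≤ M.f0 * a.card := mul_nonneg M.f0_pos.le (Nat.cast_nonneg _)
  have A : ∀ v, ∑ u ∈ U, M.g v u * M.Wp a u ≤ Λ * M.l ^ 2 * M.Wp a v := by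
    intro v
    have e : ∑ u ∈ U, M.g v u * M.Wp a u =
        ∑ b ∈ a, ∑ u ∈ U, M.g v u * M.g u b + M.pot U v * (M.f0 * a.card) := by
      simp only [Core.Wp, Core.pot, mul_add, Finset.sum_add_distrib, Finset.mul_sum,
        Finset.sum_mul]
      rw [Finset.sum_comm]
    have h1 : ∑ b ∈ a, ∑ u ∈ U, M.g v u * M.g u b ≤
        M.l ^ 2 * (M.pot a v + K.Cs 1 * (M.f0 * a.card)) := by
      refine (Finset.sum_le_sum fun b _ => hU.r2 1 one_pos v b).trans (le_of_eq ?_)
      rw [← Finset.mul_sum, Finset.sum_add_distrib, Finset.sum_const, nsmul_eq_mul]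
      simp only [one_mul, Core.pot]
      ring
    have h2 := mul_le_mul_of_nonneg_right (hU.pot_le v) fa
    have h3 := M.pot_nonneg a v
    rw [e, Core.Wp]
    calc _ ≤ M.l ^ 2 * (1 * M.pot a v + (K.Cs 1 + (1 + K.Cs 1 * K.C)) * (M.f0 * a.card)) := by
          linarith
      _ ≤ M.l ^ 2 * (Λ * M.pot a v + Λ * (M.f0 * a.card)) := by gcongr <;> linarith
      _ = _ := by ring
  refine ⟨A, ?_, fun S t hS ht h1 D hD z => ?_⟩
  · have h1 : ∑ b ∈ a, M.pot U b ≤ a.card * ((1 + K.Cs 1 * K.C) * M.l ^ 2) := by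
      have := Finset.sum_le_card_nsmul a (M.pot U) _ fun b _ => hU.pot_le b
      rwa [nsmul_eq_mul] at this
    have h2 := mul_le_mul_of_nonneg_right hU.card fa
    have h3 : K.C * M.Vol * (M.f0 * a.card) = K.C * M.l ^ 2 * a.card := by
      rw [← M.f0_mul_Vol]; ring
    simp only [Core.Wp]
    rw [Finset.sum_add_distrib, M.sum_pot, Finset.sum_const, nsmul_eq_mul]
    calc _ ≤ (1 + K.Cs 1 * K.C + K.C) * M.l ^ 2 * a.card := by linarith
      _ ≤ _ := by gcongr; linarith
  · have w0 := M.Wp_nonneg a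
    have := hET V M.G _ M.prob D (fun y => t * M.pot a y) (fun y => 2 * t * Λ * M.l ^ 2 * M.Wp a y)
      (fun y => mul_nonneg ht (M.pot_nonneg _ _)) (fun y => mul_nonneg (by positivity) (w0 y))
      (fun v _ => ?_) z
    · simpa only [Core.EB, Finset.mul_sum] using this
    · have h2 : ∀ u, t * M.pot a u + (2 * t * Λ * M.l ^ 2 * M.Wp a u) ^ 2 / 2 ≤
          2 * t * M.Wp a u := by
        intro u
        have := w0 u
        have h3 : M.pot a u ≤ M.Wp a u := le_add_of_nonneg_right fa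
        calc _ = t * M.pot a u + t * M.Wp a u * (2 * t * Λ ^ 2 * M.l ^ 4 * M.Wp a u) := by ring
          _ ≤ t * M.Wp a u + t * M.Wp a u * (2 * t * Λ ^ 2 * M.l ^ 4 * S) := by
              gcongr; exact hS u
          _ ≤ t * M.Wp a u + t * M.Wp a u * 1 := by gcongr
          _ = _ := by ring
      calc _ ≤ ∑ u ∈ D, M.g v u * (2 * t * M.Wp a u) := Finset.sum_le_sum fun u _ =>
            mul_le_mul (tg _ _ _) (h2 u)
              (add_nonneg (mul_nonneg ht (M.pot_nonneg _ _)) (by positivity)) (M.g_nonneg _ _)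
        _ ≤ ∑ u ∈ U, M.g v u * (2 * t * M.Wp a u) :=
            Finset.sum_le_sum_of_subset_of_nonneg hD fun u _ _ =>
              mul_nonneg (M.g_nonneg _ _) (mul_nonneg (by positivity) (w0 u))
        _ = 2 * t * ∑ u ∈ U, M.g v u * M.Wp a u := by
            rw [Finset.mul_sum]; exact Finset.sum_congr rfl fun u _ => by ring
        _ ≤ 2 * t * (Λ * M.l ^ 2 * M.Wp a v) := mul_le_mul_of_nonneg_left (A v) (by positivity)
        _ = _ := by ring

end Pool.Agent.TPC
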