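import Pool.Agent.Lib.TPC.BlueG
import Pool.Agent.Lib.TPC.ZBasic

/-! Blocks LBc and LEV: independent trials in disjoint cubes; the levels of sprinkling. -/

open Finset

set_option linter.unusedSectionVars false

namespace Pool.Agent.TPC

open Pool.Agent.Lib.MP_81a99a_pr (lattice torus)

namespace LBc

variable {d n : ℕ} [NeZero n]

/-- the chart of the cube centred at `c` -/
def ch (n : ℕ) (c : Zd d) (x : Zd d) : Tor d n := proj n (x + c)

/-- the cube of the torus -/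
noncomputable def cb (n : ℕ) (c : Zd d) (L : ℕ) : Finset (Tor d n) := (box 0 L).image (ch n c)

/-- an isolated large cluster in the cube centred at `c` -/
def Iso (n : ℕ) (c : Zd d) (L : ℕ) (k : ℝ) (ω : Finset (Sym2 (Tor d n))) : Prop :=
  ∃ y, k ≤ ((cl (torus d n) (cb n c L) ω y).card : ℝ) ∧
    ∀ z ∈ cl (torus d n) (cb n c L) ω y, ∃ u, ch n c u = z ∧ zd 0 u < L

lemma locIso_ch (c : Zd d) {L : ℕ} (h : 2 * L + 2 ≤ n) :
    LocIso (lattice d) (torus d n) (ch n c) (box 0 L) := by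
  have h1 := locIso_proj (n := n) c h
  have hm : ∀ x ∈ box (0 : Zd d) L, x + c ∈ box c L := fun x hx => by
    rw [mem_box] at hx ⊢
    have := zd_add_right 0 x c
    rw [zero_add] at this
    rwa [this]
  refine ⟨fun x hx y hy e => ?_, fun x hx y hy => ?_⟩
  · exact add_right_cancel (h1.1 (hm x hx) (hm y hy) e)
  · exact (h1.2 _ (hm x hx) _ (hm y hy)).trans ((aut_add c).adj x y)

lemma dep_iso (c : Zd d) (L : ℕ) (k : ℝ) :
    DepOn (fun ω => Iso n c L k ω) (edges (torus d n) (cb n c L) : Set (Sym2 (Tor d n))) := by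
  intro ω ω' h
  have e : ∀ y, cl (torus d n) (cb n c L) ω y = cl (torus d n) (cb n c L) ω' y := fun y =>
    dep_cl (torus d n) (cb n c L) y ω ω' h
  simp only [Iso, e]

lemma pIso_le {q k : ℝ} (h0 : 0 ≤ q) (h1 : q ≤ 1) (hk : 0 < k) (c : Zd d) {L : ℕ}
    (h : 2 * L + 2 ≤ n) :
    pIso d q k L ≤ PE univ (fun _ => q) fun ω => ind (Iso n c L k ω) := by
  have hL := locIso_ch c h
  rw [PE_restrict (subset_univ (edges (torus d n) (cb n c L))) ((dep_iso c L k).comp ind)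
    (fun e he _ => he), cb, hL.PE_eq]
  refine PE_mono' (Prob.const h0 h1) fun ω hω => ind_mono ?_
  rintro ⟨y, hy, hz⟩
  have hne : (cl (lattice d) (box 0 L) ω y).Nonempty := by
    rw [← card_pos]
    have : (0 : ℝ) < (cl (lattice d) (box 0 L) ω y).card := by linarith
    exact_mod_cast this
  obtain ⟨z, hz0⟩ := hne
  have hyb : y ∈ box (0 : Zd d) L := (mem_cl.1 hz0).left
  have e := hL.cl_image subset_rfl hω hyb
  refine ⟨ch n c y, ?_, ?_⟩
  · rw [cb, e, card_image_of_injOn (hL.1.mono (coe_subset.2 cl_subset))]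
    exact hy
  · rw [cb, e]
    intro z' hz'
    obtain ⟨u, hu, rfl⟩ := mem_image.1 hz'
    exact ⟨u, rfl, hz u hu⟩

lemma iso_spec {c : Zd d} {L : ℕ} {k : ℝ} (hk : 0 < k) {ω : Finset (Sym2 (Tor d n))}
    (h : Iso n c L k ω) : ∃ y ∈ cb n c L, k ≤ ((cl (torus d n) univ ω y).card : ℝ) ∧
      cl (torus d n) univ ω y ⊆ cb n c L := by
  obtain ⟨y, hy, hz⟩ := h
  have hne : (cl (torus d n) (cb n c L) ω y).Nonempty := by
    rw [← card_pos]
    have : (0 : ℝ) < (cl (torus d n) (cb n c L) ω y).card := by linarith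
    exact_mod_cast this
  obtain ⟨z, hz0⟩ := hne
  have hyb : y ∈ cb n c L := (mem_cl.1 hz0).left
  refine ⟨y, hyb, hy.trans (Nat.cast_le.2 (card_le_card (cl_mono (subset_univ _) subset_rfl))),
    subset_trans (cl_subset_of (T := cl (torus d n) (cb n c L) ω y) (self_mem_cl hyb)
      fun a ha b _ hab he => ?_) cl_subset⟩
  obtain ⟨u, rfl, hu⟩ := hz a ha
  obtain ⟨b', hb1, rfl⟩ := lift_step hab
  have hb : proj n b' ∈ cb n c L := by
    refine mem_image.2 ⟨b' - c, ?_, by rw [ch, sub_add_cancel]⟩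
    rw [mem_box]
    have h1 := zd_tri 0 u (b' - c)
    have h2 : zd u (b' - c) = 1 := by
      rw [← zd_add_right u (b' - c) c, sub_add_cancel]; exact zd_adj hb1
    obtain ⟨j, hj⟩ := zd_nat 0 u
    rw [hj] at hu h1
    have h3 : j + 1 ≤ L := by exact_mod_cast hu
    have h4 : (j : ℝ) + 1 ≤ L := by exact_mod_cast h3
    linarith
  exact mem_cl.2 ((mem_cl.1 ha).tail hb hab he (mem_cl.1 ha).right)

/-- centre of cube number `j` -/
def ctr (i₀ : Fin d) (L j : ℕ) : Zd d := Pi.single i₀ ((j : ℤ) * (2 * L + 2))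

lemma cb_disj (i₀ : Fin d) {L T : ℕ} (h : (2 * L + 2) * T ≤ n) {i j : ℕ} (hi : i < T) (hj : j < T)
    (hij : i ≠ j) : Disjoint (cb n (ctr i₀ L i) L) (cb n (ctr i₀ L j) L) := by
  wlog hlt : i < j generalizing i j
  · exact (this hj hi hij.symm (by omega)).symm
  rw [disjoint_left]
  intro z h1 h2
  obtain ⟨u, hu, rfl⟩ := mem_image.1 h1
  obtain ⟨v, hv, e⟩ := mem_image.1 h2
  have hd := proj_eq_iff.1 e.symm i₀
  have hu' := mem_box'.1 hu i₀
  have hv' := mem_box'.1 hv i₀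
  simp only [ctr, Pi.add_apply, Pi.single_eq_same, Pi.zero_apply] at hd hu' hv'
  obtain ⟨s, rfl⟩ : ∃ s, j = i + 1 + s := ⟨j - i - 1, by omega⟩
  obtain ⟨r, rfl⟩ : ∃ r, T = i + 1 + s + 1 + r := ⟨T - (i + 1 + s + 1), by omega⟩
  have h' : ((2 * L + 2) * (i + 1 + s + 1 + r) : ℤ) ≤ n := by exact_mod_cast h
  have p1 : (0 : ℤ) ≤ (s : ℤ) * L := by positivity
  have p2 : (0 : ℤ) ≤ (i : ℤ) * L := by positivity
  have p3 : (0 : ℤ) ≤ (r : ℤ) * L := by positivity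
  have hpos : 0 < v i₀ + ((i + 1 + s : ℕ) : ℤ) * (2 * L + 2) - (u i₀ + (i : ℤ) * (2 * L + 2)) := by
    push_cast; nlinarith
  have := Int.le_of_dvd hpos hd
  push_cast at this
  nlinarith

lemma none_le {q k ρ : ℝ} (h0 : 0 ≤ q) (h1 : q ≤ 1) (hk : 0 < k) (i₀ : Fin d) {L T : ℕ}
    (h : (2 * L + 2) * T ≤ n) (hρ : ρ ≤ pIso d q k L) (s : Finset ℕ) (hs : ∀ j ∈ s, j < T) :
    PE univ (fun _ => q) (fun ω => ∏ j ∈ s, ind (¬ Iso n (ctr i₀ L j) L k ω)) ≤
      Real.exp (-(ρ * s.card)) := by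
  rw [PE_prod s _ (fun j => (edges (torus d n) (cb n (ctr i₀ L j) L) : Set (Sym2 (Tor d n))))
    (fun j _ => (dep_iso _ L k).comp fun P => ind (¬ P))
    (fun i hi j hj hij => disjoint_coe.2 (edges_disjoint (cb_disj i₀ h (hs i hi) (hs j hj) hij)))]
  have : Real.exp (-(ρ * s.card)) = ∏ _j ∈ s, Real.exp (-ρ) := by
    rw [prod_const, ← Real.exp_nat_mul]; congr 1; ring
  rw [this]
  refine prod_le_prod (fun j _ => PE_ind_nonneg (Prob.const h0 h1) _) fun j hj => ?_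
  have hn : 2 * L + 2 ≤ n := by
    have := hs j hj
    exact le_trans (Nat.le_mul_of_pos_right _ (by omega)) h
  rw [PE_ind_not]
  have h2 := pIso_le (n := n) h0 h1 hk (ctr i₀ L j) hn
  have h3 := Real.add_one_le_exp (-ρ)
  linarith

end LBc

open LBc in
theorem st_LBc : St_LBc := by
  intro d n _ hd q k ρ L t h0 h1 hk hn hρ
  have hπ : Prob (fun _ : Sym2 (Tor d n) => q) := Prob.const h0 h1
  have a := none_le h0 h1 hk ⟨0, hd⟩ hn hρ (range t) fun j hj => by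
    have := mem_range.1 hj; omega
  have b := none_le h0 h1 hk ⟨0, hd⟩ hn hρ (Ico t (2 * t)) fun j hj => (mem_Ico.1 hj).2
  rw [card_range] at a
  rw [Nat.card_Ico, show 2 * t - t = t by omega] at b
  have key : PE univ (fun _ => q) (fun ω : Finset (Sym2 (Tor d n)) =>
      1 - ∏ j ∈ range t, ind (¬ Iso n (ctr ⟨0, hd⟩ L j) L k ω) -
        ∏ j ∈ Ico t (2 * t), ind (¬ Iso n (ctr ⟨0, hd⟩ L j) L k ω)) ≤ pTwo d n q k := by
    refine PE_mono hπ fun ω => ?_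
    have n1 : 0 ≤ ∏ j ∈ range t, ind (¬ Iso n (ctr ⟨0, hd⟩ L j) L k ω) :=
      prod_nonneg fun _ _ => ind_nonneg _
    have n2 : 0 ≤ ∏ j ∈ Ico t (2 * t), ind (¬ Iso n (ctr ⟨0, hd⟩ L j) L k ω) :=
      prod_nonneg fun _ _ => ind_nonneg _
    have n3 := ind_nonneg (Two (torus d n) k ω)
    by_cases c1 : ∀ j ∈ range t, ¬ Iso n (ctr ⟨0, hd⟩ L j) L k ω
    · rw [prod_eq_one fun j hj => ind_pos (c1 j hj)]; linarith
    by_cases c2 : ∀ j ∈ Ico t (2 * t), ¬ Iso n (ctr ⟨0, hd⟩ L j) L k ω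
    · rw [prod_eq_one (s := Ico t (2 * t)) fun j hj => ind_pos (c2 j hj)]; linarith
    push Not at c1 c2
    obtain ⟨i, hi, ci⟩ := c1
    obtain ⟨j, hj, cj⟩ := c2
    obtain ⟨x, _, hx1, hx2⟩ := iso_spec hk ci
    obtain ⟨y, hy, hy1, _⟩ := iso_spec hk cj
    have hi' := mem_range.1 hi
    have hj' := mem_Ico.1 hj
    have hdis := cb_disj (n := n) ⟨0, hd⟩ hn (i := i) (j := j) (by omega) hj'.2 (by omega)
    rw [ind_pos (P := Two (torus d n) k ω)
      ⟨x, y, fun hc => disjoint_left.1 hdis (hx2 (mem_cl.2 hc)) hy, hx1, hy1⟩]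
    linarith
  rw [PE_sub, PE_sub, PE_const] at key
  linarith

theorem st_LEV : St_LEV := by
  intro p κ₁ hp0 hp1 hκ
  have ha : 0 < 1 - p := by linarith
  refine ⟨(κ₁ + 3) / p, 2 * (κ₁ + 4) / (1 - p), 1 + 1 / p + 2 * (κ₁ + 3) / (1 - p), ?_, ?_, ?_, ?_⟩
  · rw [le_div_iff₀ hp0]; linarith
  · rw [le_div_iff₀ ha]; nlinarith
  · rw [le_div_iff₀ ha]; nlinarith
  intro l hl
  have t1 : 0 < 1 / p := by positivity
  have t2 : 0 < 2 * (κ₁ + 3) / (1 - p) := by positivity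
  have hl1 : 1 ≤ l := by linarith
  have hl2 : l ≤ l ^ 2 := by nlinarith
  have hl3 : 0 < l ^ 2 := by positivity
  set ε := 1 / l ^ 2 with hε
  have e0 : 0 < ε := by positivity
  have e1 : ε ≤ p := by
    rw [hε, div_le_iff₀ hl3]
    have : 1 / p ≤ l ^ 2 := by linarith
    rw [div_le_iff₀ hp0] at this
    linarith
  have e2 : 2 * (κ₁ + 3) * ε ≤ 1 - p := by
    rw [hε, mul_one_div, div_le_iff₀ hl3]
    have : 2 * (κ₁ + 3) / (1 - p) ≤ l ^ 2 := by linarith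
    rw [div_le_iff₀ ha] at this
    linarith
  have e3 : 0 ≤ κ₁ * ε := by positivity
  have e4 : κ₁ * ε + 3 * ε ≤ 1 / 2 := by nlinarith
  set P := (1 - (p - ε)) * (1 - κ₁ * ε) * (1 - ε) * (1 - ε) with hP
  set R := (1 - κ₁ * ε) * (1 - ε) * (1 - ε) with hR
  have r1 : R ≤ 1 := by
    rw [hR]
    exact mul_le_one₀ (mul_le_one₀ (by linarith) (by linarith) (by linarith)) (by linarith)
      (by linarith)
  have r2 : 1 - (κ₁ * ε + 2 * ε) ≤ R := by
    have s1 : 1 - (κ₁ * ε + ε) ≤ (1 - κ₁ * ε) * (1 - ε) := by nlinarith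
    have s2 : (1 - (κ₁ * ε + ε)) * (1 - ε) ≤ R :=
      mul_le_mul_of_nonneg_right s1 (by linarith)
    nlinarith
  have hPR : P = (1 - p + ε) * R := by rw [hP, hR]; ring
  have p1 : P ≤ 1 - p + ε := by rw [hPR]; nlinarith
  have p2 : (1 - p) - (κ₁ * ε + 2 * ε) ≤ P := by rw [hPR]; nlinarith
  have p3 : (1 - p) / 2 ≤ P := by rw [hPR]; nlinarith
  have p0 : 0 < P := by linarith
  have q4l : ε ≤ 1 - ((1 - p) - (κ₁ + 3) * ε) / P := by
    rw [le_sub_comm, div_le_iff₀ p0]; nlinarith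
  have q4u : 1 - ((1 - p) - (κ₁ + 3) * ε) / P ≤ 2 * (κ₁ + 4) / (1 - p) / l ^ 2 := by
    have s1 : 1 - ((1 - p) - (κ₁ + 3) * ε) / P = (P - ((1 - p) - (κ₁ + 3) * ε)) / P := by
      field_simp
    have s2 : 2 * (κ₁ + 4) / (1 - p) / l ^ 2 = (κ₁ + 4) * ε / ((1 - p) / 2) := by
      rw [hε]; field_simp
    rw [s1, s2]
    exact div_le_div₀ (by positivity) (by linarith) (by positivity) p3
  have q41 : 1 - ((1 - p) - (κ₁ + 3) * ε) / P ≤ 1 := by
    have : 0 ≤ ((1 - p) - (κ₁ + 3) * ε) / P := div_nonneg (by nlinarith) p0.le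
    linarith
  have hk : κ₁ / l ^ 2 = κ₁ * ε := by rw [hε, mul_one_div]
  refine ⟨![p - ε, κ₁ * ε, ε, ε, 1 - ((1 - p) - (κ₁ + 3) * ε) / P], ?_, rfl, hk.symm, rfl, rfl,
    q4l, q4u, ?_⟩
  · intro j
    fin_cases j
    · exact ⟨by change 0 ≤ p - ε; linarith, by change p - ε ≤ 1; linarith⟩
    · exact ⟨e3, by change κ₁ * ε ≤ 1; linarith⟩
    · exact ⟨e0.le, by change ε ≤ 1; linarith⟩
    · exact ⟨e0.le, by change ε ≤ 1; linarith⟩
    · exact ⟨e0.le.trans q4l, q41⟩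
  · rw [Fin.prod_univ_five]
    change 1 - (1 - (p - ε)) * (1 - κ₁ * ε) * (1 - ε) * (1 - ε) *
      (1 - (1 - ((1 - p) - (κ₁ + 3) * ε) / P)) = _
    rw [← hP, sub_sub_cancel, mul_div_cancel₀ _ p0.ne', hε]
    field_simp
    ring

end Pool.Agent.TPC
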