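import Pool.Agent.Lib.TPC.BlueC

/-! The main estimate of the abstract core. -/

open Finset

set_option linter.unusedSectionVars false

namespace Pool.Agent.TPC

namespace Main

variable {K : Kc} {V : Type} [Fintype V] [DecidableEq V] {M : Core K V}
  {B : Type} [Fintype B] [DecidableEq B]

/-- number of points of `A` in the block `b` -/
noncomputable def cnt (S : Sys M B) (A : Finset V) (b : B) : ℝ :=
  ((flt A fun z => S.blk z = b).card : ℝ)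

lemma card_le_sum_cnt (S : Sys M B) {A H : Finset V} (hH : H ⊆ A) (T : Finset B)
    (hT : ∀ y ∈ H, S.blk y ∈ T) : (H.card : ℝ) ≤ ∑ b ∈ T, cnt S A b := by
  have h1 : H ⊆ T.biUnion fun b => flt A fun z => S.blk z = b := fun y hy =>
    Finset.mem_biUnion.2 ⟨_, hT y hy, mem_flt.2 ⟨hH hy, rfl⟩⟩
  have h2 := (Finset.card_le_card h1).trans Finset.card_biUnion_le
  unfold cnt
  exact_mod_cast h2

lemma sum_cnt_le (S : Sys M B) {A P : Finset V} (T : Finset B)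
    (hT : ∀ y ∈ A, S.blk y ∈ T → y ∈ P) : ∑ b ∈ T, cnt S A b ≤ P.card := by
  have h1 : (T.biUnion fun b => flt A fun z => S.blk z = b) ⊆ P := by
    intro y hy
    obtain ⟨b, hb, h⟩ := Finset.mem_biUnion.1 hy
    exact hT y (mem_flt.1 h).1 ((mem_flt.1 h).2 ▸ hb)
  have h2 := Finset.card_le_card h1
  rw [Finset.card_biUnion] at h2
  · unfold cnt
    exact_mod_cast h2
  · intro b _ b' _ hbb
    exact Finset.disjoint_left.2 fun y h3 h4 =>
      hbb ((mem_flt.1 h3).2.symm.trans (mem_flt.1 h4).2)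

/-- most points are light when the overfull blocks carry little mass -/
lemma light_ge (S : Sys M B) (A : Finset V) {u x : ℝ} (hu : 0 ≤ u)
    (h : ((flt A fun y => u < (flt A fun z => S.blk z = S.blk y).card).card : ℝ) ≤ x) :
    (A.card : ℝ) - (K.Ξ + 1) * x ≤
      (flt A fun y => ((A ∩ S.U4 (S.blk y)).card : ℝ) ≤ K.Ξ * u).card := by
  set P := flt A fun y => u < (flt A fun z => S.blk z = S.blk y).card with hP
  set L := flt A fun y => ((A ∩ S.U4 (S.blk y)).card : ℝ) ≤ K.Ξ * u with hL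
  set Ov := flt univ fun b => u < cnt S A b with hOv
  set Bad := flt univ fun b => cnt S A b ≤ u ∧ ∃ b' ∈ Ov, b' ∈ S.nb b with hBad
  set H := flt A fun y => S.blk y ∈ Bad with hH
  have hΞ : (0 : ℝ) ≤ K.Ξ := Nat.cast_nonneg _
  have c1 : A ⊆ L ∪ (P ∪ H) := by
    intro y hy
    by_cases h1 : y ∈ L
    · exact Finset.mem_union_left _ h1
    refine Finset.mem_union_right _ ?_
    by_cases h2 : y ∈ P
    · exact Finset.mem_union_left _ h2
    refine Finset.mem_union_right _ (mem_flt.2 ⟨hy, mem_flt.2 ⟨Finset.mem_univ _, ?_, ?_⟩⟩)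
    · exact not_lt.1 fun h3 => h2 (mem_flt.2 ⟨hy, h3⟩)
    · by_contra h3
      refine h1 (mem_flt.2 ⟨hy, ?_⟩)
      have a1 := card_le_sum_cnt S (A := A) (H := A ∩ S.U4 (S.blk y)) Finset.inter_subset_left
        (S.nb (S.blk y)) fun z hz => S.nb4 _ z (Finset.mem_inter.1 hz).2
      have a2 : ∑ b ∈ S.nb (S.blk y), cnt S A b ≤ (S.nb (S.blk y)).card • u :=
        Finset.sum_le_card_nsmul _ _ _ fun b hb => not_lt.1 fun h4 =>
          h3 ⟨b, mem_flt.2 ⟨Finset.mem_univ _, h4⟩, hb⟩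
      rw [nsmul_eq_mul] at a2
      have a3 : ((S.nb (S.blk y)).card : ℝ) ≤ K.Ξ := by exact_mod_cast S.nbc _
      exact a1.trans (a2.trans (mul_le_mul_of_nonneg_right a3 hu))
  have c2 : (A.card : ℝ) ≤ L.card + (P.card + H.card) := by
    have := (Finset.card_le_card c1).trans ((Finset.card_union_le _ _).trans
      (Nat.add_le_add_left (Finset.card_union_le P H) _))
    exact_mod_cast this
  have c3 : (H.card : ℝ) ≤ Bad.card * u := by
    have a1 := card_le_sum_cnt S (A := A) (H := H) (flt_subset _ _) Bad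
      fun z hz => (mem_flt.1 hz).2
    have a2 : ∑ b ∈ Bad, cnt S A b ≤ Bad.card • u :=
      Finset.sum_le_card_nsmul _ _ _ fun b hb => (mem_flt.1 hb).2.1
    rw [nsmul_eq_mul] at a2
    exact a1.trans a2
  have c4 : (Bad.card : ℝ) ≤ Ov.card * K.Ξ := by
    have a1 : Bad ⊆ Ov.biUnion fun b' => flt univ fun b => b' ∈ S.nb b := by
      intro b hb
      obtain ⟨b', h1, h2⟩ := (mem_flt.1 hb).2.2
      exact Finset.mem_biUnion.2 ⟨b', h1, mem_flt.2 ⟨Finset.mem_univ _, h2⟩⟩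
    have a2 := (Finset.card_le_card a1).trans (Finset.card_biUnion_le_card_mul _ _ K.Ξ
      fun b' _ => S.nbc' b' _ fun b hb => (mem_flt.1 hb).2)
    exact_mod_cast a2
  have c5 : (Ov.card : ℝ) * u ≤ P.card := by
    have a1 := sum_cnt_le S (A := A) (P := P) Ov fun y hy h1 => mem_flt.2 ⟨hy, (mem_flt.1 h1).2⟩
    have a2 : Ov.card • u ≤ ∑ b ∈ Ov, cnt S A b :=
      Finset.card_nsmul_le_sum _ _ _ fun b hb => (mem_flt.1 hb).2.le
    rw [nsmul_eq_mul] at a2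
    exact a2.trans a1
  have c6 := mul_le_mul_of_nonneg_right c4 hu
  have c7 := mul_le_mul_of_nonneg_left (c5.trans h) hΞ
  nlinarith

lemma big_mono {c₁ : ℝ} {Q Q' : Finset V} {ω : Finset (Bit V)} {y : V} (hQ : Q ⊆ Q')
    (h : M.big c₁ Q ω y) : M.big c₁ Q' ω y :=
  le_trans h (Nat.cast_le.2 (Finset.card_le_card (cl_mono hQ subset_rfl)))

lemma big_sdiff {c₁ : ℝ} {Q A : Finset V} {ω : Finset (Bit V)} {y : V}
    (h : M.big c₁ Q ω y) (hA : Disjoint A (M.cv Q 1 ω y)) : M.big c₁ (Q \ A) ω y := by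
  refine le_trans h (Nat.cast_le.2 (Finset.card_le_card fun v hv => ?_))
  refine mem_cl.2 ((conn_cl (mem_cl.1 hv)).mono (fun w hw => ?_) subset_rfl)
  exact Finset.mem_sdiff.2 ⟨cl_subset hw, Finset.disjoint_right.1 hA hw⟩

lemma cv_subset_GG (S : Sys M B) {c₁ : ℝ} {O : Finset B} {ω : Finset (Bit V)} {b : B} {y : V}
    (hb : b ∈ O) (h : M.big c₁ (S.K2 b) ω y) (D : Finset V) {i : Fin 5} (hi : i ≤ 3) :
    M.cv D i ω y ⊆ S.GG c₁ O ω := fun _ hv =>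
  mem_flt.2 ⟨Finset.mem_univ _, b, hb, y, h,
    (mem_cl.1 hv).mono (Finset.subset_univ _) (lev_mono hi subset_rfl)⟩

lemma sum_ec_le (G : SimpleGraph V) (A Γ : Finset V) (T : Finset B) (U : B → Finset V)
    (hU : ∀ b ∈ T, ∀ b' ∈ T, b ≠ b' → Disjoint (U b) (U b')) :
    ∑ b ∈ T, ec G (A ∩ U b) Γ ≤ ec G A Γ := by
  unfold ec
  rw [← Finset.sum_biUnion]
  · refine Finset.sum_le_sum_of_subset_of_nonneg (fun y hy => ?_)
      fun _ _ _ => Finset.sum_nonneg fun _ _ => ind_nonneg _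
    obtain ⟨b, _, h⟩ := Finset.mem_biUnion.1 hy
    exact (Finset.mem_inter.1 h).1
  · intro b hb b' hb' hbb
    exact (hU b hb b' hb' hbb).mono Finset.inter_subset_right Finset.inter_subset_right

lemma dep_GG (S : Sys M B) (c₁ : ℝ) {O : Finset (Bit V) → Finset B}
    (hO : DepOn O {b | b.2 ≤ 3}) : DepOn (fun ω => S.GG c₁ (O ω) ω) {b | b.2 ≤ 3} := by
  intro ω ω' h
  have h1 : ∀ i : Fin 5, i ≤ 3 → lev i ω = lev i ω' := by
    intro i hi
    ext e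
    rw [mem_lev, mem_lev]
    exact exists_congr fun j => and_congr_right fun hj => h (e, j) (hj.trans hi)
  simp only [Sys.GG, Core.big, Core.cv, hO ω ω' h, h1 1 (by decide), h1 3 le_rfl]

/-- the product of the tests over the best colour class -/
lemma key (S : Sys M B) {q : Fin 5 → ℝ} (hq : ∀ j, 0 ≤ q j ∧ q j ≤ 1)
    {c₁ η M₀ M₁ CY MY θ c m₀ k Cκ : ℝ} (hθ : 0 < θ) (hc : 0 < c) (hCY : 0 < CY)
    (hT : ∀ U Q A a : Finset V, M.Small U → M.LB U Q →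
      M.Ready A U M₀ M₁ η a → a ⊆ Q → (a.card : ℝ) ≤ K.Ξ * CY * M.U →
      (m₀ * M.l ^ 4 ≤ a.card ∨ M.YA q MY Q) →
      ∃ φ : Finset (Bit V) → ℝ, DepOn φ {b | b.1 ∈ edges M.G (U \ A) ∧ b.2 ≤ 2} ∧
        PL q φ ≤ Real.exp (-(c * a.card / M.l ^ 4)) ∧
        (∀ ω, Real.exp (-(θ * max (a.card / M.l ^ 4) 1)) ≤ φ ω) ∧
        ∀ ω, (∃ y, M.big c₁ (Q \ A) ω y) → ∃ y, M.big c₁ (Q \ A) ω y ∧
          Real.exp (-(θ * ec M.G (A ∩ U) (M.cv (U \ A) 2 ω y) / M.l ^ 2)) ≤ φ ω)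
    (hY : (∀ b, M.YA q MY (S.K2 b)) ∨ ((∀ b b' : B, b = b') ∧ 4 * K.Ξ * m₀ * M.l ^ 4 ≤ k))
    (A : Finset V) (hk : k ≤ A.card) (hA : S.toBlk.Typ Cκ (K.Ξ * CY) M₀ M₁ η k A)
    (hov : ((flt A fun y => CY * M.U < (flt A fun z => S.blk z = S.blk y).card).card : ℝ) ≤
      1 / (4 * (K.Ξ + 1)) * k) :
    ∃ Φ : Finset (Bit V) → ℝ, DepOn Φ {b | b.1 ∈ touch A}ᶜ ∧ (∀ ω, 0 ≤ Φ ω) ∧
      PL q Φ ≤ Real.exp (-(c * k / (4 * K.Ξ) / M.l ^ 4)) ∧
      ∀ ω (O : Finset B) (t n : ℝ), (∀ b ∈ O, ∃ y, M.big c₁ (S.K2 b) ω y) →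
        Disjoint A (S.GG c₁ O ω) → ec M.G A (S.GG c₁ O ω) ≤ t →
        ((flt (A.image S.blk) (· ∉ O)).card : ℝ) ≤ n →
        Real.exp (-(θ * t / M.l ^ 2 + θ * ((K.Ξ * CY + 1) * M.N) * n)) ≤ Φ ω := by
  classical
  obtain ⟨-, a, ha, hs⟩ := hA
  have hΞ : (1 : ℝ) ≤ K.Ξ := by exact_mod_cast K.hΞ
  have hl4 : 0 < M.l ^ 4 := pow_pos M.l_pos 4
  have hl2 : 0 < M.l ^ 2 := pow_pos M.l_pos 2
  have h1 := light_ge S A (mul_pos hCY M.U_pos).le hov
  have h2 : ((K.Ξ : ℝ) + 1) * (1 / (4 * (K.Ξ + 1)) * k) = k / 4 := by field_simp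
  rw [h2, ← mul_assoc] at h1
  have h3 : k / 4 ≤ ∑ b, ((a b).card : ℝ) := by linarith
  obtain ⟨co, -, hco⟩ := Finset.exists_le_sum_fiber_of_maps_to_of_nsmul_le_sum
    (s := univ) (t := univ) (f := S.col) (w := fun b => ((a b).card : ℝ)) (b := k / (4 * K.Ξ))
    (fun _ _ => Finset.mem_univ _) ⟨⟨0, K.hΞ⟩, Finset.mem_univ _⟩ (by
      rw [Finset.card_univ, Fintype.card_fin, nsmul_eq_mul]
      refine le_trans (le_of_eq ?_) h3
      field_simp)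
  set T := flt univ fun b => S.col b = co ∧ a b ≠ ∅ with hTd
  have h4 : k / (4 * K.Ξ) ≤ ∑ b ∈ T, ((a b).card : ℝ) := by
    refine hco.trans (le_of_eq (Finset.sum_subset (fun b hb => ?_) fun b hb hb' => ?_).symm)
    · exact Finset.mem_filter.2 ⟨Finset.mem_univ _, (mem_flt.1 hb).2.1⟩
    · have : a b = ∅ := by
        by_contra h5
        exact hb' (mem_flt.2 ⟨Finset.mem_univ _, (Finset.mem_filter.1 hb).2, h5⟩)
      rw [this]; simp
  have hd : ∀ b ∈ T, ∀ b' ∈ T, b ≠ b' → Disjoint (S.U2 b) (S.U2 b') := fun b hb b' hb' h =>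
    S.colD b b' h ((mem_flt.1 hb).2.1.trans (mem_flt.1 hb').2.1.symm)
  have haT : ∀ b ∈ T, M.Ready A (S.U2 b) M₀ M₁ η (a b) ∧ (∀ y ∈ a b, S.blk y = b) ∧
      ((a b).card : ℝ) ≤ K.Ξ * CY * M.U := by
    intro b hb
    obtain ⟨h5, h6, h7⟩ := (ha b).resolve_left (mem_flt.1 hb).2.2
    refine ⟨h6, h7, le_trans (Nat.cast_le.2 (Finset.card_le_card fun y hy => ?_)) h5⟩
    have h8 : y ∈ S.U2 b := h7 y hy ▸ S.mem2 y (Finset.mem_univ _)
    have h9 := S.s234 b y (Finset.mem_univ _) h8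
    exact Finset.mem_inter.2 ⟨h6.1 hy, h9.2 (h9.1 h8)⟩
  have hφ : ∀ b, ∃ φ : Finset (Bit V) → ℝ, b ∈ T →
      DepOn φ {e | e.1 ∈ edges M.G (S.U2 b \ A) ∧ e.2 ≤ 2} ∧
      PL q φ ≤ Real.exp (-(c * (a b).card / M.l ^ 4)) ∧
      (∀ ω, Real.exp (-(θ * max ((a b).card / M.l ^ 4) 1)) ≤ φ ω) ∧
      ∀ ω, (∃ y, M.big c₁ (S.K2 b \ A) ω y) → ∃ y, M.big c₁ (S.K2 b \ A) ω y ∧
        Real.exp (-(θ * ec M.G (A ∩ S.U2 b) (M.cv (S.U2 b \ A) 2 ω y) / M.l ^ 2)) ≤ φ ω := by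
    intro b
    by_cases hb : b ∈ T
    swap
    · exact ⟨fun _ => 0, fun h => absurd h hb⟩
    obtain ⟨h5, h6, h7⟩ := haT b hb
    obtain ⟨φ, hφ⟩ := hT (S.U2 b) (S.K2 b) A (a b) (S.sm b) (S.lb2 b) h5
      (fun y hy => h6 y hy ▸ S.memK y) h7 (by
        rcases hY with hY | ⟨hY, hk₀⟩
        · exact Or.inr (hY b)
        · left
          have h8 : T = {b} := Finset.eq_singleton_iff_unique_mem.2 ⟨hb, fun b' _ => hY b' b⟩
          rw [h8, Finset.sum_singleton, div_le_iff₀ (by positivity)] at h4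
          have h9 : 4 * K.Ξ * (m₀ * M.l ^ 4) ≤ 4 * K.Ξ * ((a b).card : ℝ) := by linarith
          exact le_of_mul_le_mul_left h9 (by positivity))
    exact ⟨φ, fun _ => hφ⟩
  choose φ hφ using hφ
  have hφ0 : ∀ b ∈ T, ∀ ω, 0 ≤ φ b ω := fun b hb ω =>
    (Real.exp_pos _).le.trans ((hφ b hb).2.2.1 ω)
  refine ⟨fun ω => ∏ b ∈ T, φ b ω, ?_, fun ω => Finset.prod_nonneg fun b hb => hφ0 b hb ω, ?_, ?_⟩
  · intro ω ω' h
    exact Finset.prod_congr rfl fun b hb => (hφ b hb).1 ω ω' fun e he =>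
      h e (edges_sdiff_not_touch he.1)
  · unfold PL
    rw [PE_prod T φ (fun b => {e | e.1 ∈ edges M.G (S.U2 b \ A) ∧ e.2 ≤ 2})
      (fun b hb => (hφ b hb).1) fun b hb b' hb' h => Set.disjoint_left.2 fun e h5 h6 =>
        Finset.disjoint_left.1 (edges_disjoint ((hd b hb b' hb' h).mono Finset.sdiff_subset
          Finset.sdiff_subset)) h5.1 h6.1]
    refine (Finset.prod_le_prod (fun b hb => PE_nonneg (prob_lev hq) (hφ0 b hb))
      fun b hb => (hφ b hb).2.1).trans ?_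
    rw [← Real.exp_sum, Real.exp_le_exp, Finset.sum_neg_distrib, neg_le_neg_iff,
      ← Finset.sum_div, ← Finset.mul_sum, mul_div_assoc c k]
    exact div_le_div_of_nonneg_right (mul_le_mul_of_nonneg_left h4 hc.le) hl4.le
  · intro ω O t n hO hdis ht hn
    have hw : 0 ≤ θ * ((K.Ξ * CY + 1) * M.N) := by have := M.N_pos; positivity
    have hb : ∀ b ∈ T, Real.exp (-(θ * ec M.G (A ∩ S.U2 b) (S.GG c₁ O ω) / M.l ^ 2 +
        θ * ((K.Ξ * CY + 1) * M.N) * ind (b ∉ O))) ≤ φ b ω := by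
      intro b hb
      have e0 : 0 ≤ θ * ec M.G (A ∩ S.U2 b) (S.GG c₁ O ω) / M.l ^ 2 :=
        div_nonneg (mul_nonneg hθ.le (ec_nonneg _ _)) hl2.le
      by_cases hbO : b ∈ O
      · obtain ⟨y, hy⟩ := hO b hbO
        obtain ⟨y', h5, h6⟩ := (hφ b hb).2.2.2 ω ⟨y, big_sdiff hy
          (hdis.mono_right (cv_subset_GG S hbO hy _ (by decide)))⟩
        refine le_trans ?_ h6
        rw [ind_neg (not_not.2 hbO), mul_zero, add_zero, Real.exp_le_exp, neg_le_neg_iff]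
        refine div_le_div_of_nonneg_right (mul_le_mul_of_nonneg_left (ec_mono subset_rfl ?_)
          hθ.le) hl2.le
        exact cv_subset_GG S hbO (big_mono Finset.sdiff_subset h5) _ (by decide)
      · refine le_trans ?_ ((hφ b hb).2.2.1 ω)
        rw [ind_pos hbO, mul_one, Real.exp_le_exp, neg_le_neg_iff]
        have h5 : ((a b).card : ℝ) / M.l ^ 4 ≤ K.Ξ * CY * M.N := by
          rw [div_le_iff₀ hl4, mul_assoc _ M.N]
          exact (haT b hb).2.2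
        have h6 : 0 ≤ K.Ξ * CY * M.N := by have := M.N_pos; positivity
        have h7 : max (((a b).card : ℝ) / M.l ^ 4) 1 ≤ (K.Ξ * CY + 1) * M.N :=
          max_le (by linarith [M.N1]) (by linarith [M.N1])
        linarith [mul_le_mul_of_nonneg_left h7 hθ.le]
    refine le_trans ?_ (Finset.prod_le_prod (fun _ _ => (Real.exp_pos _).le) hb)
    rw [← Real.exp_sum, Real.exp_le_exp, Finset.sum_neg_distrib, neg_le_neg_iff,
      Finset.sum_add_distrib, ← Finset.sum_div, ← Finset.mul_sum, ← Finset.mul_sum, ← card_flt]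
    refine add_le_add (div_le_div_of_nonneg_right (mul_le_mul_of_nonneg_left
      ((sum_ec_le _ _ _ _ _ hd).trans ht) hθ.le) hl2.le) (mul_le_mul_of_nonneg_left
      (le_trans (Nat.cast_le.2 (Finset.card_le_card fun b hb => ?_)) hn) hw)
    obtain ⟨h5, h6⟩ := mem_flt.1 hb
    obtain ⟨y, hy⟩ := Finset.nonempty_iff_ne_empty.2 (mem_flt.1 h5).2.2
    exact mem_flt.2 ⟨Finset.mem_image.2 ⟨y, (haT b h5).1.1 hy, (haT b h5).2.1 y hy⟩, h6⟩

end Main

open Main in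
theorem st_MAIN (hXB : St_XB) (hBIG : St_BIG) (hTA : St_TA) (hTEST : St_TEST) (hREV : St_REV) :
    St_MAIN := by
  intro K κ₁ c₁ κ hκ₁ hc₁ hc₁' hκ
  obtain ⟨Cκ, hCκ, hTA⟩ := hTA K κ hκ
  obtain ⟨η, hη, hTEST⟩ := hTEST K κ₁ c₁ hκ₁ hc₁ hc₁'
  obtain ⟨CB, lB, hCB, hBIG⟩ := hBIG K κ hκ
  refine ⟨Cκ, hCκ, fun CY MY hCY hMY => ?_⟩
  have hΞ : (1 : ℝ) ≤ K.Ξ := by exact_mod_cast K.hΞ
  have hMH : 0 < K.Ξ * CY := by positivity
  obtain ⟨M₀, M₁, cA, CA, lA, hM₀, hM₁, hcA, hCA, hTA⟩ := hTA η (K.Ξ * CY) hη hMH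
  obtain ⟨θ, c, m₀, lT, hθ, hc, hTEST⟩ := hTEST M₀ M₁ (K.Ξ * CY) MY hM₀ hM₁ hMH hMY
  refine ⟨c / (16 * K.Ξ) / (θ * (K.Ξ * CY + 1)), 1 / (4 * (K.Ξ + 1)),
    min cA (min (c / (16 * K.Ξ) / θ) (c / (8 * K.Ξ))), CA + CB + CB, 4 * K.Ξ * m₀,
    max lA (max lB lT), by positivity, by positivity, by positivity, by positivity, ?_⟩
  intro V _ _ M B _ _ S q hq1 hq4 hq2 hq4' hl hN O hO hOb k hk hY x
  have hq := hq4.2.1
  have hP := prob_lev (V := V) hq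
  have hl4 : 0 < M.l ^ 4 := pow_pos M.l_pos 4
  have hl2 : 0 < M.l ^ 2 := pow_pos M.l_pos 2
  have hk0 : 0 < k := hl4.trans_le hk
  have hN0 := M.N_pos
  have hXB := hXB V M.G K.Δ M.deg univ 4 x k hk0
  have hB := (hBIG V M 4 q hq4 (le_trans (le_max_left _ _) ((le_max_right _ _).trans hl))
    univ x).1
  have hB' : PL q (fun ω => ind (k ≤ (cl M.G univ (lev 4 ω) x).card)) ≤ CB / M.l ^ 2 :=
    le_trans (PE_ind_mono hP fun ω h => hk.trans h) hB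
  have hT := hTEST V M q hq1 hq2 (le_trans (le_max_right _ _) ((le_max_right _ _).trans hl))
    (le_trans (le_max_right _ _) ((le_max_right _ _).trans hN))
  set t : ℝ := c / (16 * K.Ξ) / θ * k / M.l ^ 2 with ht
  set Good : Finset V → Prop := fun A => k ≤ A.card ∧ S.toBlk.Typ Cκ (K.Ξ * CY) M₀ M₁ η k A ∧
    ((flt A fun y => CY * M.U < (flt A fun z => S.blk z = S.blk y).card).card : ℝ) ≤
      1 / (4 * (K.Ξ + 1)) * k with hGood
  have hΦ : ∀ A : Finset V, ∃ Φ : Finset (Bit V) → ℝ, DepOn Φ {b | b.1 ∈ touch A}ᶜ ∧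
      (∀ ω, 0 ≤ Φ ω) ∧
      PL q Φ ≤ ind (k ≤ A.card) * Real.exp (-(c * k / (4 * K.Ξ) / M.l ^ 4)) ∧
      (Good A → ∀ ω (O : Finset B) (t n : ℝ), (∀ b ∈ O, ∃ y, M.big c₁ (S.K2 b) ω y) →
        Disjoint A (S.GG c₁ O ω) → ec M.G A (S.GG c₁ O ω) ≤ t →
        ((flt (A.image S.blk) (· ∉ O)).card : ℝ) ≤ n →
        Real.exp (-(θ * t / M.l ^ 2 + θ * ((K.Ξ * CY + 1) * M.N) * n)) ≤ Φ ω) := by
    intro A
    by_cases hG : Good A
    · obtain ⟨Φ, h1, h2, h3, h4⟩ := key S hq hθ hc hCY hT hY A hG.1 hG.2.1 hG.2.2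
      exact ⟨Φ, h1, h2, by rwa [ind_pos hG.1, one_mul], fun _ => h4⟩
    · refine ⟨fun _ => 0, fun _ _ _ => rfl, fun _ => le_rfl, ?_, fun h => absurd h hG⟩
      exact (PE_const _ _ _).le.trans (mul_nonneg (ind_nonneg _) (Real.exp_pos _).le)
  choose Φ hΦ1 hΦ2 hΦ3 hΦ4 using hΦ
  have E3 : PL q (fun ω => Φ (xw M.G univ 4 x k ω) ω) ≤
      CB / M.l ^ 2 * Real.exp (-(c * k / (4 * K.Ξ) / M.l ^ 4)) := by
    unfold PL
    rw [PE_stop (fun ω => xw M.G univ 4 x k ω) (fun A => {b | b.1 ∈ touch A}) (fun ω ω' h => by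
      have := (hXB ω).2.2.2.1 ω' fun b hb _ => h b hb
      simp only [xw, this]) Φ fun ω => hΦ1 _]
    refine (PE_mono hP fun ω => hΦ3 _).trans ?_
    rw [PE_mul_right]
    refine mul_le_mul_of_nonneg_right (le_trans (PE_ind_mono hP fun ω h => ?_) hB')
      (Real.exp_pos _).le
    exact h.trans (Nat.cast_le.2 (Finset.card_le_card (hXB ω).1))
  have E1 := hTA V M B univ S.toBlk 4 q hq4 ((le_max_left _ _).trans hl) x k hk
  have E2 := hREV V M.G q hq (fun ω => S.GG c₁ (O ω) ω) (dep_GG S c₁ hO) x k t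
  have pt : ∀ ω, ind (S.EvE c₁ k (O ω) ω x ∧ ¬ S.BadA CY Cκ
      (c / (16 * K.Ξ) / (θ * (K.Ξ * CY + 1))) (1 / (4 * (K.Ξ + 1))) k (O ω) ω x) ≤
      ind (¬ S.toBlk.Typ Cκ (K.Ξ * CY) M₀ M₁ η k (xw M.G univ 4 x k ω)) +
      ind (k ≤ (cl M.G univ (lev 4 ω) x).card ∧
        Disjoint (cl M.G univ (lev 4 ω) x) (S.GG c₁ (O ω) ω) ∧
        t ≤ ec M.G (cl M.G univ (lev 4 ω) x) (S.GG c₁ (O ω) ω)) +
      Real.exp (c * k / (8 * K.Ξ) / M.l ^ 4) * Φ (xw M.G univ 4 x k ω) ω := by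
    intro ω
    have p1 := ind_nonneg (¬ S.toBlk.Typ Cκ (K.Ξ * CY) M₀ M₁ η k (xw M.G univ 4 x k ω))
    have p2 := ind_nonneg (k ≤ (cl M.G univ (lev 4 ω) x).card ∧
        Disjoint (cl M.G univ (lev 4 ω) x) (S.GG c₁ (O ω) ω) ∧
        t ≤ ec M.G (cl M.G univ (lev 4 ω) x) (S.GG c₁ (O ω) ω))
    have p3 := mul_nonneg (Real.exp_pos (c * k / (8 * K.Ξ) / M.l ^ 4)).le
      (hΦ2 (xw M.G univ 4 x k ω) ω)
    refine ind_le_of (by linarith) ?_
    rintro ⟨⟨hE1, hE2⟩, hnb⟩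
    unfold Core.cv at hE1 hE2
    by_cases h1 : S.toBlk.Typ Cκ (K.Ξ * CY) M₀ M₁ η k (xw M.G univ 4 x k ω)
    swap
    · rw [ind_pos h1]; linarith
    by_cases h2 : t ≤ ec M.G (cl M.G univ (lev 4 ω) x) (S.GG c₁ (O ω) ω)
    · rw [ind_pos (P := _ ∧ _ ∧ _) ⟨hE1, hE2, h2⟩]; linarith
    obtain ⟨x1, x2, x3, -⟩ := hXB ω
    have h3 : k ≤ ((xw M.G univ 4 x k ω).card : ℝ) := by
      by_contra h4
      have h5 := not_le.1 h4
      rw [x2 h5] at h5
      exact absurd hE1 (not_le.2 h5)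
    have h4 := fun h => hnb ⟨xw M.G univ 4 x k ω, x1,
      fun y hy => (x3 y hy).mono subset_rfl (Finset.subset_univ _), h1.1, h⟩
    have h5 := hΦ4 _ ⟨h3, h1, (not_le.1 fun h => h4 (Or.inl h)).le⟩ ω (O ω) t _ (hOb ω)
      (hE2.mono_left x1) ((ec_mono x1 subset_rfl).trans (not_le.1 h2).le)
      (not_le.1 fun h => h4 (Or.inr h)).le
    have h6 : θ * t / M.l ^ 2 + θ * ((K.Ξ * CY + 1) * M.N) *
        (c / (16 * K.Ξ) / (θ * (K.Ξ * CY + 1)) * k / M.U) = c * k / (8 * K.Ξ) / M.l ^ 4 := by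
      rw [ht, Core.U]
      have := M.l_pos
      field_simp
      ring
    rw [h6] at h5
    have h7 := mul_le_mul_of_nonneg_left h5 (Real.exp_pos (c * k / (8 * K.Ξ) / M.l ^ 4)).le
    rw [← Real.exp_add, add_neg_cancel, Real.exp_zero] at h7
    linarith
  have fin := PE_mono (E := univ) hP pt
  rw [PE_add, PE_add, PE_mul_left] at fin
  refine fin.trans ?_
  set c' := min cA (min (c / (16 * K.Ξ) / θ) (c / (8 * K.Ξ))) with hc'
  have mono : ∀ r : ℝ, c' ≤ r →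
      Real.exp (-(r * k / M.l ^ 4)) ≤ Real.exp (-(c' * k / M.l ^ 4)) := fun r hr => by
    rw [Real.exp_le_exp, neg_le_neg_iff]
    exact div_le_div_of_nonneg_right (mul_le_mul_of_nonneg_right hr hk0.le) hl4.le
  have F1 := E1.trans (mul_le_mul_of_nonneg_left (mono cA (min_le_left _ _))
    (div_nonneg hCA.le hl2.le))
  have F2 : Real.exp (-(q 4 * t)) * PL q (fun ω => ind (k ≤ (cl M.G univ (lev 4 ω) x).card)) ≤
      CB / M.l ^ 2 * Real.exp (-(c' * k / M.l ^ 4)) := by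
    rw [mul_comm]
    refine mul_le_mul hB' (le_trans ?_ (mono (c / (16 * K.Ξ) / θ)
      ((min_le_right _ _).trans (min_le_left _ _)))) (Real.exp_pos _).le
      (div_nonneg hCB.le hl2.le)
    rw [Real.exp_le_exp, neg_le_neg_iff]
    refine le_trans (le_of_eq ?_) (mul_le_mul_of_nonneg_right hq4' (by positivity))
    rw [ht]
    have := M.l_pos
    field_simp
  have F3 : Real.exp (c * k / (8 * K.Ξ) / M.l ^ 4) *
      PL q (fun ω => Φ (xw M.G univ 4 x k ω) ω) ≤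
      CB / M.l ^ 2 * Real.exp (-(c' * k / M.l ^ 4)) := by
    refine (mul_le_mul_of_nonneg_left E3 (Real.exp_pos _).le).trans ?_
    rw [mul_left_comm, ← Real.exp_add]
    refine mul_le_mul_of_nonneg_left (le_trans (le_of_eq ?_) (mono (c / (8 * K.Ξ))
      ((min_le_right _ _).trans (min_le_right _ _)))) (div_nonneg hCB.le hl2.le)
    congr 1
    field_simp
    ring
  have F2' := E2.trans F2
  unfold PL at F1 F2' F3
  rw [add_div, add_div, add_mul, add_mul]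
  exact add_le_add (add_le_add F1 F2') F3

end Pool.Agent.TPC
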