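import Pool.Agent.Lib.TPC.BlueG
import Pool.Agent.Lib.TPC.ZBasic

/-! Block NONO: a connected set rarely visits many inner blocks. -/

open Finset

namespace Pool.Agent.TPC

open Pool.Agent.Lib.MP_81a99a_pr (lattice torus)

namespace Nono

variable {d : ℕ}

/-- lift of a lazy walk of the torus -/
lemma lift_walk {n : ℕ} [NeZero n] (f : ℕ → Tor d n) (hf : ∀ i, td (f i) (f (i + 1)) ≤ 1) :
    ∃ F : ℕ → Zd d, F 0 = lift0 (f 0) ∧ (∀ i, proj n (F i) = f i) ∧ Lazy F := by
  refine ⟨fun i => lift0 (f 0) - ∑ j ∈ range i, lift0 (f j - f (j + 1)), by simp, ?_, ?_⟩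
  · intro i
    induction i with
    | zero => simp [proj_lift0]
    | succ i ih =>
      beta_reduce at ih ⊢
      rw [sum_range_succ, ← sub_sub, proj_sub, ih, proj_lift0, sub_sub_cancel]
  · intro i
    have := hf i
    simp only [zd, sum_range_succ]
    rw [← sub_sub, sub_sub_cancel]
    exact this

lemma starConn_add {Γ : Finset (Zd d)} (h : StarConn Γ) (v : Zd d) :
    StarConn (Γ.image (· + v)) := by
  intro x hx y hy
  obtain ⟨a, ha, rfl⟩ := mem_image.1 hx
  obtain ⟨b, hb, rfl⟩ := mem_image.1 hy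
  have key := h a ha b hb
  clear hy hb
  induction key with
  | refl => exact .refl
  | tail _ h1 ih =>
    exact ih.tail ⟨mem_image_of_mem _ h1.1, mem_image_of_mem _ h1.2.1, by
      rw [zd_add_right]; exact h1.2.2⟩

end Nono

open Nono in
theorem st_NONO (hW : St_WALK) (hG : St_GRID) (hD : St_DROP) (hH : St_HULL) : St_NONO := by
  intro d hd
  obtain ⟨c, lam₀, C, hc, H⟩ := hD d hd
  refine ⟨c, lam₀, C, hc, ?_⟩
  intro n m _ _ hmn ι _ E π hπ Bad x s₀ v w lam B hlam hw hB hv hvB hlog hm hT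
  obtain ⟨-, -, -, hG4, hG5⟩ := hG d n m hmn
  have hfl := Nat.floor_le hv
  refine le_trans (PE_ind_mono hπ ?_) (H ι E π hπ (fun ω => liftSet (Bad ω)) (zblk n m (lift0 x))
    (2 * ⌊v⌋₊) s₀ w lam B hlam hw hB (by push_cast; linarith) hlog ?_)
  · rintro ω ⟨hcalm, A, hA, hAv, hwQ⟩
    set Q := flt (A.image (tblk m)) (· ∉ Oset (Bad ω)) with hQ
    have hQne : Q.Nonempty := by
      rw [← card_pos]
      have : (0 : ℝ) < Q.card := by linarith
      exact_mod_cast this
    obtain ⟨b₀, hb₀⟩ := hQne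
    obtain ⟨a₀, ha₀, -⟩ := mem_image.1 (mem_flt.1 hb₀).1
    have hx : x ∈ A := (hA a₀ ha₀).left
    obtain ⟨⟨f, f0, fs, fc⟩, -⟩ := hW (Tor d n) (torus d n).Adj (fun a b h => h.symm) A x hx
      fun y hy => (hA y hy).induction (P := fun b => Relation.ReflTransGen
        (fun a b => a ∈ A ∧ b ∈ A ∧ (torus d n).Adj a b) x b) .refl
        fun a b h1 h2 h3 h4 _ => h1.tail ⟨h3, h4, h2⟩
    obtain ⟨F, F0, Fp, Fl⟩ := lift_walk f fun i => by
      rcases fs i with h | h
      · rw [h, td_self]; norm_num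
      · exact td_adj h
    have hAc : A.card ≤ ⌊v⌋₊ := Nat.le_floor hAv
    have hch : ∀ b ∈ Q, ∃ i ≤ 2 * ⌊v⌋₊, proj m (zblk n m (F i)) = b := by
      intro b hb
      obtain ⟨a, ha, rfl⟩ := mem_image.1 (mem_flt.1 hb).1
      obtain ⟨i, hi, rfl⟩ := fc a ha
      exact ⟨i, by omega, by rw [← hG4, Fp]⟩
    choose! idx hidx hpr using hch
    refine ⟨fun i => zblk n m (F i), fun i => hG5 _ _ (Fl i), by simp only [F0, f0],
      Q.image fun b => zblk n m (F (idx b)), ?_, ?_⟩
    · rw [card_image_of_injOn]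
      · exact hwQ
      · intro b hb b' hb' e
        have e' : zblk n m (F (idx b)) = zblk n m (F (idx b')) := e
        rw [← hpr b hb, ← hpr b' hb', e']
    · intro y hy
      obtain ⟨b, hb, rfl⟩ := mem_image.1 hy
      refine ⟨⟨idx b, hidx b hb, rfl⟩, ?_⟩
      have hO := (mem_flt.1 hb).2
      simp only [Oset, mem_flt, mem_univ, true_and, not_not] at hO
      obtain ⟨z, Γ, hz, hΓ, hsub, hin⟩ := hO
      set u := zblk n m (F (idx b)) - z with hu
      have hpu : proj m u = 0 := by rw [hu, proj_sub, hpr b hb, hz, sub_self]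
      have hsub' : ((Γ.image (· + u) : Finset (Zd d)) : Set (Zd d)) ⊆ liftSet (Bad ω) := by
        intro g hg
        obtain ⟨a, ha, rfl⟩ := mem_image.1 (mem_coe.1 hg)
        have : proj m a ∈ Bad ω := hsub (mem_coe.2 ha)
        change proj m (a + u) ∈ Bad ω
        rwa [proj_add, hpu, add_zero]
      refine ⟨Γ.image (· + u), starConn_add hΓ u, hsub', hcalm _ (starConn_add hΓ u) hsub', ?_⟩
      have := (hH d hd Γ).2.2.2.2 z u hin
      rwa [hu, add_sub_cancel] at this
  · intro T hTd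
    have hinj : Set.InjOn (proj m) (T : Set (Zd d)) := by
      intro a ha b hb e
      refine proj_inj ?_ e
      have h1 := zd_tri a (zblk n m (lift0 x)) b
      rw [zd_comm a (zblk n m (lift0 x))] at h1
      have h2 := hTd a ha
      have h3 := hTd b hb
      push_cast at h2 h3
      linarith
    have := hT (T.image (proj m))
    rw [card_image_of_injOn hinj] at this
    refine le_trans (PE_ind_mono hπ fun ω h => ?_) this
    intro b hb
    obtain ⟨a, ha, rfl⟩ := mem_image.1 (mem_coe.1 hb)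
    exact h (mem_coe.2 ha)

end Pool.Agent.TPC
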