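import Pool.Agent.Lib.TPC.BlueF2

/-! Numerical side conditions of the droplet regime. -/

namespace Pool.Agent.TPC

namespace Numb

lemma exp_small {W C η : ℝ} (hη : 0 < η) (hC : 0 < C) (hW : C / η ≤ W) {t : ℝ} (ht : 2 * W ≤ t) :
    Real.exp W * (C * Real.exp (-t)) ≤ η := by
  have hW0 : 0 < W := lt_of_lt_of_le (div_pos hC hη) hW
  have h1 : Real.exp W * Real.exp (-t) ≤ Real.exp (-W) := by
    rw [← Real.exp_add]; exact Real.exp_le_exp.2 (by linarith)
  have h2 : Real.exp (-W) * W ≤ 1 := by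
    have a := Real.add_one_le_exp W
    have b : Real.exp (-W) * Real.exp W = 1 := by rw [← Real.exp_add]; simp
    nlinarith [Real.exp_pos (-W)]
  have h3 : C ≤ W * η := (div_le_iff₀ hη).1 hW
  have h4 : C * Real.exp (-W) ≤ η := by nlinarith [Real.exp_pos (-W)]
  nlinarith [mul_le_mul_of_nonneg_left h1 hC.le]

lemma sDrop_eq {d : ℕ} (hd : 9 ≤ d) {l V : ℝ} (hl : 0 < l) (hW : 0 ≤ Real.log V) :
    sDrop d l V = l ^ 4 * l ^ (d - 6) * (Real.log V / l ^ (d - 6)) ^ ((d : ℝ) / (d - 1)) := by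
  have hd' : (9 : ℝ) ≤ d := by exact_mod_cast hd
  have h1 : (d : ℝ) - 1 ≠ 0 := by linarith
  have e : l ^ (d - 6) = l ^ ((d : ℝ) - 6) := by
    rw [← Real.rpow_natCast, Nat.cast_sub (by omega)]; norm_num
  unfold sDrop
  rw [Real.div_rpow hW (pow_pos hl _).le, e, ← Real.rpow_mul hl.le]
  have e2 : l ^ (-(((d : ℝ) - 6) / (d - 1))) =
      l ^ ((d : ℝ) - 6) / l ^ (((d : ℝ) - 6) * (d / (d - 1))) := by
    rw [← Real.rpow_sub hl]
    congr 1
    field_simp
    ring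
  rw [e2]
  ring

lemma sDrop_le {d : ℕ} (hd : 9 ≤ d) {l V : ℝ} (hl : 1 ≤ l) (hW : 1 ≤ Real.log V) :
    sDrop d l V ≤ l ^ 4 * Real.log V ^ 2 := by
  have hd' : (9 : ℝ) ≤ d := by exact_mod_cast hd
  unfold sDrop
  have a : l ^ (-(((d : ℝ) - 6) / (d - 1))) ≤ 1 :=
    Real.rpow_le_one_of_one_le_of_nonpos hl
      (neg_nonpos.2 (div_nonneg (by linarith) (by linarith)))
  have b : Real.log V ^ ((d : ℝ) / (d - 1)) ≤ Real.log V ^ 2 := by
    rw [← Real.rpow_two]
    refine Real.rpow_le_rpow_of_exponent_le hW ?_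
    rw [div_le_iff₀ (by linarith)]; linarith
  have c : 0 ≤ Real.log V ^ ((d : ℝ) / (d - 1)) := Real.rpow_nonneg (by linarith) _
  have e : 0 ≤ l ^ 4 := by positivity
  calc l ^ 4 * l ^ (-(((d : ℝ) - 6) / (d - 1))) * Real.log V ^ ((d : ℝ) / (d - 1))
      ≤ l ^ 4 * 1 * Real.log V ^ ((d : ℝ) / (d - 1)) :=
        mul_le_mul_of_nonneg_right (mul_le_mul_of_nonneg_left a e) c
    _ ≤ l ^ 4 * Real.log V ^ 2 := by rw [mul_one]; exact mul_le_mul_of_nonneg_left b e

lemma poly_lt {d W C₂ : ℝ} (hd : 0 < d) (hC : 0 ≤ C₂) (hW : 720 * d ^ 6 * C₂ + 1 ≤ W) :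
    C₂ * W ^ 5 < Real.exp (W / d) := by
  have h6 : 0 < d ^ 6 := by positivity
  have hW0 : 0 < W := by nlinarith [mul_nonneg h6.le hC]
  have a := Real.pow_div_factorial_le_exp (W / d) (div_nonneg hW0.le hd.le) 6
  refine lt_of_lt_of_le ?_ a
  have e : (W / d) ^ 6 / (Nat.factorial 6 : ℝ) = W / (720 * d ^ 6) * W ^ 5 := by
    norm_num [Nat.factorial]
    field_simp
  rw [e]
  refine mul_lt_mul_of_pos_right ?_ (by positivity)
  rw [lt_div_iff₀ (by positivity)]
  linarith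

end Numb

open Numb

theorem st_NUMB : St_NUMB := by
  intro d hd cs lam lam₀ Cκ φ c C hcs hlam hCκ hφ hc hC
  have hd' : (9 : ℝ) ≤ d := by exact_mod_cast hd
  obtain ⟨a, ha⟩ : ∃ a : ℝ, a = (d : ℝ) / (d - 1) := ⟨_, rfl⟩
  have ha0 : 0 < a := ha ▸ div_pos (by linarith) (by linarith)
  have hab : a * (((d : ℝ) - 1) / d) = 1 := by
    have h1 : (d : ℝ) - 1 ≠ 0 := by linarith
    have h2 : (d : ℝ) ≠ 0 := by linarith
    rw [ha]; field_simp
  have hb0 : 0 ≤ ((d : ℝ) - 1) / d := div_nonneg (by linarith) (by linarith)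
  have p1 : 0 < cs ^ a := Real.rpow_pos_of_pos hcs a
  have p2 : 0 < (2 / (c * lam)) ^ a := Real.rpow_pos_of_pos (by positivity) a
  obtain ⟨A, hA⟩ : ∃ A : ℝ, A = 1 + 4 / c + 1 / (φ * cs ^ a) + (2 / (c * lam)) ^ a / φ := ⟨_, rfl⟩
  have q1 : 0 < 4 / c := by positivity
  have q2 : 0 < 1 / (φ * cs ^ a) := by positivity
  have q3 : 0 < (2 / (c * lam)) ^ a / φ := by positivity
  have A1 : 1 ≤ A := by linarith
  have A2 : 4 ≤ A * c := (div_le_iff₀ hc).1 (by linarith)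
  have A3 : 1 ≤ A * (φ * cs ^ a) := (div_le_iff₀ (by positivity)).1 (by linarith)
  have A4 : (2 / (c * lam)) ^ a ≤ A * φ := (div_le_iff₀ hφ).1 (by linarith)
  refine ⟨A, by linarith, fun η hη => ?_⟩
  obtain ⟨C₂, hC₂⟩ : ∃ C₂ : ℝ, C₂ = (4 * Cκ * A / cs ^ 2 + 16 / lam + 4) * (2 / cs) := ⟨_, rfl⟩
  have hC₂0 : 0 ≤ C₂ := by rw [hC₂]; positivity
  obtain ⟨W₀, hW₀⟩ : ∃ W₀ : ℝ, W₀ = 2 + 1 / η + C / η + (720 * (d : ℝ) ^ 6 * C₂ + 1) := ⟨_, rfl⟩
  obtain ⟨C', hC'⟩ : ∃ C' : ℝ, C' = 1 + 2 * Cκ / φ := ⟨_, rfl⟩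
  have r0 : 0 < 2 * Cκ / φ := by positivity
  have r1 : 0 < 1 / η := by positivity
  have r2 : 0 < C / η := by positivity
  have r3 : 0 ≤ 720 * (d : ℝ) ^ 6 * C₂ := by positivity
  have s1 : 0 ≤ W₀ / cs := div_nonneg (by linarith) hcs.le
  have s2 : 0 ≤ 12 / cs := by positivity
  have s3 : 0 ≤ |lam₀| / lam := by positivity
  have s4 : 0 ≤ (C' + d) / (c * lam) := div_nonneg (by linarith) (by positivity)
  refine ⟨1 + W₀ / cs + 12 / cs + |lam₀| / lam + (C' + d) / (c * lam), ?_⟩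
  intro n m l k hl hmn hnm hW hk
  have l1 : 1 ≤ l := by linarith
  have l0 : 0 < l := by linarith
  have l2 : W₀ ≤ l * cs := (div_le_iff₀ hcs).1 (by linarith)
  have l3 : 12 ≤ l * cs := (div_le_iff₀ hcs).1 (by linarith)
  have l4 : |lam₀| ≤ l * lam := (div_le_iff₀ hlam).1 (by linarith)
  have l5 : C' + d ≤ l * (c * lam) := (div_le_iff₀ (by positivity)).1 (by linarith)
  have hD := sDrop_eq hd (V := (n : ℝ) ^ d) l0
  have hD2 := sDrop_le hd (V := (n : ℝ) ^ d) l1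
  have hlog : Real.log (l ^ (d - 6) * l ^ 4) ≤ d * l := by
    rw [← pow_add, Real.log_pow]
    have a1 : Real.log l ≤ l := (Real.log_le_sub_one_of_pos l0).trans (by linarith)
    have a2 : ((d - 6 + 4 : ℕ) : ℝ) ≤ d := by exact_mod_cast (by omega : d - 6 + 4 ≤ d)
    exact mul_le_mul a2 a1 (Real.log_nonneg l1) (by linarith)
  have N3 : l ^ 3 ≤ l ^ (d - 6) := pow_le_pow_right₀ l1 (by omega)
  rw [← ha] at hD
  obtain ⟨N, hN⟩ : ∃ N : ℝ, N = l ^ (d - 6) := ⟨_, rfl⟩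
  obtain ⟨W, hWd⟩ : ∃ W : ℝ, W = Real.log ((n : ℝ) ^ d) := ⟨_, rfl⟩
  rw [← hN] at hW hD hlog N3 ⊢
  rw [← hWd] at hW hD hD2
  have m1 : l ≤ l ^ 2 := le_self_pow₀ l1 (by norm_num)
  have m2 : l ^ 2 ≤ l ^ 3 := pow_le_pow_right₀ l1 (by norm_num)
  have N1 : 1 ≤ N := by linarith
  have N0 : 0 < N := by linarith
  have W3 : cs * l ^ 3 ≤ W := (mul_le_mul_of_nonneg_left N3 hcs.le).trans hW
  have W1 : W₀ ≤ W := by
    have : cs * l ≤ cs * l ^ 3 := mul_le_mul_of_nonneg_left (m1.trans m2) hcs.le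
    linarith only [this, l2, W3]
  have W2 : 2 ≤ W := by linarith
  have hn0 : (0 : ℝ) < n := by
    rcases Nat.eq_zero_or_pos n with h | h
    · rw [h, Nat.cast_zero, zero_pow (by omega), Real.log_zero] at hWd; linarith
    · exact_mod_cast h
  have hV : (n : ℝ) ^ d = Real.exp W := by rw [hWd, Real.exp_log (pow_pos hn0 d)]
  have hn : (n : ℝ) = Real.exp (W / d) := by
    rw [hWd, Real.log_pow, mul_div_cancel_left₀ _ (by linarith), Real.exp_log hn0]
  have L4 : 0 < l ^ 4 := by positivity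
  have hM : sMF l ((n : ℝ) ^ d) = l ^ 4 * (W - 6 * Real.log l) := by
    unfold sMF
    rw [Real.log_div (pow_pos hn0 d).ne' (pow_pos l0 6).ne', ← hWd, Real.log_pow]
    norm_num
  have lg0 : 0 ≤ Real.log l := Real.log_nonneg l1
  have lg1 : 12 * Real.log l ≤ W := by
    have a1 : Real.log l ≤ l := (Real.log_le_sub_one_of_pos l0).trans (by linarith)
    have a2 : 12 * l ≤ cs * l ^ 2 := by
      linarith only [mul_le_mul_of_nonneg_right l3 l0.le]
    have a3 : cs * l ^ 2 ≤ cs * l ^ 3 := mul_le_mul_of_nonneg_left m2 hcs.le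
    linarith
  have k1 : A * (l ^ 4 * (W / 2)) ≤ k := by
    rw [hk]
    refine mul_le_mul_of_nonneg_left (le_trans ?_ (le_max_left _ _)) (by linarith)
    rw [hM]; exact mul_le_mul_of_nonneg_left (by linarith) L4.le
  have k2 : A * (l ^ 4 * N * (W / N) ^ a) ≤ k := by
    rw [hk, ← hD (by linarith)]
    exact mul_le_mul_of_nonneg_left (le_max_right _ _) (by linarith)
  have k3 : k ≤ A * (l ^ 4 * W ^ 2) := by
    rw [hk]
    refine mul_le_mul_of_nonneg_left (max_le ?_ (hD2 (by linarith))) (by linarith)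
    have w : W ≤ W ^ 2 := le_self_pow₀ (by linarith only [W2]) (by norm_num)
    rw [hM]; exact mul_le_mul_of_nonneg_left (by linarith only [w, lg0]) L4.le
  have g1 : l ^ 4 ≤ k := by
    refine le_trans ?_ k1
    have : l ^ 4 * 1 ≤ l ^ 4 * (W / 2) := mul_le_mul_of_nonneg_left (by linarith) L4.le
    have h2 := mul_le_mul_of_nonneg_right A1
      (show 0 ≤ l ^ 4 * (W / 2) from mul_nonneg L4.le (by linarith only [W2]))
    linarith only [this, h2]
  have k0 : 0 < k := by linarith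
  have NL : 0 < N * l ^ 4 := by positivity
  have k4 : A * φ * (W / N) ^ a ≤ φ * k / (N * l ^ 4) := by
    rw [le_div_iff₀ NL]
    have := mul_le_mul_of_nonneg_left k2 hφ.le
    linarith [show A * φ * (W / N) ^ a * (N * l ^ 4) = φ * (A * (l ^ 4 * N * (W / N) ^ a)) by ring]
  have WN : cs ≤ W / N := (le_div_iff₀ N0).2 hW
  refine ⟨⌈4 * W / (lam * N)⌉₊, max 1 (2 * Cκ / φ * (N * l ^ 4)), g1, ?_, ?_, le_max_left _ _,
    ?_, ?_, ?_, ?_, ?_, ?_⟩
  · have := le_abs_self lam₀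
    have a2 : lam * l ≤ lam * N := mul_le_mul_of_nonneg_left (by linarith) hlam.le
    linarith
  · refine le_trans ?_ k4
    have a1 : cs ^ a ≤ (W / N) ^ a := Real.rpow_le_rpow hcs.le WN ha0.le
    have a2 := mul_le_mul_of_nonneg_left a1 (show 0 ≤ A * φ by positivity)
    linarith [show A * (φ * cs ^ a) = A * φ * cs ^ a by ring]
  · refine le_trans (le_of_eq ?_)
      (mul_le_mul_of_nonneg_right (le_max_right _ _) (by positivity))
    field_simp
  · have NL1 : 1 ≤ N * l ^ 4 := one_le_mul_of_one_le_of_one_le N1 (one_le_pow₀ l1)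
    have a1 : max 1 (2 * Cκ / φ * (N * l ^ 4)) ≤ C' * (N * l ^ 4) := by
      have h := mul_pos r0 NL
      rw [hC', add_mul, one_mul]
      exact max_le (by linarith only [NL1, h]) (by linarith only [NL])
    have C0 : 0 < C' := by linarith
    have a2 := Real.log_le_log (lt_of_lt_of_le one_pos (le_max_left _ _)) a1
    rw [Real.log_mul C0.ne' NL.ne'] at a2
    have a3 : Real.log C' ≤ C' * l := by
      have := Real.log_le_sub_one_of_pos C0
      linarith only [this, le_mul_of_one_le_right C0.le l1]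
    have a4 : (C' + d) * l ≤ l * (c * lam) * l := mul_le_mul_of_nonneg_right l5 l0.le
    have a5 : c * lam * l ^ 2 ≤ c * lam * N :=
      mul_le_mul_of_nonneg_left (by linarith) (by positivity)
    linarith only [a2, hlog, a3, a4, a5]
  · have W0 : 0 < W := by linarith
    have a1 : (⌈4 * W / (lam * N)⌉₊ : ℝ) ≤ 4 * W / lam + 1 := by
      have b1 := (Nat.ceil_lt_add_one (show 0 ≤ 4 * W / (lam * N) by positivity)).le
      have b2 : 4 * W / (lam * N) ≤ 4 * W / lam :=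
        div_le_div_of_nonneg_left (by positivity) hlam (le_mul_of_one_le_right hlam.le N1)
      linarith
    have lW : l ^ 3 ≤ W / cs := (le_div_iff₀' hcs).2 W3
    have a2 : l ^ 4 ≤ W ^ 2 / cs ^ 2 := by
      rw [← div_pow]
      calc l ^ 4 ≤ l ^ 6 := pow_le_pow_right₀ l1 (by norm_num)
        _ = (l ^ 3) ^ 2 := by ring
        _ ≤ _ := pow_le_pow_left₀ (by positivity) lW 2
    have a3 : k ≤ A / cs ^ 2 * W ^ 4 := by
      refine k3.trans ?_
      have := mul_le_mul_of_nonneg_left (mul_le_mul_of_nonneg_right a2 (sq_nonneg W))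
        (show 0 ≤ A by linarith)
      refine this.trans (le_of_eq ?_)
      ring
    have w1 : W ≤ W ^ 4 := le_self_pow₀ (by linarith) (by norm_num)
    have w2 : 1 ≤ W ^ 4 := by linarith
    have a4 : 4 * (Cκ * k) + 4 * (⌈4 * W / (lam * N)⌉₊ : ℝ) ≤
        (4 * Cκ * A / cs ^ 2 + 16 / lam + 4) * W ^ 4 := by
      have b1 := mul_le_mul_of_nonneg_left a3 hCκ.le
      have b2 := mul_le_mul_of_nonneg_left w1 (show 0 ≤ 16 / lam by positivity)
      have e1 : (4 * Cκ * A / cs ^ 2 + 16 / lam + 4) * W ^ 4 =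
          4 * (Cκ * (A / cs ^ 2 * W ^ 4)) + 16 / lam * W ^ 4 + 4 * W ^ 4 := by ring
      have e2 : 16 / lam * W = 4 * (4 * W / lam) := by ring
      linarith
    have a5 := poly_lt (show (0 : ℝ) < d by linarith) hC₂0 (show _ ≤ W by linarith)
    rw [← hn] at a5
    refine lt_of_le_of_lt a4 ?_
    by_contra hcon
    have b1 := mul_le_mul_of_nonneg_left (not_lt.1 hcon) (show 0 ≤ 2 * l by linarith)
    have b2 : 2 * l ≤ 2 / cs * W := by
      have : 2 / cs * W = 2 * (W / cs) := by ring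
      linarith
    have b3 := mul_le_mul_of_nonneg_right b2
      (show 0 ≤ (4 * Cκ * A / cs ^ 2 + 16 / lam + 4) * W ^ 4 by positivity)
    have e : 2 / cs * W * ((4 * Cκ * A / cs ^ 2 + 16 / lam + 4) * W ^ 4) = C₂ * W ^ 5 := by
      rw [hC₂]; ring
    linarith
  · have a1 : (m : ℝ) ^ d ≤ Real.exp W := by
      rw [← hV]; exact pow_le_pow_left₀ (Nat.cast_nonneg m) (by exact_mod_cast hmn) d
    have a2 : 4 * W ≤ (⌈4 * W / (lam * N)⌉₊ : ℝ) * (lam * N) :=
      (div_le_iff₀ (by positivity)).1 (Nat.le_ceil _)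
    have a3 := exp_small hη one_pos (show 1 / η ≤ W by linarith)
      (show 2 * W ≤ lam * N * (⌈4 * W / (lam * N)⌉₊ : ℝ) / 2 by linarith)
    rw [one_mul] at a3
    exact (mul_le_mul_of_nonneg_right a1 (Real.exp_pos _).le).trans a3
  · rw [hV]
    refine exp_small hη hC (by linarith) ?_
    rw [le_div_iff₀ L4]
    have a1 := mul_le_mul_of_nonneg_left k1 hc.le
    have a2 := mul_le_mul_of_nonneg_right A2 (show 0 ≤ l ^ 4 * (W / 2) by positivity)
    linarith only [a1, a2]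
  · rw [hV]
    refine exp_small hη hC (by linarith) ?_
    have WN0 : 0 ≤ W / N := by linarith
    have a1 : (2 / (c * lam) * (W / N)) ^ a ≤ φ * k / (N * l ^ 4) := by
      rw [Real.mul_rpow (by positivity) WN0]
      exact (mul_le_mul_of_nonneg_right A4 (Real.rpow_nonneg WN0 a)).trans k4
    have a2 := Real.rpow_le_rpow (Real.rpow_nonneg (by positivity) a) a1 hb0
    rw [← Real.rpow_mul (by positivity), hab, Real.rpow_one] at a2
    have a3 := mul_le_mul_of_nonneg_left a2 (show 0 ≤ c * (lam * N) by positivity)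
    refine le_trans (le_of_eq ?_) a3
    field_simp

end Pool.Agent.TPC
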