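import Pool.Agent.Lib.TPC.BlueG
import Pool.Agent.Lib.TPC.ZBasic

/-! Outer points are joined by good paths; large bad droplets are rare. -/

open Finset

set_option linter.unusedVariables false

namespace Pool.Agent.TPC

open Pool.Agent.Lib.MP_81a99a_pr (lattice torus)

namespace OJ

variable {d : ℕ}

/-- a chain that starts inside `A` and ends outside has a step leaving `A` -/
lemma exit_step {α : Type} {R : α → α → Prop} {A : α → Prop} {x y : α}
    (h : Relation.ReflTransGen R x y) (hx : A x) (hy : ¬ A y) :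
    ∃ u v, A u ∧ ¬ A v ∧ R u v := by
  induction h with
  | refl => exact absurd hx hy
  | @tail b c _ hbc ih =>
    by_cases hb : A b
    · exact ⟨b, c, hb, hy, hbc⟩
    · exact ih hb

lemma starConn_insert {A : Finset (Zd d)} (hA : StarConn A) {u v : Zd d} (hu : u ∈ A)
    (huv : zd u v ≤ 1) : StarConn (insert v A) := by
  have lift : ∀ x ∈ A, ∀ y ∈ A, Relation.ReflTransGen
      (fun a b => a ∈ insert v A ∧ b ∈ insert v A ∧ zd a b ≤ 1) x y := fun x hx y hy =>
    (hA x hx y hy).lift id fun a b h => ⟨mem_insert_of_mem h.1, mem_insert_of_mem h.2.1, h.2.2⟩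
  intro x hx y hy
  rcases mem_insert.1 hx with rfl | hx' <;> rcases mem_insert.1 hy with rfl | hy'
  · exact Relation.ReflTransGen.refl
  · exact Relation.ReflTransGen.head
      ⟨mem_insert_self _ _, mem_insert_of_mem hu, by rwa [zd_comm]⟩ (lift u hu y hy')
  · exact (lift x hx' u hu).tail ⟨mem_insert_of_mem hu, mem_insert_self _ _, huv⟩
  · exact lift x hx' y hy'

lemma starConn_singleton (z : Zd d) : StarConn {z} := by
  intro x hx y hy
  rw [mem_singleton] at hx hy
  rw [hx, hy]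

/-- a star-connected set has star-connected subsets of every smaller size through a given point -/
lemma grow {Γ : Set (Zd d)}
    (hΓ : ∀ x ∈ Γ, ∀ y ∈ Γ, Relation.ReflTransGen (fun u v => u ∈ Γ ∧ v ∈ Γ ∧ zd u v ≤ 1) x y)
    {x : Zd d} (hx : x ∈ Γ) (t : ℕ)
    (ht : ∀ A : Finset (Zd d), (A : Set (Zd d)) ⊆ Γ → A.card ≤ t → ∃ y ∈ Γ, y ∉ A) :
    ∃ A : Finset (Zd d), (A : Set (Zd d)) ⊆ Γ ∧ x ∈ A ∧ StarConn A ∧ A.card = t + 1 := by
  induction t with
  | zero => exact ⟨{x}, by simpa using hx, mem_singleton_self x, starConn_singleton x, rfl⟩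
  | succ t ih =>
    obtain ⟨A, hA, hxA, hs, hc⟩ := ih fun A hA h => ht A hA (h.trans (Nat.le_succ t))
    obtain ⟨y, hy, hyA⟩ := ht A hA hc.le
    obtain ⟨u, v, hu, hv, -, hvΓ, huv⟩ := exit_step (A := fun a => a ∈ A) (hΓ x hx y hy) hxA hyA
    refine ⟨insert v A, ?_, mem_insert_of_mem hxA, starConn_insert hs hu huv, ?_⟩
    · rw [coe_insert]; exact Set.insert_subset hvΓ hA
    · rw [card_insert_of_notMem hv, hc]

/-- the diameter of a star-connected set is smaller than its size -/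
lemma diam_lt {A : Finset (Zd d)} (hA : StarConn A) {x y : Zd d} (hx : x ∈ A) (hy : y ∈ A) :
    zn x y < A.card := by
  have key : ∀ j, j ≤ zn x y → ∃ v ∈ A, zn x v = j := by
    intro j hj
    rcases Nat.eq_zero_or_pos j with rfl | hpos
    · refine ⟨x, hx, ?_⟩
      have := zd_eq_zn x x
      rw [zd_self] at this
      exact_mod_cast this.symm
    · have h0 : zn x x < j := by
        have := zd_eq_zn x x
        rw [zd_self] at this
        have h2 : zn x x = 0 := by exact_mod_cast this.symm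
        omega
      obtain ⟨u, v, hu, hv, -, hvA, huv⟩ :=
        exit_step (A := fun a => zn x a < j) (hA x hx y hy) h0 (by omega)
      refine ⟨v, hvA, ?_⟩
      have h1 := zd_tri x u v
      rw [zd_eq_zn x v, zd_eq_zn x u] at h1
      have h2 : (zn x v : ℝ) ≤ zn x u + 1 := by linarith
      have h3 : zn x v ≤ zn x u + 1 := by exact_mod_cast h2
      omega
  have hsub : range (zn x y + 1) ⊆ A.image (zn x) := by
    intro j hj
    obtain ⟨v, hv, e⟩ := key j (Nat.lt_succ_iff.1 (mem_range.1 hj))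
    exact mem_image.2 ⟨v, hv, e⟩
  have := (card_le_card hsub).trans card_image_le
  rw [card_range] at this
  omega

lemma starConn_add {A : Finset (Zd d)} (hA : StarConn A) (v : Zd d) :
    StarConn (A.image (· + v)) := by
  intro x hx y hy
  obtain ⟨x, hx', rfl⟩ := mem_image.1 hx
  obtain ⟨y, hy', rfl⟩ := mem_image.1 hy
  exact (hA x hx' y hy').lift (· + v) fun a b h =>
    ⟨mem_image_of_mem _ h.1, mem_image_of_mem _ h.2.1, by rw [zd_add_right]; exact h.2.2⟩

lemma proj_path {m : ℕ} [NeZero m] {Bd : Set (Tor d m)} {z z' : Zd d}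
    (h : Joined (liftSet Bd)ᶜ z z') :
    Relation.ReflTransGen (fun u v => v ∉ Bd ∧ td u v ≤ 1) (proj m z) (proj m z') :=
  h.2.lift (proj m) fun a b hab => ⟨hab.1, (td_proj_le a b).trans (zd_adj hab.2).le⟩

lemma not_hull {m : ℕ} [NeZero m] {Bd : Set (Tor d m)} {b : Tor d m} (hb : b ∈ Oset Bd)
    {Γ : Finset (Zd d)} (hs : StarConn Γ) (hΓ : (Γ : Set (Zd d)) ⊆ liftSet Bd) :
    ¬ InHull Γ (lift0 b) := fun h =>
  (mem_flt.1 hb).2 ⟨lift0 b, Γ, proj_lift0 b, hs, hΓ, h⟩

lemma good {m : ℕ} [NeZero m] {Bd : Set (Tor d m)} {b : Tor d m} (hb : b ∈ Oset Bd) : b ∉ Bd := by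
  intro h
  refine not_hull hb (starConn_singleton (lift0 b)) ?_ ?_
  · intro z hz
    rw [coe_singleton, Set.mem_singleton_iff] at hz
    show proj m z ∈ Bd
    rwa [hz, proj_lift0]
  · refine Set.Finite.subset Set.finite_empty fun y hy => ?_
    exact hy.1 (by simp)

end OJ

theorem st_OJ (hC : St_CUT) (hH : St_HULL) (hW : St_WALK) : St_OJ := by
  intro d m _ hd Bd
  refine ⟨fun b hb => OJ.good hb, fun s₀ hcalm b hb b' hb' => ?_⟩
  have g : ∀ c ∈ Oset Bd, lift0 c ∉ liftSet Bd := fun c hc h => by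
    have h' : proj m (lift0 c) ∈ Bd := h
    rw [proj_lift0] at h'
    exact OJ.good hc h'
  by_cases hj : Joined (liftSet Bd)ᶜ (lift0 b) (lift0 b')
  · have := OJ.proj_path hj
    rwa [proj_lift0, proj_lift0] at this
  · exfalso
    obtain ⟨Γ, hΓ, hs, hn⟩ := hC d hd (liftSet Bd) _ _ (g b hb) (g b' hb') hj
    have hfin : Γ.Finite := by
      by_contra hinf
      have hinf' : Γ.Infinite := hinf
      obtain ⟨x, hx⟩ := hinf'.nonempty
      obtain ⟨A, hA, -, hsA, hc⟩ := OJ.grow hs hx s₀ fun A _ _ => hinf'.exists_notMem_finset A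
      have := hcalm A hsA (hA.trans hΓ)
      omega
    have hs' : StarConn hfin.toFinset := by
      intro x hx y hy
      rw [Set.Finite.mem_toFinset] at hx hy
      exact (hs x hx y hy).lift id fun a c h =>
        ⟨hfin.mem_toFinset.2 h.1, hfin.mem_toFinset.2 h.2.1, h.2.2⟩
    have hsub : (hfin.toFinset : Set (Zd d)) ⊆ liftSet Bd := by
      rw [Set.Finite.coe_toFinset]; exact hΓ
    have := (hH d hd hfin.toFinset).1 _ _ (OJ.not_hull hb hs' hsub) (OJ.not_hull hb' hs' hsub)
    rw [Set.Finite.coe_toFinset] at this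
    exact hn this

theorem st_CALM (hA : St_ANI) (hW : St_WALK) : St_CALM := by
  intro d
  obtain ⟨C, hC, H⟩ := hA d
  choose F hF1 hF2 hF3 using H
  refine ⟨2 * Real.log C, ?_⟩
  intro m _ ι _ E π hπ Bad s₀ lam hlam hs hT
  have hlog : 0 ≤ Real.log C := Real.log_nonneg hC
  have step : ∀ ω, ¬ Calm (Bad ω) s₀ → ∃ b ∈ (univ : Finset (Tor d m)),
      ∃ Γ ∈ flt (F (lift0 b) (s₀ + 1)) StarConn,
        ((Γ.image (proj m) : Finset (Tor d m)) : Set (Tor d m)) ⊆ Bad ω := by
    intro ω h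
    unfold Calm at h
    push Not at h
    obtain ⟨Γ, hsΓ, hsub, hc⟩ := h
    obtain ⟨x, hx⟩ : Γ.Nonempty := card_pos.1 (by omega)
    obtain ⟨A, hA, hxA, hsA, hcA⟩ := OJ.grow (Γ := (Γ : Set (Zd d))) hsΓ (mem_coe.2 hx) s₀
      fun A _ hA => by
        by_contra hcon
        push Not at hcon
        have : Γ ⊆ A := fun y hy => hcon y (mem_coe.2 hy)
        have := card_le_card this
        omega
    have hsA' := OJ.starConn_add hsA (lift0 (proj m x) - x)
    refine ⟨proj m x, mem_univ _, A.image (· + (lift0 (proj m x) - x)), mem_flt.2 ⟨?_, hsA'⟩, ?_⟩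
    · refine hF3 _ _ _ hsA' (mem_image.2 ⟨x, hxA, by simp⟩) ?_
      rw [card_image_of_injective _ (add_left_injective _), hcA]
    · intro w hw
      rw [mem_coe, image_image] at hw
      obtain ⟨y, hy, rfl⟩ := mem_image.1 hw
      have : proj m y ∈ Bad ω := hsub (hA (mem_coe.2 hy))
      simpa only [Function.comp, proj_add, proj_sub, proj_lift0, sub_self, add_zero] using this
  have one : ∀ b : Tor d m, ∀ Γ ∈ flt (F (lift0 b) (s₀ + 1)) StarConn,
      PE E π (fun ω => ind (((Γ.image (proj m) : Finset (Tor d m)) : Set (Tor d m)) ⊆ Bad ω)) ≤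
        Real.exp (-(lam * (s₀ + 1 : ℕ))) := by
    intro b Γ hΓ
    obtain ⟨h1, h2⟩ := mem_flt.1 hΓ
    have hc := (hF2 _ _ Γ h1).1
    have hinj : Set.InjOn (proj m) (Γ : Set (Zd d)) := by
      intro x hx y hy e
      refine proj_inj ?_ e
      have := OJ.diam_lt h2 hx hy
      rw [zd_eq_zn]
      exact_mod_cast (by omega : zn x y < m)
    have := hT (Γ.image (proj m))
    rwa [card_image_of_injOn hinj, hc] at this
  have hexp : C ^ (s₀ + 1) * Real.exp (-(lam * (s₀ + 1 : ℕ))) ≤ Real.exp (-(lam * s₀ / 2)) := by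
    have e : C ^ (s₀ + 1) = Real.exp ((s₀ + 1 : ℕ) * Real.log C) := by
      rw [Real.exp_nat_mul, Real.exp_log (by linarith)]
    rw [e, ← Real.exp_add]
    refine Real.exp_le_exp.2 ?_
    push_cast
    have h0 : (0 : ℝ) ≤ s₀ := Nat.cast_nonneg _
    nlinarith
  refine (PE_ind_mono hπ step).trans ((PE_ind_exists hπ _ _).trans ?_)
  have two : ∀ b ∈ (univ : Finset (Tor d m)), PE E π (fun ω => ind
      (∃ Γ ∈ flt (F (lift0 b) (s₀ + 1)) StarConn,
        ((Γ.image (proj m) : Finset (Tor d m)) : Set (Tor d m)) ⊆ Bad ω)) ≤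
      Real.exp (-(lam * s₀ / 2)) := by
    intro b _
    refine (PE_ind_exists hπ _ _).trans ((sum_le_card_nsmul _ _ _ (one b)).trans ?_)
    rw [nsmul_eq_mul]
    refine le_trans (mul_le_mul_of_nonneg_right ?_ (Real.exp_pos _).le) hexp
    exact (Nat.cast_le.2 (card_le_card (flt_subset _ _))).trans (hF1 _ _)
  refine (sum_le_card_nsmul _ _ _ two).trans (le_of_eq ?_)
  rw [nsmul_eq_mul, card_univ, card_Tor]
  push_cast
  rfl

end Pool.Agent.TPC
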