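import Pool.Agent.Lib.TPC.BlueG
import Pool.Agent.Lib.TPC.ZBasic

/-! Block OVER: a connected set of big points rarely has much mass in overfull blocks. -/

open Finset

namespace Pool.Agent.TPC

open Pool.Agent.Lib.MP_81a99a_pr (lattice torus)

namespace Over

variable {d n : ℕ}

/-- a lazy walk of the torus lifts to a lazy walk of the lattice -/
lemma lift_walk [NeZero n] (f : ℕ → Tor d n)
    (hf : ∀ i, f (i + 1) = f i ∨ (torus d n).Adj (f i) (f (i + 1))) (x₀ : Zd d)
    (h0 : proj n x₀ = f 0) : ∃ g : ℕ → Zd d, g 0 = x₀ ∧ (∀ i, proj n (g i) = f i) ∧ Lazy g := by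
  let g : ℕ → Zd d := fun i => Nat.rec x₀ (fun j z => z - lift0 (f j - f (j + 1))) i
  have hs : ∀ i, g (i + 1) = g i - lift0 (f i - f (i + 1)) := fun _ => rfl
  refine ⟨g, rfl, fun i => ?_, fun i => ?_⟩
  · induction i with
    | zero => exact h0
    | succ i ih => rw [hs, proj_sub, proj_lift0, ih, sub_sub_cancel]
  · have e : zd (g i) (g (i + 1)) = td (f i) (f (i + 1)) := by
      rw [hs]; simp [zd, td]
    rw [e]
    rcases hf i with h | h
    · rw [h, td_self]; norm_num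
    · exact td_adj h

/-- a set of blocks met by a connected set lifts to a set of points of a lazy walk -/
lemma cover (hW : St_WALK) (hG : St_GRID) {m : ℕ} [NeZero n] [NeZero m] (hmn : m ≤ n)
    (A : Finset (Tor d n)) (x : Tor d n) (hx : x ∈ A)
    (hA : ∀ y ∈ A, conn (torus d n) A univ x y) (T : Finset (Tor d m))
    (hT : ∀ b ∈ T, ∃ y ∈ A, tblk m y = b) :
    ∃ f : ℕ → Zd d, Lazy f ∧ f 0 = zblk n m (lift0 x) ∧ ∃ P : Finset (Zd d), P.card = T.card ∧
      P.image (proj m) = T ∧ ∀ y ∈ P, ∃ i ≤ 2 * A.card, f i = y := by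
  obtain ⟨-, -, -, hb, hz⟩ := hG d n m hmn
  obtain ⟨⟨f, f0, fs, fc⟩, -⟩ := hW (Tor d n) (torus d n).Adj (fun _ _ h => h.symm) A x hx
    fun y hy => (hA y hy).induction
      (P := Relation.ReflTransGen (fun a b => a ∈ A ∧ b ∈ A ∧ (torus d n).Adj a b) x)
      Relation.ReflTransGen.refl fun a b h1 ha h2 h3 _ => h1.tail ⟨h2, h3, ha⟩
  obtain ⟨g, g0, gp, gl⟩ := lift_walk f fs (lift0 x) (by rw [proj_lift0, f0])
  have key : ∀ b ∈ T, ∃ i, i ≤ 2 * A.card ∧ proj m (zblk n m (g i)) = b := by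
    intro b hb'
    obtain ⟨y, hy, rfl⟩ := hT b hb'
    obtain ⟨i, hi, rfl⟩ := fc y hy
    exact ⟨i, hi, by rw [← hb, gp]⟩
  choose! ix hix hip using key
  refine ⟨fun i => zblk n m (g i), fun i => hz _ _ (gl i), congrArg (zblk n m) g0,
    T.image fun b => zblk n m (g (ix b)), ?_, ?_, ?_⟩
  · refine Finset.card_image_of_injOn fun a ha b hb' e => ?_
    have e' : zblk n m (g (ix a)) = zblk n m (g (ix b)) := e
    rw [← hip a ha, ← hip b hb', e']
  · ext b
    simp only [mem_image]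
    constructor
    · rintro ⟨_, ⟨a, ha, rfl⟩, rfl⟩
      rwa [hip a ha]
    · exact fun hb' => ⟨_, ⟨b, hb', rfl⟩, hip b hb'⟩
  · intro y hy
    obtain ⟨b, hb', rfl⟩ := mem_image.1 hy
    exact ⟨ix b, hix b hb', rfl⟩

/-- the mass in the overfull blocks -/
lemma mass {X B : Type} [DecidableEq X] [DecidableEq B] (π : X → B) (A Big : Finset X)
    (h : A ⊆ Big) (Y : ℝ) :
    ((flt A fun y => Y < (flt A fun z => π z = π y).card).card +
      Y * ((flt A fun y => Y < (flt A fun z => π z = π y).card).image π).card : ℝ) ≤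
      2 * (flt Big fun y =>
        π y ∈ (flt A fun y => Y < (flt A fun z => π z = π y).card).image π).card := by
  set O := flt A fun y => Y < (flt A fun z => π z = π y).card with hO
  set S := flt Big fun y => π y ∈ O.image π with hS
  have h1 : O ⊆ S := fun y hy =>
    mem_flt.2 ⟨h (flt_subset _ _ hy), mem_image_of_mem _ hy⟩
  have h2 : S.card = ∑ b ∈ O.image π, (S.filter fun y => π y = b).card :=
    Finset.card_eq_sum_card_fiberwise fun y hy => (mem_flt.1 (Finset.mem_coe.1 hy)).2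
  have h3 : Y * (O.image π).card ≤ (S.card : ℝ) := by
    rw [h2, Nat.cast_sum, mul_comm, ← nsmul_eq_mul]
    refine Finset.card_nsmul_le_sum _ _ _ fun b hb => ?_
    obtain ⟨y, hy, rfl⟩ := mem_image.1 hb
    refine (mem_flt.1 hy).2.le.trans (Nat.cast_le.2 (Finset.card_le_card fun z hz => ?_))
    obtain ⟨hz1, hz2⟩ := mem_flt.1 hz
    exact mem_filter.2 ⟨mem_flt.2 ⟨h hz1, by rw [hz2]; exact hb⟩, hz2⟩
  have h4 : (O.card : ℝ) ≤ S.card := Nat.cast_le.2 (Finset.card_le_card h1)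
  linarith

lemma ev (d : ℕ) {C K : ℝ} (hC : 0 ≤ C) (hK : 0 ≤ K) :
    ∃ l₀ : ℝ, 1 ≤ l₀ ∧ ∀ l, l₀ ≤ l → (C * (1 + K * l ^ 4)) ^ d ≤ Real.exp l := by
  have h := (Real.tendsto_exp_div_pow_atTop (4 * d)).eventually_ge_atTop ((C * (1 + K)) ^ d)
  obtain ⟨l₁, hl₁⟩ := Filter.eventually_atTop.1 h
  refine ⟨max 1 l₁, le_max_left _ _, fun l hl => ?_⟩
  have h1 : 1 ≤ l := (le_max_left _ _).trans hl
  have h2 := hl₁ l ((le_max_right _ _).trans hl)
  rw [le_div_iff₀ (by positivity), pow_mul, ← mul_pow] at h2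
  refine le_trans (pow_le_pow_left₀ (by positivity) ?_ _) h2
  have h3 : 1 ≤ l ^ 4 := one_le_pow₀ h1
  rw [mul_assoc]
  exact mul_le_mul_of_nonneg_left (by nlinarith) hC

lemma entropy (d s : ℕ) (hs : 1 ≤ s) {C K ε l j L : ℝ} (hC : 0 ≤ C) (hK : 0 ≤ K) (hε : 0 ≤ ε)
    (hj : 0 ≤ j) (hL0 : 0 ≤ L) (hL : L ≤ K * ε * (l ^ 4 * j))
    (h : (C * (1 + K * l ^ 4)) ^ d ≤ Real.exp l) :
    (C * (1 + L / s)) ^ (d * s) ≤ Real.exp (l * s + d * ε * j) := by
  have hs0 : (0 : ℝ) < s := by exact_mod_cast hs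
  have hl : 0 ≤ l ^ 4 := by positivity
  have h1 : 1 + L / s ≤ (1 + K * l ^ 4) * Real.exp (ε * j / s) := by
    have h2 : ε * j / s + 1 ≤ Real.exp (ε * j / s) := Real.add_one_le_exp _
    have h3 : L / s ≤ K * l ^ 4 * (ε * j / s) := by
      rw [← mul_div_assoc]
      exact div_le_div_of_nonneg_right (by linarith) hs0.le
    have h4 : 0 ≤ ε * j / s := by positivity
    have h5 : 0 ≤ K * l ^ 4 := by positivity
    nlinarith [mul_le_mul_of_nonneg_left h2 (by linarith : 0 ≤ 1 + K * l ^ 4)]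
  calc (C * (1 + L / s)) ^ (d * s)
      ≤ (C * (1 + K * l ^ 4) * Real.exp (ε * j / s)) ^ (d * s) := by
        refine pow_le_pow_left₀ (by positivity) ?_ _
        rw [mul_assoc]
        exact mul_le_mul_of_nonneg_left h1 hC
    _ = ((C * (1 + K * l ^ 4)) ^ d) ^ s * Real.exp (d * ε * j) := by
        rw [mul_pow, pow_mul, ← Real.exp_nat_mul]
        congr 2
        push_cast
        field_simp
    _ ≤ Real.exp l ^ s * Real.exp (d * ε * j) :=
        mul_le_mul_of_nonneg_right (pow_le_pow_left₀ (by positivity) h _) (Real.exp_pos _).le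
    _ = Real.exp (l * s + d * ε * j) := by
        rw [← Real.exp_nat_mul, ← Real.exp_add, mul_comm]

end Over

theorem st_OVER (hW : St_WALK) (hG : St_GRID) (hS : St_SEQ) : St_OVER := by
  intro d θ C₁ hθ
  refine ⟨(2 * |C₁| + 4) / θ, by positivity, fun CY φ Cκ hY hφ hκ => ?_⟩
  obtain ⟨C, hC, hF⟩ := hS d
  set ε : ℝ := θ * φ / (4 * (d + 1)) with hε
  have hε0 : 0 < ε := by positivity
  obtain ⟨l₀, hl₀, hev⟩ := Over.ev d (C := C) (K := 2 * Cκ / ε) (by linarith) (by positivity)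
  refine ⟨θ * φ / 4, 2, l₀, by positivity, ?_⟩
  intro n m _ _ hmn ι _ E π hπ Big l N hl hN hB x k hk
  have hl1 : 1 ≤ l := hl₀.trans hl
  have hl4 : 0 < l ^ 4 := by positivity
  have hk0 : 0 < k := hl4.trans_le hk
  set j : ℝ := k / l ^ 4 with hj
  have hj0 : 0 < j := by positivity
  have hkj : k = l ^ 4 * j := by rw [hj]; field_simp
  set L : ℕ := ⌊2 * Cκ * k⌋₊ with hL
  have hL1 : (L : ℝ) ≤ 2 * Cκ * k := Nat.floor_le (by positivity)
  choose F hF1 hF2 using fun s : ℕ => hF (zblk n m (lift0 x)) L (s + 1) (by omega)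
  have hY' : 2 * |C₁| + 4 ≤ θ * CY := by rwa [div_le_iff₀ hθ, mul_comm CY] at hY
  -- one fixed set of blocks
  have one : ∀ (s : ℕ) (P : Finset (Zd d)), PE E π (fun ω => ind (P.card = s + 1 ∧
      (φ * k + CY * (N * l ^ 4) * (s + 1 : ℕ)) / 2 ≤
        (flt (Big ω) fun y => tblk m y ∈ P.image (proj m)).card)) ≤
      Real.exp (-(θ * φ * j / 2) - 2 * N * (s + 1 : ℕ)) := by
    intro s P
    by_cases hP : P.card = s + 1
    swap
    · exact PE_le_const hπ fun ω => by rw [ind_neg fun h => hP h.1]; exact (Real.exp_pos _).le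
    have h1 := PE_markov (E := E) hπ (f := fun ω => Real.exp (θ *
      (flt (Big ω) fun y => tblk m y ∈ P.image (proj m)).card / l ^ 4))
      (fun _ => (Real.exp_pos _).le)
      (Real.exp_pos (θ * ((φ * k + CY * (N * l ^ 4) * (s + 1 : ℕ)) / 2) / l ^ 4))
    refine (PE_ind_mono hπ fun ω h => ?_).trans (h1.trans ?_)
    · exact Real.exp_le_exp.2 (div_le_div_of_nonneg_right
        (mul_le_mul_of_nonneg_left h.2 hθ.le) hl4.le)
    · refine (div_le_div_of_nonneg_right (hB _) (Real.exp_pos _).le).trans ?_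
      rw [← Real.exp_sub, Real.exp_le_exp]
      have h2 : ((P.image (proj m)).card : ℝ) ≤ (s + 1 : ℕ) :=
        Nat.cast_le.2 (hP ▸ Finset.card_image_le)
      have h3 : θ * ((φ * k + CY * (N * l ^ 4) * (s + 1 : ℕ)) / 2) / l ^ 4 =
          θ * φ * j / 2 + θ * CY * (N * (s + 1 : ℕ)) / 2 := by
        rw [hj]; field_simp
      rw [h3]
      have hN0 : 0 ≤ N := by linarith
      have h4 : C₁ * N * (P.image (proj m)).card ≤ |C₁| * (N * (s + 1 : ℕ)) := by
        rw [mul_assoc]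
        exact (mul_le_mul_of_nonneg_right (le_abs_self _)
          (mul_nonneg hN0 (Nat.cast_nonneg _))).trans
          (mul_le_mul_of_nonneg_left (mul_le_mul_of_nonneg_left h2 hN0) (abs_nonneg _))
      have h5 := mul_le_mul_of_nonneg_right hY'
        (mul_nonneg hN0 (Nat.cast_nonneg (α := ℝ) (s + 1)))
      nlinarith
  refine (PE_ind_mono hπ (Q := fun ω => ∃ s ∈ range (Fintype.card (Tor d m)), ∃ P ∈ F s,
      P.card = s + 1 ∧ (φ * k + CY * (N * l ^ 4) * (s + 1 : ℕ)) / 2 ≤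
        (flt (Big ω) fun y => tblk m y ∈ P.image (proj m)).card) fun ω h => ?_).trans ?_
  · obtain ⟨A, hA1, hA2, hA3, hA4⟩ := h
    have hm := Over.mass (tblk m) A (Big ω) hA1 (CY * (N * l ^ 4))
    set O := flt A fun y => CY * (N * l ^ 4) < (flt A fun z => tblk m z = tblk m y).card with hO
    have hO0 : O.Nonempty := by
      rw [← Finset.card_pos]
      have : (0 : ℝ) < O.card := lt_of_lt_of_le (by positivity) hA4
      exact_mod_cast this
    have hx : x ∈ A := by
      obtain ⟨y, hy⟩ := hO0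
      exact (hA2 y (flt_subset _ _ hy)).left
    obtain ⟨f, f1, f2, P, p1, p2, p3⟩ := Over.cover hW hG hmn A x hx hA2 (O.image (tblk m))
      fun b hb => by
        obtain ⟨y, hy, rfl⟩ := mem_image.1 hb
        exact ⟨y, flt_subset _ _ hy, rfl⟩
    have hT0 : 0 < (O.image (tblk m)).card := Finset.card_pos.2 (hO0.image _)
    obtain ⟨s, hs⟩ : ∃ s, (O.image (tblk m)).card = s + 1 := ⟨_, (Nat.succ_pred_eq_of_pos hT0).symm⟩
    have hle : (O.image (tblk m)).card ≤ Fintype.card (Tor d m) := Finset.card_le_univ _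
    have hAL : 2 * A.card ≤ L := Nat.le_floor (by push_cast; linarith)
    refine ⟨s, mem_range.2 (by omega), P, hF2 s f f1 f2 P (p1.trans hs) fun y hy => ?_,
      p1.trans hs, ?_⟩
    · obtain ⟨i, hi, e⟩ := p3 y hy
      exact ⟨i, hi.trans hAL, e⟩
    · rw [p2, ← hs]
      linarith
  refine (PE_ind_exists hπ _ _).trans ?_
  have two : ∀ s : ℕ, PE E π (fun ω => ind (∃ P ∈ F s, P.card = s + 1 ∧
      (φ * k + CY * (N * l ^ 4) * (s + 1 : ℕ)) / 2 ≤
        (flt (Big ω) fun y => tblk m y ∈ P.image (proj m)).card)) ≤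
      (1 / 2) ^ s * Real.exp (-(θ * φ / 4 * k / l ^ 4)) := by
    intro s
    refine (PE_ind_exists hπ _ _).trans ((Finset.sum_le_card_nsmul _ _ _
      fun P _ => one s P).trans ?_)
    rw [nsmul_eq_mul]
    have h1 := Over.entropy d (s + 1) (by omega) (C := C) (K := 2 * Cκ / ε) (l := l) (L := L)
      (by linarith) (by positivity) hε0.le hj0.le (Nat.cast_nonneg _)
      (by rw [div_mul_cancel₀ _ hε0.ne', ← hkj]; exact hL1) (hev l hl)
    refine (mul_le_mul_of_nonneg_right ((hF1 s).trans h1) (Real.exp_pos _).le).trans ?_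
    have h2 : (1 / 2 : ℝ) ^ s = Real.exp (-(s * Real.log 2)) := by
      rw [Real.exp_neg, Real.exp_nat_mul, Real.exp_log (by norm_num), one_div, inv_pow]
    rw [h2, ← Real.exp_add, ← Real.exp_add, Real.exp_le_exp]
    have h3 : d * ε * j ≤ θ * φ * j / 4 := by
      have : d * ε ≤ θ * φ / 4 := by
        have e : θ * φ / 4 = (d + 1) * ε := by rw [hε]; field_simp
        rw [e]; nlinarith
      nlinarith
    have h4 : θ * φ / 4 * k / l ^ 4 = θ * φ * j / 4 := by rw [hj]; ring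
    have h5 : Real.log 2 ≤ 1 := by
      have := Real.log_le_sub_one_of_pos (by norm_num : (0 : ℝ) < 2); linarith
    have hs0 : (0 : ℝ) ≤ s := Nat.cast_nonneg _
    rw [h4]
    push_cast
    nlinarith [mul_le_mul_of_nonneg_right hN (by linarith : (0 : ℝ) ≤ s + 1),
      mul_le_mul_of_nonneg_right (hl1.trans hN) (by linarith : (0 : ℝ) ≤ s + 1),
      mul_le_mul_of_nonneg_left h5 hs0]
  refine (Finset.sum_le_sum fun s _ => two s).trans ?_
  rw [← Finset.sum_mul]
  exact mul_le_mul_of_nonneg_right (sum_geometric_two_le _) (Real.exp_pos _).le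

end Pool.Agent.TPC
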