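import Pool.Agent.Lib.TPC.BlueF2

/-! The probabilistic inputs of the second regime. -/

open Finset

namespace Pool.Agent.TPC

open Pool.Agent.Lib.MP_81a99a_pr (lattice torus)

theorem st_PK2 (hS : St_SETII) (hB : St_BADP) (hM : St_MAIN) (hL : St_LEV) (hY : St_Y)
    (hG : St_GRID) (hO : St_OJ) (hC : St_GGC) : St_PK2 := by
  intro d p c C H
  obtain ⟨K, C₀, R, L₀, C1, R1, hS⟩ := hS d p c C H
  obtain ⟨κ₁, c₁, lam, l₁, κ0, c0, c1, lam0, hB⟩ := hB K
  obtain ⟨κ, κ₄, l₂, κ1, κ14, κ4, hL⟩ := hL p κ₁ H.p0 H.p1 κ0.le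
  obtain ⟨θ, C₁, l₃, C₃, θ0, C10, hY⟩ := hY d p c C H (p * κ) (max R 2)
  obtain ⟨Cκ, Cκ1, hM⟩ := hM K κ₁ c₁ κ₄ κ0.le c0 c1 (by linarith)
  refine ⟨κ, max C₀ C₃, R, c₁, lam, Cκ, θ, C₁, K, κ1, le_max_of_le_left C1, R1, c0, lam0, Cκ1, θ0,
    fun CY CY0 => ?_⟩
  obtain ⟨φ₃, φ₄, c', C', k₀, l₄, φ3, φ4, c'0, C'0, hM⟩ := hM CY ((C₁ + 1) / θ) CY0 (by positivity)
  refine ⟨φ₃, φ₄, c', C', max (max (max L₀ l₁) (max l₂ l₃)) (max l₄ 1), φ3, φ4, c'0, C'0,
    fun n _ l hl hn => ?_⟩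
  simp only [max_le_iff] at hl
  obtain ⟨⟨⟨g0, g1⟩, g2, g3⟩, g4, g5⟩ := hl
  have l0 : 0 < l := by positivity
  have hd := H.hd
  have lN : l ≤ l ^ (d - 6) := le_self_pow₀ g5 (by omega)
  obtain ⟨m, im, M, S, hT, hR⟩ := hS n l g0
    ((mul_le_mul_of_nonneg_right (le_max_left _ _) l0.le).trans hn)
  obtain ⟨q, hq, q0, q1, q2, q3, q4, q4', qp⟩ := hL l g2
  obtain ⟨MG, Mp, Ml, MN⟩ := id hT
  have pl : plev q 4 = p * (1 + κ / l ^ 2) := (plev_four q).trans qp
  have l2 : 0 < l ^ 2 := by positivity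
  have v1 : M.Lv κ₁ 1 q := ⟨q0.trans Mp.symm, hq, fun j h0 h1 => by
    have : j = 1 := by omega
    rw [this, q1, Ml]⟩
  have v4 : M.Lv κ₄ 4 q := ⟨q0.trans Mp.symm, hq, fun j h0 _ => by
    rw [Ml]
    have : j = 1 ∨ j = 2 ∨ j = 3 ∨ j = 4 := by omega
    rcases this with rfl | rfl | rfl | rfl
    · rw [q1]; gcongr
    · rw [q2]; gcongr
    · rw [q3]; gcongr
    · exact q4'⟩
  have mom : ∀ Z P : Finset (Tor d n), (∀ y ∈ P, ∃ z ∈ Z, td z y ≤ max R 2 * l) →
      PL q (fun ω => Real.exp (θ *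
        (flt P fun y => l ^ 4 ≤ ((M.cv univ 4 ω y).card : ℝ)).card / l ^ 4)) ≤
        Real.exp (C₁ * l ^ (d - 6) * Z.card) := fun Z P h => by
    have := hY n l (plev q 4) g3 ((mul_le_mul_of_nonneg_right (le_max_right _ _) l0.le).trans hn)
      (plev_mem hq 4).1 (plev_mem hq 4).2 (by rw [pl]; exact le_of_eq (by ring)) Z P h
    rw [← PL_lev, ← MG] at this
    exact this
  refine ⟨m, im, M, S, q, hT, hR, hq, pl, fun T => ?_, fun T => ?_, fun k x hk => ?_⟩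
  · have := hB _ M _ S q v1 (by rw [q1, Ml]) (by rw [q2, Ml]) (by rw [q3, Ml]) (by rwa [Ml])
      (by rw [MN]; linarith) T
    rw [MN] at this
    exact this
  · refine le_trans (le_of_eq ?_) ((mom (T.image (tctr n)) (flt univ fun y => tblk m y ∈ T)
      fun y hy => ⟨_, mem_image_of_mem _ (mem_flt.1 hy).2, ?_⟩).trans ?_)
    · refine congrArg (PL q) (funext fun ω => ?_)
      have : (flt (flt univ fun y => l ^ 4 ≤ ((M.cv univ 4 ω y).card : ℝ)) fun y => tblk m y ∈ T) =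
          flt (flt univ fun y => tblk m y ∈ T) fun y => l ^ 4 ≤ ((M.cv univ 4 ω y).card : ℝ) := by
        ext y
        simp only [mem_flt, mem_univ, true_and]
        exact and_comm
      rw [this]
    · exact ((hG d n m hR.1).1 y).trans (hR.2.2.1.trans
        (mul_le_mul_of_nonneg_right (le_max_right _ _) l0.le))
    · have : ((T.image (tctr n)).card : ℝ) ≤ T.card := by exact_mod_cast card_image_le
      gcongr
  · have := hM _ M _ S q v1 v4 (by rw [q2, Ml]) (by rwa [Ml]) (by rwa [Ml]) (by rw [MN]; linarith)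
      (fun ω => Oset (badSet S c₁ ω)) (fun ω ω' h => ?_)
      (fun ω b hb => (hC K _ M _ S c₁ ω).2.1 b (good_of_Oset hO (by omega) hb)) k (by rwa [Ml])
      (Or.inl fun b => ⟨by rwa [Ml, MN], ?_⟩) x
    · rw [Ml] at this
      exact this
    · refine congrArg Oset (Set.ext fun b => not_congr (Eq.to_iff ?_))
      exact (hC K _ M _ S c₁ ω).1 b ω ω' fun e he => h e he.2
    have h1 := mom {tctr n b} (S.K2 b) fun y hy => ⟨_, mem_singleton_self _,
      (mem_tball.1 (hR.2.2.2.2.1 b ((S.lb2 b).1 hy))).trans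
        (mul_le_mul_of_nonneg_right (le_max_left _ _) l0.le)⟩
    have h2 := PE_markov (E := univ) (prob_lev (V := Tor d n) hq) (f := fun ω => Real.exp (θ *
      (flt (S.K2 b) fun y => l ^ 4 ≤ ((M.cv univ 4 ω y).card : ℝ)).card / l ^ 4))
      (fun _ => (Real.exp_pos _).le) (Real.exp_pos ((C₁ + 1) * l ^ (d - 6)))
    rw [Core.U, Ml, MN]
    refine le_trans (PE_ind_mono (prob_lev hq) fun ω h => ?_) (h2.trans ?_)
    · have h3 : ((flt (S.K2 b) fun y => l ^ 4 ≤ ((M.cv univ 1 ω y).card : ℝ)).card : ℝ) ≤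
          (flt (S.K2 b) fun y => l ^ 4 ≤ ((M.cv univ 4 ω y).card : ℝ)).card := by
        refine Nat.cast_le.2 (card_le_card fun y hy => mem_flt.2 ⟨(mem_flt.1 hy).1,
          (mem_flt.1 hy).2.trans (Nat.cast_le.2 (card_le_card ?_))⟩)
        exact cl_mono subset_rfl (lev_mono (by decide) subset_rfl)
      rw [Real.exp_le_exp, le_div_iff₀ (by positivity)]
      have h4 := mul_le_mul_of_nonneg_left (h.le.trans h3) θ0.le
      refine le_trans (le_of_eq ?_) h4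
      field_simp
    · rw [div_le_iff₀ (Real.exp_pos _), ← Real.exp_add]
      refine h1.trans (le_of_eq (congrArg Real.exp ?_))
      rw [card_singleton]
      push_cast
      ring

end Pool.Agent.TPC
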