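import Pool.Agent.Lib.TPC.Path

/-! Last exit from `B`, first entrance to `A`. -/

open Finset

set_option linter.unusedSectionVars false

namespace Pool.Agent.TPC

namespace PL3

variable {V : Type} [DecidableEq V] {G : SimpleGraph V} {π : Sym2 V → ℝ}

/-- two disjoint connections -/
def Dj2 (G : SimpleGraph V) (D₁ D₂ : Finset V) (x y z t : V) (ω : Finset (Sym2 V)) : Prop :=
  ∃ S T : Finset (Sym2 V), S ⊆ ω ∧ T ⊆ ω ∧ Disjoint S T ∧ conn G D₁ S x y ∧ conn G D₂ T z t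

/-- three disjoint connections -/
def Dj3 (G : SimpleGraph V) (D₁ D₂ D₃ : Finset V) (x y z t u v : V) (ω : Finset (Sym2 V)) :
    Prop :=
  ∃ S T R : Finset (Sym2 V), S ⊆ ω ∧ T ⊆ ω ∧ R ⊆ ω ∧ Disjoint S T ∧ Disjoint S R ∧
    Disjoint T R ∧ conn G D₁ S x y ∧ conn G D₂ T z t ∧ conn G D₃ R u v

lemma PE_two (h : St_BK) (hπ : Prob π) {U D₁ D₂ : Finset V} (h1 : D₁ ⊆ U) (h2 : D₂ ⊆ U)
    (x y z t : V) : PE (edges G U) π (fun ω => ind (Dj2 G D₁ D₂ x y z t ω)) ≤
      tau G π D₁ x y * tau G π D₂ z t := by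
  have := bk2 h (edges G U) hπ (conn_monotone G D₁ x y) (conn_monotone G D₂ z t)
  rw [PE_conn (edges_mono h1), PE_conn (edges_mono h2)] at this
  exact this

lemma PE_three (h : St_BK) (hπ : Prob π) {U D₁ D₂ D₃ : Finset V} (h1 : D₁ ⊆ U) (h2 : D₂ ⊆ U)
    (h3 : D₃ ⊆ U) (x y z t u v : V) :
    PE (edges G U) π (fun ω => ind (Dj3 G D₁ D₂ D₃ x y z t u v ω)) ≤
      tau G π D₁ x y * tau G π D₂ z t * tau G π D₃ u v := by
  have := bk3 h (edges G U) hπ (conn_monotone G D₁ x y) (conn_monotone G D₂ z t)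
    (conn_monotone G D₃ u v)
  rw [PE_conn (edges_mono h1), PE_conn (edges_mono h2), PE_conn (edges_mono h3)] at this
  exact this

lemma cons_disjoint {H : SimpleGraph V} {x a b y : V} (w₁ : H.Walk x a) (h : H.Adj a b)
    (w₂ : H.Walk b y) (ht : (w₁.append (SimpleGraph.Walk.cons h w₂)).IsTrail) :
    Disjoint w₁.edges.toFinset w₂.edges.toFinset := by
  refine (append_disjoint _ _ ht).mono_right fun e he => ?_
  simp only [SimpleGraph.Walk.edges_cons, List.toFinset_cons, Finset.mem_insert]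
  exact Or.inr he

lemma mem_left {H : SimpleGraph V} {x a y v : V} (w₁ : H.Walk x a) (w₂ : H.Walk a y)
    (hv : v ∈ w₁.support) : v ∈ (w₁.append w₂).support :=
  (SimpleGraph.Walk.mem_support_append_iff _ _).2 (Or.inl hv)

lemma mem_right {H : SimpleGraph V} {x a b y v : V} (w₁ : H.Walk x a) (h : H.Adj a b)
    (w₂ : H.Walk b y) (hv : v ∈ w₂.support) :
    v ∈ (w₁.append (SimpleGraph.Walk.cons h w₂)).support :=
  (SimpleGraph.Walk.mem_support_append_iff _ _).2 (Or.inr (by simp [hv]))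

lemma edges_left {H : SimpleGraph V} {x a y : V} (w₁ : H.Walk x a) (w₂ : H.Walk a y) :
    w₁.edges.toFinset ⊆ (w₁.append w₂).edges.toFinset := by
  intro e he
  rw [SimpleGraph.Walk.edges_append, List.toFinset_append]
  exact Finset.mem_union_left _ he

lemma edges_right {H : SimpleGraph V} {x a b y : V} (w₁ : H.Walk x a) (h : H.Adj a b)
    (w₂ : H.Walk b y) :
    w₂.edges.toFinset ⊆ (w₁.append (SimpleGraph.Walk.cons h w₂)).edges.toFinset := by
  intro e he
  rw [SimpleGraph.Walk.edges_append, List.toFinset_append]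
  refine Finset.mem_union_right _ ?_
  simp only [SimpleGraph.Walk.edges_cons, List.toFinset_cons, Finset.mem_insert]
  exact Or.inr he

lemma through {U : Finset V} {ω : Finset (Sym2 V)} {x y u : V} (w : (opD G U ω).Walk x y)
    (hw : w.IsPath) (hx : x ∈ U) (hu : u ∈ w.support) : Dj2 G U U x u u y ω := by
  obtain ⟨w₁, w₂, rfl⟩ := cut_at w hu
  have hs := walk_support_mem (w₁.append w₂) hx
  refine ⟨_, _, walk_edges_subset w₁, walk_edges_subset w₂, append_disjoint _ _ hw.isTrail,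
    walk_conn w₁ fun v hv => hs v (mem_left _ _ hv), walk_conn w₂ fun v hv => hs v ?_⟩
  exact (SimpleGraph.Walk.mem_support_append_iff _ _).2 (Or.inr hv)

lemma det_a {U A S : Finset V} {ω : Finset (Sym2 V)} {z a : V} (hz : z ∉ A) (ha : a ∈ A)
    (h : conn G U ω z a) : (∃ u ∈ S, Dj2 G U U z u u a ω) ∨
      ∃ v ∈ U \ (A ∪ S), ∃ a' ∈ A \ S, G.Adj v a' ∧ Dj2 G (U \ (A ∪ S)) U z v a' a ω := by
  obtain ⟨w, hw⟩ := h.exists_path
  by_cases hS : ∃ u ∈ S, u ∈ w.support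
  · obtain ⟨u, h1, h2⟩ := hS
    exact Or.inl ⟨u, h1, through w hw h.1 h2⟩
  · right
    have hS' : ∀ u ∈ w.support, u ∉ S := fun u h1 h2 => hS ⟨u, h2, h1⟩
    have hs := walk_support_mem w h.1
    obtain ⟨v, a', w₁, hv, w₂, rfl, h1, h2⟩ :=
      first_hit (· ∈ A) w hz ⟨a, w.end_mem_support, ha⟩
    have m1 : ∀ t ∈ w₁.support, t ∈ U \ (A ∪ S) := fun t ht =>
      Finset.mem_sdiff.2 ⟨hs t (mem_left _ _ ht), fun h3 => (Finset.mem_union.1 h3).elim
        (h1 t ht) (hS' t (mem_left _ _ ht))⟩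
    refine ⟨v, m1 v w₁.end_mem_support, a',
      Finset.mem_sdiff.2 ⟨h2, hS' a' (mem_right _ _ _ w₂.start_mem_support)⟩, hv.1,
      _, _, walk_edges_subset w₁, walk_edges_subset w₂, cons_disjoint _ _ _ hw.isTrail,
      walk_conn w₁ m1, walk_conn w₂ fun t ht => hs t (mem_right _ _ _ ht)⟩

lemma det {U A B S : Finset V} {ω : Finset (Sym2 V)} {x a : V} (hx : x ∈ B) (ha : a ∈ A)
    (hd : Disjoint A B) (h : conn G U ω x a) : (∃ u ∈ S, Dj2 G U U x u u a ω) ∨
      (∃ b ∈ B, ∃ a' ∈ A \ S, G.Adj b a' ∧ Dj2 G U U x b a' a ω) ∨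
      ∃ b ∈ B, ∃ z ∈ U \ (A ∪ B ∪ S), ∃ v ∈ U \ (A ∪ B ∪ S), ∃ a' ∈ A \ S,
        G.Adj b z ∧ G.Adj v a' ∧ Dj3 G U (U \ (A ∪ B ∪ S)) U x b z v a' a ω := by
  obtain ⟨w, hw⟩ := h.exists_path
  by_cases hS : ∃ u ∈ S, u ∈ w.support
  · obtain ⟨u, h1, h2⟩ := hS
    exact Or.inl ⟨u, h1, through w hw h.1 h2⟩
  · right
    have hS' : ∀ u ∈ w.support, u ∉ S := fun u h1 h2 => hS ⟨u, h2, h1⟩
    have hs := walk_support_mem w h.1
    obtain ⟨v, a', w₁, hv, w₂, rfl, h1, h2⟩ :=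
      first_hit (· ∈ A) w (Finset.disjoint_right.1 hd hx) ⟨a, w.end_mem_support, ha⟩
    have ha' : a' ∈ A \ S :=
      Finset.mem_sdiff.2 ⟨h2, hS' a' (mem_right _ _ _ w₂.start_mem_support)⟩
    have c2 : conn G U w₂.edges.toFinset a' a :=
      walk_conn w₂ fun t ht => hs t (mem_right _ _ _ ht)
    have d12 := cons_disjoint _ _ _ hw.isTrail
    by_cases hvB : v ∈ B
    · exact Or.inl ⟨v, hvB, a', ha', hv.1, _, _, walk_edges_subset w₁, walk_edges_subset w₂, d12,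
        walk_conn w₁ fun t ht => hs t (mem_left _ _ ht), c2⟩
    · right
      obtain ⟨b, z, w₃, hb, w₄, rfl, h3, h4⟩ :=
        last_hit (· ∈ B) w₁ hvB ⟨x, w₁.start_mem_support, hx⟩
      have m1 : ∀ t ∈ w₄.support, t ∈ U \ (A ∪ B ∪ S) := fun t ht => by
        have k1 := mem_right w₃ hb w₄ ht
        have k2 := mem_left _ (SimpleGraph.Walk.cons hv w₂) k1
        refine Finset.mem_sdiff.2 ⟨hs t k2, fun h5 => ?_⟩
        rcases Finset.mem_union.1 h5 with h5 | h5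
        · exact (Finset.mem_union.1 h5).elim (h1 t k1) (h4 t ht)
        · exact hS' t k2 h5
      refine ⟨b, h3, z, m1 z w₄.start_mem_support, v, m1 v w₄.end_mem_support, a', ha', hb.1,
        hv.1, _, _, _, walk_edges_subset w₃, walk_edges_subset w₄, walk_edges_subset w₂,
        cons_disjoint _ _ _ hw.isTrail.of_append_left, d12.mono_left (edges_left _ _),
        d12.mono_left (edges_right _ _ _),
        walk_conn w₃ fun t ht => hs t (mem_left _ _ (mem_left _ _ ht)), walk_conn w₄ m1, c2⟩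

lemma ind_ex2 {α β : Type} (s : Finset α) (t : Finset β) (P Q : α → β → Prop) :
    ind (∃ a ∈ s, ∃ b ∈ t, P a b ∧ Q a b) ≤ ∑ a ∈ s, ∑ b ∈ t, ind (P a b) * ind (Q a b) := by
  refine (ind_exists_le s _).trans (Finset.sum_le_sum fun a _ => ?_)
  refine (ind_exists_le t _).trans (Finset.sum_le_sum fun b _ => ?_)
  rw [ind_and]

end PL3

open PL3 in
theorem st_PL3a (h : St_BK) : St_PL3a := by
  intro V _ G π hπ U A S z a hz ha
  have h1 : tau G π U z a ≤ PE (edges G U) π (fun ω => ∑ u ∈ S, ind (Dj2 G U U z u u a ω) +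
      ∑ v ∈ U \ (A ∪ S), ∑ a' ∈ A \ S,
        ind (G.Adj v a') * ind (Dj2 G (U \ (A ∪ S)) U z v a' a ω)) := by
    refine PE_mono hπ fun ω => ?_
    refine (ind_mono (det_a (S := S) hz ha)).trans ((ind_or_le _ _).trans ?_)
    exact add_le_add (ind_exists_le _ _) (ind_ex2 _ _ _ _)
  refine h1.trans ?_
  rw [PE_add, PE_sum, PE_sum]
  refine add_le_add (Finset.sum_le_sum fun u _ => PE_two h hπ subset_rfl subset_rfl _ _ _ _)
    (Finset.sum_le_sum fun v _ => ?_)
  rw [PE_sum]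
  refine Finset.sum_le_sum fun a' _ => ?_
  rw [PE_mul_left]
  exact mul_le_mul_of_nonneg_left (PE_two h hπ Finset.sdiff_subset subset_rfl _ _ _ _)
    (ind_nonneg _)

open PL3 in
theorem st_PL3 (h : St_BK) : St_PL3 := by
  intro V _ G π hπ U A B S x a hx ha hd
  have h1 : tau G π U x a ≤ PE (edges G U) π (fun ω => ∑ u ∈ S, ind (Dj2 G U U x u u a ω) +
      ∑ b ∈ B, ∑ a' ∈ A \ S, ind (G.Adj b a') * ind (Dj2 G U U x b a' a ω) +
      ∑ b ∈ B, ∑ z ∈ U \ (A ∪ B ∪ S), ∑ v ∈ U \ (A ∪ B ∪ S), ∑ a' ∈ A \ S,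
        ind (G.Adj b z) * ind (G.Adj v a') *
          ind (Dj3 G U (U \ (A ∪ B ∪ S)) U x b z v a' a ω)) := by
    refine PE_mono hπ fun ω => ?_
    refine (ind_mono (det (S := S) hx ha hd)).trans ((ind_or_le _ _).trans ?_)
    rw [add_assoc]
    refine add_le_add (ind_exists_le _ _) ((ind_or_le _ _).trans (add_le_add (ind_ex2 _ _ _ _) ?_))
    refine (ind_exists_le _ _).trans (Finset.sum_le_sum fun b _ => ?_)
    refine (ind_exists_le _ _).trans (Finset.sum_le_sum fun z _ => ?_)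
    refine (ind_exists_le _ _).trans (Finset.sum_le_sum fun v _ => ?_)
    refine (ind_exists_le _ _).trans (Finset.sum_le_sum fun a' _ => ?_)
    rw [ind_and, ind_and, mul_assoc]
  refine h1.trans ?_
  rw [PE_add, PE_add, PE_sum, PE_sum, PE_sum]
  refine add_le_add (add_le_add
    (Finset.sum_le_sum fun u _ => PE_two h hπ subset_rfl subset_rfl _ _ _ _)
    (Finset.sum_le_sum fun b _ => ?_)) (Finset.sum_le_sum fun b _ => ?_)
  · rw [PE_sum]
    refine Finset.sum_le_sum fun a' _ => ?_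
    rw [PE_mul_left]
    exact mul_le_mul_of_nonneg_left (PE_two h hπ subset_rfl subset_rfl _ _ _ _) (ind_nonneg _)
  · rw [PE_sum]
    refine Finset.sum_le_sum fun z _ => ?_
    rw [PE_sum]
    refine Finset.sum_le_sum fun v _ => ?_
    rw [PE_sum]
    refine Finset.sum_le_sum fun a' _ => ?_
    rw [PE_mul_left]
    exact mul_le_mul_of_nonneg_left
      (PE_three h hπ subset_rfl Finset.sdiff_subset subset_rfl _ _ _ _ _ _)
      (mul_nonneg (ind_nonneg _) (ind_nonneg _))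

end Pool.Agent.TPC
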