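import Pool.Agent.Lib.TPC.Path

/-! Long connections are rare; thinning of short connections. -/

open Finset

namespace Pool.Agent.TPC

namespace PL6

/-- a product measure with parameter `p * r` is the `r`-thinning of the one with parameter `p` -/
lemma thin {ι : Type} [DecidableEq ι] (E : Finset ι) (p r : ℝ) (F : Finset ι → ℝ) :
    PE E (fun _ => p * r) F = PE E (fun _ => p) (fun ω => PE ω (fun _ => r) F) := by
  induction E using Finset.induction_on generalizing F with
  | empty => simp
  | insert e E he ih =>
    rw [PE_insert he, PE_insert he, ih, ih]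
    have h1 : PE E (fun _ => p) (fun ω => PE (insert e ω) (fun _ => r) F) =
        r * PE E (fun _ => p) (fun ω => PE ω (fun _ => r) fun a => F (insert e a)) +
          (1 - r) * PE E (fun _ => p) (fun ω => PE ω (fun _ => r) F) := by
      rw [← PE_mul_left, ← PE_mul_left, ← PE_add]
      exact PE_congr fun ω hω => PE_insert (fun h => he (hω h)) _ _
    rw [h1]
    ring

end PL6

theorem st_PL6 (h : St_BK) : St_PL6 := by
  intro V _ G U x y m hm
  refine ⟨fun π hπ => ?_, fun p q hq hqp hp => ?_⟩
  · have h1 : PE (edges G U) π (fun ω => ind (conn G U ω x y ∧ ¬ connL G U ω x y m)) ≤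
        PE (edges G U) π (fun ω => (∑ v ∈ U, ind (∃ S T : Finset (Sym2 V), S ⊆ ω ∧ T ⊆ ω ∧
          Disjoint S T ∧ conn G U S x v ∧ conn G U T v y)) / m) := by
      refine PE_mono hπ fun ω => ind_le_of
        (div_nonneg (Finset.sum_nonneg fun _ _ => ind_nonneg _) hm.le) ?_
      rintro ⟨h2, h3⟩
      obtain ⟨w, hw⟩ := h2.exists_path
      have h4 : m < w.length := lt_of_not_ge fun h5 => h3 ⟨h2.1, w, h5⟩
      have h5 : w.support.toFinset ⊆ U := fun v hv =>
        walk_support_mem w h2.1 v (List.mem_toFinset.1 hv)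
      have h6 : (w.support.toFinset.card : ℝ) = w.length + 1 := by
        rw [List.toFinset_card_of_nodup hw.support_nodup, SimpleGraph.Walk.length_support]
        push_cast
        rfl
      rw [le_div_iff₀ hm, one_mul]
      refine le_trans ?_ (Finset.sum_le_sum_of_subset_of_nonneg h5 fun _ _ _ => ind_nonneg _)
      refine le_trans ?_ (Finset.card_nsmul_le_sum _ _ (1 : ℝ) fun v hv => ?_)
      · rw [nsmul_eq_mul, h6]; linarith
      · obtain ⟨w₁, w₂, e⟩ := cut_at w (List.mem_toFinset.1 hv)
        refine le_of_eq (ind_pos ⟨_, _, walk_edges_subset w₁, walk_edges_subset w₂,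
          append_disjoint w₁ w₂ (e ▸ hw.isTrail), walk_conn w₁ (walk_support_mem w₁ h2.1),
          walk_conn w₂ (walk_support_mem w₂ (h5 hv))⟩).symm
    refine h1.trans ?_
    rw [PE_div, PE_sum]
    refine div_le_div_of_nonneg_right (Finset.sum_le_sum fun v _ => ?_) hm.le
    exact bk2 h _ hπ (conn_monotone G U x v) (conn_monotone G U v y)
  · have hp0 : 0 < p := lt_of_lt_of_le hq hqp
    have r0 : 0 < q / p := div_pos hq hp0
    have r1 : q / p ≤ 1 := (div_le_one hp0).2 hqp
    have e : q = p * (q / p) := by field_simp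
    have h1 : tau G (fun _ => q) U x y = PE (edges G U) (fun _ => p)
        (fun ω => PE ω (fun _ => q / p) fun a => ind (conn G U a x y)) := by
      rw [← PL6.thin, ← e, tau]
    rw [h1, ← PE_mul_left]
    refine PE_mono (Prob.const hp0.le hp) fun ω => ?_
    rw [mul_comm]
    refine ind_mul_le (PE_ind_nonneg (Prob.const r0.le r1) _) ?_
    rintro ⟨hx, w, hw⟩
    refine le_trans ?_ (PE_ind_mono (P := fun a => w.edges.toFinset ⊆ a) (Prob.const r0.le r1)
      fun a ha => (walk_conn w (walk_support_mem w hx)).mono subset_rfl ha)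
    rw [PE_all_open (walk_edges_subset w), Finset.prod_const, ← Real.rpow_natCast]
    refine Real.rpow_le_rpow_of_exponent_ge r0 r1 (le_trans ?_ hw)
    exact_mod_cast (List.toFinset_card_le _).trans w.length_edges.le

end Pool.Agent.TPC
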