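import Pool.Agent.Lib.TPC.BlueF2

open Finset

namespace Pool.Agent.TPC

theorem st_REG (hG : St_GRID) (hC : St_COL) : St_REG := by
  intro d R hR
  refine ⟨⌈(2 * (3 * R + 7) + 1) ^ d⌉₊ + 1, by omega, fun n m _ _ l hl hmn h1 h2 => ?_⟩
  obtain ⟨g1, -, g2, -⟩ := hG d n m hmn
  have mem : ∀ (r : ℝ) (b : Tor d m) (y : Tor d n), y ∈ rb n l r b ↔ td (tctr n b) y ≤ r * l :=
    fun r b y => mem_tball
  have own : ∀ y : Tor d n, td (tctr n (tblk m y)) y ≤ 2 * l := fun y => (g1 y).trans h2
  have near : ∀ (b b' : Tor d m) (s : ℝ), td (tctr n b) (tctr n b') ≤ s * l → td b b' ≤ s + 1 :=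
    fun b b' s h => by
      have k1 := (g2 b b').2
      have k2 := mul_le_mul_of_nonneg_right h1 (td_nonneg b b')
      refine le_of_mul_le_mul_left (a := l) ?_ (by linarith)
      linarith
  have cnt : ∀ (b : Tor d m) (S : Finset (Tor d m)), (∀ b' ∈ S, td b b' ≤ 3 * R + 7) →
      S.card ≤ ⌈(2 * (3 * R + 7) + 1) ^ d⌉₊ := fun b S h => by
    have := ((met_td d m).ball b (3 * R + 7) S (by linarith) h).trans (Nat.le_ceil _)
    exact_mod_cast this
  have blk : ∀ (b : Tor d m) (y : Tor d n) (s : ℝ), td (tctr n b) y ≤ s * l →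
      td b (tblk m y) ≤ s + 3 := fun b y s h => by
    have k1 := td_tri (tctr n b) y (tctr n (tblk m y))
    have k2 := own y
    rw [td_comm] at k2
    linarith [near b (tblk m y) (s + 2) (by linarith)]
  refine ⟨fun y => (mem _ _ _).2 (own y), fun b y hy => ⟨fun z hz => ?_, fun z hz => ?_⟩,
    fun y S h => ?_, fun b y hy => ?_, fun b => ?_, fun b' S h => ?_, ?_,
    fun r b b' h z hz => ?_⟩
  · rw [mem] at hy hz ⊢
    have k1 := td_tri (tctr n (tblk m y)) y z
    have k2 := td_tri y (tctr n b) z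
    rw [td_comm] at hy
    linarith [own y]
  · rw [mem] at hy hz ⊢
    have k1 := td_tri (tctr n b) y z
    have k2 := td_tri y (tctr n (tblk m y)) z
    have k3 := own y
    rw [td_comm] at k3
    linarith
  · refine (cnt (tblk m y) S fun b hb => ?_).trans (Nat.le_succ _)
    have := blk b y R ((mem _ _ _).1 (h b hb))
    rw [td_comm]
    linarith
  · rw [mem_tball]
    linarith [blk b y _ ((mem _ _ _).1 hy)]
  · exact (cnt b _ fun b' hb => mem_tball.1 hb).trans (Nat.le_succ _)
  · refine (cnt b' S fun b hb => ?_).trans (Nat.le_succ _)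
    rw [td_comm]
    exact mem_tball.1 (h b hb)
  · obtain ⟨col, hcol⟩ := hC (Tor d m) (fun a b => td a b ≤ 3 * R + 7) _
      (fun a b h => by rwa [td_comm]) cnt
    refine ⟨col, fun b b' hb e => disjoint_left.2 fun y k1 k2 => hcol b b' hb ?_ e⟩
    rw [mem] at k1 k2
    have k3 := td_tri (tctr n b) y (tctr n b')
    rw [td_comm] at k2
    linarith [near b b' (2 * R) (by linarith)]
  · rw [mem] at hz ⊢
    have k1 := td_tri (tctr n b) (tctr n b') z
    have k2 := (g2 b b').1
    have k3 := mul_le_mul h2 h (td_nonneg b b') (by linarith)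
    linarith

end Pool.Agent.TPC
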