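import Pool.Agent.Lib.TPC.BlueZ

/-! Kernel sums over regular sets. -/

open Finset

namespace Pool.Agent.TPC

namespace RS

lemma shell {d : ℕ} {a b : ℝ} (ha : 0 ≤ a) (A : Finset (Zd d)) (y : Zd d) {K : ℕ} (hK : 1 ≤ K)
    (h : ∀ s : ℕ, K ≤ s → ((A ∩ box y s).card : ℝ) ≤ (s : ℝ) ^ b) (j : ℕ) :
    ∑ v ∈ A ∩ box y (2 ^ j * K), kk a (max (K : ℝ) (zd y v)) ≤
      (K : ℝ) ^ (b - a) * (1 + 2 ^ b * ∑ i ∈ range j, ((2 : ℝ) ^ (b - a)) ^ i) := by
  have hK' : (0 : ℝ) < K := by exact_mod_cast hK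
  have bd : ∀ (T : Finset (Zd d)) (r N : ℝ), 0 < r → (T.card : ℝ) ≤ N → (∀ v ∈ T, r ≤ max (K : ℝ) (zd y v)) →
      ∑ v ∈ T, kk a (max (K : ℝ) (zd y v)) ≤ N * r ^ (-a) := by
    intro T r N hr hN hT
    have := sum_le_card_nsmul T (fun v => kk a (max (K : ℝ) (zd y v))) (r ^ (-a)) fun v hv =>
      (kk_anti ha hr.le (hT v hv)).trans (kk_le_rpow ha hr)
    rw [nsmul_eq_mul] at this
    exact this.trans (mul_le_mul_of_nonneg_right hN (by positivity))
  induction j with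
  | zero =>
    rw [pow_zero, one_mul, sum_range_zero, mul_zero, add_zero, mul_one, sub_eq_add_neg, Real.rpow_add hK']
    exact bd _ _ _ hK' (h K le_rfl) fun v _ => le_max_left _ _
  | succ j ih =>
    have hs : A ∩ box y (2 ^ j * K) ⊆ A ∩ box y (2 ^ (j + 1) * K) :=
      inter_subset_inter_left (box_mono y (Nat.mul_le_mul_right _ (Nat.pow_le_pow_right (by norm_num) (by omega))))
    have h1 := bd ((A ∩ box y (2 ^ (j + 1) * K)) \ (A ∩ box y (2 ^ j * K))) (2 ^ j * K) _ (by positivity)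
      ((Nat.cast_le.2 (card_le_card sdiff_subset)).trans
        (h _ (Nat.le_mul_of_pos_left _ (by positivity)))) fun v hv => by
        obtain ⟨h2, h3⟩ := mem_sdiff.1 hv
        have h4 : v ∉ box y (2 ^ j * K) := fun e => h3 (mem_inter.2 ⟨(mem_inter.1 h2).1, e⟩)
        have h5 := notMem_box.1 h4
        push_cast at h5
        exact le_trans (by linarith) (le_max_right _ _)
    have e : (((2 ^ (j + 1) * K : ℕ) : ℝ)) ^ b * ((2 : ℝ) ^ j * K) ^ (-a) =
        (K : ℝ) ^ (b - a) * (2 ^ b * ((2 : ℝ) ^ (b - a)) ^ j) := by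
      push_cast
      rw [pow_succ', mul_assoc, Real.mul_rpow (by norm_num) (by positivity), mul_assoc,
        ← Real.rpow_add (by positivity), ← sub_eq_add_neg, Real.mul_rpow (by positivity) hK'.le,
        ← Real.rpow_natCast, ← Real.rpow_natCast, ← Real.rpow_mul (by norm_num), ← Real.rpow_mul (by norm_num),
        mul_comm (j : ℝ)]
      ring
    rw [← sum_sdiff hs, sum_range_succ]
    rw [e] at h1
    linarith

end RS

theorem st_RS : St_RS := by
  intro a ha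
  have q0 : (0 : ℝ) < 2 ^ (9 / 2 - a) := by positivity
  have q1 : (2 : ℝ) ^ (9 / 2 - a) < 1 := Real.rpow_lt_one_of_one_lt_of_neg (by norm_num) (by linarith)
  have q2 : (0 : ℝ) < (1 - 2 ^ (9 / 2 - a))⁻¹ := inv_pos.2 (by linarith)
  refine ⟨(1 + 2 ^ (9 / 2 : ℝ) * (1 - 2 ^ (9 / 2 - a))⁻¹) * 2 ^ (a - 9 / 2), by positivity,
    fun d A y K hK h => ?_⟩
  obtain ⟨R, hR⟩ := exists_box A y
  have h1 := RS.shell (a := a) (by linarith) A y hK h R
  have h2 : A ⊆ box y (2 ^ R * K) :=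
    hR.trans (box_mono y (Nat.lt_two_pow_self.le.trans (Nat.le_mul_of_pos_right _ hK)))
  rw [inter_eq_left.2 h2] at h1
  have h3 : ∑ i ∈ range R, ((2 : ℝ) ^ (9 / 2 - a)) ^ i ≤ (1 - 2 ^ (9 / 2 - a))⁻¹ :=
    sum_le_hasSum _ (fun i _ => by positivity) (hasSum_geometric_of_lt_one q0.le q1)
  have h4 := rpow_le_kk (a := a - 9 / 2) (r := K) (by linarith) (by exact_mod_cast hK)
  rw [neg_sub] at h4
  refine h1.trans ?_
  rw [mul_comm, mul_assoc]
  gcongr

end Pool.Agent.TPC
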