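import Pool.Agent.Lib.TPC.Path

open Finset

namespace Pool.Agent.TPC

namespace S12

variable {d : ℕ} {X : Type} {ρ : X → X → ℝ}

theorem nonneg (h : Met d ρ) (x y : X) : 0 ≤ ρ x y := by
  have := h.tri x y x
  rw [h.self, h.symm y x] at this
  linarith

theorem kk_nonneg (a : ℝ) {r : ℝ} (hr : 0 ≤ r) : 0 ≤ kk a r := Real.rpow_nonneg (by linarith) _

theorem shell (h : Met d ρ) {a : ℝ} (ha : 0 ≤ a) (x : X) (S : Finset X) {T : ℝ} (hT : 0 < T)
    (hS : ∀ y ∈ S, T / 2 ≤ 1 + ρ x y ∧ 1 + ρ x y ≤ T) :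
    ∑ y ∈ S, kk a (ρ x y) ≤ 2 ^ ((d : ℝ) + a) * T ^ ((d : ℝ) - a) := by
  rcases S.eq_empty_or_nonempty with rfl | ⟨y0, hy0⟩
  · rw [sum_empty]; positivity
  have h1 : 1 ≤ T := by linarith [(hS y0 hy0).2, nonneg h x y0]
  have h2 := h.ball x (T - 1) S (by linarith) fun y hy => by linarith [(hS y hy).2]
  have h3 : (S.card : ℝ) ≤ (2 * T) ^ d :=
    h2.trans (pow_le_pow_left₀ (by linarith) (by linarith) d)
  have h4 : ∑ y ∈ S, kk a (ρ x y) ≤ S.card • (T / 2) ^ (-a) :=
    sum_le_card_nsmul _ _ _ fun y hy =>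
      Real.rpow_le_rpow_of_nonpos (by linarith) (hS y hy).1 (by linarith)
  rw [nsmul_eq_mul] at h4
  refine h4.trans ((mul_le_mul_of_nonneg_right h3 (by positivity)).trans (le_of_eq ?_))
  rw [Real.div_rpow hT.le (by norm_num), Real.rpow_add two_pos, Real.rpow_sub hT,
    Real.rpow_neg hT.le, Real.rpow_neg (by norm_num), Real.rpow_natCast, Real.rpow_natCast, mul_pow]
  field_simp

theorem inner (h : Met d ρ) {a C : ℝ} (ha : 0 ≤ a) (hC : 0 ≤ C)
    (hK : C * 2 ^ (a - d) + 2 ^ ((d : ℝ) + a) ≤ C) (x : X) (n : ℕ) :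
    ∀ (T : ℝ) (S : Finset X), 0 < T → T ≤ 2 ^ n → (∀ y ∈ S, 1 + ρ x y ≤ T) →
      ∑ y ∈ S, kk a (ρ x y) ≤ C * T ^ ((d : ℝ) - a) := by
  classical
  have hq : 0 ≤ C * 2 ^ (a - d) := by positivity
  induction n with
  | zero =>
    intro T S hT hn hS
    rw [pow_zero] at hn
    refine (shell h ha x S hT fun y hy => ⟨by linarith [nonneg h x y], hS y hy⟩).trans ?_
    exact mul_le_mul_of_nonneg_right (by linarith) (by positivity)
  | succ n ih =>
    intro T S hT hn hS
    rw [← sum_filter_add_sum_filter_not S fun y => 1 + ρ x y ≤ T / 2]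
    have h1 := ih (T / 2) (S.filter fun y => 1 + ρ x y ≤ T / 2) (by linarith)
      (by rw [pow_succ] at hn; linarith) fun y hy => (mem_filter.1 hy).2
    have h2 := shell h ha x (S.filter fun y => ¬ 1 + ρ x y ≤ T / 2) hT fun y hy =>
      ⟨(not_le.1 (mem_filter.1 hy).2).le, hS y (mem_filter.1 hy).1⟩
    have e : (T / 2) ^ ((d : ℝ) - a) = 2 ^ (a - d) * T ^ ((d : ℝ) - a) := by
      rw [Real.div_rpow hT.le (by norm_num), ← neg_sub (d : ℝ) a, Real.rpow_neg (by norm_num)]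
      ring
    have h3 := mul_le_mul_of_nonneg_right hK (Real.rpow_nonneg hT.le ((d : ℝ) - a))
    rw [e] at h1
    linarith

theorem outer (h : Met d ρ) {a C : ℝ} (ha : 0 ≤ a) (hda : (d : ℝ) ≤ a) (hC : 0 ≤ C)
    (hK : C * 2 ^ ((d : ℝ) - a) + 2 ^ ((d : ℝ) + a) ≤ C) (x : X) (n : ℕ) :
    ∀ (T : ℝ) (S : Finset X), 0 < T → (∀ y ∈ S, T ≤ 1 + ρ x y ∧ 1 + ρ x y ≤ T * 2 ^ n) →
      ∑ y ∈ S, kk a (ρ x y) ≤ C * T ^ ((d : ℝ) - a) := by
  classical
  have hq : 0 ≤ C * 2 ^ ((d : ℝ) - a) := by positivity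
  induction n with
  | zero =>
    intro T S hT hS
    refine (shell h ha x S hT fun y hy =>
      ⟨by linarith [(hS y hy).1], by simpa using (hS y hy).2⟩).trans ?_
    exact mul_le_mul_of_nonneg_right (by linarith) (by positivity)
  | succ n ih =>
    intro T S hT hS
    rw [← sum_filter_add_sum_filter_not S fun y => 1 + ρ x y ≤ 2 * T]
    have h1 := shell h ha x (S.filter fun y => 1 + ρ x y ≤ 2 * T) (T := 2 * T) (by linarith)
      fun y hy => ⟨by linarith [(hS y (mem_filter.1 hy).1).1], (mem_filter.1 hy).2⟩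
    have h2 := ih (2 * T) (S.filter fun y => ¬ 1 + ρ x y ≤ 2 * T) (by linarith) fun y hy =>
      ⟨(not_le.1 (mem_filter.1 hy).2).le, by
        have := (hS y (mem_filter.1 hy).1).2
        rw [pow_succ] at this
        linarith⟩
    rw [Real.mul_rpow (by norm_num) hT.le] at h1 h2
    have h0 := Real.rpow_nonneg hT.le ((d : ℝ) - a)
    have h3 := mul_le_mul_of_nonneg_right hK h0
    have h4 : (2 : ℝ) ^ ((d : ℝ) - a) ≤ 1 :=
      Real.rpow_le_one_of_one_le_of_nonpos (by norm_num) (by linarith)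
    have h5 : 2 ^ ((d : ℝ) + a) * (2 ^ ((d : ℝ) - a) * T ^ ((d : ℝ) - a)) ≤
        2 ^ ((d : ℝ) + a) * T ^ ((d : ℝ) - a) :=
      mul_le_mul_of_nonneg_left (mul_le_of_le_one_left h0 h4) (by positivity)
    linarith

end S12

open S12 in
theorem st_S12 : St_S12 := by
  intro d a ha hne
  have hq0 : (0 : ℝ) < 2 ^ (-|(d : ℝ) - a|) := by positivity
  have hq1 : (2 : ℝ) ^ (-|(d : ℝ) - a|) < 1 :=
    Real.rpow_lt_one_of_one_lt_of_neg (by norm_num)
      (neg_lt_zero.2 (abs_pos.2 (sub_ne_zero.2 hne.symm)))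
  have hq : 0 < 1 - (2 : ℝ) ^ (-|(d : ℝ) - a|) := by linarith
  have hC : 0 < 2 ^ ((d : ℝ) + a) / (1 - (2 : ℝ) ^ (-|(d : ℝ) - a|)) := by positivity
  have hK : 2 ^ ((d : ℝ) + a) / (1 - (2 : ℝ) ^ (-|(d : ℝ) - a|)) * 2 ^ (-|(d : ℝ) - a|) +
      2 ^ ((d : ℝ) + a) ≤ 2 ^ ((d : ℝ) + a) / (1 - (2 : ℝ) ^ (-|(d : ℝ) - a|)) := by
    refine le_of_eq ?_
    field_simp
    ring
  refine ⟨_, hC, fun X ρ h x S r hr => ⟨fun h1 hS => ?_, fun h1 hS => ?_⟩⟩
  · obtain ⟨n, hn⟩ := pow_unbounded_of_one_lt (1 + r) (one_lt_two (α := ℝ))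
    rw [kk, neg_sub]
    refine inner h ha hC.le ?_ x n _ S (by linarith) hn.le fun y hy => by linarith [hS y hy]
    have e : a - d = -|(d : ℝ) - a| := by rw [abs_of_pos (by linarith)]; ring
    rw [e]
    exact hK
  · obtain ⟨n, hn⟩ := pow_unbounded_of_one_lt (1 + ∑ y ∈ S, ρ x y) (one_lt_two (α := ℝ))
    rw [kk, neg_sub]
    refine outer h ha h1.le hC.le ?_ x n _ S (by linarith) fun y hy =>
      ⟨by linarith [hS y hy], ?_⟩
    · have e : -|(d : ℝ) - a| = d - a := by rw [abs_of_neg (by linarith)]; ring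
      rw [e] at hK ⊢
      exact hK
    · have h2 := single_le_sum (f := fun y => ρ x y) (fun y _ => nonneg h x y) hy
      have h3 : (2 : ℝ) ^ n ≤ (1 + r) * 2 ^ n := le_mul_of_one_le_left (by positivity) (by linarith)
      linarith

open S12 in
theorem st_S4 (h12 : St_S12) : St_S4 := by
  classical
  intro d a c ha hd hc
  obtain ⟨C1, hC1, H1⟩ := h12 d a ha hd.ne
  have hd0 : (0 : ℝ) ≤ d := d.cast_nonneg
  obtain ⟨C2, hC2, H2⟩ := h12 d (a + (d + 1)) (by linarith) (by linarith)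
  refine ⟨C1 * 2 ^ ((d : ℝ) - a) + ((d + 1).factorial : ℝ) * (4 / c) ^ (d + 1) * C2,
    by positivity, fun X ρ h x S l r hl hr hS => ?_⟩
  have hl0 : 0 < l := by linarith
  have key : ∑ y ∈ S, kk a (ρ x y) * Real.exp (-(c * ρ x y / (2 * l))) ≤
      (C1 * 2 ^ ((d : ℝ) - a) + ((d + 1).factorial : ℝ) * (4 / c) ^ (d + 1) * C2) *
        l ^ ((d : ℝ) - a) := by
    rw [← sum_filter_add_sum_filter_not S fun y => ρ x y ≤ l, add_mul]
    refine add_le_add ?_ ?_
    · have h1 := (H1 X ρ h x (S.filter fun y => ρ x y ≤ l) l hl0.le).1 hd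
        fun y hy => (mem_filter.1 hy).2
      refine le_trans (sum_le_sum fun y _ => mul_le_of_le_one_right (kk_nonneg a (nonneg h x y))
        (Real.exp_le_one_iff.2 (neg_nonpos.2 ?_))) (h1.trans ?_)
      · have := nonneg h x y
        positivity
      · rw [kk, neg_sub, mul_assoc, ← Real.mul_rpow (by norm_num) hl0.le]
        exact mul_le_mul_of_nonneg_left
          (Real.rpow_le_rpow (by linarith) (by linarith) (by linarith)) hC1.le
    · have h1 := (H2 X ρ h x (S.filter fun y => ¬ ρ x y ≤ l) l hl0.le).2 (by linarith)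
        fun y hy => (not_le.1 (mem_filter.1 hy).2).le
      have h2 : ∀ y ∈ S.filter fun y => ¬ ρ x y ≤ l,
          kk a (ρ x y) * Real.exp (-(c * ρ x y / (2 * l))) ≤
          ((d + 1).factorial : ℝ) * (4 / c) ^ (d + 1) * l ^ (d + 1) *
            kk (a + (d + 1)) (ρ x y) := fun y hy => by
        have hy1 := not_le.1 (mem_filter.1 hy).2
        have ht : 0 < 1 + ρ x y := by linarith
        have hu : c * (1 + ρ x y) / (4 * l) ≤ c * ρ x y / (2 * l) := by
          rw [div_le_div_iff₀ (by linarith) (by linarith)]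
          nlinarith [mul_pos hc hl0]
        have h3 := (Real.pow_div_factorial_le_exp (c * (1 + ρ x y) / (4 * l)) (by positivity)
          (d + 1)).trans (Real.exp_le_exp.2 hu)
        have h4 : Real.exp (-(c * ρ x y / (2 * l))) ≤
            ((c * (1 + ρ x y) / (4 * l)) ^ (d + 1) / ((d + 1).factorial : ℝ))⁻¹ := by
          rw [Real.exp_neg]
          exact inv_anti₀ (by positivity) h3
        refine (mul_le_mul_of_nonneg_left h4 (kk_nonneg a (nonneg h x y))).trans (le_of_eq ?_)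
        have e : kk (a + (d + 1)) (ρ x y) = kk a (ρ x y) * ((1 + ρ x y) ^ (d + 1))⁻¹ := by
          rw [kk, kk, neg_add, Real.rpow_add ht, Real.rpow_neg ht.le ((d : ℝ) + 1),
            ← Nat.cast_succ, Real.rpow_natCast]
        rw [e, div_pow, div_pow, mul_pow, mul_pow]
        field_simp
      refine (sum_le_sum h2).trans ?_
      rw [← mul_sum, mul_assoc _ C2, mul_assoc _ (l ^ (d + 1))]
      refine mul_le_mul_of_nonneg_left ?_ (by positivity)
      have h5 : kk (a + (d + 1) - d) l ≤ l ^ (-(a + 1)) := by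
        rw [kk, show a + (d + 1) - d = a + 1 by ring]
        exact Real.rpow_le_rpow_of_nonpos hl0 (by linarith) (by linarith)
      have e : l ^ ((d : ℝ) - a) = l ^ (d + 1) * l ^ (-(a + 1)) := by
        rw [← Real.rpow_natCast, ← Real.rpow_add hl0]
        congr 1
        push_cast
        ring
      rw [e, mul_left_comm]
      exact mul_le_mul_of_nonneg_left (h1.trans (mul_le_mul_of_nonneg_left h5 hC2.le))
        (by positivity)
  refine le_trans ?_ (mul_le_mul_of_nonneg_right key (Real.exp_pos _).le)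
  rw [sum_mul]
  refine sum_le_sum fun y hy => ?_
  rw [mul_assoc, ← Real.exp_add]
  refine mul_le_mul_of_nonneg_left (Real.exp_le_exp.2 ?_) (kk_nonneg a (nonneg h x y))
  have h1 : c * r / (2 * l) ≤ c * ρ x y / (2 * l) := by
    have := hS y hy
    gcongr
  have e : c * ρ x y / l = c * ρ x y / (2 * l) + c * ρ x y / (2 * l) := by field_simp; ring
  linarith

end Pool.Agent.TPC
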