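import Pool.Agent.Lib.TPC.BlueF2

/-! Small regions of the torus. -/

open Finset

namespace Pool.Agent.TPC

theorem st_SETS (h2 : St_TK2) : St_SETS := by
  intro d hd C₀ C₁ hC
  obtain ⟨Cs, Cs1, H⟩ := h2 d hd C₀
  refine ⟨(2 * |C₀| + 1) ^ d, fun η => C₁ ^ 2 * Cs (η / C₁), fun K hK hK' n _ M U hG hc => ?_⟩
  replace hK' : ∀ η, C₁ ^ 2 * Cs (η / C₁) ≤ K.Cs η := hK'
  have hl := M.l1
  have hl0 : 0 < M.l := by linarith
  have hC0 : 0 < C₁ := by linarith
  have hn : (0 : ℝ) < n := by exact_mod_cast NeZero.pos n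
  have hp : M.l ^ d = M.l ^ (d - 6) * M.l ^ 6 := by rw [← pow_add, Nat.sub_add_cancel (by omega)]
  have f0 := M.f0_pos
  have T := H n M.l M.f0 U hl (by
    rcases hc with ⟨a, b⟩ | ⟨a, b, c⟩
    · refine Or.inl ⟨a, ?_⟩
      rw [Core.f0, b]; field_simp
    · refine Or.inr ⟨a, ?_, c⟩
      rw [Core.f0, b, hp]; field_simp)
  refine ⟨?_, fun η hη z D _ => ?_, fun η hη z a => ?_⟩
  · rcases hc with ⟨-, b⟩ | ⟨-, b, x, c⟩
    · have e : M.Vol = (n : ℝ) ^ d := by rw [Core.Vol, b]; field_simp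
      have a1 : (U.card : ℝ) ≤ (n : ℝ) ^ d := by
        have := card_le_univ U
        rw [card_Tor] at this
        exact_mod_cast this
      rw [e]
      exact a1.trans (le_mul_of_one_le_left (by positivity) K.hC)
    · have e : M.Vol = M.l ^ d := by rw [Core.Vol, b, hp]
      have a1 := (met_td d n).ball x (|C₀| * M.l) U (by positivity) fun y hy =>
        (mem_tball.1 (c hy)).trans (mul_le_mul_of_nonneg_right (le_abs_self _) hl0.le)
      rw [e]
      refine a1.trans (le_trans ?_ (mul_le_mul_of_nonneg_right hK (by positivity)))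
      rw [← mul_pow]
      exact pow_le_pow_left₀ (by positivity) (by linarith) d
  · have a1 := mul_le_mul_of_nonneg_left ((T (η / C₁) (by positivity)).1 z D) hC0.le
    have a2 : C₁ * Cs (η / C₁) ≤ K.Cs η := by
      refine le_trans ?_ (hK' η)
      have := Cs1 (η / C₁)
      rw [sq, mul_assoc]
      exact le_mul_of_one_le_left (by positivity) hC
    have a3 := mul_le_mul_of_nonneg_right a2 (by positivity : 0 ≤ M.f0 * (D.card : ℝ))
    have e : C₁ * (η / C₁ * M.l ^ 2) = η * M.l ^ 2 := by field_simp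
    simp only [hG z]
    rw [← mul_sum]
    linarith
  · have a1 := mul_le_mul_of_nonneg_left ((T (η / C₁) (by positivity)).2.1 z a) (sq_nonneg C₁)
    have a3 := mul_le_mul_of_nonneg_right (hK' η) (by positivity : 0 ≤ M.l ^ 2 * M.f0)
    have e : C₁ ^ 2 * (M.l ^ 2 * (η / C₁ * tg M.l z a)) = M.l ^ 2 * (η * (C₁ * tg M.l z a)) := by field_simp
    have e2 : ∑ y ∈ U, M.g z y * M.g y a = C₁ ^ 2 * ∑ y ∈ U, tg M.l z y * tg M.l y a := by
      rw [mul_sum]
      exact sum_congr rfl fun y _ => by rw [hG z y, hG y a]; ring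
    rw [e2, hG z a]
    linarith

end Pool.Agent.TPC
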