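import Pool.Agent.Lib.TPC.BlueZ
import Pool.Agent.Lib.HD.SLG

/-! Reversed Simon-Lieb inequalities with columns. -/

open Finset

set_option linter.unusedSectionVars false

namespace Pool.Agent.TPC

open Pool.Agent.Lib.MP_81a99a_pr (lattice)

namespace SLK

open Pool.Agent.HD.SLG

section general

variable {V : Type} [DecidableEq V] {G : SimpleGraph V} {p : ℝ} {S L : Finset V} {o x : V}

lemma first (h1 : St_PL1) (p0 : 0 ≤ p) (p1 : p ≤ 1) (hSL : S ⊆ L) {z : V}
    (P : Finset V → Prop) {B : Finset (Sym2 V)} (hB : B ⊆ edges G L)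
    (hBS : Disjoint B (edges G S)) :
    p ^ B.card * EC G (fun _ => p) S o (fun A => ind (P A) * (tau G (fun _ => p) L z x -
        ∑ v ∈ A, tau G (fun _ => p) L z v * tau G (fun _ => p) L v x)) ≤
      PE (edges G L) (fun _ => p) (fun ω =>
        ind (P (cl G S ω o) ∧ B ⊆ ω ∧ conn G (L \ cl G S ω o) ω z x)) := by
  have hπ : Prob (fun _ : Sym2 V => p) := Prob.const p0 p1
  let F : Finset V → Finset (Sym2 V) → ℝ := fun C ω =>
    ind (P C) * (ind (B ⊆ ω) * ind (conn G (L \ C) ω z x))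
  have a1 : PE (edges G L) (fun _ => p) (fun ω =>
      ind (P (cl G S ω o) ∧ B ⊆ ω ∧ conn G (L \ cl G S ω o) ω z x)) =
      PE (edges G L) (fun _ => p) (fun ω => PE (edges G L) (fun _ => p) (F (cl G S ω o))) := by
    rw [← PE_cond_cl G S o F]
    · exact PE_congr fun ω _ => by simp only [F, ind_and]
    · intro A _ ω ω' h
      have b1 := dep_sub B ω ω' fun e he => h e fun h3 => Finset.disjoint_left.1 hBS he h3.1
      have b2 := dep_conn_sdiff G L A z x ω ω' fun e he => h e fun h3 => he h3.2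
      simp only at b1 b2
      simp only [F, b1, b2]
  have a2 : ∀ C, p ^ B.card * (ind (P C) * (tau G (fun _ => p) L z x -
      ∑ v ∈ C, tau G (fun _ => p) L z v * tau G (fun _ => p) L v x)) ≤
      PE (edges G L) (fun _ => p) (F C) := by
    intro C
    have b1 := PE_fkg (E := edges G L) hπ (f := fun ω => ind (B ⊆ ω))
      (g := fun ω => ind (conn G (L \ C) ω z x)) (fun a b hab => ind_mono fun h => h.trans hab)
      fun a b hab => ind_mono fun h => h.mono subset_rfl hab
    rw [PE_all_open hB, PE_conn (edges_mono Finset.sdiff_subset), Finset.prod_const] at b1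
    have b2 := h1 V G _ hπ L C z x
    simp only [F]
    rw [PE_mul_left]
    have b4 := mul_le_mul_of_nonneg_left b2 (pow_nonneg p0 B.card)
    have b5 := mul_le_mul_of_nonneg_left b4 (ind_nonneg (P C))
    have b6 := mul_le_mul_of_nonneg_left b1 (ind_nonneg (P C))
    linarith
  have a3 := PE_mono (E := edges G L) hπ fun ω => a2 (cl G S ω o)
  rw [← a1, PE_mul_left] at a3
  rw [← PE_cl (edges_mono hSL)]
  exact a3

lemma pair (h2 : St_PL2) (p0 : 0 ≤ p) (p1 : p ≤ 1) (hSL : S ⊆ L) {z z' : V}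
    (P : Finset V → Prop) :
    PE (edges G L) (fun _ => p) (fun ω => ind (P (cl G S ω o) ∧
        conn G (L \ cl G S ω o) ω x z ∧ conn G (L \ cl G S ω o) ω x z')) ≤
      EC G (fun _ => p) S o (fun A => ind (P A) * ∑ v ∈ L, tau G (fun _ => p) L z v *
        tau G (fun _ => p) L z' v * tau G (fun _ => p) L v x) := by
  have hπ : Prob (fun _ : Sym2 V => p) := Prob.const p0 p1
  let F : Finset V → Finset (Sym2 V) → ℝ := fun C ω => ind (P C) *
    ind (conn G (L \ C) ω x z ∧ conn G (L \ C) ω x z')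
  set T : ℝ := ∑ v ∈ L, tau G (fun _ => p) L z v * tau G (fun _ => p) L z' v *
    tau G (fun _ => p) L v x with hT
  have a1 : PE (edges G L) (fun _ => p) (fun ω => ind (P (cl G S ω o) ∧
        conn G (L \ cl G S ω o) ω x z ∧ conn G (L \ cl G S ω o) ω x z')) =
      PE (edges G L) (fun _ => p) (fun ω => PE (edges G L) (fun _ => p) (F (cl G S ω o))) := by
    rw [← PE_cond_cl G S o F]
    · exact PE_congr fun ω _ => by simp only [F, ind_and]
    · intro A _ ω ω' h
      have b2 := dep_and (dep_conn_sdiff G L A x z) (dep_conn_sdiff G L A x z') ω ω'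
        fun e he => h e fun h3 => he h3.2
      simp only at b2
      simp only [F, b2]
  have a2 : ∀ C, PE (edges G L) (fun _ => p) (F C) ≤ ind (P C) * T := by
    intro C
    simp only [F]
    rw [PE_mul_left]
    refine mul_le_mul_of_nonneg_left ((h2 V G _ hπ _ _ _ x z z').trans ?_) (ind_nonneg _)
    refine le_trans (Finset.sum_le_sum fun v _ => ?_) (Finset.sum_le_sum_of_subset_of_nonneg
      (Finset.sdiff_subset (s := L) (t := C)) fun _ _ _ =>
        mul_nonneg (mul_nonneg (tau_nonneg hπ) (tau_nonneg hπ)) (tau_nonneg hπ))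
    have m : ∀ a b, tau G (fun _ => p) (L \ C) a b ≤ tau G (fun _ => p) L b a := fun a b => by
      rw [tau_comm]; exact tau_mono_dom hπ Finset.sdiff_subset
    have n : ∀ D a b, 0 ≤ tau G (fun _ => p) D a b := fun _ _ _ => tau_nonneg hπ
    calc _ ≤ tau G (fun _ => p) L v x * tau G (fun _ => p) L z v * tau G (fun _ => p) L z' v :=
          mul_le_mul (mul_le_mul (m _ _) (m _ _) (n _ _ _) (n _ _ _)) (m _ _) (n _ _ _)
            (mul_nonneg (n _ _ _) (n _ _ _))
      _ = _ := by ring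
  rw [a1, ← PE_cl (edges_mono hSL)]
  exact PE_mono hπ fun ω => a2 _

lemma slr (h1 : St_PL1) (h2 : St_PL2) (p0 : 0 ≤ p) (p1 : p ≤ 1) (hSL : S ⊆ L)
    (I : Finset V) (z : V → V) (B : V → Finset (Sym2 V)) (k : ℕ) (Reg : V → Finset V → Prop)
    {θ : ℝ} (t0 : 0 ≤ θ) (t1 : θ ≤ 1)
    (hB : ∀ y ∈ I, B y ⊆ edges G L ∧ Disjoint (B y) (edges G S) ∧ (B y).card = k ∧
      conn G L (B y) y (z y)) :
    θ * p ^ k * EC G (fun _ => p) S o (fun A => ∑ y ∈ I, ind (y ∈ A ∧ Reg y A) *
        (tau G (fun _ => p) L (z y) x -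
          ∑ v ∈ A, tau G (fun _ => p) L (z y) v * tau G (fun _ => p) L v x)) ≤
      tau G (fun _ => p) L o x + θ ^ 2 * EC G (fun _ => p) S o (fun A => ∑ y ∈ I, ∑ y' ∈ I,
        ind (y ∈ A ∧ Reg y A ∧ y' ∈ A) * ∑ v ∈ L, tau G (fun _ => p) L (z y) v *
          tau G (fun _ => p) L (z y') v * tau G (fun _ => p) L v x) := by
  have hπ : Prob (fun _ : Sym2 V => p) := Prob.const p0 p1
  let A : V → Finset (Sym2 V) → Prop := fun y ω =>
    (y ∈ cl G S ω o ∧ Reg y (cl G S ω o)) ∧ B y ⊆ ω ∧ conn G (L \ cl G S ω o) ω (z y) x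
  have a1 : ∀ ω, θ * ∑ y ∈ I, ind (A y ω) ≤
      ind (conn G L ω o x) + θ ^ 2 * ∑ y ∈ I, ∑ y' ∈ I, ind (A y ω ∧ A y' ω) := by
    intro ω
    have b1 := bonf I (fun y => A y ω) t0 t1
    have b2 : ind (∃ y ∈ I, A y ω) ≤ ind (conn G L ω o x) := by
      refine ind_mono ?_
      rintro ⟨y, hy, c1, c2, c3⟩
      exact (((mem_cl.1 c1.1).mono hSL subset_rfl).trans
        ((hB y hy).2.2.2.mono subset_rfl c2)).trans (c3.mono Finset.sdiff_subset subset_rfl)
    have b3 : ∑ y ∈ I, ∑ y' ∈ I.erase y, ind (A y ω ∧ A y' ω) ≤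
        ∑ y ∈ I, ∑ y' ∈ I, ind (A y ω ∧ A y' ω) := Finset.sum_le_sum fun y _ =>
      Finset.sum_le_sum_of_subset_of_nonneg (Finset.erase_subset _ _) fun _ _ _ => ind_nonneg _
    have b4 := mul_le_mul_of_nonneg_left b3 (sq_nonneg θ)
    linarith
  have a2 := PE_mono (E := edges G L) hπ a1
  rw [PE_add, PE_mul_left, PE_mul_left, PE_sum, PE_sum, PE_conn subset_rfl] at a2
  have a3 := Finset.sum_le_sum fun y hy => (hB y hy).2.2.1 ▸
    first (o := o) (x := x) (z := z y) h1 p0 p1 hSL (fun A => y ∈ A ∧ Reg y A) (hB y hy).1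
      (hB y hy).2.1
  rw [← Finset.mul_sum] at a3
  have a4 : ∑ y ∈ I, PE (edges G L) (fun _ => p) (fun ω => ∑ y' ∈ I, ind (A y ω ∧ A y' ω)) ≤
      ∑ y ∈ I, ∑ y' ∈ I, EC G (fun _ => p) S o (fun A => ind (y ∈ A ∧ Reg y A ∧ y' ∈ A) *
        ∑ v ∈ L, tau G (fun _ => p) L (z y) v * tau G (fun _ => p) L (z y') v *
          tau G (fun _ => p) L v x) := by
    refine Finset.sum_le_sum fun y _ => ?_
    rw [PE_sum]
    refine Finset.sum_le_sum fun y' _ => ?_
    refine le_trans (PE_mono hπ fun ω => ind_mono ?_)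
      (pair h2 p0 p1 hSL (fun A => y ∈ A ∧ Reg y A ∧ y' ∈ A))
    rintro ⟨⟨c1, -, c3⟩, d1, -, d3⟩
    exact ⟨⟨c1.1, c1.2, d1.1⟩, c3.symm, d3.symm⟩
  have a5 := mul_le_mul_of_nonneg_left a3 t0
  have a6 := mul_le_mul_of_nonneg_left a4 (sq_nonneg θ)
  simp only [A] at a2 a6
  simp only [EC, PE_sum] at a2 a5 a6 ⊢
  linarith

end general

variable {d : ℕ}

/-- the column of `K` edges above `y` -/
def col (i : Fin d) (K : ℕ) (y : Zd d) : Finset (Sym2 (Zd d)) :=
  (range K).image fun t : ℕ => s(y + ev i t, y + ev i ((t + 1 : ℕ) : ℤ))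

lemma coord (i : Fin d) (y : Zd d) (t : ℤ) : (y + ev i t) i = y i + t := by simp

lemma adj (i : Fin d) (y : Zd d) (t : ℕ) :
    (lattice d).Adj (y + ev i t) (y + ev i ((t + 1 : ℕ) : ℤ)) := by
  have : y + ev i ((t + 1 : ℕ) : ℤ) = y + ev i t + Pi.single i 1 := by
    rw [add_assoc, ← Pi.single_add]; push_cast; rfl
  rw [this]
  exact lattice_adj_add _ i

lemma col_spec {S L : Finset (Zd d)} {i : Fin d} {h : ℤ} {K : ℕ} {y : Zd d}
    (hS : ∀ y ∈ S, y i ≤ h) (hy : y i = h) (hL : ∀ t : ℕ, t ≤ K → y + ev i t ∈ L) :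
    col i K y ⊆ edges (lattice d) L ∧ Disjoint (col i K y) (edges (lattice d) S) ∧
      (col i K y).card = K ∧ conn (lattice d) L (col i K y) y (y + ev i K) := by
  refine ⟨?_, ?_, ?_, ?_⟩
  · intro e he
    obtain ⟨t, ht, rfl⟩ := Finset.mem_image.1 he
    have := Finset.mem_range.1 ht
    exact mk_mem_edges.2 ⟨adj i y t, hL t (by omega), hL (t + 1) (by omega)⟩
  · refine Finset.disjoint_left.2 fun e he h2 => ?_
    obtain ⟨t, -, rfl⟩ := Finset.mem_image.1 he
    have := hS _ (mk_mem_edges.1 h2).2.2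
    rw [coord] at this
    omega
  · rw [col, Finset.card_image_of_injOn, Finset.card_range]
    intro a _ b _ hab
    rcases Sym2.eq_iff.1 hab with h1 | h1
    · have := congrFun h1.1 i
      rw [coord, coord] at this
      omega
    · have c1 := congrFun h1.1 i
      have c2 := congrFun h1.2 i
      rw [coord, coord] at c1 c2
      omega
  · have : ∀ t : ℕ, t ≤ K → conn (lattice d) L (col i K y) y (y + ev i t) := by
      intro t
      induction t with
      | zero =>
        intro h0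
        have := hL 0 h0
        simp only [Nat.cast_zero, Pi.single_zero, add_zero] at this ⊢
        exact conn.refl this
      | succ t ih =>
        intro ht
        exact (ih (by omega)).tail (hL _ ht) (adj i y t)
          (Finset.mem_image.2 ⟨t, Finset.mem_range.2 (by omega), rfl⟩) (hL t (by omega))
    exact this K le_rfl

end SLK

theorem st_SLR (h1 : St_PL1) (h2 : St_PL2) : St_SLR := by
  intro d q θ q0 q1 t0 t1 S L F i h K o x Reg hSL hS hF
  exact SLK.slr h1 h2 q0 q1 hSL F (fun y => y + ev i K) (SLK.col i K) K Reg t0 t1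
    fun y hy => SLK.col_spec hS (hF y hy).1 (hF y hy).2

theorem st_SLK (h1 : St_PL1) (h2 : St_PL2) : St_SLK := by
  intro d q θ q0 q1 t0 t1 S L F i h K o x hSL hS hF
  have hπ : Prob (fun _ : Sym2 (Zd d) => q) := Prob.const q0 q1
  have a := Pool.Agent.HD.SLG.slg (o := o) (x := x) h1 h2 q0 q1 hSL F id (fun y => y + ev i K)
    (SLK.col i K) (fun _ => ∅) K 0 t0 t1 (fun y hy => SLK.col_spec hS (hF y hy).1 (hF y hy).2)
    (fun _ _ => ⟨Finset.empty_subset _, rfl, fun _ he => absurd he (Finset.notMem_empty _)⟩)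
    fun _ _ _ _ _ => Finset.disjoint_empty_left _
  simp only [id, mul_zero, pow_zero, mul_one] at a
  unfold tz
  refine a.trans (add_le_add le_rfl (mul_le_mul_of_nonneg_left ?_ (sq_nonneg θ)))
  refine Finset.sum_le_sum fun y _ =>
    Finset.sum_le_sum_of_subset_of_nonneg (Finset.erase_subset _ _) fun _ _ _ => ?_
  have n : ∀ D a b, 0 ≤ tau (lattice d) (fun _ => q) D a b := fun _ _ _ => tau_nonneg hπ
  exact Finset.sum_nonneg fun _ _ => Finset.sum_nonneg fun _ _ =>
    mul_nonneg (mul_nonneg (mul_nonneg (n _ _ _) (n _ _ _)) (n _ _ _))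
      (mul_nonneg (mul_nonneg (n _ _ _) (n _ _ _)) (n _ _ _))

end Pool.Agent.TPC
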