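import Pool.Agent.Lib.TPC.BlueZ
import Pool.Agent.Lib.TPC.Path

/-! A connection that needs a related point of the cluster. -/

open Finset

namespace Pool.Agent.TPC

namespace T2B

variable {V : Type} [DecidableEq V] {G : SimpleGraph V} {D : Finset V} {ω : Finset (Sym2 V)}

/-- three consecutive connections and a fourth one, occurring disjointly -/
def Four (G : SimpleGraph V) (D : Finset V) (x p q y u w : V) (ω : Finset (Sym2 V)) : Prop :=
  ∃ S T R Q : Finset (Sym2 V), S ⊆ ω ∧ T ⊆ ω ∧ R ⊆ ω ∧ Q ⊆ ω ∧ Disjoint S T ∧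
    Disjoint S R ∧ Disjoint S Q ∧ Disjoint T R ∧ Disjoint T Q ∧ Disjoint R Q ∧
    conn G D S x p ∧ conn G D T p q ∧ conn G D R q y ∧ conn G D Q u w

lemma four {x p q y u w : V} (a : (opD G D ω).Walk x p) (b : (opD G D ω).Walk p q)
    (c : (opD G D ω).Walk q y) (hx : x ∈ D) (h : (a.append (b.append c)).IsTrail)
    {Q : Finset (Sym2 V)} (hQ : Q ⊆ ω) (hd : Disjoint (a.append (b.append c)).edges.toFinset Q)
    (hc : conn G D Q u w) : Four G D x p q y u w ω := by
  have d1 := append_disjoint a _ h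
  have d2 := append_disjoint b c h.of_append_right
  have hp := (walk_conn_mem a hx).right
  have hq := (walk_conn_mem b hp).right
  simp only [SimpleGraph.Walk.edges_append, List.toFinset_append, Finset.disjoint_union_left,
    Finset.disjoint_union_right] at d1 hd
  exact ⟨_, _, _, Q, walk_edges_subset a, walk_edges_subset b, walk_edges_subset c, hQ, d1.1, d1.2,
    hd.1, d2, hd.2.1, hd.2.2, walk_conn a (walk_support_mem a hx),
    walk_conn b (walk_support_mem b hp), walk_conn c (walk_support_mem c hq), hc⟩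

lemma branch {x y w : V} (g : (opD G D ω).Walk x y) (h : conn G D ω x w) :
    ∃ u ∈ g.support, ∃ Q ⊆ ω, Disjoint g.edges.toFinset Q ∧ conn G D Q u w := by
  refine h.induction (P := fun b => ∃ u ∈ g.support, ∃ Q ⊆ ω,
    Disjoint g.edges.toFinset Q ∧ conn G D Q u b)
    ⟨x, by simp, ∅, by simp, by simp, conn.refl h.1⟩ ?_
  rintro a b ⟨u, hu, Q, h1, h2, h3⟩ ha h4 h5 he
  by_cases hb : b ∈ g.support
  · exact ⟨b, hb, ∅, by simp, by simp, conn.refl h5⟩
  · exact ⟨u, hu, insert s(a, b) Q, Finset.insert_subset he h1,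
      Finset.disjoint_insert_right.2
        ⟨fun k => hb (g.snd_mem_support_of_mem_edges (List.mem_toFinset.1 k)), h2⟩,
      (h3.mono subset_rfl (Finset.subset_insert _ _)).tail h5 ha (Finset.mem_insert_self _ _) h4⟩

lemma det {x y : V} {R : V → V → Prop} (h : conn G D ω x y)
    (hn : ¬ conn G (lone R (cl G D ω x)) ω x y) : ∃ u ∈ D, ∃ v ∈ D, ∃ w ∈ D, R v w ∧
      (Four G D x u v y u w ω ∨ Four G D x v u y u w ω) := by
  obtain ⟨g, hg⟩ := h.exists_path
  have hD := walk_support_mem g h.1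
  obtain ⟨v, hv, h1⟩ : ∃ v ∈ g.support, v ∉ lone R (cl G D ω x) := by
    by_contra h1
    push Not at h1
    exact hn ((walk_conn g h1).mono subset_rfl (walk_edges_subset g))
  obtain ⟨w, hw, hR⟩ : ∃ w ∈ cl G D ω x, R v w := by
    by_contra h2
    push Not at h2
    obtain ⟨a, -, -⟩ := cut_at g hv
    exact h1 (mem_flt.2 ⟨mem_cl.2 (walk_conn_mem a h.1), h2⟩)
  obtain ⟨u, hu, Q, q1, q2, q3⟩ := branch g (mem_cl.1 hw)
  refine ⟨u, hD u hu, v, hD v hv, w, cl_subset hw, hR, ?_⟩
  obtain ⟨a, b, rfl⟩ := cut_at g hu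
  rcases (SimpleGraph.Walk.mem_support_append_iff _ _).1 hv with h2 | h2
  · obtain ⟨c, d, rfl⟩ := cut_at a h2
    rw [← SimpleGraph.Walk.append_assoc] at hg q2
    exact Or.inr (four c d b h.1 hg.isTrail q1 q2 q3)
  · obtain ⟨c, d, rfl⟩ := cut_at b h2
    exact Or.inl (four a c d h.1 hg.isTrail q1 q2 q3)

end T2B

open T2B in
theorem st_T2b (hBK : St_BK) : St_T2b := by
  intro V _ G π hπ D x y R
  have b : ∀ p q u w, PE (edges G D) π (fun ω => ind (Four G D x p q y u w ω)) ≤
      tau G π D x p * tau G π D p q * tau G π D q y * tau G π D u w := fun p q u w =>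
    bk4 hBK _ hπ (conn_monotone G D x p) (conn_monotone G D p q) (conn_monotone G D q y)
      (conn_monotone G D u w)
  refine (PE_ind_mono hπ fun ω h => det h.1 h.2).trans ?_
  refine (PE_ind_exists hπ D _).trans (Finset.sum_le_sum fun u _ => ?_)
  refine (PE_ind_exists hπ D _).trans (Finset.sum_le_sum fun v _ => ?_)
  refine (PE_ind_exists hπ D _).trans (Finset.sum_le_sum fun w _ => ?_)
  simp only [ind_and]
  rw [PE_mul_left]
  exact mul_le_mul_of_nonneg_left ((PE_ind_or hπ _ _).trans (add_le_add (b u v u w) (b v u u w)))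
    (ind_nonneg _)

end Pool.Agent.TPC
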