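import Pool.Agent.Lib.TPC.BlueZ

/-! The diagrams with twins, projected to the torus. -/

open Finset

namespace Pool.Agent.TPC

namespace T2E

lemma fib {α β : Type} [Fintype β] (D : Finset α) (π : α → β) (f : α → ℝ) (F B : β → ℝ)
    (hF : ∀ b, 0 ≤ F b) (h : ∀ b, ∑ v ∈ flt D (π · = b), f v ≤ B b) :
    ∑ v ∈ D, f v * F (π v) ≤ ∑ b, B b * F b := by
  classical
  rw [← Finset.sum_fiberwise D π]
  refine Finset.sum_le_sum fun b _ => le_trans (le_of_eq ?_)
    (mul_le_mul_of_nonneg_right (h b) (hF b))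
  rw [flt_eq_filter, Finset.sum_mul]
  exact Finset.sum_congr rfl fun v hv => by rw [(Finset.mem_filter.1 hv).2]

/-- abstract setting: a kernel `g` whose sums over the fibres of `π` are bounded by `t` -/
structure Cov {α β : Type} (π : α → β) (g : α → α → ℝ) (t : β → β → ℝ) (far : α → α → Prop)
    (K e : ℝ) : Prop where
  K0 : 0 ≤ K
  e0 : 0 ≤ e
  g0 : ∀ x y, 0 ≤ g x y
  t0 : ∀ a b, 0 ≤ t a b
  near : ∀ x b (S : Finset α), (∀ v ∈ S, π v = b) → ∑ v ∈ S, g x v ≤ K * t (π x) b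
  away : ∀ x b (S : Finset α), (∀ v ∈ S, π v = b) → (∀ v ∈ S, far x v) → ∑ v ∈ S, g x v ≤ e

variable {α β : Type} {π : α → β} {g : α → α → ℝ} {t : β → β → ℝ} {far : α → α → Prop} {K e : ℝ}

lemma Cov.twin (h : Cov π g t far K e) {R : α → α → Prop}
    (hR : ∀ v w, R v w → π w = π v ∧ ∀ u, far u v ∨ far u w) (D : Finset α) (u v : α) :
    ∑ w ∈ D, ind (R v w) * g u w ≤ ind (far u v) * (K * t (π u) (π v)) + e := by
  rw [← sum_flt]
  by_cases hf : far u v
  · rw [ind_pos hf, one_mul]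
    exact (h.near u _ _ fun w hw => (hR v w (mem_flt.1 hw).2).1).trans
      (le_add_of_nonneg_right h.e0)
  · rw [ind_neg hf, zero_mul, zero_add]
    exact h.away u _ _ (fun w hw => (hR v w (mem_flt.1 hw).2).1)
      fun w hw => ((hR v w (mem_flt.1 hw).2).2 u).resolve_left hf

lemma Cov.mid (h : Cov π g t far K e) (S : Finset α) (u : α) (b : β) (hS : ∀ v ∈ S, π v = b)
    (W : α → ℝ) (hW : ∀ v, W v ≤ ind (far u v) * (K * t (π u) (π v)) + e) :
    ∑ v ∈ S, g u v * W v ≤ 2 * e * K * t (π u) b := by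
  have h1 : ∑ v ∈ S, g u v * W v ≤
      (∑ v ∈ S, ind (far u v) * g u v) * (K * t (π u) b) + (∑ v ∈ S, g u v) * e := by
    rw [Finset.sum_mul, Finset.sum_mul, ← Finset.sum_add_distrib]
    refine Finset.sum_le_sum fun v hv => (mul_le_mul_of_nonneg_left (hW v) (h.g0 u v)).trans ?_
    rw [hS v hv]
    exact le_of_eq (by ring)
  rw [← sum_flt] at h1
  have h2 := mul_le_mul_of_nonneg_right (h.away u b (flt S (far u))
    (fun v hv => hS v (mem_flt.1 hv).1) fun v hv => (mem_flt.1 hv).2)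
    (mul_nonneg h.K0 (h.t0 (π u) b))
  have h3 := mul_le_mul_of_nonneg_right (h.near u b S hS) h.e0
  linarith

lemma Cov.total [Fintype β] (h : Cov π g t far K e) (D Y : Finset α) (x : α) (y : β)
    (hY : ∀ v ∈ Y, π v = y) (W : α → α → ℝ) (W0 : ∀ u v, 0 ≤ W u v)
    (hW : ∀ u v, W u v ≤ ind (far u v) * (K * t (π u) (π v)) + e) :
    ∑ y' ∈ Y, ∑ u ∈ D, ∑ v ∈ D, g x u * (g u v * W u v * g v y') ≤
      2 * e * K ^ 3 * ∑ a, ∑ b, t (π x) a * t a b * t b y := by
  have c0 : 0 ≤ 2 * e * K := mul_nonneg (mul_nonneg two_pos.le h.e0) h.K0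
  have h1 : ∀ u, ∑ y' ∈ Y, ∑ v ∈ D, g x u * (g u v * W u v * g v y') ≤
      g x u * ∑ b, 2 * e * K * t (π u) b * (K * t b y) := by
    intro u
    rw [Finset.sum_comm]
    simp only [← Finset.mul_sum]
    refine mul_le_mul_of_nonneg_left (le_trans (Finset.sum_le_sum fun v _ =>
      mul_le_mul_of_nonneg_left (h.near v y Y hY) (mul_nonneg (h.g0 u v) (W0 u v))) ?_) (h.g0 x u)
    exact fib D π (fun v => g u v * W u v) (fun b => K * t b y) _
      (fun b => mul_nonneg h.K0 (h.t0 b y))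
      fun b => h.mid _ u b (fun v hv => (mem_flt.1 hv).2) _ (hW u)
  rw [Finset.sum_comm]
  refine (Finset.sum_le_sum fun u _ => h1 u).trans ((fib D π (g x)
    (fun a => ∑ b, 2 * e * K * t a b * (K * t b y)) (fun a => K * t (π x) a)
    (fun a => Finset.sum_nonneg fun b _ => mul_nonneg (mul_nonneg c0 (h.t0 a b))
      (mul_nonneg h.K0 (h.t0 b y)))
    fun a => h.near x a _ fun v hv => (mem_flt.1 hv).2).trans (le_of_eq ?_))
  simp only [Finset.mul_sum]
  exact Finset.sum_congr rfl fun a _ => Finset.sum_congr rfl fun b _ => by ring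

lemma Cov.main [Fintype β] (h : Cov π g t far K e) (ts : ∀ a b, t a b = t b a)
    (fs : ∀ u v, far u v ↔ far v u) {R : α → α → Prop}
    (hR : ∀ v w, R v w → π w = π v ∧ ∀ u, far u v ∨ far u w) (D Y : Finset α) (x : α) (y : β)
    (hY : ∀ v ∈ Y, π v = y) :
    ∑ y' ∈ Y, ∑ u ∈ D, ∑ v ∈ D, ∑ w ∈ D, ind (R v w) *
        (g x u * g u v * g v y' * g u w + g x v * g v u * g u y' * g u w) ≤
      4 * e * K ^ 3 * ∑ a, ∑ b, t (π x) a * t a b * t b y := by
  have W0 : ∀ u v, 0 ≤ ∑ w ∈ D, ind (R v w) * g u w := fun u v =>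
    Finset.sum_nonneg fun w _ => mul_nonneg (ind_nonneg _) (h.g0 u w)
  have h1 := h.total D Y x y hY (fun u v => ∑ w ∈ D, ind (R v w) * g u w) W0 (h.twin hR D)
  have h2 := h.total D Y x y hY (fun v u => ∑ w ∈ D, ind (R v w) * g u w) (fun v u => W0 u v)
    fun v u => by rw [ind_congr (fs v u), ts]; exact h.twin hR D u v
  refine le_trans (le_of_eq ?_) ((add_le_add h1 h2).trans (le_of_eq (by ring)))
  rw [← Finset.sum_add_distrib]
  refine Finset.sum_congr rfl fun y' _ => ?_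
  rw [Finset.sum_comm (s := D) (t := D)
    (f := fun v u => g x v * (g v u * (∑ w ∈ D, ind (R v w) * g u w) * g u y')),
    ← Finset.sum_add_distrib]
  refine Finset.sum_congr rfl fun u _ => ?_
  rw [← Finset.sum_add_distrib]
  refine Finset.sum_congr rfl fun v _ => ?_
  simp only [Finset.mul_sum, Finset.sum_mul, ← Finset.sum_add_distrib]
  exact Finset.sum_congr rfl fun w _ => by ring

end T2E

theorem st_T2e (h : St_TG0) : St_T2e := by
  intro d c C₀ hd hc
  obtain ⟨K, K0, H⟩ := h d c hd hc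
  refine ⟨4 * (K * (1 + C₀ ^ 2)) * K ^ 3, by positivity, fun n _ l hl hn x y D Y hY => ?_⟩
  have n0 : (0 : ℝ) ≤ n := Nat.cast_nonneg n
  have hC : T2E.Cov (proj n : Zd d → Tor d n) (ge c l) (tg l) (fun u v => (n : ℝ) / 2 ≤ zd u v) K
      (K * (1 + C₀ ^ 2) * (l ^ 2 / (n : ℝ) ^ d)) := by
    refine ⟨K0.le, by positivity,
      fun u v => mul_nonneg (kk_nonneg _ (zd_nonneg u v)) (Real.exp_pos _).le,
      fun a b => add_nonneg (kk_nonneg _ (td_nonneg a b)) (by positivity),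
      fun u b S hS => (H n l hl u b S hS).1,
      fun u b S hS hf => ((H n l hl u b S hS).2 hf).trans ?_⟩
    rw [mul_assoc, ← mul_div_assoc (1 + C₀ ^ 2)]
    refine mul_le_mul_of_nonneg_left (div_le_div_of_nonneg_right ?_ (by positivity)) K0.le
    have := pow_le_pow_left₀ n0 hn 2
    rw [mul_pow] at this
    linarith
  refine (hC.main (fun a b => by rw [tg, tg, td_comm]) (fun u v => by rw [zd_comm])
    (R := Twin n) (fun v w hw => ⟨hw.1, fun u => ?_⟩) D Y x y hY).trans (le_of_eq (by ring))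
  have h1 := le_zd_of_proj_eq hw.1 hw.2
  have h2 := zd_tri w u v
  rw [zd_comm w u] at h2
  by_contra h3
  rw [not_or, not_le, not_le] at h3
  linarith [h3.1, h3.2]

end Pool.Agent.TPC
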