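import Pool.Agent.Lib.TPC.BlueC

/-! Block TA: the explored set is typically ready in most blocks. -/

open Finset

set_option linter.unusedSectionVars false

namespace Pool.Agent.TPC

namespace TA

variable {K : Kc} {V : Type} [Fintype V] [DecidableEq V] {M : Core K V} {B : Type} [Fintype B]
  [DecidableEq B] {D : Finset V}

lemma ovl_sum (S : Blk M B D) (X : Finset V) :
    ∑ b, ((X ∩ S.U2 b).card : ℝ) ≤ K.Ξ * X.card := by
  have e : ∀ b, ((X ∩ S.U2 b).card : ℝ) = ∑ y ∈ X, ind (y ∈ S.U2 b) := fun b => by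
    rw [← card_flt]
    refine congrArg _ (congrArg _ ?_)
    ext y; simp
  simp only [e]
  rw [Finset.sum_comm, mul_comm, ← nsmul_eq_mul]
  refine Finset.sum_le_card_nsmul _ _ _ fun y _ => ?_
  rw [← card_flt]
  exact_mod_cast S.ovl y _ fun b hb => (mem_flt.1 hb).2

lemma fib_sum (S : Blk M B D) (X : Finset V) :
    ∑ b, ((flt X fun y => S.blk y = b).card : ℝ) = X.card := by
  simp only [card_flt, ind_eq_ite]
  rw [Finset.sum_comm]
  simp

/-- the forbidden set -/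
noncomputable def DD (S : Blk M B D) (MH M' : ℝ) (W : Finset V) : Finset V :=
  flt D fun y => ((W ∩ S.U3 (S.blk y)).card : ℝ) ≤ MH * M.U ∧
    M' < M.pot (W ∩ S.U3 (S.blk y)) y

/-- the threshold for the potential of the past -/
noncomputable def thr (K : Kc) (MH η : ℝ) : ℝ := 2 * K.Cs (η / 2) * (MH * (1 + K.Cs 1 * K.C)) / η

lemma lam_pos (K : Kc) : 0 < 1 + K.Cs 1 * K.C := by
  have := K.hCs 1; have := K.hC; positivity

lemma thr_pos (K : Kc) {MH η : ℝ} (h : 0 < MH) (hη : 0 < η) : 0 < thr K MH η := by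
  have := K.hCs (η / 2); have := lam_pos K; unfold thr; positivity

lemma dd_small (S : Blk M B D) {MH η : ℝ} (h : 0 < MH) (hη : 0 < η) (W : Finset V) (z : V) :
    ∑ y ∈ DD S MH (thr K MH η) W, M.tb univ z y ≤ η * M.l ^ 2 := by
  have hT := thr_pos K h hη
  have hL := lam_pos K
  have hC := K.hCs (η / 2)
  have h1 := S.kd (η / 2) (MH * (1 + K.Cs 1 * K.C) / thr K MH η) (by positivity) (by positivity)
    (DD S MH (thr K MH η) W) (flt_subset _ _) (fun b => by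
      set F := flt (DD S MH (thr K MH η) W) fun y => S.blk y = b with hF
      rcases F.eq_empty_or_nonempty with h0 | ⟨y₀, hy₀⟩
      · rw [h0, card_empty, Nat.cast_zero]; have := M.Vol_pos; positivity
      have c1 : ((W ∩ S.U3 b).card : ℝ) ≤ MH * M.U := by
        obtain ⟨h2, h3⟩ := mem_flt.1 hy₀
        exact h3 ▸ (mem_flt.1 h2).2.1
      have c2 : F ⊆ S.U2 b := fun y hy => by
        obtain ⟨h2, h3⟩ := mem_flt.1 hy
        exact h3 ▸ S.mem2 y (mem_flt.1 h2).1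
      have c3 : F.card • thr K MH η ≤ ∑ y ∈ F, M.pot (W ∩ S.U3 b) y :=
        Finset.card_nsmul_le_sum _ _ _ fun y hy => by
          obtain ⟨h2, h3⟩ := mem_flt.1 hy
          exact h3 ▸ (mem_flt.1 h2).2.2.le
      rw [M.sum_pot, nsmul_eq_mul] at c3
      have c4 := Finset.sum_le_card_nsmul (W ∩ S.U3 b) (fun a => M.pot F a) _
        fun a _ => (M.pot_mono c2 a).trans ((S.sm b).pot_le a)
      rw [nsmul_eq_mul] at c4
      have c5 := mul_le_mul_of_nonneg_right c1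
        (show 0 ≤ (1 + K.Cs 1 * K.C) * M.l ^ 2 by positivity)
      rw [div_mul_eq_mul_div, le_div_iff₀ hT, M.Vol_eq]
      linarith) z
  have e : η / 2 + K.Cs (η / 2) * (MH * (1 + K.Cs 1 * K.C) / thr K MH η) = η := by
    unfold thr; field_simp; ring
  rw [e, mul_comm] at h1
  exact h1

lemma en_hyp (S : Blk M B D) {MH Ms M' : ℝ} {X R : Finset V} (hX : X ⊆ D) {b : B}
    (hb : ((X ∩ S.U4 b).card : ℝ) ≤ MH * M.U) (hR : R ⊆ S.U2 b) :
    ∀ W C : Finset V, W ⊆ X → C ⊆ X → ∀ y ∈ C, y ∈ R → y ∉ M.badS Ms (DD S MH M') W C →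
      M.pot (C ∩ R) y ≤ Ms ∧ M.pot (W ∩ R) y ≤ M' := by
  intro W C hW hC y hy hyR hn
  have h1 : ¬ (Ms < M.pot C y ∨ y ∈ DD S MH M' W) := fun h => hn (mem_flt.2 ⟨hy, h⟩)
  rw [not_or, not_lt] at h1
  obtain ⟨h2, h3⟩ := S.s234 b y (hX (hC hy)) (hR hyR)
  refine ⟨(M.pot_mono inter_subset_left y).trans h1.1, ?_⟩
  refine (M.pot_mono (inter_subset_inter_left (hR.trans h2)) y).trans (not_lt.1 fun h => ?_)
  refine h1.2 (mem_flt.2 ⟨hX (hC hy), le_trans ?_ hb, h⟩)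
  exact_mod_cast card_le_card (inter_subset_inter hW h3)

/-- the deterministic part -/
lemma det (hEN : St_EN) (S : Blk M B D) {T : Type} {s : List (Ent T V)} (hs : Disj s)
    (hD : Wof s ⊆ D) {Cκ MH η k Ms₀ M₀' Ms₁ M₁' M₀ η₁ ζ : ℝ} (hη : 0 < η) (hk : 0 ≤ k)
    (h0 : 0 ≤ Ms₀) (h0' : 0 ≤ M₀') (h1 : 0 ≤ Ms₁) (h1' : 0 ≤ M₁') (hζ : 0 < ζ)
    (hM : M₀ = K.C * (Ms₀ + 2 * M₀') / (1 / 2)) (hM0 : 0 ≤ M₀)
    (hl : M₀ * (K.Ξ * (η₁ + ζ * Cκ)) ≤ η / 16)
    (hW : ((Wof s).card : ℝ) ≤ Cκ * k)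
    (m0 : ((marked (M.badS Ms₀ (DD S MH M₀')) s).card : ℝ) ≤ 1 / 8 * k)
    (m1 : ((marked (M.badS Ms₁ (DD S MH M₁')) s).card : ℝ) ≤ η₁ * k) :
    S.Typ Cκ MH M₀ (K.C * (Ms₁ + 2 * M₁') / ζ) η k (Wof s) := by
  set W := Wof s with hWd
  set Z₀ := marked (M.badS Ms₀ (DD S MH M₀')) s
  set Z₁ := marked (M.badS Ms₁ (DD S MH M₁')) s
  set e : B → ℝ := fun b => ((Z₁ ∩ S.U2 b).card : ℝ) + ζ * (W ∩ S.U2 b).card with he
  have key : ∀ b, ∃ a : Finset V,
      (a = ∅ ∨ (((W ∩ S.U4 b).card : ℝ) ≤ MH * M.U ∧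
        M.Ready W (S.U2 b) M₀ (K.C * (Ms₁ + 2 * M₁') / ζ) η a ∧ ∀ y ∈ a, S.blk y = b)) ∧
      ((flt (flt W fun y => ((W ∩ S.U4 (S.blk y)).card : ℝ) ≤ MH * M.U)
        fun y => S.blk y = b).card : ℝ) ≤
        2 * a.card + 2 * (M₀ / η * e b) + (flt Z₀ fun y => S.blk y = b).card := by
    intro b
    have e0 : 0 ≤ M₀ / η * e b := by simp only [he]; positivity
    by_cases hb : ((W ∩ S.U4 b).card : ℝ) ≤ MH * M.U
    · have hR : (flt D fun y => S.blk y = b) ⊆ S.U2 b := fun y hy =>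
        (mem_flt.1 hy).2 ▸ S.mem2 y (mem_flt.1 hy).1
      obtain ⟨a, a1, a2, a3⟩ := hEN K V M T s hs _ _ Ms₀ M₀' (1 / 2) h0 h0' (by norm_num)
        (en_hyp S hD hb hR)
      obtain ⟨A, A1, A2, A3⟩ := hEN K V M T s hs _ _ Ms₁ M₁' ζ h1 h1' hζ
        (en_hyp S hD hb subset_rfl)
      rw [← hM] at a3
      have c1 : ((flt (flt W fun y => ((W ∩ S.U4 (S.blk y)).card : ℝ) ≤ MH * M.U)
          fun y => S.blk y = b).card : ℝ) ≤ 2 * a.card + (flt Z₀ fun y => S.blk y = b).card := by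
        have c2 : (flt (flt W fun y => ((W ∩ S.U4 (S.blk y)).card : ℝ) ≤ MH * M.U)
            fun y => S.blk y = b) ⊆ ((W ∩ flt D fun y => S.blk y = b) \ Z₀) ∪
              flt Z₀ fun y => S.blk y = b := by
          intro y hy
          obtain ⟨h2, h3⟩ := mem_flt.1 hy
          by_cases hz : y ∈ Z₀
          · exact mem_union_right _ (mem_flt.2 ⟨hz, h3⟩)
          · exact mem_union_left _ (mem_sdiff.2 ⟨mem_inter.2 ⟨(mem_flt.1 h2).1,
              mem_flt.2 ⟨hD (mem_flt.1 h2).1, h3⟩⟩, hz⟩)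
        have c3 := (Nat.cast_le (α := ℝ)).2 ((card_le_card c2).trans (card_union_le _ _))
        have c4 := congrArg (Nat.cast (R := ℝ)) (card_sdiff_add_card_eq_card a1)
        push_cast at c3 c4
        linarith
      have c5 : (((W ∩ S.U2 b) \ A).card : ℝ) ≤ e b := by
        have c2 : (W ∩ S.U2 b) \ A ⊆ (Z₁ ∩ S.U2 b) ∪ (((W ∩ S.U2 b) \ Z₁) \ A) := by
          intro y hy
          obtain ⟨h2, h3⟩ := mem_sdiff.1 hy
          by_cases hz : y ∈ Z₁
          · exact mem_union_left _ (mem_inter.2 ⟨hz, (mem_inter.1 h2).2⟩)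
          · exact mem_union_right _ (mem_sdiff.2 ⟨mem_sdiff.2 ⟨h2, hz⟩, h3⟩)
        have c3 := (Nat.cast_le (α := ℝ)).2 ((card_le_card c2).trans (card_union_le _ _))
        have c4 : ((((W ∩ S.U2 b) \ Z₁).card : ℕ) : ℝ) ≤ (W ∩ S.U2 b).card :=
          Nat.cast_le.2 (card_le_card sdiff_subset)
        have c6 := mul_le_mul_of_nonneg_left c4 hζ.le
        push_cast at c3
        simp only [he]
        linarith
      by_cases hk : M₀ * e b ≤ η * a.card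
      · refine ⟨a, Or.inr ⟨hb, ⟨a1.trans (sdiff_subset.trans inter_subset_left), a3, A,
          A1.trans sdiff_subset, A3, (mul_le_mul_of_nonneg_left c5 hM0).trans hk⟩,
          fun y hy => (mem_flt.1 (mem_inter.1 (mem_sdiff.1 (a1 hy)).1).2).2⟩, by linarith⟩
      · refine ⟨∅, Or.inl rfl, ?_⟩
        have : (a.card : ℝ) ≤ M₀ / η * e b := by
          rw [div_mul_eq_mul_div, le_div_iff₀ hη]; linarith
        rw [card_empty, Nat.cast_zero]
        linarith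
    · refine ⟨∅, Or.inl rfl, ?_⟩
      have : (flt (flt W fun y => ((W ∩ S.U4 (S.blk y)).card : ℝ) ≤ MH * M.U)
          fun y => S.blk y = b) = ∅ := Finset.eq_empty_of_forall_notMem fun y hy => by
        obtain ⟨h2, h3⟩ := mem_flt.1 hy
        exact hb (h3 ▸ (mem_flt.1 h2).2)
      rw [this, card_empty, Nat.cast_zero]
      positivity
  choose a ha1 ha2 using key
  refine ⟨hW, a, ha1, ?_⟩
  have s1 := Finset.sum_le_sum fun b (_ : b ∈ (univ : Finset B)) => ha2 b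
  rw [fib_sum, Finset.sum_add_distrib, Finset.sum_add_distrib, fib_sum, ← Finset.mul_sum,
    ← Finset.mul_sum, ← Finset.mul_sum] at s1
  have s2 : ∑ b, e b ≤ K.Ξ * (η₁ + ζ * Cκ) * k := by
    simp only [he]
    rw [Finset.sum_add_distrib, ← Finset.mul_sum]
    have t1 := ovl_sum S Z₁
    have t2 := mul_le_mul_of_nonneg_left (ovl_sum S W) hζ.le
    have t3 := mul_le_mul_of_nonneg_left m1 (Nat.cast_nonneg (α := ℝ) K.Ξ)
    have t4 := mul_le_mul_of_nonneg_left hW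
      (mul_nonneg hζ.le (Nat.cast_nonneg (α := ℝ) K.Ξ))
    linarith
  have s3 : M₀ / η * ∑ b, e b ≤ k / 16 := by
    rw [div_mul_eq_mul_div, div_le_iff₀ hη]
    have t1 := mul_le_mul_of_nonneg_left s2 hM0
    have t2 := mul_le_mul_of_nonneg_right hl hk
    linarith
  linarith

end TA

open TA

theorem st_TA (hXT : St_XT) (hEN : St_EN) : St_TA := by
  intro K κ hκ
  obtain ⟨Cκ, hC, hX⟩ := hXT K κ hκ
  refine ⟨Cκ, hC, fun η MH hη hMH => ?_⟩
  obtain ⟨η₀, Ms₀, c₀, C₀, l₀, p1, p2, p3, p4, H0⟩ := hX (1 / 8) (by norm_num)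
  have hT0 := thr_pos K hMH p1
  have hKC := K.hC
  have hΞ : (1 : ℝ) ≤ K.Ξ := by exact_mod_cast K.hΞ
  set M₀ := K.C * (Ms₀ + 2 * thr K MH η₀) / (1 / 2) with hM
  have hM0 : 0 < M₀ := by positivity
  obtain ⟨η₁, Ms₁, c₁, C₁, l₁, q1, q2, q3, q4, H1⟩ := hX (η / (32 * M₀ * K.Ξ)) (by positivity)
  have hT1 := thr_pos K hMH q1
  have hζ : 0 < η / (32 * M₀ * K.Ξ * Cκ) := by positivity
  refine ⟨M₀, K.C * (Ms₁ + 2 * thr K MH η₁) / (η / (32 * M₀ * K.Ξ * Cκ)), min c₀ c₁, C₀ + C₁,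
    max l₀ l₁, hM0, by positivity, lt_min p3 q3, by positivity, ?_⟩
  intro V _ _ M B _ _ D S i q hq hl x k hk
  have l4 : 0 < M.l ^ 4 := pow_pos M.l_pos 4
  have hk0 : 0 ≤ k := l4.le.trans hk
  have b0 := H0 V M i q hq ((le_max_left _ _).trans hl) D x k hk (DD S MH (thr K MH η₀))
    fun W _ _ z => dd_small S hMH p1 W z
  have b1 := H1 V M i q hq ((le_max_right _ _).trans hl) D x k hk (DD S MH (thr K MH η₁))
    fun W _ _ z => dd_small S hMH q1 W z
  have e0 : Real.exp (-(c₀ * k / M.l ^ 4)) ≤ Real.exp (-(min c₀ c₁ * k / M.l ^ 4)) := by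
    have := min_le_left c₀ c₁; gcongr
  have e1 : Real.exp (-(c₁ * k / M.l ^ 4)) ≤ Real.exp (-(min c₀ c₁ * k / M.l ^ 4)) := by
    have := min_le_right c₀ c₁; gcongr
  have l2 : 0 < M.l ^ 2 := pow_pos M.l_pos 2
  have f0 := mul_le_mul_of_nonneg_left e0 (div_pos p4 l2).le
  have f1 := mul_le_mul_of_nonneg_left e1 (div_pos q4 l2).le
  rw [add_div, add_mul]
  refine le_trans ?_ (add_le_add (b0.trans f0) (b1.trans f1))
  refine le_trans (PE_ind_mono hq.prob fun ω h => ?_) (PE_ind_or hq.prob _ _)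
  by_contra hc
  simp only [not_or, not_lt] at hc
  obtain ⟨d1, d2⟩ := Proc.disj_run (xproc M.G D i x k) ω (Fintype.card (Sym2 V) + 1)
  refine h (det hEN S d1 d2 hη hk0 p2.le hT0.le q2.le hT1.le hζ hM hM0.le (le_of_eq ?_) hc.1.1
    hc.1.2 hc.2.2)
  field_simp
  ring

end Pool.Agent.TPC
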