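import Pool.Agent.Lib.TPC.BlueC

/-! Contacts between a ready set and a big cluster. -/

open Finset

set_option linter.unusedSectionVars false

namespace Pool.Agent.TPC

namespace TC

lemma split {ι : Type} [DecidableEq ι] {E : Finset ι} {π : ι → ℝ} (hπ : Prob π)
    (P B : Finset ι → Prop) (x : Finset ι → ℝ) (x1 : ∀ ω, x ω ≤ 1) {e : ℝ}
    (e0 : 0 ≤ e) (e1 : e ≤ 1) (h : PE E π (fun ω => ind (P ω ∧ ¬ B ω) * x ω) ≤
      e * PE E π (fun ω => ind (P ω ∧ ¬ B ω))) :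
    PE E π (fun ω => ind (P ω) * x ω) ≤
      e * PE E π (fun ω => ind (P ω)) + PE E π (fun ω => ind (B ω)) ∧
    (1 - e) * (PE E π (fun ω => ind (P ω)) - PE E π (fun ω => ind (B ω))) ≤
      PE E π (fun ω => ind (P ω) * (1 - x ω)) := by
  have h1 : PE E π (fun ω => ind (P ω) * x ω) ≤
      PE E π (fun ω => ind (P ω ∧ ¬ B ω) * x ω) + PE E π (fun ω => ind (B ω)) := by
    rw [← PE_add]
    refine PE_mono hπ fun ω => ?_
    have := x1 ω
    by_cases hP : P ω <;> by_cases hB : B ω <;> simp [ind, hP, hB, this]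
  have h2 : PE E π (fun ω => ind (P ω ∧ ¬ B ω)) ≤ PE E π (fun ω => ind (P ω)) :=
    PE_ind_mono hπ fun ω h => h.1
  have h3 : PE E π (fun ω => ind (P ω)) - PE E π (fun ω => ind (B ω)) ≤
      PE E π (fun ω => ind (P ω ∧ ¬ B ω)) := by
    rw [← PE_sub]
    refine PE_mono hπ fun ω => ?_
    by_cases hP : P ω <;> by_cases hB : B ω <;> simp [ind, hP, hB]
  have h4 : PE E π (fun ω => ind (P ω ∧ ¬ B ω)) - PE E π (fun ω => ind (P ω ∧ ¬ B ω) * x ω) ≤
      PE E π (fun ω => ind (P ω) * (1 - x ω)) := by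
    rw [← PE_sub]
    refine PE_mono hπ fun ω => ?_
    have := x1 ω
    by_cases hP : P ω <;> by_cases hB : B ω <;> simp [ind, hP, hB, this]
  have h5 := mul_le_mul_of_nonneg_left h2 e0
  have h6 := mul_le_mul_of_nonneg_left h3 (sub_nonneg.2 e1)
  constructor <;> linarith

lemma markov {α : Type} (U : Finset α) (f : α → ℝ) (hf : ∀ x, 0 ≤ f x) (t : ℝ) :
    t * (flt U fun x => t < f x).card ≤ ∑ x ∈ U, f x := by
  rw [card_flt, Finset.mul_sum]
  refine Finset.sum_le_sum fun x _ => ?_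
  rw [mul_comm]
  exact ind_mul_le (hf x) le_of_lt

variable {K : Kc} {V : Type} [Fintype V] [DecidableEq V]

lemma unmarked {T : Type} {bad : Finset V → Finset V → Finset V} {s : List (Ent T V)} {x : V}
    (h1 : x ∈ Wof s) (h2 : x ∉ marked bad s) : ∃ W C, x ∈ C ∧ x ∉ bad W C := by
  induction s with
  | nil => simp [Wof] at h1
  | cons a s ih =>
    rw [marked, Finset.mem_union, not_or] at h2
    rcases Finset.mem_union.1 h1 with h | h
    · exact ⟨_, _, h, h2.1⟩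
    · exact ih h h2.2

/-- the predictable forbidden set -/
noncomputable def DD (M : Core K V) (U R a : Finset V) (M' : ℝ) (W : Finset V) : Finset V :=
  flt U fun x => M' < M.pot W x ∨ K.c / 4 * M.f0 * a.card < ∑ u ∈ R, M.g x u * M.pot a u

lemma dd_small (M : Core K V) {U R a W : Finset V} {M' M₀ Λ η η' : ℝ} (hU : M.Small U)
    (hΛ : ∀ z, M.pot U z ≤ Λ * M.l ^ 2) (Λ0 : 0 ≤ Λ) (ha : ∀ u, M.pot a u ≤ M₀)
    (hR : M₀ * R.card ≤ η * a.card) (a0 : 0 < (a.card : ℝ)) (hW : (W.card : ℝ) ≤ M.U)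
    (η0 : 0 < η') (M0 : 0 < M') (h1 : 4 * K.Cs (η' / 2) * Λ ≤ η' * M')
    (h2 : 16 * K.Cs (η' / 2) * Λ * η ≤ K.c * η') (z : V) :
    ∑ y ∈ DD M U R a M' W, M.tb univ z y ≤ η' * M.l ^ 2 := by
  have l2 : 0 < M.l ^ 2 := pow_pos M.l_pos 2
  have f0 := M.f0_pos
  have C0 : 0 < K.Cs (η' / 2) := by linarith [K.hCs (η' / 2)]
  have a1 := markov U (M.pot W) (M.pot_nonneg W) M'
  have a2 := markov U (fun x => ∑ u ∈ R, M.g x u * M.pot a u)
    (fun x => Finset.sum_nonneg fun u _ => mul_nonneg (M.g_nonneg _ _) (M.pot_nonneg _ _))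
    (K.c / 4 * M.f0 * a.card)
  have b1 : ∑ x ∈ U, M.pot W x ≤ M.U * (Λ * M.l ^ 2) := by
    rw [M.sum_pot]
    refine (Finset.sum_le_card_nsmul _ _ _ fun w _ => hΛ w).trans ?_
    rw [nsmul_eq_mul]
    exact mul_le_mul_of_nonneg_right hW (by positivity)
  have b2 : ∑ x ∈ U, ∑ u ∈ R, M.g x u * M.pot a u ≤ η * a.card * (Λ * M.l ^ 2) := by
    rw [Finset.sum_comm]
    refine (Finset.sum_le_card_nsmul _ _ (M₀ * (Λ * M.l ^ 2)) fun u _ => ?_).trans ?_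
    · have e : ∑ x ∈ U, M.g x u * M.pot a u = M.pot a u * M.pot U u := by
        rw [← Finset.sum_mul, mul_comm, Core.pot, Core.pot]
        congr 1
        exact Finset.sum_congr rfl fun x _ => M.symm _ _
      rw [e]
      exact mul_le_mul (ha u) (hΛ u) (M.pot_nonneg _ _) ((M.pot_nonneg _ _).trans (ha u))
    · rw [nsmul_eq_mul, ← mul_assoc, mul_comm (R.card : ℝ)]
      exact mul_le_mul_of_nonneg_right hR (by positivity)
  have c0 : ((DD M U R a M' W).card : ℝ) ≤ (flt U fun x => M' < M.pot W x).card +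
      (flt U fun x => K.c / 4 * M.f0 * a.card < ∑ u ∈ R, M.g x u * M.pot a u).card := by
    rw [DD, card_flt, card_flt, card_flt, ← Finset.sum_add_distrib]
    exact Finset.sum_le_sum fun x _ => ind_or_le _ _
  generalize ((flt U fun x => M' < M.pot W x).card : ℝ) = n₁ at a1 c0
  generalize ((flt U fun x =>
    K.c / 4 * M.f0 * a.card < ∑ u ∈ R, M.g x u * M.pot a u).card : ℝ) = n₂ at a2 c0
  have c1 : K.Cs (η' / 2) * M.f0 * n₁ ≤ η' / 4 * M.l ^ 2 := by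
    refine le_of_mul_le_mul_left ?_ M0
    have d1 := mul_le_mul_of_nonneg_left (a1.trans b1) (mul_pos C0 f0).le
    have d2 := mul_le_mul_of_nonneg_right h1 l2.le
    have d3 : K.Cs (η' / 2) * M.f0 * (M.U * (Λ * M.l ^ 2)) = K.Cs (η' / 2) * Λ * M.l ^ 2 := by
      linear_combination (K.Cs (η' / 2) * Λ * M.l ^ 2) * M.f0_mul_U
    linarith
  have c2 : K.Cs (η' / 2) * M.f0 * n₂ ≤ η' / 4 * M.l ^ 2 := by
    refine le_of_mul_le_mul_left ?_ (mul_pos K.hc a0)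
    have d1 := mul_le_mul_of_nonneg_left (a2.trans b2) C0.le
    have d2 := mul_le_mul_of_nonneg_right h2 (mul_pos l2 a0).le
    linarith
  have c3 := mul_le_mul_of_nonneg_left c0 (mul_pos C0 f0).le
  have c4 := hU.r1 (η' / 2) (half_pos η0) z (DD M U R a M' W) (flt_subset _ _)
  refine (Finset.sum_le_sum fun y _ => M.tb_le univ z y).trans ?_
  linarith

lemma fresh (M : Core K V) (U A B₀ : Finset V) :
    DepOn (fun ω => M.ext U A B₀ ω) {b : Bit V | b.1 ∈ touch B₀ ∧ b.2 ≤ 1}ᶜ := by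
  intro ω ω' h
  have h1 : ∀ e : Sym2 V, (e, (2 : Fin 5)) ∈ ω ↔ (e, (2 : Fin 5)) ∈ ω' := fun e =>
    h _ fun h2 => absurd h2.2 (by decide : ¬ (2 : Fin 5) ≤ 1)
  have h2 : ∀ z v, conn M.G (U \ (A ∪ B₀)) (lev 0 ω) z v =
      conn M.G (U \ (A ∪ B₀)) (lev 0 ω') z v := fun z v =>
    dep_lev (dep_conn M.G (U \ (A ∪ B₀)) z v) 0 ω ω' fun b hb => h b fun h3 =>
      edges_sdiff_not_touch (Finset.mem_coe.1 hb.1) (touch_mono Finset.subset_union_right h3.1)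
  simp only [Core.ext, h1, h2]

lemma ext_sub (M : Core K V) {U A B₀ : Finset V} {ω : Finset (Bit V)} {y : V}
    (h : B₀ ⊆ M.cv (U \ A) 2 ω y) : M.ext U A B₀ ω ⊆ M.cv (U \ A) 2 ω y := by
  intro v hv
  rcases (mem_flt.1 hv).2 with h1 | ⟨b, hb, z, h1, h2, h3⟩
  · exact h h1
  · have h4 := h3.mono (Finset.sdiff_subset_sdiff subset_rfl (Finset.subset_union_left))
      (lev_mono (i' := 2) (by decide) subset_rfl)
    have h5 := mem_cl.1 (h hb)
    exact mem_cl.2 ((h5.tail h4.left h1 (mem_lev.2 ⟨2, le_rfl, h2⟩) h5.right).trans h4)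

lemma key (hXB : St_XB) (M : Core K V) {q : Fin 5 → ℝ} (hq : Prob fun b : Bit V => q b.2)
    {U D A : Finset V} (hD : D ⊆ U \ A) (y : V) {k θ e : ℝ} (hk : 0 < k) (θ0 : 0 ≤ θ)
    (B : List (Ent (Sym2 V) V) → Prop)
    (h : ∀ ω₀, k ≤ (xw M.G D 1 y k ω₀).card → ¬ B (xs M.G D 1 y k ω₀) →
      PL q (fun ω => Real.exp (-(θ * ec M.G (A ∩ U) (M.ext U A (xw M.G D 1 y k ω₀) ω) /
        M.l ^ 2))) ≤ e) :
    PL q (fun ω => ind (k ≤ (M.cv D 1 ω y).card ∧ ¬ B (xs M.G D 1 y k ω)) *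
      Real.exp (-(θ * ec M.G (A ∩ U) (M.cv (U \ A) 2 ω y) / M.l ^ 2))) ≤
      e * PL q (fun ω => ind (k ≤ (M.cv D 1 ω y).card ∧ ¬ B (xs M.G D 1 y k ω))) := by
  have X := fun ω => hXB V M.G K.Δ M.deg D 1 y k hk ω
  have e1 : ∀ ω, (k ≤ (M.cv D 1 ω y).card) ↔ k ≤ (Wof (xs M.G D 1 y k ω)).card := by
    intro ω
    constructor
    · intro h1
      by_contra h2
      have h3 := (X ω).2.1 (not_le.1 h2)
      exact h2 (h1.trans (le_of_eq (congrArg (fun S : Finset V => (S.card : ℝ)) h3.symm)))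
    · exact fun h1 => h1.trans (Nat.cast_le.2 (Finset.card_le_card (X ω).1))
  simp only [e1]
  have h1 := PE_stop (fun ω => xs M.G D 1 y k ω)
    (fun s => {b : Bit V | b.1 ∈ touch (Wof s) ∧ b.2 ≤ 1})
    (fun ω ω' h => (X ω).2.2.2.1 ω' fun b h1 h2 => h b ⟨h1, h2⟩)
    (fun s ω => ind (k ≤ (Wof s).card ∧ ¬ B s) *
      Real.exp (-(θ * ec M.G (A ∩ U) (M.ext U A (Wof s) ω) / M.l ^ 2)))
    (fun ω => (fresh M U A _).comp fun S => ind (k ≤ (Wof (xs M.G D 1 y k ω)).card ∧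
      ¬ B (xs M.G D 1 y k ω)) * Real.exp (-(θ * ec M.G (A ∩ U) S / M.l ^ 2))) univ
    (fun b => q b.2)
  unfold PL
  rw [← PE_mul_left]
  refine le_trans (PE_mono hq fun ω => ?_) (h1.le.trans (PE_mono hq fun ω => ?_))
  · refine mul_le_mul_of_nonneg_left (Real.exp_le_exp.2 (neg_le_neg
      (div_le_div_of_nonneg_right (mul_le_mul_of_nonneg_left (ec_mono subset_rfl (ext_sub M ?_)) θ0)
        (sq_nonneg _)))) (ind_nonneg _)
    exact (X ω).1.trans (cl_mono hD (lev_mono (by decide) subset_rfl))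
  · rw [PE_mul_left, mul_comm e]
    by_cases h2 : k ≤ (Wof (xs M.G D 1 y k ω)).card ∧ ¬ B (xs M.G D 1 y k ω)
    · exact mul_le_mul_of_nonneg_left (h ω h2.1 h2.2) (ind_nonneg _)
    · rw [ind_neg h2, zero_mul, zero_mul]

/-- extraction of the good part of the explored set -/
lemma extract (hEN : St_EN) (M : Core K V) {U R a : Finset V} {s : List (Ent (Sym2 V) V)}
    (hs : Disj s) (hU : Wof s ⊆ U) {Ms M' k : ℝ} (Ms0 : 0 ≤ Ms) (M0 : 0 ≤ M')
    (h1 : k ≤ (Wof s).card) (h2 : ((marked (M.badS Ms (DD M U R a M')) s).card : ℝ) ≤ 1 / 2 * k) :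
    ∃ B₁ : Finset V, B₁ ⊆ Wof s ∧ (∀ u, M.pot B₁ u ≤ K.C * (Ms + 2 * M') / (1 / 2)) ∧
      k / 4 ≤ B₁.card ∧ ∀ x ∈ B₁, ∑ u ∈ R, M.g x u * M.pot a u ≤ K.c / 4 * M.f0 * a.card := by
  obtain ⟨B₁, b1, b2, b3⟩ := hEN K V M _ s hs (M.badS Ms (DD M U R a M')) univ Ms M' (1 / 2)
    Ms0 M0 (by norm_num) fun W C _ hC y hy _ hb => by
      rw [Core.badS, mem_flt, not_and, not_or] at hb
      have h3 := hb hy
      rw [DD, mem_flt, not_and, not_or] at h3
      rw [Finset.inter_univ, Finset.inter_univ]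
      exact ⟨not_lt.1 h3.1, not_lt.1 (h3.2 (hU (hC hy))).1⟩
  rw [Finset.inter_univ] at b1 b2
  refine ⟨B₁, b1.trans Finset.sdiff_subset, b3, ?_, fun x hx => ?_⟩
  · have c1 : ((Wof s).card : ℝ) ≤ (Wof s \ marked (M.badS Ms (DD M U R a M')) s).card +
        (marked (M.badS Ms (DD M U R a M')) s).card := by
      exact_mod_cast Finset.card_le_card_sdiff_add_card
    have c2 : ((Wof s \ marked (M.badS Ms (DD M U R a M')) s).card : ℝ) ≤
        ((Wof s \ marked (M.badS Ms (DD M U R a M')) s) \ B₁).card + B₁.card := by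
      exact_mod_cast Finset.card_le_card_sdiff_add_card
    linarith
  · have h3 := Finset.mem_sdiff.1 (b1 hx)
    obtain ⟨W, C, h4, h5⟩ := unmarked h3.1 h3.2
    rw [Core.badS, mem_flt, not_and, not_or] at h5
    have h6 := (h5 h4).2
    rw [DD, mem_flt, not_and, not_or] at h6
    exact not_lt.1 (h6 (hU h3.1)).2

lemma sum_le {Q : Finset V} {f : V → ℝ} {b n : ℝ} (b0 : 0 ≤ b) (hQ : (Q.card : ℝ) ≤ n)
    (h : ∀ y ∈ Q, f y ≤ b) : ∑ y ∈ Q, f y ≤ n * b := by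
  refine (Finset.sum_le_card_nsmul _ _ _ h).trans ?_
  rw [nsmul_eq_mul]
  exact mul_le_mul_of_nonneg_right hQ b0

lemma ub (a b c d e f : ℝ) : ∃ l, a ≤ l ∧ b ≤ l ∧ c ≤ l ∧ d ≤ l ∧ e ≤ l ∧ f ≤ l :=
  ⟨max a (max b (max c (max d (max e f)))), by simp, by simp, by simp, by simp, by simp, by simp⟩

end TC

theorem st_TC (hXB : St_XB) (hBIG : St_BIG) (hKER : St_KER) (hEN : St_EN) (hXT : St_XT)
    (hXZ : St_XZ) (hCL : St_CL) : St_TC := by
  intro K κ₁ c₁ κ0 c0 c1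
  obtain ⟨CB, lB, CB0, HB⟩ := hBIG K κ₁ κ0
  obtain ⟨Λ, hΛ, HK⟩ := hKER K
  obtain ⟨Cκ, Cκ1, HT⟩ := hXT K κ₁ κ0
  obtain ⟨η', Ms, cT, CT, lT, η0, Ms0, cT0, CT0, HT⟩ := HT (1 / 2) (by norm_num)
  obtain ⟨CZ, CZ0, HZ⟩ := hXZ K κ₁ κ0
  have C1 := K.hC
  have Cs1 := K.hCs (η' / 2)
  have Λ0 : 0 < Λ := by linarith
  have C0 : 0 < K.C := by linarith
  have Cs0 : 0 < K.Cs (η' / 2) := by linarith
  have Kc0 := K.hc
  refine ⟨K.c * η' / (16 * K.Cs (η' / 2) * Λ), by positivity, fun M₀ M₁ MH M00 M10 MH0 => ?_⟩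
  obtain ⟨cX, CX, lX, cX0, CX0, HZ⟩ := HZ (M₀ + MH) (by positivity)
  obtain ⟨M', hM'⟩ : ∃ M', M' = 4 * K.Cs (η' / 2) * Λ / η' := ⟨_, rfl⟩
  obtain ⟨CZ', hCZ'⟩ : ∃ CZ', CZ' = CZ * (8 * (Λ + K.C) / c₁) := ⟨_, rfl⟩
  have M'0 : 0 < M' := by rw [hM']; positivity
  have CZ1 : CZ ≤ CZ' := by
    rw [hCZ']
    exact le_mul_of_one_le_right CZ0.le (by rw [le_div_iff₀ c0]; linarith)
  obtain ⟨θ, cL, lL, θ0, θ1, cL0, HL⟩ := hCL K (c₁ / 4) (Cκ * c₁) (K.C * (Ms + 2 * M') / (1 / 2))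
    CZ' M₀ M₁ MH (by positivity) (by positivity) (by positivity) (CZ0.trans_le CZ1) M00 M10 MH0
  obtain ⟨c, cc0, cc1, cc2, cc3⟩ : ∃ c, 0 < c ∧ c ≤ cL ∧ c ≤ cX ∧ c ≤ cT * c₁ / MH :=
    ⟨min cL (min cX (cT * c₁ / MH)), by positivity, min_le_left _ _,
      (min_le_right _ _).trans (min_le_left _ _), (min_le_right _ _).trans (min_le_right _ _)⟩
  obtain ⟨l₀, l1, l2, l3, l4, l5, l6⟩ : ∃ l₀, lB ≤ l₀ ∧ lT ≤ l₀ ∧ lX ≤ l₀ ∧ lL ≤ l₀ ∧ 1 / c₁ ≤ l₀ ∧
      8 * K.C * CT / (cT * c₁ ^ 2) ≤ l₀ :=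
    TC.ub _ _ _ _ _ _
  refine ⟨θ, c, K.C * (CB + CT + CX), l₀, θ0, θ1, cc0, by positivity,
    fun V _ _ M q hq hq2 hl hN U Q A a hU hLB hR haQ haH => ?_⟩
  obtain ⟨haA, ha0, A₁, hA1, hA2, hA3⟩ := hR
  have hπ : Prob fun b : Bit V => q b.2 := hq.prob
  have lp := M.l_pos
  have Up := M.U_pos
  have Np := M.N_pos
  have l4p : 0 < M.l ^ 4 := by positivity
  have x1 : ∀ y ω, Real.exp (-(θ * ec M.G (A ∩ U) (M.cv (U \ A) 2 ω y) / M.l ^ 2)) ≤ 1 :=
    fun y ω => Real.exp_le_one_iff.2 (neg_nonpos.2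
      (div_nonneg (mul_nonneg θ0.le (ec_nonneg _ _)) (sq_nonneg _)))
  rcases (Nat.cast_nonneg (α := ℝ) a.card).eq_or_lt with a0 | a0
  · rw [← a0]
    refine ⟨fun h => absurd h (not_le.2 l4p), ?_⟩
    rw [mul_zero, zero_div, neg_zero, Real.exp_zero, sub_self, zero_mul]
    exact Finset.sum_nonneg fun y _ => PE_nonneg hπ fun ω =>
      mul_nonneg (ind_nonneg _) (sub_nonneg.2 (x1 y ω))
  obtain ⟨hK1, hK2⟩ := (HK V M).2.2 U hU
  have hK3 := (hK2 a).2.1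
  have k0 : 0 < c₁ * M.U := by positivity
  have k1 : c₁ * M.U ≤ M.U := mul_le_of_le_one_left Up.le c1
  have k2 : M.l ^ 4 ≤ c₁ * M.U := by
    have := (div_le_iff₀ c0).1 (l5.trans hN)
    rw [Core.U, ← mul_assoc]
    exact le_mul_of_one_le_left l4p.le (by linarith only [this])
  have hDU : Q \ A ⊆ U := Finset.sdiff_subset.trans hLB.1
  have hW : ∀ u, M.Wp a u ≤ M₀ + MH := fun u => by
    have h1 := mul_le_mul_of_nonneg_left haH M.f0_pos.le
    have h2 : M.f0 * (MH * M.U) = MH := by linear_combination MH * M.f0_mul_U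
    rw [Core.Wp]
    linarith only [ha0 u, h1, h2]
  have hQ : (Q.card : ℝ) ≤ K.C * M.U * M.l ^ 2 := by
    rw [mul_assoc, ← M.Vol_eq]
    exact (hU.mono hLB.1).card
  have m0 : 0 ≤ a.card / M.l ^ 4 := by positivity
  have ex : ∀ c' : ℝ, c ≤ c' → Real.exp (-(c' * a.card / M.l ^ 4)) ≤
      Real.exp (-(c * a.card / M.l ^ 4)) := fun c' h => Real.exp_le_exp.2 (neg_le_neg
    (div_le_div_of_nonneg_right (mul_le_mul_of_nonneg_right h a0.le) l4p.le))
  have e0 := Real.exp_pos (-(c * a.card / M.l ^ 4))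
  have e1 : Real.exp (-(c * a.card / M.l ^ 4)) ≤ 1 :=
    Real.exp_le_one_iff.2 (neg_nonpos.2 (by positivity))
  have T1 := fun y => HT V M 1 q hq (l2.trans hl) (Q \ A) y (c₁ * M.U) k2
    (TC.DD M U ((A ∩ U) \ A₁) a M') fun W _ hW z => TC.dd_small M hU hK1 Λ0.le ha0 hA3 a0
      (hW.le.trans k1) η0 M'0 (by rw [hM']; exact le_of_eq (by field_simp))
      (le_of_eq (by field_simp)) z
  have Z1 := fun y => HZ V M 1 q hq (l3.trans hl) U (Q \ A) hU hDU y (c₁ * M.U) k2 k1 a hW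
  have eN : cT * (c₁ * M.U) / M.l ^ 4 = cT * c₁ * M.N := by rw [Core.U]; field_simp
  rw [eN] at T1
  have S1 := fun y => TC.split (E := univ) hπ (fun ω => M.big c₁ (Q \ A) ω y)
    (fun ω => (Cκ * (c₁ * M.U) < (xw M.G (Q \ A) 1 y (c₁ * M.U) ω).card ∨
      1 / 2 * (c₁ * M.U) < (marked (M.badS Ms (TC.DD M U ((A ∩ U) \ A₁) a M'))
        (xs M.G (Q \ A) 1 y (c₁ * M.U) ω)).card) ∨
      CZ' * a.card < ∑ b ∈ xw M.G (Q \ A) 1 y (c₁ * M.U) ω, M.pot a b) _ (x1 y) e0.le e1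
    (TC.key hXB M hπ (Finset.sdiff_subset_sdiff hLB.1 subset_rfl) y k0 θ0.le
      (fun s => (Cκ * (c₁ * M.U) < (Wof s).card ∨ 1 / 2 * (c₁ * M.U) <
        (marked (M.badS Ms (TC.DD M U ((A ∩ U) \ A₁) a M')) s).card) ∨
        CZ' * a.card < ∑ b ∈ Wof s, M.pot a b) fun ω h1 h2 => by
      rw [not_or, not_or, not_lt, not_lt, not_lt] at h2
      have h3 := (xproc M.G (Q \ A) 1 y (c₁ * M.U)).disj_run ω (Fintype.card (Sym2 V) + 1)
      obtain ⟨B₁, b1, b2, b3, b4⟩ := TC.extract hEN M h3.1 (h3.2.trans hDU) Ms0.le M'0.le h1 h2.1.2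
      exact (HL V M q hq.1 hq.2.1 hq2 (l4.trans hl) U Q A a A₁ _ B₁ hU hLB
        (Finset.subset_inter haA haQ) ha0 hA1 hA2 haH h3.2 b1 b2 (by linarith only [b3])
        (h2.1.1.trans (le_of_eq (by ring))) b4 h2.2).trans (ex cL cc1))
  constructor
  · intro hm
    refine (TC.sum_le (b := (CB + CT + CX) / M.l ^ 2 * Real.exp (-(c * a.card / M.l ^ 4)))
      (by positivity) hQ fun y _ => (S1 y).1.trans ?_).trans (le_of_eq (by field_simp))
    have h1 : PE univ (fun b : Bit V => q b.2) (fun ω => ind (M.big c₁ (Q \ A) ω y)) ≤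
        CB / M.l ^ 2 := (PE_ind_mono hπ fun ω h => k2.trans h).trans
      (HB V M 1 q hq (l1.trans hl) (Q \ A) y).1
    have h2 := mul_le_mul_of_nonneg_left h1 e0.le
    have h3 : Real.exp (-(cT * c₁ * M.N)) ≤ Real.exp (-(c * a.card / M.l ^ 4)) := by
      refine Real.exp_le_exp.2 (neg_le_neg ?_)
      rw [div_le_iff₀ l4p]
      have := mul_le_mul cc3 haH a0.le (by positivity)
      refine this.trans (le_of_eq ?_)
      rw [Core.U]
      field_simp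
    have h4 := (T1 y).trans (mul_le_mul_of_nonneg_left h3 (by positivity))
    have h5 := ((PE_ind_mono (E := univ) hπ (P := fun ω => CZ' * a.card <
      ∑ b ∈ xw M.G (Q \ A) 1 y (c₁ * M.U) ω, M.pot a b) fun ω h =>
        (mul_le_mul_of_nonneg_right CZ1 a0.le).trans_lt h).trans ((Z1 y).2 hm)).trans
      (mul_le_mul_of_nonneg_left (ex cX cc2) (by positivity))
    refine (add_le_add h2 ((PE_ind_or hπ _ _).trans (add_le_add h4 h5))).trans (le_of_eq ?_)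
    ring
  · refine le_trans ?_ (Finset.sum_le_sum fun y _ => (S1 y).2)
    rw [← Finset.mul_sum, Finset.sum_sub_distrib]
    refine mul_le_mul_of_nonneg_left (sub_le_sub le_rfl ?_) (sub_nonneg.2 e1)
    have t0 : 0 < CZ' * a.card := mul_pos (CZ0.trans_le CZ1) a0
    have h1 : ∀ y, PE univ (fun b : Bit V => q b.2) (fun ω => ind (CZ' * a.card <
        ∑ b ∈ xw M.G (Q \ A) 1 y (c₁ * M.U) ω, M.pot a b)) ≤
        CZ * (M.l ^ 2 * M.Wp a y + a.card / M.l ^ 2) / (CZ' * a.card) := fun y =>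
      ((PE_ind_mono hπ fun ω h => le_of_lt h).trans (PE_markov hπ
        (fun ω => Finset.sum_nonneg fun b _ => M.pot_nonneg a b) t0)).trans
        (div_le_div_of_nonneg_right (Z1 y).1 t0.le)
    refine (Finset.sum_le_sum fun y _ => (PE_ind_or hπ _ _).trans
      (add_le_add (T1 y) (h1 y))).trans ?_
    rw [Finset.sum_add_distrib, ← Finset.sum_div, ← Finset.mul_sum _ _ CZ, Finset.sum_add_distrib,
      ← Finset.mul_sum _ _ (M.l ^ 2)]
    have h2 := TC.sum_le (f := fun _ => CT / M.l ^ 2 * Real.exp (-(cT * c₁ * M.N)))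
      (by positivity) hQ fun _ _ => le_rfl
    have h3 := TC.sum_le (f := fun _ => a.card / M.l ^ 2) (by positivity) hQ fun _ _ => le_rfl
    have h4 : ∑ y ∈ Q, M.Wp a y ≤ Λ * M.l ^ 2 * a.card :=
      (Finset.sum_le_sum_of_subset_of_nonneg hLB.1 fun y _ _ => M.Wp_nonneg a y).trans hK3
    have h5 : K.C * CT * Real.exp (-(cT * c₁ * M.N)) ≤ c₁ / 8 := by
      have d1 := (div_le_iff₀ (by positivity)).1 (l6.trans hN)
      have d2 := Real.add_one_le_exp (cT * c₁ * M.N)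
      rw [Real.exp_neg, ← div_eq_mul_inv, div_le_iff₀ (Real.exp_pos _)]
      have d3 := mul_le_mul_of_nonneg_left d2 c0.le
      linarith only [d1, d3, c0]
    have h6 : K.C * M.U * M.l ^ 2 * (CT / M.l ^ 2 * Real.exp (-(cT * c₁ * M.N))) ≤
        c₁ * M.U / 8 := by
      have := mul_le_mul_of_nonneg_left h5 Up.le
      refine le_trans (le_of_eq ?_) (this.trans (le_of_eq (by ring)))
      field_simp
    have h7 : CZ * (M.l ^ 2 * ∑ y ∈ Q, M.Wp a y + ∑ _y ∈ Q, a.card / M.l ^ 2) / (CZ' * a.card) ≤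
        c₁ * M.U / 8 := by
      rw [div_le_iff₀ t0]
      have d1 := mul_le_mul_of_nonneg_left h4 (sq_nonneg M.l)
      have d2 : K.C * M.U * M.l ^ 2 * (a.card / M.l ^ 2) = K.C * M.U * a.card := by field_simp
      have d3 := mul_le_mul_of_nonneg_left (k2.trans k1) (mul_pos Λ0 a0).le
      have d4 : c₁ * M.U / 8 * (CZ' * a.card) = CZ * ((Λ + K.C) * M.U * a.card) := by
        rw [hCZ']; field_simp
      rw [d4]
      exact mul_le_mul_of_nonneg_left (by linarith only [d1, d2, d3, h3]) CZ0.le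
    linarith only [h2, h6, h7]

end Pool.Agent.TPC
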