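import Pool.Agent.Lib.TPC.BlueC

/-! Block TEST: the test function of one block. -/

open Finset

set_option linter.unusedSectionVars false

namespace Pool.Agent.TPC

namespace Test

/-- the smallest value of `ψ` on the points with property `P`, cut from below at `fl` -/
noncomputable def cut {V : Type} [Fintype V] (fl : ℝ) (P : V → Prop) (ψ : V → ℝ) : ℝ := by
  classical
  exact if h : (flt univ P).Nonempty then max fl ((flt univ P).inf' h ψ) else fl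

section point

variable {V : Type} [Fintype V] {fl : ℝ} {P : V → Prop} {ψ : V → ℝ}

lemma le_cut : fl ≤ cut fl P ψ := by
  unfold cut
  split_ifs
  · exact le_max_left _ _
  · exact le_rfl

lemma ne_of {y : V} (hy : P y) : (flt univ P).Nonempty := ⟨y, mem_flt.2 ⟨mem_univ _, hy⟩⟩

lemma ex_le (h : ∃ y, P y) : ∃ y, P y ∧ ψ y ≤ cut fl P ψ := by
  obtain ⟨y, hy⟩ := h
  obtain ⟨z, hz, h2⟩ := Finset.exists_mem_eq_inf' (ne_of hy) ψ
  refine ⟨z, (mem_flt.1 hz).2, ?_⟩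
  unfold cut
  rw [dif_pos (ne_of hy), h2]
  exact le_max_right _ _

lemma cut_le {y : V} (hy : P y) : cut fl P ψ ≤ max fl (ψ y) := by
  unfold cut
  rw [dif_pos (ne_of hy)]
  exact max_le_max le_rfl (Finset.inf'_le _ (mem_flt.2 ⟨mem_univ _, hy⟩))

lemma cut_none (h : ¬ ∃ y, P y) : cut fl P ψ = fl := by
  unfold cut
  rw [dif_neg fun ⟨y, hy⟩ => h ⟨y, (mem_flt.1 hy).2⟩]

lemma cut_le_one (h1 : fl ≤ 1) (hψ : ∀ y, ψ y ≤ 1) : cut fl P ψ ≤ 1 := by
  by_cases h : ∃ y, P y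
  · obtain ⟨y, hy⟩ := h
    exact (cut_le hy).trans (max_le h1 (hψ y))
  · rwa [cut_none h]

lemma ptA {Q : Finset V} {u : ℝ} (h0 : 0 ≤ fl) (hψ : ∀ y, 0 ≤ ψ y)
    (hu : (∃ y, P y) → u ≤ ∑ y ∈ Q, ind (P y)) :
    u * (cut fl P ψ - fl) ≤ ∑ y ∈ Q, ind (P y) * ψ y := by
  by_cases h : ∃ y, P y
  · refine (mul_le_mul_of_nonneg_right (hu h) (sub_nonneg.2 le_cut)).trans ?_
    rw [Finset.sum_mul]
    refine Finset.sum_le_sum fun y _ => ?_
    by_cases hy : P y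
    · have h1 : cut fl P ψ ≤ fl + ψ y :=
        (cut_le hy).trans (max_le (by linarith [hψ y]) (by linarith))
      rw [ind_pos hy]
      linarith
    · rw [ind_neg hy, zero_mul, zero_mul]
  · rw [cut_none h, sub_self, mul_zero]
    exact Finset.sum_nonneg fun y _ => mul_nonneg (ind_nonneg _) (hψ y)

lemma ptB {Q : Finset V} {a T Z : ℝ} (ha0 : 0 ≤ a) (ha1 : a ≤ 1) (ha : a ≤ 1 - fl) (h0 : 0 ≤ fl)
    (hψ : ∀ y, 0 ≤ ψ y) (hψ1 : ∀ y, ψ y ≤ 1) (hT : 0 ≤ T) (hZ : ∑ y ∈ Q, ind (P y) ≤ Z) :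
    a * ∑ y ∈ Q, ind (P y) * (1 - ψ y) ≤ T * (1 - cut fl P ψ) + Q.card * ind (T < Z) := by
  have h1 : cut fl P ψ ≤ 1 := cut_le_one (by linarith) hψ1
  have h2 : 0 ≤ cut fl P ψ := h0.trans le_cut
  have h3 : a * ∑ y ∈ Q, ind (P y) * (1 - ψ y) ≤ (∑ y ∈ Q, ind (P y)) * (1 - cut fl P ψ) := by
    rw [Finset.mul_sum, Finset.sum_mul]
    refine Finset.sum_le_sum fun y _ => ?_
    by_cases hy : P y
    · rw [ind_pos hy, one_mul, one_mul]
      have h4 := hψ y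
      have h5 := hψ1 y
      rcases le_max_iff.1 (cut_le (fl := fl) (ψ := ψ) hy) with h | h <;> nlinarith
    · rw [ind_neg hy, zero_mul, zero_mul, mul_zero]
  refine h3.trans ?_
  by_cases h : T < Z
  · have h4 : ∑ y ∈ Q, ind (P y) ≤ Q.card := by
      rw [← card_flt]
      exact_mod_cast Finset.card_le_card (flt_subset _ _)
    have h5 : 0 ≤ ∑ y ∈ Q, ind (P y) := Finset.sum_nonneg fun _ _ => ind_nonneg _
    rw [ind_pos h]
    nlinarith
  · rw [ind_neg h, mul_zero, add_zero]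
    exact mul_le_mul_of_nonneg_right (hZ.trans (not_lt.1 h)) (by linarith)

lemma ptC {a : ℝ} (ha0 : 0 ≤ a) (ha : a ≤ 1 - fl) (hψ1 : ∀ y, ψ y ≤ 1) :
    a * ind (¬ ∃ y, P y) ≤ 1 - cut fl P ψ := by
  by_cases h : ∃ y, P y
  · rw [ind_neg (not_not.2 h), mul_zero]
    exact sub_nonneg.2 (cut_le_one (by linarith) hψ1)
  · rwa [ind_pos h, mul_one, cut_none h]

end point

lemma one_sub_exp {x b : ℝ} (h0 : 0 ≤ x) (hb : x ≤ b) : x / (1 + b) ≤ 1 - Real.exp (-x) := by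
  have h1 : Real.exp (-x) ≤ 1 / (1 + x) := by
    rw [Real.exp_neg, one_div]
    exact inv_anti₀ (by linarith) (by linarith [Real.add_one_le_exp x])
  have h2 : x / (1 + b) ≤ x / (1 + x) := by gcongr
  have h3 : x / (1 + x) = 1 - 1 / (1 + x) := by
    field_simp
    ring
  linarith

lemma tail {l N : ℝ} (h0 : 0 < l) (h : l ≤ N) : l ^ 6 * Real.exp (-N) ≤ 5040 / N := by
  have hN : 0 < N := h0.trans_le h
  have h1 := Real.pow_div_factorial_le_exp N hN.le 7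
  have h2 : ((7 : ℕ).factorial : ℝ) = 5040 := by norm_num [Nat.factorial]
  rw [h2, div_le_iff₀ (by norm_num)] at h1
  have h3 : l ^ 6 ≤ N ^ 6 := by gcongr
  rw [Real.exp_neg, ← div_eq_mul_inv, div_le_div_iff₀ (Real.exp_pos _) hN]
  nlinarith

variable {K : Kc} {V : Type} [Fintype V] [DecidableEq V]

lemma big_count (M : Core K V) {c₁ : ℝ} {Q A : Finset V} {ω : Finset (Bit V)}
    (h : ∃ y, M.big c₁ (Q \ A) ω y) : c₁ * M.U ≤ ∑ y ∈ Q, ind (M.big c₁ (Q \ A) ω y) := by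
  obtain ⟨y, hy⟩ := h
  rw [← card_flt]
  refine le_trans hy (Nat.cast_le.2 (Finset.card_le_card fun z hz => ?_))
  refine mem_flt.2 ⟨Finset.sdiff_subset (cl_subset hz), ?_⟩
  unfold Core.big Core.cv
  rw [cl_eq_of_conn (mem_cl.1 hz)]
  exact hy

lemma big_le (M : Core K V) {c₁ : ℝ} (hN : 1 ≤ c₁ * M.N) (Q A : Finset V) (ω : Finset (Bit V)) :
    ∑ y ∈ Q, ind (M.big c₁ (Q \ A) ω y) ≤
      (flt Q fun y => M.l ^ 4 ≤ ((M.cv univ 1 ω y).card : ℝ)).card := by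
  rw [card_flt]
  refine Finset.sum_le_sum fun y _ => ind_mono fun h => ?_
  have h1 : M.l ^ 4 ≤ c₁ * M.U := by
    rw [Core.U, ← mul_assoc]
    exact le_mul_of_one_le_left (pow_pos M.l_pos 4).le hN
  exact h1.trans (le_trans h (Nat.cast_le.2 (Finset.card_le_card
    (cl_mono (Finset.subset_univ _) subset_rfl))))

end Test

open Test in
theorem st_TEST (hTC : St_TC) : St_TEST := by
  intro K κ₁ c₁ hκ hc₁ hc1
  obtain ⟨η, hη, H⟩ := hTC K κ₁ c₁ hκ hc₁ hc1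
  refine ⟨η, hη, fun M₀ M₁ MH MY h0 h1 h2 hMY => ?_⟩
  obtain ⟨θ, c, C, l₀, hθ, -, hc, hC, H⟩ := H M₀ M₁ MH h0 h1 h2
  obtain ⟨d, hd, hdθ, hdc⟩ : ∃ d : ℝ, 0 < d ∧ d ≤ θ ∧ d ≤ c :=
    ⟨min θ c, lt_min hθ hc, min_le_left _ _, min_le_right _ _⟩
  obtain ⟨m₀, hm1, hm2⟩ : ∃ m₀ : ℝ, 1 ≤ m₀ ∧ C / c₁ ≤ d / 2 * m₀ := by
    refine ⟨1 + 2 * (C / c₁) / d, le_add_of_nonneg_right (by positivity), ?_⟩
    have : d / 2 * (1 + 2 * (C / c₁) / d) = d / 2 + C / c₁ := by field_simp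
    linarith
  obtain ⟨a₀, ha0, ha1, ha2⟩ : ∃ a₀ : ℝ, 0 < a₀ ∧ a₀ ≤ 1 ∧ a₀ ≤ 1 - Real.exp (-θ) :=
    ⟨1 - Real.exp (-θ), sub_pos.2 (Real.exp_lt_one_iff.2 (by linarith)),
      by linarith [Real.exp_pos (-θ)], le_rfl⟩
  obtain ⟨ε, hε, hε2⟩ : ∃ ε : ℝ, 0 < ε ∧ ε = a₀ * (c / (1 + c * m₀)) * c₁ / 8 :=
    ⟨_, by positivity, rfl⟩
  obtain ⟨c', hc', k1, k2, k3⟩ : ∃ c' : ℝ, 0 < c' ∧ c' ≤ d / 2 ∧ c' ≤ a₀ / (2 * m₀) ∧ c' ≤ ε / MY :=
    ⟨min (d / 2) (min (a₀ / (2 * m₀)) (ε / MY)), by positivity, min_le_left _ _,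
      (min_le_right _ _).trans (min_le_left _ _), (min_le_right _ _).trans (min_le_right _ _)⟩
  refine ⟨θ, c', m₀, max l₀ (max (1 / c₁) (5040 * K.C / ε)), hθ, hc', ?_⟩
  intro V _ _ M q hq hq2 hl hN U Q A a hU hLB hR haQ haH hcase
  rw [max_le_iff] at hl
  rw [max_le_iff, max_le_iff, div_le_iff₀ hc₁, div_le_iff₀ hε] at hN
  obtain ⟨Ha, Hb⟩ := H V M q hq hq2 hl.1 hN.1 U Q A a hU hLB hR haQ haH
  have hπ := hq.prob
  have hl4 : 0 < M.l ^ 4 := pow_pos M.l_pos 4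
  have hUp := M.U_pos
  obtain ⟨m, hm⟩ : ∃ m : ℝ, m = a.card / M.l ^ 4 := ⟨_, rfl⟩
  have hm0 : 0 ≤ m := by rw [hm]; positivity
  have e1 : ∀ x : ℝ, x * a.card / M.l ^ 4 = x * m := fun x => by rw [hm, mul_div_assoc]
  simp only [e1, ← hm] at Ha Hb ⊢
  obtain ⟨fl, hfl⟩ : ∃ fl : ℝ, fl = Real.exp (-(θ * max m 1)) := ⟨_, rfl⟩
  have f0 : 0 ≤ fl := by rw [hfl]; positivity
  have f1 : a₀ ≤ 1 - fl := by
    have : fl ≤ Real.exp (-θ) := by
      rw [hfl]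
      exact Real.exp_le_exp.2 (neg_le_neg (le_mul_of_one_le_right hθ.le (le_max_right _ _)))
    linarith
  obtain ⟨ψ, hψ⟩ : ∃ ψ : Finset (Bit V) → V → ℝ, ∀ ω y, ψ ω y =
    Real.exp (-(θ * ec M.G (A ∩ U) (M.cv (U \ A) 2 ω y) / M.l ^ 2)) := ⟨_, fun _ _ => rfl⟩
  have p0 : ∀ ω y, 0 ≤ ψ ω y := fun ω y => by rw [hψ]; positivity
  have p1 : ∀ ω y, ψ ω y ≤ 1 := fun ω y => by
    rw [hψ]
    have := ec_nonneg (G := M.G) (A ∩ U) (M.cv (U \ A) 2 ω y)
    exact Real.exp_le_one_iff.2 (neg_nonpos.2 (by positivity))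
  simp only [← hψ, ← hfl] at Ha Hb ⊢
  refine ⟨fun ω => cut fl (M.big c₁ (Q \ A) ω) (ψ ω), fun ω ω' h => ?_, ?_, fun ω => le_cut,
    fun ω h => ex_le h⟩
  · have g1 : M.big c₁ (Q \ A) ω = M.big c₁ (Q \ A) ω' := by
      funext y
      have := dep_cl_lev M.G (Q \ A) y 1 ω ω' fun e he => h e
        ⟨edges_mono (Finset.sdiff_subset_sdiff hLB.1 subset_rfl) he.1, he.2.trans (by decide)⟩
      simp only at this
      simp only [Core.big, Core.cv, this]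
    have g2 : ψ ω = ψ ω' := by
      funext y
      have := dep_cl_lev M.G (U \ A) y 2 ω ω' h
      simp only at this
      simp only [hψ, Core.cv, this]
    simp only [g1, g2]
  unfold PL at Ha Hb ⊢
  by_cases hA : m₀ * M.l ^ 4 ≤ a.card
  · have g1 : m₀ ≤ m := by rwa [hm, le_div_iff₀ hl4]
    have g2 := Ha (le_trans (le_mul_of_one_le_left hl4.le hm1) hA)
    have g3 := PE_mono (E := univ) hπ fun ω =>
      ptA (Q := Q) (P := M.big c₁ (Q \ A) ω) f0 (p0 ω) (big_count M)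
    rw [PE_mul_left, PE_sub, PE_const, PE_sum] at g3
    have g4 : fl ≤ Real.exp (-(d * m)) := by
      rw [hfl, max_eq_left (hm1.trans g1)]
      exact Real.exp_le_exp.2 (neg_le_neg (mul_le_mul_of_nonneg_right hdθ hm0))
    have g5 : Real.exp (-(c * m)) ≤ Real.exp (-(d * m)) :=
      Real.exp_le_exp.2 (neg_le_neg (mul_le_mul_of_nonneg_right hdc hm0))
    have g6 : c₁ * M.U * (PE univ (fun b : Bit V => q b.2)
        (fun ω => cut fl (M.big c₁ (Q \ A) ω) (ψ ω)) - fl) ≤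
        c₁ * M.U * (C / c₁ * Real.exp (-(d * m))) := by
      refine (g3.trans g2).trans ?_
      have : c₁ * M.U * (C / c₁ * Real.exp (-(d * m))) = C * M.U * Real.exp (-(d * m)) := by
        field_simp
      rw [this]
      gcongr
    have g7 := le_of_mul_le_mul_left g6 (mul_pos hc₁ hUp)
    have g8 : 1 + C / c₁ ≤ Real.exp (d / 2 * m) := by
      have := Real.add_one_le_exp (d / 2 * m)
      have g9 : d / 2 * m₀ ≤ d / 2 * m := by gcongr
      linarith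
    calc _ ≤ (1 + C / c₁) * Real.exp (-(d * m)) := by linarith
      _ ≤ Real.exp (d / 2 * m) * Real.exp (-(d * m)) := by gcongr
      _ = Real.exp (-(d / 2 * m)) := by rw [← Real.exp_add]; congr 1; ring
      _ ≤ _ := Real.exp_le_exp.2 (neg_le_neg (mul_le_mul_of_nonneg_right k1 hm0))
  obtain ⟨y1, y2⟩ := hcase.resolve_left hA
  have g1 : m ≤ m₀ := by
    rw [hm, div_le_iff₀ hl4]
    exact (not_le.1 hA).le
  suffices h : c' * m ≤ 1 - PE univ (fun b : Bit V => q b.2)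
      (fun ω => cut fl (M.big c₁ (Q \ A) ω) (ψ ω)) by
    linarith [Real.add_one_le_exp (-(c' * m))]
  rcases a.eq_empty_or_nonempty with ha | ha
  · have g2 : m = 0 := by rw [hm, ha]; simp
    have g3 := PE_le_const (E := univ) hπ fun ω =>
      cut_le_one (P := M.big c₁ (Q \ A) ω) (by linarith : fl ≤ 1) (p1 ω)
    rw [g2, mul_zero]
    linarith
  have g2 : 1 ≤ m * M.l ^ 4 := by
    rw [hm, div_mul_cancel₀ _ hl4.ne']
    exact_mod_cast ha.card_pos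
  by_cases hB : PE univ (fun b : Bit V => q b.2) (fun ω => ind (∃ y, M.big c₁ (Q \ A) ω y)) ≤ 1 / 2
  · have g3 := PE_mono (E := univ) hπ fun ω =>
      ptC (P := M.big c₁ (Q \ A) ω) ha0.le f1 (p1 ω)
    rw [PE_mul_left, PE_sub, PE_const, PE_ind_not] at g3
    have g4 : c' * m ≤ a₀ / (2 * m₀) * m₀ := by gcongr
    have g5 : a₀ / (2 * m₀) * m₀ = a₀ / 2 := by field_simp
    nlinarith
  have g3 := PE_mono (E := univ) hπ (f := fun ω => c₁ * M.U * ind (∃ y, M.big c₁ (Q \ A) ω y))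
    (g := fun ω => ∑ y ∈ Q, ind (M.big c₁ (Q \ A) ω y)) fun ω => by
      rw [mul_comm]
      exact ind_mul_le (Finset.sum_nonneg fun _ _ => ind_nonneg _) (big_count M)
  rw [PE_mul_left, PE_sum] at g3
  have g4 : c₁ * M.U / 4 ≤ ∑ y ∈ Q, PE univ (fun b : Bit V => q b.2)
      (fun ω => ind (M.big c₁ (Q \ A) ω y)) - c₁ * M.U / 4 := by
    have := mul_le_mul_of_nonneg_left (not_le.1 hB).le (mul_pos hc₁ hUp).le
    linarith
  have g5 : c * m / (1 + c * m₀) ≤ 1 - Real.exp (-(c * m)) :=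
    one_sub_exp (by positivity) (by gcongr)
  have g6 := (mul_le_mul g5 g4 (by positivity) (le_trans (by positivity) g5)).trans Hb
  have g7 := PE_mono (E := univ) hπ fun ω =>
    ptB (Q := Q) (P := M.big c₁ (Q \ A) ω) ha0.le ha1 f1 f0 (p0 ω) (p1 ω) (mul_pos hMY hUp).le
      (big_le M (by linarith [hN.2.1]) Q A ω)
  rw [PE_mul_left, PE_sum, PE_add, PE_mul_left, PE_mul_left, PE_sub, PE_const] at g7
  have g8 : (Q.card : ℝ) ≤ K.C * (M.U * M.l ^ 2) := by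
    rw [← M.Vol_eq]
    exact le_trans (Nat.cast_le.2 (Finset.card_le_card hLB.1)) hU.card
  have hKC : 0 < K.C := by linarith [K.hC]
  have g9 : K.C * (M.l ^ 6 * Real.exp (-M.N)) ≤ ε := by
    refine (mul_le_mul_of_nonneg_left (tail M.l_pos y1) hKC.le).trans ?_
    rw [← mul_div_assoc, div_le_iff₀ M.N_pos]
    linarith [hN.2.2]
  have g10 : (Q.card : ℝ) * Real.exp (-M.N) ≤ ε * m * M.U := by
    calc (Q.card : ℝ) * Real.exp (-M.N) ≤ K.C * (M.U * M.l ^ 2) * Real.exp (-M.N) * 1 := by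
          rw [mul_one]; gcongr
      _ ≤ K.C * (M.U * M.l ^ 2) * Real.exp (-M.N) * (m * M.l ^ 4) := by gcongr
      _ = K.C * (M.l ^ 6 * Real.exp (-M.N)) * (m * M.U) := by ring
      _ ≤ ε * (m * M.U) := by gcongr
      _ = _ := by ring
  have g11 := (mul_le_mul_of_nonneg_left y2 (Nat.cast_nonneg Q.card)).trans g10
  have g12 : a₀ * (c * m / (1 + c * m₀) * (c₁ * M.U / 4)) = 2 * (ε * m * M.U) := by
    rw [hε2]
    ring
  have g13 := mul_le_mul_of_nonneg_left g6 ha0.le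
  unfold PL at g11
  have g14 : MY * M.U * (ε / MY * m) = ε * m * M.U := by field_simp
  have g15 := le_of_mul_le_mul_left (a := MY * M.U) (b := ε / MY * m)
    (c := 1 - PE univ (fun b : Bit V => q b.2) fun ω => cut fl (M.big c₁ (Q \ A) ω) (ψ ω))
    (by linarith) (mul_pos hMY hUp)
  exact (mul_le_mul_of_nonneg_right k3 hm0).trans g15

end Pool.Agent.TPC
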