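import Pool.Agent.Lib.TPC.BlueZ

/-! Block TG0: periodisation of the subcritical kernel. -/

open Finset

namespace Pool.Agent.TPC

namespace TG0

lemma pow_eq {d : ℕ} {t : ℝ} (ht : 0 < t) : t ^ (-((d : ℝ) - 2)) = t ^ 2 / t ^ d := by
  rw [neg_sub, Real.rpow_sub ht, Real.rpow_natCast, Real.rpow_two]

lemma term {d n : ℕ} {c l : ℝ} (hd : 3 ≤ d) (hc : 0 < c) (hn : (1 : ℝ) ≤ n) (hl : 1 ≤ l)
    (x y0 k : Zd d) (h0 : zd x y0 ≤ (n : ℝ) / 2) (h1 : (n : ℝ) / 2 ≤ zd x (y0 + (n : ℤ) • k)) :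
    ge c l x (y0 + (n : ℤ) • k) ≤ (4 : ℝ) ^ ((d : ℝ) - 2) * ((n : ℝ) ^ 2 / (n : ℝ) ^ d) *
      (kk (d - 2) (zd 0 k) * Real.exp (-(c / 4 * zd 0 k / max 1 (l / n)))) := by
  have ha : (0 : ℝ) ≤ (d : ℝ) - 2 := by
    have : (3 : ℝ) ≤ d := by exact_mod_cast hd
    linarith
  have hn0 : (0 : ℝ) < n := by linarith
  have hk := zd_nonneg (0 : Zd d) k
  have e : zd y0 (y0 + (n : ℤ) • k) = n * zd 0 k := by
    rw [zd_eq_sub, add_sub_cancel_left, zd_zero_left, zd_zero_left, norm_smul]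
    simp
  have t := zd_tri y0 x (y0 + (n : ℤ) • k)
  rw [e, zd_comm y0 x] at t
  unfold ge
  generalize zd x (y0 + (n : ℤ) • k) = r at h1 t ⊢
  generalize zd (0 : Zd d) k = s at hk t ⊢
  have hr : n * (1 + s) / 4 ≤ r := by linarith
  have hp : 0 < n * (1 + s) / 4 := by positivity
  have b1 : kk (d - 2) r ≤ (4 : ℝ) ^ ((d : ℝ) - 2) * ((n : ℝ) ^ 2 / (n : ℝ) ^ d) *
      kk (d - 2) s := by
    refine ((kk_anti ha hp.le hr).trans (kk_le_rpow ha hp)).trans (le_of_eq ?_)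
    rw [Real.div_rpow (by positivity) (by norm_num), Real.mul_rpow hn0.le (by linarith),
      pow_eq hn0, Real.rpow_neg (by norm_num : (0 : ℝ) ≤ 4), kk, div_inv_eq_mul]
    ring
  have b2 : Real.exp (-(c * r / l)) ≤ Real.exp (-(c / 4 * s / max 1 (l / n))) := by
    refine Real.exp_le_exp.2 (neg_le_neg ?_)
    have h2 : c / 4 * s / max 1 (l / n) ≤ c / 4 * s / (l / n) :=
      div_le_div_of_nonneg_left (by positivity) (by positivity) (le_max_right _ _)
    refine h2.trans ?_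
    rw [div_div_eq_mul_div]
    refine div_le_div_of_nonneg_right ?_ (by linarith)
    have : n * s / 4 ≤ r := by linarith
    nlinarith
  rw [← mul_assoc]
  exact mul_le_mul b1 b2 (Real.exp_pos _).le (mul_nonneg (by positivity) (kk_nonneg _ hk))

end TG0

open TG0 in
theorem st_TG0 (hS4 : St_S4) : St_TG0 := by
  intro d c hd hc
  have hd' : (3 : ℝ) ≤ d := by exact_mod_cast hd
  have ha : (0 : ℝ) ≤ (d : ℝ) - 2 := by linarith
  obtain ⟨C, hC, H⟩ := hS4 d ((d : ℝ) - 2) (c / 4) ha (by linarith) (by positivity)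
  set A : ℝ := (4 : ℝ) ^ ((d : ℝ) - 2) * C with hA
  set B : ℝ := (2 : ℝ) ^ ((d : ℝ) - 2) with hB
  have hA0 : 0 < A := by positivity
  have hB0 : 0 < B := by positivity
  refine ⟨1 + A + A * B, by positivity, fun n _ l hl x y => ?_⟩
  have hn : (1 : ℝ) ≤ n := by exact_mod_cast Nat.one_le_iff_ne_zero.2 (NeZero.ne n)
  have hn0 : (0 : ℝ) < n := by linarith
  have far : ∀ S : Finset (Zd d), (∀ v ∈ S, proj n v = y) → (∀ v ∈ S, (n : ℝ) / 2 ≤ zd x v) →
      ∑ v ∈ S, ge c l x v ≤ A * ((l ^ 2 + n ^ 2) / (n : ℝ) ^ d) := by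
    intro S hS hf
    obtain ⟨y0, hy0, e0⟩ := exists_lift x y
    have h0 : zd x y0 ≤ (n : ℝ) / 2 := e0 ▸ td_le_half _ _
    have hk : ∀ v : Zd d, ∃ k : Zd d, v ∈ S → v = y0 + (n : ℤ) • k := by
      intro v
      by_cases hv : v ∈ S
      · obtain ⟨k, hk⟩ := proj_eq_iff'.1 (hy0.trans (hS v hv).symm)
        exact ⟨k, fun _ => hk⟩
      · exact ⟨0, fun h => absurd h hv⟩
    choose kf hkf using hk
    have inj : Set.InjOn kf S := fun v hv w hw e => by rw [hkf v hv, hkf w hw, e]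
    have h1 := H (Zd d) zd (met_zd d) 0 (S.image kf) (max 1 (l / n)) 0 (le_max_left _ _) le_rfl
      fun k _ => zd_nonneg _ _
    rw [sum_image inj, mul_zero, zero_div, neg_zero, Real.exp_zero, mul_one, sub_sub_cancel,
      Real.rpow_two] at h1
    have h2 : ∑ v ∈ S, ge c l x v ≤ ∑ v ∈ S, (4 : ℝ) ^ ((d : ℝ) - 2) *
        ((n : ℝ) ^ 2 / (n : ℝ) ^ d) *
        (kk (d - 2) (zd 0 (kf v)) * Real.exp (-(c / 4 * zd 0 (kf v) / max 1 (l / n)))) := by
      refine sum_le_sum fun v hv => ?_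
      have := term hd hc hn hl x y0 (kf v) h0 (by rw [← hkf v hv]; exact hf v hv)
      rwa [← hkf v hv] at this
    rw [← mul_sum] at h2
    have h3 : (max 1 (l / n)) ^ 2 ≤ (l ^ 2 + n ^ 2) / (n : ℝ) ^ 2 := by
      rw [add_div, div_self (by positivity), ← div_pow]
      rcases max_cases 1 (l / n) with h | h
      · rw [h.1]
        nlinarith [sq_nonneg (l / n)]
      · rw [h.1]
        linarith
    refine h2.trans ((mul_le_mul_of_nonneg_left (h1.trans (mul_le_mul_of_nonneg_left h3 hC.le))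
      (by positivity)).trans (le_of_eq ?_))
    rw [hA]
    field_simp
  intro S hS
  have hq : 0 ≤ (l ^ 2 + n ^ 2) / (n : ℝ) ^ d := by positivity
  refine ⟨?_, fun hf => (far S hS hf).trans (mul_le_mul_of_nonneg_right (by nlinarith) hq)⟩
  classical
  have ht := td_nonneg (proj n x) y
  have hk0 := kk_nonneg ((d : ℝ) - 2) ht
  rw [← sum_filter_add_sum_filter_not S fun v => (n : ℝ) / 2 ≤ zd x v]
  have p1 := far (S.filter fun v => (n : ℝ) / 2 ≤ zd x v) (fun v hv => hS v (mem_filter.1 hv).1)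
    fun v hv => (mem_filter.1 hv).2
  have p2 : ∑ v ∈ S.filter fun v => ¬ (n : ℝ) / 2 ≤ zd x v, ge c l x v ≤
      kk (d - 2) (td (proj n x) y) := by
    have c1 : (S.filter fun v => ¬ (n : ℝ) / 2 ≤ zd x v).card ≤ 1 := by
      refine card_le_one.2 fun v hv w hw => ?_
      obtain ⟨v1, v2⟩ := mem_filter.1 hv
      obtain ⟨w1, w2⟩ := mem_filter.1 hw
      refine proj_inj (n := n) ?_ ((hS v v1).trans (hS w w1).symm)
      have := zd_tri v x w
      rw [zd_comm v x] at this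
      linarith [not_le.1 v2, not_le.1 w2]
    have c2 := sum_le_card_nsmul (S.filter fun v => ¬ (n : ℝ) / 2 ≤ zd x v) (ge c l x)
      (kk (d - 2) (td (proj n x) y)) fun v hv => by
        have h1 : td (proj n x) y ≤ zd x v := by
          rw [← hS v (mem_filter.1 hv).1]
          exact td_proj_le x v
        have h2 : Real.exp (-(c * zd x v / l)) ≤ 1 := by
          have := zd_nonneg x v
          exact Real.exp_le_one_iff.2 (neg_nonpos.2 (by positivity))
        exact (mul_le_of_le_one_right (kk_nonneg _ (zd_nonneg x v)) h2).trans (kk_anti ha ht h1)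
    rw [nsmul_eq_mul] at c2
    exact c2.trans (mul_le_of_le_one_left hk0 (by exact_mod_cast c1))
  have p3 : (n : ℝ) ^ 2 / (n : ℝ) ^ d ≤ B * kk (d - 2) (td (proj n x) y) := by
    rw [← pow_eq hn0]
    refine (rpow_le_kk ha hn).trans (mul_le_mul_of_nonneg_left (kk_anti ha ht ?_) hB0.le)
    linarith [td_le_half (proj n x) y]
  have hl2 : 0 ≤ l ^ 2 / (n : ℝ) ^ d := by positivity
  rw [add_div] at p1
  unfold tg
  have p4 := mul_le_mul_of_nonneg_left p3 hA0.le
  nlinarith [mul_nonneg hA0.le hk0, mul_nonneg (mul_nonneg hA0.le hB0.le) hl2]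

end Pool.Agent.TPC
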