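import Pool.Agent.Lib.TPC.BlueG
import Pool.Agent.Lib.TPC.ZBasic

/-! Pointwise properties of the torus kernel. -/

open Finset

set_option linter.unusedSectionVars false

namespace Pool.Agent.TPC

open Pool.Agent.Lib.MP_81a99a_pr (lattice torus)

namespace TK1

variable {d n : ℕ} [NeZero n]

lemma f_nonneg (d n : ℕ) (l : ℝ) : 0 ≤ l ^ 2 / (n : ℝ) ^ d := by positivity

lemma tg_nonneg (l : ℝ) (x y : Tor d n) : 0 ≤ tg l x y :=
  add_nonneg (kk_nonneg _ (td_nonneg _ _)) (f_nonneg d n l)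

lemma one_le_two_rpow (hd : 7 ≤ d) : (1 : ℝ) ≤ 2 ^ ((d : ℝ) - 2) := by
  have h : (7 : ℝ) ≤ d := by exact_mod_cast hd
  exact Real.one_le_rpow (by norm_num) (by linarith)

lemma tg_le (hd : 7 ≤ d) (l : ℝ) {x y x' y' : Tor d n} (h : td x y ≤ 1 + 2 * td x' y') :
    tg l x' y' ≤ 2 ^ ((d : ℝ) - 2) * tg l x y := by
  have h7 : (7 : ℝ) ≤ d := by exact_mod_cast hd
  have h1 := kk_le_mul (a := (d : ℝ) - 2) (K := 2) (by linarith) (td_nonneg x y) (td_nonneg x' y') (by linarith)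
  have h2 := le_mul_of_one_le_left (f_nonneg d n l) (one_le_two_rpow hd)
  unfold tg
  rw [mul_add]
  exact add_le_add h1 h2

/-- total mass of a kernel on the torus -/
lemma mass (h12 : St_S12) (d j : ℕ) (h0 : 1 ≤ j) (hj : j ≤ d) : ∃ C : ℝ, 0 < C ∧ ∀ (n : ℕ) [NeZero n] (v : Tor d n),
    ∑ y, kk ((d : ℝ) - j) (td v y) ≤ C * (n : ℝ) ^ j := by
  have h1 : (1 : ℝ) ≤ j := by exact_mod_cast h0
  have h2 : (j : ℝ) ≤ d := by exact_mod_cast hj
  obtain ⟨C, hC, H⟩ := h12 d (d - j) (by linarith) (by linarith)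
  refine ⟨C * 2 ^ j, by positivity, fun n _ v => ?_⟩
  have hn : (1 : ℝ) ≤ n := by exact_mod_cast NeZero.one_le
  have h3 := (H _ td (met_td d n) v univ (n / 2) (by positivity)).1 (by linarith) fun y _ => td_le_half v y
  have e : (d : ℝ) - j - d = -(j : ℝ) := by ring
  rw [e, kk_neg_nat] at h3
  refine h3.trans ?_
  rw [mul_assoc, ← mul_pow]
  gcongr
  linarith

/-- the three size conditions -/
lemma sizes (hd : 7 ≤ d) {C₀ l : ℝ} (hl : 1 ≤ l)
    (h : ((n : ℝ) ≤ C₀ * l ∧ l ^ 6 ≤ (n : ℝ) ^ d) ∨ l ≤ n) :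
    l ^ 6 ≤ (n : ℝ) ^ d ∧ l ^ 2 * (n : ℝ) ^ 4 ≤ max 1 C₀ ^ 4 * (n : ℝ) ^ d ∧
      l ^ 4 * (n : ℝ) ^ 2 ≤ max 1 C₀ ^ 4 * (n : ℝ) ^ d := by
  have hn : (1 : ℝ) ≤ n := by exact_mod_cast NeZero.one_le
  have hc : (1 : ℝ) ≤ max 1 C₀ := le_max_left _ _
  have hl0 : 0 ≤ l := by linarith
  set c := max 1 C₀
  rcases h with ⟨h1, h2⟩ | h1
  · have h3 : (n : ℝ) ≤ c * l := h1.trans (mul_le_mul_of_nonneg_right (le_max_right _ _) hl0)
    refine ⟨h2, ?_, ?_⟩
    · calc l ^ 2 * (n : ℝ) ^ 4 ≤ l ^ 2 * (c * l) ^ 4 := by gcongr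
        _ = c ^ 4 * l ^ 6 := by ring
        _ ≤ _ := by gcongr
    · calc l ^ 4 * (n : ℝ) ^ 2 ≤ l ^ 4 * (c * l) ^ 2 := by gcongr
        _ = c ^ 2 * l ^ 6 := by ring
        _ ≤ _ := mul_le_mul (pow_le_pow_right₀ hc (by norm_num)) h2 (by positivity) (by positivity)
  · have h2 : (n : ℝ) ^ 6 ≤ (n : ℝ) ^ d := pow_le_pow_right₀ hn (by omega)
    have h3 : (n : ℝ) ^ d ≤ c ^ 4 * (n : ℝ) ^ d := le_mul_of_one_le_left (by positivity) (one_le_pow₀ hc)
    refine ⟨(pow_le_pow_left₀ hl0 h1 6).trans h2, le_trans ?_ (h2.trans h3), le_trans ?_ (h2.trans h3)⟩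
    · calc l ^ 2 * (n : ℝ) ^ 4 ≤ (n : ℝ) ^ 2 * (n : ℝ) ^ 4 := by gcongr
        _ = _ := by ring
    · calc l ^ 4 * (n : ℝ) ^ 2 ≤ (n : ℝ) ^ 4 * (n : ℝ) ^ 2 := by gcongr
        _ = _ := by ring

/-- the triangle diagram -/
lemma tri (h12 : St_S12) (h3 : St_S3) (hd : 7 ≤ d) (c : ℝ) : ∃ T : ℝ, 0 ≤ T ∧ ∀ (n : ℕ) [NeZero n] (f : ℝ), 0 ≤ f →
    f * (n : ℝ) ^ 4 ≤ c → f ^ 2 * (n : ℝ) ^ d * (n : ℝ) ^ 2 ≤ c → f ^ 3 * ((n : ℝ) ^ d) ^ 2 ≤ 1 → ∀ v : Tor d n,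
    ∑ y, ∑ u, (kk (d - 2) (td v y) + f) * (kk (d - 2) (td v u) + f) * (kk (d - 2) (td y u) + f) ≤ T := by
  have h7 : (7 : ℝ) ≤ d := by exact_mod_cast hd
  obtain ⟨C2, p2, H2⟩ := mass h12 d 2 (by norm_num) (by omega)
  obtain ⟨C4, p4, H4⟩ := mass h12 d 4 (by norm_num) (by omega)
  obtain ⟨C3, p3, H3⟩ := h3 d (d - 2) (d - 2) (by linarith) (by linarith) (by linarith) (by linarith)
  obtain ⟨C1, p1, H1⟩ := h12 d (d - 2 + (d - 4)) (by linarith) (by linarith)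
  push_cast at H2 H4
  refine ⟨C3 * C1 + (2 * C2 ^ 2 + C3 * C4 + 3 * C2) * |c| + 1, by positivity, fun n _ f f0 q1 q2 q3 v => ?_⟩
  set V : ℝ := (n : ℝ) ^ d with hV
  have hcard : (Fintype.card (Tor d n) : ℝ) = V := by rw [card_Tor, hV, Nat.cast_pow]
  set W : ℝ := 2 * f * (C2 * (n : ℝ) ^ 2) + f ^ 2 * V with hW
  have W0 : 0 ≤ W := by positivity
  have e4 : min ((d : ℝ) - 2) (d - 2 + (d - 2) - d) = d - 4 := by
    rw [min_eq_right (by linarith)]; ring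
  have inner : ∀ y : Tor d n, ∑ u, (kk (d - 2) (td v u) + f) * (kk (d - 2) (td y u) + f) ≤
      C3 * kk (d - 4) (td v y) + W := by
    intro y
    have a1 := H3 _ td (met_td d n) v y univ
    rw [e4] at a1
    have a2 := mul_le_mul_of_nonneg_left (H2 n v) f0
    have a3 := mul_le_mul_of_nonneg_left (H2 n y) f0
    have e : ∑ u, (kk (d - 2) (td v u) + f) * (kk (d - 2) (td y u) + f) =
        ∑ u, kk (d - 2) (td v u) * kk (d - 2) (td u y) + f * ∑ u, kk (d - 2) (td v u) +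
          f * ∑ u, kk (d - 2) (td y u) + f ^ 2 * V := by
      rw [← hcard, ← card_univ, mul_comm (f ^ 2), ← nsmul_eq_mul, ← sum_const, mul_sum, mul_sum,
        ← sum_add_distrib, ← sum_add_distrib, ← sum_add_distrib]
      refine sum_congr rfl fun u _ => ?_
      rw [td_comm u y]
      ring
    rw [e, hW]
    linarith
  have outer : ∑ y, ∑ u, (kk (d - 2) (td v y) + f) * (kk (d - 2) (td v u) + f) * (kk (d - 2) (td y u) + f) ≤
      ∑ y, (kk (d - 2) (td v y) + f) * (C3 * kk (d - 4) (td v y) + W) := by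
    refine sum_le_sum fun y _ => ?_
    simp only [mul_assoc (kk (d - 2) (td v y) + f)]
    rw [← mul_sum]
    exact mul_le_mul_of_nonneg_left (inner y) (add_nonneg (kk_nonneg _ (td_nonneg _ _)) f0)
  have e : ∑ y, (kk (d - 2) (td v y) + f) * (C3 * kk (d - 4) (td v y) + W) =
      C3 * ∑ y, kk (d - 2 + (d - 4)) (td v y) + W * ∑ y, kk (d - 2) (td v y) +
        f * C3 * ∑ y, kk (d - 4) (td v y) + f * W * V := by
    rw [← hcard, ← card_univ, mul_comm (f * W), ← nsmul_eq_mul, ← sum_const, mul_sum, mul_sum, mul_sum,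
      ← sum_add_distrib, ← sum_add_distrib, ← sum_add_distrib]
    refine sum_congr rfl fun y _ => ?_
    rw [← kk_mul _ _ (td_nonneg v y)]
    ring
  have b1 := (H1 _ td (met_td d n) v univ 0 le_rfl).2 (by linarith) fun y _ => td_nonneg v y
  rw [kk_zero, mul_one] at b1
  have b1' := mul_le_mul_of_nonneg_left b1 p3.le
  have b2 := mul_le_mul_of_nonneg_left (H2 n v) W0
  have b4 := mul_le_mul_of_nonneg_left (H4 n v) (mul_nonneg f0 p3.le)
  have r1 := mul_le_mul_of_nonneg_left (q1.trans (le_abs_self c)) (by positivity : 0 ≤ 2 * C2 ^ 2 + C3 * C4)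
  have r2 := mul_le_mul_of_nonneg_left (q2.trans (le_abs_self c)) (by positivity : 0 ≤ 3 * C2)
  have e2 : W * (C2 * (n : ℝ) ^ 2) + f * C3 * (C4 * (n : ℝ) ^ 4) + f * W * V =
      (2 * C2 ^ 2 + C3 * C4) * (f * (n : ℝ) ^ 4) + 3 * C2 * (f ^ 2 * V * (n : ℝ) ^ 2) + f ^ 3 * V ^ 2 := by
    rw [hW]; ring
  rw [e] at outer
  linarith

end TK1

open TK1 in
theorem st_TK1 (h12 : St_S12) (h3 : St_S3) : St_TK1 := by
  intro d hd C₀
  have h7 : (7 : ℝ) ≤ d := by exact_mod_cast hd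
  obtain ⟨T, T0, HT⟩ := tri h12 h3 hd (max 1 C₀ ^ 4)
  have k1 := one_le_two_rpow hd
  set K : ℝ := 2 ^ ((d : ℝ) - 2) with hK
  refine ⟨2 + K + T, by linarith, fun n _ l hl h => ?_⟩
  obtain ⟨s1, s2, s3⟩ := sizes hd hl h
  have hn : (0 : ℝ) < n := by exact_mod_cast NeZero.pos n
  have hV : (0 : ℝ) < (n : ℝ) ^ d := by positivity
  have up : ∀ a b : ℝ, 0 ≤ b → a ≤ K * b → a ≤ (2 + K + T) * b := fun a b hb H =>
    H.trans (mul_le_mul_of_nonneg_right (by linarith) hb)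
  refine ⟨fun x y => ?_, fun x x' y ha => up _ _ (tg_nonneg _ _ _) (tg_le hd l ?_), fun v u a => ?_,
    fun A M hM H u => up _ _ hM ?_, fun v => ?_⟩
  · have a1 : kk ((d : ℝ) - 2) (td x y) ≤ 1 := kk_le_one (by linarith) (td_nonneg x y)
    have a2 : l ^ 2 / (n : ℝ) ^ d ≤ 1 :=
      (div_le_one hV).2 ((pow_le_pow_right₀ hl (by norm_num)).trans s1)
    unfold tg
    linarith
  · linarith [td_tri x x' y, td_adj ha, td_nonneg x' y]
  · rw [mul_assoc]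
    have g1 := tg_nonneg l v u
    have g2 := tg_nonneg l u a
    have g3 := tg_nonneg l v a
    refine up _ _ (by positivity) ?_
    have k0 : 0 ≤ K := by linarith
    rcases le_total (td v u) (td u a) with b | b
    · have a1 : tg l u a ≤ K * tg l v a := tg_le hd l (by linarith [td_tri v u a])
      have a2 := mul_le_mul_of_nonneg_left a1 g1
      have a3 : 0 ≤ K * (tg l v a * tg l u a) := by positivity
      linarith
    · have a1 : tg l v u ≤ K * tg l v a := tg_le hd l (by linarith [td_tri v u a])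
      have a2 := mul_le_mul_of_nonneg_right a1 g2
      have a3 : 0 ≤ K * (tg l v a * tg l v u) := by positivity
      linarith
  · rcases A.eq_empty_or_nonempty with rfl | hA
    · rw [sum_empty]; positivity
    obtain ⟨a, ha, hm⟩ := exists_min_image A (td u) hA
    refine le_trans (sum_le_sum fun b hb => tg_le hd l (x := a) (y := b) ?_) ?_
    · linarith [td_tri a u b, td_comm a u, hm b hb]
    · rw [← mul_sum]
      exact mul_le_mul_of_nonneg_left (H a ha) (by linarith)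
  · refine (HT n (l ^ 2 / (n : ℝ) ^ d) (f_nonneg d n l) ?_ ?_ ?_ v).trans (by linarith)
    · rw [div_mul_eq_mul_div, div_le_iff₀ hV]; exact s2
    · have e : (l ^ 2 / (n : ℝ) ^ d) ^ 2 * (n : ℝ) ^ d * (n : ℝ) ^ 2 = l ^ 4 * (n : ℝ) ^ 2 / (n : ℝ) ^ d := by
        field_simp
      rw [e, div_le_iff₀ hV]; exact s3
    · have e : (l ^ 2 / (n : ℝ) ^ d) ^ 3 * ((n : ℝ) ^ d) ^ 2 = l ^ 6 / (n : ℝ) ^ d := by
        field_simp
      rw [e, div_le_one hV]; exact s1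

end Pool.Agent.TPC
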