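import Pool.Agent.Lib.TPC.BlueG
import Pool.Agent.Lib.TPC.ZBasic

/-! Near-far bounds for the torus kernel on a small region. -/

open Finset

namespace Pool.Agent.TPC.TK2

variable {d : ℕ}

lemma kk_eq (hd : 2 ≤ d) {r : ℝ} (hr : 0 ≤ r) : kk ((d : ℝ) - 2) r = 1 / (1 + r) ^ (d - 2) := by
  rw [← kk_nat _ hr, Nat.cast_sub hd]; simp

lemma far (hd : 2 ≤ d) {r R : ℝ} (hr : 0 ≤ r) (hR : 0 < R) (h : R ≤ 1 + r) :
    kk ((d : ℝ) - 2) r ≤ 1 / R ^ (d - 2) := by
  rw [kk_eq hd hr]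
  gcongr

/-- ball sums of the kernel -/
def Ball (d : ℕ) {X : Type} (m : X → X → ℝ) (C : ℝ) : Prop :=
  ∀ (x : X) (S : Finset X) (R : ℝ), (∀ y ∈ S, 1 + m x y ≤ R) →
    ∑ y ∈ S, kk ((d : ℝ) - 2) (m x y) ≤ C * R ^ 2

lemma exists_ball (h12 : St_S12) (hd : 2 ≤ d) : ∃ C : ℝ, 0 < C ∧
    ∀ (X : Type) (m : X → X → ℝ), Met d m → Ball d m C := by
  have h2 : (2 : ℝ) ≤ d := by exact_mod_cast hd
  obtain ⟨C, hC, h⟩ := h12 d ((d : ℝ) - 2) (by linarith) (by linarith)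
  refine ⟨C, hC, fun X m hm x S R hS => ?_⟩
  rcases S.eq_empty_or_nonempty with rfl | ⟨y, hy⟩
  · rw [sum_empty]; positivity
  · have h0 : 0 ≤ R - 1 := by linarith [hS y hy, hm.nonneg x y]
    have := (h X m hm x S (R - 1) h0).1 (by linarith) fun y hy => by linarith [hS y hy]
    rwa [show (d : ℝ) - 2 - d = -2 by ring, kk_neg_two, show 1 + (R - 1) = R by ring] at this

section

variable {X : Type} {m : X → X → ℝ} {C : ℝ}

lemma near (hb : Ball d m C) (x : X) (S : Finset X) (R : ℝ) :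
    ∑ y ∈ S, (if 1 + m x y ≤ R then kk ((d : ℝ) - 2) (m x y) else 0) ≤ C * R ^ 2 := by
  rw [← sum_filter]
  exact hb x _ R fun y hy => (mem_filter.1 hy).2

lemma split (hd : 2 ≤ d) (hm : Met d m) (hb : Ball d m C) (x : X) (S : Finset X) {R : ℝ}
    (hR : 0 < R) : ∑ y ∈ S, kk ((d : ℝ) - 2) (m x y) ≤ C * R ^ 2 + 1 / R ^ (d - 2) * S.card := by
  have h1 : ∀ y ∈ S, kk ((d : ℝ) - 2) (m x y) ≤
      (if 1 + m x y ≤ R then kk ((d : ℝ) - 2) (m x y) else 0) + 1 / R ^ (d - 2) := by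
    intro y _
    split_ifs with h
    · have : 0 ≤ 1 / R ^ (d - 2) := by positivity
      linarith
    · rw [zero_add]; exact far hd (hm.nonneg x y) hR (not_le.1 h).le
  refine (sum_le_sum h1).trans ?_
  rw [sum_add_distrib, sum_const, nsmul_eq_mul, mul_comm (S.card : ℝ)]
  linarith [near hb x S R]

lemma tri (hd : 2 ≤ d) (hm : Met d m) (z y a : X) :
    kk ((d : ℝ) - 2) (m z y) * kk ((d : ℝ) - 2) (m y a) ≤ 2 ^ ((d : ℝ) - 2) *
      kk ((d : ℝ) - 2) (m z a) * (kk ((d : ℝ) - 2) (m z y) + kk ((d : ℝ) - 2) (m a y)) := by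
  have h2 : (2 : ℝ) ≤ d := by exact_mod_cast hd
  have ha : 0 ≤ (d : ℝ) - 2 := by linarith
  have h0 := hm.nonneg z a
  have h1 := kk_half ha h0
  have p1 := kk_nonneg ((d : ℝ) - 2) (hm.nonneg z y)
  have p2 := kk_nonneg ((d : ℝ) - 2) (hm.nonneg a y)
  have p3 : 0 ≤ 2 ^ ((d : ℝ) - 2) * kk ((d : ℝ) - 2) (m z a) :=
    mul_nonneg (by positivity) (kk_nonneg _ h0)
  have ht := hm.tri z y a
  rw [hm.symm y a] at ht ⊢
  rcases le_total (m z a / 2) (m a y) with h | h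
  · have := (kk_anti ha (by positivity) h).trans h1
    nlinarith [mul_le_mul_of_nonneg_left this p1, mul_nonneg p3 p2]
  · have := (kk_anti ha (by positivity) (show m z a / 2 ≤ m z y by linarith)).trans h1
    nlinarith [mul_le_mul_of_nonneg_right this p2, mul_nonneg p3 p1]

lemma conv (hd : 2 ≤ d) (hm : Met d m) (hb : Ball d m C) (z a : X) (U : Finset X) {R T : ℝ}
    (hR : 0 < R) (hT : ∀ x, ∑ y ∈ U, kk ((d : ℝ) - 2) (m x y) ≤ T) :
    ∑ y ∈ U, kk ((d : ℝ) - 2) (m z y) * kk ((d : ℝ) - 2) (m y a) ≤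
      2 ^ ((d : ℝ) - 2) * kk ((d : ℝ) - 2) (m z a) * (2 * (C * R ^ 2)) +
        1 / R ^ (d - 2) * (2 * T) := by
  have hG : 0 ≤ 1 / R ^ (d - 2) := by positivity
  have p3 : 0 ≤ 2 ^ ((d : ℝ) - 2) * kk ((d : ℝ) - 2) (m z a) :=
    mul_nonneg (by positivity) (kk_nonneg _ (hm.nonneg z a))
  have h1 : ∀ y ∈ U, kk ((d : ℝ) - 2) (m z y) * kk ((d : ℝ) - 2) (m y a) ≤
      2 ^ ((d : ℝ) - 2) * kk ((d : ℝ) - 2) (m z a) *
        ((if 1 + m z y ≤ R then kk ((d : ℝ) - 2) (m z y) else 0) +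
          (if 1 + m a y ≤ R then kk ((d : ℝ) - 2) (m a y) else 0)) +
        1 / R ^ (d - 2) * (kk ((d : ℝ) - 2) (m z y) + kk ((d : ℝ) - 2) (m a y)) := by
    intro y _
    have p1 := kk_nonneg ((d : ℝ) - 2) (hm.nonneg z y)
    have p2 := kk_nonneg ((d : ℝ) - 2) (hm.nonneg a y)
    have q1 := mul_nonneg hG p1
    have q2 := mul_nonneg hG p2
    have q3 := mul_nonneg p3 p1
    have q4 := mul_nonneg p3 p2
    have ht := tri hd hm z y a
    rw [hm.symm y a] at ht ⊢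
    by_cases hz : 1 + m z y ≤ R
    · by_cases ha : 1 + m a y ≤ R
      · rw [if_pos hz, if_pos ha]; linarith [mul_nonneg hG (add_nonneg p1 p2)]
      · have := mul_le_mul_of_nonneg_left (far hd (hm.nonneg a y) hR (not_le.1 ha).le) p1
        rw [if_pos hz, if_neg ha]; linarith
    · have := mul_le_mul_of_nonneg_right (far hd (hm.nonneg z y) hR (not_le.1 hz).le) p2
      rw [if_neg hz]
      split_ifs <;> linarith
  refine (sum_le_sum h1).trans ?_
  rw [sum_add_distrib, ← mul_sum, ← mul_sum, sum_add_distrib, sum_add_distrib]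
  have a1 := near hb z U R
  have a2 := near hb a U R
  have a3 := hT z
  have a4 := hT a
  gcongr <;> linarith

end

/-- the facts common to both regimes -/
lemma regime (hd : 2 ≤ d) {C₀ : ℝ} {n : ℕ} [NeZero n] {l f : ℝ} {U : Finset (Tor d n)}
    (hl : 1 ≤ l) (h : ((n : ℝ) ≤ C₀ * l ∧ f = l ^ 2 / (n : ℝ) ^ d) ∨
      (l ≤ n ∧ f = l ^ 2 / l ^ d ∧ ∃ x, U ⊆ tball x (C₀ * l))) :
    0 < f ∧ l ^ 2 / (n : ℝ) ^ d ≤ f ∧ 1 / l ^ (d - 2) ≤ max C₀ 1 ^ d * f ∧
      1 / l ^ (d - 2) * U.card ≤ (3 * max C₀ 1) ^ d * l ^ 2 ∧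
      l ^ 2 / (n : ℝ) ^ d * U.card ≤ (3 * max C₀ 1) ^ d * l ^ 2 := by
  have hn : (1 : ℝ) ≤ n := by exact_mod_cast Nat.one_le_iff_ne_zero.2 (NeZero.ne n)
  set M := max C₀ 1 with hM
  have M1 : 1 ≤ M := le_max_right _ _
  have M2 : C₀ * l ≤ M * l := mul_le_mul_of_nonneg_right (le_max_left _ _) (by linarith)
  have l0 : 0 < l := by linarith
  have eg : 1 / l ^ (d - 2) = l ^ 2 / l ^ d := by
    conv_rhs => rw [show d = (d - 2) + 2 by omega, pow_add]
    field_simp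
  have hU : ∀ x : Tor d n, (∀ y ∈ U, td x y ≤ M * l) →
      1 / l ^ (d - 2) * U.card ≤ (3 * M) ^ d * l ^ 2 := by
    intro x hx
    have h1 := (met_td d n).ball x (M * l) U (by positivity) hx
    have h2 : (2 * (M * l) + 1) ^ d ≤ (3 * M * l) ^ d := by
      gcongr
      nlinarith
    rw [eg]
    calc _ ≤ l ^ 2 / l ^ d * (3 * M * l) ^ d := by gcongr; exact h1.trans h2
      _ = _ := by rw [mul_pow (3 * M)]; field_simp
  have one : (1 : ℝ) ≤ (3 * M) ^ d := one_le_pow₀ (by linarith)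
  have one' : (1 : ℝ) ≤ M ^ d := one_le_pow₀ M1
  rcases h with ⟨h1, rfl⟩ | ⟨h1, rfl, x, hx⟩
  · refine ⟨by positivity, le_rfl, ?_, hU 0 fun y _ => ?_, ?_⟩
    · have : (n : ℝ) ^ d ≤ (M * l) ^ d := by gcongr; linarith
      rw [eg]
      calc l ^ 2 / l ^ d = M ^ d * (l ^ 2 / (M * l) ^ d) := by rw [mul_pow]; field_simp
        _ ≤ _ := by gcongr
    · have := td_le_half 0 y
      linarith
    · have h2 : (U.card : ℝ) ≤ (n : ℝ) ^ d := by
        have := card_le_univ U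
        rw [card_Tor] at this
        exact_mod_cast this
      calc _ ≤ l ^ 2 / (n : ℝ) ^ d * (n : ℝ) ^ d := by gcongr
        _ = 1 * l ^ 2 := by field_simp
        _ ≤ _ := by gcongr
  · have h3 := hU x fun y hy => (mem_tball.1 (hx hy)).trans M2
    have h4 : l ^ 2 / (n : ℝ) ^ d ≤ l ^ 2 / l ^ d := by gcongr
    refine ⟨by positivity, h4, ?_, h3, ?_⟩
    · rw [eg]; exact le_mul_of_one_le_left (by positivity) one'
    · rw [eg] at h3
      exact le_trans (by gcongr) h3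

end Pool.Agent.TPC.TK2

namespace Pool.Agent.TPC

open TK2

theorem st_TK2 (h12 : St_S12) : St_TK2 := by
  intro d hd C₀
  have hd2 : 2 ≤ d := by omega
  obtain ⟨C, hC, hball⟩ := exists_ball h12 hd2
  set B := max C₀ 1 ^ d with hB
  set B' := (3 * max C₀ 1) ^ d with hB'
  have M0 : 0 < max C₀ 1 := lt_max_of_lt_right one_pos
  have B0 : 0 < B := by positivity
  have B0' : 0 < B' := by positivity
  set K := C + 2 * 2 ^ ((d : ℝ) - 2) * C with hK
  have t0 : (0 : ℝ) < 2 ^ ((d : ℝ) - 2) := by positivity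
  have K0 : 0 < K := by positivity
  let ρ : ℝ → ℝ := fun η => η / (1 + η + K)
  let P : ℝ → ℝ := fun η => 1 / ρ η ^ (d - 2) * B
  refine ⟨fun η => max 1 (1 + P η + 2 * P η * (C + B') + 2 * (C + B') + B'),
    fun η => le_max_left _ _, fun n _ l f U hl h η hη => ?_⟩
  obtain ⟨f0, hb, hg, hU, hbU⟩ := regime hd2 hl h
  rw [← hB] at hg
  rw [← hB'] at hU hbU
  have l0 : 0 < l := by linarith
  have hm := met_td d n
  have hbl := hball _ _ hm
  have ρ0 : 0 < ρ η := by positivity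
  have ρ1 : ρ η ≤ η := div_le_self hη.le (by linarith)
  have ρ2 : ρ η ≤ 1 := (div_le_one (by positivity)).2 (by linarith)
  have ρ3 : K * ρ η ^ 2 ≤ η := by
    have : K * ρ η ≤ η := by
      rw [← mul_div_assoc, div_le_iff₀ (by positivity)]
      nlinarith
    nlinarith [mul_pos K0 ρ0]
  have P0 : 0 < P η := by positivity
  have R0 : 0 < ρ η * l := by positivity
  have hG : 1 / (ρ η * l) ^ (d - 2) ≤ P η * f := by
    calc 1 / (ρ η * l) ^ (d - 2) = 1 / ρ η ^ (d - 2) * (1 / l ^ (d - 2)) := by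
          rw [mul_pow]; field_simp
      _ ≤ 1 / ρ η ^ (d - 2) * (B * f) := by gcongr
      _ = _ := by ring
  set Cs := max 1 (1 + P η + 2 * P η * (C + B') + 2 * (C + B') + B') with hCs
  have hc : 1 + P η + 2 * P η * (C + B') + 2 * (C + B') + B' ≤ Cs := le_max_right _ _
  have s0 : 0 < P η * (C + B') := by positivity
  have c1 : (P η + 1) * f ≤ Cs * f := by gcongr; linarith
  set b := l ^ 2 / (n : ℝ) ^ d with hbdef
  have b0 : 0 ≤ b := by positivity
  refine ⟨fun z D => ?_, fun z a => ?_, fun x y hxy => ?_⟩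
  · have h1 := split hd2 hm hbl z D R0
    have h2 : C * (ρ η * l) ^ 2 ≤ η * l ^ 2 := by
      rw [mul_pow, ← mul_assoc]
      gcongr
      have : 0 ≤ 2 * 2 ^ ((d : ℝ) - 2) * C * ρ η ^ 2 := by positivity
      nlinarith
    have h3 : (0 : ℝ) ≤ D.card := Nat.cast_nonneg _
    simp only [tg, sum_add_distrib, sum_const, nsmul_eq_mul, ← hbdef]
    nlinarith [mul_le_mul_of_nonneg_right hG h3, mul_le_mul_of_nonneg_right hb h3,
      mul_le_mul_of_nonneg_right c1 h3]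
  · have hT : ∀ x, ∑ y ∈ U, kk ((d : ℝ) - 2) (td x y) ≤ (C + B') * l ^ 2 := fun x => by
      have := split hd2 hm hbl x U l0
      linarith
    have h1 := conv hd2 hm hbl z a U R0 hT
    have k0 := kk_nonneg ((d : ℝ) - 2) (td_nonneg z a)
    have h2 : 2 ^ ((d : ℝ) - 2) * kk ((d : ℝ) - 2) (td z a) * (2 * (C * (ρ η * l) ^ 2)) ≤
        l ^ 2 * (η * kk ((d : ℝ) - 2) (td z a)) := by
      have : 2 * 2 ^ ((d : ℝ) - 2) * C * ρ η ^ 2 ≤ η := by
        have : 0 ≤ C * ρ η ^ 2 := by positivity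
        nlinarith
      calc _ = l ^ 2 * ((2 * 2 ^ ((d : ℝ) - 2) * C * ρ η ^ 2) * kk ((d : ℝ) - 2) (td z a)) := by
            ring
        _ ≤ _ := by gcongr
    have h3 : 1 / (ρ η * l) ^ (d - 2) * (2 * ((C + B') * l ^ 2)) ≤
        P η * f * (2 * ((C + B') * l ^ 2)) := by gcongr
    have h4 : b * ∑ y ∈ U, kk ((d : ℝ) - 2) (td z y) ≤ f * ((C + B') * l ^ 2) :=
      mul_le_mul hb (hT z) (sum_nonneg fun y _ => kk_nonneg _ (td_nonneg _ _)) f0.le
    have h5 : b * ∑ y ∈ U, kk ((d : ℝ) - 2) (td a y) ≤ f * ((C + B') * l ^ 2) :=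
      mul_le_mul hb (hT a) (sum_nonneg fun y _ => kk_nonneg _ (td_nonneg _ _)) f0.le
    have h6 : b * (b * U.card) ≤ f * (B' * l ^ 2) := mul_le_mul hb hbU (by positivity) f0.le
    have e : ∑ y ∈ U, tg l z y * tg l y a =
        ∑ y ∈ U, kk ((d : ℝ) - 2) (td z y) * kk ((d : ℝ) - 2) (td y a) +
          b * ∑ y ∈ U, kk ((d : ℝ) - 2) (td z y) + b * ∑ y ∈ U, kk ((d : ℝ) - 2) (td a y) +
          b * (b * U.card) := by
      rw [mul_sum, mul_sum, show b * (b * U.card) = ∑ _y ∈ U, b * b by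
        rw [sum_const, nsmul_eq_mul]; ring, ← sum_add_distrib, ← sum_add_distrib,
        ← sum_add_distrib]
      refine sum_congr rfl fun y _ => ?_
      rw [tg, tg, ← hbdef, td_comm a y]
      ring
    have h7 : l ^ 2 * ((2 * P η * (C + B') + 2 * (C + B') + B') * f) ≤ l ^ 2 * (Cs * f) := by
      gcongr; linarith
    have h8 : 0 ≤ l ^ 2 * (η * b) := by positivity
    rw [e, tg, ← hbdef]
    nlinarith
  · have h1 := far hd2 (td_nonneg x y) R0 (show ρ η * l ≤ 1 + td x y by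
      nlinarith [mul_le_mul_of_nonneg_right ρ1 l0.le])
    rw [tg, ← hbdef]
    linarith

end Pool.Agent.TPC
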