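import Pool.Agent.Lib.TPC.BlueC

/-! The trial lemma. -/

open Finset

set_option linter.unusedSectionVars false

namespace Pool.Agent.TPC

namespace TL

lemma exp_le {a b : ℝ} (ha : 0 ≤ a) (hb : 0 ≤ b) :
    Real.exp (-a + b) ≤ -a + a ^ 2 + Real.exp b := by
  have h1 : Real.exp (-a) ≤ 1 - a + a ^ 2 := by
    rw [Real.exp_neg, inv_le_iff_one_le_mul₀ (Real.exp_pos a)]
    have h2 := Real.add_one_le_exp a
    have h3 : 0 ≤ 1 - a + a ^ 2 := by nlinarith [sq_nonneg (a - 1 / 2)]
    nlinarith [mul_le_mul_of_nonneg_left h2 h3, mul_nonneg ha (mul_nonneg ha ha)]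
  have h2 : Real.exp (-a) ≤ 1 := Real.exp_le_one_iff.2 (by linarith)
  have h3 : 1 ≤ Real.exp b := Real.one_le_exp hb
  rw [Real.exp_add]
  nlinarith

variable {V ι T : Type} [Fintype V] [DecidableEq V] [Fintype ι] [DecidableEq ι]

/-- examine the tokens of `Tk` one after the other -/
noncomputable def pr (G : SimpleGraph V) (D : Finset V) (base : Sym2 V → ι) (bit : T → ι)
    (Tk : Finset T) (zt : T → V) : Proc T V ι := by
  classical
  exact ⟨G, D, base, fun t => if t ∈ Tk then {bit t} else ∅, fun s =>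
    if h : ∃ t ∈ Tk, ∀ a ∈ s, a.tok ≠ some t then some (some h.choose, zt h.choose) else none⟩

variable {G : SimpleGraph V} {D : Finset V} {base : Sym2 V → ι} {bit : T → ι} {Tk : Finset T}
  {zt : T → V}

lemma bits_eq {t : T} (h : t ∈ Tk) : (pr G D base bit Tk zt).bits t = {bit t} := by
  simp [pr, h]

lemma next_cases (s : List (Ent T V)) :
    ((pr G D base bit Tk zt).next s = none ∧ ∀ t ∈ Tk, ∃ a ∈ s, a.tok = some t) ∨
      ∃ t ∈ Tk, (∀ a ∈ s, a.tok ≠ some t) ∧
        (pr G D base bit Tk zt).next s = some (some t, zt t) := by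
  by_cases h : ∃ t ∈ Tk, ∀ a ∈ s, a.tok ≠ some t
  · exact Or.inr ⟨h.choose, h.choose_spec.1, h.choose_spec.2, dif_pos h⟩
  · refine Or.inl ⟨dif_neg h, fun t ht => ?_⟩
    by_contra h2
    exact h ⟨t, ht, fun a ha e => h2 ⟨a, ha, e⟩⟩

lemma next_some {s : List (Ent T V)} {o : Option T} {z : V}
    (h : (pr G D base bit Tk zt).next s = some (o, z)) :
    ∃ t ∈ Tk, (∀ a ∈ s, a.tok ≠ some t) ∧ o = some t ∧ z = zt t := by
  rcases next_cases (G := G) (D := D) (base := base) (bit := bit) (Tk := Tk) (zt := zt) s with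
    ⟨h1, -⟩ | ⟨t, h1, h2, h3⟩
  · rw [h1] at h; cases h
  · rw [h3] at h
    cases h
    exact ⟨t, h1, h2, rfl, rfl⟩

lemma ok (h1 : Function.Injective base) (h2 : Set.InjOn bit Tk)
    (h3 : ∀ t ∈ Tk, ∀ e, bit t ≠ base e) : (pr G D base bit Tk zt).OK := by
  have hb : ∀ t b, b ∈ (pr G D base bit Tk zt).bits t → t ∈ Tk ∧ b = bit t := by
    intro t b h
    by_cases ht : t ∈ Tk
    · rw [bits_eq ht] at h; exact ⟨ht, mem_singleton.1 h⟩
    · simp [pr, ht] at h
  refine ⟨h1, fun t e h => h3 t (hb _ _ h).1 e (hb _ _ h).2.symm, fun t t' h => ?_,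
    fun s t z h => ?_⟩
  · refine disjoint_left.2 fun b a1 a2 => h (h2 (hb _ _ a1).1 (hb _ _ a2).1 ?_)
    rw [← (hb _ _ a1).2, ← (hb _ _ a2).2]
  · obtain ⟨t', -, a1, a2, -⟩ := next_some h
    cases a2
    exact a1

/-- description of the state after `n` steps -/
lemma inv {X : Finset V → ℝ} {h : Finset V → V → ℝ} (X0 : X ∅ = 0)
    (hm : ∀ J J' z, J ⊆ J' → h J' z ≤ h J z) (ω : Finset ι) (n : ℕ) :
    ∃ (S0 S' : Finset T) (Pc : T → Finset V), S' ⊆ S0 ∧ S0 ⊆ Tk ∧ (S0 = Tk ∨ n ≤ S0.card) ∧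
      (∀ t, t ∈ S0 ↔ ∃ a ∈ (pr G D base bit Tk zt).run ω n, a.tok = some t) ∧
      (∀ t ∈ S', (bit t ∈ ω ∧ Pc t ⊆ cl G D (baseOf base ω) (zt t)) ∧
        Pc t ⊆ Wof ((pr G D base bit Tk zt).run ω n)) ∧
      (∀ t ∈ S', ∀ t' ∈ S', t ≠ t' → Disjoint (Pc t) (Pc t')) ∧
      sumF (fun a _ => X a.piece) ((pr G D base bit Tk zt).run ω n) = ∑ t ∈ S', X (Pc t) ∧
      ∑ t ∈ S0, h (Wof ((pr G D base bit Tk zt).run ω n)) (zt t) ≤
        sumF (fun a s => h (Wof s) a.z) ((pr G D base bit Tk zt).run ω n) := by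
  classical
  induction n with
  | zero => exact ⟨∅, ∅, fun _ => ∅, by simp [Proc.run, sumF]⟩
  | succ n ih =>
    obtain ⟨S0, S', Pc, a1, a2, a3, a4, a5, a6, a7, a8⟩ := ih
    rw [Proc.run_succ]
    generalize (pr G D base bit Tk zt).run ω n = s at a4 a5 a7 a8
    rcases next_cases (G := G) (D := D) (base := base) (bit := bit) (Tk := Tk) (zt := zt) s with
      ⟨h1, h2⟩ | ⟨t, h1, h2, h3⟩
    · rw [Proc.step_none h1]
      exact ⟨S0, S', Pc, a1, a2, Or.inl (a2.antisymm fun t ht => (a4 t).2 (h2 t ht)), a4, a5, a6,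
        a7, a8⟩
    have t0 : t ∉ S0 := fun ht => by
      obtain ⟨a, ha, e⟩ := (a4 t).1 ht
      exact h2 a ha e
    have b2 : insert t S0 ⊆ Tk := insert_subset h1 a2
    have b3 : insert t S0 = Tk ∨ n + 1 ≤ (insert t S0).card := by
      rcases a3 with rfl | a3
      · exact absurd h1 t0
      · rw [card_insert_of_notMem t0]; omega
    have b4 : ∀ (b : Bool) (C : Finset V) (u : T), u ∈ insert t S0 ↔
        ∃ a ∈ (⟨some t, zt t, b, C⟩ :: s : List (Ent T V)), a.tok = some u := by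
      intro b C u
      simp [a4, eq_comm]
    have b8 : ∀ (b : Bool) (C : Finset V),
        ∑ u ∈ insert t S0, h (Wof (⟨some t, zt t, b, C⟩ :: s : List (Ent T V))) (zt u) ≤
          sumF (fun a s => h (Wof s) a.z) (⟨some t, zt t, b, C⟩ :: s) := by
      intro b C
      rw [sum_insert t0, sumF]
      exact add_le_add (hm _ _ _ subset_union_right)
        ((sum_le_sum fun u _ => hm _ _ _ subset_union_right).trans a8)
    by_cases hb : ∃ b ∈ (pr G D base bit Tk zt).bits t, b ∈ ω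
    · rw [Proc.step_succ h3 hb]
      have t1 : t ∉ S' := fun h => t0 (a1 h)
      have hu : ∀ (C : Finset V), ∀ u ∈ S', Function.update Pc t C u = Pc u := fun C u hu =>
        Function.update_of_ne (fun e : u = t => t1 (e ▸ hu)) _ _
      have hd : ∀ u ∈ S', Disjoint (cl G (D \ Wof s) (baseOf base ω) (zt t)) (Pc u) :=
        fun u hu => disjoint_left.2 fun v c1 c2 => (mem_sdiff.1 (cl_subset c1)).2 ((a5 u hu).2 c2)
      refine ⟨insert t S0, insert t S',
        Function.update Pc t (cl G (D \ Wof s) (baseOf base ω) (zt t)),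
        insert_subset_insert t a1, b2, b3, b4 _ _, fun u h => ?_, fun u h u' h' hne => ?_, ?_,
        b8 _ _⟩
      · rcases mem_insert.1 h with rfl | h
        · rw [Function.update_self]
          refine ⟨⟨?_, cl_mono sdiff_subset subset_rfl⟩, subset_union_left⟩
          simpa [bits_eq h1] using hb
        · rw [hu _ u h]
          exact ⟨(a5 u h).1, (a5 u h).2.trans subset_union_right⟩
      · rcases mem_insert.1 h with e | c <;> rcases mem_insert.1 h' with e' | c'
        · exact absurd (e.trans e'.symm) hne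
        · rw [e, Function.update_self, hu _ u' c']; exact hd u' c'
        · rw [e', Function.update_self, hu _ u c]; exact (hd u c).symm
        · rw [hu _ u c, hu _ u' c']; exact a6 u c u' c' hne
      · rw [sum_insert t1, Function.update_self, sumF, a7,
          sum_congr rfl fun u h => congrArg X (hu _ u h)]
        rfl
    · rw [Proc.step_fail h3 hb]
      refine ⟨insert t S0, S', Pc, a1.trans (subset_insert _ _), b2, b3, b4 _ _,
        fun u h => ⟨(a5 u h).1, (a5 u h).2.trans subset_union_right⟩, a6, ?_, b8 _ _⟩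
      rw [sumF, a7, X0, zero_add]

end TL

open TL in
theorem st_TL : St_TL := by
  intro V ι T _ _ _ _ G D base bit Tk zt π p q hπ i1 i2 i3 hp hq q0 X w Wp μ z₀ s₂ lam S θ θ₂ X0 Xm
    w0 s0 l0 θ0 θ1 hμ hM hS Φ hΦ
  have hpp : Prob fun _ : Sym2 V => p := fun e => hp e ▸ hπ (base e)
  have Xn : ∀ C, 0 ≤ X C := fun C => X0 ▸ Xm (empty_subset C)
  set c := θ ^ 2 * s₂ + θ₂ * lam with hc
  set h : Finset V → V → ℝ := fun J z => θ * EC G (fun _ => p) (D \ J) z X - c * Wp z with hh
  have hm : ∀ J J' z, J ⊆ J' → h J' z ≤ h J z := fun J J' z hJ =>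
    sub_le_sub_right (mul_le_mul_of_nonneg_left
      (EC_mono_dom hpp (sdiff_subset_sdiff subset_rfl hJ) Xm) θ0) _
  have h1 := Proc.super_exp (ok (G := G) (D := D) (zt := zt) i1 i2 i3) hπ (fun _ => True)
    (fun a s => (-θ * X a.piece + θ₂ * ∑ y ∈ a.piece, w y) + q * h (Wof s) a.z) (fun _ _ => trivial)
    (fun s z _ h0 => by obtain ⟨t, -, -, e, -⟩ := next_some h0; cases e) ?_ Tk.card
  · rw [← one_mul (Real.exp _)]
    refine le_trans ?_ (mul_le_mul_of_nonneg_right h1 (Real.exp_pos _).le)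
    rw [← PE_mul_right]
    refine PE_mono hπ fun ω => ?_
    rw [← Real.exp_add, Real.exp_le_exp]
    obtain ⟨S0, S', Pc, a1, a2, a3, -, a5, a6, a7, a8⟩ :=
      inv (G := G) (D := D) (base := base) (bit := bit) (Tk := Tk) (zt := zt) X0 hm ω Tk.card
    obtain rfl : S0 = Tk := a3.elim id fun h => eq_of_subset_of_card_le a2 h
    obtain ⟨d1, d2⟩ := (pr G D base bit S0 zt).disj_run ω S0.card
    rw [sumF_add, sumF_add, sumF_mul, sumF_mul, sumF_mul, ← d1.sum_Wof, a7]
    generalize (pr G D base bit S0 zt).run ω S0.card = s at *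
    have b1 := mul_le_mul_of_nonneg_left (hΦ ω S' Pc a1 (fun t ht => (a5 t ht).1) a6) θ0
    simp only [hh, sum_sub_distrib, ← mul_sum] at a8
    have b2 := mul_le_mul_of_nonneg_left a8 q0
    have b3 := mul_le_mul_of_nonneg_left hS (by positivity : 0 ≤ q * c)
    have b4 : min (q * θ * μ) (θ₂ * z₀) ≤ θ₂ * ∑ y ∈ Wof s, w y +
        q * θ * ∑ t ∈ S0, EC G (fun _ => p) (D \ Wof s) (zt t) X := by
      rcases le_total (∑ y ∈ Wof s, w y) z₀ with h2 | h2
      · have := mul_le_mul_of_nonneg_left (hμ _ d2 h2) (by positivity : 0 ≤ q * θ)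
        have := mul_nonneg θ1 (sum_nonneg fun y (_ : y ∈ Wof s) => w0 y)
        linarith [min_le_left (q * θ * μ) (θ₂ * z₀)]
      · have := mul_le_mul_of_nonneg_left h2 θ1
        have := mul_nonneg (mul_nonneg q0 θ0) (sum_nonneg fun t (_ : t ∈ S0) =>
          PE_nonneg (E := edges G (D \ Wof s)) hpp fun ω => Xn (cl G (D \ Wof s) ω (zt t)))
        simp only [EC]
        linarith [min_le_right (q * θ * μ) (θ₂ * z₀)]
    simp only [hh]
    linarith
  · intro s t z _ h0
    obtain ⟨t', ht, -, e, rfl⟩ := next_some h0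
    cases e
    have e1 : (fun e => π ((pr G D base bit Tk zt).base e)) = fun _ => p := funext hp
    rw [bits_eq ht, prod_singleton, hq t ht, e1]
    have a1 : EC G (fun _ => p) (D \ Wof s) (zt t)
        (fun C => Real.exp (-θ * X C + θ₂ * ∑ y ∈ C, w y)) ≤ 1 - h (Wof s) (zt t) := by
      refine (EC_mono (F' := fun C => -θ * X C + θ ^ 2 * X C ^ 2 + Real.exp (θ₂ * ∑ y ∈ C, w y))
        hpp fun C _ => ?_).trans ?_
      · have := exp_le (mul_nonneg θ0 (Xn C)) (mul_nonneg θ1 (sum_nonneg fun y (_ : y ∈ C) => w0 y))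
        rwa [mul_pow, ← neg_mul] at this
      · obtain ⟨a2, a3⟩ := hM (Wof s) t ht
        have a4 := mul_le_mul_of_nonneg_left a2 (sq_nonneg θ)
        simp only [EC, hh, hc] at a3 a4 ⊢
        rw [PE_add, PE_add, PE_mul_left, PE_mul_left]
        linarith
    have a2 : EC (pr G D base bit Tk zt).G (fun _ => p) ((pr G D base bit Tk zt).D \ Wof s) (zt t)
        (fun C => Real.exp (-θ * X C + θ₂ * ∑ y ∈ C, w y + q * h (Wof s) (zt t))) =
        EC G (fun _ => p) (D \ Wof s) (zt t) (fun C => Real.exp (-θ * X C + θ₂ * ∑ y ∈ C, w y)) *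
          Real.exp (q * h (Wof s) (zt t)) := by
      simp only [EC, Real.exp_add _ (q * _)]
      exact PE_mul_right _ _ _ _
    rw [a2]
    simp only [X0, sum_empty, mul_zero, add_zero, zero_add, sub_sub_cancel]
    have a3 := mul_le_mul_of_nonneg_right (Real.one_sub_le_exp_neg (q * h (Wof s) (zt t)))
      (Real.exp_pos (q * h (Wof s) (zt t))).le
    rw [← Real.exp_add, neg_add_cancel, Real.exp_zero] at a3
    have a4 := mul_le_mul_of_nonneg_right (mul_le_mul_of_nonneg_left a1 q0)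
      (Real.exp_pos (q * h (Wof s) (zt t))).le
    linarith

end Pool.Agent.TPC
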