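import Pool.Agent.Lib.TPC.BlueZ

/-! Block TOUCH. -/

open Finset

namespace Pool.Agent.TPC

namespace Touch

variable {V : Type} [DecidableEq V] {G : SimpleGraph V} {B D : Finset V} {x y : V}

/-- first entrance to `D` -/
lemma enter {a b : Finset (Sym2 V)} (ha : a ⊆ edges G D) (hy : y ∈ D)
    (h : conn G B (a ∪ b) x y) : ∃ w ∈ D, conn G B b x w := by
  have := h.induction (P := fun v => conn G B b x v ∨ ∃ w ∈ D, conn G B b x w)
    (Or.inl (conn.refl h.1)) fun u v h1 huv hu hv he => by
      rcases h1 with h1 | h1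
      · rcases mem_union.1 he with he | he
        · exact Or.inr ⟨u, (mk_mem_edges.1 (ha he)).2.1, h1⟩
        · exact Or.inl (h1.tail hv huv he hu)
      · exact Or.inr h1
  rcases this with h1 | h1
  · exact ⟨y, hy, h1⟩
  · exact h1

end Touch

theorem st_TOUCH : St_TOUCH := by
  intro V _ G π hπ B D x y κ L hD hy hκ hL hw
  have hE : edges G B ∩ edges G D = edges G D := inter_eq_right.2 (edges_mono hD)
  set T : Finset (Sym2 V) → Prop := fun b => ∃ w ∈ D, conn G B b x w with hT
  set t := PE (edges G B \ edges G D) π (fun b => ind (T b)) with ht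
  have h1 : PE (edges G B) π (fun ω => ind (conn G B ω x y ∧ L ω)) ≤
      t * PE (edges G D) π (fun ω => ind (L ω)) := by
    rw [PE_freeze (edges G B) (edges G D), hE, ← PE_mul_left]
    refine PE_mono' hπ fun a ha => ?_
    rw [ht, ← PE_mul_right]
    refine PE_mono' hπ fun b hb => ?_
    rw [← ind_and]
    refine ind_mono fun h => ⟨Touch.enter ha hy h.1, ?_⟩
    have := hL (a ∪ b) a fun e he => by
      have : e ∉ b := fun h2 => (mem_sdiff.1 (hb h2)).2 he
      simp [this]
    exact this ▸ h.2
  have h2 : κ * t ≤ tau G π B x y := by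
    unfold tau
    rw [PE_freeze (edges G B) (edges G D), hE, PE_comm, ht, ← PE_mul_left]
    refine PE_mono hπ fun b => ?_
    by_cases hb : T b
    · obtain ⟨w, hwD, hc⟩ := id hb
      rw [ind_pos hb, mul_one]
      refine (hw w hwD).trans (PE_ind_mono hπ fun a h => ?_)
      exact (hc.mono subset_rfl subset_union_right).trans (h.mono hD subset_union_left)
    · rw [ind_neg hb, mul_zero]
      exact PE_ind_nonneg hπ _
  calc _ ≤ κ * (t * PE (edges G D) π (fun ω => ind (L ω))) := mul_le_mul_of_nonneg_left h1 hκ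
    _ = κ * t * PE (edges G D) π (fun ω => ind (L ω)) := by ring
    _ ≤ _ := mul_le_mul_of_nonneg_right h2 (PE_ind_nonneg hπ _)

end Pool.Agent.TPC
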