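import Pool.Agent.Lib.TPC.Path

/-! Tree-graph decomposition of a multi-point connection. -/

open Finset

namespace Pool.Agent.TPC

namespace Tree

variable {V : Type} [DecidableEq V] {G : SimpleGraph V} {D : Finset V} {ω : Finset (Sym2 V)}
  {z z' u : V}

/-- after deleting the edge `z z'` every point of the cluster hangs on `z` or on `z'` -/
lemma split (h : conn G D ω z u) (z' : V) :
    conn G D (ω.erase s(z, z')) z u ∨ conn G D (ω.erase s(z, z')) z' u := by
  refine h.induction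
    (P := fun b => conn G D (ω.erase s(z, z')) z b ∨ conn G D (ω.erase s(z, z')) z' b)
    (Or.inl (conn.refl h.1)) fun a b h1 ha h2 h3 he => ?_
  by_cases e : s(a, b) = s(z, z')
  · rcases Sym2.eq_iff.1 e with ⟨-, rfl⟩ | ⟨-, rfl⟩
    exacts [Or.inr (conn.refl h3), Or.inl (conn.refl h3)]
  · have he' := Finset.mem_erase.2 ⟨e, he⟩
    exact h1.imp (fun k => k.tail h3 ha he' h2) fun k => k.tail h3 ha he' h2

lemma first_edge (h : conn G D ω z u) (hu : u ≠ z) :
    ∃ z', G.Adj z z' ∧ z' ∈ D ∧ s(z, z') ∈ ω := by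
  have := h.induction (P := fun b => b = z ∨ ∃ z', G.Adj z z' ∧ z' ∈ D ∧ s(z, z') ∈ ω)
    (Or.inl rfl) fun a b h1 ha _ h3 he => by
      rcases h1 with rfl | h1
      exacts [Or.inr ⟨b, ha, h3, he⟩, Or.inr h1]
  exact this.resolve_left hu

/-- a connection uses only edges both of whose ends lie in the cluster -/
lemma restrict {W : Finset (Sym2 V)} (h : conn G D ω z u)
    (hW : ∀ a b, conn G D ω z a → conn G D ω z b → s(a, b) ∈ ω → s(a, b) ∈ W) :
    conn G D W z u :=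
  (h.induction (P := fun b => conn G D ω z b ∧ conn G D W z b) ⟨conn.refl h.1, conn.refl h.1⟩
    fun a b h1 ha h2 h3 he => ⟨h1.1.tail h3 ha he h2,
      h1.2.tail h3 ha (hW a b h1.1 (h1.1.tail h3 ha he h2) he) h2⟩).2

end Tree

theorem st_TREE : St_TREE := by
  intro V _ G D ω z κ _ s y hs
  induction ω using Finset.strongInduction generalizing z with
  | H ω ih =>
  intro h
  obtain ⟨i0, hi0⟩ : s.Nonempty := Finset.card_pos.1 (by omega)
  have hz : z ∈ D := (h i0 hi0).1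
  by_cases h1 : ∃ i ∈ s, y i = z
  · obtain ⟨i, hi, e⟩ := h1
    refine ⟨z, hz, {i}, by simpa using hi, by simp, fun e' => ?_, ∅, ∅, ω, by simp, by simp,
      subset_rfl, by simp, by simp, by simp, conn.refl hz, fun j hj => ?_,
      fun j hj => h j (Finset.mem_sdiff.1 hj).1⟩
    · rw [← e'] at hs; simp at hs
    · rw [Finset.mem_singleton.1 hj, e]; exact conn.refl hz
  obtain ⟨z', ha, hz', he⟩ := Tree.first_edge (h i0 hi0) fun e => h1 ⟨i0, hi0, e⟩
  have hlt := Finset.erase_ssubset he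
  set ω' := ω.erase s(z, z') with hω'
  have hn : s(z, z') ∉ ω' := Finset.notMem_erase _ _
  by_cases h2 : ∀ i ∈ s, conn G D ω' z (y i)
  · obtain ⟨v, hv, t, a1, a2, a3, W₀, W₁, W₂, b1, b2, b3, c⟩ := ih ω' hlt z h2
    exact ⟨v, hv, t, a1, a2, a3, W₀, W₁, W₂, b1.trans hlt.subset, b2.trans hlt.subset,
      b3.trans hlt.subset, c⟩
  by_cases h3 : ∀ i ∈ s, conn G D ω' z' (y i)
  · obtain ⟨v, hv, t, a1, a2, a3, W₀, W₁, W₂, b1, b2, b3, c1, c2, c3, c4, c⟩ := ih ω' hlt z' h3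
    refine ⟨v, hv, t, a1, a2, a3, insert s(z, z') W₀, W₁, W₂,
      Finset.insert_subset he (b1.trans hlt.subset), b2.trans hlt.subset, b3.trans hlt.subset,
      Finset.disjoint_insert_left.2 ⟨fun k => hn (b2 k), c1⟩,
      Finset.disjoint_insert_left.2 ⟨fun k => hn (b3 k), c2⟩, c3, ?_, c⟩
    exact (conn.step hz hz' ha (Finset.mem_insert_self _ _)).trans
      (c4.mono subset_rfl (Finset.subset_insert _ _))
  push Not at h2 h3
  obtain ⟨i, hi, h2⟩ := h2
  obtain ⟨j, hj, h3⟩ := h3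
  have hsp : ∀ k ∈ s, conn G D ω' z (y k) ∨ conn G D ω' z' (y k) :=
    fun k hk => Tree.split (h k hk) z'
  have hzz : ¬ conn G D ω' z z' := fun k => h2 (k.trans ((hsp i hi).resolve_left h2))
  refine ⟨z, hz, flt s fun k => conn G D ω' z (y k), flt_subset _ _,
    ⟨j, mem_flt.2 ⟨hj, (hsp j hj).resolve_right h3⟩⟩, fun e => h2 (mem_flt.1 (e.ge hi)).2,
    ∅, flt ω' (· ∈ touch (cl G D ω' z)), ω \ flt ω' (· ∈ touch (cl G D ω' z)), by simp,
    (flt_subset _ _).trans hlt.subset, Finset.sdiff_subset, by simp, by simp,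
    Finset.disjoint_sdiff, conn.refl hz, fun k hk => ?_, fun k hk => ?_⟩
  · exact Tree.restrict (mem_flt.1 hk).2 fun a b ka _ kab =>
      mem_flt.2 ⟨kab, mk_mem_touch.2 (Or.inl (mem_cl.2 ka))⟩
  · obtain ⟨k1, k2⟩ := Finset.mem_sdiff.1 hk
    have k3 := (hsp k k1).resolve_left fun k4 => k2 (mem_flt.2 ⟨k1, k4⟩)
    refine (conn.step hz hz' ha (Finset.mem_sdiff.2 ⟨he, fun k4 => hn (mem_flt.1 k4).1⟩)).trans
      (Tree.restrict k3 fun a b ka kb kab => Finset.mem_sdiff.2 ⟨hlt.subset kab, fun k4 => ?_⟩)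
    rcases mk_mem_touch.1 (mem_flt.1 k4).2 with k5 | k5
    exacts [hzz ((mem_cl.1 k5).trans ka.symm), hzz ((mem_cl.1 k5).trans kb.symm)]

end Pool.Agent.TPC
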