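import Pool.Agent.Lib.TPC.BlueC

/-! Block XT: size and marked points of the single-root exploration. -/

open Finset

namespace Pool.Agent.TPC

namespace XT

lemma prod_ge {ι : Type} (s : Finset ι) (q : ι → ℝ) (h : ∀ j, 0 ≤ q j ∧ q j ≤ 1) :
    1 - ∏ j ∈ s, (1 - q j) ≤ ∑ j ∈ s, q j := by
  classical
  induction s using Finset.induction_on with
  | empty => simp
  | insert a s ha ih =>
    rw [prod_insert ha, sum_insert ha]
    have : ∏ j ∈ s, (1 - q j) ≤ 1 := prod_le_one (fun j _ => by linarith [h j]) fun j _ => by linarith [h j]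
    nlinarith [h a]

lemma exp_small {lam x : ℝ} (h0 : 0 ≤ lam) (h : lam ≤ 1 / 2) (hx : 0 ≤ x) :
    Real.exp (lam * x) ≤ 1 + lam * x + 8 * lam ^ 2 * (Real.exp x - 1) := by
  have s0 : 0 ≤ lam * x := mul_nonneg h0 hx
  have a1 : Real.exp (lam * x) - 1 ≤ lam * x * Real.exp (lam * x) := by
    have := Real.add_one_le_exp (-(lam * x))
    have e : Real.exp (-(lam * x)) * Real.exp (lam * x) = 1 := by rw [← Real.exp_add]; simp
    nlinarith [Real.exp_pos (lam * x)]
  have a2 : Real.exp (lam * x) ≤ Real.exp (x / 2) := Real.exp_le_exp.2 (by nlinarith)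
  have a3 := Real.quadratic_le_exp_of_nonneg (x := x / 2) (by linarith)
  have a4 : Real.exp x = Real.exp (x / 2) * Real.exp (x / 2) := by rw [← Real.exp_add]; simp
  have a5 : 1 ≤ Real.exp (x / 2) := Real.one_le_exp (by linarith)
  have a6 : x ^ 2 * Real.exp (x / 2) ≤ 8 * (Real.exp x - 1) := by nlinarith
  have a7 : Real.exp (lam * x) - 1 - lam * x ≤ (lam * x) ^ 2 * Real.exp (x / 2) := by
    have : lam * x * (Real.exp (lam * x) - 1) ≤ lam * x * (lam * x * Real.exp (x / 2)) :=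
      mul_le_mul_of_nonneg_left (a1.trans (mul_le_mul_of_nonneg_left a2 s0)) s0
    nlinarith
  have a8 : lam ^ 2 * (x ^ 2 * Real.exp (x / 2)) ≤ lam ^ 2 * (8 * (Real.exp x - 1)) :=
    mul_le_mul_of_nonneg_left a6 (sq_nonneg _)
  nlinarith

lemma sumF_nonneg {T V : Type} {F : Ent T V → List (Ent T V) → ℝ} (h : ∀ a s, 0 ≤ F a s)
    (s : List (Ent T V)) : 0 ≤ sumF F s := by
  induction s with
  | nil => exact le_rfl
  | cons a s ih => exact add_nonneg (h a s) ih

lemma one_add_le {x y : ℝ} (h : x ≤ y) : (1 + x) * Real.exp (-y) ≤ 1 := by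
  have e : Real.exp y * Real.exp (-y) = 1 := by rw [← Real.exp_add]; simp
  have := Real.add_one_le_exp y
  nlinarith [Real.exp_pos (-y)]

variable {K : Kc} {V : Type} [Fintype V] [DecidableEq V]

lemma gen (hXB : St_XB) (M : Core K V) {κ : ℝ} (hκ : 0 ≤ κ) {i : Fin 5} {q : Fin 5 → ℝ} (hL : M.Lv κ i q)
    (D : Finset V) (x : V) {k : ℝ} (hk : M.l ^ 4 ≤ k) (Y : Finset V → Finset V → ℝ) (Y0 : ∀ W C, 0 ≤ Y W C)
    (Ye : ∀ W, Y W ∅ = 0) {b CB c A : ℝ} (b0 : 0 ≤ b) (c0 : 0 < c) (CB0 : 0 ≤ CB)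
    (hE : ∀ W : Finset V, W ⊆ D → (W.card : ℝ) < k → ∀ z,
      M.EB (D \ W) z (fun C => Real.exp (Y W C)) ≤ 1 + b / M.l ^ 2)
    (hB : PL q (fun ω => min ((M.cv D i ω x).card : ℝ) k) ≤ CB * k / M.l ^ 2)
    (hA : 2 * c + b * (1 + 4 * κ * K.Δ) ≤ A) :
    PL q (fun ω => ind (A * (k / M.l ^ 4) ≤ sumF (fun a s => Y (Wof s) a.piece) (xs M.G D i x k ω))) ≤
      b * (1 + 4 * κ * K.Δ * CB) / c / M.l ^ 2 * Real.exp (-(c * k / M.l ^ 4)) := by
  have l0 := M.l_pos
  have l1 := M.l1
  have k0 : 0 < k := (pow_pos l0 4).trans_le hk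
  have hπ := hL.prob
  obtain ⟨β, hβ⟩ : ∃ β, β = b / M.l ^ 2 := ⟨_, rfl⟩
  obtain ⟨qh, hqh⟩ : ∃ qh, qh = 4 * κ / M.l ^ 2 := ⟨_, rfl⟩
  obtain ⟨j, hj⟩ : ∃ j, j = k / M.l ^ 4 := ⟨_, rfl⟩
  have β0 : 0 ≤ β := by rw [hβ]; positivity
  have qh0 : 0 ≤ qh := by rw [hqh]; positivity
  have j1 : 1 ≤ j := by rw [hj, le_div_iff₀ (by positivity)]; linarith
  rw [← hβ] at hE
  rw [mul_div_assoc c, ← hj]
  set cp : Ent (Sym2 V) V → List (Ent (Sym2 V) V) → ℝ :=
    fun a _ => ind (a.tok = none) * β + ind (a.tok ≠ none) * (qh * β) with hcp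
  have eb : (fun e => (fun b : Bit V => q b.2) ((xproc M.G D i x k).base e)) = fun _ => M.p :=
    funext fun _ => hL.1
  have small : ∀ s o, (xproc M.G D i x k).next s = some o → ((Wof s).card : ℝ) < k := by
    intro s o h
    rcases xproc_next (G := M.G) (D := D) (i := i) (x := x) (k := k) s with h1 | h1 | h1
    · rw [h1.1]; simpa [Wof] using k0
    · exact h1.2.1
    · rw [h1.2.2] at h; cases h
  have key : ∀ (s : List (Ent (Sym2 V) V)) (z : V) (y : ℝ), Wof s ⊆ D → ((Wof s).card : ℝ) < k →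
      EC M.G (fun _ => M.p) (D \ Wof s) z (fun C => Real.exp (Y (Wof s) C + -1 * y)) ≤
        (1 + β) * Real.exp (-y) := by
    intro s z y h1 h2
    simp only [Real.exp_add, EC, neg_one_mul]
    rw [PE_mul_right]
    exact mul_le_mul_of_nonneg_right (hE _ h1 h2 z) (Real.exp_pos _).le
  have sup := Proc.super_exp (xproc_ok M.G D i x k) hπ (fun s => Wof s ⊆ D)
    (fun a s => Y (Wof s) a.piece + -1 * cp a s) (fun ω n => (Proc.disj_run _ ω n).2)
    (fun s z hs h => by
      rw [eb]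
      have e : ∀ C, cp ⟨none, z, true, C⟩ s = β := fun C => by
        simp only [hcp, ind_pos trivial, ne_eq, not_true, ind_neg not_false]; ring
      simp only [e]
      exact (key s z β hs (small s _ h)).trans (one_add_le le_rfl))
    (fun s t z hs h => by
      rw [eb]
      have e : ∀ o C, cp ⟨some t, z, o, C⟩ s = qh * β := fun o C => by
        simp only [hcp]
        rw [ind_neg (by simp), ind_pos (by simp)]; ring
      simp only [e, Ye, zero_add]
      have a1 : 1 - ∏ b ∈ (xproc M.G D i x k).bits t, (1 - q b.2) ≤ qh := by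
        have : ∏ b ∈ (xproc M.G D i x k).bits t, (1 - q b.2) = _ := prod_lbits q i t
        rw [this]
        refine (prod_ge _ q hL.2.1).trans ?_
        refine (sum_le_card_nsmul _ _ (κ / M.l ^ 2) fun j hj =>
          hL.2.2 j (mem_Ioc.1 hj).1 (mem_Ioc.1 hj).2).trans ?_
        have : ((Ioc (0 : Fin 5) i).card : ℝ) ≤ 4 := by
          rw [Fin.card_Ioc]; exact_mod_cast (by omega : (i : ℕ) - (0 : Fin 5) ≤ 4)
        rw [nsmul_eq_mul, hqh, mul_div_assoc]
        exact mul_le_mul_of_nonneg_right this (by positivity)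
      have a2 : ∏ b ∈ (xproc M.G D i x k).bits t, (1 - q b.2) ≤ 1 :=
        prod_le_one (fun j _ => by linarith [hL.2.1 j.2]) fun j _ => by linarith [hL.2.1 j.2]
      have a3 := mul_le_mul_of_nonneg_left (key s z (qh * β) hs (small s _ h)) (sub_nonneg.2 a2)
      have a4 := one_add_le (mul_le_mul_of_nonneg_right a1 β0)
      refine le_trans (add_le_add_left a3 _) (le_of_eq_of_le ?_ a4)
      rw [neg_one_mul]; ring)
    (Fintype.card (Sym2 V) + 1)
  have comp : ∀ ω, sumF cp (xs M.G D i x k ω) ≤ β + K.Δ * (qh * β) * min ((M.cv D i ω x).card : ℝ) k := by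
    intro ω
    obtain ⟨h1, -, -, -, h2, W', h3, h4, h5⟩ := hXB V M.G K.Δ M.deg D i x k k0 ω
    have a1 := h2 fun _ => β
    have a2 := h5 (fun _ => qh * β) (fun _ => qh * β) (fun _ => by positivity) fun _ _ _ => le_rfl
    rw [sum_const, nsmul_eq_mul] at a2
    have a3 : (W'.card : ℝ) ≤ min ((M.cv D i ω x).card : ℝ) k :=
      le_min (Nat.cast_le.2 (card_le_card (h3.trans h1))) h4.le
    have a4 := mul_le_mul_of_nonneg_left a3 (by positivity : 0 ≤ K.Δ * (qh * β))
    rw [hcp, sumF_add, a1]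
    linarith
  have ex : ∀ ω, sumF (fun a s => Y (Wof s) a.piece + -1 * cp a s) (xs M.G D i x k ω) =
      sumF (fun a s => Y (Wof s) a.piece) (xs M.G D i x k ω) - sumF cp (xs M.G D i x k ω) := fun ω => by
    rw [sumF_add, sumF_mul]; ring
  have cj : 0 < c * j := by positivity
  have m1 := PE_M1 hπ sup (t := Real.exp (2 * (c * j))) (Real.one_lt_exp_iff.2 (by positivity))
  have βb : β ≤ b := by rw [hβ]; exact div_le_self b0 (one_le_pow₀ l1)
  have e1 : K.Δ * (qh * β) * k = 4 * κ * K.Δ * b * j := by rw [hqh, hβ, hj]; field_simp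
  have s1 : PL q (fun ω => ind (A * j ≤ sumF (fun a s => Y (Wof s) a.piece) (xs M.G D i x k ω))) ≤ _ :=
    (PE_ind_mono hπ fun ω h => by
      refine Real.exp_le_exp.2 (le_of_le_of_eq ?_ (ex ω).symm)
      have a1 := comp ω
      have a2 := mul_le_mul_of_nonneg_left (min_le_right ((M.cv D i ω x).card : ℝ) k)
        (by positivity : 0 ≤ K.Δ * (qh * β))
      have a3 := mul_le_mul_of_nonneg_right hA (by linarith : 0 ≤ j)
      nlinarith).trans m1
  have s2 : PE univ (fun b : Bit V => q b.2) (fun ω => max (1 - Real.exp (sumF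
      (fun a s => Y (Wof s) a.piece + -1 * cp a s) (xs M.G D i x k ω))) 0) ≤
      β + K.Δ * (qh * β) * (CB * k / M.l ^ 2) := by
    refine (PE_mono hπ (g := fun ω => β + K.Δ * (qh * β) * min ((M.cv D i ω x).card : ℝ) k)
      fun ω => max_le ?_ (by positivity)).trans ?_
    · have a1 := comp ω
      have a2 := sumF_nonneg (F := fun a s => Y (Wof s) a.piece) (fun _ _ => Y0 _ _) (xs M.G D i x k ω)
      have a3 := Real.add_one_le_exp (sumF (fun a s => Y (Wof s) a.piece + -1 * cp a s) (xs M.G D i x k ω))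
      linarith [ex ω]
    · rw [PE_add, PE_const, PE_mul_left]
      exact add_le_add_right (mul_le_mul_of_nonneg_left hB (by positivity)) _
  have s3 : β + K.Δ * (qh * β) * (CB * k / M.l ^ 2) ≤ b * (1 + 4 * κ * K.Δ * CB) / M.l ^ 2 * j := by
    have : K.Δ * (qh * β) * (CB * k / M.l ^ 2) = β * (4 * κ * K.Δ * CB) * j := by
      rw [hqh, hj]; field_simp
    have e2 : b * (1 + 4 * κ * K.Δ * CB) / M.l ^ 2 * j = β * j + β * (4 * κ * K.Δ * CB) * j := by
      rw [hβ]; ring
    nlinarith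
  have s4 : c * j * Real.exp (c * j) ≤ Real.exp (2 * (c * j)) - 1 := by
    have a1 := Real.add_one_le_exp (c * j)
    rw [two_mul, Real.exp_add]
    nlinarith [Real.exp_pos (c * j)]
  refine s1.trans ((div_le_div₀ (by positivity) (s2.trans s3) (by positivity) s4).trans_eq ?_)
  rw [Real.exp_neg]
  field_simp

end XT

open XT in
theorem st_XT (hXB : St_XB) (hBIG : St_BIG) (hKER : St_KER) : St_XT := by
  intro K κ hκ
  obtain ⟨CB, l₀, CB0, hB⟩ := hBIG K κ hκ
  obtain ⟨Λ, hΛ, hK⟩ := hKER K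
  have Λ1 : 1 ≤ Λ := K.hC.trans hΛ
  obtain ⟨L, hLd⟩ : ∃ L : ℝ, L = 1 + 4 * κ * K.Δ := ⟨_, rfl⟩
  have L1 : 1 ≤ L := by rw [hLd]; exact le_add_of_nonneg_right (by positivity)
  refine ⟨4 * Λ * L, by nlinarith, fun η hη => ?_⟩
  obtain ⟨τ, hτ⟩ : ∃ τ : ℝ, τ = 1 / (2 * Λ ^ 2) := ⟨_, rfl⟩
  have τ0 : 0 < τ := by rw [hτ]; positivity
  obtain ⟨lam, lam0, lam1, lam2⟩ : ∃ lam : ℝ, 0 < lam ∧ lam ≤ 1 / 2 ∧ lam ≤ η / (96 * L * Λ) :=
    ⟨min (1 / 2) _, lt_min (by norm_num) (by positivity), min_le_left _ _, min_le_right _ _⟩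
  obtain ⟨c, c0, c1, c2⟩ : ∃ c : ℝ, 0 < c ∧ c ≤ τ * Λ * L ∧ c ≤ lam * τ * η / 4 :=
    ⟨min _ _, lt_min (by positivity) (by positivity), min_le_left _ _, min_le_right _ _⟩
  refine ⟨η / (6 * L), 6 * L * Λ / η, c,
    2 * τ * Λ * (1 + 4 * κ * K.Δ * CB) / c + lam * τ * η / (2 * L) * (1 + 4 * κ * K.Δ * CB) / c, l₀,
    by positivity, by positivity, c0, by positivity, ?_⟩
  intro V _ _ M i q hL hl D x k hk DD hDD
  have l0 := M.l_pos
  have hπ := hL.prob
  obtain ⟨K1, K2, -⟩ := hK V M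
  have hB2 := (hB V M i q hL hl D x).2 k hk
  have t0 : 0 ≤ τ / M.l ^ 4 := by positivity
  have E1 : ∀ (D' : Finset V) z, M.EB D' z (fun C => Real.exp (τ / M.l ^ 4 * C.card)) ≤
      1 + 2 * τ * Λ / M.l ^ 2 := fun D' z =>
    (K1 D' z _ t0 (le_of_eq (by rw [hτ]; field_simp))).trans_eq (by field_simp)
  have g1 := gen hXB M hκ hL D x hk (fun _ C => τ / M.l ^ 4 * C.card) (fun _ _ => by positivity)
    (fun _ => by simp) (b := 2 * τ * Λ) (A := τ * (4 * Λ * L)) (by positivity) c0 CB0.le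
    (fun W _ _ z => E1 _ z) hB2 (by rw [← hLd]; linarith)
  have g2 := gen hXB M hκ hL D x hk
    (fun W C => lam * (τ / M.l ^ 4 * (M.badS (6 * L * Λ / η) DD W C).card)) (fun _ _ => by positivity)
    (fun W => by
      have : M.badS (6 * L * Λ / η) DD W ∅ = ∅ := subset_empty.1 (flt_subset _ _)
      simp [this])
    (b := lam * τ * η / (2 * L)) (A := lam * τ * η) (by positivity) c0 CB0.le
    (fun W hW hc z => by
      have pt : ∀ C : Finset V, Real.exp (lam * (τ / M.l ^ 4 * (M.badS (6 * L * Λ / η) DD W C).card)) ≤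
          1 - 8 * lam ^ 2 + (lam * (τ / M.l ^ 4) * (η / (6 * L * Λ)) * ∑ y ∈ C, M.pot C y +
            (lam * (τ / M.l ^ 4) * ∑ y ∈ C, ind (y ∈ DD W) +
              8 * lam ^ 2 * Real.exp (τ / M.l ^ 4 * C.card))) := by
        intro C
        have a1 := exp_small lam0.le lam1
          (x := τ / M.l ^ 4 * (M.badS (6 * L * Λ / η) DD W C).card) (by positivity)
        have a2 : Real.exp (τ / M.l ^ 4 * (M.badS (6 * L * Λ / η) DD W C).card) ≤
            Real.exp (τ / M.l ^ 4 * C.card) :=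
          Real.exp_le_exp.2 (mul_le_mul_of_nonneg_left (Nat.cast_le.2 (card_le_card (flt_subset _ _))) t0)
        have a3 : ((M.badS (6 * L * Λ / η) DD W C).card : ℝ) ≤
            η / (6 * L * Λ) * ∑ y ∈ C, M.pot C y + ∑ y ∈ C, ind (y ∈ DD W) := by
          rw [Core.badS, card_flt, mul_sum, ← sum_add_distrib]
          refine sum_le_sum fun y _ => (ind_or_le _ _).trans (add_le_add_left ?_ _)
          refine ind_le_of (mul_nonneg (by positivity) (M.pot_nonneg _ _)) fun h => ?_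
          rw [div_lt_iff₀ hη] at h
          rw [div_mul_eq_mul_div, le_div_iff₀ (by positivity)]
          linarith
        have a4 := mul_le_mul_of_nonneg_left a3 (mul_nonneg lam0.le t0)
        have a5 := mul_le_mul_of_nonneg_left a2 (by positivity : 0 ≤ 8 * lam ^ 2)
        linarith
      refine (EC_mono M.prob fun C _ => pt C).trans ?_
      have b1 := (K2 (D \ W) z).2
      have b2 : M.EB (D \ W) z (fun C => ∑ y ∈ C, ind (y ∈ DD W)) ≤ η / (6 * L) * M.l ^ 2 := by
        refine le_trans ?_ (hDD W hW hc z)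
        rw [Core.EB, EC_sum]
        calc _ ≤ ∑ y, ind (y ∈ DD W) * M.tb univ z y :=
              (sum_le_sum fun y _ => by
                rw [mul_comm]
                exact mul_le_mul_of_nonneg_left (tau_mono_dom M.prob (subset_univ _)) (ind_nonneg _)).trans
              (sum_le_sum_of_subset_of_nonneg (subset_univ _) fun y _ _ =>
                mul_nonneg (ind_nonneg _) (M.tb_nonneg _ _ _))
          _ = _ := by
              rw [← sum_flt]
              exact sum_congr (by ext y; simp) fun _ _ => rfl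
      have b3 := E1 (D \ W) z
      simp only [Core.EB, EC] at b1 b2 b3 ⊢
      rw [PE_add, PE_add, PE_add, PE_const, PE_mul_left, PE_mul_left, PE_mul_left]
      have b4 := mul_le_mul_of_nonneg_left b1 (by positivity : 0 ≤ lam * (τ / M.l ^ 4) * (η / (6 * L * Λ)))
      have b5 := mul_le_mul_of_nonneg_left b2 (mul_nonneg lam0.le t0)
      have b6 := mul_le_mul_of_nonneg_left b3 (by positivity : 0 ≤ 8 * lam ^ 2)
      have e4 : lam * (τ / M.l ^ 4) * (η / (6 * L * Λ)) * (Λ * M.l ^ 2) =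
          lam * τ * η / (2 * L) / M.l ^ 2 / 3 := by field_simp; ring
      have e5 : lam * (τ / M.l ^ 4) * (η / (6 * L) * M.l ^ 2) = lam * τ * η / (2 * L) / M.l ^ 2 / 3 := by
        field_simp; ring
      have e6 : 8 * lam ^ 2 * (2 * τ * Λ / M.l ^ 2) ≤ lam * τ * η / (2 * L) / M.l ^ 2 / 3 := by
        have := mul_le_mul_of_nonneg_left lam2 (by positivity : 0 ≤ 16 * lam * τ * Λ / M.l ^ 2)
        refine le_of_eq_of_le (by ring) (this.trans_eq ?_)
        field_simp; ring
      linarith)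
    hB2 (by
      rw [← hLd]
      have : lam * τ * η / (2 * L) * L = lam * τ * η / 2 := by field_simp
      linarith)
  refine le_trans ((PE_ind_mono hπ fun ω h => ?_).trans (PE_ind_or hπ _ _)) ((add_le_add g1 g2).trans_eq (by ring))
  refine h.imp (fun h => ?_) fun h => ?_
  · have a1 : ((xw M.G D i x k ω).card : ℝ) = sumF (fun a _ => (a.piece.card : ℝ)) (xs M.G D i x k ω) := by
      have := (Proc.disj_run (xproc M.G D i x k) ω (Fintype.card (Sym2 V) + 1)).1.sum_Wof fun _ => (1:ℝ)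
      simp only [sum_const, nsmul_eq_mul, mul_one] at this
      exact this
    rw [sumF_mul, ← a1]
    exact le_of_eq_of_le (by ring) (mul_le_mul_of_nonneg_left h.le t0)
  · rw [sumF_mul, sumF_mul]
    have := mul_le_mul_of_nonneg_left (mul_le_mul_of_nonneg_left
      (h.le.trans (card_marked_le _ _)) t0) lam0.le
    exact le_of_eq_of_le (by ring) this

end Pool.Agent.TPC
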