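import Pool.Agent.Lib.TPC.BlueC

/-! Block XZ: potential collected by the single-root exploration. -/

open Finset

set_option linter.unusedSectionVars false

namespace Pool.Agent.TPC

namespace XZ

lemma one_sub_prod_le {α : Type} (s : Finset α) (f : α → ℝ) (r : ℝ)
    (h : ∀ j ∈ s, 0 ≤ f j ∧ f j ≤ 1 ∧ f j ≤ r) : 1 - ∏ j ∈ s, (1 - f j) ≤ s.card * r := by
  classical
  induction s using Finset.induction_on with
  | empty => simp
  | insert a s ha ih =>
    rw [Finset.prod_insert ha, Finset.card_insert_of_notMem ha]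
    have h1 := ih fun j hj => h j (Finset.mem_insert_of_mem hj)
    obtain ⟨h2, h3, h4⟩ := h a (Finset.mem_insert_self _ _)
    have h5 : ∏ j ∈ s, (1 - f j) ≤ 1 := Finset.prod_le_one
      (fun j hj => by linarith [(h j (Finset.mem_insert_of_mem hj)).2.1])
      (fun j hj => by linarith [(h j (Finset.mem_insert_of_mem hj)).1])
    push_cast
    nlinarith

lemma exp_sub_one_ge {u : ℝ} (hu : 0 ≤ u) : u / 2 * Real.exp (u / 2) ≤ Real.exp u - 1 := by
  have h1 : Real.exp u = Real.exp (u / 2) * Real.exp (u / 2) := by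
    rw [← Real.exp_add]; congr 1; ring
  have h2 := Real.add_one_le_exp (u / 2)
  rw [h1]
  nlinarith

lemma exp_small {u ε : ℝ} (hu : 0 ≤ u) (h0 : 0 ≤ ε) (h1 : ε ≤ 1 / 2) :
    Real.exp (ε * u) ≤ 1 + ε * u + 8 * ε ^ 2 * (Real.exp u - 1) := by
  have hv : 0 ≤ ε * u := mul_nonneg h0 hu
  have a1 : Real.exp (ε * u) - 1 ≤ ε * u * Real.exp (ε * u) := by
    have := Real.add_one_le_exp (-(ε * u))
    have h2 : Real.exp (-(ε * u)) * Real.exp (ε * u) = 1 := by rw [← Real.exp_add]; simp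
    have h3 := Real.exp_pos (ε * u)
    nlinarith
  have a2 : Real.exp (ε * u) - 1 - ε * u ≤ (ε * u) ^ 2 * Real.exp (ε * u) := by nlinarith
  have a3 : Real.exp (ε * u) ≤ Real.exp (u / 2) := Real.exp_le_exp.2 (by nlinarith)
  have a4 : u ^ 2 * Real.exp (u / 2) ≤ 8 * (Real.exp u - 1) := by
    have h2 : Real.exp u = Real.exp (u / 2) * Real.exp (u / 2) := by
      rw [← Real.exp_add]; congr 1; ring
    have h3 := Real.quadratic_le_exp_of_nonneg (x := u / 2) (by linarith)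
    have h4 := Real.exp_pos (u / 2)
    rw [h2]
    nlinarith
  have a5 : (ε * u) ^ 2 * Real.exp (ε * u) ≤ ε ^ 2 * (u ^ 2 * Real.exp (u / 2)) := by
    rw [mul_pow, mul_assoc]
    exact mul_le_mul_of_nonneg_left (mul_le_mul_of_nonneg_left a3 (sq_nonneg _)) (sq_nonneg _)
  have a6 := mul_le_mul_of_nonneg_left a4 (sq_nonneg ε)
  linarith

variable {K : Kc} {V : Type} [Fintype V] [DecidableEq V]

/-- the compensator of one piece -/
noncomputable def hh (M : Core K V) (a : Finset V) (η : ℝ) (z : V) : ℝ :=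
  M.l ^ 2 * (2 * η * M.pot a z + (K.Cs η + 1) * (M.f0 * a.card))

lemma fa_nonneg (M : Core K V) (a : Finset V) : 0 ≤ M.f0 * a.card :=
  mul_nonneg M.f0_pos.le (Nat.cast_nonneg _)

lemma hh_nonneg (M : Core K V) (a : Finset V) {η : ℝ} (hη : 0 < η) (z : V) : 0 ≤ hh M a η z := by
  have := M.pot_nonneg a z
  have := fa_nonneg M a
  have := K.hCs η
  unfold hh; positivity

lemma hh_le (M : Core K V) (a : Finset V) {η : ℝ} (hη1 : η ≤ 1) (z : V) :
    hh M a η z ≤ (K.Cs η + 2) * (M.l ^ 2 * M.Wp a z) := by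
  have h1 := M.pot_nonneg a z
  have h2 := fa_nonneg M a
  have h3 := K.hCs η
  have h4 : 2 * η * M.pot a z + (K.Cs η + 1) * (M.f0 * a.card) ≤ (K.Cs η + 2) * M.Wp a z := by
    unfold Core.Wp; nlinarith
  have := mul_le_mul_of_nonneg_left h4 (sq_nonneg M.l)
  unfold hh; linarith

lemma mean_piece (M : Core K V) {U D : Finset V} (hU : M.Small U) (hD : D ⊆ U) (a : Finset V)
    {η : ℝ} (hη : 0 < η) (z : V) :
    M.EB D z (fun C => ∑ y ∈ C, M.pot a y) ≤
      M.l ^ 2 * (η * M.pot a z + K.Cs η * (M.f0 * a.card)) := by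
  unfold Core.EB
  rw [EC_sum]
  calc ∑ y ∈ D, tau M.G (fun _ => M.p) D z y * M.pot a y ≤ ∑ y ∈ D, M.g z y * M.pot a y :=
        Finset.sum_le_sum fun y _ => mul_le_mul_of_nonneg_right (M.tb_le D z y) (M.pot_nonneg _ _)
    _ ≤ ∑ y ∈ U, M.g z y * M.pot a y := Finset.sum_le_sum_of_subset_of_nonneg hD fun y _ _ =>
        mul_nonneg (M.g_nonneg _ _) (M.pot_nonneg _ _)
    _ = ∑ b ∈ a, ∑ y ∈ U, M.g z y * M.g y b := by
        simp only [Core.pot, Finset.mul_sum]; rw [Finset.sum_comm]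
    _ ≤ ∑ b ∈ a, M.l ^ 2 * (η * M.g z b + K.Cs η * M.f0) :=
        Finset.sum_le_sum fun b _ => hU.r2 η hη z b
    _ = _ := by
        rw [← Finset.mul_sum, Finset.sum_add_distrib, ← Finset.mul_sum, Finset.sum_const,
          nsmul_eq_mul]
        unfold Core.pot; ring

lemma mean_hh (M : Core K V) {U D : Finset V} (hU : M.Small U) (hD : D ⊆ U) (a : Finset V)
    {η : ℝ} (hη : 0 < η) (z : V) : M.EB D z (fun C => ∑ y ∈ C, M.pot a y) ≤ hh M a η z := by
  refine (mean_piece M hU hD a hη z).trans (mul_le_mul_of_nonneg_left ?_ (sq_nonneg _))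
  have := mul_nonneg hη.le (M.pot_nonneg a z)
  have := fa_nonneg M a
  nlinarith

lemma exp_hh (M : Core K V) {U D : Finset V} (hU : M.Small U) (hD : D ⊆ U) (a : Finset V)
    {η Λ t₀ : ℝ} (hη : 0 < η) (hη1 : η ≤ 1) (hΛ : 1 ≤ Λ) (ht : 0 ≤ t₀) (z : V)
    (hE : M.EB D z (fun C => Real.exp (t₀ * ∑ y ∈ C, M.pot a y)) ≤
      1 + 2 * t₀ * Λ * M.l ^ 2 * M.Wp a z) :
    M.EB D z (fun C => Real.exp (η / (16 * Λ) * t₀ * ∑ y ∈ C, M.pot a y)) ≤
      1 + η / (16 * Λ) * t₀ * hh M a η z := by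
  have hΛ0 : 0 < Λ := by linarith
  set ε := η / (16 * Λ) with hε
  have hε0 : 0 ≤ ε := by positivity
  have hε1 : ε ≤ 1 / 2 := by
    rw [hε, div_le_iff₀ (by positivity)]; nlinarith
  have hεΛ : ε * (16 * Λ) = η := div_mul_cancel₀ _ (by positivity)
  have h1 : M.EB D z (fun C => Real.exp (ε * t₀ * ∑ y ∈ C, M.pot a y)) ≤
      M.EB D z (fun C => (1 - 8 * ε ^ 2) + ε * t₀ * ∑ y ∈ C, M.pot a y +
        8 * ε ^ 2 * Real.exp (t₀ * ∑ y ∈ C, M.pot a y)) := by
    refine EC_mono M.prob fun C _ => ?_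
    have := exp_small (u := t₀ * ∑ y ∈ C, M.pot a y)
      (mul_nonneg ht (Finset.sum_nonneg fun y _ => M.pot_nonneg _ _)) hε0 hε1
    rw [mul_assoc]
    linarith
  have h2 := mean_piece M hU hD a hη z
  unfold Core.EB EC at *
  rw [PE_add, PE_add, PE_const, PE_mul_left, PE_mul_left] at h1
  have h3 := mul_le_mul_of_nonneg_left h2 (mul_nonneg hε0 ht)
  have h4 := mul_le_mul_of_nonneg_left hE (by positivity : 0 ≤ 8 * ε ^ 2)
  have h5 : 8 * ε ^ 2 * (1 + 2 * t₀ * Λ * M.l ^ 2 * M.Wp a z) =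
      8 * ε ^ 2 + ε * t₀ * (M.l ^ 2 * (η * M.Wp a z)) := by rw [← hεΛ]; ring
  have h6 : M.l ^ 2 * (η * M.pot a z + K.Cs η * (M.f0 * a.card)) + M.l ^ 2 * (η * M.Wp a z) ≤
      hh M a η z := by
    unfold hh Core.Wp
    rw [← mul_add]
    refine mul_le_mul_of_nonneg_left ?_ (sq_nonneg _)
    have := fa_nonneg M a
    nlinarith
  have h7 := mul_le_mul_of_nonneg_left h6 (mul_nonneg hε0 ht)
  linarith

/-- the compensated increment -/
noncomputable def FF (w h : V → ℝ) (r : ℝ) (e : Ent (Sym2 V) V) (_ : List (Ent (Sym2 V) V)) : ℝ :=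
  (∑ y ∈ e.piece, w y + (-1) * (ind (e.tok = none) * h e.z)) + (-r) * (ind (e.tok ≠ none) * h e.z)

lemma FF_root (w h : V → ℝ) (r : ℝ) (z : V) (b : Bool) (C : Finset V) (s : List (Ent (Sym2 V) V)) :
    FF w h r ⟨none, z, b, C⟩ s = ∑ y ∈ C, w y - h z := by
  simp only [FF]
  rw [ind_pos trivial, ind_neg (by simp)]; ring

lemma FF_tok (w h : V → ℝ) (r : ℝ) (t : Sym2 V) (z : V) (b : Bool) (C : Finset V)
    (s : List (Ent (Sym2 V) V)) : FF w h r ⟨some t, z, b, C⟩ s = ∑ y ∈ C, w y - r * h z := by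
  simp only [FF]
  rw [ind_neg (by simp), ind_pos (by simp)]; ring

lemma succ_le (M : Core K V) {κ : ℝ} (hκ : 0 ≤ κ) {i : Fin 5} {q : Fin 5 → ℝ} (hq : M.Lv κ i q)
    (t : Sym2 V) : 0 ≤ 1 - ∏ b ∈ lbits i t, (1 - q b.2) ∧
      1 - ∏ b ∈ lbits i t, (1 - q b.2) ≤ 4 * κ / M.l ^ 2 := by
  rw [prod_lbits]
  constructor
  · have := Finset.prod_le_one (s := Finset.Ioc 0 i) (f := fun j => 1 - q j)
      (fun j _ => by linarith [(hq.2.1 j).2]) (fun j _ => by linarith [(hq.2.1 j).1])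
    linarith
  · have h1 := one_sub_prod_le (Finset.Ioc 0 i) q (κ / M.l ^ 2) fun j hj =>
      ⟨(hq.2.1 j).1, (hq.2.1 j).2, hq.2.2 j (Finset.mem_Ioc.1 hj).1 (Finset.mem_Ioc.1 hj).2⟩
    have h2 : ((Finset.Ioc 0 i).card : ℝ) ≤ 4 := by
      have : (Finset.Ioc 0 i).card ≤ 4 := by rw [Fin.card_Ioc]; omega
      exact_mod_cast this
    have h3 : 0 ≤ κ / M.l ^ 2 := by positivity
    have h4 := mul_le_mul_of_nonneg_right h2 h3
    rw [mul_div_assoc]; linarith

lemma lin (M : Core K V) {κ : ℝ} (hκ : 0 ≤ κ) {i : Fin 5} {q : Fin 5 → ℝ} (hq : M.Lv κ i q)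
    (D : Finset V) (x : V) (k : ℝ) (w h : V → ℝ) (h0 : ∀ z, 0 ≤ h z)
    (hm : ∀ D' : Finset V, D' ⊆ D → ∀ z, M.EB D' z (fun C => ∑ y ∈ C, w y) ≤ h z) :
    PL q (fun ω => sumF (FF w h (4 * κ / M.l ^ 2)) (xs M.G D i x k ω)) ≤ 0 := by
  refine Proc.super_lin (xproc_ok M.G D i x k) hq.prob (fun _ => True) _ (fun _ _ => trivial)
    (fun s z _ _ => ?_) (fun s t z _ _ => ?_) _
  · have := hm (D \ Wof s) Finset.sdiff_subset z
    simp only [FF_root, xproc, hq.1]
    unfold Core.EB EC at *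
    rw [PE_sub, PE_const]; linarith
  · have h1 := hm (D \ Wof s) Finset.sdiff_subset z
    obtain ⟨h2, h3⟩ := succ_le M hκ hq t
    simp only [FF_tok, xproc, hq.1, Finset.sum_empty]
    unfold Core.EB EC at *
    rw [PE_sub, PE_const]
    have h4 := mul_le_mul_of_nonneg_left h1 h2
    have h5 := mul_le_mul_of_nonneg_right h3 (h0 z)
    nlinarith

lemma expo (M : Core K V) {κ : ℝ} (hκ : 0 ≤ κ) {i : Fin 5} {q : Fin 5 → ℝ} (hq : M.Lv κ i q)
    (D : Finset V) (x : V) (k : ℝ) (w h : V → ℝ) (h0 : ∀ z, 0 ≤ h z) {t : ℝ} (ht : 0 ≤ t)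
    (hm : ∀ D' : Finset V, D' ⊆ D → ∀ z,
      M.EB D' z (fun C => Real.exp (t * ∑ y ∈ C, w y)) ≤ 1 + t * h z) :
    PL q (fun ω => Real.exp (t * sumF (FF w h (4 * κ / M.l ^ 2)) (xs M.G D i x k ω))) ≤ 1 := by
  simp only [← sumF_mul]
  refine Proc.super_exp (xproc_ok M.G D i x k) hq.prob (fun _ => True) _ (fun _ _ => trivial)
    (fun s z _ _ => ?_) (fun s e z _ _ => ?_) _
  · have h1 := hm (D \ Wof s) Finset.sdiff_subset z
    simp only [FF_root, xproc, hq.1, mul_sub, Real.exp_sub]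
    unfold Core.EB EC at *
    rw [PE_div, div_le_one (Real.exp_pos _)]
    linarith [Real.add_one_le_exp (t * h z)]
  · have h1 := hm (D \ Wof s) Finset.sdiff_subset z
    obtain ⟨h2, h3⟩ := succ_le M hκ hq e
    simp only [FF_tok, xproc, hq.1, Finset.sum_empty, mul_sub, Real.exp_sub, mul_zero,
      Real.exp_zero]
    unfold Core.EB EC at *
    rw [PE_div, ← mul_div_assoc, ← mul_div_assoc, ← add_div, div_le_one (Real.exp_pos _)]
    have h4 := mul_le_mul_of_nonneg_left h1 h2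
    have h5 := mul_le_mul_of_nonneg_right h3 (mul_nonneg ht (h0 z))
    have h6 := Real.add_one_le_exp (t * (4 * κ / M.l ^ 2 * h z))
    nlinarith

/-- the compensator is at most half of the collected potential plus small terms -/
lemma comp_le (hXB : St_XB) (M : Core K V) {κ η : ℝ} (hκ : 0 ≤ κ) (hη : 0 < η)
    (hηκ : 8 * κ * K.Δ * K.C * η ≤ 1 / 2) (i : Fin 5) (D : Finset V) (x : V) {k : ℝ} (hk : 0 < k)
    (a : Finset V) (ω : Finset (Bit V)) :
    (∑ y ∈ xw M.G D i x k ω, M.pot a y) / 2 - hh M a η x -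
      4 * κ * K.Δ * (K.Cs η + 1) * (M.f0 * a.card) * min ((M.cv D i ω x).card : ℝ) k ≤
      sumF (FF (M.pot a) (hh M a η) (4 * κ / M.l ^ 2)) (xs M.G D i x k ω) := by
  obtain ⟨h1, -, -, -, h2, W', h3, h4, h5⟩ := hXB V M.G K.Δ M.deg D i x k hk ω
  have hd : Disj (xs M.G D i x k ω) := (Proc.disj_run _ _ _).1
  have e : sumF (FF (M.pot a) (hh M a η) (4 * κ / M.l ^ 2)) (xs M.G D i x k ω) =
      ∑ y ∈ xw M.G D i x k ω, M.pot a y - hh M a η x - 4 * κ / M.l ^ 2 *
        sumF (fun e _ => ind (e.tok ≠ none) * hh M a η e.z) (xs M.G D i x k ω) := by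
    unfold FF
    rw [sumF_add, sumF_add, sumF_mul, sumF_mul, h2 (hh M a η), ← hd.sum_Wof]
    unfold xw; ring
  have hfa := fa_nonneg M a
  have hCs := K.hCs η
  have hC := K.hC
  have hl := M.l_pos
  have h6 := h5 (hh M a η)
    (fun b => M.l ^ 2 * (2 * η * (K.C * M.pot a b) + (K.Cs η + 1) * (M.f0 * a.card)))
    (fun b => by have := M.pot_nonneg a b; positivity)
    (fun b z hbz => by
      have := M.pot_nbr a hbz
      unfold hh; gcongr)
  rw [← Finset.mul_sum, Finset.sum_add_distrib, ← Finset.mul_sum, ← Finset.mul_sum,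
    Finset.sum_const, nsmul_eq_mul] at h6
  have h7 : ∑ b ∈ W', M.pot a b ≤ ∑ y ∈ xw M.G D i x k ω, M.pot a y :=
    Finset.sum_le_sum_of_subset_of_nonneg h3 fun _ _ _ => M.pot_nonneg _ _
  have h8 : (W'.card : ℝ) ≤ min ((M.cv D i ω x).card : ℝ) k :=
    le_min (by exact_mod_cast Finset.card_le_card (h3.trans h1)) h4.le
  have h9 := mul_le_mul_of_nonneg_left h6 (by positivity : 0 ≤ 4 * κ / M.l ^ 2)
  have e2 : 4 * κ / M.l ^ 2 * (K.Δ * (M.l ^ 2 * (2 * η * (K.C * ∑ b ∈ W', M.pot a b) +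
      W'.card * ((K.Cs η + 1) * (M.f0 * a.card))))) =
      8 * κ * K.Δ * K.C * η * ∑ b ∈ W', M.pot a b +
        4 * κ * K.Δ * (K.Cs η + 1) * (M.f0 * a.card) * W'.card := by
    field_simp
    ring
  have h10 : 8 * κ * K.Δ * K.C * η * ∑ b ∈ W', M.pot a b ≤ 1 / 2 * ∑ b ∈ W', M.pot a b :=
    mul_le_mul_of_nonneg_right hηκ (Finset.sum_nonneg fun _ _ => M.pot_nonneg _ _)
  have h11 := mul_le_mul_of_nonneg_left h8
    (by positivity : 0 ≤ 4 * κ * K.Δ * (K.Cs η + 1) * (M.f0 * a.card))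
  rw [e]
  linarith

end XZ

open XZ in
theorem st_XZ (hXB : St_XB) (hBIG : St_BIG) (hKER : St_KER) : St_XZ := by
  intro K κ hκ
  obtain ⟨CB, lB, hCB, hB⟩ := hBIG K κ hκ
  obtain ⟨Λ, hΛ, hK⟩ := hKER K
  have hC := K.hC
  have hΛ1 : 1 ≤ Λ := hC.trans hΛ
  have hΔ : (0 : ℝ) ≤ K.Δ := Nat.cast_nonneg _
  obtain ⟨η, hη, hη1, hηκ⟩ : ∃ η : ℝ, 0 < η ∧ η ≤ 1 ∧ 8 * κ * K.Δ * K.C * η ≤ 1 / 2 := by
    have h0 : 0 ≤ 8 * κ * K.Δ * K.C := by positivity
    refine ⟨1 / (2 * (8 * κ * K.Δ * K.C) + 1), by positivity, ?_, ?_⟩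
    · rw [div_le_one (by positivity)]; linarith
    · rw [mul_one_div, div_le_iff₀ (by positivity)]; linarith
  have hCs := K.hCs η
  set A : ℝ := 4 * κ * K.Δ * (K.Cs η + 1) with hA
  have hA0 : 0 ≤ A := by positivity
  refine ⟨2 * (K.Cs η + 2) + 2 * (A * CB) + 2 * (2 + A), by positivity, fun S hS => ?_⟩
  set c : ℝ := η / (16 * Λ) / (2 * Λ ^ 2 * S) with hc
  have hc0 : 0 < c := by positivity
  refine ⟨c / 2, 2 * ((K.Cs η + 2) * S + A * CB), max lB ((K.Cs η + 2) * S), by positivity,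
    by positivity, ?_⟩
  intro V _ _ M i q hq hl U D hU hD x k hk hkU a ha
  have hl0 := M.l_pos
  have hl1 := M.l1
  have hk0 : 0 < k := lt_of_lt_of_le (by positivity) hk
  have hfa := fa_nonneg M a
  have hf0 := M.f0_pos
  have hfk : M.f0 * k ≤ 1 := by
    rw [← M.f0_mul_U]; exact mul_le_mul_of_nonneg_left hkU hf0.le
  have hmin := (hB V M i q hq ((le_max_left _ _).trans hl) D x).2 k hk
  have hcomp := comp_le hXB M hκ hη hηκ i D x hk0 a
  have hhx := hh_le M a hη1 x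
  have hcard : (0 : ℝ) ≤ a.card := Nat.cast_nonneg _
  have hAm : A * (M.f0 * a.card) * PL q (fun ω => min ((M.cv D i ω x).card : ℝ) k) ≤
      A * CB * (a.card / M.l ^ 2) := by
    calc A * (M.f0 * a.card) * PL q (fun ω => min ((M.cv D i ω x).card : ℝ) k)
        ≤ A * (M.f0 * a.card) * (CB * k / M.l ^ 2) :=
          mul_le_mul_of_nonneg_left hmin (by positivity)
      _ = A * CB * (a.card / M.l ^ 2) * (M.f0 * k) := by ring
      _ ≤ _ := mul_le_of_le_one_right (by positivity) hfk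
  constructor
  · have h1 := lin M hκ hq D x k (M.pot a) (hh M a η) (hh_nonneg M a hη)
      fun D' hD' z => mean_hh M hU (hD'.trans hD) a hη z
    have h2 := PE_mono (E := univ) hq.prob hcomp
    rw [PE_sub, PE_sub, PE_div, PE_const, PE_mul_left] at h2
    unfold PL at *
    have h3 : 0 ≤ M.l ^ 2 * M.Wp a x := mul_nonneg (sq_nonneg _) (M.Wp_nonneg _ _)
    have h4 : 0 ≤ (a.card : ℝ) / M.l ^ 2 := by positivity
    have h5 : 0 ≤ A * CB := by positivity
    nlinarith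
  · intro hal
    set t₀ : ℝ := 1 / (2 * Λ ^ 2 * M.l ^ 4 * S) with ht₀
    have ht0 : 0 < t₀ := by positivity
    have ht1 : 2 * t₀ * Λ ^ 2 * M.l ^ 4 * S ≤ 1 := by
      rw [ht₀]; apply le_of_eq; field_simp
    have htc : η / (16 * Λ) * t₀ = c / M.l ^ 4 := by
      rw [ht₀, hc]; field_simp
    have hexp := expo M hκ hq D x k (M.pot a) (hh M a η) (hh_nonneg M a hη)
      (t := η / (16 * Λ) * t₀) (by positivity) fun D' hD' z =>
        exp_hh M hU (hD'.trans hD) a hη hη1 hΛ1 ht0.le z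
          ((((hK V M).2.2 U hU).2 a).2.2 S t₀ ha ht0.le ht1 D' (hD'.trans hD) z)
    rw [htc] at hexp
    set t : ℝ := c / M.l ^ 4 with ht
    have ht' : 0 < t := by positivity
    have hu : c ≤ t * a.card := by
      rw [ht, div_mul_eq_mul_div, le_div_iff₀ (by positivity)]
      exact mul_le_mul_of_nonneg_left hal hc0.le
    have hu0 : 0 < t * a.card := hc0.trans_le hu
    have hhS : hh M a η x ≤ (K.Cs η + 2) * S * M.l ^ 2 := by
      have := mul_le_mul_of_nonneg_left (ha x) (by positivity : 0 ≤ (K.Cs η + 2) * M.l ^ 2)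
      linarith
    have hha : hh M a η x ≤ a.card := by
      have h1 : (K.Cs η + 2) * S ≤ M.l ^ 2 := ((le_max_right _ _).trans hl).trans (by nlinarith)
      have h2 := mul_le_mul_of_nonneg_right h1 (sq_nonneg M.l)
      have h3 : M.l ^ 2 * M.l ^ 2 = M.l ^ 4 := by ring
      linarith
    have hT : 1 < Real.exp (t * a.card) := Real.one_lt_exp_iff.2 hu0
    have hM := PE_M1 hq.prob hexp hT
    have h1 : PL q (fun ω => ind ((2 * (K.Cs η + 2) + 2 * (A * CB) + 2 * (2 + A)) * a.card <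
        ∑ y ∈ xw M.G D i x k ω, M.pot a y)) ≤ PL q (fun ω => ind (Real.exp (t * a.card) ≤
        Real.exp (t * sumF (FF (M.pot a) (hh M a η) (4 * κ / M.l ^ 2)) (xs M.G D i x k ω)))) := by
      refine PE_ind_mono hq.prob fun ω h => Real.exp_le_exp.2 (mul_le_mul_of_nonneg_left ?_ ht'.le)
      refine le_trans ?_ (hcomp ω)
      have h2 : A * (M.f0 * a.card) * min ((M.cv D i ω x).card : ℝ) k ≤ A * a.card :=
        calc A * (M.f0 * a.card) * min ((M.cv D i ω x).card : ℝ) k ≤ A * (M.f0 * a.card) * k :=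
              mul_le_mul_of_nonneg_left (min_le_right _ _) (by positivity)
          _ = A * a.card * (M.f0 * k) := by ring
          _ ≤ _ := mul_le_of_le_one_right (by positivity) hfk
      have h3 : 0 ≤ (K.Cs η + 2) * a.card := by positivity
      have h4 : 0 ≤ A * CB * a.card := by positivity
      linarith
    have h2 : PL q (fun ω => max (1 - Real.exp (t * sumF (FF (M.pot a) (hh M a η)
        (4 * κ / M.l ^ 2)) (xs M.G D i x k ω))) 0) ≤ PL q (fun ω => t * hh M a η x +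
          t * (A * (M.f0 * a.card)) * min ((M.cv D i ω x).card : ℝ) k) := by
      refine PE_mono hq.prob fun ω => ?_
      have h3 := hh_nonneg M a hη x
      have h4 : 0 ≤ min ((M.cv D i ω x).card : ℝ) k := le_min (Nat.cast_nonneg _) hk0.le
      refine max_le ?_ (by positivity)
      have h5 := Real.add_one_le_exp (t * sumF (FF (M.pot a) (hh M a η)
        (4 * κ / M.l ^ 2)) (xs M.G D i x k ω))
      have h6 := mul_le_mul_of_nonneg_left (hcomp ω) ht'.le
      have h7 : 0 ≤ t * ∑ y ∈ xw M.G D i x k ω, M.pot a y :=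
        mul_nonneg ht'.le (Finset.sum_nonneg fun _ _ => M.pot_nonneg _ _)
      linarith
    unfold PL at *
    rw [PE_add, PE_const, PE_mul_left] at h2
    have h3 : t * hh M a η x ≤ (K.Cs η + 2) * S * (t * a.card) / M.l ^ 2 := by
      calc t * hh M a η x ≤ t * ((K.Cs η + 2) * S * M.l ^ 2) :=
            mul_le_mul_of_nonneg_left hhS ht'.le
        _ = (K.Cs η + 2) * S * c / M.l ^ 2 := by rw [ht]; field_simp
        _ ≤ _ := by gcongr
    have h4 := mul_le_mul_of_nonneg_left hAm ht'.le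
    have h5 := exp_sub_one_ge hu0.le
    refine h1.trans (hM.trans ?_)
    rw [div_le_iff₀ (by linarith)]
    have e1 : -(c / 2 * a.card / M.l ^ 4) = -(t * a.card / 2) := by rw [ht]; ring
    have e2 : Real.exp (-(t * a.card / 2)) * Real.exp (t * a.card / 2) = 1 := by
      rw [← Real.exp_add]; simp
    rw [e1]
    have h6 := mul_le_mul_of_nonneg_left h5 (by positivity :
      0 ≤ 2 * ((K.Cs η + 2) * S + A * CB) / M.l ^ 2 * Real.exp (-(t * a.card / 2)))
    have e3 : 2 * ((K.Cs η + 2) * S + A * CB) / M.l ^ 2 * Real.exp (-(t * a.card / 2)) *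
        (t * a.card / 2 * Real.exp (t * a.card / 2)) =
        (K.Cs η + 2) * S * (t * a.card) / M.l ^ 2 + t * (A * CB * (a.card / M.l ^ 2)) := by
      calc _ = ((K.Cs η + 2) * S * (t * a.card) / M.l ^ 2 + t * (A * CB * (a.card / M.l ^ 2))) *
            (Real.exp (-(t * a.card / 2)) * Real.exp (t * a.card / 2)) := by ring
        _ = _ := by rw [e2, mul_one]
    linarith

end Pool.Agent.TPC
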