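import Pool.Agent.Lib.TPC.BlueZ

/-! Block Z1M: lower bound for the sum over the column events. -/

open Finset

namespace Pool.Agent.TPC

open Pool.Agent.Lib.MP_81a99a_pr (lattice)

namespace Z1M

section general

variable {V : Type} [DecidableEq V] {G : SimpleGraph V} {π : Sym2 V → ℝ}

/-- the susceptibility off a set -/
lemma off (h1 : St_PL1) (hπ : Prob π) {Λ Q : Finset V} (hQ : Q ⊆ Λ) (y : V) {b : ℝ}
    (hb : b ≤ chi G π Q y) (hb' : ∀ v, chi G π Q v ≤ b) (A : Finset V) :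
    b * (1 - ∑ v ∈ A, tau G π Λ y v) ≤ ∑ z ∈ Λ, tau G π (Λ \ A) y z := by
  have e1 : ∑ v ∈ A, tau G π Q y v * chi G π Q v ≤ b * ∑ v ∈ A, tau G π Λ y v := by
    rw [mul_sum]
    refine sum_le_sum fun v _ => ?_
    rw [mul_comm b]
    exact mul_le_mul (tau_mono_dom hπ hQ) (hb' v) (chi_nonneg hπ) (tau_nonneg hπ)
  have e2 : ∑ v ∈ A, tau G π Q y v * chi G π Q v =
      ∑ z ∈ Q, ∑ v ∈ A, tau G π Q y v * tau G π Q v z := by
    rw [sum_comm]
    exact sum_congr rfl fun v _ => by rw [chi, mul_sum]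
  have e3 : chi G π Q y ≤ ∑ z ∈ Q, tau G π (Q \ A) y z +
      ∑ z ∈ Q, ∑ v ∈ A, tau G π Q y v * tau G π Q v z := by
    rw [chi, ← sum_add_distrib]
    exact sum_le_sum fun z _ => h1 V G π hπ Q A y z
  have e4 : ∑ z ∈ Q, tau G π (Q \ A) y z ≤ ∑ z ∈ Λ, tau G π (Λ \ A) y z :=
    (sum_le_sum fun z _ => tau_mono_dom hπ (sdiff_subset_sdiff hQ Subset.rfl)).trans
      (sum_le_sum_of_subset_of_nonneg hQ fun _ _ _ => tau_nonneg hπ)
  rw [mul_sub, mul_one]
  linarith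

/-- conditioning on the cluster of `o` -/
lemma cond (hπ : Prob π) (Λ : Finset V) (o u y z : V) :
    PE (edges G Λ) π (fun ω => ind (conn G Λ ω o u) * tau G π (Λ \ cl G Λ ω o) y z) ≤
      PE (edges G Λ) π fun ω => ind (conn G Λ ω o u ∧ ¬ conn G Λ ω o z ∧ conn G Λ ω y z) := by
  have key := PE_cond_cl G Λ o (fun A ω => ind (u ∈ A) * ind (conn G (Λ \ A) ω y z))
    (fun A _ => ((dep_conn G (Λ \ A) y z).comp fun P => ind (u ∈ A) * ind P).mono
      fun e he h => edges_sdiff_not_touch he h.2) (edges G Λ) π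
  have e1 : PE (edges G Λ) π (fun ω => ind (conn G Λ ω o u) * tau G π (Λ \ cl G Λ ω o) y z) =
      PE (edges G Λ) π fun ω => PE (edges G Λ) π fun ω' =>
        ind (u ∈ cl G Λ ω o) * ind (conn G (Λ \ cl G Λ ω o) ω' y z) := by
    refine PE_congr fun ω _ => ?_
    rw [PE_mul_left, PE_conn (edges_mono sdiff_subset), ind_congr mem_cl]
  rw [e1, ← key]
  refine PE_mono hπ fun ω => ?_
  rw [← ind_and]
  refine ind_mono fun h => ⟨mem_cl.mp h.1, fun h' => ?_, h.2.mono sdiff_subset Subset.rfl⟩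
  exact (mem_sdiff.mp h.2.right).2 (mem_cl.mpr h')

lemma one (h1 : St_PL1) (h2 : St_PL2) (hπ : Prob π) {Λ Q : Finset V} (hQ : Q ⊆ Λ) (o u y : V)
    {b : ℝ} (hb0 : 0 ≤ b) (hb : b ≤ chi G π Q y) (hb' : ∀ v, chi G π Q v ≤ b) :
    b * (tau G π Λ o u - ∑ v ∈ Λ,
        (∑ w ∈ Λ, tau G π Λ o w * tau G π Λ w u * tau G π Λ w v) * tau G π Λ y v) ≤
      ∑ z ∈ Λ, PE (edges G Λ) π fun ω =>
        ind (conn G Λ ω o u ∧ ¬ conn G Λ ω o z ∧ conn G Λ ω y z) := by
  refine le_trans ?_ (sum_le_sum fun z _ => cond hπ Λ o u y z)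
  rw [← PE_sum]
  have e1 : PE (edges G Λ) π (fun ω => b * (ind (conn G Λ ω o u) -
      ∑ v ∈ Λ, ind (conn G Λ ω o u ∧ conn G Λ ω o v) * tau G π Λ y v)) ≤
      PE (edges G Λ) π fun ω =>
        ∑ z ∈ Λ, ind (conn G Λ ω o u) * tau G π (Λ \ cl G Λ ω o) y z := by
    refine PE_mono hπ fun ω => ?_
    have e := mul_le_mul_of_nonneg_left (off h1 hπ hQ y hb hb' (cl G Λ ω o))
      (ind_nonneg (conn G Λ ω o u))
    rw [sum_cl] at e
    rw [← mul_sum]
    refine le_trans (le_of_eq ?_) e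
    simp only [ind_and, mul_assoc, ← mul_sum]
    ring
  refine le_trans ?_ e1
  rw [PE_mul_left, PE_sub, PE_sum, PE_conn Subset.rfl]
  refine mul_le_mul_of_nonneg_left (sub_le_sub_left (sum_le_sum fun v _ => ?_) _) hb0
  rw [PE_mul_right]
  exact mul_le_mul_of_nonneg_right (h2 V G π hπ _ Λ Λ o u v) (tau_nonneg hπ)

end general

variable {d : ℕ}

lemma cz_shift (s : ℝ) (a v : Zd d) (r : ℕ) : cz s (box a r) v = cz s (box 0 r) (v - a) := by
  have h := (aut_sub a).cz_eq s (box a r) v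
  rw [(aut_sub a).image_box, sub_self] at h
  exact h.symm

lemma zd_ev (x : Zd d) (i : Fin d) (K : ℕ) : zd x (x + ev i K) = K := by
  rw [zd_eq_sub, add_sub_cancel_left, zd_zero_left, Pi.norm_single]
  simp

/-- the error term -/
lemma err (h3 : St_S3) {p c C : ℝ} (H : HZ d p c C) : ∃ C₁ : ℝ, 0 < C₁ ∧
    ∀ s : ℝ, 0 ≤ s → s ≤ p → ∀ (Λ U : Finset (Zd d)) (K : ℕ) (i : Fin d) (w : Zd d),
      ∑ u ∈ U, tz s Λ w u * ∑ v ∈ Λ, tz s Λ w v * tz s Λ (u + ev i K) v ≤ C₁ * kk (d - 6) K := by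
  have hd : (9 : ℝ) ≤ d := by exact_mod_cast H.hd
  have hC : 0 < C := by
    have h := H.up {0} 0 0
    rw [tz_self (mem_singleton_self _), zd_self, kk_zero, mul_one] at h
    linarith
  obtain ⟨C3, hC3, S3⟩ := h3 d (d - 2) (d - 2) (by linarith) (by linarith) (by linarith)
    (by linarith)
  obtain ⟨C4, hC4, S4⟩ := h3 d (d - 2) (d - 4) (by linarith) (by linarith) (by linarith)
    (by linarith)
  have m3 : min ((d : ℝ) - 2) (d - 2 + (d - 2) - d) = d - 4 := by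
    rw [min_eq_right (by linarith)]
    ring
  have m4 : min ((d : ℝ) - 2) (d - 2 + (d - 4) - d) = d - 6 := by
    rw [min_eq_right (by linarith)]
    ring
  rw [m3] at S3
  rw [m4] at S4
  refine ⟨C ^ 3 * C3 * C4, by positivity, fun s s0 sp Λ U K i w => ?_⟩
  have s1 : s ≤ 1 := sp.trans H.p1.le
  have up : ∀ x y, tz s Λ x y ≤ C * kk (d - 2) (zd x y) := fun x y =>
    (tz_mono_p s0 sp H.p1.le).trans (H.up Λ x y)
  have k0 : ∀ (a : ℝ) (x y : Zd d), 0 ≤ kk a (zd x y) := fun a x y => kk_nonneg a (zd_nonneg x y)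
  have b1 : ∀ y, ∑ v ∈ Λ, tz s Λ w v * tz s Λ y v ≤ C ^ 2 * (C3 * kk (d - 4) (zd w y)) := by
    intro y
    refine le_trans ?_ (mul_le_mul_of_nonneg_left (S3 _ zd (met_zd d) w y Λ) (by positivity))
    rw [mul_sum]
    refine sum_le_sum fun v _ => ?_
    refine (mul_le_mul (up w v) (up y v) (tz_nonneg s0 s1)
      (mul_nonneg hC.le (k0 _ _ _))).trans (le_of_eq ?_)
    rw [zd_comm y v]
    ring
  have b2 := S4 _ zd (met_zd d) w (w - ev i K) U
  have e1 : zd w (w - ev i K) = K := by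
    rw [← zd_add_right _ _ (ev i K), sub_add_cancel, zd_comm, zd_ev]
  rw [e1] at b2
  refine le_trans ?_ ((mul_le_mul_of_nonneg_left b2
    (show 0 ≤ C ^ 3 * C3 by positivity)).trans (le_of_eq (by ring)))
  rw [mul_sum]
  refine sum_le_sum fun u _ => ?_
  refine (mul_le_mul (up w u) (b1 (u + ev i K))
    (sum_nonneg fun v _ => mul_nonneg (tz_nonneg s0 s1) (tz_nonneg s0 s1))
    (mul_nonneg hC.le (k0 _ _ _))).trans (le_of_eq ?_)
  have e2 : zd u (w - ev i K) = zd w (u + ev i K) := by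
    rw [← zd_add_right _ _ (ev i K), sub_add_cancel, zd_comm]
  rw [e2]
  ring

end Z1M

open Z1M in
theorem st_Z1m (h1 : St_PL1) (h2 : St_PL2) (h3 : St_S3) : St_Z1m := by
  intro d p c C H
  obtain ⟨C₁, hC₁, E⟩ := err h3 H
  refine ⟨C₁, hC₁, fun s s0 sp r K i x hx => ?_⟩
  have s1 : s ≤ 1 := sp.trans H.p1.le
  have hπ : Prob (fun _ : Sym2 (Zd d) => s) := Prob.const s0 s1
  by_cases hxr : x ∈ box (0 : Zd d) r
  swap
  · have b0 : cz s (box 0 r) x = 0 := by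
      rw [cz_eq_sum]
      exact sum_eq_zero fun y _ => tz_of_notMem hxr
    rw [b0, zero_mul]
    exact sum_nonneg fun u _ => sum_nonneg fun z _ => PE_ind_nonneg hπ _
  set b := cz s (box 0 r) x with hb
  set Λ : Finset (Zd d) := box 0 (4 * r + K) with hΛ
  have b0 : 0 ≤ b := cz_nonneg s0 s1
  have hx0 : zd 0 x ≤ r := mem_box.mp hxr
  have r0 : (0 : ℝ) ≤ r := Nat.cast_nonneg r
  have K0 : (0 : ℝ) ≤ K := Nat.cast_nonneg K
  have nx : ∀ y : Zd d, zd y (y - x) ≤ r := by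
    intro y
    rw [← zd_add_right _ _ (x - y), show y + (x - y) = x by abel, show y - x + (x - y) = 0 by abel,
      zd_comm]
    exact hx0
  have step : ∀ u ∈ box (0 : Zd d) (2 * r), b * (tz s Λ 0 u - ∑ v ∈ Λ,
      (∑ w ∈ Λ, tz s Λ 0 w * tz s Λ w u * tz s Λ w v) * tz s Λ (u + ev i K) v) ≤
      ∑ z ∈ Λ, PE (edges (lattice d) Λ) (fun _ => s) fun ω =>
        ind (conn (lattice d) Λ ω 0 u ∧ ¬ conn (lattice d) Λ ω 0 z ∧
          conn (lattice d) Λ ω (u + ev i K) z) := by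
    intro u hu
    have hu0 : zd 0 u ≤ (2 * r : ℕ) := mem_box.mp hu
    refine one (Q := box (u + ev i K - x) r) h1 h2 hπ (box_subset ?_) 0 u (u + ev i K) b0 ?_ ?_
    · have t1 := zd_tri 0 u (u + ev i K)
      have t2 := zd_tri 0 (u + ev i K) (u + ev i K - x)
      have t3 := nx (u + ev i K)
      rw [zd_ev] at t1
      push_cast at hu0 ⊢
      linarith
    · refine le_of_eq ?_
      change b = cz s _ _
      rw [cz_shift, sub_sub_cancel]
    · intro v
      change cz s _ _ ≤ b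
      rw [cz_shift]
      exact hx _
  refine le_trans ?_ (sum_le_sum step)
  rw [← mul_sum, sum_sub_distrib]
  refine mul_le_mul_of_nonneg_left (sub_le_sub ?_ ?_) b0
  · have n0 : zd 0 (0 - x) ≤ r := nx 0
    have e : b = cz s (box (0 - x) r) 0 := by rw [cz_shift s (0 - x), sub_sub_cancel]
    rw [e, cz_eq_sum]
    have q1 : box (0 - x) r ⊆ box (0 : Zd d) (2 * r) := box_subset (by push_cast; linarith)
    have q2 : box (0 - x) r ⊆ Λ := q1.trans (box_mono _ (by omega))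
    exact (sum_le_sum fun z _ => tz_mono_dom s0 s1 q2).trans
      (sum_le_sum_of_subset_of_nonneg q1 fun _ _ _ => tz_nonneg s0 s1)
  · have e : ∑ u ∈ box (0 : Zd d) (2 * r), ∑ v ∈ Λ,
        (∑ w ∈ Λ, tz s Λ 0 w * tz s Λ w u * tz s Λ w v) * tz s Λ (u + ev i K) v =
        ∑ w ∈ Λ, (∑ u ∈ box (0 : Zd d) (2 * r),
          tz s Λ w u * ∑ v ∈ Λ, tz s Λ w v * tz s Λ (u + ev i K) v) * tz s Λ 0 w := by
      simp only [sum_mul, mul_sum]
      rw [sum_comm (s := Λ) (t := box (0 : Zd d) (2 * r))]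
      refine sum_congr rfl fun u _ => ?_
      rw [sum_comm]
      exact sum_congr rfl fun w _ => sum_congr rfl fun v _ => by ring
    rw [e, cz_eq_sum, mul_sum]
    exact sum_le_sum fun w _ => mul_le_mul_of_nonneg_right (E s s0 sp Λ _ K i w) (tz_nonneg s0 s1)

end Pool.Agent.TPC
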