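import Pool.Agent.Lib.TPC.BlueZ

/-! One of the edges of a column is pivotal. -/

open Finset

namespace Pool.Agent.TPC

open Pool.Agent.Lib.MP_81a99a_pr (lattice torus)

namespace Z1P

/-- opening `k` coordinates costs a factor `s ^ k` -/
lemma force {ι : Type} [DecidableEq ι] (E : Finset ι) {s : ℝ} (h0 : 0 ≤ s) (h1 : s ≤ 1) (ed : ℕ → ι) (k : ℕ) :
    (∀ j < k, ed j ∈ E) → ∀ f : Finset ι → ℝ, (∀ ω, 0 ≤ f ω) →
      s ^ k * PE E (fun _ => s) (fun ω => f (ω ∪ (range k).image ed)) ≤ PE E (fun _ => s) f := by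
  induction k with
  | zero => intro _ f _; simp
  | succ k ih =>
    intro h f hf
    have a := ih (fun j hj => h j (by omega)) (fun ω => f (insert (ed k) ω)) fun ω => hf _
    have b := PE_split (h k (by omega)) (fun _ => s) f
    have c : 0 ≤ (1 - s) * PE E (fun _ => s) (fun ω => f (ω.erase (ed k))) :=
      mul_nonneg (by linarith) (PE_nonneg (Prob.const h0 h1) fun ω => hf _)
    simp only [range_add_one, image_insert, union_insert]
    have e := mul_le_mul_of_nonneg_left a h0
    rw [pow_succ]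
    linarith

variable {d : ℕ}

/-- the edge number `k` of the column above `u` -/
def ed (i : Fin d) (u : Zd d) (k : ℕ) : Sym2 (Zd d) := s(u + ev i k, u + ev i (k + 1 : ℕ))

lemma adj (i : Fin d) (u : Zd d) (k : ℕ) : (lattice d).Adj (u + ev i k) (u + ev i (k + 1 : ℕ)) := by
  have e : u + ev i (k + 1 : ℕ) = u + ev i k + Pi.single i 1 := by
    rw [Nat.cast_add, Nat.cast_one, ev, Pi.single_add, add_assoc]
  rw [e]
  exact lattice_adj_add _ i

lemma ed_inj (i : Fin d) (k : ℕ) : Function.Injective fun u => ed i u k := by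
  intro u u' h
  rcases Sym2.eq_iff.1 h with ⟨a, -⟩ | ⟨a, b⟩
  · exact add_right_cancel a
  · have a1 := congrFun a i
    have b1 := congrFun b i
    simp only [Pi.add_apply, Pi.single_eq_same] at a1 b1
    omega

/-- pivotality of `e` for the connection of `0` and `z` -/
noncomputable def piv (Λ : Finset (Zd d)) (e : Sym2 (Zd d)) (z : Zd d) (ω : Finset (Sym2 (Zd d))) : ℝ :=
  ind (conn (lattice d) Λ (insert e ω) 0 z) - ind (conn (lattice d) Λ (ω.erase e) 0 z)

lemma piv_nonneg (Λ : Finset (Zd d)) (e : Sym2 (Zd d)) (z : Zd d) (ω : Finset (Sym2 (Zd d))) :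
    0 ≤ piv Λ e z ω :=
  sub_nonneg.2 (ind_mono fun h => h.mono subset_rfl ((erase_subset _ _).trans (subset_insert _ _)))

lemma sum_piv (Λ : Finset (Zd d)) (e : Sym2 (Zd d)) (ω : Finset (Sym2 (Zd d))) :
    ∑ z ∈ Λ, piv Λ e z ω =
      ((cl (lattice d) Λ (insert e ω) 0).card : ℝ) - (cl (lattice d) Λ (ω.erase e) 0).card := by
  unfold piv cl
  rw [sum_sub_distrib, card_flt, card_flt]

lemma point {Λ : Finset (Zd d)} {i : Fin d} {K : ℕ} {u : Zd d} (hu : ∀ t : ℕ, t ≤ K → u + ev i t ∈ Λ)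
    (z : Zd d) (ω : Finset (Sym2 (Zd d))) :
    ind (conn (lattice d) Λ ω 0 u ∧ ¬ conn (lattice d) Λ ω 0 z ∧ conn (lattice d) Λ ω (u + ev i K) z) ≤
      ∑ k ∈ range K, piv Λ (ed i u k) z (ω ∪ (range k).image (ed i u)) := by
  refine ind_le_of (sum_nonneg fun k _ => piv_nonneg _ _ _ _) ?_
  rintro ⟨h1, h2, h3⟩
  have up : ∀ t ≤ K, conn (lattice d) Λ (ω ∪ (range K).image (ed i u)) 0 (u + ev i t) := by
    intro t
    induction t with
    | zero => intro _; simpa using h1.mono subset_rfl subset_union_left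
    | succ t ih =>
      intro ht
      exact (ih (by omega)).tail (hu _ ht) (adj i u t)
        (mem_union_right _ (mem_image.2 ⟨t, mem_range.2 (by omega), rfl⟩)) (hu _ (by omega))
  have tel := sum_range_sub (fun k => ind (conn (lattice d) Λ (ω ∪ (range k).image (ed i u)) 0 z)) K
  rw [ind_pos ((up K le_rfl).trans (h3.mono subset_rfl subset_union_left)), range_zero, image_empty,
    union_empty, ind_neg h2, sub_zero] at tel
  rw [← tel]
  refine sum_le_sum fun k _ => ?_
  rw [range_add_one, image_insert, union_insert]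
  exact sub_le_sub_left (ind_mono fun h => h.mono subset_rfl (erase_subset _ _)) _

end Z1P

open Z1P in
theorem st_Z1p : St_Z1p := by
  intro d s h0 h1 Λ U i K hU
  have hp : Prob fun _ : Sym2 (Zd d) => s := Prob.const h0 h1
  set D : Sym2 (Zd d) → ℝ := fun e => PE (edges (lattice d) Λ) (fun _ => s) fun ω =>
    ((cl (lattice d) Λ (insert e ω) 0).card : ℝ) - (cl (lattice d) Λ (ω.erase e) 0).card with hD
  have hD' : ∀ e, D e = ∑ z ∈ Λ, PE (edges (lattice d) Λ) (fun _ => s) (piv Λ e z) := fun e => by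
    rw [← PE_sum]
    simp only [sum_piv, hD]
  have D0 : ∀ e, 0 ≤ D e := fun e => by
    rw [hD']
    exact sum_nonneg fun z _ => PE_nonneg hp (piv_nonneg Λ e z)
  have hE : ∀ u ∈ U, ∀ k < K, ed i u k ∈ edges (lattice d) Λ := fun u hu k hk =>
    mk_mem_edges.2 ⟨adj i u k, hU u hu _ hk.le, hU u hu _ hk⟩
  have key : ∀ u ∈ U, ∀ z, s ^ K * PE (edges (lattice d) Λ) (fun _ => s) (fun ω =>
      ind (conn (lattice d) Λ ω 0 u ∧ ¬ conn (lattice d) Λ ω 0 z ∧ conn (lattice d) Λ ω (u + ev i K) z)) ≤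
      ∑ k ∈ range K, PE (edges (lattice d) Λ) (fun _ => s) (piv Λ (ed i u k) z) := by
    intro u hu z
    refine (mul_le_mul_of_nonneg_left (PE_mono hp (point (hU u hu) z)) (pow_nonneg h0 K)).trans ?_
    rw [PE_sum, mul_sum]
    refine sum_le_sum fun k hk => ?_
    have hk' := mem_range.1 hk
    refine le_trans (mul_le_mul_of_nonneg_right (pow_le_pow_of_le_one h0 h1 hk'.le)
      (PE_nonneg hp fun ω => piv_nonneg _ _ _ _)) ?_
    exact force _ h0 h1 (ed i u) k (fun j hj => hE u hu j (hj.trans hk')) _ (piv_nonneg Λ _ z)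
  calc s ^ K * zsum s Λ U i K ≤ ∑ u ∈ U, ∑ k ∈ range K, D (ed i u k) := by
        rw [zsum, mul_sum]
        refine sum_le_sum fun u hu => ?_
        rw [mul_sum]
        refine (sum_le_sum fun z _ => key u hu z).trans ?_
        rw [sum_comm]
        simp only [hD', le_refl]
    _ ≤ ∑ _k ∈ range K, ∑ e ∈ edges (lattice d) Λ, D e := by
        rw [sum_comm]
        refine sum_le_sum fun k hk => ?_
        rw [← sum_image (s := U) (g := fun u => ed i u k) (f := D) fun _ _ _ _ h => ed_inj i k h]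
        exact sum_le_sum_of_subset_of_nonneg
          (image_subset_iff.2 fun u hu => hE u hu k (mem_range.1 hk)) fun e _ _ => D0 e
    _ = _ := by rw [sum_const, card_range, nsmul_eq_mul]

end Pool.Agent.TPC
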