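import Pool.Agent.Lib.TPC.BlueZ

/-! Block Z5: the expected number of pioneers of a cube is bounded. -/

open Finset

namespace Pool.Agent.TPC

namespace Z5

variable {d : ℕ}

lemma ez_sum {κ : Type} (p : ℝ) (D : Finset (Zd d)) (x : Zd d) (s : Finset κ)
    (F : κ → Finset (Zd d) → ℝ) :
    ez p D x (fun A => ∑ a ∈ s, F a A) = ∑ a ∈ s, ez p D x (F a) :=
  PE_sum _ _ s fun a _ => F a _

lemma ez_mul (p : ℝ) (D : Finset (Zd d)) (x : Zd d) (c : ℝ) (F : Finset (Zd d) → ℝ) :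
    ez p D x (fun A => c * F A) = c * ez p D x F :=
  PE_mul_left _ _ c fun _ => F _

lemma ez_add (p : ℝ) (D : Finset (Zd d)) (x : Zd d) (F F' : Finset (Zd d) → ℝ) :
    ez p D x (fun A => F A + F' A) = ez p D x F + ez p D x F' :=
  PE_add _ _ (fun _ => F _) fun _ => F' _

lemma ez_mono {p : ℝ} (h0 : 0 ≤ p) (h1 : p ≤ 1) {D : Finset (Zd d)} {x : Zd d}
    {F F' : Finset (Zd d) → ℝ} (h : ∀ A, A ⊆ D → F A ≤ F' A) : ez p D x F ≤ ez p D x F' :=
  EC_mono (Prob.const h0 h1) h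

/-- regular point of a set -/
def Reg (K : ℕ) (y : Zd d) (A : Finset (Zd d)) : Prop :=
  ∀ s : ℕ, K ≤ s → ((A ∩ box y s).card : ℝ) ≤ (s : ℝ) ^ (9 / 2 : ℝ)

lemma reg_half {p : ℝ} (h0 : 0 ≤ p) (h1 : p ≤ 1) {B : Finset (Zd d)} {x y : Zd d} {K : ℕ}
    (hK : 4 ≤ K) (h : ∀ s : ℕ, K ≤ s →
      ez p B x (fun A => ind (y ∈ A ∧ (s : ℝ) ^ (9 / 2 : ℝ) < (A ∩ box y s).card)) ≤
        tz p B x y / (s : ℝ) ^ 2) :
    tz p B x y ≤ 2 * ez p B x (fun A => ind (y ∈ A ∧ Reg K y A)) := by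
  obtain ⟨k, rfl⟩ : ∃ k, K = k + 1 := ⟨K - 1, by omega⟩
  have e : tz p B x y = ez p B x (fun A => ind (y ∈ A)) := tau_eq_EC
  have a1 : ez p B x (fun A => ind (y ∈ A)) ≤ ez p B x (fun A => ind (y ∈ A ∧ Reg (k + 1) y A) +
      ∑ s ∈ Ioo k (B.card + 1), ind (y ∈ A ∧ (s : ℝ) ^ (9 / 2 : ℝ) < (A ∩ box y s).card)) := by
    refine ez_mono h0 h1 fun A hA => ?_
    refine le_trans ?_ (add_le_add le_rfl (ind_exists_le _ _))
    refine le_trans (ind_mono fun hy => ?_) (ind_or_le _ _)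
    by_cases hr : Reg (k + 1) y A
    · exact Or.inl ⟨hy, hr⟩
    · right
      unfold Reg at hr
      push Not at hr
      obtain ⟨s, b1, b2⟩ := hr
      refine ⟨s, mem_Ioo.2 ⟨by omega, ?_⟩, hy, b2⟩
      have c1 : (1 : ℝ) ≤ s := by exact_mod_cast (by omega : 1 ≤ s)
      have c2 : (s : ℝ) ≤ (s : ℝ) ^ (9 / 2 : ℝ) := by
        calc (s : ℝ) = (s : ℝ) ^ (1 : ℝ) := (Real.rpow_one _).symm
          _ ≤ _ := Real.rpow_le_rpow_of_exponent_le c1 (by norm_num)
      have c3 : ((A ∩ box y s).card : ℝ) ≤ B.card := by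
        exact_mod_cast Finset.card_le_card (Finset.inter_subset_left.trans hA)
      have c4 : s < B.card := by exact_mod_cast (c2.trans_lt b2).trans_le c3
      omega
  rw [ez_add, ez_sum] at a1
  have ht : 0 ≤ tz p B x y := tz_nonneg h0 h1
  have a2 : ∑ s ∈ Ioo k (B.card + 1),
      ez p B x (fun A => ind (y ∈ A ∧ (s : ℝ) ^ (9 / 2 : ℝ) < (A ∩ box y s).card)) ≤
      tz p B x y * (2 / (k + 1)) := by
    refine le_trans (Finset.sum_le_sum fun s hs => h s (by have := (mem_Ioo.1 hs).1; omega)) ?_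
    simp only [div_eq_mul_inv (tz p B x y)]
    rw [← Finset.mul_sum]
    exact mul_le_mul_of_nonneg_left (sum_Ioo_inv_sq_le k _) ht
  have a3 : (2 : ℝ) / (k + 1) ≤ 1 / 2 := by
    have : (3 : ℝ) ≤ k := by exact_mod_cast (by omega : 3 ≤ k)
    rw [div_le_iff₀ (by linarith)]
    linarith
  have a4 := mul_le_mul_of_nonneg_left a3 ht
  linarith

lemma box_sum {A₁ : ℝ} (hA : 0 < A₁) (hd : 2 ≤ d)
    (h : ∀ (x : Zd d) (S : Finset (Zd d)) (r : ℝ), 0 ≤ r → (∀ y ∈ S, zd x y ≤ r) →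
      ∑ y ∈ S, kk ((d : ℝ) - 2) (zd x y) ≤ A₁ * (1 + r) ^ 2) (b v : Zd d) (M : ℕ) :
    ∑ z ∈ box b M, kk ((d : ℝ) - 2) (zd v z) ≤ 9 * A₁ * (1 + (M : ℝ)) ^ 2 := by
  have hd2 : (2 : ℝ) ≤ d := by exact_mod_cast hd
  have hM : (0 : ℝ) ≤ M := Nat.cast_nonneg M
  by_cases hv : zd v b ≤ 2 * M
  · refine (h v _ (3 * M) (by positivity) fun z hz => ?_).trans ?_
    · have := zd_tri v b z
      have := mem_box.1 hz
      linarith
    · nlinarith [mul_nonneg hA.le hM, mul_nonneg hA.le (mul_nonneg hM hM)]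
  · refine le_trans (Finset.sum_le_sum fun z hz => ?_)
      ((h b _ M hM fun z hz => mem_box.1 hz).trans ?_)
    · refine kk_anti (by linarith) (zd_nonneg _ _) ?_
      have := zd_tri v z b
      have := mem_box.1 hz
      rw [zd_comm z b] at *
      linarith
    · nlinarith [mul_nonneg hA.le (sq_nonneg (1 + (M : ℝ)))]

lemma zd_ev (y : Zd d) (i : Fin d) (t : ℕ) : zd y (y + ev i t) ≤ t := by
  rw [zd_le_nat]
  intro j
  by_cases h : j = i
  · subst h
    simp only [ev, Pi.add_apply, Pi.single_eq_same]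
    omega
  · simp only [ev, Pi.add_apply, Pi.single_eq_of_ne h]
    omega

lemma max_le_zd {y v : Zd d} {i : Fin d} (h : v i ≤ y i) (K : ℕ) :
    max (K : ℝ) (zd y v) ≤ zd (y + ev i K) v := by
  have h' : (v i : ℝ) ≤ y i := by exact_mod_cast h
  have hK : (0 : ℝ) ≤ K := Nat.cast_nonneg K
  have a1 := abs_le_zd (y + ev i K) v i
  simp only [ev, Pi.add_apply, Pi.single_eq_same] at a1
  push_cast at a1
  have a2 := le_of_abs_le a1
  refine max_le (by linarith) ((zd_le_iff (zd_nonneg _ _)).2 fun j => ?_)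
  by_cases hj : j = i
  · subst hj
    rw [abs_of_nonneg (by linarith)]
    linarith
  · have a3 := abs_le_zd (y + ev i K) v j
    simpa only [ev, Pi.add_apply, Pi.single_eq_of_ne hj, add_zero] using a3

lemma low_sum (hd : 2 ≤ d) (b u : Zd d) (M : ℕ) (h : zd u b ≤ 2 * M) :
    (1 + (M : ℝ)) ^ 2 / 2 ^ d ≤ ∑ z ∈ box b M, kk ((d : ℝ) - 2) (zd u z) := by
  obtain ⟨e, rfl⟩ : ∃ e, d = e + 2 := ⟨d - 2, by omega⟩
  have he : ((e + 2 : ℕ) : ℝ) - 2 = e := by push_cast; ring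
  have hM : (0 : ℝ) ≤ M := Nat.cast_nonneg M
  rw [he]
  have a1 : ∀ z ∈ box b M, kk e (4 * M + 1) ≤ kk e (zd u z) := by
    intro z hz
    refine kk_anti (Nat.cast_nonneg e) (zd_nonneg _ _) ?_
    have := zd_tri u b z
    have := mem_box.1 hz
    linarith
  refine le_trans ?_ (Finset.sum_le_sum a1)
  rw [Finset.sum_const, nsmul_eq_mul, card_box, kk_nat e (by positivity)]
  push_cast
  have e1 : (1 + (4 * (M : ℝ) + 1)) ^ e = 2 ^ e * (2 * M + 1) ^ e := by
    rw [← mul_pow]; ring_nf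
  have e2 : (2 * (M : ℝ) + 1) ^ (e + 2) * (1 / (2 ^ e * (2 * M + 1) ^ e)) =
      4 * (2 * M + 1) ^ 2 / 2 ^ (e + 2) := by
    field_simp
    ring
  rw [e1, e2]
  refine div_le_div_of_nonneg_right ?_ (by positivity)
  nlinarith

lemma near_sum {a : ℝ} (ha : 0 ≤ a) {A : Finset (Zd d)} {y : Zd d} {K : ℕ} (h : Reg K y A) :
    ∑ v ∈ A, kk a (zd y v) ≤ (K : ℝ) ^ (9 / 2 : ℝ) + ∑ v ∈ A, kk a (max (K : ℝ) (zd y v)) := by
  classical
  refine le_trans ?_ (add_le_add (h K le_rfl) le_rfl)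
  have e : ((A ∩ box y K).card : ℝ) = ∑ v ∈ A, ind (v ∈ box y K) := by
    rw [← card_flt, flt_eq_filter, Finset.filter_mem_eq_inter]
  rw [e, ← Finset.sum_add_distrib]
  refine Finset.sum_le_sum fun v _ => ?_
  by_cases hv : v ∈ box y K
  · rw [ind_pos hv]
    have := kk_le_one ha (zd_nonneg y v)
    have := kk_nonneg a (le_max_of_le_right (zd_nonneg y v) : 0 ≤ max (K : ℝ) (zd y v))
    linarith
  · have := notMem_box.1 hv
    rw [ind_neg hv, max_eq_right (by linarith), zero_add]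

lemma exists_sup {α : Type} (T F B : Finset α) (g : α → α → Finset α) :
    ∃ L : Finset α, T ⊆ L ∧ ∀ y ∈ F, ∀ z ∈ B, g y z ⊆ L := by
  classical
  refine ⟨T ∪ F.biUnion fun y => B.biUnion (g y), Finset.subset_union_left,
    fun y hy z hz u hu => Finset.mem_union_right _ ?_⟩
  exact Finset.mem_biUnion.2 ⟨y, hy, Finset.mem_biUnion.2 ⟨z, hz, hu⟩⟩

/-- the final arithmetic -/
lemma arith {θ P H W Q N : ℝ} (hθ : 0 < θ) (hP : 0 < P) (hQ : 0 < Q) (hN : 0 ≤ N)
    (h1 : θ * H ≤ P / 2) (h : θ * (P * Q * N) ≤ W * Q + θ ^ 2 * (H * Q * N)) :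
    N ≤ 2 * W / (θ * P) := by
  rw [le_div_iff₀ (by positivity)]
  have a1 : θ ^ 2 * (H * Q * N) ≤ θ * (P / 2 * Q * N) := by
    have e : θ ^ 2 * (H * Q * N) = θ * (θ * H * Q * N) := by ring
    rw [e]
    gcongr
  have a2 : N * (θ * P) * Q ≤ 2 * W * Q := by nlinarith
  exact le_of_mul_le_mul_right a2 hQ

end Z5

open Z5 in
theorem st_Z5 (h4 : St_Z4) (hRS : St_RS) (hSLR : St_SLR) (h12 : St_S12) (h3 : St_S3) :
    St_Z5 := by
  intro d p c C hz
  classical
  have hd9 : (9 : ℝ) ≤ d := by exact_mod_cast hz.hd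
  have hd : 2 ≤ d := le_trans (by norm_num) hz.hd
  have p0 := hz.p0.le
  have p1 := hz.p1.le
  have hp := hz.p0
  have hc := hz.c0
  have hC : 1 ≤ C := by
    have := hz.up {0} 0 0
    rwa [tz_self (Finset.mem_singleton_self _), zd_self, kk_zero, mul_one] at this
  obtain ⟨s₀, hZ4⟩ := h4 d p c C hz
  obtain ⟨R₁, hR₁, hRS₁⟩ := hRS ((d : ℝ) - 2) (by linarith)
  obtain ⟨R₂, hR₂, hRS₂⟩ := hRS ((d : ℝ) - 4) (by linarith)
  obtain ⟨A₁, hA₁, hS₁⟩ := h12 d ((d : ℝ) - 2) (by linarith) (by linarith)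
  obtain ⟨A₃, hA₃, hS₃⟩ := h3 d ((d : ℝ) - 2) ((d : ℝ) - 2) (by linarith) (by linarith)
    (by linarith) (by linarith)
  have hbox : ∀ (b v : Zd d) (M : ℕ),
      ∑ z ∈ box b M, kk ((d : ℝ) - 2) (zd v z) ≤ 9 * A₁ * (1 + (M : ℝ)) ^ 2 := by
    refine box_sum hA₁ hd fun x S r hr hS => ?_
    have := (hS₁ _ _ (met_zd d) x S r hr).1 (by linarith) hS
    rwa [(by ring : (d : ℝ) - 2 - d = -2), kk_neg_two] at this
  set W := C * (9 * A₁) with hW
  have hW0 : 0 < W := by positivity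
  set c' := c / 2 ^ d with hc'
  have hc'0 : 0 < c' := by positivity
  obtain ⟨K, hK1, hK2, hK3⟩ : ∃ K : ℕ, s₀ ≤ K ∧ 4 ≤ K ∧ C * R₁ * W / (c' / 2) ≤ K := by
    refine ⟨max (max s₀ 4) ⌈C * R₁ * W / (c' / 2)⌉₊, by omega, by omega,
      (Nat.le_ceil _).trans ?_⟩
    exact_mod_cast le_max_right _ _
  have hK0 : (0 : ℝ) ≤ K := Nat.cast_nonneg K
  have hKk : C * (R₁ * kk ((d : ℝ) - 2 - 9 / 2) K) * W ≤ c' / 2 := by
    have a1 : kk ((d : ℝ) - 2 - 9 / 2) K ≤ kk ((1 : ℕ) : ℝ) K :=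
      kk_anti_exp hK0 (by push_cast; linarith)
    rw [kk_nat 1 hK0, pow_one] at a1
    rw [div_le_iff₀ (by positivity)] at hK3
    calc _ = C * R₁ * W * kk ((d : ℝ) - 2 - 9 / 2) K := by ring
      _ ≤ C * R₁ * W * (1 / (1 + K)) := mul_le_mul_of_nonneg_left a1 (by positivity)
      _ ≤ _ := by
        rw [mul_one_div, div_le_iff₀ (by positivity)]
        nlinarith
  set H := C * C * A₃ * W * ((K : ℝ) ^ (9 / 2 : ℝ) + R₂) with hH
  have hH0 : 0 < H := by positivity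
  set P := p ^ K * (c' / 2) with hP
  have hP0 : 0 < P := by positivity
  set θ := min 1 (P / 2 / H) with hθ
  have hθ0 : 0 < θ := lt_min one_pos (by positivity)
  have hθH : θ * H ≤ P / 2 := by
    rw [← le_div_iff₀ hH0]; exact min_le_right _ _
  refine ⟨max ((2 * (K : ℝ) + 1) ^ d) (2 * (2 * W / (θ * P))), fun b M i x => ?_⟩
  set B := box b M with hB
  set F := flt B (fun y => y i = b i + M) with hF
  by_cases hM : M < K
  · refine le_trans ?_ (le_max_left _ _)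
    calc _ ≤ ∑ _y ∈ B, (1 : ℝ) := by
          refine (Finset.sum_le_sum fun y _ => tz_le_one p0 p1).trans ?_
          exact Finset.sum_le_sum_of_subset_of_nonneg (flt_subset _ _) fun _ _ _ => zero_le_one
      _ = (2 * (M : ℝ) + 1) ^ d := by
          rw [Finset.sum_const, nsmul_eq_mul, mul_one, hB, card_box]; push_cast; rfl
      _ ≤ _ := by
          have : (M : ℝ) ≤ K := by exact_mod_cast hM.le
          gcongr
  refine le_trans ?_ (le_max_right _ _)
  have hMK : (K : ℝ) ≤ M := by exact_mod_cast not_lt.1 hM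
  set N := ez p B x (fun A => ∑ y ∈ F, ind (y ∈ A ∧ Reg K y A)) with hN
  have hN0 : 0 ≤ N := PE_nonneg (Prob.const p0 p1) fun _ =>
    Finset.sum_nonneg fun _ _ => ind_nonneg _
  have step1 : ∑ y ∈ F, tz p B x y ≤ 2 * N := by
    rw [hN, ez_sum, Finset.mul_sum]
    exact Finset.sum_le_sum fun y _ => reg_half p0 p1 hK2 fun s hs => hZ4 s (hK1.trans hs) b M x y
  refine step1.trans (mul_le_mul_of_nonneg_left ?_ (by norm_num))
  choose R hR using hz.low
  obtain ⟨L, hL1, hL2⟩ := exists_sup (box b (M + K)) F B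
    fun y z => box (y + ev i K) (R (y + ev i K) z)
  have hBL : B ⊆ L := (box_mono b (Nat.le_add_right M K)).trans hL1
  have hBi : ∀ y ∈ B, y i ≤ b i + M := fun y hy => (mem_box'.1 hy i).2
  have hFL : ∀ y ∈ F, y i = b i + M ∧ ∀ t : ℕ, t ≤ K → y + ev i t ∈ L := by
    intro y hy
    refine ⟨(mem_flt.1 hy).2, fun t ht => hL1 (mem_box.2 ?_)⟩
    have a1 := mem_box.1 (mem_flt.1 hy).1
    have a2 := zd_ev y i t
    have a3 := zd_tri b y (y + ev i t)
    have a4 : (t : ℝ) ≤ K := by exact_mod_cast ht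
    push_cast
    linarith
  set Q := (1 + (M : ℝ)) ^ 2 with hQ
  have hQ0 : 0 < Q := by positivity
  have hup : ∀ v, ∑ z ∈ B, tz p L v z ≤ W * Q := by
    intro v
    refine (Finset.sum_le_sum fun z _ => hz.up L v z).trans ?_
    rw [← Finset.mul_sum, hW, mul_assoc C]
    exact mul_le_mul_of_nonneg_left (hbox b v M) (by linarith)
  have hlow : ∀ y ∈ F, c' * Q ≤ ∑ z ∈ B, tz p L (y + ev i K) z := by
    intro y hy
    have a0 : zd (y + ev i K) b ≤ 2 * M := by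
      have a1 := mem_box.1 (mem_flt.1 hy).1
      have a2 := zd_ev y i K
      have a3 := zd_tri b y (y + ev i K)
      rw [zd_comm]
      linarith
    calc c' * Q = c * (Q / 2 ^ d) := by rw [hc']; ring
      _ ≤ c * ∑ z ∈ B, kk ((d : ℝ) - 2) (zd (y + ev i K) z) :=
          mul_le_mul_of_nonneg_left (low_sum hd b _ M a0) hc.le
      _ ≤ _ := by
          rw [Finset.mul_sum]
          exact Finset.sum_le_sum fun z hz' => (hR _ z).trans (tz_mono_dom p0 p1 (hL2 y hy z hz'))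
  have hsum := Finset.sum_le_sum (s := B) fun z _ =>
    hSLR d p θ p0 p1 hθ0.le (min_le_left _ _) B L F i (b i + M) K x z (Reg K) hBL hBi hFL
  rw [← Finset.mul_sum, Finset.sum_add_distrib, ← Finset.mul_sum, ← ez_sum, ← ez_sum] at hsum
  have left : c' / 2 * Q * N ≤ ez p B x (fun A => ∑ z ∈ B, ∑ y ∈ F, ind (y ∈ A ∧ Reg K y A) *
      (tz p L (y + ev i K) z - ∑ v ∈ A, tz p L (y + ev i K) v * tz p L v z)) := by
    rw [hN, ← ez_mul]
    refine ez_mono p0 p1 fun A hA => ?_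
    rw [Finset.sum_comm, Finset.mul_sum]
    refine Finset.sum_le_sum fun y hy => ?_
    rw [← Finset.mul_sum]
    by_cases hr : y ∈ A ∧ Reg K y A
    · rw [ind_pos hr, mul_one, one_mul, Finset.sum_sub_distrib, Finset.sum_comm]
      have a1 : ∑ v ∈ A, ∑ z ∈ B, tz p L (y + ev i K) v * tz p L v z ≤
          ∑ v ∈ A, C * kk ((d : ℝ) - 2) (max (K : ℝ) (zd y v)) * (W * Q) := by
        refine Finset.sum_le_sum fun v hv => ?_
        rw [← Finset.mul_sum]
        have b0 : 0 ≤ max (K : ℝ) (zd y v) := le_max_of_le_left hK0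
        refine mul_le_mul ((hz.up L _ v).trans ?_) (hup v)
          (Finset.sum_nonneg fun _ _ => tz_nonneg p0 p1)
          (mul_nonneg (by linarith) (kk_nonneg _ b0))
        refine mul_le_mul_of_nonneg_left (kk_anti (by linarith) b0 (max_le_zd ?_ K)) (by linarith)
        rw [(hFL y hy).1]
        exact hBi v (hA hv)
      rw [← Finset.sum_mul, ← Finset.mul_sum] at a1
      have a2 := hRS₁ d A y K (by omega) hr.2
      have a3 : C * (∑ v ∈ A, kk ((d : ℝ) - 2) (max (K : ℝ) (zd y v))) * (W * Q) ≤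
          c' / 2 * Q := by
        calc _ ≤ C * (R₁ * kk ((d : ℝ) - 2 - 9 / 2) K) * (W * Q) := by gcongr
          _ = C * (R₁ * kk ((d : ℝ) - 2 - 9 / 2) K) * W * Q := by ring
          _ ≤ _ := mul_le_mul_of_nonneg_right hKk hQ0.le
      have a4 := hlow y hy
      linarith
    · rw [ind_neg hr, mul_zero, zero_mul]
  have right : ez p B x (fun A => ∑ z ∈ B, ∑ y ∈ F, ∑ y' ∈ F,
      ind (y ∈ A ∧ Reg K y A ∧ y' ∈ A) *
        ∑ v ∈ L, tz p L (y + ev i K) v * tz p L (y' + ev i K) v * tz p L v z) ≤ H * Q * N := by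
    rw [hN, ← ez_mul]
    refine ez_mono p0 p1 fun A _ => ?_
    rw [Finset.sum_comm, Finset.mul_sum]
    refine Finset.sum_le_sum fun y _ => ?_
    rw [Finset.sum_comm]
    have a1 : ∀ y' ∈ F, ∑ z ∈ B, ind (y ∈ A ∧ Reg K y A ∧ y' ∈ A) *
        ∑ v ∈ L, tz p L (y + ev i K) v * tz p L (y' + ev i K) v * tz p L v z ≤
        C * C * A₃ * W * Q * ind (y ∈ A ∧ Reg K y A) *
          (ind (y' ∈ A) * kk ((d : ℝ) - 4) (zd y y')) := by
      intro y' _
      rw [← Finset.mul_sum, Finset.sum_comm, ← and_assoc, ind_and]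
      have b1 : ∑ v ∈ L, ∑ z ∈ B, tz p L (y + ev i K) v * tz p L (y' + ev i K) v * tz p L v z ≤
          ∑ v ∈ L, C * C * (W * Q) * (kk ((d : ℝ) - 2) (zd (y + ev i K) v) *
            kk ((d : ℝ) - 2) (zd v (y' + ev i K))) := by
        refine Finset.sum_le_sum fun v _ => ?_
        rw [← Finset.mul_sum]
        have c1 := hz.up L (y + ev i K) v
        have c2 := hz.up L (y' + ev i K) v
        rw [zd_comm] at c2
        have c3 := kk_nonneg ((d : ℝ) - 2) (zd_nonneg (y + ev i K) v)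
        have c4 := kk_nonneg ((d : ℝ) - 2) (zd_nonneg v (y' + ev i K))
        calc _ ≤ C * kk ((d : ℝ) - 2) (zd (y + ev i K) v) *
              (C * kk ((d : ℝ) - 2) (zd v (y' + ev i K))) * (W * Q) :=
              mul_le_mul (mul_le_mul c1 c2 (tz_nonneg p0 p1) (by positivity)) (hup v)
                (Finset.sum_nonneg fun _ _ => tz_nonneg p0 p1) (by positivity)
          _ = _ := by ring
      rw [← Finset.mul_sum] at b1
      have b2 := hS₃ _ _ (met_zd d) (y + ev i K) (y' + ev i K) L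
      rw [zd_add_right, min_eq_right (by linarith),
        (by ring : (d : ℝ) - 2 + (d - 2) - d = d - 4)] at b2
      have b3 := b1.trans (mul_le_mul_of_nonneg_left b2 (by positivity))
      calc _ ≤ ind (y ∈ A ∧ Reg K y A) * ind (y' ∈ A) *
            (C * C * (W * Q) * (A₃ * kk ((d : ℝ) - 4) (zd y y'))) :=
            mul_le_mul_of_nonneg_left b3 (mul_nonneg (ind_nonneg _) (ind_nonneg _))
        _ = _ := by ring
    refine (Finset.sum_le_sum a1).trans ?_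
    rw [← Finset.mul_sum]
    by_cases hr : y ∈ A ∧ Reg K y A
    · rw [ind_pos hr, mul_one, mul_one, ← sum_flt]
      have b1 : ∑ y' ∈ flt F (· ∈ A), kk ((d : ℝ) - 4) (zd y y') ≤
          ∑ y' ∈ A, kk ((d : ℝ) - 4) (zd y y') :=
        Finset.sum_le_sum_of_subset_of_nonneg (fun _ h => (mem_flt.1 h).2)
          fun _ _ _ => kk_nonneg _ (zd_nonneg _ _)
      have b2 := near_sum (a := (d : ℝ) - 4) (by linarith) hr.2
      have b3 := hRS₂ d A y K (by omega) hr.2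
      have b4 : R₂ * kk ((d : ℝ) - 4 - 9 / 2) K ≤ R₂ * 1 :=
        mul_le_mul_of_nonneg_left (kk_le_one (by linarith) hK0) hR₂.le
      calc _ ≤ C * C * A₃ * W * Q * ((K : ℝ) ^ (9 / 2 : ℝ) + R₂) :=
            mul_le_mul_of_nonneg_left (by linarith) (by positivity)
        _ = _ := by rw [hH]; ring
    · rw [ind_neg hr, mul_zero, mul_zero, zero_mul]
  refine arith (H := H) (Q := Q) hθ0 hP0 hQ0 hN0 hθH ?_
  calc θ * (P * Q * N) = θ * p ^ K * (c' / 2 * Q * N) := by rw [hP]; ring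
    _ ≤ _ := mul_le_mul_of_nonneg_left left (by positivity)
    _ ≤ _ := hsum
    _ ≤ _ := add_le_add (hup x) (mul_le_mul_of_nonneg_left right (by positivity))

end Pool.Agent.TPC
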