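import Pool.Agent.Lib.TPC.BlueF2

open Finset

namespace Pool.Agent.TPC

namespace SETN13

variable {d n : ℕ} [NeZero n]

lemma card_tball (x : Tor d n) {r : ℝ} (hr : 0 ≤ r) (h : 2 * r < n) :
    (tball x r).card = (2 * ⌊r⌋₊ + 1) ^ d := by
  have e : tball x r = tball x (⌊r⌋₊ : ℕ) := by
    ext y
    obtain ⟨k, hk⟩ := td_nat x y
    rw [mem_tball, mem_tball, hk, Nat.cast_le, Nat.le_floor_iff hr]
  rw [e, ← proj_lift0 x, ← image_proj_box, Finset.card_image_of_injOn, card_box]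
  intro y hy z hz e
  refine proj_inj ?_ e
  have h1 := zd_tri y (lift0 x) z
  rw [zd_comm y (lift0 x)] at h1
  have h2 := mem_box.1 hy
  have h3 := mem_box.1 hz
  have := Nat.floor_le hr
  linarith

lemma pow_diff (d : ℕ) {a b : ℝ} (hb : 0 ≤ b) (h : b ≤ a) :
    a ^ (d + 1) - b ^ (d + 1) ≤ (d + 1) * (a - b) * a ^ d := by
  induction d with
  | zero => simp
  | succ k ih =>
    have ha : 0 ≤ a := hb.trans h
    have h1 : b ^ (k + 1) ≤ a ^ (k + 1) := pow_le_pow_left₀ hb h _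
    have h2 := mul_le_mul_of_nonneg_left ih ha
    have h3 := mul_le_mul_of_nonneg_left h1 (sub_nonneg.2 h)
    push_cast
    calc _ = a * (a ^ (k + 1) - b ^ (k + 1)) + (a - b) * b ^ (k + 1) := by ring
      _ ≤ a * ((k + 1) * (a - b) * a ^ k) + (a - b) * a ^ (k + 1) := by linarith
      _ = _ := by ring

end SETN13

open SETN13 in
theorem st13_SETN (h2 : St_TK2) : St_SETN := by
  intro d hd C₁ hC
  obtain ⟨Cs, hCs, H⟩ := h2 d hd 0
  obtain ⟨e, rfl⟩ : ∃ e, d = e + 1 := ⟨d - 1, by omega⟩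
  set D : ℝ := (e + 1) * 3 ^ e with hD
  have hD0 : 0 < D := by positivity
  refine ⟨fun γ => max (C₁ * Cs (min (1 / 2) (γ / (4 * D))))
    (1 / min (1 / 2) (γ / (4 * D))), ?_⟩
  intro K hK n _ M hG hg hn hN x
  have hl := M.l1
  have hl0 := M.l_pos
  have hV : M.Vol = M.l ^ (e + 1) := by
    unfold Core.Vol; rw [hN, ← pow_add]; congr 1; omega
  have hf : M.f0 = M.l ^ 2 / M.l ^ (e + 1) := by
    have := M.f0_mul_Vol
    rw [hV] at this
    rw [eq_div_iff (by positivity), this]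
  have hc1 := card_tball x hl0.le (by linarith : 2 * M.l < n)
  have hfl := Nat.lt_floor_add_one M.l
  have hfl' := Nat.floor_le hl0.le
  refine ⟨?_, fun γ hγ hγl => ?_⟩
  · rw [hc1, hV]
    push_cast
    calc _ ≤ 1 * M.l ^ (e + 1) := by gcongr; exact K.hc1
      _ ≤ _ := by
        rw [one_mul]
        have : (0 : ℝ) ≤ ⌊M.l⌋₊ := Nat.cast_nonneg _
        exact pow_le_pow_left₀ hl0.le (by linarith) _
  · set β := min (1 / 2) (γ / (4 * D)) with hβ
    have hβ0 : 0 < β := lt_min (by norm_num) (by positivity)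
    have hβ1 : β ≤ 1 / 2 := min_le_left _ _
    have hβ2 : β ≤ γ / (4 * D) := min_le_right _ _
    have hk := hK γ
    have k1 : C₁ * Cs β ≤ K.Cs γ := (le_max_left _ _).trans hk
    have k2 : 1 ≤ β * M.l := by
      have : 1 / β ≤ M.l := ((le_max_right _ _).trans hk).trans hγl
      rwa [div_le_iff₀ hβ0, mul_comm] at this
    have hr : 0 ≤ M.l - β * M.l := by nlinarith
    have hsub : tball x (M.l - β * M.l) ⊆ tball x M.l := fun y hy =>
      mem_tball.2 ((mem_tball.1 hy).trans (by linarith))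
    refine ⟨tball x (M.l - β * M.l), hsub, ?_, fun y hy v hv => ?_, fun y hy v hv => ?_⟩
    · rw [Finset.card_sdiff_of_subset hsub, Nat.cast_sub (card_le_card hsub), hc1,
        card_tball x hr (by linarith), hV]
      push_cast
      have g1 := Nat.lt_floor_add_one (M.l - β * M.l)
      have g2 : (⌊M.l - β * M.l⌋₊ : ℝ) ≤ ⌊M.l⌋₊ :=
        Nat.cast_le.2 (Nat.floor_le_floor (by linarith))
      have g3 := pow_diff e (a := 2 * (⌊M.l⌋₊ : ℝ) + 1) (b := 2 * (⌊M.l - β * M.l⌋₊ : ℝ) + 1)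
        (by positivity) (by linarith)
      refine g3.trans ?_
      have g4 : 2 * (⌊M.l⌋₊ : ℝ) + 1 - (2 * (⌊M.l - β * M.l⌋₊ : ℝ) + 1) ≤ 4 * β * M.l := by
        linarith
      have g5 : (2 * (⌊M.l⌋₊ : ℝ) + 1) ^ e ≤ (3 * M.l) ^ e :=
        pow_le_pow_left₀ (by positivity) (by linarith) _
      have g6 : 4 * D * β ≤ γ := by rwa [le_div_iff₀ (by positivity), mul_comm] at hβ2
      calc _ ≤ (e + 1) * (4 * β * M.l) * (3 * M.l) ^ e := by gcongr
        _ = 4 * D * β * M.l ^ (e + 1) := by rw [hD]; ring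
        _ ≤ _ := by gcongr
    · have a1 := mem_tball.1 hy
      have a2 : M.l < td x v := not_le.1 fun h => hv (mem_tball.2 h)
      have a3 := td_tri x y v
      have a4 := (H n M.l (M.l ^ 2 / M.l ^ (e + 1)) ∅ hl
        (Or.inr ⟨by linarith, rfl, x, empty_subset _⟩) β hβ0).2.2 v y
        (by rw [td_comm]; linarith)
      rw [hg, hf]
      calc _ ≤ C₁ * (Cs β * (M.l ^ 2 / M.l ^ (e + 1))) := by gcongr
        _ = C₁ * Cs β * (M.l ^ 2 / M.l ^ (e + 1)) := by ring
        _ ≤ _ := by gcongr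
    · rw [hG] at hv
      have a1 := mem_tball.1 hy
      have a2 := td_adj hv
      have a3 := td_tri x y v
      exact mem_tball.2 (by linarith)

end Pool.Agent.TPC
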