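import Pool.Agent.Lib.TPC.B_COVER
import Pool.Agent.Lib.TPC.B_S12
import Pool.Agent.Lib.TPC.B_TG0
import Pool.Agent.Lib.TPC.B_RUSSO
import Pool.Agent.Lib.TPC.B_Z1P
import Pool.Agent.Lib.TPC.B_BK
import Pool.Agent.Lib.TPC.B_PL12
import Pool.Agent.Lib.TPC.B_S3
import Pool.Agent.Lib.TPC.B_Z1M
import Pool.Agent.Lib.TPC.B_Z1
import Pool.Agent.Lib.TPC.B_ENT0
import Pool.Agent.Lib.TPC.B_ENT
import Pool.Agent.Lib.TPC.B_Z2_Z9
import Pool.Agent.Lib.TPC.B_FACE_SLB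
import Pool.Agent.Lib.TPC.B_PL4
import Pool.Agent.Lib.TPC.B_Z3A
import Pool.Agent.Lib.TPC.B_Z3
import Pool.Agent.Lib.TPC.B_TREE
import Pool.Agent.Lib.TPC.B_ET
import Pool.Agent.Lib.TPC.B_ETQ
import Pool.Agent.Lib.TPC.B_DC
import Pool.Agent.Lib.TPC.B_CROSS
import Pool.Agent.Lib.TPC.B_TOUCH
import Pool.Agent.Lib.TPC.B_Z4
import Pool.Agent.Lib.TPC.B_RS
import Pool.Agent.Lib.TPC.B_SLK
import Pool.Agent.Lib.TPC.B_Z5
import Pool.Agent.Lib.TPC.B_PSI_LAY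
import Pool.Agent.Lib.TPC.B_E2B
import Pool.Agent.Lib.TPC.B_E1B
import Pool.Agent.Lib.TPC.B_INC
import Pool.Agent.Lib.TPC.B_Z7
import Pool.Agent.Lib.TPC.B_T1
import Pool.Agent.Lib.TPC.B_TK1
import Pool.Agent.Lib.TPC.B_SETC
import Pool.Agent.Lib.TPC.B_TK2
import Pool.Agent.Lib.TPC.B_SETS
import Pool.Agent.Lib.TPC.B_GRID
import Pool.Agent.Lib.TPC.B_SETK
import Pool.Agent.Lib.TPC.H_SETN
import Pool.Agent.Lib.TPC.B_PL6
import Pool.Agent.Lib.TPC.B_Z8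
import Pool.Agent.Lib.TPC.B_SETL
import Pool.Agent.Lib.TPC.B_REG
import Pool.Agent.Lib.TPC.B_SETII
import Pool.Agent.Lib.TPC.B_ED
import Pool.Agent.Lib.TPC.B_KER
import Pool.Agent.Lib.TPC.B_ES
import Pool.Agent.Lib.TPC.B_EM
import Pool.Agent.Lib.TPC.B_EB
import Pool.Agent.Lib.TPC.B_TL
import Pool.Agent.Lib.TPC.B_PL3
import Pool.Agent.Lib.TPC.B_CL0
import Pool.Agent.Lib.TPC.B_EN
import Pool.Agent.Lib.TPC.B_EX
import Pool.Agent.Lib.TPC.B_XB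
import Pool.Agent.Lib.TPC.B_XT
import Pool.Agent.Lib.TPC.B_TA
import Pool.Agent.Lib.TPC.B_XZ
import Pool.Agent.Lib.TPC.B_CL
import Pool.Agent.Lib.TPC.B_TC
import Pool.Agent.Lib.TPC.B_G2
import Pool.Agent.Lib.TPC.B_BADP
import Pool.Agent.Lib.TPC.B_TEST
import Pool.Agent.Lib.TPC.B_MAIN
import Pool.Agent.Lib.TPC.B_LBc
import Pool.Agent.Lib.TPC.B_Yb
import Pool.Agent.Lib.TPC.B_Y
import Pool.Agent.Lib.TPC.B_CUT
import Pool.Agent.Lib.TPC.B_LW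
import Pool.Agent.Lib.TPC.B_HULL
import Pool.Agent.Lib.TPC.B_WALK
import Pool.Agent.Lib.TPC.B_OJ
import Pool.Agent.Lib.TPC.B_PK2
import Pool.Agent.Lib.TPC.B_T2B
import Pool.Agent.Lib.TPC.B_T2C
import Pool.Agent.Lib.TPC.B_T2E
import Pool.Agent.Lib.TPC.B_T2
import Pool.Agent.Lib.TPC.B_SETI
import Pool.Agent.Lib.TPC.B_UI
import Pool.Agent.Lib.TPC.B_UIIa
import Pool.Agent.Lib.TPC.B_NUMB
import Pool.Agent.Lib.TPC.B_SEQ
import Pool.Agent.Lib.TPC.B_DROP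
import Pool.Agent.Lib.TPC.B_NONO
import Pool.Agent.Lib.TPC.B_OVER
import Pool.Agent.Lib.TPC.B_UIIb
import Pool.Agent.Lib.TPC.B_UP
import Pool.Agent.Lib.TPC.B_BR0
import Pool.Agent.Lib.TPC.B_BRZ
import Pool.Agent.Lib.TPC.B_FUP
import Pool.Agent.Lib.TPC.B_CUBE
import Pool.Agent.Lib.TPC.B_LIN
import Pool.Agent.Lib.TPC.B_LBb
import Pool.Agent.Lib.TPC.B_LOW
import Pool.Agent.Lib.TPC.B_T3
import Pool.Agent.Lib.TPC.B_FLOW
import Pool.Agent.Lib.TPC.BlueF1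

/-! Assembly of all blocks. -/

namespace Pool.Agent.TPC.All

theorem a_COVER : St_COVER := st_COVER
theorem a_S12 : St_S12 := st_S12
theorem a_S4 : St_S4 := st_S4 a_S12
theorem a_TG0 : St_TG0 := st_TG0 a_S4
theorem a_RUSSO : St_RUSSO := st_RUSSO
theorem a_Z1p : St_Z1p := st_Z1p
theorem a_BK2 : St_BK2 := st_BK2
theorem a_BK : St_BK := st_BK a_BK2
theorem a_PL1 : St_PL1 := st_PL1 a_BK
theorem a_PL2 : St_PL2 := st_PL2 a_BK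
theorem a_S3 : St_S3 := st_S3 a_S12
theorem a_Z1m : St_Z1m := st_Z1m a_PL1 a_PL2 a_S3
theorem a_Z1 : St_Z1 := st_Z1 a_RUSSO a_Z1p a_Z1m a_S12
theorem a_ENT0 : St_ENT0 := st_ENT0
theorem a_ENT : St_ENT := st_ENT a_ENT0
theorem a_E1 : St_E1 := st_E1 a_ENT
theorem a_Z2 : St_Z2 := st_Z2 a_Z1 a_E1
theorem a_FACE : St_FACE := st_FACE
theorem a_PL4 : St_PL4 := st_PL4 a_BK
theorem a_SLB : St_SLB := st_SLB a_PL4
theorem a_Z3a : St_Z3a := st_Z3a a_SLB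
theorem a_Z3 : St_Z3 := st_Z3 a_FACE a_Z3a
theorem a_TREE : St_TREE := st_TREE
theorem a_ET : St_ET := st_ET a_TREE a_BK
theorem a_ETQ : St_ETQ := st_ETQ a_ET a_S12
theorem a_DC : St_DC := st_DC
theorem a_CROSS : St_CROSS := st_CROSS a_DC a_Z2
theorem a_TOUCH : St_TOUCH := st_TOUCH
theorem a_Z4 : St_Z4 := st_Z4 a_Z3 a_ETQ a_CROSS a_TOUCH
theorem a_RS : St_RS := st_RS
theorem a_SLR : St_SLR := st_SLR a_PL1 a_PL2
theorem a_Z5 : St_Z5 := st_Z5 a_Z4 a_RS a_SLR a_S12 a_S3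
theorem a_PSI : St_PSI := st_PSI a_Z5
theorem a_SLK : St_SLK := st_SLK a_PL1 a_PL2
theorem a_PL5 : St_PL5 := st_PL5 a_BK
theorem a_LAY : St_LAY := st_LAY a_PL5
theorem a_E2B : St_E2B := st_E2B a_LAY a_S3
theorem a_E1B : St_E1B := st_E1B a_LAY a_S12
theorem a_INC : St_INC := st_INC a_PSI a_FACE a_SLK a_E2B a_E1B
theorem a_Z7L : St_Z7L := st_Z7L a_INC a_Z1
theorem a_Z7a : St_Z7a := st_Z7a a_Z7L a_SLB
theorem a_T1 : St_T1 := st_T1 a_COVER a_TG0 a_Z1 a_Z2 a_Z7a a_S4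
theorem a_TK1 : St_TK1 := st_TK1 a_S12 a_S3
theorem a_SETC : St_SETC := st_SETC a_T1 a_TK1
theorem a_TK2 : St_TK2 := st_TK2 a_S12
theorem a_SETS : St_SETS := st_SETS a_TK2
theorem a_GRID : St_GRID := st_GRID
theorem a_SETK : St_SETK := st_SETK a_T1 a_TK2 a_GRID
theorem a_SETN : St_SETN := st13_SETN a_TK2
theorem a_PL6 : St_PL6 := st_PL6 a_BK
theorem a_Z8 : St_Z8 := st_Z8 a_PL6 a_S3 a_SLB a_FACE a_PSI
theorem a_SETL : St_SETL := st_SETL a_Z8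
theorem a_COL : St_COL := st_COL
theorem a_REG : St_REG := st_REG a_GRID a_COL
theorem a_SETII : St_SETII := st_SETII a_SETC a_SETS a_SETK a_SETN a_SETL a_REG
theorem a_ED : St_ED := st_ED
theorem a_ET2 : St_ET2 := st_ET2 a_PL2
theorem a_KER : St_KER := st_KER a_ET a_ET2
theorem a_ES : St_ES := st_ES a_ED a_KER
theorem a_ER : St_ER := st_ER a_KER a_PL1
theorem a_EM : St_EM := st_EM a_ED a_KER a_ET2
theorem a_EB : St_EB := st_EB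
theorem a_TL : St_TL := st_TL
theorem a_PL3a : St_PL3a := st_PL3a a_BK
theorem a_CL0 : St_CL0 := st_CL0 a_TL a_KER a_PL3a a_ET2
theorem a_EN : St_EN := st_EN
theorem a_EX : St_EX := st_EX a_ED a_ES a_ER a_EM a_EB a_CL0 a_EN
theorem a_XB : St_XB := st_XB
theorem a_BIG : St_BIG := st_BIG a_E1
theorem a_XT : St_XT := st_XT a_XB a_BIG a_KER
theorem a_TA : St_TA := st_TA a_XT a_EN
theorem a_XZ : St_XZ := st_XZ a_XB a_BIG a_KER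
theorem a_PL3 : St_PL3 := st_PL3 a_BK
theorem a_CL : St_CL := st_CL a_TL a_KER a_PL3 a_ET2
theorem a_TC : St_TC := st_TC a_XB a_BIG a_KER a_EN a_XT a_XZ a_CL
theorem a_G2 : St_G2 := st_G2 a_XB a_BIG a_TA a_TC
theorem a_GGC : St_GGC := st_GGC
theorem a_BADP : St_BADP := st_BADP a_EX a_G2 a_GGC
theorem a_TEST : St_TEST := st_TEST a_TC
theorem a_REV : St_REV := st_REV
theorem a_MAIN : St_MAIN := st_MAIN a_XB a_BIG a_TA a_TEST a_REV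
theorem a_LEV : St_LEV := st_LEV
theorem a_Z7b : St_Z7b := st_Z7b a_Z7L a_SLB a_E1 a_Z1
theorem a_CHI : St_CHI := st_CHI a_BK
theorem a_Yb : St_Yb := st_Yb a_Z2 a_Z7b a_E1 a_CHI a_ET a_DC a_S12
theorem a_Y : St_Y := st_Y a_Yb a_GRID a_COL
theorem a_CUT : St_CUT := st_CUT
theorem a_LW : St_LW := st_LW
theorem a_HULL : St_HULL := st_HULL a_LW
theorem a_WALK : St_WALK := st_WALK
theorem a_OJ : St_OJ := st_OJ a_CUT a_HULL a_WALK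
theorem a_PK2 : St_PK2 := st_PK2 a_SETII a_BADP a_MAIN a_LEV a_Y a_GRID a_OJ a_GGC
theorem a_T2a : St_T2a := st_T2a
theorem a_T2b : St_T2b := st_T2b a_BK
theorem a_T2c : St_T2c := st_T2c a_S12 a_S3
theorem a_T2e : St_T2e := st_T2e a_TG0
theorem a_T2m : St_T2m := st_T2m a_Z8
theorem a_T2 : St_T2 := st_T2 a_T2a a_T2b a_T2c a_T2e a_T2m a_Z7a
theorem a_SETI : St_SETI := st_SETI a_SETC a_SETS a_T2
theorem a_UPA : St_UPA := st_UPA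
theorem a_UI : St_UI := st_UI a_SETI a_BADP a_MAIN a_LEV a_GGC a_UPA
theorem a_UIIa : St_UIIa := st_UIIa a_UPA a_OJ a_GGC a_HULL
theorem a_NUMB : St_NUMB := st_NUMB
theorem a_SEQ : St_SEQ := st_SEQ
theorem a_ANI : St_ANI := st_ANI a_SEQ a_WALK
theorem a_CALM : St_CALM := st_CALM a_ANI a_WALK
theorem a_DROP : St_DROP := st_DROP a_SEQ a_ANI a_HULL
theorem a_NONO : St_NONO := st_NONO a_WALK a_GRID a_DROP a_HULL
theorem a_OVER : St_OVER := st_OVER a_WALK a_GRID a_SEQ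
theorem a_UIIb : St_UIIb := st_UIIb a_NUMB a_UPA a_OJ a_GGC a_CALM a_NONO a_OVER
theorem a_UP : St_UP := st_UP a_PK2 a_UI a_UIIa a_UIIb
theorem a_BR0 : St_BR0 := st_BR0
theorem a_BRZ : St_BRZ := st_BRZ a_BR0
theorem a_BRT : St_BRT := st_BRT a_BR0
theorem a_FUP : St_FUP := st_FUP a_UP a_BRZ a_BRT
theorem a_CUBE : St_CUBE := st_CUBE a_CUT a_HULL a_ANI a_WALK
theorem a_LIN : St_LIN := st_LIN a_PK2 a_CUBE a_GRID a_GGC
theorem a_Z7c : St_Z7c := st_Z7c a_Z7L a_SLB a_Z7b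
theorem a_Z9 : St_Z9 := st_Z9 a_Z1 a_Z2 a_E1
theorem a_LBb : St_LBb := st_LBb a_ENT a_Z7c a_Z9
theorem a_LBc : St_LBc := st_LBc
theorem a_LOW : St_LOW := st_LOW a_LIN a_LBb a_LBc
theorem a_BRC : St_BRC := st_BRC a_BR0
theorem a_DC2 : St_DC2 := st_DC2
theorem a_T3 : St_T3 := st_T3 a_BRC a_BRT a_Z2 a_T1 a_T2 a_ET2 a_DC2
theorem a_FLOW : St_FLOW := st_FLOW a_LOW a_T3 a_BRZ a_BRT
theorem a_THM : St_THM := st_THM a_FUP a_FLOW

end Pool.Agent.TPC.All
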