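import Pool.Agent.Lib.TPC.BlueC

/-! Block CL0, part a: the payoff, its domination, the cost of light clusters, second moment. -/

open Finset

set_option linter.unusedSectionVars false

namespace Pool.Agent.TPC

namespace CL0

variable {K : Kc} {V : Type} [Fintype V] [DecidableEq V]

/-- weighted number of contacts of `v` with `A₁` -/
noncomputable def hh (M : Core K V) (a A₁ : Finset V) (M₀ : ℝ) (v : V) : ℝ :=
  ∑ u ∈ A₁, ind (M.G.Adj u v) * (M.pot a u / M₀)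

/-- the payoff -/
noncomputable def XX (M : Core K V) (Q a A₁ : Finset V) (M₀ s : ℝ) (C : Finset V) : ℝ :=
  ind (s ≤ ((C ∩ Q).card : ℝ)) * ∑ v ∈ C, hh M a A₁ M₀ v

variable {M : Core K V} {U Q A a A₁ : Finset V} {M₀ M₁ s : ℝ}

lemma hh_nonneg (h0 : 0 < M₀) (v : V) : 0 ≤ hh M a A₁ M₀ v :=
  Finset.sum_nonneg fun u _ => mul_nonneg (ind_nonneg _) (div_nonneg (M.pot_nonneg a u) h0.le)

lemma hh_le (h0 : 0 < M₀) (ha : ∀ u, M.pot a u ≤ M₀) (v : V) :
    hh M a A₁ M₀ v ≤ ∑ u ∈ A₁, ind (M.G.Adj u v) :=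
  Finset.sum_le_sum fun u _ =>
    mul_le_of_le_one_right (ind_nonneg _) ((div_le_one h0).2 (ha u))

lemma XX_empty : XX M Q a A₁ M₀ s ∅ = 0 := by simp [XX]

lemma XX_nonneg (h0 : 0 < M₀) (C : Finset V) : 0 ≤ XX M Q a A₁ M₀ s C :=
  mul_nonneg (ind_nonneg _) (Finset.sum_nonneg fun v _ => hh_nonneg h0 v)

lemma XX_le (h0 : 0 < M₀) (C : Finset V) : XX M Q a A₁ M₀ s C ≤ ∑ v ∈ C, hh M a A₁ M₀ v :=
  mul_le_of_le_one_left (Finset.sum_nonneg fun v _ => hh_nonneg h0 v) (ind_le_one _)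

lemma XX_mono (h0 : 0 < M₀) : Monotone (XX M Q a A₁ M₀ s) := by
  intro C C' h
  refine mul_le_mul (ind_mono fun h2 => h2.trans ?_)
    (Finset.sum_le_sum_of_subset_of_nonneg h fun v _ _ => hh_nonneg h0 v)
    (Finset.sum_nonneg fun v _ => hh_nonneg h0 v) (ind_nonneg _)
  exact_mod_cast Finset.card_le_card (Finset.inter_subset_inter h subset_rfl)

/-- the payoffs of disjoint pieces are dominated by the number of contacts -/
lemma sum_XX_le (h0 : 0 < M₀) (ha : ∀ u, M.pot a u ≤ M₀) (h1 : A₁ ⊆ A ∩ Q)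
    (hQ : ∀ y ∈ A₁, ∀ v, M.G.Adj y v → v ∈ Q) (σ : ℝ) (η : Finset (Sym2 V)) (S' : Finset V)
    (P : V → Finset V) (hP : ∀ t ∈ S', P t ⊆ cl M.G (U \ A) η t)
    (hd : ∀ t ∈ S', ∀ t' ∈ S', t ≠ t' → Disjoint (P t) (P t')) :
    ∑ t ∈ S', XX M Q a A₁ M₀ (σ * M.l ^ 4) (P t) ≤ M.FF U Q A σ η := by
  unfold Core.FF
  generalize hH : (flt (Q \ A) fun v => σ * M.l ^ 4 ≤ ((cl M.G (U \ A) η v ∩ Q).card : ℝ)) = H
  have key : ∀ t ∈ S', XX M Q a A₁ M₀ (σ * M.l ^ 4) (P t) ≤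
      ∑ v ∈ P t, ind (v ∈ H) * ∑ u ∈ A ∩ Q, ind (M.G.Adj v u) := by
    intro t ht
    have n1 : ∀ v, 0 ≤ ∑ u ∈ A ∩ Q, ind (M.G.Adj v u) := fun v =>
      Finset.sum_nonneg fun _ _ => ind_nonneg _
    refine ind_mul_le (Finset.sum_nonneg fun v _ => mul_nonneg (ind_nonneg _) (n1 v)) fun hb => ?_
    refine Finset.sum_le_sum fun v hv => (hh_le h0 ha v).trans ?_
    by_cases hv2 : ∃ u ∈ A₁, M.G.Adj u v
    · obtain ⟨u, hu, huv⟩ := hv2
      have c1 := mem_cl.1 (hP t ht hv)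
      have hvH : v ∈ H := by
        rw [← hH, mem_flt]
        refine ⟨Finset.mem_sdiff.2 ⟨hQ u hu v huv, (Finset.mem_sdiff.1 c1.right).2⟩, hb.trans ?_⟩
        rw [cl_eq_of_conn c1]
        exact_mod_cast Finset.card_le_card (Finset.inter_subset_inter (hP t ht) subset_rfl)
      rw [ind_pos hvH, one_mul]
      refine le_trans (le_of_eq (Finset.sum_congr rfl fun u _ => ind_congr (M.G.adj_comm _ _))) ?_
      exact Finset.sum_le_sum_of_subset_of_nonneg h1 fun _ _ _ => ind_nonneg _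
    · rw [Finset.sum_eq_zero fun u hu => ind_neg fun h => hv2 ⟨u, hu, h⟩]
      exact mul_nonneg (ind_nonneg _) (n1 v)
  refine (Finset.sum_le_sum key).trans ?_
  rw [← Finset.sum_biUnion fun t ht t' ht' h => hd t ht t' ht' h, ec_comm, ec]
  refine (Finset.sum_le_sum_of_subset_of_nonneg (Finset.subset_univ _) fun v _ _ =>
    mul_nonneg (ind_nonneg _) (Finset.sum_nonneg fun _ _ => ind_nonneg _)).trans (le_of_eq ?_)
  rw [← sum_flt]
  congr 1
  ext v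
  simp

/-- the cost of light clusters -/
lemma light_le {G : SimpleGraph V} {π : Sym2 V → ℝ} (hπ : Prob π) (D Z : Finset V) (hZ : Z ⊆ Q)
    (h : V → ℝ) (hh0 : ∀ v, 0 ≤ h v) (hs : 0 ≤ s) :
    ∑ z ∈ Z, EC G π D z (fun C => ind (¬ s ≤ ((C ∩ Q).card : ℝ)) * ∑ v ∈ C, h v) ≤
      ∑ v ∈ D, h v * EC G π D v (fun C => min (C.card : ℝ) s) := by
  unfold EC
  simp only [← PE_mul_left]
  rw [← PE_sum, ← PE_sum]
  refine PE_mono hπ fun ω => ?_
  simp only [sum_cl, Finset.mul_sum]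
  rw [Finset.sum_comm]
  refine Finset.sum_le_sum fun v _ => ?_
  have e : ∀ z, ind (¬ s ≤ ((cl G D ω z ∩ Q).card : ℝ)) * (ind (conn G D ω z v) * h v) =
      h v * (ind (¬ s ≤ ((cl G D ω v ∩ Q).card : ℝ)) * ind (z ∈ cl G D ω v)) := by
    intro z
    by_cases hc : conn G D ω z v
    · rw [cl_eq_of_conn hc, ind_pos hc, ind_pos (self_mem_cl hc.1)]; ring
    · rw [ind_neg hc, ind_neg (P := z ∈ cl G D ω v) fun h2 => hc (mem_cl.1 h2).symm]; ring
  simp only [e]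
  rw [← Finset.mul_sum, ← Finset.mul_sum]
  refine mul_le_mul_of_nonneg_left ?_ (hh0 v)
  refine ind_mul_le (le_min (Nat.cast_nonneg _) hs) fun hb => ?_
  have c1 : ∑ z ∈ Z, ind (z ∈ cl G D ω v) ≤ ((cl G D ω v ∩ Q).card : ℝ) := by
    rw [← card_flt]
    exact_mod_cast Finset.card_le_card fun z hz =>
      Finset.mem_inter.2 ⟨(mem_flt.1 hz).2, hZ (mem_flt.1 hz).1⟩
  refine c1.trans (le_min ?_ (not_le.1 hb).le)
  exact_mod_cast Finset.card_le_card Finset.inter_subset_left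

/-- total weight of the contacts -/
lemma sum_hh_le (h0 : 0 < M₀) (ha : ∀ u, M.pot a u ≤ M₀) (D : Finset V) :
    ∑ v ∈ D, hh M a A₁ M₀ v ≤ K.Δ * A₁.card := by
  refine (Finset.sum_le_sum fun v _ => hh_le h0 ha v).trans ?_
  rw [Finset.sum_comm]
  exact ec_le M.deg A₁ D

lemma light_cost (h0 : 0 < M₀) (ha : ∀ u, M.pot a u ≤ M₀) (hs : 1 ≤ s) (D Z : Finset V)
    (hZ : Z ⊆ Q) :
    ∑ z ∈ Z, M.EB D z (fun C => ind (¬ s ≤ ((C ∩ Q).card : ℝ)) * ∑ v ∈ C, hh M a A₁ M₀ v) ≤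
      K.Δ * A₁.card * (K.C * √s) := by
  refine (light_le M.prob D Z hZ _ (hh_nonneg h0) (by linarith)).trans ?_
  have c1 : ∀ v, EC M.G (fun _ => M.p) D v (fun C => min (C.card : ℝ) s) ≤ K.C * √s := fun v =>
    (EC_mono_dom M.prob (Finset.subset_univ D) fun C C' h =>
      min_le_min (by exact_mod_cast Finset.card_le_card h) le_rfl).trans (M.d2 v s hs)
  refine (Finset.sum_le_sum fun v _ => mul_le_mul_of_nonneg_left (c1 v) (hh_nonneg h0 v)).trans ?_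
  rw [← Finset.sum_mul]
  exact mul_le_mul_of_nonneg_right (sum_hh_le h0 ha D)
    (mul_nonneg (by linarith [K.hC]) (Real.sqrt_nonneg _))

/-- smoothing of the contact weight -/
lemma conv_hh_le (h0 : 0 < M₀) (D : Finset V) (v : V) :
    ∑ y ∈ D, M.tb D v y * hh M a A₁ M₀ y ≤
      K.C * K.Δ * ∑ u ∈ A₁, M.g v u * (M.pot a u / M₀) := by
  have hC : 0 ≤ K.C := by linarith [K.hC]
  unfold hh
  simp only [Finset.mul_sum]
  rw [Finset.sum_comm]
  refine Finset.sum_le_sum fun u _ => ?_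
  have n1 : 0 ≤ M.pot a u / M₀ := div_nonneg (M.pot_nonneg a u) h0.le
  have c1 : ∀ y, M.tb D v y * (ind (M.G.Adj u y) * (M.pot a u / M₀)) ≤
      ind (M.G.Adj u y) * (K.C * (M.g v u * (M.pot a u / M₀))) := by
    intro y
    by_cases h : M.G.Adj u y
    · rw [ind_pos h, one_mul, one_mul, ← mul_assoc]
      refine mul_le_mul_of_nonneg_right ((M.tb_le D v y).trans ?_) n1
      rw [M.symm v y, M.symm v u]
      exact M.nbr u y v h
    · rw [ind_neg h]; simp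
  refine (Finset.sum_le_sum fun y _ => c1 y).trans ?_
  rw [← Finset.sum_mul]
  have := mul_le_mul_of_nonneg_right (M.deg.sum_ind u D)
    (mul_nonneg hC (mul_nonneg (M.g_nonneg v u) n1))
  linarith

lemma conv_le_one (h0 : 0 < M₀) (ha : ∀ u, M.pot a u ≤ M₀) (h1 : ∀ u, M.pot A₁ u ≤ M₁) (v : V) :
    ∑ u ∈ A₁, M.g v u * (M.pot a u / M₀) ≤ M₁ :=
  le_trans (Finset.sum_le_sum fun u _ =>
    mul_le_of_le_one_right (M.g_nonneg v u) ((div_le_one h0).2 (ha u))) (h1 v)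

lemma conv_le_two (h0 : 0 < M₀) (h1 : ∀ u, M.pot A₁ u ≤ M₁) (v : V) :
    ∑ u ∈ A₁, M.g v u * (M.pot a u / M₀) ≤ 2 * K.C * M₁ / M₀ * M.pot a v := by
  have hC : 0 ≤ K.C := by linarith [K.hC]
  have c1 : ∑ u ∈ A₁, M.g v u * M.pot a u ≤ 2 * K.C * M₁ * M.pot a v := by
    unfold Core.pot
    simp only [Finset.mul_sum]
    rw [Finset.sum_comm]
    refine Finset.sum_le_sum fun b _ => ?_
    refine (Finset.sum_le_sum fun u _ => M.k3 v u b).trans ?_
    rw [← Finset.mul_sum, Finset.sum_add_distrib]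
    have a1 : ∑ u ∈ A₁, M.g v u ≤ M₁ := h1 v
    have a2 : ∑ u ∈ A₁, M.g u b ≤ M₁ := by
      rw [Finset.sum_congr rfl fun u _ => M.symm u b]; exact h1 b
    have := mul_le_mul_of_nonneg_left (add_le_add a1 a2) (mul_nonneg hC (M.g_nonneg v b))
    linarith
  simp only [← mul_div_assoc]
  rw [← Finset.sum_div, div_mul_eq_mul_div]
  exact div_le_div_of_nonneg_right c1 h0.le

/-- second moment of the payoff -/
lemma second_moment (hE : St_ET2) (h0 : 0 < M₀) (ha : ∀ u, M.pot a u ≤ M₀) (hM : 0 < M₁)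
    (h1 : ∀ u, M.pot A₁ u ≤ M₁) {Λ : ℝ}
    (hK : ∀ v, ∑ u ∈ U, M.g v u * M.Wp a u ≤ Λ * M.l ^ 2 * M.Wp a v) (D : Finset V) (hD : D ⊆ U)
    (z : V) : M.EB D z (fun C => XX M Q a A₁ M₀ s C ^ 2) ≤
      2 * K.C ^ 3 * K.Δ ^ 2 * M₁ ^ 2 / M₀ * (Λ * M.l ^ 2) * M.Wp a z := by
  have hC : 0 ≤ K.C := by linarith [K.hC]
  have hΔ : (0 : ℝ) ≤ K.Δ := Nat.cast_nonneg _
  have e1 := hE V M.G (fun _ => M.p) M.prob D z (fun y u => hh M a A₁ M₀ y * hh M a A₁ M₀ u)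
    fun y u => mul_nonneg (hh_nonneg h0 y) (hh_nonneg h0 u)
  refine le_trans (EC_mono M.prob fun C _ => ?_) (e1.trans ?_)
  · rw [← Finset.sum_mul_sum, ← sq]
    exact pow_le_pow_left₀ (XX_nonneg h0 C) (XX_le h0 C) 2
  · have hk : 0 ≤ 2 * K.C ^ 3 * K.Δ ^ 2 * M₁ ^ 2 / M₀ := by positivity
    have c1 : ∀ v, ∑ y ∈ D, ∑ u ∈ D, tau M.G (fun _ => M.p) D v y * tau M.G (fun _ => M.p) D v u *
        (hh M a A₁ M₀ y * hh M a A₁ M₀ u) ≤ 2 * K.C ^ 3 * K.Δ ^ 2 * M₁ ^ 2 / M₀ * M.Wp a v := by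
      intro v
      have e : ∑ y ∈ D, ∑ u ∈ D, tau M.G (fun _ => M.p) D v y * tau M.G (fun _ => M.p) D v u *
          (hh M a A₁ M₀ y * hh M a A₁ M₀ u) = (∑ y ∈ D, M.tb D v y * hh M a A₁ M₀ y) *
            ∑ y ∈ D, M.tb D v y * hh M a A₁ M₀ y := by
        rw [Finset.sum_mul_sum]
        exact Finset.sum_congr rfl fun y _ => Finset.sum_congr rfl fun u _ => by
          unfold Core.tb; ring
      rw [e]
      have b0 := conv_hh_le (M := M) (a := a) (A₁ := A₁) h0 D v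
      have n0 : 0 ≤ ∑ y ∈ D, M.tb D v y * hh M a A₁ M₀ y :=
        Finset.sum_nonneg fun y _ => mul_nonneg (M.tb_nonneg D v y) (hh_nonneg h0 y)
      have b1 := b0.trans (mul_le_mul_of_nonneg_left (conv_le_one h0 ha h1 v) (mul_nonneg hC hΔ))
      have b2 := b0.trans
        (mul_le_mul_of_nonneg_left (conv_le_two (a := a) h0 h1 v) (mul_nonneg hC hΔ))
      refine (mul_le_mul b1 b2 n0 (by positivity)).trans ?_
      have b3 : M.pot a v ≤ M.Wp a v :=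
        le_add_of_nonneg_right (mul_nonneg M.f0_pos.le (Nat.cast_nonneg _))
      refine le_trans (le_of_eq ?_) (mul_le_mul_of_nonneg_left b3 hk)
      ring
    have c2 : ∑ v ∈ D, tau M.G (fun _ => M.p) D z v * M.Wp a v ≤ Λ * M.l ^ 2 * M.Wp a z := by
      refine le_trans ?_ (hK z)
      refine (Finset.sum_le_sum fun v _ =>
        mul_le_mul_of_nonneg_right (M.tb_le D z v) (M.Wp_nonneg a v)).trans ?_
      exact Finset.sum_le_sum_of_subset_of_nonneg hD fun v _ _ =>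
        mul_nonneg (M.g_nonneg z v) (M.Wp_nonneg a v)
    refine (Finset.sum_le_sum fun v _ =>
      mul_le_mul_of_nonneg_left (c1 v) (tau_nonneg M.prob)).trans ?_
    have := mul_le_mul_of_nonneg_left c2 hk
    rw [Finset.mul_sum] at this
    refine le_trans (le_of_eq (Finset.sum_congr rfl fun v _ => by ring)) (this.trans (le_of_eq ?_))
    ring

end CL0

end Pool.Agent.TPC
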