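import Pool.Agent.Lib.TPC.BlueZ

/-! Block COVER: joint exploration of the torus and of the lattice. -/

open Finset

set_option linter.unusedSectionVars false

namespace Pool.Agent.TPC

open Pool.Agent.Lib.MP_81a99a_pr (lattice torus cluster kthLargest pc MeanField)

namespace Cover

variable {d n : ℕ} [NeZero n]

/-- what is known when the exploration stops -/
structure Term (n : ℕ) [NeZero n] (Λ : Finset (Zd d)) (x : Zd d) (S : Finset (Zd d))
    (ω : Finset (Sym2 (Zd d))) (η : Finset (Sym2 (Tor d n))) : Prop where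
  mem : x ∈ S
  inj : Set.InjOn (proj n) (S : Set (Zd d))
  lat : ∀ a ∈ S, conn (lattice d) Λ ω x a
  tor : ∀ a ∈ S, conn (torus d n) univ η (proj n x) (proj n a)
  near : ∀ a ∈ S, zn x a < S.card
  shut : ∀ a ∈ S, ∀ b ∈ Λ, (lattice d).Adj a b → proj n b ∉ S.image (proj n) →
    s(a, b) ∉ ω ∧ s(proj n a, proj n b) ∉ η

/-- the invariant: `S` explored points, `X` examined edges, `O` edges found open -/
structure Ivt (n : ℕ) (Λ : Finset (Zd d)) (x : Zd d) (S : Finset (Zd d))
    (X O : Finset (Sym2 (Zd d))) : Prop where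
  mem : x ∈ S
  inj : Set.InjOn (proj n) (S : Set (Zd d))
  lat : ∀ a ∈ S, conn (lattice d) Λ O x a
  near : ∀ a ∈ S, zn x a < S.card
  ex : ∀ e ∈ X, ∃ a ∈ S, ∃ b, (lattice d).Adj a b ∧ e = s(a, b)
  op : ∀ e ∈ O, ∀ v ∈ e, v ∈ S

lemma proj_conn (hn : 3 ≤ n) {Λ : Finset (Zd d)} {O : Finset (Sym2 (Zd d))} {x a : Zd d}
    (h : conn (lattice d) Λ O x a) :
    conn (torus d n) univ (O.image (Sym2.map (proj n))) (proj n x) (proj n a) :=
  h.induction (P := fun a => conn (torus d n) univ (O.image (Sym2.map (proj n))) (proj n x)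
    (proj n a)) (conn.refl (mem_univ _)) fun a b h1 hab _ _ he =>
      h1.tail (mem_univ _) (proj_adj (by omega) hab) (mem_image.2 ⟨_, he, rfl⟩) (mem_univ _)

lemma sdiff_insert' {α : Type} [DecidableEq α] {E X : Finset α} {e : α} (h : e ∈ E) (h' : e ∉ X) :
    E \ X = insert e (E \ insert e X) := by
  ext a
  by_cases ha : a = e
  · subst ha; simp [h, h']
  · simp [ha]

lemma run (hn : 3 ≤ n) {q : ℝ} (h0 : 0 ≤ q) (h1 : q ≤ 1) (Λ : Finset (Zd d)) (x : Zd d)
    (f : Finset (Sym2 (Zd d)) → ℝ) (g : Finset (Sym2 (Tor d n)) → ℝ)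
    (h : ∀ S ω η, Term n Λ x S ω η → g η ≤ f ω) (N : ℕ) :
    ∀ S X O, (edges (lattice d) Λ \ X).card = N → Ivt n Λ x S X O →
      PE (edges (torus d n) univ \ X.image (Sym2.map (proj n))) (fun _ => q)
          (fun η => g (O.image (Sym2.map (proj n)) ∪ η)) ≤
        PE (edges (lattice d) Λ \ X) (fun _ => q) (fun ω => f (O ∪ ω)) := by
  induction N using Nat.strong_induction_on with
  | _ N ih =>
  intro S X O hN I
  by_cases hc : ∃ a ∈ S, ∃ b ∈ Λ, (lattice d).Adj a b ∧ proj n b ∉ S.image (proj n) ∧ s(a, b) ∉ X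
  · obtain ⟨a, ha, b, hb, hab, hpb, hX⟩ := hc
    have hbS : b ∉ S := fun e => hpb (mem_image_of_mem _ e)
    have e1 : s(a, b) ∈ edges (lattice d) Λ := mk_mem_edges.2 ⟨hab, (I.lat a ha).right, hb⟩
    have e2 : s(proj n a, proj n b) ∈ edges (torus d n) univ :=
      mk_mem_edges.2 ⟨proj_adj (by omega) hab, mem_univ _, mem_univ _⟩
    have e3 : s(proj n a, proj n b) ∉ X.image (Sym2.map (proj n)) := by
      intro e
      obtain ⟨e, he, h2⟩ := mem_image.1 e
      obtain ⟨a', ha', b', hab', rfl⟩ := I.ex e he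
      rw [Sym2.map_mk, Sym2.eq_iff] at h2
      rcases h2 with h2 | h2
      · obtain rfl : a' = a := I.inj ha' ha h2.1
        obtain rfl : b' = b := lift_step_unique hn hab' hab h2.2
        exact hX he
      · exact hpb (mem_image.2 ⟨a', ha', h2.1⟩)
    have hlt : (edges (lattice d) Λ \ insert s(a, b) X).card < N := by
      rw [← hN, sdiff_insert' e1 hX, card_insert_of_notMem (by simp)]
      exact Nat.lt_succ_self _
    have hex : ∀ S', S ⊆ S' → ∀ e ∈ insert s(a, b) X,
        ∃ a ∈ S', ∃ b, (lattice d).Adj a b ∧ e = s(a, b) := by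
      intro S' hS e he
      rcases mem_insert.1 he with rfl | he
      · exact ⟨a, hS ha, b, hab, rfl⟩
      · obtain ⟨a', h2, h3⟩ := I.ex e he
        exact ⟨a', hS h2, h3⟩
    have i0 := ih _ hlt S (insert s(a, b) X) O rfl
      ⟨I.mem, I.inj, I.lat, I.near, hex S subset_rfl, I.op⟩
    have i1 := ih _ hlt (insert b S) (insert s(a, b) X) (insert s(a, b) O) rfl
      ⟨mem_insert_of_mem I.mem, by
        rw [coe_insert]
        refine (Set.injOn_insert (by simpa using hbS)).2 ⟨I.inj, ?_⟩
        rintro ⟨c, hc, h2⟩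
        exact hpb (mem_image.2 ⟨c, hc, h2⟩), by
        intro c hc
        rcases mem_insert.1 hc with rfl | hc
        · exact ((I.lat a ha).mono subset_rfl (subset_insert _ _)).tail hb hab
            (mem_insert_self _ _) (I.lat a ha).right
        · exact (I.lat c hc).mono subset_rfl (subset_insert _ _), by
        intro c hc
        rw [card_insert_of_notMem hbS]
        rcases mem_insert.1 hc with rfl | hc
        · have h2 := zd_tri x a c
          rw [zd_adj hab, zd_eq_zn, zd_eq_zn] at h2
          have h3 : zn x c ≤ zn x a + 1 := by exact_mod_cast h2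
          have := I.near a ha
          omega
        · have := I.near c hc
          omega, hex _ (subset_insert _ _), by
        intro e he v hv
        rcases mem_insert.1 he with rfl | he
        · rcases Sym2.mem_iff.1 hv with rfl | rfl
          · exact mem_insert_of_mem ha
          · exact mem_insert_self _ _
        · exact mem_insert_of_mem (I.op e he v hv)⟩
    rw [image_insert, Sym2.map_mk] at i0 i1
    rw [image_insert, Sym2.map_mk] at i1
    rw [sdiff_insert' e1 hX, sdiff_insert' e2 e3, PE_insert (by simp), PE_insert (by simp)]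
    simp only [insert_union] at i1
    simp only [union_insert]
    have b1 := mul_le_mul_of_nonneg_left i1 h0
    have b0 := mul_le_mul_of_nonneg_left i0 (sub_nonneg.2 h1)
    linarith
  · rw [← PE_const (edges (lattice d) Λ \ X) (fun _ => q) (PE _ _ _)]
    refine PE_mono' (Prob.const h0 h1) fun ω hω => ?_
    rw [← PE_const (edges (torus d n) univ \ X.image (Sym2.map (proj n))) (fun _ => q) (f _)]
    refine PE_mono' (Prob.const h0 h1) fun η hη => h S _ _
      ⟨I.mem, I.inj, fun a ha => (I.lat a ha).mono subset_rfl subset_union_left,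
        fun a ha => (proj_conn hn (I.lat a ha)).mono subset_rfl subset_union_left, I.near,
        fun a ha b hb hab hpb => ?_⟩
    have hX : s(a, b) ∈ X := by
      by_contra hX
      exact hc ⟨a, ha, b, hb, hab, hpb, hX⟩
    constructor
    · intro e
      rcases mem_union.1 e with e | e
      · exact hpb (mem_image_of_mem _ (I.op _ e b (Sym2.mem_mk_right _ _)))
      · exact (mem_sdiff.1 (hω e)).2 hX
    · intro e
      rcases mem_union.1 e with e | e
      · obtain ⟨e, he, h2⟩ := mem_image.1 e
        have h3 : proj n b ∈ Sym2.map (proj n) e := h2 ▸ Sym2.mem_mk_right _ _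
        obtain ⟨v, hv, h4⟩ := Sym2.mem_map.1 h3
        exact hpb (mem_image.2 ⟨v, I.op e he v hv, h4⟩)
      · exact (mem_sdiff.1 (hη e)).2 (mem_image.2 ⟨_, hX, rfl⟩)

lemma couple (hn : 3 ≤ n) {q : ℝ} (h0 : 0 ≤ q) (h1 : q ≤ 1) {Λ : Finset (Zd d)} {x : Zd d}
    (hx : x ∈ Λ) (f : Finset (Sym2 (Zd d)) → ℝ) (g : Finset (Sym2 (Tor d n)) → ℝ)
    (h : ∀ S ω η, Term n Λ x S ω η → g η ≤ f ω) :
    PE (edges (torus d n) univ) (fun _ => q) g ≤ PE (edges (lattice d) Λ) (fun _ => q) f := by
  have := run hn h0 h1 Λ x f g h _ {x} ∅ ∅ rfl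
    ⟨mem_singleton_self x, by simp, fun a ha => by rw [mem_singleton.1 ha]; exact conn.refl hx,
      fun a ha => by
        have : zn x x ≤ 0 := zn_le.2 fun i => by omega
        rw [mem_singleton.1 ha, card_singleton]; omega, by simp, by simp⟩
  simpa using this

end Cover

open Cover

theorem st_COVER : St_COVER := by
  intro d n _ hn q h0 h1 x F hF
  refine couple hn h0 h1 (self_mem_box x _) _ _ fun S ω η T => hF ?_
  refine subset_trans (cl_subset_of (mem_image_of_mem _ T.mem) ?_)
    (image_subset_image fun a ha => mem_cl.2 (T.lat a ha))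
  intro a' ha' w _ hw he
  obtain ⟨a, ha, rfl⟩ := mem_image.1 ha'
  obtain ⟨b, hab, rfl⟩ := lift_step hw
  by_contra hb
  refine (T.shut a ha b ?_ hab hb).2 he
  have h2 : S.card ≤ n ^ d := by
    rw [← card_Tor, ← card_univ]
    exact card_le_card_of_injOn _ (fun _ _ => mem_univ _) T.inj
  have h3 := T.near a ha
  have h4 : a ∈ box x (n ^ d - 1) := mem_box.2 (by rw [zd_eq_zn, Nat.cast_le]; omega)
  exact box_mono x (by omega) (adj_mem_box h4 hab)

theorem st_T2a : St_T2a := by
  intro d n _ hn q h0 h1 Λ x y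
  by_cases hx : x ∈ Λ
  · have := couple hn h0 h1 hx (fun ω => -1 * ind (∃ y', proj n y' = y ∧
        conn (lattice d) (lone (Twin n) (cl (lattice d) Λ ω x)) ω x y'))
      (fun η => -1 * ind (conn (torus d n) univ η (proj n x) y)) fun S ω η T => by
        have key : (∃ y', proj n y' = y ∧
            conn (lattice d) (lone (Twin n) (cl (lattice d) Λ ω x)) ω x y') →
            conn (torus d n) univ η (proj n x) y := by
          rintro ⟨y', rfl, hc⟩
          refine T.tor y' (hc.induction (P := (· ∈ S)) T.mem fun a b ha hab _ hb he => ?_)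
          obtain ⟨hb1, hb2⟩ := mem_flt.1 hb
          by_cases hp : proj n b ∈ S.image (proj n)
          · obtain ⟨s, hs, h2⟩ := mem_image.1 hp
            by_contra hbS
            exact hb2 s (mem_cl.2 (T.lat s hs)) ⟨h2, fun e => hbS (e ▸ hs)⟩
          · exact absurd he (T.shut a ha b (cl_subset hb1) hab hp).1
        have := ind_mono key
        linarith
    rw [PE_mul_left, PE_mul_left] at this
    unfold tt tau
    linarith
  · refine le_trans (PE_le_const (Prob.const h0 h1) fun ω => (ind_neg ?_).le)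
      (tau_nonneg (Prob.const h0 h1))
    rintro ⟨y', -, hc⟩
    exact hx (cl_subset (flt_subset _ _ hc.left))

end Pool.Agent.TPC
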