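import Pool.Agent.Lib.TPC.B_DROP1

/-! Block DROP: union bound over the selected droplets. -/

open Finset

namespace Pool.Agent.TPC

namespace DROP

variable {d : ℕ}

/-- union bound over pairwise disjoint bad sets -/
lemma union_bound {ι : Type} [DecidableEq ι] {E : Finset ι} {π : ι → ℝ} (hπ : Prob π)
    {Bad : Finset ι → Set (Zd d)} {D : Finset (Zd d)} {lam b : ℝ} (hb : 0 ≤ b)
    (hT : ∀ T : Finset (Zd d), T ⊆ D →
      PE E π (fun ω => ind ((T : Set (Zd d)) ⊆ Bad ω)) ≤ Real.exp (-(lam * T.card)))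
    (𝒜 : Zd d → Finset (Finset (Zd d))) (h1 : ∀ y, ∀ A ∈ 𝒜 y, A ⊆ D)
    (h2 : ∀ y, ∑ A ∈ 𝒜 y, Real.exp (-(lam * A.card)) ≤ b) (R : Finset (Zd d)) :
    ∀ T : Finset (Zd d), T ⊆ D →
      PE E π (fun ω => ind ((T : Set (Zd d)) ⊆ Bad ω ∧ ∃ K : Zd d → Finset (Zd d),
        (∀ y ∈ R, K y ∈ 𝒜 y ∧ (K y : Set (Zd d)) ⊆ Bad ω ∧ Disjoint T (K y)) ∧
        ∀ y ∈ R, ∀ y' ∈ R, y ≠ y' → Disjoint (K y) (K y'))) ≤
      Real.exp (-(lam * T.card)) * b ^ R.card := by
  classical
  induction R using Finset.induction_on with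
  | empty =>
    intro T hTD
    simp only [Finset.card_empty, pow_zero, mul_one]
    exact (PE_ind_mono hπ fun ω h => h.1).trans (hT T hTD)
  | insert y R hy ih =>
    intro T hTD
    refine (PE_ind_mono hπ (Q := fun ω => ∃ A ∈ flt (𝒜 y) (Disjoint T),
      ((T ∪ A : Finset (Zd d)) : Set (Zd d)) ⊆ Bad ω ∧ ∃ K : Zd d → Finset (Zd d),
        (∀ y ∈ R, K y ∈ 𝒜 y ∧ (K y : Set (Zd d)) ⊆ Bad ω ∧ Disjoint (T ∪ A) (K y)) ∧
        ∀ y ∈ R, ∀ y' ∈ R, y ≠ y' → Disjoint (K y) (K y')) ?_).trans ?_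
    · rintro ω ⟨a1, K, a2, a3⟩
      have b1 := a2 y (Finset.mem_insert_self _ _)
      refine ⟨K y, mem_flt.2 ⟨b1.1, b1.2.2⟩, ?_, K, fun z hz => ?_, fun z hz z' hz' =>
        a3 z (Finset.mem_insert_of_mem hz) z' (Finset.mem_insert_of_mem hz')⟩
      · rw [Finset.coe_union]
        exact Set.union_subset a1 b1.2.1
      · have b2 := a2 z (Finset.mem_insert_of_mem hz)
        refine ⟨b2.1, b2.2.1, Finset.disjoint_union_left.2 ⟨b2.2.2, ?_⟩⟩
        exact a3 y (Finset.mem_insert_self _ _) z (Finset.mem_insert_of_mem hz)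
          (fun e => hy (e ▸ hz))
    · refine (PE_ind_exists hπ _ _).trans ?_
      calc _ ≤ ∑ A ∈ flt (𝒜 y) (Disjoint T), Real.exp (-(lam * T.card)) * b ^ R.card *
            Real.exp (-(lam * A.card)) := by
            refine Finset.sum_le_sum fun A hA => ?_
            obtain ⟨a1, a2⟩ := mem_flt.1 hA
            refine (ih (T ∪ A) (Finset.union_subset hTD (h1 y A a1))).trans (le_of_eq ?_)
            rw [Finset.card_union_of_disjoint a2, mul_right_comm, ← Real.exp_add]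
            push_cast
            ring_nf
        _ ≤ Real.exp (-(lam * T.card)) * b ^ R.card * b := by
            rw [← Finset.mul_sum]
            refine mul_le_mul_of_nonneg_left (le_trans ?_ (h2 y)) (by positivity)
            exact Finset.sum_le_sum_of_subset_of_nonneg (flt_subset _ _)
              (fun _ _ _ => (Real.exp_pos _).le)
        _ = _ := by rw [Finset.card_insert_of_notMem hy]; ring

lemma odd_le (k : ℕ) : 2 * k + 1 ≤ 3 ^ k := by
  induction k with
  | zero => simp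
  | succ k ih => rw [pow_succ]; omega

/-- total weight of the candidate droplets -/
lemma cand_sum {C lam : ℝ} (hC : 1 ≤ C) (hF : ∀ (x₀ : Zd d) (t : ℕ),
      ∃ F : Finset (Finset (Zd d)), (F.card : ℝ) ≤ C ^ t ∧ (∀ Γ ∈ F, Γ.card = t ∧
      ∀ y ∈ Γ, zd x₀ y ≤ t) ∧ ∀ Γ : Finset (Zd d), StarConn Γ → x₀ ∈ Γ → Γ.card = t → Γ ∈ F)
    (hq : 3 ^ d * C * Real.exp (-lam) ≤ 1 / 2) (D : Finset (Zd d)) (t : ℕ) (y : Zd d) :
    ∑ A ∈ cand D t y, Real.exp (-(lam * A.card)) ≤ 2 * (3 ^ d * C * Real.exp (-lam)) ^ t := by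
  classical
  choose F hF1 _ hF3 using hF
  set q := 3 ^ d * C * Real.exp (-lam) with hq'
  have hq0 : 0 ≤ q := by positivity
  have hmap : ∀ A ∈ cand D t y, A.card ∈ Ico t (D.card + 1) := by
    intro A hA
    obtain ⟨a1, -, a2, -⟩ := mem_flt.1 hA
    exact mem_Ico.2 ⟨a2, Nat.lt_succ_of_le (Finset.card_le_card (Finset.mem_powerset.1 a1))⟩
  rw [← Finset.sum_fiberwise_of_maps_to hmap]
  calc _ ≤ ∑ k ∈ Ico t (D.card + 1), q ^ k := by
        refine Finset.sum_le_sum fun k _ => ?_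
        have e : ∑ A ∈ cand D t y with A.card = k, Real.exp (-(lam * A.card)) =
            ((cand D t y).filter fun A => A.card = k).card * Real.exp (-lam) ^ k := by
          rw [Finset.sum_congr rfl (g := fun _ => Real.exp (-lam) ^ k), Finset.sum_const,
            nsmul_eq_mul]
          intro A hA
          rw [(Finset.mem_filter.1 hA).2, ← Real.exp_nat_mul]
          ring_nf
        rw [e, hq', mul_pow]
        refine mul_le_mul_of_nonneg_right ?_ (by positivity)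
        have s1 : ((cand D t y).filter fun A => A.card = k) ⊆
            (box y k).biUnion fun γ => F γ k := by
          intro A hA
          obtain ⟨a1, a2⟩ := Finset.mem_filter.1 hA
          obtain ⟨-, b1, -, γ, b2, b3⟩ := mem_flt.1 a1
          exact Finset.mem_biUnion.2 ⟨γ, mem_box.2 (a2 ▸ b3), hF3 γ k A b1 b2 a2⟩
        have s2 : (((cand D t y).filter fun A => A.card = k).card : ℝ) ≤
            ∑ γ ∈ box y k, ((F γ k).card : ℝ) := by
          exact_mod_cast (Finset.card_le_card s1).trans Finset.card_biUnion_le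
        refine s2.trans ((Finset.sum_le_sum fun γ _ => hF1 γ k).trans ?_)
        rw [Finset.sum_const, nsmul_eq_mul, card_box, mul_pow]
        refine mul_le_mul_of_nonneg_right ?_ (by positivity)
        rw [← pow_mul, mul_comm d k, pow_mul]
        exact_mod_cast Nat.pow_le_pow_left (odd_le k) d
    _ ≤ q ^ t / (1 - q) := geom_sum_Ico_le_of_lt_one hq0 (by linarith)
    _ ≤ 2 * q ^ t := by
        rw [div_le_iff₀ (by linarith)]
        have : 0 ≤ q ^ t := by positivity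
        nlinarith

/-- the numerical estimate for one level -/
lemma numeric (hd : 2 ≤ d) {CS CA lam B w : ℝ} {L t : ℕ} (hS : 1 ≤ CS) (hA : 1 ≤ CA)
    (hlam : (8 * d * CS) ^ d * 2 * (4 ^ d * (3 ^ d * CA)) ≤ Real.exp (lam / 4)) (hw : 1 ≤ w)
    (hB : 1 ≤ B) (hL : (L : ℝ) ≤ B * w) (hlog : Real.log B ≤ 1 / (16 * d) * lam) (ht : 1 ≤ t) :
    (CS * (1 + L / (⌈gg d w t⌉₊ : ℕ))) ^ (d * ⌈gg d w t⌉₊) *
      (2 * (3 ^ d * CA * Real.exp (-lam)) ^ t) ^ ⌈gg d w t⌉₊ ≤
      Real.exp (-(1 / (16 * d) * lam * w ^ (((d : ℝ) - 1) / d))) * ((1 : ℝ) / 2) ^ t := by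
  have hd2 : (2 : ℝ) ≤ d := by exact_mod_cast hd
  have hd0 : (0 : ℝ) < d := by linarith
  have ht1 : (1 : ℝ) ≤ t := by exact_mod_cast ht
  have hw0 : 0 < w := by linarith
  set T := w ^ (((d : ℝ) - 1) / d) with hT
  have hT0 : 0 < T := Real.rpow_pos_of_pos hw0 _
  set s := ⌈gg d w t⌉₊ with hs
  have hg : 1 / (4 * d) * (T / t) + 1 / (4 * d) * (w / 4 ^ t) ≤ (s : ℝ) := Nat.le_ceil _
  have p1 : 0 < 1 / (4 * (d : ℝ)) * (T / t) := by positivity
  have p2 : 0 < 1 / (4 * (d : ℝ)) * (w / 4 ^ t) := by positivity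
  have hs0 : (0 : ℝ) < s := by linarith
  have hs1 : (1 : ℝ) ≤ s := by
    have : 0 < s := by exact_mod_cast hs0
    exact_mod_cast this
  have a1 : (1 : ℝ) ≤ (8 * d * CS) ^ d := one_le_pow₀ (by nlinarith)
  have a2 : (1 : ℝ) ≤ 4 ^ d * (3 ^ d * CA) :=
    one_le_mul_of_one_le_of_one_le (one_le_pow₀ (by norm_num))
      (one_le_mul_of_one_le_of_one_le (one_le_pow₀ (by norm_num)) hA)
  have a3 : (2 : ℝ) ≤ Real.exp (lam / 4) := by
    refine le_trans ?_ hlam
    nlinarith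
  have hlam0 : 0 ≤ lam := by
    by_contra hneg
    have : Real.exp (lam / 4) ≤ 1 := Real.exp_le_one_iff.2 (by linarith)
    linarith
  have b1 : (L : ℝ) / s ≤ 4 * d * B * 4 ^ t := by
    rw [div_le_iff₀ hs0]
    have e : B * w = 4 * d * B * 4 ^ t * (1 / (4 * (d : ℝ)) * (w / 4 ^ t)) := by field_simp
    refine hL.trans ?_
    rw [e]
    exact mul_le_mul_of_nonneg_left (by linarith) (by positivity)
  have b2 : (1 : ℝ) ≤ 4 * d * B * 4 ^ t :=
    one_le_mul_of_one_le_of_one_le (by nlinarith) (one_le_pow₀ (by norm_num))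
  have b3 : CS * (1 + L / s) ≤ 8 * d * CS * B * 4 ^ t := by
    have : 8 * d * CS * B * 4 ^ t = CS * (4 * d * B * 4 ^ t + 4 * d * B * 4 ^ t) := by ring
    rw [this]
    exact mul_le_mul_of_nonneg_left (add_le_add b2 b1) (by linarith)
  have b4 : B ^ d ≤ Real.exp (lam / 4) ^ t := by
    rw [← Real.exp_nat_mul, ← Real.exp_log (by linarith : 0 < B), ← Real.exp_nat_mul]
    refine Real.exp_le_exp.2 ?_
    have c1 := mul_le_mul_of_nonneg_left hlog hd0.le
    have e : (d : ℝ) * (1 / (16 * d) * lam) = lam / 16 := by field_simp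
    rw [e] at c1
    nlinarith
  have b5 : (8 * d * CS) ^ d * 2 * (4 ^ d * (3 ^ d * CA)) ^ t ≤ Real.exp (lam / 4) ^ t := by
    refine le_trans ?_ (pow_le_pow_left₀ (by positivity) hlam t)
    rw [mul_pow ((8 * d * CS) ^ d * 2)]
    refine mul_le_mul_of_nonneg_right ?_ (by positivity)
    exact le_self_pow₀ (by nlinarith) (by omega)
  have b6 : (CS * (1 + L / s)) ^ d * (2 * (3 ^ d * CA * Real.exp (-lam)) ^ t) ≤
      Real.exp (-(lam / 2)) ^ t := by
    calc _ ≤ (8 * d * CS * B * 4 ^ t) ^ d * (2 * (3 ^ d * CA * Real.exp (-lam)) ^ t) :=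
          mul_le_mul_of_nonneg_right (pow_le_pow_left₀ (by positivity) b3 d) (by positivity)
      _ = B ^ d * ((8 * d * CS) ^ d * 2 * (4 ^ d * (3 ^ d * CA)) ^ t) * Real.exp (-lam) ^ t := by
          simp only [mul_pow]
          rw [← pow_mul 4 t d, ← pow_mul 4 d t, mul_comm t d]
          ring
      _ ≤ Real.exp (lam / 4) ^ t * Real.exp (lam / 4) ^ t * Real.exp (-lam) ^ t :=
          mul_le_mul_of_nonneg_right (mul_le_mul b4 b5 (by positivity) (by positivity))
            (by positivity)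
      _ = _ := by
          rw [← mul_pow, ← mul_pow, ← Real.exp_add, ← Real.exp_add]
          ring_nf
  have b7 : Real.exp (-(lam / 4)) ≤ 1 / 2 := by
    rw [Real.exp_neg, ← one_div]
    exact one_div_le_one_div_of_le (by norm_num) a3
  calc _ = ((CS * (1 + L / s)) ^ d * (2 * (3 ^ d * CA * Real.exp (-lam)) ^ t)) ^ s := by
        rw [pow_mul, ← mul_pow]
    _ ≤ (Real.exp (-(lam / 2)) ^ t) ^ s := pow_le_pow_left₀ (by positivity) b6 s
    _ ≤ Real.exp (-(1 / (16 * d) * lam * T)) * Real.exp (-(lam / 4)) ^ t := by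
        rw [← Real.exp_nat_mul, ← Real.exp_nat_mul, ← Real.exp_nat_mul, ← Real.exp_add]
        refine Real.exp_le_exp.2 ?_
        have c1 : 1 / (4 * (d : ℝ)) * T ≤ s * t := by
          have e : 1 / (4 * (d : ℝ)) * T = 1 / (4 * d) * (T / t) * t := by field_simp
          rw [e]
          exact mul_le_mul_of_nonneg_right (by linarith) (by linarith)
        have c2 : (t : ℝ) ≤ s * t := by nlinarith
        have e : 1 / (16 * (d : ℝ)) * lam * T = lam / 4 * (1 / (4 * d) * T) := by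
          field_simp; ring
        have c3 := mul_le_mul_of_nonneg_left c1 (by linarith : 0 ≤ lam / 4)
        have c4 := mul_le_mul_of_nonneg_left c2 (by linarith : 0 ≤ lam / 4)
        rw [e]
        nlinarith
    _ ≤ _ := mul_le_mul_of_nonneg_left (pow_le_pow_left₀ (by positivity) b7 t) (by positivity)

end DROP

open DROP in
theorem st_DROP (hS : St_SEQ) (hA : St_ANI) (hH : St_HULL) : St_DROP := by
  intro d hd
  obtain ⟨CS, hCS, hFS⟩ := hS d
  obtain ⟨CA, hCA, hFA⟩ := hA d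
  have hd2 : (2 : ℝ) ≤ d := by exact_mod_cast hd
  refine ⟨1 / (16 * d), 4 * Real.log ((8 * d * CS) ^ d * 2 * (4 ^ d * (3 ^ d * CA))), 2,
    by positivity, ?_⟩
  intro ι _ E π hπ Bad x₀ L s₀ w lam B hlam hw hB hL hlog hT
  have hlam' : (8 * d * CS) ^ d * 2 * (4 ^ d * (3 ^ d * CA)) ≤ Real.exp (lam / 4) := by
    rw [← Real.log_le_iff_le_exp (by positivity)]
    linarith
  have a1 : (1 : ℝ) ≤ (8 * d * CS) ^ d := one_le_pow₀ (by nlinarith)
  have a2 : (1 : ℝ) ≤ 4 ^ d := one_le_pow₀ (by norm_num)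
  have a3 : (1 : ℝ) ≤ 3 ^ d * CA :=
    one_le_mul_of_one_le_of_one_le (one_le_pow₀ (by norm_num)) hCA
  have a4 : 2 * (3 ^ d * CA) ≤ Real.exp (lam / 4) := by
    refine le_trans ?_ hlam'
    have := mul_le_mul a1 a2 (by norm_num) (by positivity)
    nlinarith
  have hlam0 : 0 ≤ lam := by
    by_contra hneg
    have : Real.exp (lam / 4) ≤ 1 := Real.exp_le_one_iff.2 (by linarith)
    linarith
  have hq : 3 ^ d * CA * Real.exp (-lam) ≤ 1 / 2 := by
    rw [Real.exp_neg, ← div_eq_mul_inv, div_le_iff₀ (Real.exp_pos _)]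
    have : Real.exp (lam / 4) ≤ Real.exp lam := Real.exp_le_exp.2 (by linarith)
    linarith
  have hs1 : ∀ t, 1 ≤ ⌈gg d w t⌉₊ := fun t => Nat.ceil_pos.2 (by unfold gg; positivity)
  choose F hF1 hF2 using fun t => hFS x₀ L ⌈gg d w t⌉₊ (hs1 t)
  set D := box x₀ (L + 2 * s₀) with hD
  have hT' : ∀ T : Finset (Zd d), T ⊆ D →
      PE E π (fun ω => ind ((T : Set (Zd d)) ⊆ Bad ω)) ≤ Real.exp (-(lam * T.card)) := by
    intro T hTD
    refine hT T fun z hz => ?_
    have := mem_box.1 (hTD hz)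
    exact_mod_cast this
  refine (PE_ind_mono hπ (Q := fun ω => ∃ t ∈ Icc 1 ⌈w ^ (((d : ℝ) - 1) / d)⌉₊,
    ∃ R ∈ flt (F t) (fun R => R.card = ⌈gg d w t⌉₊),
      ((∅ : Finset (Zd d)) : Set (Zd d)) ⊆ Bad ω ∧ ∃ K : Zd d → Finset (Zd d),
        (∀ y ∈ R, K y ∈ cand D t y ∧ (K y : Set (Zd d)) ⊆ Bad ω ∧ Disjoint ∅ (K y)) ∧
        ∀ y ∈ R, ∀ y' ∈ R, y ≠ y' → Disjoint (K y) (K y')) ?_).trans ?_
  · rintro ω ⟨f, hf, h0, P, hP, hy⟩
    obtain ⟨t, ht, R, b1, b2, K, b3, b4⟩ := select hA hH hd hw hf h0 hP hy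
    exact ⟨t, ht, R, mem_flt.2 ⟨hF2 t f hf h0 R b1 b2, b1⟩, by simp, K,
      fun y hy => ⟨(b3 y hy).1, (b3 y hy).2, Finset.disjoint_empty_left _⟩, b4⟩
  · refine (PE_ind_exists hπ _ _).trans ?_
    calc _ ≤ ∑ t ∈ Icc 1 ⌈w ^ (((d : ℝ) - 1) / d)⌉₊,
          Real.exp (-(1 / (16 * d) * lam * w ^ (((d : ℝ) - 1) / d))) * ((1 : ℝ) / 2) ^ t := by
          refine Finset.sum_le_sum fun t ht => (PE_ind_exists hπ _ _).trans ?_
          refine le_trans ?_ (numeric hd hCS hCA hlam' hw hB hL hlog (mem_Icc.1 ht).1)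
          calc _ ≤ ∑ _R ∈ flt (F t) (fun R => R.card = ⌈gg d w t⌉₊),
                (2 * (3 ^ d * CA * Real.exp (-lam)) ^ t) ^ ⌈gg d w t⌉₊ := by
                refine Finset.sum_le_sum fun R hR => ?_
                refine (union_bound hπ (by positivity) hT' (cand D t)
                  (fun y A hA => Finset.mem_powerset.1 (mem_flt.1 hA).1)
                  (cand_sum hCA hFA hq D t) R ∅ (Finset.empty_subset _)).trans (le_of_eq ?_)
                rw [(mem_flt.1 hR).2]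
                simp
            _ ≤ _ := by
                rw [Finset.sum_const, nsmul_eq_mul]
                refine mul_le_mul_of_nonneg_right (le_trans ?_ (hF1 t)) (by positivity)
                exact_mod_cast Finset.card_le_card (flt_subset _ _)
      _ ≤ _ := by
          rw [← Finset.mul_sum, mul_comm]
          exact mul_le_mul_of_nonneg_right (sum_half _ _) (Real.exp_pos _).le

end Pool.Agent.TPC
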