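import Pool.Agent.Lib.TPC.BlueG
import Pool.Agent.Lib.TPC.ZBasic

/-! Block DROP, part 1: the deterministic selection of droplets. -/

open Finset

namespace Pool.Agent.TPC

namespace DROP

lemma pow_le_sum {β : ℝ} (h0 : 0 < β) (h1 : β ≤ 1) (k : ℕ) :
    (k : ℝ) ^ (1 + β) ≤ ∑ t ∈ Icc 1 k, 2 * (t : ℝ) ^ β := by
  induction k with
  | zero =>
    have : (1 : ℝ) + β ≠ 0 := by positivity
    simp [Real.zero_rpow this]
  | succ k ih =>
    rw [Finset.sum_Icc_succ_top (by omega)]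
    push_cast
    have hk0 : (0 : ℝ) ≤ k := Nat.cast_nonneg k
    have hk : (0 : ℝ) < (k : ℝ) + 1 := by positivity
    have hs : (1 : ℝ) / ((k : ℝ) + 1) ≤ 1 := by rw [div_le_one hk]; linarith
    have hb := one_add_mul_self_le_rpow_one_add (s := -(1 / ((k : ℝ) + 1))) (by linarith)
      (p := 1 + β) (by linarith)
    have e : (k : ℝ) = ((k : ℝ) + 1) * (1 + -(1 / ((k : ℝ) + 1))) := by field_simp; ring
    have e1 : (k : ℝ) ^ (1 + β) =
        ((k : ℝ) + 1) ^ (1 + β) * (1 + -(1 / ((k : ℝ) + 1))) ^ (1 + β) := by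
      rw [← Real.mul_rpow hk.le (by linarith), ← e]
    have e2 : ((k : ℝ) + 1) ^ (1 + β) = ((k : ℝ) + 1) * ((k : ℝ) + 1) ^ β := by
      rw [Real.rpow_add hk, Real.rpow_one]
    have hp : 0 < ((k : ℝ) + 1) ^ β := Real.rpow_pos_of_pos hk β
    have h3 : ((k : ℝ) + 1) ^ (1 + β) * (1 + (1 + β) * -(1 / ((k : ℝ) + 1))) ≤ (k : ℝ) ^ (1 + β) := by
      rw [e1]
      exact mul_le_mul_of_nonneg_left hb (Real.rpow_nonneg hk.le _)
    have e3 : ((k : ℝ) + 1) ^ (1 + β) * (1 + (1 + β) * -(1 / ((k : ℝ) + 1))) =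
        ((k : ℝ) + 1) ^ (1 + β) - (1 + β) * ((k : ℝ) + 1) ^ β := by
      rw [e2]; field_simp; ring
    rw [e3] at h3
    nlinarith

lemma sum_le_pow {β : ℝ} (h0 : 0 < β) (h1 : β ≤ 1) (k : ℕ) :
    ∑ t ∈ Icc 1 k, β * ((t : ℝ) ^ β / t) ≤ (k : ℝ) ^ β := by
  induction k with
  | zero => simp [Real.zero_rpow h0.ne']
  | succ k ih =>
    rw [Finset.sum_Icc_succ_top (by omega)]
    push_cast
    have hk0 : (0 : ℝ) ≤ k := Nat.cast_nonneg k
    have hk : (0 : ℝ) < (k : ℝ) + 1 := by positivity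
    have hs : (1 : ℝ) / ((k : ℝ) + 1) ≤ 1 := by rw [div_le_one hk]; linarith
    have hb := rpow_one_add_le_one_add_mul_self (s := -(1 / ((k : ℝ) + 1))) (by linarith)
      (p := β) h0.le h1
    have e : (k : ℝ) = ((k : ℝ) + 1) * (1 + -(1 / ((k : ℝ) + 1))) := by field_simp; ring
    have e1 : (k : ℝ) ^ β = ((k : ℝ) + 1) ^ β * (1 + -(1 / ((k : ℝ) + 1))) ^ β := by
      rw [← Real.mul_rpow hk.le (by linarith), ← e]
    have h3 : (k : ℝ) ^ β ≤ ((k : ℝ) + 1) ^ β * (1 + β * -(1 / ((k : ℝ) + 1))) := by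
      rw [e1]
      exact mul_le_mul_of_nonneg_left hb (Real.rpow_nonneg hk.le _)
    have e3 : ((k : ℝ) + 1) ^ β * (1 + β * -(1 / ((k : ℝ) + 1))) =
        ((k : ℝ) + 1) ^ β - β * (((k : ℝ) + 1) ^ β / ((k : ℝ) + 1)) := by
      field_simp; ring
    rw [e3] at h3
    linarith

lemma sum_half (a b : ℕ) : ∑ t ∈ Icc a b, ((1 : ℝ) / 2) ^ t ≤ 2 := by
  refine le_trans ?_ (sum_geometric_two_le (b + 1))
  refine Finset.sum_le_sum_of_subset_of_nonneg ?_ (fun _ _ _ => by positivity)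
  intro t ht
  rw [mem_Icc] at ht
  exact mem_range.2 (by omega)

lemma nat_le_two_pow (t : ℕ) : (t : ℝ) ≤ 2 ^ t := by
  exact_mod_cast (Nat.lt_two_pow_self (n := t)).le

/-- the number of droplets of size at least `t` that is asked for -/
noncomputable def gg (d : ℕ) (w : ℝ) (t : ℕ) : ℝ :=
  1 / (4 * d) * (w ^ (((d : ℝ) - 1) / d) / t) + 1 / (4 * d) * (w / 4 ^ t)

lemma exists_level {κ : Type} (S : Finset κ) (k : κ → ℕ) {d : ℕ} (hd : 2 ≤ d) {w : ℝ}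
    (hw : 1 ≤ w) (h : w ≤ ∑ a ∈ S, (k a : ℝ) ^ ((d : ℝ) / (d - 1))) :
    ∃ t ∈ Icc 1 ⌈w ^ (((d : ℝ) - 1) / d)⌉₊, gg d w t ≤ (flt S fun a => t ≤ k a).card := by
  by_contra hc
  push Not at hc
  have hd2 : (2 : ℝ) ≤ d := by exact_mod_cast hd
  have hw0 : 0 < w := by linarith
  set T := w ^ (((d : ℝ) - 1) / d) with hT
  have hT1 : 1 ≤ T := Real.one_le_rpow hw (div_nonneg (by linarith) (by linarith))
  set β : ℝ := 1 / ((d : ℝ) - 1) with hβ
  have hβ0 : 0 < β := by rw [hβ]; exact div_pos one_pos (by linarith)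
  have hβ1 : β ≤ 1 := by rw [hβ, div_le_one (by linarith)]; linarith
  have hα : (d : ℝ) / (d - 1) = 1 + β := by
    rw [hβ]; have : (d : ℝ) - 1 ≠ 0 := by linarith
    field_simp; ring
  have hTw : T * T ^ β = w := by
    have : T * T ^ β = T ^ (1 + β) := by rw [Real.rpow_add (by linarith), Real.rpow_one]
    rw [this, hT, ← Real.rpow_mul hw0.le, ← hα]
    have h1 : (d : ℝ) - 1 ≠ 0 := by linarith
    have h2 : (d : ℝ) ≠ 0 := by linarith
    have : ((d : ℝ) - 1) / d * (d / (d - 1)) = 1 := by field_simp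
    rw [this, Real.rpow_one]
  have hTb : T ^ β ≤ T := by
    calc T ^ β ≤ T ^ (1 : ℝ) := Real.rpow_le_rpow_of_exponent_le hT1 hβ1
      _ = T := Real.rpow_one T
  obtain ⟨M, hM⟩ : ∃ M, ⌈T⌉₊ = M + 1 := ⟨⌈T⌉₊ - 1, by
    have : 0 < ⌈T⌉₊ := Nat.ceil_pos.2 (by linarith)
    omega⟩
  have hN1 : T ≤ (M : ℝ) + 1 := by
    have := Nat.le_ceil T
    rw [hM] at this; exact_mod_cast this
  have hN2 : (M : ℝ) ≤ T := by
    have := Nat.ceil_lt_add_one (by linarith : 0 ≤ T)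
    rw [hM] at this; push_cast at this; linarith
  rw [hM] at hc
  have hc1 : (0 : ℝ) < 1 / (4 * d) := by positivity
  have hc2 : (1 : ℝ) / (4 * d) ≤ 1 / 8 := by
    apply one_div_le_one_div_of_le <;> linarith
  have hsmall : ∀ a ∈ S, k a ≤ M := by
    have h1 := hc (M + 1) (mem_Icc.2 ⟨by omega, le_rfl⟩)
    have h2 : gg d w (M + 1) ≤ 1 := by
      unfold gg
      rw [← hT]
      have hM0 : (0 : ℝ) < ((M + 1 : ℕ) : ℝ) := by positivity
      have a1 : T / ((M + 1 : ℕ) : ℝ) ≤ 1 := by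
        rw [div_le_one hM0]; push_cast; exact hN1
      have a2 : w / 4 ^ (M + 1) ≤ 1 := by
        rw [div_le_one (by positivity)]
        have b1 := nat_le_two_pow (M + 1)
        push_cast at b1
        have b2 : (4 : ℝ) ^ (M + 1) = 2 ^ (M + 1) * 2 ^ (M + 1) := by
          rw [← mul_pow]; norm_num
        have b3 : T ≤ 2 ^ (M + 1) := hN1.trans b1
        rw [b2, ← hTw]
        exact mul_le_mul b3 (hTb.trans b3) (by positivity) (by positivity)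
      nlinarith
    have h3 : (flt S fun a => M + 1 ≤ k a).card < 1 := by exact_mod_cast h1.trans_le h2
    intro a ha
    by_contra h4
    have : a ∈ flt S fun a => M + 1 ≤ k a := mem_flt.2 ⟨ha, by omega⟩
    have := Finset.card_pos.2 ⟨a, this⟩
    omega
  have s1 : ∑ a ∈ S, (k a : ℝ) ^ ((d : ℝ) / (d - 1)) ≤
      ∑ a ∈ S, ∑ t ∈ Icc 1 M, ind (t ≤ k a) * (2 * (t : ℝ) ^ β) := by
    refine Finset.sum_le_sum fun a ha => ?_
    rw [hα, ← sum_flt]
    refine (pow_le_sum hβ0 hβ1 (k a)).trans ?_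
    refine Finset.sum_le_sum_of_subset_of_nonneg ?_ (fun _ _ _ => by positivity)
    intro t ht
    rw [mem_Icc] at ht
    exact mem_flt.2 ⟨mem_Icc.2 ⟨ht.1, ht.2.trans (hsmall a ha)⟩, ht.2⟩
  have s2 : ∑ a ∈ S, ∑ t ∈ Icc 1 M, ind (t ≤ k a) * (2 * (t : ℝ) ^ β) ≤
      ∑ t ∈ Icc 1 M, (2 * (1 / (4 * d)) * T / β * (β * ((t : ℝ) ^ β / t)) +
        2 * (1 / (4 * d)) * w * ((1 : ℝ) / 2) ^ t) := by
    rw [Finset.sum_comm]
    refine Finset.sum_le_sum fun t ht => ?_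
    rw [← Finset.sum_mul, ← card_flt]
    rw [mem_Icc] at ht
    have h1 := (hc t (mem_Icc.2 ⟨ht.1, by omega⟩)).le
    have ht1 : (1 : ℝ) ≤ t := by exact_mod_cast ht.1
    have hp : 0 ≤ (t : ℝ) ^ β := by positivity
    have h2 : (t : ℝ) ^ β ≤ 2 ^ t := by
      calc (t : ℝ) ^ β ≤ (t : ℝ) ^ (1 : ℝ) := Real.rpow_le_rpow_of_exponent_le ht1 hβ1
        _ = t := Real.rpow_one _
        _ ≤ 2 ^ t := nat_le_two_pow t
    have h3 : (t : ℝ) ^ β / 4 ^ t ≤ ((1 : ℝ) / 2) ^ t := by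
      rw [div_le_iff₀ (by positivity), ← mul_pow]
      norm_num
      exact h2
    refine (mul_le_mul_of_nonneg_right h1 (by positivity)).trans ?_
    unfold gg
    rw [← hT]
    have e : (1 / (4 * (d : ℝ)) * (T / t) + 1 / (4 * d) * (w / 4 ^ t)) * (2 * (t : ℝ) ^ β) =
        2 * (1 / (4 * d)) * T / β * (β * ((t : ℝ) ^ β / t)) +
          2 * (1 / (4 * d)) * w * ((t : ℝ) ^ β / 4 ^ t) := by
      field_simp
    rw [e]
    have : 0 ≤ 2 * (1 / (4 * (d : ℝ))) * w := by positivity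
    have := mul_le_mul_of_nonneg_left h3 this
    linarith
  have s3 : ∑ t ∈ Icc 1 M, (2 * (1 / (4 * d)) * T / β * (β * ((t : ℝ) ^ β / t)) +
        2 * (1 / (4 * d)) * w * ((1 : ℝ) / 2) ^ t) ≤
      2 * (1 / (4 * d)) * T / β * T ^ β + 2 * (1 / (4 * d)) * w * 2 := by
    rw [Finset.sum_add_distrib, ← Finset.mul_sum, ← Finset.mul_sum _ _ (2 * (1 / (4 * d)) * w)]
    refine add_le_add (mul_le_mul_of_nonneg_left ?_ (by positivity))
      (mul_le_mul_of_nonneg_left (sum_half 1 M) (by positivity))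
    exact (sum_le_pow hβ0 hβ1 M).trans (Real.rpow_le_rpow (Nat.cast_nonneg M) hN2 hβ0.le)
  have e : 2 * (1 / (4 * (d : ℝ))) * T / β * T ^ β + 2 * (1 / (4 * d)) * w * 2 =
      (1 / 2 + 2 * (1 / (4 * d))) * w := by
    have e1 : 2 * (1 / (4 * (d : ℝ))) * T / β * T ^ β = 2 * (1 / (4 * d)) / β * (T * T ^ β) := by
      ring
    have h1 : (d : ℝ) - 1 ≠ 0 := by linarith
    have h2 : (d : ℝ) ≠ 0 := by linarith
    rw [e1, hTw, hβ]
    field_simp
    ring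
  have := h.trans (s1.trans (s2.trans s3))
  rw [e] at this
  nlinarith

variable {d : ℕ}

/-- star paths inside `U` -/
def SP (U : Finset (Zd d)) (x y : Zd d) : Prop :=
  Relation.ReflTransGen (fun a b => a ∈ U ∧ b ∈ U ∧ zd a b ≤ 1) x y

lemma SP.symm {U : Finset (Zd d)} {x y : Zd d} (h : SP U x y) : SP U y x := by
  induction h with
  | refl => exact Relation.ReflTransGen.refl
  | tail _ hs ih =>
    exact Relation.ReflTransGen.head ⟨hs.2.1, hs.1, by rw [zd_comm]; exact hs.2.2⟩ ih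

lemma SP.trans {U : Finset (Zd d)} {x y z : Zd d} (h : SP U x y) (h' : SP U y z) : SP U x z :=
  Relation.ReflTransGen.trans h h'

lemma SP.mono {U U' : Finset (Zd d)} (hU : U ⊆ U') {x y : Zd d} (h : SP U x y) : SP U' x y := by
  induction h with
  | refl => exact Relation.ReflTransGen.refl
  | tail _ hs ih => exact Relation.ReflTransGen.tail ih ⟨hU hs.1, hU hs.2.1, hs.2.2⟩

/-- star component -/
noncomputable def comp (U : Finset (Zd d)) (γ : Zd d) : Finset (Zd d) := flt U (SP U γ)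

lemma comp_path {U : Finset (Zd d)} {γ y : Zd d} (h : SP U γ y) : SP (comp U γ) γ y := by
  induction h with
  | refl => exact Relation.ReflTransGen.refl
  | tail h0 hs ih =>
    exact Relation.ReflTransGen.tail ih ⟨mem_flt.2 ⟨hs.1, h0⟩,
      mem_flt.2 ⟨hs.2.1, Relation.ReflTransGen.tail h0 hs⟩, hs.2.2⟩

lemma comp_conn (U : Finset (Zd d)) (γ : Zd d) : StarConn (comp U γ) := fun _ hx _ hy =>
  (comp_path (mem_flt.1 hx).2).symm.trans (comp_path (mem_flt.1 hy).2)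

lemma sub_comp {U Γ : Finset (Zd d)} (hU : Γ ⊆ U) (hΓ : StarConn Γ) {γ : Zd d} (hγ : γ ∈ Γ) :
    Γ ⊆ comp U γ := fun z hz => mem_flt.2 ⟨hU hz, SP.mono hU (hΓ γ hγ z hz)⟩

lemma comp_disj (U : Finset (Zd d)) {γ γ' : Zd d} (h : comp U γ ≠ comp U γ') :
    Disjoint (comp U γ) (comp U γ') := by
  rw [Finset.disjoint_left]
  intro z hz hz'
  have h1 : SP U γ γ' := (mem_flt.1 hz).2.trans (mem_flt.1 hz').2.symm
  refine h (Finset.ext fun x => ?_)
  simp only [comp, mem_flt]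
  exact ⟨fun a => ⟨a.1, h1.symm.trans a.2⟩, fun a => ⟨a.1, h1.trans a.2⟩⟩

lemma lazy_le {f : ℕ → Zd d} (hf : Lazy f) (i : ℕ) : zd (f 0) (f i) ≤ i := by
  induction i with
  | zero => simp [zd_self]
  | succ i ih =>
    have := zd_tri (f 0) (f i) (f (i + 1))
    have := hf i
    push_cast
    linarith

lemma diam (hA : St_ANI) {Γ : Finset (Zd d)} (hΓ : StarConn Γ) {x y : Zd d} (hx : x ∈ Γ)
    (hy : y ∈ Γ) : zd x y ≤ Γ.card := by
  obtain ⟨C, -, h⟩ := hA d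
  obtain ⟨F, -, h1, h2⟩ := h x Γ.card
  exact (h1 Γ (h2 Γ hΓ hx rfl)).2 y hy

/-- candidate droplets for the point `y` -/
noncomputable def cand (D : Finset (Zd d)) (t : ℕ) (y : Zd d) : Finset (Finset (Zd d)) :=
  flt D.powerset fun A => StarConn A ∧ t ≤ A.card ∧ ∃ γ ∈ A, zd y γ ≤ A.card

/-- the deterministic selection -/
lemma select (hA : St_ANI) (hH : St_HULL) (hd : 2 ≤ d) {Bd : Set (Zd d)} {x₀ : Zd d} {L s₀ : ℕ}
    {w : ℝ} (hw : 1 ≤ w) {f : ℕ → Zd d} (hf : Lazy f) (h0 : f 0 = x₀) {P : Finset (Zd d)}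
    (hP : w ≤ P.card) (hy : ∀ y ∈ P, (∃ i ≤ L, f i = y) ∧ ∃ Γ : Finset (Zd d), StarConn Γ ∧
      (Γ : Set (Zd d)) ⊆ Bd ∧ Γ.card ≤ s₀ ∧ InHull Γ y) :
    ∃ t ∈ Icc 1 ⌈w ^ (((d : ℝ) - 1) / d)⌉₊, ∃ R : Finset (Zd d), R.card = ⌈gg d w t⌉₊ ∧
      (∀ y ∈ R, ∃ i ≤ L, f i = y) ∧ ∃ K : Zd d → Finset (Zd d),
        (∀ y ∈ R, K y ∈ cand (box x₀ (L + 2 * s₀)) t y ∧ (K y : Set (Zd d)) ⊆ Bd) ∧
        ∀ y ∈ R, ∀ y' ∈ R, y ≠ y' → Disjoint (K y) (K y') := by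
  classical
  have h1 : ∀ y, ∃ (Γ : Finset (Zd d)) (γ : Zd d), y ∈ P → StarConn Γ ∧ (Γ : Set (Zd d)) ⊆ Bd ∧
      InHull Γ y ∧ γ ∈ Γ ∧ Γ ⊆ box x₀ (L + 2 * s₀) := by
    intro y
    by_cases hyP : y ∈ P
    · obtain ⟨⟨i, hi, hfi⟩, Γ, a1, a2, a3, a4⟩ := hy y hyP
      obtain ⟨γ, b1, b2⟩ := (hH d hd Γ).2.2.1 a1 y a4
      refine ⟨Γ, γ, fun _ => ⟨a1, a2, a4, b1, fun z hz => mem_box.2 ?_⟩⟩
      have c1 := lazy_le hf i
      rw [h0, hfi] at c1
      have c2 := diam hA a1 b1 hz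
      have c3 := zd_tri x₀ y z
      have c4 := zd_tri y γ z
      have c5 : (i : ℝ) ≤ L := by exact_mod_cast hi
      have c6 : (Γ.card : ℝ) ≤ s₀ := by exact_mod_cast a3
      push_cast
      linarith
    · exact ⟨∅, 0, fun h => absurd h hyP⟩
  choose Γ γ hΓ using h1
  set U := P.biUnion Γ with hU
  set K : Zd d → Finset (Zd d) := fun y => comp U (γ y) with hK
  have hKU : ∀ y, K y ⊆ U := fun y => flt_subset _ _
  have hUb : U ⊆ box x₀ (L + 2 * s₀) := Finset.biUnion_subset.2 fun y hy => (hΓ y hy).2.2.2.2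
  have hUB : (U : Set (Zd d)) ⊆ Bd := by
    intro z hz
    obtain ⟨y, hy, hz⟩ := Finset.mem_biUnion.1 (Finset.mem_coe.1 hz)
    exact (hΓ y hy).2.1 hz
  have hin : ∀ y ∈ P, InHull (K y) y := fun y hy =>
    (hH d hd (Γ y)).2.2.2.1 (K y)
      (sub_comp (Finset.subset_biUnion_of_mem Γ hy) (hΓ y hy).1 (hΓ y hy).2.2.2.1) y
      (hΓ y hy).2.2.1
  have hsum : w ≤ ∑ A ∈ P.image K, (A.card : ℝ) ^ ((d : ℝ) / (d - 1)) := by
    refine hP.trans ?_
    rw [Finset.card_eq_sum_card_image K P]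
    push_cast
    refine Finset.sum_le_sum fun A _ => (hH d hd A).2.1 _ fun x hx => ?_
    obtain ⟨a1, a2⟩ := Finset.mem_filter.1 hx
    rw [← a2]
    exact hin x a1
  obtain ⟨t, ht, hg⟩ := exists_level (P.image K) Finset.card hd hw hsum
  obtain ⟨S, hS1, hS2⟩ := Finset.exists_subset_card_eq (Nat.ceil_le.2 hg)
  have h2 : ∀ A, ∃ y, A ∈ S → y ∈ P ∧ K y = A := by
    intro A
    by_cases hAS : A ∈ S
    · obtain ⟨y, a1, a2⟩ := Finset.mem_image.1 (mem_flt.1 (hS1 hAS)).1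
      exact ⟨y, fun _ => ⟨a1, a2⟩⟩
    · exact ⟨0, fun h => absurd h hAS⟩
  choose r hr using h2
  refine ⟨t, ht, S.image r, ?_, ?_, K, ?_, ?_⟩
  · rw [← hS2]
    refine Finset.card_image_of_injOn fun A a1 A' a2 e => ?_
    rw [← (hr A a1).2, ← (hr A' a2).2, e]
  · intro y hy'
    obtain ⟨A, a1, rfl⟩ := Finset.mem_image.1 hy'
    exact (hy _ (hr A a1).1).1
  · intro y hy'
    obtain ⟨A, a1, rfl⟩ := Finset.mem_image.1 hy'
    refine ⟨mem_flt.2 ⟨Finset.mem_powerset.2 ((hKU _).trans hUb), comp_conn _ _, ?_,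
      (hH d hd _).2.2.1 (comp_conn _ _) _ (hin _ (hr A a1).1)⟩,
      (Finset.coe_subset.2 (hKU _)).trans hUB⟩
    rw [(hr A a1).2]
    exact (mem_flt.1 (hS1 a1)).2
  · intro y hy1 y' hy2 hne
    obtain ⟨A, a1, rfl⟩ := Finset.mem_image.1 hy1
    obtain ⟨A', a2, rfl⟩ := Finset.mem_image.1 hy2
    refine comp_disj U fun e => hne ?_
    have : A = A' := by rw [← (hr A a1).2, ← (hr A' a2).2]; exact e
    rw [this]

end DROP

end Pool.Agent.TPC
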