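import Pool.Agent.Lib.TPC.BlueZ

/-! Exit mass of a cube and the Simon-Lieb inequality for cubes. -/

open Finset

namespace Pool.Agent.TPC

open Pool.Agent.Lib.MP_81a99a_pr (lattice)

namespace FaceSlb

variable {d : ℕ}

lemma ind_adj (y z : Zd d) : ind ((lattice d).Adj y z) =
    ∑ j, (ind (z = y + Pi.single j 1) + ind (z = y - Pi.single j 1)) := by
  by_cases h : (lattice d).Adj y z
  · rw [ind_pos h]
    obtain ⟨i, hi⟩ := lattice_adj.1 h
    rw [Finset.sum_eq_single i]
    · rcases hi with hi | hi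
      · rw [ind_pos hi, ind_neg, add_zero]
        intro h2
        have := congrFun (hi.symm.trans h2) i
        simp at this
        omega
      · rw [ind_pos hi, ind_neg, zero_add]
        intro h2
        have := congrFun (hi.symm.trans h2) i
        simp at this
        omega
    · intro j _ hj
      rw [ind_neg, ind_neg, add_zero]
      · intro h2
        rcases hi with hi | hi
        · have := congrFun (hi.symm.trans h2) i
          simp [Pi.single_eq_of_ne hj.symm] at this
        · have := congrFun (hi.symm.trans h2) i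
          simp [Pi.single_eq_of_ne hj.symm] at this
      · intro h2
        rcases hi with hi | hi
        · have := congrFun (hi.symm.trans h2) i
          simp [Pi.single_eq_of_ne hj.symm] at this
        · have := congrFun (hi.symm.trans h2) i
          simp [Pi.single_eq_of_ne hj.symm] at this
    · intro hn; exact absurd (mem_univ i) hn
  · rw [ind_neg h]
    symm
    refine Finset.sum_eq_zero fun j _ => ?_
    rw [ind_neg, ind_neg, add_zero]
    · intro h2; exact h (lattice_adj.2 ⟨j, Or.inr h2⟩)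
    · intro h2; exact h (lattice_adj.2 ⟨j, Or.inl h2⟩)

lemma sum_ind_eq (Z : Finset (Zd d)) (w : Zd d) : ∑ z ∈ Z, ind (z = w) = ind (w ∈ Z) := by
  by_cases h : w ∈ Z
  · rw [ind_pos h, Finset.sum_eq_single w]
    · exact ind_pos rfl
    · intro b _ hb; exact ind_neg hb
    · intro hn; exact absurd h hn
  · rw [ind_neg h]
    exact Finset.sum_eq_zero fun z hz => ind_neg fun e => h (e ▸ hz)

lemma add_mem_shell {y : Zd d} {r : ℕ} (hy : y ∈ box (0 : Zd d) r) (j : Fin d) :
    y + Pi.single j 1 ∈ box (0 : Zd d) (r + 1) \ box 0 r ↔ y j = r := by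
  rw [mem_sdiff]
  have hy' := mem_box'.1 hy
  constructor
  · rintro ⟨_, h2⟩
    by_contra hne
    refine h2 (mem_box'.2 fun i => ?_)
    have := hy' i
    by_cases hi : i = j
    · subst hi
      simp at this ⊢
      omega
    · simpa [Pi.single_eq_of_ne hi] using this
  · intro h
    refine ⟨adj_mem_box hy (lattice_adj_add y j), fun h2 => ?_⟩
    have := (mem_box'.1 h2 j).2
    simp at this
    omega

lemma sub_mem_shell {y : Zd d} {r : ℕ} (hy : y ∈ box (0 : Zd d) r) (j : Fin d) :
    y - Pi.single j 1 ∈ box (0 : Zd d) (r + 1) \ box 0 r ↔ y j = -r := by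
  rw [mem_sdiff]
  have hy' := mem_box'.1 hy
  constructor
  · rintro ⟨_, h2⟩
    by_contra hne
    refine h2 (mem_box'.2 fun i => ?_)
    have := hy' i
    by_cases hi : i = j
    · subst hi
      simp at this ⊢
      omega
    · simpa [Pi.single_eq_of_ne hi] using this
  · intro h
    refine ⟨adj_mem_box hy (lattice_adj_sub y j), fun h2 => ?_⟩
    have := (mem_box'.1 h2 j).1
    simp at this
    omega

lemma sum_adj {y : Zd d} {r : ℕ} (hy : y ∈ box (0 : Zd d) r) :
    ∑ z ∈ box (0 : Zd d) (r + 1) \ box 0 r, ind ((lattice d).Adj y z) =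
      ∑ j, (ind (y j = r) + ind (y j = -r)) := by
  simp only [ind_adj]
  rw [Finset.sum_comm]
  refine Finset.sum_congr rfl fun j _ => ?_
  rw [Finset.sum_add_distrib, sum_ind_eq, sum_ind_eq, ind_congr (add_mem_shell hy j),
    ind_congr (sub_mem_shell hy j)]

lemma sum_aut {φ : Zd d → Zd d} (h : Aut φ) (h0 : φ 0 = 0) (q : ℝ) (r : ℕ) (f : Zd d → ℝ) :
    ∑ y ∈ box (0 : Zd d) r, f y * tz q (box 0 r) 0 y =
      ∑ y ∈ box (0 : Zd d) r, f (φ y) * tz q (box 0 r) 0 y := by
  have e := h.image_box 0 r
  rw [h0] at e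
  have e2 := h.sum_image (box 0 r) fun y => f y * tz q (box 0 r) 0 y
  rw [e] at e2
  rw [e2]
  refine Finset.sum_congr rfl fun y _ => ?_
  have e3 := h.tz_box q 0 r 0 y
  rw [h0] at e3
  rw [e3]

lemma face_top (q : ℝ) (r : ℕ) (i j : Fin d) :
    ∑ y ∈ box (0 : Zd d) r, ind (y j = r) * tz q (box 0 r) 0 y = face d q r i := by
  unfold face
  rw [sum_flt, sum_aut (aut_perm (Equiv.swap i j)) rfl]
  simp only [Equiv.swap_apply_right]

lemma face_bot (q : ℝ) (r : ℕ) (i j : Fin d) :
    ∑ y ∈ box (0 : Zd d) r, ind (y j = -r) * tz q (box 0 r) 0 y = face d q r i := by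
  rw [← face_top q r i j, sum_aut aut_neg neg_zero]
  refine Finset.sum_congr rfl fun y _ => ?_
  rw [ind_congr (show (-y) j = -(r : ℤ) ↔ y j = r by simp)]

lemma phi_eq (q : ℝ) (r : ℕ) (x : Zd d) : phi d q r =
    q * ∑ y ∈ box x r, ∑ z ∈ box x (r + 1) \ box x r,
      ind ((lattice d).Adj y z) * tz q (box x r) x y := by
  have h := aut_add x
  have e1 : (box (0 : Zd d) r).image (fun y => y + x) = box x r := by
    rw [h.image_box, zero_add]
  have e2 : (box (0 : Zd d) (r + 1) \ box 0 r).image (fun y => y + x) =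
      box x (r + 1) \ box x r := by
    refine h.image_eq fun z => ?_
    have := h.dist 0 z
    rw [zero_add] at this
    simp only [mem_sdiff, mem_box, this]
  unfold phi
  refine congrArg (fun t => q * t) ?_
  have a1 := h.sum_image (box 0 r) fun y => ∑ z ∈ box x (r + 1) \ box x r,
      ind ((lattice d).Adj y z) * tz q (box x r) x y
  rw [e1] at a1
  rw [a1]
  refine Finset.sum_congr rfl fun y _ => ?_
  have a2 := h.sum_image (box (0 : Zd d) (r + 1) \ box 0 r) fun z =>
      ind ((lattice d).Adj (y + x) z) * tz q (box x r) x (y + x)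
  rw [e2] at a2
  rw [a2]
  refine Finset.sum_congr rfl fun z _ => ?_
  rw [ind_congr (h.adj y z), tz_box_zero q x r x (y + x), sub_self, add_sub_cancel_right]

lemma key {q : ℝ} (h0 : 0 ≤ q) (h1 : q ≤ 1) (U : Finset (Zd d)) (x : Zd d) (r : ℕ) {m : ℝ}
    (hm : 0 ≤ m) (E : Zd d → ℝ) (hE : ∀ b, zd x b = r + 1 → E b ≤ m) :
    ∑ a ∈ box x r, ∑ b ∈ U \ box x r,
      ind ((lattice d).Adj a b) * (tz q (box x r) x a * q * E b) ≤ phi d q r * m := by
  rw [phi_eq q r x, Finset.mul_sum, Finset.sum_mul]
  refine Finset.sum_le_sum fun a ha => ?_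
  rw [Finset.mul_sum, Finset.sum_mul]
  have ht : 0 ≤ tz q (box x r) x a := tz_nonneg h0 h1
  have hn : ∀ b, 0 ≤ q * (ind ((lattice d).Adj a b) * tz q (box x r) x a) * m := fun b =>
    mul_nonneg (mul_nonneg h0 (mul_nonneg (ind_nonneg _) ht)) hm
  calc ∑ b ∈ U \ box x r, ind ((lattice d).Adj a b) * (tz q (box x r) x a * q * E b)
      = ∑ b ∈ (U \ box x r) ∩ (box x (r + 1) \ box x r),
          ind ((lattice d).Adj a b) * (tz q (box x r) x a * q * E b) := by
        symm
        refine Finset.sum_subset Finset.inter_subset_left fun b hb hb' => ?_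
        rw [ind_neg, zero_mul]
        intro hadj
        exact hb' (mem_inter.2 ⟨hb, mem_sdiff.2 ⟨adj_mem_box ha hadj, (mem_sdiff.1 hb).2⟩⟩)
    _ ≤ ∑ b ∈ (U \ box x r) ∩ (box x (r + 1) \ box x r),
          q * (ind ((lattice d).Adj a b) * tz q (box x r) x a) * m := by
        refine Finset.sum_le_sum fun b hb => ?_
        have hb2 := mem_sdiff.1 (mem_inter.1 hb).2
        have u1 := mem_box.1 hb2.1
        have u2 := notMem_box.1 hb2.2
        push_cast at u1
        have := hE b (le_antisymm u1 u2)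
        have h3 : 0 ≤ ind ((lattice d).Adj a b) * tz q (box x r) x a * q :=
          mul_nonneg (mul_nonneg (ind_nonneg _) ht) h0
        nlinarith [mul_le_mul_of_nonneg_left this h3]
    _ ≤ _ := Finset.sum_le_sum_of_subset_of_nonneg Finset.inter_subset_right fun b _ _ => hn b

lemma EC_single (q : ℝ) (D : Finset (Zd d)) (x y : Zd d) :
    EC (lattice d) (fun _ => q) D x (fun C => ind (∃ t ∈ ({y} : Finset (Zd d)), t ∈ C)) =
      tz q D x y := by
  unfold tz
  rw [tau_eq_EC]
  congr 1
  funext C
  exact ind_congr (by simp)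

end FaceSlb

open FaceSlb

theorem st_FACE : St_FACE := by
  intro d q r i
  unfold phi
  have h : ∑ y ∈ box (0 : Zd d) r, ∑ z ∈ box (0 : Zd d) (r + 1) \ box 0 r,
      ind ((lattice d).Adj y z) * tz q (box 0 r) 0 y = ∑ _j : Fin d, 2 * face d q r i := by
    have e : ∀ y ∈ box (0 : Zd d) r, ∑ z ∈ box (0 : Zd d) (r + 1) \ box 0 r,
        ind ((lattice d).Adj y z) * tz q (box 0 r) 0 y =
        ∑ j : Fin d, (ind (y j = r) * tz q (box 0 r) 0 y + ind (y j = -r) * tz q (box 0 r) 0 y) := by
      intro y hy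
      rw [← Finset.sum_mul, sum_adj hy, Finset.sum_mul]
      exact Finset.sum_congr rfl fun j _ => add_mul _ _ _
    rw [Finset.sum_congr rfl e, Finset.sum_comm]
    refine Finset.sum_congr rfl fun j _ => ?_
    rw [Finset.sum_add_distrib, face_top q r i j, face_bot q r i j, two_mul]
  rw [h, Finset.sum_const, card_univ, Fintype.card_fin, nsmul_eq_mul]
  ring

theorem st_SLB (h4 : St_PL4) : St_SLB := by
  intro d q h0 h1 U T x r m hm
  have hP : Prob (fun _ : Sym2 (Zd d) => q) := Prob.const h0 h1
  refine ⟨fun hE => ?_, fun w hw hE => ?_⟩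
  · have a := h4 (Zd d) (lattice d) (fun _ => q) hP U (box x r) T x (self_mem_box x r)
    have b := key h0 h1 U x r hm (fun b => ez q U b fun A => ind (∃ t ∈ T, t ∈ A)) hE
    exact a.trans (add_le_add le_rfl b)
  · have b := key h0 h1 U x r hm (fun b => ∑ y ∈ T, tz q U b y * w y) hE
    have a : ∀ y ∈ T, tz q U x y * w y ≤ tz q (box x r) x y * w y +
        ∑ a ∈ box x r, ∑ b ∈ U \ box x r,
          ind ((lattice d).Adj a b) * (tz q (box x r) x a * q * (tz q U b y * w y)) := by
      intro y _
      have a := h4 (Zd d) (lattice d) (fun _ => q) hP U (box x r) {y} x (self_mem_box x r)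
      simp only [EC_single] at a
      have a2 := mul_le_mul_of_nonneg_right a (hw y)
      rw [add_mul, Finset.sum_mul] at a2
      refine a2.trans (le_of_eq ?_)
      congr 1
      refine Finset.sum_congr rfl fun a _ => ?_
      rw [Finset.sum_mul]
      refine Finset.sum_congr rfl fun b _ => ?_
      unfold tz
      ring
    refine (Finset.sum_le_sum a).trans ?_
    rw [Finset.sum_add_distrib]
    refine add_le_add le_rfl (le_trans (le_of_eq ?_) b)
    rw [Finset.sum_comm]
    refine Finset.sum_congr rfl fun a _ => ?_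
    rw [Finset.sum_comm]
    refine Finset.sum_congr rfl fun b _ => ?_
    rw [Finset.mul_sum, Finset.mul_sum]

end Pool.Agent.TPC
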