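import Pool.Agent.Lib.TPC.BlueG
import Pool.Agent.Lib.TPC.ZBasic

/-! Block LBb, part a: elementary sums and the exploration of the chosen cluster. -/

open Finset

namespace Pool.Agent.TPC

open Pool.Agent.Lib.MP_81a99a_pr (lattice torus)

namespace LBb

variable {d : ℕ}

lemma sum_edges_mem {V : Type} [DecidableEq V] {G : SimpleGraph V} {Δ : ℕ} (h : DegLe G Δ)
    (D : Finset V) (v : V) : ∑ e ∈ edges G D, ind (v ∈ e) ≤ Δ := by
  rw [← card_flt]
  have h1 : flt (edges G D) (fun e => v ∈ e) ⊆ (flt D (G.Adj v)).image fun y => s(v, y) := by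
    intro e he
    obtain ⟨he1, he2⟩ := mem_flt.1 he
    obtain ⟨y, rfl⟩ := Sym2.mem_iff_exists.1 he2
    obtain ⟨h1, -, h3⟩ := mk_mem_edges.1 he1
    exact Finset.mem_image.2 ⟨y, mem_flt.2 ⟨h3, h1⟩, rfl⟩
  have h2 := (Finset.card_le_card h1).trans Finset.card_image_le
  exact_mod_cast h2.trans (h v _ fun y hy => (mem_flt.1 hy).2)

lemma geom_le {a : ℝ} (ha : 0 < a) (N : ℕ) :
    ∑ t ∈ range N, Real.exp (-(a * t)) ≤ 1 + 1 / a := by
  have key : ∀ N : ℕ, ∑ t ∈ range N, Real.exp (-(a * t)) ≤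
      (1 + 1 / a) * (1 - Real.exp (-(a * N))) := by
    intro N
    induction N with
    | zero => simp
    | succ n ih =>
      rw [Finset.sum_range_succ]
      have e1 : Real.exp (-(a * ((n + 1 : ℕ) : ℝ))) = Real.exp (-(a * n)) * Real.exp (-a) := by
        rw [← Real.exp_add]; congr 1; push_cast; ring
      have h1 : Real.exp (-a) * (1 + a) ≤ 1 := by
        have h2 := Real.add_one_le_exp a
        have h3 : Real.exp (-a) * Real.exp a = 1 := by rw [← Real.exp_add]; simp
        nlinarith [Real.exp_pos (-a)]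
      have h4 : 1 ≤ (1 + 1 / a) * (1 - Real.exp (-a)) := by
        have : (1 + 1 / a) * (1 - Real.exp (-a)) = ((1 + a) - Real.exp (-a) * (1 + a)) / a := by
          field_simp
          ring
        rw [this, le_div_iff₀ ha]
        linarith
      have h5 := mul_le_mul_of_nonneg_left h4 (Real.exp_pos (-(a * n))).le
      rw [e1]
      nlinarith
  refine (key N).trans ?_
  have h1 : 0 < 1 + 1 / a := by positivity
  nlinarith [Real.exp_pos (-(a * N))]

lemma poly_exp (n : ℕ) {b : ℝ} (hb : 0 < b) :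
    ∃ M : ℝ, 0 < M ∧ ∀ s : ℝ, 0 ≤ s → (1 + s) ^ n ≤ M * Real.exp (b * s) := by
  refine ⟨n.factorial * Real.exp b / b ^ n, by positivity, fun s hs => ?_⟩
  have h1 := Real.pow_div_factorial_le_exp (b * (1 + s)) (by positivity) n
  rw [div_le_iff₀ (by positivity), mul_pow, mul_add, mul_one, Real.exp_add] at h1
  rw [div_mul_eq_mul_div, le_div_iff₀ (by positivity)]
  nlinarith

lemma card_shell (n : ℕ) (S : Finset (Zd d)) (hS : ∀ v ∈ S, zn 0 v = n + 1) :
    (S.card : ℝ) ≤ 2 * d * (2 * (n + 1) + 1) ^ (d - 1) := by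
  have h1 : S ⊆ box (0 : Zd d) (n + 1) \ box 0 n := by
    intro v hv
    rw [Finset.mem_sdiff, notMem_box, mem_box, zd_eq_zn, hS v hv]
    push_cast
    exact ⟨le_rfl, le_rfl⟩
  have h2 := Finset.card_le_card h1
  rw [Finset.card_sdiff_of_subset (box_mono _ (Nat.le_succ n)), card_box, card_box] at h2
  have h3 : (2 * n + 1) ^ d ≤ (2 * (n + 1) + 1) ^ d := Nat.pow_le_pow_left (by omega) d
  have h4 : (S.card : ℝ) ≤ (2 * ((n : ℝ) + 1) + 1) ^ d - (2 * n + 1) ^ d := by
    have := (Nat.cast_le (α := ℝ)).2 h2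
    rw [Nat.cast_sub h3] at this
    push_cast at this
    exact this
  have h5 := abs_pow_sub_pow_le (2 * ((n : ℝ) + 1) + 1) (2 * n + 1) d
  have h6 : (0 : ℝ) ≤ n := Nat.cast_nonneg n
  rw [show 2 * ((n : ℝ) + 1) + 1 - (2 * n + 1) = 2 by ring, abs_of_pos (by norm_num : (0 : ℝ) < 2),
    abs_of_pos (by linarith : (0 : ℝ) < 2 * (n + 1) + 1),
    abs_of_pos (by linarith : (0 : ℝ) < 2 * n + 1), max_eq_left (by linarith)] at h5
  exact h4.trans ((le_abs_self _).trans h5)

lemma shell_sum (d : ℕ) {c : ℝ} (hc : 0 < c) : ∃ M : ℝ, 0 < M ∧ ∀ (l : ℝ) (L : ℕ)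
    (S : Finset (Zd d)), 1 ≤ l → l ≤ L → (∀ v ∈ S, (L : ℝ) ≤ zd 0 v) →
    ∑ v ∈ S, Real.exp (-(c * (zd 0 v - L) / l)) ≤ M * ((L : ℝ) ^ (d - 1) * l) := by
  obtain ⟨M, hM, hMe⟩ := poly_exp (d - 1) (half_pos hc)
  refine ⟨(2 * d + 1) * 3 ^ (d - 1) * M * (1 + 2 / c), by positivity, fun l L S hl hlL hS => ?_⟩
  have hL1 : 1 ≤ L := by exact_mod_cast hl.trans hlL
  have hl0 : 0 < l := by linarith
  have hL0 : (0 : ℝ) < L := by linarith
  set N := S.sup (fun v => zn 0 v) + 1 with hN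
  have hmaps : ∀ v ∈ S, zn 0 v - L ∈ range N := fun v hv => by
    have : zn 0 v ≤ S.sup fun v => zn 0 v := Finset.le_sup (f := fun v => zn (0 : Zd d) v) hv
    rw [Finset.mem_range]; omega
  rw [← Finset.sum_fiberwise_of_maps_to hmaps]
  have hterm : ∀ t ∈ range N, ∑ v ∈ S with zn 0 v - L = t, Real.exp (-(c * (zd 0 v - L) / l)) ≤
      (2 * d + 1) * 3 ^ (d - 1) * M * (L : ℝ) ^ (d - 1) * Real.exp (-(c / (2 * l) * t)) := by
    intro t _
    have hz : ∀ v ∈ S.filter (fun v => zn 0 v - L = t), zn 0 v = L + t := by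
      intro v hv
      obtain ⟨h1, h2⟩ := Finset.mem_filter.1 hv
      have h3 := hS v h1
      rw [zd_eq_zn] at h3
      have h4 : L ≤ zn 0 v := by exact_mod_cast h3
      omega
    have e1 : ∑ v ∈ S with zn 0 v - L = t, Real.exp (-(c * (zd 0 v - L) / l)) =
        ((S.filter fun v => zn 0 v - L = t).card : ℝ) * Real.exp (-(c * t / l)) := by
      rw [← nsmul_eq_mul, ← Finset.sum_const]
      refine Finset.sum_congr rfl fun v hv => ?_
      rw [zd_eq_zn, hz v hv]
      push_cast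
      rw [add_sub_cancel_left]
    have h1 := card_shell (L + t - 1) _ fun v hv => (hz v hv).trans (by omega)
    have e2 : ((L + t - 1 : ℕ) : ℝ) + 1 = L + t := by
      rw [Nat.cast_sub (by omega)]; push_cast; ring
    rw [e2] at h1
    have ht0 : (0 : ℝ) ≤ t := Nat.cast_nonneg t
    have hL1' : (1 : ℝ) ≤ L := by exact_mod_cast hL1
    have h2 : 2 * ((L : ℝ) + t) + 1 ≤ 3 * L * (1 + t / l) := by
      have h3 : (t : ℝ) ≤ L * (t / l) := by
        rw [← mul_div_assoc, le_div_iff₀ hl0]; nlinarith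
      have h4 : 0 ≤ (L : ℝ) * (t / l) := by positivity
      nlinarith
    have h3 : (2 * ((L : ℝ) + t) + 1) ^ (d - 1) ≤
        3 ^ (d - 1) * (L : ℝ) ^ (d - 1) * (M * Real.exp (c / 2 * (t / l))) := by
      refine (pow_le_pow_left₀ (by positivity) h2 _).trans ?_
      rw [mul_pow, mul_pow]
      exact mul_le_mul_of_nonneg_left (hMe _ (by positivity)) (by positivity)
    have e3 : Real.exp (c / 2 * (t / l)) * Real.exp (-(c * t / l)) =
        Real.exp (-(c / (2 * l) * t)) := by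
      rw [← Real.exp_add]; congr 1; field_simp; ring
    rw [e1, ← e3]
    have h4 : ((S.filter fun v => zn 0 v - L = t).card : ℝ) ≤
        (2 * d + 1) * (3 ^ (d - 1) * (L : ℝ) ^ (d - 1) * (M * Real.exp (c / 2 * (t / l)))) :=
      h1.trans (mul_le_mul (by linarith) h3 (by positivity) (by positivity))
    refine (mul_le_mul_of_nonneg_right h4 (Real.exp_pos _).le).trans (le_of_eq ?_)
    ring
  refine (Finset.sum_le_sum hterm).trans ?_
  rw [← Finset.mul_sum]
  have h1 := geom_le (a := c / (2 * l)) (by positivity) N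
  have h2 : 1 + 1 / (c / (2 * l)) ≤ (1 + 2 / c) * l := by
    have : 1 / (c / (2 * l)) = 2 / c * l := by field_simp
    rw [this]; linarith
  refine (mul_le_mul_of_nonneg_left (h1.trans h2) (by positivity)).trans (le_of_eq ?_)
  ring

/-- an open path from outside the cube into the cube reaches the next shell outside the cube -/
lemma exit {L : ℕ} {D : Finset (Zd d)} {ω : Finset (Sym2 (Zd d))} {y z : Zd d}
    (h : conn (lattice d) D ω z y) (hy : y ∈ box (0 : Zd d) L) (hz : z ∉ box (0 : Zd d) L) :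
    ∃ b ∈ box (0 : Zd d) (L + 1), conn (lattice d) (D \ box 0 L) ω z b := by
  have key := h.induction (P := fun v => (∃ b ∈ box (0 : Zd d) (L + 1),
      conn (lattice d) (D \ box 0 L) ω z b) ∨ conn (lattice d) (D \ box 0 L) ω z v)
    (Or.inr (conn.refl (Finset.mem_sdiff.2 ⟨h.1, hz⟩))) ?_
  · rcases key with key | key
    · exact key
    · exact absurd hy (Finset.mem_sdiff.1 key.right).2
  · rintro a b (h1 | h1) hab _ hb he
    · exact Or.inl h1
    · by_cases hbL : b ∈ box (0 : Zd d) L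
      · exact Or.inl ⟨a, adj_mem_box hbL hab.symm, h1⟩
      · exact Or.inr (h1.tail (Finset.mem_sdiff.2 ⟨hb, hbL⟩) hab he h1.right)

/-- the cube of radius `L` has a cluster with at least `k` points -/
def Big (k : ℝ) (L : ℕ) (ω : Finset (Sym2 (Zd d))) : Prop :=
  ∃ y, k ≤ ((cl (lattice d) (box 0 L) ω y).card : ℝ)

/-- a chosen point of a large cluster of the cube -/
noncomputable def ys (k : ℝ) (L : ℕ) (ω : Finset (Sym2 (Zd d))) : Zd d :=
  Classical.epsilon fun y => k ≤ ((cl (lattice d) (box 0 L) ω y).card : ℝ)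

/-- its cluster in the larger cube -/
noncomputable def CC (k : ℝ) (L L' : ℕ) (ω : Finset (Sym2 (Zd d))) : Finset (Zd d) :=
  cl (lattice d) (box 0 L') ω (ys k L ω)

/-- the explored edges -/
noncomputable def SS (k : ℝ) (L L' : ℕ) (ω : Finset (Sym2 (Zd d))) : Finset (Sym2 (Zd d)) :=
  edges (lattice d) (box 0 L) ∪
    flt (edges (lattice d) (box 0 L')) fun e => Big k L ω ∧ e ∈ touch (CC k L L' ω)

/-- the chosen cluster exists and avoids the boundary of the larger cube -/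
def AA (k : ℝ) (L L' : ℕ) (ω : Finset (Sym2 (Zd d))) : Prop :=
  Big k L ω ∧ ∀ z ∈ CC k L L' ω, zd 0 z < L'

variable {k : ℝ} {L L' : ℕ} {ω ω' : Finset (Sym2 (Zd d))}

lemma ys_spec (h : Big k L ω) : k ≤ ((cl (lattice d) (box 0 L) ω (ys k L ω)).card : ℝ) :=
  Classical.epsilon_spec h

lemma ys_mem (hk : 0 < k) (h : Big k L ω) : ys k L ω ∈ box (0 : Zd d) L := by
  by_contra hc
  have := ys_spec h
  rw [cl_of_notMem hc] at this
  simp only [Finset.card_empty, Nat.cast_zero] at this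
  linarith

lemma card_CC (hL : L ≤ L') (h : Big k L ω) : k ≤ ((CC k L L' ω).card : ℝ) :=
  (ys_spec h).trans (Nat.cast_le.2 (Finset.card_le_card (cl_mono (box_mono _ hL) subset_rfl)))

lemma inside (h : ∀ e ∈ edges (lattice d) (box (0 : Zd d) L), (e ∈ ω ↔ e ∈ ω')) :
    (Big k L ω' ↔ Big k L ω) ∧ ys k L ω' = ys k L ω := by
  have h1 : ∀ y, cl (lattice d) (box 0 L) ω' y = cl (lattice d) (box 0 L) ω y :=
    fun y => cl_congr fun e he _ => h e he
  unfold Big ys
  simp only [h1, and_self]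

lemma agree (h : ∀ e ∈ SS k L L' ω, (e ∈ ω ↔ e ∈ ω')) :
    (Big k L ω' ↔ Big k L ω) ∧ (Big k L ω → CC k L L' ω' = CC k L L' ω) := by
  obtain ⟨h1, h2⟩ := inside (k := k) fun e he => h e (Finset.mem_union_left _ he)
  refine ⟨h1, fun hb => ?_⟩
  unfold CC
  rw [h2]
  exact cl_congr fun e he1 he2 => h e (Finset.mem_union_right _ (mem_flt.2 ⟨he1, hb, he2⟩))

lemma isStop (k : ℝ) (L L' : ℕ) : IsStop (SS (d := d) k L L') := by
  intro ω ω' h
  obtain ⟨h1, h2⟩ := agree h
  unfold SS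
  congr 1
  ext e
  simp only [mem_flt, h1]
  exact and_congr_right fun _ => and_congr_right fun hb => by rw [h2 hb]

lemma detBy (k : ℝ) (L L' : ℕ) : DetBy (SS (d := d) k L L') fun ω => ind (AA k L L' ω) := by
  intro ω ω' h
  obtain ⟨h1, h2⟩ := agree h
  refine ind_congr ?_
  unfold AA
  rw [h1]
  exact and_congr_right fun hb => by rw [h2 hb]

lemma dep_Big (k : ℝ) (L : ℕ) : DepOn (fun ω => ind (Big (d := d) k L ω))
    (edges (lattice d) (box (0 : Zd d) L) : Set (Sym2 (Zd d))) :=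
  fun _ _ h => ind_congr (inside (k := k) fun e he => h e he).1.symm

end LBb

end Pool.Agent.TPC
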