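import Pool.Agent.Lib.TPC.BlueG

/-! Block LW: the Loomis-Whitney inequality (grid lines lemma and tensor powers). -/

open Finset MeasureTheory
open scoped ENNReal

namespace Pool.Agent.TPC

namespace LW

/-- the inequality with a constant -/
theorem weak {d : ℕ} (hd : 2 ≤ d) (α : Type) [Countable α] [DecidableEq α] (a : α)
    (S : Finset (Fin d → α)) (t : ℕ)
    (h : ∀ i, (S.image fun x => Function.update x i a).card ≤ t) :
    S.card ^ (d - 1) ≤ d ^ d * t ^ d := by
  let _ : MeasurableSpace α := ⊤
  have : DiscreteMeasurableSpace α := ⟨fun _ => trivial⟩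
  set T : Finset (Fin d → α) := univ.biUnion fun i => S.image fun x => Function.update x i a with hT
  have hTc : T.card ≤ d * t := by
    refine card_biUnion_le.trans ?_
    refine (sum_le_sum fun i _ => h i).trans ?_
    simp
  set μ : Measure (Fin d → α) := Measure.pi fun _ => Measure.count with hμ
  have hs : ∀ U : Finset (Fin d → α), μ U = U.card := by
    intro U
    have h1 : ∀ x : Fin d → α, μ {x} = 1 := by
      intro x
      rw [hμ, ← Set.univ_pi_singleton, Measure.pi_pi]
      simp
    rw [← sum_measure_singleton]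
    simp [h1]
  have hd1 : (1 : ℝ) < d := by exact_mod_cast hd
  have hp : Real.HolderConjugate (Fintype.card (Fin d)) (d / (d - 1)) := by
    rw [Fintype.card_fin]
    exact Real.HolderConjugate.conjExponent hd1
  have key := lintegral_prod_lintegral_pow_le (fun _ : Fin d => (Measure.count : Measure α)) hp
    (f := (T : Set (Fin d → α)).indicator 1) (measurable_one.indicator T.measurableSet)
  rw [lintegral_indicator_one T.measurableSet, ← hμ, hs] at key
  have low : (S.card : ℝ≥0∞) ≤ (T.card : ℝ≥0∞) ^ ((d : ℝ) / (d - 1)) := by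
    refine le_trans ?_ key
    rw [← hs, ← lintegral_indicator_one S.measurableSet]
    refine lintegral_mono fun x => ?_
    by_cases hx : x ∈ S
    · rw [Set.indicator_of_mem (by exact hx), Pi.one_apply]
      refine one_le_prod'' fun i => ?_
      refine ENNReal.one_le_rpow ?_ ?_
      · rw [lintegral_count]
        refine le_trans ?_ (ENNReal.le_tsum a)
        rw [Set.indicator_of_mem, Pi.one_apply]
        exact mem_biUnion.2 ⟨i, mem_univ _, mem_image_of_mem _ hx⟩
      · rw [Fintype.card_fin]
        have : (0 : ℝ) < d - 1 := by linarith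
        positivity
    · rw [Set.indicator_of_notMem (by exact hx)]
      exact zero_le
  have h2 : (S.card : ℝ≥0∞) ^ (d - 1) ≤ (T.card : ℝ≥0∞) ^ d := by
    refine (pow_le_pow_left' low _).trans (le_of_eq ?_)
    rw [← ENNReal.rpow_natCast, ← ENNReal.rpow_mul, ← ENNReal.rpow_natCast]
    congr 1
    have : (d : ℝ) - 1 ≠ 0 := by linarith
    rw [Nat.cast_sub (by omega), Nat.cast_one]
    field_simp
  have h3 : S.card ^ (d - 1) ≤ T.card ^ d := by exact_mod_cast h2
  rw [← mul_pow]
  exact h3.trans (Nat.pow_le_pow_left hTc _)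

theorem tens {d : ℕ} (hd : 2 ≤ d) (k : ℕ) : ∀ (α : Type) [Countable α] [DecidableEq α] (a : α)
    (S : Finset (Fin d → α)) (t : ℕ),
    (∀ i, (S.image fun x => Function.update x i a).card ≤ t) →
    (S.card ^ (d - 1)) ^ 2 ^ k ≤ d ^ d * (t ^ d) ^ 2 ^ k := by
  induction k with
  | zero => intro α _ _ a S t h; simpa using weak hd α a S t h
  | succ k ih =>
    intro α _ _ a S t h
    let z : (Fin d → α) × (Fin d → α) → Fin d → α × α := fun q i => (q.1 i, q.2 i)
    have hz : Function.Injective z := by
      intro q q' e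
      refine Prod.ext (funext fun i => ?_) (funext fun i => ?_)
      · exact congrArg Prod.fst (congrFun e i)
      · exact congrArg Prod.snd (congrFun e i)
    have h1 := ih (α × α) (a, a) ((S ×ˢ S).image z) (t * t) fun i => by
      have : (((S ×ˢ S).image z).image fun x => Function.update x i (a, a)) ⊆
          ((S.image fun x => Function.update x i a) ×ˢ
            (S.image fun x => Function.update x i a)).image z := by
        intro w hw
        obtain ⟨u, hu, rfl⟩ := mem_image.1 hw
        obtain ⟨q, hq, rfl⟩ := mem_image.1 hu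
        rw [mem_product] at hq
        refine mem_image.2 ⟨(Function.update q.1 i a, Function.update q.2 i a),
          mem_product.2 ⟨mem_image_of_mem _ hq.1, mem_image_of_mem _ hq.2⟩, funext fun j => ?_⟩
        by_cases e : j = i
        · subst e; simp [z]
        · simp [z, Function.update_of_ne e]
      refine (card_le_card this).trans (card_image_le.trans ?_)
      rw [card_product]
      exact Nat.mul_le_mul (h i) (h i)
    rw [card_image_of_injective _ hz, card_product] at h1
    calc (S.card ^ (d - 1)) ^ 2 ^ (k + 1) = ((S.card * S.card) ^ (d - 1)) ^ 2 ^ k := by ring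
      _ ≤ d ^ d * ((t * t) ^ d) ^ 2 ^ k := h1
      _ = _ := by ring

theorem fin {A B c : ℕ} (h : ∀ k : ℕ, A ^ 2 ^ k ≤ c * B ^ 2 ^ k) : A ≤ B := by
  by_contra hh
  push Not at hh
  rcases Nat.eq_zero_or_pos B with rfl | hB
  · have := h 0
    simp at this
    omega
  have hB' : (0 : ℝ) < B := by exact_mod_cast hB
  have h1 : (1 : ℝ) < A / B := by rw [one_lt_div hB']; exact_mod_cast hh
  obtain ⟨n, hn⟩ := pow_unbounded_of_one_lt (c : ℝ) h1
  have h2 : ((A : ℝ) / B) ^ n ≤ ((A : ℝ) / B) ^ 2 ^ n :=
    pow_le_pow_right₀ h1.le Nat.lt_two_pow_self.le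
  have h3 : ((A : ℝ) / B) ^ 2 ^ n ≤ c := by
    rw [div_pow, div_le_iff₀ (by positivity)]
    exact_mod_cast h n
  linarith

end LW

theorem st_LW : St_LW := fun _ S t h hd => LW.fin fun k => LW.tens hd k ℤ 0 S t h

end Pool.Agent.TPC
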