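import Pool.Agent.Lib.TPC.BlueC

/-! Block XB: deterministic properties of the single-root exploration. -/

open Finset

set_option linter.unusedSectionVars false

namespace Pool.Agent.TPC

namespace XB

variable {V : Type} [Fintype V] [DecidableEq V]

/-- invariant of the exploration -/
structure Inv (G : SimpleGraph V) (D : Finset V) (i : Fin 5) (x : V) (k : ℝ) (ω : Finset (Bit V))
    (s : List (Ent (Sym2 V) V)) : Prop where
  con : ∀ y ∈ Wof s, conn G (Wof s) (lev i ω) x y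
  clo : ∀ a ∈ Wof s, ∀ b ∈ D, G.Adj a b → s(a, b) ∈ lev 0 ω → b ∈ Wof s
  tok : ∀ a ∈ s, ∀ t, a.tok = some t →
    t ∈ touch (Wof s) ∧ ((∀ v ∈ t, v ∈ Wof s) ∨ ∀ b ∈ lbits i t, b ∉ ω)
  root : s ≠ [] → (x ∈ D → x ∈ Wof s) ∧
    ∀ h : V → ℝ, sumF (fun a _ => ind (a.tok = none) * h a.z) s = h x
  cnt : ∃ (W' : Finset V) (Pr : Finset (V × V)), W' ⊆ Wof s ∧ (W'.card : ℝ) < k ∧
    (∀ p ∈ Pr, p.1 ∈ W' ∧ G.Adj p.1 p.2 ∧ ∃ a ∈ s, a.tok = some s(p.1, p.2)) ∧
    ∀ h : V → ℝ, sumF (fun a _ => ind (a.tok ≠ none) * h a.z) s = ∑ p ∈ Pr, h p.2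

variable {G : SimpleGraph V} {D : Finset V} {i : Fin 5} {x : V} {k : ℝ} {ω : Finset (Bit V)}
  {s : List (Ent (Sym2 V) V)}

lemma lev0_sub (i : Fin 5) (ω : Finset (Bit V)) : lev 0 ω ⊆ lev i ω :=
  lev_mono (Fin.zero_le i) subset_rfl

lemma clo_piece {W : Finset V} {η : Finset (Sym2 V)} (z : V)
    (h : ∀ a ∈ W, ∀ b ∈ D, G.Adj a b → s(a, b) ∈ η → b ∈ W) :
    ∀ a ∈ cl G (D \ W) η z ∪ W, ∀ b ∈ D, G.Adj a b → s(a, b) ∈ η → b ∈ cl G (D \ W) η z ∪ W := by
  intro a ha b hb hab he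
  by_cases hW : b ∈ W
  · exact mem_union_right _ hW
  · rcases mem_union.1 ha with ha | ha
    · exact mem_union_left _ (mem_cl.2 ((mem_cl.1 ha).tail (mem_sdiff.2 ⟨hb, hW⟩) hab he
        (mem_cl.1 ha).right))
    · exact absurd (h a ha b hb hab he) hW

lemma inv_nil (hk : 0 < k) : Inv G D i x k ω [] where
  con := by simp [Wof]
  clo := by simp [Wof]
  tok := by simp
  root := by simp
  cnt := ⟨∅, ∅, empty_subset _, by simpa using hk, by simp, by simp [sumF]⟩

lemma inv_root (hk : 0 < k) :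
    Inv G D i x k ω [⟨none, x, true, cl G (D \ Wof ([] : List (Ent (Sym2 V) V))) (lev 0 ω) x⟩] where
  con := fun y hy => by
    simp only [Wof, union_empty] at hy ⊢
    exact (conn_cl (mem_cl.1 hy)).mono subset_rfl (lev0_sub i ω)
  clo := clo_piece x (by simp [Wof])
  tok := by simp
  root := fun _ => ⟨fun hx => mem_union_left _ (self_mem_cl (by simpa [Wof] using hx)),
    fun h => by simp [sumF, ind_pos]⟩
  cnt := ⟨∅, ∅, empty_subset _, by simpa using hk, by simp, fun h => by simp [sumF, ind_neg]⟩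

/-- the parts of the invariant that do not depend on the outcome of the token -/
lemma inv_tok (H : Inv G D i x k ω s) (hs : s ≠ []) (hk : ((Wof s).card : ℝ) < k) {b z : V}
    (hc : Cand G D s (b, z)) (o : Bool) (C : Finset V)
    (con : ∀ y ∈ C ∪ Wof s, conn G (C ∪ Wof s) (lev i ω) x y)
    (clo : ∀ a ∈ C ∪ Wof s, ∀ b ∈ D, G.Adj a b → s(a, b) ∈ lev 0 ω → b ∈ C ∪ Wof s)
    (hn : z ∈ C ∨ ∀ c ∈ lbits i s(b, z), c ∉ ω) :
    Inv G D i x k ω (⟨some s(b, z), z, o, C⟩ :: s) where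
  con := con
  clo := clo
  tok := by
    intro a ha t ht
    rcases List.mem_cons.1 ha with rfl | ha
    · simp only [Option.some.injEq] at ht
      subst ht
      refine ⟨mk_mem_touch.2 (Or.inl (mem_union_right _ hc.1)), hn.imp (fun hz v hv => ?_) id⟩
      rcases Sym2.mem_iff.1 hv with rfl | rfl
      exacts [mem_union_right _ hc.1, mem_union_left _ hz]
    · obtain ⟨h1, h2⟩ := H.tok a ha t ht
      exact ⟨touch_mono subset_union_right h1,
        h2.imp (fun h v hv => mem_union_right _ (h v hv)) id⟩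
  root := fun _ => ⟨fun hx => mem_union_right _ ((H.root hs).1 hx), fun h => by
    rw [sumF, (H.root hs).2 h, ind_neg (by simp), zero_mul, zero_add]⟩
  cnt := by
    obtain ⟨W', Pr, h1, -, h3, h4⟩ := H.cnt
    have hn : (b, z) ∉ Pr := fun h => by
      obtain ⟨a, ha, e⟩ := (h3 _ h).2.2
      exact hc.2.2.2.2.2 a ha e
    refine ⟨Wof s, insert (b, z) Pr, subset_union_right, hk, fun p hp => ?_, fun h => ?_⟩
    · rcases mem_insert.1 hp with rfl | hp
      · exact ⟨hc.1, hc.2.2.2.2.1, _, List.mem_cons_self, rfl⟩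
      · obtain ⟨e1, e2, a, ha, e3⟩ := h3 p hp
        exact ⟨h1 e1, e2, a, List.mem_cons_of_mem _ ha, e3⟩
    · rw [sumF, h4 h, sum_insert hn, ind_pos (by simp), one_mul]

lemma inv_step (hk : 0 < k) (H : Inv G D i x k ω s) :
    Inv G D i x k ω ((xproc G D i x k).step ω s) := by
  have eb : baseOf (xproc G D i x k).base ω = lev 0 ω := (lev_zero ω).symm
  rcases xproc_next (G := G) (D := D) (i := i) (x := x) (k := k) s with
    ⟨rfl, h⟩ | ⟨hs, hW, b, z, hc, h⟩ | ⟨-, -, h⟩
  · rw [Proc.step_root h, eb]; exact inv_root hk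
  · by_cases hb : ∃ c ∈ (xproc G D i x k).bits s(b, z), c ∈ ω
    · rw [Proc.step_succ h hb, eb]
      have hz : z ∈ cl G (D \ Wof s) (lev 0 ω) z := self_mem_cl (mem_sdiff.2 ⟨hc.2.2.1, hc.2.2.2.1⟩)
      refine inv_tok H hs hW hc true _ (fun y hy => ?_) (clo_piece z H.clo) (Or.inl hz)
      rcases mem_union.1 hy with hy | hy
      · obtain ⟨c, h1, h2⟩ := hb
        have h3 := mem_lbits.1 h1
        have he : s(b, z) ∈ lev i ω := mem_lev.2 ⟨c.2, h3.2.2, by rw [← h3.1]; exact h2⟩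
        exact (((H.con b hc.1).mono subset_union_right subset_rfl).tail (mem_union_left _ hz)
          hc.2.2.2.2.1 he (mem_union_right _ hc.1)).trans
          ((conn_cl (mem_cl.1 hy)).mono subset_union_left (lev0_sub i ω))
      · exact (H.con y hy).mono subset_union_right subset_rfl
    · rw [Proc.step_fail h hb]
      refine inv_tok H hs hW hc false ∅ ?_ ?_ (Or.inr fun c h1 h2 => hb ⟨c, h1, h2⟩)
      · rw [empty_union]; exact H.con
      · rw [empty_union]; exact H.clo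
  · rw [Proc.step_none h]; exact H

/-- the examined tokens -/
noncomputable def Tk (s : List (Ent (Sym2 V) V)) : Finset (Sym2 V) :=
  flt univ fun t => ∃ a ∈ s, a.tok = some t

lemma run_ne (n : ℕ) : (xproc G D i x k).run ω (n + 1) ≠ [] := by
  induction n with
  | zero =>
    have h : (xproc G D i x k).next [] = some (none, x) := by simp [xproc]
    rw [Proc.run_succ, show (xproc G D i x k).run ω 0 = [] from rfl, Proc.step_root h]
    simp
  | succ n ih =>
    intro h
    have := Proc.suffix_step (P := xproc G D i x k) (ω := ω) (s := (xproc G D i x k).run ω (n + 1))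
    rw [← Proc.run_succ, h] at this
    exact ih (List.suffix_nil.1 this)

lemma card_Tk {b z : V} (hc : Cand G D s (b, z)) (o : Bool) (C : Finset V) :
    (Tk s).card + 1 ≤ (Tk (⟨some s(b, z), z, o, C⟩ :: s)).card := by
  refine card_lt_card ⟨fun t ht => ?_, fun h => ?_⟩
  · obtain ⟨a, ha, e⟩ := (mem_flt.1 ht).2
    exact mem_flt.2 ⟨mem_univ _, a, List.mem_cons_of_mem _ ha, e⟩
  · obtain ⟨a, ha, e⟩ := (mem_flt.1 (h (mem_flt.2 ⟨mem_univ _, _, List.mem_cons_self, rfl⟩))).2
    exact hc.2.2.2.2.2 a ha e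

lemma stop_or (n : ℕ) : (xproc G D i x k).next ((xproc G D i x k).run ω (n + 1)) = none ∨
    n ≤ (Tk ((xproc G D i x k).run ω (n + 1))).card := by
  induction n with
  | zero => exact Or.inr (Nat.zero_le _)
  | succ n ih =>
    rw [Proc.run_succ _ _ (n + 1)]
    rcases xproc_next (G := G) (D := D) (i := i) (x := x) (k := k)
      ((xproc G D i x k).run ω (n + 1)) with ⟨h0, -⟩ | ⟨-, -, b, z, hc, h⟩ | ⟨-, -, h⟩
    · exact absurd h0 (run_ne n)
    · right
      have h1 := ih.resolve_left (by rw [h]; simp)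
      by_cases hb : ∃ c ∈ (xproc G D i x k).bits s(b, z), c ∈ ω
      · rw [Proc.step_succ h hb]; exact (Nat.succ_le_succ h1).trans (card_Tk hc _ _)
      · rw [Proc.step_fail h hb]; exact (Nat.succ_le_succ h1).trans (card_Tk hc _ _)
    · left; rw [Proc.step_none h]; exact h

lemma stopped (hk : ((xw G D i x k ω).card : ℝ) < k) : ∀ bz, ¬ Cand G D (xs G D i x k ω) bz := by
  rcases xproc_next (G := G) (D := D) (i := i) (x := x) (k := k) (xs G D i x k ω) with
    ⟨h0, -⟩ | ⟨-, -, b, z, hc, h⟩ | ⟨-, h | h, -⟩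
  · exact absurd h0 (run_ne _)
  · have h1 := (stop_or (G := G) (D := D) (i := i) (x := x) (k := k) (ω := ω)
      (Fintype.card (Sym2 V))).resolve_left (by
        rw [show (xproc G D i x k).run ω (Fintype.card (Sym2 V) + 1) = xs G D i x k ω from rfl, h]
        simp)
    have h2 := card_Tk hc true ∅
    have h3 := card_le_univ (Tk (⟨some s(b, z), z, true, ∅⟩ :: xs G D i x k ω))
    exact absurd (h1.trans_lt (h2.trans h3)) (lt_irrefl _)
  · exact absurd hk (not_lt.2 h)
  · exact h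

end XB

open XB in
theorem st_XB : St_XB := by
  intro V _ _ G Δ hΔ D i x k hk ω
  have H : Inv G D i x k ω (xs G D i x k ω) :=
    Proc.run_inv (inv_nil hk) (fun s hs => inv_step hk hs) _
  have hD : xw G D i x k ω ⊆ D := ((xproc G D i x k).disj_run ω _).2
  have hs : xs G D i x k ω ≠ [] := run_ne _
  have h1 : xw G D i x k ω ⊆ cl G D (lev i ω) x := fun y hy =>
    mem_cl.2 ((H.con y hy).mono hD subset_rfl)
  refine ⟨h1, fun hW => h1.antisymm ?_, H.con, fun ω' h => Proc.run_congr _ ?_, (H.root hs).2, ?_⟩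
  · by_cases hx : x ∈ D
    · refine cl_subset_of ((H.root hs).1 hx) fun a ha b hb hab he => ?_
      by_contra hn
      obtain ⟨j, hj, hω⟩ := mem_lev.1 he
      rcases eq_or_lt_of_le (Fin.zero_le j) with h0 | h0
      · exact hn (H.clo a ha b hb hab (mem_lev.2 ⟨j, h0.ge, hω⟩))
      · refine stopped hW (a, b) ⟨ha, hD ha, hb, hn, hab, fun e he' ht => ?_⟩
        rcases (H.tok e he' _ ht).2 with h2 | h2
        · exact hn (h2 b (Sym2.mem_mk_right a b))
        · exact h2 (s(a, b), j) (mem_lbits.2 ⟨rfl, h0, hj⟩) hω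
    · rw [cl_of_notMem hx]; exact empty_subset _
  · rintro b (⟨e, he, rfl⟩ | ⟨a, ha, t, h2, h3⟩)
    · exact h _ he (Fin.zero_le i)
    · have h4 := mem_lbits.1 h3
      exact h b (by rw [h4.1]; exact (H.tok a ha t h2).1) h4.2.2
  · obtain ⟨W', Pr, e1, e2, e3, e4⟩ := H.cnt
    refine ⟨W', e1, e2, fun h h' h0 hh => ?_⟩
    rw [e4 h]
    calc ∑ p ∈ Pr, h p.2 ≤ ∑ p ∈ Pr, ind (G.Adj p.1 p.2) * h' p.1 :=
          sum_le_sum fun p hp => by
            rw [ind_pos (e3 p hp).2.1, one_mul]; exact hh _ _ (e3 p hp).2.1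
      _ ≤ ∑ p ∈ W' ×ˢ univ, ind (G.Adj p.1 p.2) * h' p.1 :=
          sum_le_sum_of_subset_of_nonneg (fun p hp => mem_product.2 ⟨(e3 p hp).1, mem_univ _⟩)
            fun p _ _ => mul_nonneg (ind_nonneg _) (h0 _)
      _ = ∑ b ∈ W', (∑ z, ind (G.Adj b z)) * h' b := by
          rw [sum_product]
          exact sum_congr rfl fun b _ => by rw [sum_mul]
      _ ≤ ∑ b ∈ W', Δ * h' b :=
          sum_le_sum fun b _ => mul_le_mul_of_nonneg_right (hΔ.sum_ind b univ) (h0 b)
      _ = _ := by rw [mul_sum]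

end Pool.Agent.TPC
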