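import Pool.Agent.Lib.TPC.BlueZ

/-! Block Z8: restricted lower bound. -/

open Finset

namespace Pool.Agent.TPC

open Pool.Agent.Lib.MP_81a99a_pr (lattice)

namespace Z8

lemma exp_le {s : ℝ} (h0 : 0 ≤ s) (h : s ≤ 1 / 2) : Real.exp (-(2 * s)) ≤ 1 - s := by
  rw [Real.exp_neg, inv_le_comm₀ (Real.exp_pos _) (by linarith), inv_eq_one_div, div_le_iff₀ (by linarith)]
  nlinarith [Real.add_one_le_exp (2 * s)]

/-- short connections carry half of the lower bound -/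
lemma short (h6 : St_PL6) (h3 : St_S3) {d : ℕ} {p c C : ℝ} (H : HZ d p c C) : ∃ Λ : ℝ, 0 < Λ ∧
    ∀ x y : Zd d, ∃ U, ∀ q, 0 < q → q ≤ p →
      (q / p) ^ (Λ * (1 + zd x y) ^ 2) * (c / 2 * kk (d - 2) (zd x y)) ≤ tz q U x y := by
  have hd : (9 : ℝ) ≤ d := by exact_mod_cast H.hd
  obtain ⟨C3, hC3, hS⟩ := h3 d (d - 2) (d - 2) (by linarith) (by linarith) (by linarith) (by linarith)
  have c0 := H.c0
  have hπ : Prob (fun _ : Sym2 (Zd d) => p) := Prob.const H.p0.le H.p1.le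
  have hC : 0 < C := by
    obtain ⟨R, hR⟩ := H.low 0 0
    have := hR.trans (H.up _ 0 0)
    rw [zd_self, kk_zero] at this
    linarith
  refine ⟨2 * C ^ 2 * C3 / c, by positivity, fun x y => ?_⟩
  obtain ⟨R0, hR0⟩ := H.low x y
  refine ⟨box x R0, fun q q0 qp => ?_⟩
  have t0 := zd_nonneg x y
  obtain ⟨a1, a2⟩ := h6 (Zd d) (lattice d) (box x R0) x y (2 * C ^ 2 * C3 / c * (1 + zd x y) ^ 2) (by positivity)
  refine le_trans (mul_le_mul_of_nonneg_left ?_ (Real.rpow_nonneg (div_nonneg q0.le H.p0.le) _))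
    (a2 p q q0 qp H.p1.le)
  have b1 : ∑ v ∈ box x R0, tz p (box x R0) x v * tz p (box x R0) v y ≤
      C ^ 2 * C3 * (kk (d - 2) (zd x y) * (1 + zd x y) ^ 2) := by
    have e1 := hS (Zd d) zd (met_zd d) x y (box x R0)
    rw [min_eq_right (by linarith), show (d : ℝ) - 2 + (d - 2) - d = (d - 2) + -2 by ring,
      ← kk_mul _ _ t0, kk_neg_two] at e1
    calc _ ≤ ∑ v ∈ box x R0, C ^ 2 * (kk (d - 2) (zd x v) * kk (d - 2) (zd v y)) := by
          refine sum_le_sum fun v _ => ?_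
          refine (mul_le_mul (H.up _ x v) (H.up _ v y) (tz_nonneg H.p0.le H.p1.le)
            (mul_nonneg hC.le (kk_nonneg _ (zd_nonneg _ _)))).trans_eq (by ring)
      _ ≤ _ := by
          rw [← mul_sum, mul_assoc]
          exact mul_le_mul_of_nonneg_left e1 (by positivity)
  have b2 := (a1 _ hπ).trans (div_le_div_of_nonneg_right b1 (by positivity))
  have b3 : C ^ 2 * C3 * (kk (d - 2) (zd x y) * (1 + zd x y) ^ 2) / (2 * C ^ 2 * C3 / c * (1 + zd x y) ^ 2) =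
      c / 2 * kk (d - 2) (zd x y) := by field_simp
  rw [b3] at b2
  have b4 := (PE_ind_mono (E := edges (lattice d) (box x R0)) hπ
    (P := fun ω => conn (lattice d) (box x R0) ω x y)
    (Q := fun ω => (conn (lattice d) (box x R0) ω x y ∧ ¬ connL (lattice d) (box x R0) ω x y
      (2 * C ^ 2 * C3 / c * (1 + zd x y) ^ 2)) ∨ connL (lattice d) (box x R0) ω x y
      (2 * C ^ 2 * C3 / c * (1 + zd x y) ^ 2)) fun ω h => by tauto).trans (PE_ind_or hπ _ _)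
  have b5 : c * kk (d - 2) (zd x y) ≤ _ := hR0.trans b4
  linarith

end Z8

open Z8 in
theorem st_Z8 (h6 : St_PL6) (h3 : St_S3) (hSL : St_SLB) (hF : St_FACE) (hP : St_PSI) : St_Z8 := by
  intro d p c C H R
  obtain ⟨Λ, hΛ, hs⟩ := short h6 h3 H
  obtain ⟨Φ, hΦ, hΨ⟩ := hP d p c C H
  have hd : (9 : ℝ) ≤ d := by exact_mod_cast H.hd
  have c0 := H.c0
  have p0 := H.p0
  have p1 := H.p1
  have hC : 0 < C := by
    obtain ⟨R, hR⟩ := H.low 0 0
    have := hR.trans (H.up _ 0 0)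
    rw [zd_self, kk_zero] at this
    linarith
  obtain ⟨Rp, hR, hR1⟩ : ∃ Rp : ℝ, R ≤ Rp ∧ 1 ≤ Rp := ⟨max R 1, le_max_left _ _, le_max_right _ _⟩
  obtain ⟨e0, he0, he⟩ : ∃ e0 : ℝ, 0 < e0 ∧ e0 = Real.exp (-(8 * Λ * Rp ^ 2 / p)) := ⟨_, Real.exp_pos _, rfl⟩
  obtain ⟨K, K0, K1, hK⟩ : ∃ K : ℝ, 0 < K ∧ K ≤ 1 ∧ K ≤ e0 * c / 4 / (2 * d * Φ * C) :=
    ⟨min 1 _, lt_min one_pos (by positivity), min_le_left _ _, min_le_right _ _⟩
  rw [le_div_iff₀ (by positivity)] at hK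
  have hRK : 0 < 2 * Rp / K := by positivity
  refine ⟨Rp + 2 * Rp / K, e0 * c / 4, 2 / p, by linarith, by positivity, fun l hl x y hxy D hD => ?_⟩
  rw [div_le_iff₀ p0] at hl
  have l1 : 1 ≤ l := by nlinarith
  have hl2 : 1 / l ^ 2 ≤ p / 2 := by
    rw [div_le_div_iff₀ (by positivity) (by norm_num)]; nlinarith
  have hl3 : 0 < 1 / l ^ 2 := by positivity
  have q0 : 0 < p - 1 / l ^ 2 := by linarith
  have qp : p - 1 / l ^ 2 ≤ p := by linarith
  have t0 := zd_nonneg x y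
  have ht : 1 + zd x y ≤ 2 * Rp * l := by nlinarith
  have k0 := kk_nonneg (d - 2) t0
  obtain ⟨U, hU⟩ := hs x y
  have a1 : e0 ≤ ((p - 1 / l ^ 2) / p) ^ (Λ * (1 + zd x y) ^ 2) := by
    have b1 : Real.exp (-(2 * (1 / l ^ 2 / p))) ≤ (p - 1 / l ^ 2) / p := by
      rw [sub_div, div_self p0.ne']
      exact exp_le (by positivity) (by rw [div_le_iff₀ p0]; linarith)
    refine le_trans ?_ (Real.rpow_le_rpow (Real.exp_pos _).le b1 (by positivity))
    rw [← Real.exp_mul, he]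
    refine Real.exp_le_exp.2 ?_
    have b2 : (1 + zd x y) ^ 2 ≤ (2 * Rp * l) ^ 2 := pow_le_pow_left₀ (by positivity) ht 2
    have b3 : 2 * (1 / l ^ 2 / p) * (Λ * (1 + zd x y) ^ 2) ≤ 2 * (1 / l ^ 2 / p) * (Λ * (2 * Rp * l) ^ 2) := by
      gcongr
    have b4 : 2 * (1 / l ^ 2 / p) * (Λ * (2 * Rp * l) ^ 2) = 8 * Λ * Rp ^ 2 / p := by field_simp; ring
    linarith
  have a2 := (mul_le_mul_of_nonneg_right a1 (by positivity)).trans (hU _ q0 qp)
  have s0 : 0 ≤ 2 * Rp / K * l := by positivity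
  have r0 : 0 ≤ (Rp + 2 * Rp / K) * l := by positivity
  have a3 := (hSL d _ q0.le (qp.trans p1.le) U {y} x ⌊(Rp + 2 * Rp / K) * l⌋₊
    (C * kk (d - 2) (2 * Rp / K * l)) (mul_nonneg hC.le (kk_nonneg _ s0))).2 (fun _ => 1) (fun _ => zero_le_one)
    fun b hb => by
      rw [sum_singleton, mul_one]
      refine ((tz_mono_p q0.le qp p1.le).trans (H.up _ _ _)).trans
        (mul_le_mul_of_nonneg_left (kk_anti (by linarith) s0 ?_) hC.le)
      have b1 := zd_tri x y b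
      have b2 := Nat.lt_floor_add_one ((Rp + 2 * Rp / K) * l)
      rw [zd_comm y b] at b1
      nlinarith
  simp only [sum_singleton, mul_one] at a3
  have a4 : phi d (p - 1 / l ^ 2) ⌊(Rp + 2 * Rp / K) * l⌋₊ ≤ 2 * d * Φ := by
    have i : Fin d := ⟨0, by have := H.hd; omega⟩
    rw [hF d _ _ i]
    have b1 : face d (p - 1 / l ^ 2) ⌊(Rp + 2 * Rp / K) * l⌋₊ i ≤ Φ :=
      hΨ _ q0.le qp _ _ i _ 0 (Or.inl fun z hz => by simpa using (mem_box'.1 hz i).2) fun z hz => (mem_flt.1 hz).2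
    calc _ ≤ 2 * d * (p - 1 / l ^ 2) * Φ := mul_le_mul_of_nonneg_left b1 (by positivity)
      _ ≤ 2 * d * 1 * Φ := by gcongr; linarith
      _ = _ := by ring
  have a5 : kk (d - 2) (2 * Rp / K * l) ≤ K * kk (d - 2) (zd x y) := by
    refine (kk_le_mul (K := K) (by linarith) t0 s0 ?_).trans (mul_le_mul_of_nonneg_right ?_ k0)
    · have : K * (1 + 2 * Rp / K * l) = K + 2 * Rp * l := by field_simp
      linarith
    · exact Real.rpow_le_self_of_le_one K0.le K1 (by linarith)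
  have a6 : phi d (p - 1 / l ^ 2) ⌊(Rp + 2 * Rp / K) * l⌋₊ * (C * kk (d - 2) (2 * Rp / K * l)) ≤
      e0 * c / 4 * kk (d - 2) (zd x y) :=
    calc _ ≤ 2 * d * Φ * (C * (K * kk (d - 2) (zd x y))) :=
          mul_le_mul a4 (mul_le_mul_of_nonneg_left a5 hC.le) (mul_nonneg hC.le (kk_nonneg _ s0)) (by positivity)
      _ = K * (2 * d * Φ * C) * kk (d - 2) (zd x y) := by ring
      _ ≤ _ := mul_le_mul_of_nonneg_right hK k0
  have a7 : tz (p - 1 / l ^ 2) (box x ⌊(Rp + 2 * Rp / K) * l⌋₊) x y ≤ tz (p - 1 / l ^ 2) D x y :=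
    tz_mono_dom q0.le (qp.trans p1.le) fun z hz => hD z ((mem_box_floor r0).1 hz)
  linarith

end Pool.Agent.TPC
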