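import Mathlib

/-! Finite product measures with arbitrary coordinate probabilities. -/

open Finset

set_option linter.unusedSectionVars false

namespace Pool.Agent.TPC

/-- real indicator of a proposition -/
noncomputable def ind (P : Prop) : ℝ := by classical exact if P then 1 else 0

/-- classical filter -/
noncomputable def flt {α : Type} (s : Finset α) (P : α → Prop) : Finset α := by
  classical exact s.filter P

lemma ind_pos {P : Prop} (h : P) : ind P = 1 := by simp [ind, h]
lemma ind_neg {P : Prop} (h : ¬ P) : ind P = 0 := by simp [ind, h]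
lemma ind_nonneg (P : Prop) : 0 ≤ ind P := by
  by_cases h : P
  · rw [ind_pos h]; norm_num
  · rw [ind_neg h]
lemma ind_le_one (P : Prop) : ind P ≤ 1 := by
  by_cases h : P
  · rw [ind_pos h]
  · rw [ind_neg h]; norm_num
lemma ind_mono {P Q : Prop} (h : P → Q) : ind P ≤ ind Q := by
  by_cases hp : P
  · rw [ind_pos hp, ind_pos (h hp)]
  · rw [ind_neg hp]; exact ind_nonneg _
lemma ind_congr {P Q : Prop} (h : P ↔ Q) : ind P = ind Q := by rw [propext h]
lemma ind_not (P : Prop) : ind (¬ P) = 1 - ind P := by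
  by_cases hp : P <;> simp [ind, hp]
lemma ind_and (P Q : Prop) : ind (P ∧ Q) = ind P * ind Q := by
  by_cases hp : P <;> by_cases hq : Q <;> simp [ind, hp, hq]
lemma ind_or_le (P Q : Prop) : ind (P ∨ Q) ≤ ind P + ind Q := by
  by_cases hp : P <;> by_cases hq : Q <;> simp [ind, hp, hq]
lemma ind_eq_ite (P : Prop) [Decidable P] : ind P = if P then 1 else 0 := by
  by_cases hp : P <;> simp [ind, hp]
lemma ind_le_of {P : Prop} {x : ℝ} (h0 : 0 ≤ x) (h : P → 1 ≤ x) : ind P ≤ x := by
  by_cases hp : P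
  · rw [ind_pos hp]; exact h hp
  · rw [ind_neg hp]; exact h0
lemma ind_mul_le {P : Prop} {x y : ℝ} (h0 : 0 ≤ y) (h : P → x ≤ y) : ind P * x ≤ y := by
  by_cases hp : P
  · rw [ind_pos hp, one_mul]; exact h hp
  · rw [ind_neg hp, zero_mul]; exact h0
lemma ind_exists_le {α : Type} (s : Finset α) (P : α → Prop) :
    ind (∃ a ∈ s, P a) ≤ ∑ a ∈ s, ind (P a) := by
  refine ind_le_of (Finset.sum_nonneg fun _ _ => ind_nonneg _) ?_
  rintro ⟨a, ha, h⟩
  rw [← ind_pos h]
  exact Finset.single_le_sum (f := fun a => ind (P a)) (fun _ _ => ind_nonneg _) ha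

@[simp] lemma mem_flt {α : Type} {s : Finset α} {P : α → Prop} {a : α} :
    a ∈ flt s P ↔ a ∈ s ∧ P a := by simp [flt]
lemma flt_subset {α : Type} (s : Finset α) (P : α → Prop) : flt s P ⊆ s :=
  fun _ h => (mem_flt.1 h).1
lemma flt_eq_filter {α : Type} (s : Finset α) (P : α → Prop) [DecidablePred P] :
    flt s P = s.filter P := by ext a; simp
lemma sum_flt {α : Type} (s : Finset α) (P : α → Prop) (f : α → ℝ) :
    ∑ a ∈ flt s P, f a = ∑ a ∈ s, ind (P a) * f a := by
  classical
  rw [flt_eq_filter, Finset.sum_filter]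
  exact Finset.sum_congr rfl fun a _ => by by_cases h : P a <;> simp [ind, h]
lemma card_flt {α : Type} (s : Finset α) (P : α → Prop) :
    ((flt s P).card : ℝ) = ∑ a ∈ s, ind (P a) := by
  have := sum_flt s P (fun _ => 1)
  simpa using this

variable {ι : Type} [DecidableEq ι]

/-- weight of the configuration `ω` (set of open coordinates) on the coordinate set `E` -/
noncomputable def wt (E : Finset ι) (π : ι → ℝ) (ω : Finset ι) : ℝ :=
  ∏ e ∈ E, if e ∈ ω then π e else 1 - π e

/-- expectation for the product measure on subsets of `E`, coordinate `e` open with prob `π e` -/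
noncomputable def PE (E : Finset ι) (π : ι → ℝ) (f : Finset ι → ℝ) : ℝ :=
  ∑ ω ∈ E.powerset, wt E π ω * f ω

/-- all coordinate probabilities lie in `[0,1]` -/
def Prob (π : ι → ℝ) : Prop := ∀ e, 0 ≤ π e ∧ π e ≤ 1

/-- `f` depends only on the coordinates in `U` -/
def DepOn {β : Type} (f : Finset ι → β) (U : Set ι) : Prop :=
  ∀ ω ω' : Finset ι, (∀ e ∈ U, (e ∈ ω ↔ e ∈ ω')) → f ω = f ω'

lemma Prob.const {p : ℝ} (h0 : 0 ≤ p) (h1 : p ≤ 1) : Prob (fun _ : ι => p) := fun _ => ⟨h0, h1⟩

lemma DepOn.mono {β : Type} {f : Finset ι → β} {U U' : Set ι} (h : DepOn f U) (hU : U ⊆ U') :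
    DepOn f U' := fun ω ω' h2 => h ω ω' fun e he => h2 e (hU he)

lemma DepOn.comp {β γ : Type} {f : Finset ι → β} {U : Set ι} (h : DepOn f U) (F : β → γ) :
    DepOn (fun ω => F (f ω)) U := fun ω ω' h2 => congrArg F (h ω ω' h2)

lemma DepOn.comp₂ {β γ δ : Type} {f : Finset ι → β} {g : Finset ι → γ} {U : Set ι}
    (h : DepOn f U) (h' : DepOn g U) (F : β → γ → δ) : DepOn (fun ω => F (f ω) (g ω)) U :=
  fun ω ω' h2 => by simp only [h ω ω' h2, h' ω ω' h2]

variable {E : Finset ι} {π : ι → ℝ} {f g : Finset ι → ℝ}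

@[simp] lemma PE_empty (π : ι → ℝ) (f : Finset ι → ℝ) : PE ∅ π f = f ∅ := by simp [PE, wt]

lemma PE_insert {e : ι} (he : e ∉ E) (π : ι → ℝ) (f : Finset ι → ℝ) :
    PE (insert e E) π f =
      π e * PE E π (fun ω => f (insert e ω)) + (1 - π e) * PE E π f := by
  unfold PE
  rw [Finset.sum_powerset_insert he, add_comm, Finset.mul_sum, Finset.mul_sum]
  congr 1
  · refine Finset.sum_congr rfl fun ω _ => ?_
    unfold wt
    rw [Finset.prod_insert he, if_pos (Finset.mem_insert_self _ _), mul_assoc]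
    congr 2
    refine Finset.prod_congr rfl fun x hx => ?_
    have : x ≠ e := fun h => he (h ▸ hx)
    simp [this]
  · refine Finset.sum_congr rfl fun ω hω => ?_
    have : e ∉ ω := fun h => he (Finset.mem_powerset.1 hω h)
    unfold wt
    rw [Finset.prod_insert he, if_neg this, mul_assoc]

lemma PE_congr (h : ∀ ω, ω ⊆ E → f ω = g ω) : PE E π f = PE E π g :=
  Finset.sum_congr rfl fun ω hω => by rw [h ω (Finset.mem_powerset.1 hω)]

lemma PE_const (E : Finset ι) (π : ι → ℝ) (c : ℝ) : PE E π (fun _ => c) = c := by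
  induction E using Finset.induction_on with
  | empty => simp
  | insert e E he ih => rw [PE_insert he, ih]; ring

lemma PE_add (E : Finset ι) (π : ι → ℝ) (f g : Finset ι → ℝ) :
    PE E π (fun ω => f ω + g ω) = PE E π f + PE E π g := by
  simp only [PE, mul_add, Finset.sum_add_distrib]

lemma PE_sub (E : Finset ι) (π : ι → ℝ) (f g : Finset ι → ℝ) :
    PE E π (fun ω => f ω - g ω) = PE E π f - PE E π g := by
  simp only [PE, mul_sub, Finset.sum_sub_distrib]

lemma PE_mul_left (E : Finset ι) (π : ι → ℝ) (c : ℝ) (f : Finset ι → ℝ) :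
    PE E π (fun ω => c * f ω) = c * PE E π f := by
  simp only [PE, Finset.mul_sum]
  exact Finset.sum_congr rfl fun _ _ => by ring

lemma PE_mul_right (E : Finset ι) (π : ι → ℝ) (c : ℝ) (f : Finset ι → ℝ) :
    PE E π (fun ω => f ω * c) = PE E π f * c := by
  simp only [PE, Finset.sum_mul]
  exact Finset.sum_congr rfl fun _ _ => by ring

lemma PE_div (E : Finset ι) (π : ι → ℝ) (c : ℝ) (f : Finset ι → ℝ) :
    PE E π (fun ω => f ω / c) = PE E π f / c := by
  simp only [div_eq_mul_inv, PE_mul_right]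

lemma PE_sum {κ : Type} (E : Finset ι) (π : ι → ℝ) (s : Finset κ) (f : κ → Finset ι → ℝ) :
    PE E π (fun ω => ∑ i ∈ s, f i ω) = ∑ i ∈ s, PE E π (f i) := by
  simp only [PE, Finset.mul_sum]
  exact Finset.sum_comm

lemma PE_comm {κ : Type} [DecidableEq κ] (E : Finset ι) (π : ι → ℝ) (E' : Finset κ) (π' : κ → ℝ)
    (F : Finset ι → Finset κ → ℝ) :
    PE E π (fun a => PE E' π' (fun b => F a b)) = PE E' π' (fun b => PE E π (fun a => F a b)) := by
  simp only [PE, Finset.mul_sum]
  rw [Finset.sum_comm]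
  exact Finset.sum_congr rfl fun _ _ => Finset.sum_congr rfl fun _ _ => by ring

lemma wt_nonneg (hπ : Prob π) (E ω : Finset ι) : 0 ≤ wt E π ω :=
  Finset.prod_nonneg fun e _ => by have := hπ e; split_ifs <;> linarith

lemma PE_mono' (hπ : Prob π) (h : ∀ ω, ω ⊆ E → f ω ≤ g ω) : PE E π f ≤ PE E π g :=
  Finset.sum_le_sum fun ω hω =>
    mul_le_mul_of_nonneg_left (h ω (Finset.mem_powerset.1 hω)) (wt_nonneg hπ E ω)

lemma PE_mono (hπ : Prob π) (h : ∀ ω, f ω ≤ g ω) : PE E π f ≤ PE E π g :=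
  PE_mono' hπ fun ω _ => h ω

lemma PE_nonneg (hπ : Prob π) (h : ∀ ω, 0 ≤ f ω) : 0 ≤ PE E π f := by
  have := PE_mono (E := E) hπ (f := fun _ => 0) h
  rwa [PE_const] at this

lemma PE_le_const (hπ : Prob π) {c : ℝ} (h : ∀ ω, f ω ≤ c) : PE E π f ≤ c := by
  have := PE_mono (E := E) hπ (g := fun _ => c) h
  rwa [PE_const] at this

lemma const_le_PE (hπ : Prob π) {c : ℝ} (h : ∀ ω, c ≤ f ω) : c ≤ PE E π f := by
  have := PE_mono (E := E) hπ (f := fun _ => c) h
  rwa [PE_const] at this

lemma PE_ind_nonneg (hπ : Prob π) (P : Finset ι → Prop) : 0 ≤ PE E π (fun ω => ind (P ω)) :=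
  PE_nonneg hπ fun _ => ind_nonneg _

lemma PE_ind_le_one (hπ : Prob π) (P : Finset ι → Prop) : PE E π (fun ω => ind (P ω)) ≤ 1 :=
  PE_le_const hπ fun _ => ind_le_one _

lemma PE_ind_mono (hπ : Prob π) {P Q : Finset ι → Prop} (h : ∀ ω, P ω → Q ω) :
    PE E π (fun ω => ind (P ω)) ≤ PE E π (fun ω => ind (Q ω)) :=
  PE_mono hπ fun ω => ind_mono (h ω)

lemma PE_ind_not (E : Finset ι) (π : ι → ℝ) (P : Finset ι → Prop) :
    PE E π (fun ω => ind (¬ P ω)) = 1 - PE E π (fun ω => ind (P ω)) := by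
  simp only [ind_not]; rw [PE_sub, PE_const]

lemma PE_ind_or (hπ : Prob π) (P Q : Finset ι → Prop) :
    PE E π (fun ω => ind (P ω ∨ Q ω)) ≤
      PE E π (fun ω => ind (P ω)) + PE E π (fun ω => ind (Q ω)) := by
  rw [← PE_add]; exact PE_mono hπ fun ω => ind_or_le _ _

/-- union bound -/
lemma PE_ind_exists {κ : Type} (hπ : Prob π) (s : Finset κ) (P : κ → Finset ι → Prop) :
    PE E π (fun ω => ind (∃ a ∈ s, P a ω)) ≤ ∑ a ∈ s, PE E π (fun ω => ind (P a ω)) := by
  rw [← PE_sum]; exact PE_mono hπ fun ω => ind_exists_le s _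

/-- Markov inequality -/
lemma PE_markov (hπ : Prob π) (hf : ∀ ω, 0 ≤ f ω) {t : ℝ} (ht : 0 < t) :
    PE E π (fun ω => ind (t ≤ f ω)) ≤ PE E π f / t := by
  rw [← PE_div]
  refine PE_mono hπ fun ω => ind_le_of (div_nonneg (hf ω) ht.le) fun h => ?_
  rwa [le_div_iff₀ ht, one_mul]

/-- Cauchy-Schwarz -/
lemma PE_mul_sq_le (hπ : Prob π) (f g : Finset ι → ℝ) :
    PE E π (fun ω => f ω * g ω) ^ 2 ≤ PE E π (fun ω => f ω ^ 2) * PE E π (fun ω => g ω ^ 2) := by
  unfold PE
  refine Finset.sum_sq_le_sum_mul_sum_of_sq_le_mul _ (fun ω _ => ?_) (fun ω _ => ?_) fun ω _ => ?_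
  · exact mul_nonneg (wt_nonneg hπ E ω) (sq_nonneg _)
  · exact mul_nonneg (wt_nonneg hπ E ω) (sq_nonneg _)
  · exact le_of_eq (by ring)

/-- Jensen for the exponential -/
lemma exp_PE_le (hπ : Prob π) (f : Finset ι → ℝ) :
    Real.exp (PE E π f) ≤ PE E π (fun ω => Real.exp (f ω)) := by
  have h : ∀ ω, Real.exp (PE E π f) * (1 + (f ω - PE E π f)) ≤ Real.exp (f ω) := by
    intro ω
    have := Real.add_one_le_exp (f ω - PE E π f)
    have h2 : Real.exp (f ω) = Real.exp (PE E π f) * Real.exp (f ω - PE E π f) := by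
      rw [← Real.exp_add]; congr 1; ring
    rw [h2]
    exact mul_le_mul_of_nonneg_left (by linarith) (Real.exp_pos _).le
  have := PE_mono (E := E) hπ h
  rw [PE_mul_left, PE_add, PE_sub, PE_const, PE_const] at this
  simpa using this

/-- (M1) -/
lemma PE_M1 (hπ : Prob π) (h1 : PE E π f ≤ 1) {t : ℝ} (ht : 1 < t) :
    PE E π (fun ω => ind (t ≤ f ω)) ≤ PE E π (fun ω => max (1 - f ω) 0) / (t - 1) := by
  have h : ∀ ω, (t - 1) * ind (t ≤ f ω) ≤ max (1 - f ω) 0 + (f ω - 1) := by
    intro ω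
    have a := le_max_left (1 - f ω) 0
    have b := le_max_right (1 - f ω) 0
    by_cases h2 : t ≤ f ω
    · rw [ind_pos h2]; linarith
    · rw [ind_neg h2]; linarith
  have := PE_mono (E := E) hπ h
  rw [PE_mul_left, PE_add, PE_sub, PE_const] at this
  rw [le_div_iff₀ (by linarith)]
  linarith

/-- Fubini on a disjoint union of coordinate sets -/
lemma PE_union {E₁ E₂ : Finset ι} (h : Disjoint E₁ E₂) (π : ι → ℝ) (f : Finset ι → ℝ) :
    PE (E₁ ∪ E₂) π f = PE E₁ π (fun a => PE E₂ π (fun b => f (a ∪ b))) := by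
  induction E₁ using Finset.induction_on generalizing f with
  | empty => simp
  | insert e E he ih =>
    rw [Finset.disjoint_insert_left] at h
    rw [Finset.insert_union, PE_insert (by simp [he, h.1]), PE_insert he, ih h.2, ih h.2]
    simp only [Finset.insert_union]

/-- freezing the coordinates in `U` -/
lemma PE_freeze (E U : Finset ι) (π : ι → ℝ) (f : Finset ι → ℝ) :
    PE E π f = PE (E ∩ U) π (fun a => PE (E \ U) π (fun b => f (a ∪ b))) := by
  rw [← PE_union (Finset.disjoint_sdiff_inter E U).symm, Finset.union_comm,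
    Finset.sdiff_union_inter]

/-- consistency: coordinates outside the dependence set can be dropped -/
lemma PE_restrict {E E' : Finset ι} {U : Set ι} (hE : E' ⊆ E) (hf : DepOn f U)
    (hU : ∀ e ∈ U, e ∈ E → e ∈ E') (π : ι → ℝ) : PE E π f = PE E' π f := by
  rw [PE_freeze E E', Finset.inter_eq_right.2 hE]
  refine PE_congr fun a _ => ?_
  rw [← PE_const (E \ E') π (f a)]
  refine PE_congr fun b hb => hf _ _ fun e he => ?_
  rw [Finset.mem_union]
  refine ⟨fun h => h.elim id fun h2 => ?_, Or.inl⟩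
  have := Finset.mem_sdiff.1 (hb h2)
  exact absurd (hU e he this.1) this.2

lemma PE_eq_of_dep {E E' : Finset ι} {U : Set ι} (hf : DepOn f U)
    (hU : ∀ e ∈ U, (e ∈ E ↔ e ∈ E')) (π : ι → ℝ) : PE E π f = PE E' π f := by
  rw [PE_restrict (E' := E ∩ E') Finset.inter_subset_left hf
      fun e he h => Finset.mem_inter.2 ⟨h, (hU e he).1 h⟩,
    PE_restrict (E' := E ∩ E') Finset.inter_subset_right hf
      fun e he h => Finset.mem_inter.2 ⟨(hU e he).2 h, h⟩]

lemma PE_congr_prob {π π' : ι → ℝ} (h : ∀ e ∈ E, π e = π' e) (f : Finset ι → ℝ) :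
    PE E π f = PE E π' f := by
  refine Finset.sum_congr rfl fun ω _ => ?_
  unfold wt
  rw [Finset.prod_congr rfl fun e he => by rw [h e he]]

/-- only the probabilities on the dependence set matter -/
lemma PE_congr_dep {π π' : ι → ℝ} {U : Set ι} (hf : DepOn f U)
    (h : ∀ e ∈ E, e ∈ U → π e = π' e) : PE E π f = PE E π' f := by
  rw [PE_restrict (flt_subset E (· ∈ U)) hf (fun e he h => mem_flt.2 ⟨h, he⟩) π,
    PE_restrict (flt_subset E (· ∈ U)) hf (fun e he h => mem_flt.2 ⟨h, he⟩) π']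
  exact PE_congr_prob (fun e he => h e (mem_flt.1 he).1 (mem_flt.1 he).2) f

/-- independence -/
lemma PE_mul_of_dep {U : Set ι} (hf : DepOn f U) (hg : DepOn g Uᶜ) (E : Finset ι) (π : ι → ℝ) :
    PE E π (fun ω => f ω * g ω) = PE E π f * PE E π g := by
  have h1 : E ∩ flt E (· ∈ U) = flt E (· ∈ U) := Finset.inter_eq_right.2 (flt_subset _ _)
  rw [PE_freeze E (flt E (· ∈ U)), h1,
    PE_restrict (flt_subset E (· ∈ U)) hf (fun e he h => mem_flt.2 ⟨h, he⟩) π,
    PE_restrict (E := E) (E' := E \ flt E (· ∈ U)) Finset.sdiff_subset hg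
      (fun e he h => Finset.mem_sdiff.2 ⟨h, fun h2 => he (mem_flt.1 h2).2⟩) π,
    ← PE_mul_right]
  refine PE_congr fun a ha => ?_
  rw [← PE_mul_left]
  refine PE_congr fun b hb => ?_
  rw [hf (a ∪ b) a, hg (a ∪ b) b]
  · intro e he
    rw [Finset.mem_union]
    exact ⟨fun h => h.elim (fun h2 => absurd (mem_flt.1 (ha h2)).2 he) id, Or.inr⟩
  · intro e he
    rw [Finset.mem_union]
    refine ⟨fun h => h.elim id fun h2 => ?_, Or.inl⟩
    have := Finset.mem_sdiff.1 (hb h2)
    exact absurd (mem_flt.2 ⟨this.1, he⟩) this.2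

lemma PE_mul_of_disjoint {U U' : Set ι} (hf : DepOn f U) (hg : DepOn g U') (h : Disjoint U U')
    (E : Finset ι) (π : ι → ℝ) : PE E π (fun ω => f ω * g ω) = PE E π f * PE E π g :=
  PE_mul_of_dep hf (hg.mono (Set.disjoint_left.1 h.symm)) E π

/-- independence of a family -/
lemma PE_prod {κ : Type} (s : Finset κ) (F : κ → Finset ι → ℝ) (U : κ → Set ι)
    (hF : ∀ i ∈ s, DepOn (F i) (U i)) (hU : ∀ i ∈ s, ∀ j ∈ s, i ≠ j → Disjoint (U i) (U j))
    (E : Finset ι) (π : ι → ℝ) :
    PE E π (fun ω => ∏ i ∈ s, F i ω) = ∏ i ∈ s, PE E π (F i) := by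
  classical
  induction s using Finset.induction_on with
  | empty => simp [PE_const]
  | insert i s hi ih =>
    simp only [Finset.prod_insert hi]
    rw [PE_mul_of_dep (hF i (Finset.mem_insert_self _ _)),
      ih (fun j hj => hF j (Finset.mem_insert_of_mem hj))
        fun j hj k hk => hU j (Finset.mem_insert_of_mem hj) k (Finset.mem_insert_of_mem hk)]
    intro ω ω' h
    refine Finset.prod_congr rfl fun j hj => hF j (Finset.mem_insert_of_mem hj) ω ω' fun e he => ?_
    refine h e fun h2 => ?_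
    exact Set.disjoint_left.1 (hU i (Finset.mem_insert_self _ _) j (Finset.mem_insert_of_mem hj)
      fun h3 => hi (h3 ▸ hj)) h2 he

/-- splitting on one coordinate -/
lemma PE_split {e : ι} (he : e ∈ E) (π : ι → ℝ) (f : Finset ι → ℝ) :
    PE E π f = π e * PE E π (fun ω => f (insert e ω)) +
      (1 - π e) * PE E π (fun ω => f (ω.erase e)) := by
  have h1 : e ∉ E.erase e := Finset.notMem_erase e E
  rw [← Finset.insert_erase he, PE_insert h1, PE_insert h1, PE_insert h1]
  have a : PE (E.erase e) π (fun ω => f (insert e (insert e ω))) =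
      PE (E.erase e) π (fun ω => f (insert e ω)) := by simp
  have b : PE (E.erase e) π (fun ω => f ((insert e ω).erase e)) = PE (E.erase e) π f :=
    PE_congr fun ω hω => by rw [Finset.erase_insert fun h => h1 (hω h)]
  have c : PE (E.erase e) π (fun ω => f (ω.erase e)) = PE (E.erase e) π f :=
    PE_congr fun ω hω => by rw [Finset.erase_eq_of_notMem fun h => h1 (hω h)]
  rw [a, b, c]; ring

lemma PE_coord {e : ι} (he : e ∈ E) (π : ι → ℝ) : PE E π (fun ω => ind (e ∈ ω)) = π e := by
  rw [PE_split he]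
  simp only [Finset.mem_insert_self, Finset.notMem_erase, ind_pos trivial, ind_neg not_false,
    PE_const]
  ring

lemma PE_all_open {F : Finset ι} (hF : F ⊆ E) (π : ι → ℝ) :
    PE E π (fun ω => ind (F ⊆ ω)) = ∏ e ∈ F, π e := by
  have : ∀ ω : Finset ι, ind (F ⊆ ω) = ∏ e ∈ F, ind (e ∈ ω) := by
    intro ω
    by_cases h : F ⊆ ω
    · rw [ind_pos h, Finset.prod_eq_one fun e he => ind_pos (h he)]
    · rw [ind_neg h]
      obtain ⟨e, he, h2⟩ := Finset.not_subset.1 h
      exact (Finset.prod_eq_zero he (ind_neg h2)).symm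
  simp only [this]
  rw [PE_prod F (fun e ω => ind (e ∈ ω)) (fun e => {e}) (fun e _ ω ω' h => ind_congr (h e rfl))
    (fun _ _ _ _ h => Set.disjoint_singleton.2 h)]
  exact Finset.prod_congr rfl fun e he => PE_coord (hF he) π

lemma PE_all_closed {F : Finset ι} (hF : F ⊆ E) (π : ι → ℝ) :
    PE E π (fun ω => ind (∀ e ∈ F, e ∉ ω)) = ∏ e ∈ F, (1 - π e) := by
  have : ∀ ω : Finset ι, ind (∀ e ∈ F, e ∉ ω) = ∏ e ∈ F, ind (e ∉ ω) := by
    intro ω
    by_cases h : ∀ e ∈ F, e ∉ ω
    · rw [ind_pos h, Finset.prod_eq_one fun e he => ind_pos (h e he)]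
    · rw [ind_neg h]
      push Not at h
      obtain ⟨e, he, h2⟩ := h
      exact (Finset.prod_eq_zero he (ind_neg (not_not.2 h2))).symm
  simp only [this]
  rw [PE_prod F (fun e ω => ind (e ∉ ω)) (fun e => {e})
    (fun e _ ω ω' h => ind_congr (not_congr (h e rfl)))
    (fun _ _ _ _ h => Set.disjoint_singleton.2 h)]
  exact Finset.prod_congr rfl fun e he => by rw [PE_ind_not, PE_coord (hF he) π]

/-- finite modification: forcing the coordinates of `F` open and those of `F'` closed -/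
lemma PE_force {F F' : Finset ι} (hF : F ⊆ E) (hF' : F' ⊆ E) (hd : Disjoint F F') (π : ι → ℝ)
    (f : Finset ι → ℝ) :
    PE E π (fun ω => ind (F ⊆ ω ∧ ∀ e ∈ F', e ∉ ω) * f ω) =
      ((∏ e ∈ F, π e) * ∏ e ∈ F', (1 - π e)) * PE E π (fun ω => f ((ω ∪ F) \ F')) := by
  have a : PE E π (fun ω => ind (F ⊆ ω ∧ ∀ e ∈ F', e ∉ ω) * f ω) =
      PE E π (fun ω => ind (F ⊆ ω ∧ ∀ e ∈ F', e ∉ ω) * f ((ω ∪ F) \ F')) := by
    refine PE_congr fun ω _ => ?_
    by_cases h : F ⊆ ω ∧ ∀ e ∈ F', e ∉ ω
    · rw [Finset.union_eq_left.2 h.1, Finset.sdiff_eq_self_of_disjoint]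
      exact Finset.disjoint_right.2 h.2
    · rw [ind_neg h, zero_mul, zero_mul]
  rw [a, PE_mul_of_dep (U := (F : Set ι) ∪ F')]
  · congr 1
    simp only [ind_and]
    rw [PE_mul_of_disjoint (U := F) (U' := F') _ _ (Finset.disjoint_coe.2 hd), PE_all_open hF,
      PE_all_closed hF']
    · intro ω ω' h
      exact ind_congr ⟨fun h2 e he => (h e he).1 (h2 he), fun h2 e he => (h e he).2 (h2 he)⟩
    · intro ω ω' h
      exact ind_congr (forall₂_congr fun e he => not_congr (h e he))
  · intro ω ω' h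
    refine ind_congr (and_congr ⟨fun h2 e he => (h e (Or.inl he)).1 (h2 he),
      fun h2 e he => (h e (Or.inl he)).2 (h2 he)⟩
      (forall₂_congr fun e he => not_congr (h e (Or.inr he))))
  · intro ω ω' h
    beta_reduce
    congr 1
    ext e
    simp only [Finset.mem_sdiff, Finset.mem_union]
    by_cases h1 : e ∈ F
    · simp [h1]
    · by_cases h2 : e ∈ F'
      · simp [h2]
      · rw [h e (by simp [h1, h2])]

/-- conditioning on a random variable `T` whose value is decided on the coordinates `S (T ω)` -/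
lemma PE_stop {κ : Type} (T : Finset ι → κ) (S : κ → Set ι)
    (hT : ∀ ω ω', (∀ e ∈ S (T ω), (e ∈ ω ↔ e ∈ ω')) → T ω' = T ω) (F : κ → Finset ι → ℝ)
    (hF : ∀ ω, DepOn (F (T ω)) (S (T ω))ᶜ) (E : Finset ι) (π : ι → ℝ) :
    PE E π (fun ω => F (T ω) ω) = PE E π (fun ω => PE E π (F (T ω))) := by
  classical
  have a1 : ∀ H : κ → Finset ι → ℝ, PE E π (fun ω => H (T ω) ω) =
      ∑ A ∈ E.powerset.image T, PE E π (fun ω => ind (T ω = A) * H A ω) := by
    intro H
    rw [← PE_sum]
    refine PE_congr fun ω hω => ?_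
    rw [Finset.sum_eq_single (T ω)]
    · rw [ind_pos rfl, one_mul]
    · intro A _ h; rw [ind_neg (Ne.symm h), zero_mul]
    · intro h; exact absurd (Finset.mem_image_of_mem T (Finset.mem_powerset.2 hω)) h
  rw [a1, a1 (fun A _ => PE E π (F A))]
  refine Finset.sum_congr rfl fun A hA => ?_
  obtain ⟨ω₀, _, rfl⟩ := Finset.mem_image.1 hA
  rw [PE_mul_of_dep (U := S (T ω₀)) _ (hF ω₀), PE_mul_right]
  intro ω ω' h
  refine ind_congr ⟨fun h2 => ?_, fun h2 => ?_⟩
  · rw [← h2]; exact hT ω ω' (by rw [h2]; exact h)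
  · rw [← h2]; exact hT ω' ω (by rw [h2]; exact fun e he => (h e he).symm)

/-- pushforward along a map injective on the coordinate set -/
lemma PE_image {κ : Type} [DecidableEq κ] {φ : ι → κ} (hφ : Set.InjOn φ E) (π' : κ → ℝ)
    (f : Finset κ → ℝ) :
    PE (E.image φ) π' f = PE E (fun e => π' (φ e)) (fun ω => f (ω.image φ)) := by
  induction E using Finset.induction_on generalizing f with
  | empty => simp
  | insert e E he ih =>
    rw [Finset.coe_insert] at hφ
    have h2 := (Set.injOn_insert (by simpa using he)).1 hφ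
    rw [Finset.image_insert, PE_insert (by simpa using h2.2), PE_insert he, ih h2.1, ih h2.1]
    simp only [Finset.image_insert]

/-- a coordinate `e` of the new model is open iff some bit of `B e` is open -/
lemma PE_or {κ : Type} [DecidableEq κ] (E' : Finset κ) (B : κ → Finset ι)
    (hB : ∀ a ∈ E', B a ⊆ E) (hd : ∀ a ∈ E', ∀ b ∈ E', a ≠ b → Disjoint (B a) (B b)) (π : ι → ℝ)
    (f : Finset κ → ℝ) :
    PE E π (fun ω => f (flt E' fun a => ∃ b ∈ B a, b ∈ ω)) =
      PE E' (fun a => 1 - ∏ b ∈ B a, (1 - π b)) f := by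
  induction E' using Finset.induction_on generalizing f with
  | empty =>
    have : ∀ ω : Finset ι, (flt (∅ : Finset κ) fun a => ∃ b ∈ B a, b ∈ ω) = ∅ := by
      intro ω; ext a; simp
    simp [this, PE_const]
  | insert a E' ha ih =>
    have hB' : ∀ a ∈ E', B a ⊆ E := fun c hc => hB c (Finset.mem_insert_of_mem hc)
    have hd' : ∀ a ∈ E', ∀ b ∈ E', a ≠ b → Disjoint (B a) (B b) := fun c hc e he =>
      hd c (Finset.mem_insert_of_mem hc) e (Finset.mem_insert_of_mem he)
    rw [PE_insert ha, ← ih hB' hd', ← ih hB' hd']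
    have dep : ∀ H : Finset κ → ℝ,
        DepOn (fun ω : Finset ι => H (flt E' fun c => ∃ b ∈ B c, b ∈ ω)) (B a : Set ι)ᶜ := by
      intro H ω ω' h
      beta_reduce
      congr 1
      ext c
      simp only [mem_flt]
      refine and_congr_right fun hc => exists_congr fun b => and_congr_right fun hb => h b ?_
      exact fun h2 => Finset.disjoint_left.1 (hd a (Finset.mem_insert_self _ _) c
        (Finset.mem_insert_of_mem hc) fun h3 => ha (h3 ▸ hc)) h2 hb
    have dc : DepOn (fun ω : Finset ι => ind (∀ b ∈ B a, b ∉ ω)) (B a : Set ι) :=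
      fun ω ω' h => ind_congr (forall₂_congr fun e he => not_congr (h e he))
    have key : ∀ ω : Finset ι, f (flt (insert a E') fun c => ∃ b ∈ B c, b ∈ ω) =
        (1 - ind (∀ b ∈ B a, b ∉ ω)) * f (insert a (flt E' fun c => ∃ b ∈ B c, b ∈ ω)) +
          ind (∀ b ∈ B a, b ∉ ω) * f (flt E' fun c => ∃ b ∈ B c, b ∈ ω) := by
      intro ω
      by_cases h : ∀ b ∈ B a, b ∉ ω
      · rw [ind_pos h, sub_self, zero_mul, zero_add, one_mul]
        congr 1
        ext c
        simp only [mem_flt, Finset.mem_insert]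
        refine ⟨fun h2 => ⟨h2.1.elim (fun h3 => ?_) id, h2.2⟩, fun h2 => ⟨Or.inr h2.1, h2.2⟩⟩
        obtain ⟨b, hb, h4⟩ := h2.2
        exact absurd h4 (h b (h3 ▸ hb))
      · rw [ind_neg h, sub_zero, one_mul, zero_mul, add_zero]
        congr 1
        ext c
        push Not at h
        simp only [mem_flt, Finset.mem_insert]
        refine ⟨fun h2 => h2.1.elim Or.inl fun h3 => Or.inr ⟨h3, h2.2⟩, fun h2 => ?_⟩
        rcases h2 with rfl | h2
        exacts [⟨Or.inl rfl, h⟩, ⟨Or.inr h2.1, h2.2⟩]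
    simp only [key]
    rw [PE_add, PE_mul_of_dep (dc.comp fun x => 1 - x) (dep fun s => f (insert a s)),
      PE_mul_of_dep dc (dep f), PE_sub, PE_const,
      PE_all_closed (hB a (Finset.mem_insert_self _ _))]
    ring

/-- monotonicity in the coordinate probabilities -/
lemma PE_mono_prob {π π' : ι → ℝ} (hπ : Prob π) (hπ' : Prob π') (h : ∀ e ∈ E, π e ≤ π' e)
    (hf : Monotone f) : PE E π f ≤ PE E π' f := by
  induction E using Finset.induction_on generalizing f with
  | empty => simp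
  | insert e E he ih =>
    have h' : ∀ e ∈ E, π e ≤ π' e := fun x hx => h x (Finset.mem_insert_of_mem hx)
    rw [PE_insert he, PE_insert he]
    have a := ih h' (f := fun ω => f (insert e ω))
      fun a b hab => hf (Finset.insert_subset_insert e hab)
    have b := ih h' hf
    have c : PE E π' f ≤ PE E π' (fun ω => f (insert e ω)) :=
      PE_mono hπ' fun ω => hf (Finset.subset_insert _ _)
    have d := h e (Finset.mem_insert_self _ _)
    have e0 := hπ e
    nlinarith [mul_le_mul_of_nonneg_left a e0.1, mul_le_mul_of_nonneg_left b (sub_nonneg.2 e0.2),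
      mul_le_mul_of_nonneg_left c (sub_nonneg.2 d)]

/-- monotonicity in the coordinate set -/
lemma PE_mono_set {E E' : Finset ι} (hπ : Prob π) (h : E ⊆ E') (hf : Monotone f) :
    PE E π f ≤ PE E' π f := by
  rw [PE_freeze E' E, Finset.inter_eq_right.2 h]
  exact PE_mono hπ fun a => const_le_PE hπ fun b => hf Finset.subset_union_left

/-- Harris-FKG -/
lemma PE_fkg (hπ : Prob π) (hf : Monotone f) (hg : Monotone g) :
    PE E π f * PE E π g ≤ PE E π (fun ω => f ω * g ω) := by
  induction E using Finset.induction_on generalizing f g with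
  | empty => simp
  | insert e E he ih =>
    rw [PE_insert he, PE_insert he, PE_insert he]
    have a := ih (f := fun ω => f (insert e ω)) (g := fun ω => g (insert e ω))
      (fun a b hab => hf (Finset.insert_subset_insert e hab))
      fun a b hab => hg (Finset.insert_subset_insert e hab)
    have b := ih hf hg
    have c : PE E π f ≤ PE E π (fun ω => f (insert e ω)) :=
      PE_mono hπ fun ω => hf (Finset.subset_insert _ _)
    have d : PE E π g ≤ PE E π (fun ω => g (insert e ω)) :=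
      PE_mono hπ fun ω => hg (Finset.subset_insert _ _)
    have e0 := hπ e
    nlinarith [mul_le_mul_of_nonneg_left a e0.1, mul_le_mul_of_nonneg_left b (sub_nonneg.2 e0.2),
      mul_nonneg (mul_nonneg e0.1 (sub_nonneg.2 e0.2))
        (mul_nonneg (sub_nonneg.2 c) (sub_nonneg.2 d))]

/-- with deterministic coordinates on `U` the configuration on `U` is frozen to `a` -/
lemma PE_det {U a : Finset ι} (ha : a ⊆ E ∩ U) (π : ι → ℝ) (f : Finset ι → ℝ) :
    PE E (fun e => if e ∈ U then (if e ∈ a then 1 else 0) else π e) f =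
      PE (E \ U) π (fun b => f (a ∪ b)) := by
  rw [PE_freeze E U]
  unfold PE
  rw [Finset.sum_eq_single a]
  · rw [show wt (E ∩ U) (fun e => if e ∈ U then (if e ∈ a then 1 else 0) else π e) a = 1 from
      Finset.prod_eq_one fun e he => by
        by_cases h : e ∈ a <;> simp [h, (Finset.mem_inter.1 he).2], one_mul]
    exact PE_congr_prob (fun e he => by simp [(Finset.mem_sdiff.1 he).2]) _
  · intro c hc hca
    have hc' := Finset.mem_powerset.1 hc
    obtain ⟨e, he⟩ : ∃ e, ¬ (e ∈ c ↔ e ∈ a) := by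
      by_contra h
      push Not at h
      exact hca (Finset.ext h)
    have he' : e ∈ E ∩ U := by
      by_cases h : e ∈ c
      · exact hc' h
      · exact ha (by tauto)
    rw [wt, Finset.prod_eq_zero he', zero_mul]
    by_cases h : e ∈ c
    · have : e ∉ a := by tauto
      simp [h, this, (Finset.mem_inter.1 he').2]
    · have : e ∈ a := by tauto
      simp [h, this, (Finset.mem_inter.1 he').2]
  · intro h; exact absurd (Finset.mem_powerset.2 ha) h

end Pool.Agent.TPC
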