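import Pool.Agent.Lib.TPC.Proc

/-! The abstract core: constants, axioms, regions, block systems, explorations. -/

open Finset

set_option linter.unusedSectionVars false

namespace Pool.Agent.TPC

/-- package of constants -/
structure Kc where
  Δ : ℕ
  Ξ : ℕ
  C : ℝ
  c : ℝ
  α : ℝ
  Cs : ℝ → ℝ
  hΔ : 1 ≤ Δ
  hΞ : 1 ≤ Ξ
  hC : 1 ≤ C
  hc : 0 < c
  hc1 : c ≤ 1
  hα : 0 < α
  hCs : ∀ η, 1 ≤ Cs η

/-- a finite graph with a base parameter `p`, a kernel `g` and scales `l`, `N` -/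
structure Core (K : Kc) (V : Type) [Fintype V] [DecidableEq V] where
  G : SimpleGraph V
  g : V → V → ℝ
  p : ℝ
  l : ℝ
  N : ℝ
  deg : DegLe G K.Δ
  p0 : K.α ≤ p
  p1 : p ≤ 1 - K.α
  l1 : 1 ≤ l
  N1 : 1 ≤ N
  tau_le : ∀ x y, tau G (fun _ => p) univ x y ≤ g x y
  symm : ∀ x y, g x y = g y x
  bdd : ∀ x y, g x y ≤ K.C
  nbr : ∀ x x' y, G.Adj x x' → g x' y ≤ K.C * g x y
  k3 : ∀ v u a, g v u * g u a ≤ K.C * g v a * (g v u + g u a)
  maxp : ∀ (A : Finset V) (M : ℝ), 0 ≤ M → (∀ a ∈ A, ∑ b ∈ A, g a b ≤ M) →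
    ∀ u, ∑ b ∈ A, g u b ≤ K.C * M
  chi_le : ∀ x, chi G (fun _ => p) univ x ≤ K.C * l ^ 2
  tri : ∀ v, ∑ y, ∑ u, g v y * g v u * g y u ≤ K.C
  d2 : ∀ x s, 1 ≤ s → EC G (fun _ => p) univ x (fun A => min (A.card : ℝ) s) ≤ K.C * √s

variable {K : Kc} {V : Type} [Fintype V] [DecidableEq V]

namespace Core

variable (M : Core K V)

noncomputable def f0 : ℝ := 1 / (M.N * M.l ^ 4)
noncomputable def Vol : ℝ := M.N * M.l ^ 6
/-- the mass unit `N l^4` -/
noncomputable def U : ℝ := M.N * M.l ^ 4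

/-- potential of a set -/
noncomputable def pot (A : Finset V) (u : V) : ℝ := ∑ a ∈ A, M.g u a

/-- potential plus its plateau -/
noncomputable def Wp (A : Finset V) (u : V) : ℝ := M.pot A u + M.f0 * A.card

/-- law of the base cluster -/
noncomputable def EB (D : Finset V) (x : V) (F : Finset V → ℝ) : ℝ := EC M.G (fun _ => M.p) D x F

/-- base two-point function -/
noncomputable def tb (D : Finset V) (x y : V) : ℝ := tau M.G (fun _ => M.p) D x y

/-- cluster at level `i` -/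
noncomputable def cv (D : Finset V) (i : Fin 5) (ω : Finset (Bit V)) (x : V) : Finset V :=
  cl M.G D (lev i ω) x

/-- small region -/
structure Small (U : Finset V) : Prop where
  card : (U.card : ℝ) ≤ K.C * M.Vol
  r1 : ∀ η, 0 < η → ∀ z (D : Finset V), D ⊆ U →
    ∑ y ∈ D, M.g z y ≤ η * M.l ^ 2 + K.Cs η * M.f0 * D.card
  r2 : ∀ η, 0 < η → ∀ z a, ∑ y ∈ U, M.g z y * M.g y a ≤ M.l ^ 2 * (η * M.g z a + K.Cs η * M.f0)

/-- lower bound for connections inside `U` between points of `Q` -/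
def LB (U Q : Finset V) : Prop := Q ⊆ U ∧ ∀ x ∈ Q, ∀ y ∈ Q, K.c * M.f0 ≤ M.tb U x y

/-- `Q` has macroscopic volume and most of it is far from its complement -/
def Inner (Q : Finset V) : Prop := K.c * M.Vol ≤ Q.card ∧ ∀ γ, 0 < γ → K.Cs γ ≤ M.l →
  ∃ Q' : Finset V, Q' ⊆ Q ∧ ((Q \ Q').card : ℝ) ≤ γ * M.Vol ∧
    (∀ y ∈ Q', ∀ v, v ∉ Q → M.g v y ≤ K.Cs γ * M.f0) ∧ ∀ y ∈ Q', ∀ v, M.G.Adj y v → v ∈ Q

/-- the levels `1, ..., i` have probability at most `κ / l^2` -/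
def Lv (κ : ℝ) (i : Fin 5) (q : Fin 5 → ℝ) : Prop :=
  q 0 = M.p ∧ (∀ j, 0 ≤ q j ∧ q j ≤ 1) ∧ ∀ j, 0 < j → j ≤ i → q j ≤ κ / M.l ^ 2

/-- `a` is a part of `A` with bounded potential, and most of `A ∩ U` has bounded potential -/
def Ready (A U : Finset V) (M₀ M₁ η : ℝ) (a : Finset V) : Prop :=
  a ⊆ A ∧ (∀ u, M.pot a u ≤ M₀) ∧ ∃ A₁ : Finset V, A₁ ⊆ A ∩ U ∧ (∀ u, M.pot A₁ u ≤ M₁) ∧
    M₀ * ((A ∩ U) \ A₁).card ≤ η * a.card

/-- points of the piece `C` with large self potential or forbidden by the past `W` -/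
noncomputable def badS (Ms : ℝ) (DD : Finset V → Finset V) (W C : Finset V) : Finset V :=
  flt C fun y => Ms < M.pot C y ∨ y ∈ DD W

/-- the level one cluster of `y` inside `D` has at least `c₁ N l^4` points -/
def big (c₁ : ℝ) (D : Finset V) (ω : Finset (Bit V)) (y : V) : Prop :=
  c₁ * M.U ≤ (M.cv D 1 ω y).card

/-- control of the number of points of `Q` in clusters with at least `l^4` points -/
def YA (q : Fin 5 → ℝ) (MY : ℝ) (Q : Finset V) : Prop := M.l ≤ M.N ∧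
  PL q (fun ω => ind (MY * M.U <
    (flt Q fun y => M.l ^ 4 ≤ ((M.cv univ 1 ω y).card : ℝ)).card)) ≤ Real.exp (-M.N)

/-- `B₀` together with the base clusters attached to it by level two bits -/
noncomputable def ext (U A B₀ : Finset V) (ω : Finset (Bit V)) : Finset V :=
  flt (U \ A) fun v => v ∈ B₀ ∨ ∃ b ∈ B₀, ∃ z, M.G.Adj b z ∧ (s(b, z), (2 : Fin 5)) ∈ ω ∧
    conn M.G (U \ (A ∪ B₀)) (lev 0 ω) z v

/-- contacts inside `Q` between `A` and base clusters with many points in `Q` -/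
noncomputable def FF (U Q A : Finset V) (σ : ℝ) (η : Finset (Sym2 V)) : ℝ :=
  ec M.G (A ∩ Q) (flt (Q \ A) fun v => σ * M.l ^ 4 ≤ (cl M.G (U \ A) η v ∩ Q).card)

end Core

/-! ### single-root exploration -/

/-- unexamined edges from the explored set to the unexplored part of `Q` -/
def Cand (G : SimpleGraph V) (Q : Finset V) (s : List (Ent (Sym2 V) V)) (bz : V × V) : Prop :=
  bz.1 ∈ Wof s ∧ bz.1 ∈ Q ∧ bz.2 ∈ Q ∧ bz.2 ∉ Wof s ∧ G.Adj bz.1 bz.2 ∧
    ∀ a ∈ s, a.tok ≠ some s(bz.1, bz.2)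

/-- exploration of the level `i` cluster of `x` inside `D` by base clusters, stopped at size `k` -/
noncomputable def xproc (G : SimpleGraph V) (D : Finset V) (i : Fin 5) (x : V) (k : ℝ) :
    Proc (Sym2 V) V (Bit V) where
  G := G
  D := D
  base := fun e => (e, 0)
  bits := lbits i
  next := fun s => by
    classical
    exact if s = [] then some (none, x) else
      if h : ((Wof s).card : ℝ) < k ∧ ∃ bz, Cand G D s bz then
        some (some s(h.2.choose.1, h.2.choose.2), h.2.choose.2) else none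

/-- final state of the exploration -/
noncomputable def xs (G : SimpleGraph V) (D : Finset V) (i : Fin 5) (x : V) (k : ℝ)
    (ω : Finset (Bit V)) : List (Ent (Sym2 V) V) :=
  (xproc G D i x k).run ω (Fintype.card (Sym2 V) + 1)

/-- explored set -/
noncomputable def xw (G : SimpleGraph V) (D : Finset V) (i : Fin 5) (x : V) (k : ℝ)
    (ω : Finset (Bit V)) : Finset V := Wof (xs G D i x k ω)

/-! ### multi-root exploration -/

/-- exploration with new roots `rt W`; tokens are level one bits of edges inside `Q` -/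
noncomputable def eproc (G : SimpleGraph V) (U Q : Finset V) (k k' r : ℝ) (rt : Finset V → V) :
    Proc (Sym2 V) V (Bit V) where
  G := G
  D := U
  base := fun e => (e, 0)
  bits := lbits 1
  next := fun s => by
    classical
    exact if 2 * k ≤ ((Wof s ∩ Q).card : ℝ) ∨ k' ≤ ((Wof s).card : ℝ) then none else
      if h : ∃ bz, Cand G Q s bz then some (some s(h.choose.1, h.choose.2), h.choose.2) else
        if ((Wof s ∩ Q).card : ℝ) < k ∧ nroot s < r then some (none, rt (Wof s)) else none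

/-- final state of the multi-root exploration -/
noncomputable def es (G : SimpleGraph V) (U Q : Finset V) (k k' r : ℝ) (rt : Finset V → V)
    (ω : Finset (Bit V)) : List (Ent (Sym2 V) V) :=
  (eproc G U Q k k' r rt).run ω (Fintype.card (Sym2 V) + ⌈r⌉₊ + 1)

/-! ### block systems -/

/-- blocks covering the domain `D` of an exploration -/
structure Blk (M : Core K V) (B : Type) [Fintype B] [DecidableEq B] (D : Finset V) where
  blk : V → B
  U2 : B → Finset V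
  U3 : B → Finset V
  U4 : B → Finset V
  mem2 : ∀ y ∈ D, y ∈ U2 (blk y)
  s234 : ∀ b, ∀ y ∈ D, y ∈ U2 b → U2 b ⊆ U3 (blk y) ∧ U3 (blk y) ⊆ U4 b
  ovl : ∀ y (S : Finset B), (∀ b ∈ S, y ∈ U2 b) → S.card ≤ K.Ξ
  sm : ∀ b, M.Small (U2 b)
  kd : ∀ η ρ, 0 < η → 0 ≤ ρ → ∀ F : Finset V, F ⊆ D →
    (∀ b, ((flt F fun y => blk y = b).card : ℝ) ≤ ρ * M.Vol) →
    ∀ z, ∑ y ∈ F, M.tb univ z y ≤ M.l ^ 2 * (η + K.Cs η * ρ)

/-- full block system -/
structure Sys (M : Core K V) (B : Type) [Fintype B] [DecidableEq B] extends Blk M B univ where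
  K0 : B → Finset V
  U1 : B → Finset V
  K2 : B → Finset V
  nb : B → Finset B
  col : B → Fin K.Ξ
  lb1 : ∀ b, M.LB (U1 b) (K0 b)
  in0 : ∀ b, M.Inner (K0 b)
  s12 : ∀ b, U1 b ⊆ K2 b
  lb2 : ∀ b, M.LB (U2 b) (K2 b)
  memK : ∀ y, y ∈ K2 (blk y)
  nb4 : ∀ b, ∀ y ∈ U4 b, blk y ∈ nb b
  nbc : ∀ b, (nb b).card ≤ K.Ξ
  nbc' : ∀ b' (S : Finset B), (∀ b ∈ S, b' ∈ nb b) → S.card ≤ K.Ξ
  colD : ∀ b b', b ≠ b' → col b = col b' → Disjoint (U2 b) (U2 b')

variable {M : Core K V} {B : Type} [Fintype B] [DecidableEq B]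

/-- the outcome of a typical exploration -/
def Blk.Typ {D : Finset V} (S : Blk M B D) (Cκ MH M₀ M₁ η k : ℝ) (W : Finset V) : Prop :=
  (W.card : ℝ) ≤ Cκ * k ∧ ∃ a : B → Finset V,
    (∀ b, a b = ∅ ∨ (((W ∩ S.U4 b).card : ℝ) ≤ MH * M.U ∧ M.Ready W (S.U2 b) M₀ M₁ η (a b) ∧
      ∀ y ∈ a b, S.blk y = b)) ∧
    ((flt W fun y => ((W ∩ S.U4 (S.blk y)).card : ℝ) ≤ MH * M.U).card : ℝ) - k / 4 ≤
      2 * ∑ b, ((a b).card : ℝ)

namespace Sys

variable (S : Sys M B)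

/-- good block -/
def good (c₁ : ℝ) (ω : Finset (Bit V)) (b : B) : Prop :=
  (∃ y, M.big c₁ (S.U1 b) ω y) ∧ ∀ y y', M.big c₁ (S.K2 b) ω y → M.big c₁ (S.K2 b) ω y' →
    conn M.G (S.U2 b) (lev 3 ω) y y'

/-- level three clusters of the big clusters of the blocks of `O` -/
noncomputable def GG (c₁ : ℝ) (O : Finset B) (ω : Finset (Bit V)) : Finset V :=
  flt univ fun v => ∃ b ∈ O, ∃ y, M.big c₁ (S.K2 b) ω y ∧ conn M.G univ (lev 3 ω) y v

/-- the cluster of `x` is large and avoids `GG` -/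
def EvE (c₁ k : ℝ) (O : Finset B) (ω : Finset (Bit V)) (x : V) : Prop :=
  k ≤ (M.cv univ 4 ω x).card ∧ Disjoint (M.cv univ 4 ω x) (S.GG c₁ O ω)

/-- the cluster of `x` has a connected part with atypical geometry -/
def BadA (CY Cκ φ₃ φ₄ k : ℝ) (O : Finset B) (ω : Finset (Bit V)) (x : V) : Prop :=
  ∃ A : Finset V, A ⊆ M.cv univ 4 ω x ∧ (∀ y ∈ A, conn M.G A univ x y) ∧
    (A.card : ℝ) ≤ Cκ * k ∧
    (φ₄ * k ≤ (flt A fun y => CY * M.U < (flt A fun z => S.blk z = S.blk y).card).card ∨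
      φ₃ * k / M.U ≤ (flt (A.image S.blk) (· ∉ O)).card)

end Sys

/-! ### basic facts -/

namespace Core

variable (M : Core K V)

lemma prob : Prob fun _ : Sym2 V => M.p :=
  Prob.const (K.hα.le.trans M.p0) (by linarith [M.p1, K.hα])
lemma l_pos : 0 < M.l := by linarith [M.l1]
lemma N_pos : 0 < M.N := by linarith [M.N1]
lemma U_pos : 0 < M.U := mul_pos M.N_pos (pow_pos M.l_pos 4)
lemma f0_pos : 0 < M.f0 := one_div_pos.2 M.U_pos
lemma Vol_pos : 0 < M.Vol := mul_pos M.N_pos (pow_pos M.l_pos 6)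
lemma f0_mul_U : M.f0 * M.U = 1 := one_div_mul_cancel M.U_pos.ne'
lemma Vol_eq : M.Vol = M.U * M.l ^ 2 := by unfold Vol U; ring
lemma f0_mul_Vol : M.f0 * M.Vol = M.l ^ 2 := by rw [Vol_eq, ← mul_assoc, f0_mul_U, one_mul]
lemma tb_nonneg (D : Finset V) (x y : V) : 0 ≤ M.tb D x y := tau_nonneg M.prob
lemma tb_le (D : Finset V) (x y : V) : M.tb D x y ≤ M.g x y :=
  (tau_mono_dom M.prob (Finset.subset_univ _)).trans (M.tau_le x y)
lemma g_nonneg (x y : V) : 0 ≤ M.g x y := (M.tb_nonneg univ x y).trans (M.tb_le _ x y)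
lemma pot_nonneg (A : Finset V) (u : V) : 0 ≤ M.pot A u :=
  Finset.sum_nonneg fun _ _ => M.g_nonneg _ _
lemma pot_mono {A A' : Finset V} (h : A ⊆ A') (u : V) : M.pot A u ≤ M.pot A' u :=
  Finset.sum_le_sum_of_subset_of_nonneg h fun _ _ _ => M.g_nonneg _ _
lemma pot_nbr (A : Finset V) {x x' : V} (h : M.G.Adj x x') : M.pot A x' ≤ K.C * M.pot A x := by
  unfold pot; rw [Finset.mul_sum]; exact Finset.sum_le_sum fun a _ => M.nbr x x' a h
lemma sum_pot (A D : Finset V) : ∑ y ∈ D, M.pot A y = ∑ a ∈ A, M.pot D a := by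
  unfold pot; rw [Finset.sum_comm]
  exact Finset.sum_congr rfl fun _ _ => Finset.sum_congr rfl fun _ _ => M.symm _ _
lemma Wp_nonneg (A : Finset V) (u : V) : 0 ≤ M.Wp A u :=
  add_nonneg (M.pot_nonneg A u) (mul_nonneg M.f0_pos.le (Nat.cast_nonneg _))
lemma chi_le' (D : Finset V) (x : V) : chi M.G (fun _ => M.p) D x ≤ K.C * M.l ^ 2 :=
  (chi_mono_dom M.prob (Finset.subset_univ _)).trans (M.chi_le x)

variable {M}

lemma Small.mono {U U' : Finset V} (h : M.Small U) (hU : U' ⊆ U) : M.Small U' :=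
  ⟨le_trans (by exact_mod_cast Finset.card_le_card hU) h.card,
    fun η hη z D hD => h.r1 η hη z D (hD.trans hU),
    fun η hη z a => le_trans (Finset.sum_le_sum_of_subset_of_nonneg hU fun _ _ _ =>
      mul_nonneg (M.g_nonneg _ _) (M.g_nonneg _ _)) (h.r2 η hη z a)⟩

/-- total kernel mass of a small region -/
lemma Small.pot_le {U : Finset V} (h : M.Small U) (z : V) :
    M.pot U z ≤ (1 + K.Cs 1 * K.C) * M.l ^ 2 := by
  have h1 := h.r1 1 one_pos z U subset_rfl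
  have h2 : K.Cs 1 * M.f0 * U.card ≤ K.Cs 1 * M.f0 * (K.C * M.Vol) :=
    mul_le_mul_of_nonneg_left h.card (mul_nonneg (by linarith [K.hCs 1]) M.f0_pos.le)
  have h3 : K.Cs 1 * M.f0 * (K.C * M.Vol) = K.Cs 1 * K.C * M.l ^ 2 := by
    rw [← M.f0_mul_Vol]; ring
  unfold pot
  linarith

lemma Lv.prob {κ : ℝ} {i : Fin 5} {q : Fin 5 → ℝ} (h : M.Lv κ i q) :
    Prob fun b : Bit V => q b.2 := prob_lev h.2.1

end Core

lemma xproc_ok (G : SimpleGraph V) (D : Finset V) (i : Fin 5) (x : V) (k : ℝ) :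
    (xproc G D i x k).OK := by
  refine ⟨fun a b h => (Prod.mk.inj h).1, fun t e h => ?_, fun t t' h => ?_, fun s t z h => ?_⟩
  · exact lt_irrefl _ (mem_lbits.1 h).2.1
  · exact Finset.disjoint_left.2 fun b h1 h2 => h ((mem_lbits.1 h1).1.symm.trans (mem_lbits.1 h2).1)
  · simp only [xproc] at h
    split_ifs at h with h1 h2
    · simp at h
    · have := h2.2.choose_spec.2.2.2.2.2
      simp only [Option.some.injEq, Prod.mk.injEq] at h
      rw [← h.1]; exact this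

lemma eproc_ok (G : SimpleGraph V) (U Q : Finset V) (k k' r : ℝ) (rt : Finset V → V) :
    (eproc G U Q k k' r rt).OK := by
  refine ⟨fun a b h => (Prod.mk.inj h).1, fun t e h => ?_, fun t t' h => ?_, fun s t z h => ?_⟩
  · exact lt_irrefl _ (mem_lbits.1 h).2.1
  · exact Finset.disjoint_left.2 fun b h1 h2 => h ((mem_lbits.1 h1).1.symm.trans (mem_lbits.1 h2).1)
  · simp only [eproc] at h
    split_ifs at h with h1 h2 h3
    · have := h2.choose_spec.2.2.2.2.2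
      simp only [Option.some.injEq, Prod.mk.injEq] at h
      rw [← h.1]; exact this
    · simp at h

/-- description of the rule of the single-root exploration -/
lemma xproc_next {G : SimpleGraph V} {D : Finset V} {i : Fin 5} {x : V} {k : ℝ}
    (s : List (Ent (Sym2 V) V)) :
    (s = [] ∧ (xproc G D i x k).next s = some (none, x)) ∨
    (s ≠ [] ∧ ((Wof s).card : ℝ) < k ∧ ∃ b z, Cand G D s (b, z) ∧
      (xproc G D i x k).next s = some (some s(b, z), z)) ∨
    (s ≠ [] ∧ (k ≤ ((Wof s).card : ℝ) ∨ ∀ bz, ¬ Cand G D s bz) ∧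
      (xproc G D i x k).next s = none) := by
  by_cases h1 : s = []
  · exact Or.inl ⟨h1, by simp [xproc, h1]⟩
  · by_cases h2 : ((Wof s).card : ℝ) < k ∧ ∃ bz, Cand G D s bz
    · exact Or.inr (Or.inl ⟨h1, h2.1, h2.2.choose.1, h2.2.choose.2, h2.2.choose_spec, by
        simp only [xproc]; rw [if_neg h1, dif_pos h2]⟩)
    · refine Or.inr (Or.inr ⟨h1, ?_, by simp only [xproc]; rw [if_neg h1, dif_neg h2]⟩)
      by_cases h3 : ((Wof s).card : ℝ) < k
      · exact Or.inr fun bz h => h2 ⟨h3, bz, h⟩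
      · exact Or.inl (not_lt.1 h3)

/-- description of the rule of the multi-root exploration -/
lemma eproc_next {G : SimpleGraph V} {U Q : Finset V} {k k' r : ℝ} {rt : Finset V → V}
    (s : List (Ent (Sym2 V) V)) :
    ((2 * k ≤ ((Wof s ∩ Q).card : ℝ) ∨ k' ≤ ((Wof s).card : ℝ)) ∧
      (eproc G U Q k k' r rt).next s = none) ∨
    (((Wof s ∩ Q).card : ℝ) < 2 * k ∧ ((Wof s).card : ℝ) < k' ∧
      ((∃ b z, Cand G Q s (b, z) ∧ (eproc G U Q k k' r rt).next s = some (some s(b, z), z)) ∨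
      ((∀ bz, ¬ Cand G Q s bz) ∧
        ((((Wof s ∩ Q).card : ℝ) < k ∧ nroot s < r ∧
          (eproc G U Q k k' r rt).next s = some (none, rt (Wof s))) ∨
        ((k ≤ ((Wof s ∩ Q).card : ℝ) ∨ r ≤ nroot s) ∧
          (eproc G U Q k k' r rt).next s = none))))) := by
  by_cases h1 : 2 * k ≤ ((Wof s ∩ Q).card : ℝ) ∨ k' ≤ ((Wof s).card : ℝ)
  · exact Or.inl ⟨h1, by simp only [eproc]; rw [if_pos h1]⟩
  · have h1' := not_or.1 h1
    refine Or.inr ⟨not_le.1 h1'.1, not_le.1 h1'.2, ?_⟩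
    by_cases h2 : ∃ bz, Cand G Q s bz
    · exact Or.inl ⟨h2.choose.1, h2.choose.2, h2.choose_spec, by
        simp only [eproc]; rw [if_neg h1, dif_pos h2]⟩
    · refine Or.inr ⟨fun bz h => h2 ⟨bz, h⟩, ?_⟩
      by_cases h3 : ((Wof s ∩ Q).card : ℝ) < k ∧ nroot s < r
      · exact Or.inl ⟨h3.1, h3.2, by simp only [eproc]; rw [if_neg h1, dif_neg h2, if_pos h3]⟩
      · refine Or.inr ⟨?_, by simp only [eproc]; rw [if_neg h1, dif_neg h2, if_neg h3]⟩
        by_cases h4 : ((Wof s ∩ Q).card : ℝ) < k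
        · exact Or.inr (not_lt.1 fun h => h3 ⟨h4, h⟩)
        · exact Or.inl (not_lt.1 h4)

end Pool.Agent.TPC
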