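import Pool.Agent.Lib.TPC.Base

/-! Open clusters inside a finite vertex set. -/

open Finset

set_option linter.unusedSectionVars false

namespace Pool.Agent.TPC

variable {V : Type} [DecidableEq V]

/-- the graph of open edges of `G` with both ends in `D` -/
def opD (G : SimpleGraph V) (D : Finset V) (ω : Finset (Sym2 V)) : SimpleGraph V where
  Adj x y := G.Adj x y ∧ x ∈ D ∧ y ∈ D ∧ s(x, y) ∈ ω
  symm := ⟨fun _ _ h => ⟨h.1.symm, h.2.2.1, h.2.1, Sym2.eq_swap ▸ h.2.2.2⟩⟩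
  loopless := ⟨fun _ h => h.1.ne rfl⟩

/-- `x` is joined to `y` by an open path inside `D` (false if `x ∉ D`) -/
def conn (G : SimpleGraph V) (D : Finset V) (ω : Finset (Sym2 V)) (x y : V) : Prop :=
  x ∈ D ∧ (opD G D ω).Reachable x y

/-- the open cluster of `x` inside `D` (empty if `x ∉ D`) -/
noncomputable def cl (G : SimpleGraph V) (D : Finset V) (ω : Finset (Sym2 V)) (x : V) :
    Finset V := flt D (conn G D ω x)

/-- the edges of `G` with both ends in `D` -/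
noncomputable def edges (G : SimpleGraph V) (D : Finset V) : Finset (Sym2 V) :=
  flt D.sym2 (· ∈ G.edgeSet)

/-- unordered pairs with an end in `A` -/
def touch (A : Finset V) : Set (Sym2 V) := {e | ∃ v ∈ A, v ∈ e}

/-- two-point function inside `D` -/
noncomputable def tau (G : SimpleGraph V) (π : Sym2 V → ℝ) (D : Finset V) (x y : V) : ℝ :=
  PE (edges G D) π fun ω => ind (conn G D ω x y)

/-- law of the cluster: `E F(C(x;D))` -/
noncomputable def EC (G : SimpleGraph V) (π : Sym2 V → ℝ) (D : Finset V) (x : V)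
    (F : Finset V → ℝ) : ℝ := PE (edges G D) π fun ω => F (cl G D ω x)

/-- susceptibility inside `D` -/
noncomputable def chi (G : SimpleGraph V) (π : Sym2 V → ℝ) (D : Finset V) (x : V) : ℝ :=
  ∑ y ∈ D, tau G π D x y

/-- degree bound -/
def DegLe (G : SimpleGraph V) (Δ : ℕ) : Prop :=
  ∀ v (S : Finset V), (∀ y ∈ S, G.Adj v y) → S.card ≤ Δ

/-- number of ordered pairs `(u,v)`, `u ∈ A`, `v ∈ B`, adjacent in `G` -/
noncomputable def ec (G : SimpleGraph V) (A B : Finset V) : ℝ :=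
  ∑ u ∈ A, ∑ v ∈ B, ind (G.Adj u v)

variable {G : SimpleGraph V} {D D' A : Finset V} {ω ω' : Finset (Sym2 V)} {x y z : V}
  {π : Sym2 V → ℝ}

lemma opD_adj : (opD G D ω).Adj x y ↔ G.Adj x y ∧ x ∈ D ∧ y ∈ D ∧ s(x, y) ∈ ω := Iff.rfl

lemma mem_edges {e : Sym2 V} : e ∈ edges G D ↔ e ∈ G.edgeSet ∧ ∀ v ∈ e, v ∈ D := by
  rw [edges, mem_flt, Finset.mem_sym2_iff, and_comm]

lemma mk_mem_edges : s(x, y) ∈ edges G D ↔ G.Adj x y ∧ x ∈ D ∧ y ∈ D := by
  rw [mem_edges]; simp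

lemma edges_mono (h : D ⊆ D') : edges G D ⊆ edges G D' := fun _ he =>
  mem_edges.2 ⟨(mem_edges.1 he).1, fun v hv => h ((mem_edges.1 he).2 v hv)⟩

lemma edges_disjoint (h : Disjoint D D') : Disjoint (edges G D) (edges G D') := by
  rw [Finset.disjoint_left]
  intro e h1 h2
  induction e using Sym2.ind with
  | h a b => exact Finset.disjoint_left.1 h (mk_mem_edges.1 h1).2.1 (mk_mem_edges.1 h2).2.1

lemma mk_mem_touch : s(x, y) ∈ touch A ↔ x ∈ A ∨ y ∈ A := by
  constructor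
  · rintro ⟨v, hv, h⟩
    rcases Sym2.mem_iff.1 h with rfl | rfl
    exacts [Or.inl hv, Or.inr hv]
  · rintro (h | h)
    exacts [⟨x, h, Sym2.mem_mk_left _ _⟩, ⟨y, h, Sym2.mem_mk_right _ _⟩]

lemma touch_mono {B : Finset V} (h : A ⊆ B) : touch A ⊆ touch B :=
  fun _ ⟨v, hv, he⟩ => ⟨v, h hv, he⟩

lemma edges_sdiff_not_touch {e : Sym2 V} (he : e ∈ edges G (D \ A)) : e ∉ touch A :=
  fun ⟨v, hv, h⟩ => (Finset.mem_sdiff.1 ((mem_edges.1 he).2 v h)).2 hv

lemma conn.left (h : conn G D ω x y) : x ∈ D := h.1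

lemma conn.refl (h : x ∈ D) : conn G D ω x x := ⟨h, .rfl⟩

lemma conn.tail (h : conn G D ω x y) (hz : z ∈ D) (ha : G.Adj y z) (he : s(y, z) ∈ ω)
    (hy : y ∈ D) : conn G D ω x z :=
  ⟨h.1, h.2.trans (SimpleGraph.Adj.reachable (G := opD G D ω) ⟨ha, hy, hz, he⟩)⟩

/-- induction along an open path -/
lemma conn.induction {P : V → Prop} (h : conn G D ω x y) (h0 : P x)
    (hs : ∀ a b, P a → G.Adj a b → a ∈ D → b ∈ D → s(a, b) ∈ ω → P b) : P y := by
  obtain ⟨-, ⟨w⟩⟩ := h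
  induction w with
  | nil => exact h0
  | cons h _ ih => exact ih (hs _ _ h0 h.1 h.2.1 h.2.2.1 h.2.2.2)

lemma conn.right (h : conn G D ω x y) : y ∈ D :=
  h.induction (P := (· ∈ D)) h.1 fun _ _ _ _ _ hb _ => hb

lemma conn.symm (h : conn G D ω x y) : conn G D ω y x := ⟨h.right, h.2.symm⟩

lemma conn.trans (h : conn G D ω x y) (h' : conn G D ω y z) : conn G D ω x z :=
  ⟨h.1, h.2.trans h'.2⟩

lemma conn.step (hx : x ∈ D) (hy : y ∈ D) (ha : G.Adj x y) (he : s(x, y) ∈ ω) :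
    conn G D ω x y := (conn.refl hx).tail hy ha he hx

lemma conn.mono (h : conn G D ω x y) (hD : D ⊆ D') (hω : ω ⊆ ω') : conn G D' ω' x y :=
  h.induction (P := conn G D' ω' x) (conn.refl (hD h.1))
    fun _ _ h1 ha h2 h3 he => h1.tail (hD h3) ha (hω he) (hD h2)

lemma conn_comm : conn G D ω x y ↔ conn G D ω y x := ⟨conn.symm, conn.symm⟩

@[simp] lemma mem_cl : y ∈ cl G D ω x ↔ conn G D ω x y := by
  rw [cl, mem_flt]; exact ⟨fun h => h.2, fun h => ⟨h.right, h⟩⟩

lemma cl_subset : cl G D ω x ⊆ D := flt_subset _ _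

lemma self_mem_cl (h : x ∈ D) : x ∈ cl G D ω x := mem_cl.2 (conn.refl h)

lemma cl_of_notMem (h : x ∉ D) : cl G D ω x = ∅ :=
  Finset.eq_empty_of_forall_notMem fun _ hy => h (mem_cl.1 hy).1

lemma cl_mono (hD : D ⊆ D') (hω : ω ⊆ ω') : cl G D ω x ⊆ cl G D' ω' x :=
  fun _ h => mem_cl.2 ((mem_cl.1 h).mono hD hω)

lemma cl_eq_of_conn (h : conn G D ω x y) : cl G D ω y = cl G D ω x := by
  ext z; simp only [mem_cl]; exact ⟨h.trans, h.symm.trans⟩

lemma cl_disjoint (h : ¬ conn G D ω x y) : Disjoint (cl G D ω x) (cl G D ω y) :=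
  Finset.disjoint_left.2 fun _ h1 h2 => h ((mem_cl.1 h1).trans (mem_cl.1 h2).symm)

/-- a set containing `x` and closed under open edges of `D` contains the cluster -/
lemma cl_subset_of {T : Finset V} (hx : x ∈ T)
    (hT : ∀ a ∈ T, ∀ b ∈ D, G.Adj a b → s(a, b) ∈ ω → b ∈ T) : cl G D ω x ⊆ T := fun _ h =>
  (mem_cl.1 h).induction (P := (· ∈ T)) hx fun a b h1 ha _ h3 he => hT a h1 b h3 ha he

/-- the cluster inside `D` is connected inside itself -/
lemma conn_cl (h : conn G D ω x y) : conn G (cl G D ω x) ω x y := by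
  have := h.induction (P := fun b => conn G D ω x b ∧ conn G (cl G D ω x) ω x b)
    ⟨conn.refl h.1, conn.refl (self_mem_cl h.1)⟩ fun a b h1 ha h2 h3 he =>
      ⟨h1.1.tail h3 ha he h2,
        h1.2.tail (mem_cl.2 (h1.1.tail h3 ha he h2)) ha he (mem_cl.2 h1.1)⟩
  exact this.2

/-- the cluster is decided by the edges of `D` touching it -/
lemma cl_congr (h : ∀ e ∈ edges G D, e ∈ touch (cl G D ω x) → (e ∈ ω ↔ e ∈ ω')) :
    cl G D ω' x = cl G D ω x := by
  by_cases hx : x ∈ D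
  · apply Finset.Subset.antisymm
    · refine cl_subset_of (self_mem_cl hx) fun a ha b hb hab he => ?_
      have h1 := mem_cl.1 ha
      exact mem_cl.2 (h1.tail hb hab ((h _ (mk_mem_edges.2 ⟨hab, h1.right, hb⟩)
        (mk_mem_touch.2 (Or.inl ha))).2 he) h1.right)
    · intro y hy
      have := (mem_cl.1 hy).induction (P := fun b => conn G D ω x b ∧ conn G D ω' x b)
        ⟨conn.refl hx, conn.refl hx⟩ fun a b h1 ha h2 h3 he =>
          ⟨h1.1.tail h3 ha he h2, h1.2.tail h3 ha ((h _ (mk_mem_edges.2 ⟨ha, h2, h3⟩)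
            (mk_mem_touch.2 (Or.inl (mem_cl.2 h1.1)))).1 he) h2⟩
      exact mem_cl.2 this.2
  · rw [cl_of_notMem hx, cl_of_notMem hx]

lemma dep_cl (G : SimpleGraph V) (D : Finset V) (x : V) :
    DepOn (fun ω => cl G D ω x) (edges G D : Set (Sym2 V)) :=
  fun _ _ h => (cl_congr fun e he _ => h e he).symm

lemma dep_conn (G : SimpleGraph V) (D : Finset V) (x y : V) :
    DepOn (fun ω => conn G D ω x y) (edges G D : Set (Sym2 V)) := fun ω ω' h => by
  have := dep_cl G D x ω ω' h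
  simp only at this ⊢
  rw [← mem_cl, ← mem_cl, this]

lemma dep_cl_sdiff (G : SimpleGraph V) (D A : Finset V) (x : V) :
    DepOn (fun ω => cl G (D \ A) ω x) (touch A)ᶜ :=
  (dep_cl G (D \ A) x).mono fun _ he => edges_sdiff_not_touch he

/-- a connection avoiding a set `A` that is closed under open edges lives in `D \ A` -/
lemma conn_sdiff (h : conn G D ω y z) (hy : y ∉ A)
    (hA : ∀ a ∈ A, ∀ b ∈ D, G.Adj a b → s(a, b) ∈ ω → b ∈ A) : conn G (D \ A) ω y z :=
  h.induction (P := conn G (D \ A) ω y) (conn.refl (Finset.mem_sdiff.2 ⟨h.1, hy⟩))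
    fun a b h1 ha h2 h3 he => h1.tail (Finset.mem_sdiff.2 ⟨h3, fun hb =>
      (Finset.mem_sdiff.1 h1.right).2 (hA b hb a h2 ha.symm (Sym2.eq_swap ▸ he))⟩) ha he h1.right

lemma cl_sdiff_cl (hy : ¬ conn G D ω x y) : cl G (D \ cl G D ω x) ω y = cl G D ω y := by
  refine Finset.Subset.antisymm (cl_mono Finset.sdiff_subset subset_rfl) fun z hz => ?_
  exact mem_cl.2 (conn_sdiff (mem_cl.1 hz) (fun h => hy (mem_cl.1 h)) fun a ha b hb hab he =>
    mem_cl.2 ((mem_cl.1 ha).tail hb hab he (mem_cl.1 ha).right))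

lemma PE_cl {E : Finset (Sym2 V)} (hE : edges G D ⊆ E) (π : Sym2 V → ℝ) (x : V)
    (F : Finset V → ℝ) : PE E π (fun ω => F (cl G D ω x)) = EC G π D x F :=
  PE_restrict hE ((dep_cl G D x).comp F) (fun _ he _ => he) π

lemma PE_conn {E : Finset (Sym2 V)} (hE : edges G D ⊆ E) (π : Sym2 V → ℝ) (x y : V) :
    PE E π (fun ω => ind (conn G D ω x y)) = tau G π D x y :=
  PE_restrict hE ((dep_conn G D x y).comp ind) (fun _ he _ => he) π

/-- for an arbitrary coordinate set the connection probability is at most `tau` -/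
lemma PE_conn_le (hπ : Prob π) (E : Finset (Sym2 V)) (x y : V) :
    PE E π (fun ω => ind (conn G D ω x y)) ≤ tau G π D x y := by
  rw [← PE_conn (Finset.subset_union_right (s₁ := E))]
  exact PE_mono_set hπ Finset.subset_union_left
    fun a b hab => ind_mono fun h => h.mono subset_rfl hab

lemma tau_eq_EC : tau G π D x y = EC G π D x (fun C => ind (y ∈ C)) := by
  simp only [tau, EC, mem_cl]

lemma tau_nonneg (hπ : Prob π) : 0 ≤ tau G π D x y := PE_ind_nonneg hπ _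
lemma tau_le_one (hπ : Prob π) : tau G π D x y ≤ 1 := PE_ind_le_one hπ _
lemma tau_comm : tau G π D x y = tau G π D y x := by simp only [tau, conn_comm (x := x)]

lemma tau_self (h : x ∈ D) : tau G π D x x = 1 := by
  simp only [tau, ind_pos (conn.refl h), PE_const]

lemma tau_of_notMem (h : x ∉ D) : tau G π D x y = 0 := by
  have : ∀ ω, ind (conn G D ω x y) = 0 := fun ω => ind_neg fun h2 => h h2.1
  simp only [tau, this, PE_const]

lemma EC_mono_dom (hπ : Prob π) (h : D ⊆ D') {F : Finset V → ℝ} (hF : Monotone F) :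
    EC G π D x F ≤ EC G π D' x F := by
  rw [← PE_cl (edges_mono h)]
  exact PE_mono hπ fun ω => hF (cl_mono h subset_rfl)

lemma EC_mono_prob {π' : Sym2 V → ℝ} (hπ : Prob π) (hπ' : Prob π')
    (h : ∀ e ∈ edges G D, π e ≤ π' e) {F : Finset V → ℝ} (hF : Monotone F) :
    EC G π D x F ≤ EC G π' D x F :=
  PE_mono_prob hπ hπ' h fun _ _ hab => hF (cl_mono subset_rfl hab)

lemma EC_mono (hπ : Prob π) {F F' : Finset V → ℝ} (h : ∀ C, C ⊆ D → F C ≤ F' C) :
    EC G π D x F ≤ EC G π D x F' := PE_mono hπ fun _ => h _ cl_subset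

lemma tau_mono_dom (hπ : Prob π) (h : D ⊆ D') : tau G π D x y ≤ tau G π D' x y := by
  rw [tau_eq_EC, tau_eq_EC]
  exact EC_mono_dom hπ h fun _ _ hab => ind_mono fun h => hab h

lemma tau_mono_prob {π' : Sym2 V → ℝ} (hπ : Prob π) (hπ' : Prob π')
    (h : ∀ e ∈ edges G D, π e ≤ π' e) : tau G π D x y ≤ tau G π' D x y := by
  rw [tau_eq_EC, tau_eq_EC]
  exact EC_mono_prob hπ hπ' h fun _ _ hab => ind_mono fun h => hab h

lemma tau_mul_le (hπ : Prob π) : tau G π D x y * tau G π D y z ≤ tau G π D x z := by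
  refine (PE_fkg hπ (fun a b hab => ind_mono fun h => h.mono subset_rfl hab)
    fun a b hab => ind_mono fun h => h.mono subset_rfl hab).trans (PE_mono hπ fun ω => ?_)
  rw [← ind_and]; exact ind_mono fun h => h.1.trans h.2

lemma sum_cl (w : V → ℝ) : ∑ y ∈ cl G D ω x, w y = ∑ y ∈ D, ind (conn G D ω x y) * w y :=
  sum_flt _ _ _

/-- first moment of an additive functional of the cluster -/
lemma EC_sum (w : V → ℝ) :
    EC G π D x (fun C => ∑ y ∈ C, w y) = ∑ y ∈ D, tau G π D x y * w y := by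
  simp only [EC, sum_cl, tau]
  rw [PE_sum]
  exact Finset.sum_congr rfl fun y _ => PE_mul_right _ _ _ _

lemma EC_card : EC G π D x (fun C => (C.card : ℝ)) = chi G π D x := by
  have := EC_sum (G := G) (π := π) (D := D) (x := x) fun _ => 1
  simpa [chi] using this

lemma chi_nonneg (hπ : Prob π) : 0 ≤ chi G π D x := Finset.sum_nonneg fun _ _ => tau_nonneg hπ

lemma chi_mono_dom (hπ : Prob π) (h : D ⊆ D') : chi G π D x ≤ chi G π D' x := by
  rw [← EC_card, ← EC_card]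
  exact EC_mono_dom hπ h fun _ _ hab => Nat.cast_le.2 (Finset.card_le_card hab)

lemma chi_mono_prob {π' : Sym2 V → ℝ} (hπ : Prob π) (hπ' : Prob π')
    (h : ∀ e ∈ edges G D, π e ≤ π' e) : chi G π D x ≤ chi G π' D x :=
  Finset.sum_le_sum fun _ _ => tau_mono_prob hπ hπ' h

/-- conditioning on the cluster of `x` -/
lemma PE_cond_cl (G : SimpleGraph V) (D : Finset V) (x : V) (F : Finset V → Finset (Sym2 V) → ℝ)
    (hF : ∀ A, A ⊆ D → DepOn (F A) {e | ¬ (e ∈ edges G D ∧ e ∈ touch A)})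
    (E : Finset (Sym2 V)) (π : Sym2 V → ℝ) :
    PE E π (fun ω => F (cl G D ω x) ω) = PE E π (fun ω => PE E π (F (cl G D ω x))) :=
  PE_stop (fun ω => cl G D ω x) (fun A => {e | e ∈ edges G D ∧ e ∈ touch A})
    (fun _ _ h => cl_congr fun e h1 h2 => h e ⟨h1, h2⟩) F (fun _ => hF _ cl_subset) E π

lemma DegLe.sum_ind {Δ : ℕ} (h : DegLe G Δ) (v : V) (S : Finset V) :
    ∑ y ∈ S, ind (G.Adj v y) ≤ Δ := by
  rw [← card_flt]
  exact_mod_cast h v _ fun y hy => (mem_flt.1 hy).2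

lemma ec_nonneg (A B : Finset V) : 0 ≤ ec G A B :=
  Finset.sum_nonneg fun _ _ => Finset.sum_nonneg fun _ _ => ind_nonneg _

lemma ec_mono {A A' B B' : Finset V} (hA : A ⊆ A') (hB : B ⊆ B') : ec G A B ≤ ec G A' B' :=
  (Finset.sum_le_sum fun _ _ => Finset.sum_le_sum_of_subset_of_nonneg hB
    fun _ _ _ => ind_nonneg _).trans (Finset.sum_le_sum_of_subset_of_nonneg hA
      fun _ _ _ => Finset.sum_nonneg fun _ _ => ind_nonneg _)

lemma ec_comm (A B : Finset V) : ec G A B = ec G B A := by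
  unfold ec
  rw [Finset.sum_comm]
  exact Finset.sum_congr rfl fun _ _ => Finset.sum_congr rfl fun _ _ => ind_congr (G.adj_comm _ _)

lemma ec_le {Δ : ℕ} (h : DegLe G Δ) (A B : Finset V) : ec G A B ≤ Δ * A.card := by
  have := Finset.sum_le_card_nsmul A (fun u => ∑ v ∈ B, ind (G.Adj u v)) (Δ : ℝ)
    fun u _ => h.sum_ind u B
  rw [nsmul_eq_mul, mul_comm] at this
  exact this

/-! ### transport along a local isomorphism -/

section transport

variable {V' : Type} [DecidableEq V'] {G' : SimpleGraph V'} {φ : V → V'}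

/-- `φ` is an isomorphism from `G` on `D` onto `G'` on the image of `D` -/
def LocIso (G : SimpleGraph V) (G' : SimpleGraph V') (φ : V → V') (D : Finset V) : Prop :=
  Set.InjOn φ D ∧ ∀ x ∈ D, ∀ y ∈ D, (G'.Adj (φ x) (φ y) ↔ G.Adj x y)

lemma LocIso.mono (h : LocIso G G' φ D) (hD : D' ⊆ D) : LocIso G G' φ D' :=
  ⟨h.1.mono (Finset.coe_subset.2 hD), fun x hx y hy => h.2 x (hD hx) y (hD hy)⟩

lemma LocIso.injOn_edges (h : LocIso G G' φ D) : Set.InjOn (Sym2.map φ) (edges G D) := by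
  intro e he e' he' h2
  induction e using Sym2.ind with
  | h a b =>
    induction e' using Sym2.ind with
    | h c d =>
      have h3 := mk_mem_edges.1 (Finset.mem_coe.1 he)
      have h4 := mk_mem_edges.1 (Finset.mem_coe.1 he')
      simp only [Sym2.map_mk, Sym2.eq_iff] at h2 ⊢
      rcases h2 with h2 | h2
      · exact Or.inl ⟨h.1 h3.2.1 h4.2.1 h2.1, h.1 h3.2.2 h4.2.2 h2.2⟩
      · exact Or.inr ⟨h.1 h3.2.1 h4.2.2 h2.1, h.1 h3.2.2 h4.2.1 h2.2⟩

lemma LocIso.edges_image (h : LocIso G G' φ D) :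
    edges G' (D.image φ) = (edges G D).image (Sym2.map φ) := by
  ext e
  rw [Finset.mem_image]
  constructor
  · intro he
    induction e using Sym2.ind with
    | h a b =>
      obtain ⟨h1, h2, h3⟩ := mk_mem_edges.1 he
      obtain ⟨a, ha, rfl⟩ := Finset.mem_image.1 h2
      obtain ⟨b, hb, rfl⟩ := Finset.mem_image.1 h3
      exact ⟨s(a, b), mk_mem_edges.2 ⟨(h.2 a ha b hb).1 h1, ha, hb⟩, rfl⟩
  · rintro ⟨e, he, rfl⟩
    induction e using Sym2.ind with
    | h a b =>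
      obtain ⟨h1, h2, h3⟩ := mk_mem_edges.1 he
      exact mk_mem_edges.2 ⟨(h.2 a h2 b h3).2 h1, Finset.mem_image_of_mem _ h2,
        Finset.mem_image_of_mem _ h3⟩

lemma LocIso.PE_eq (h : LocIso G G' φ D) (π' : Sym2 V' → ℝ) (f : Finset (Sym2 V') → ℝ) :
    PE (edges G' (D.image φ)) π' f =
      PE (edges G D) (fun e => π' (e.map φ)) (fun ω => f (ω.image (Sym2.map φ))) := by
  rw [h.edges_image, PE_image h.injOn_edges]

lemma LocIso.conn_image (h : LocIso G G' φ D) (hD : D' ⊆ D) (hω : ω ⊆ edges G D) (hx : x ∈ D)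
    {y' : V'} : conn G' (D'.image φ) (ω.image (Sym2.map φ)) (φ x) y' ↔
      ∃ y, conn G D' ω x y ∧ φ y = y' := by
  constructor
  · intro hc
    obtain ⟨a, ha, h1⟩ := Finset.mem_image.1 hc.1
    have hx' : x ∈ D' := h.1 (hD ha) hx h1 ▸ ha
    refine hc.induction (P := fun b => ∃ y, conn G D' ω x y ∧ φ y = b) ⟨x, conn.refl hx', rfl⟩ ?_
    rintro _ b ⟨a, h2, rfl⟩ hab _ hb he
    obtain ⟨b, hb', rfl⟩ := Finset.mem_image.1 hb
    have hab' := (h.2 a (hD h2.right) b (hD hb')).1 hab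
    obtain ⟨e, he1, he2⟩ := Finset.mem_image.1 he
    have : e = s(a, b) := h.injOn_edges (hω he1)
      (mk_mem_edges.2 ⟨hab', hD h2.right, hD hb'⟩) he2
    exact ⟨b, h2.tail hb' hab' (this ▸ he1) h2.right, rfl⟩
  · rintro ⟨y, hc, rfl⟩
    refine hc.induction (P := fun b => conn G' (D'.image φ) (ω.image (Sym2.map φ)) (φ x) (φ b))
      (conn.refl (Finset.mem_image_of_mem _ hc.1)) fun a b h1 hab ha hb he => ?_
    exact h1.tail (Finset.mem_image_of_mem _ hb) ((h.2 a (hD ha) b (hD hb)).2 hab)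
      (Finset.mem_image.2 ⟨_, he, rfl⟩) h1.right

lemma LocIso.cl_image (h : LocIso G G' φ D) (hD : D' ⊆ D) (hω : ω ⊆ edges G D) (hx : x ∈ D) :
    cl G' (D'.image φ) (ω.image (Sym2.map φ)) (φ x) = (cl G D' ω x).image φ := by
  ext y'
  rw [mem_cl, h.conn_image hD hω hx, Finset.mem_image]
  simp only [mem_cl]

lemma LocIso.EC_eq (h : LocIso G G' φ D) (hx : x ∈ D) (p : ℝ) (F : Finset V' → ℝ) :
    EC G' (fun _ => p) (D.image φ) (φ x) F = EC G (fun _ => p) D x (fun C => F (C.image φ)) := by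
  unfold EC
  rw [h.PE_eq]
  exact PE_congr fun ω hω => by rw [h.cl_image subset_rfl hω hx]

lemma LocIso.tau_eq (h : LocIso G G' φ D) (hx : x ∈ D) (hy : y ∈ D) (p : ℝ) :
    tau G' (fun _ => p) (D.image φ) (φ x) (φ y) = tau G (fun _ => p) D x y := by
  rw [tau_eq_EC, tau_eq_EC, h.EC_eq hx]
  refine PE_congr fun ω _ => ind_congr ?_
  rw [Finset.mem_image]
  exact ⟨fun ⟨a, ha, h2⟩ => h.1 (cl_subset ha) hy h2 ▸ ha, fun h2 => ⟨y, h2, rfl⟩⟩

end transport

end Pool.Agent.TPC
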