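import Pool.Agent.Lib.TPC.Path

/-! Exploration processes revealing base clusters; levels of sprinkling. -/

open Finset

set_option linter.unusedSectionVars false

namespace Pool.Agent.TPC

/-- one step of a process: token (or root), starting vertex, success flag, revealed piece -/
structure Ent (T V : Type) where
  tok : Option T
  z : V
  ok : Bool
  piece : Finset V

variable {T V ι : Type} [Fintype V] [DecidableEq V] [Fintype ι] [DecidableEq ι]

/-- union of the revealed pieces (the head of the list is the latest step) -/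
def Wof : List (Ent T V) → Finset V
  | [] => ∅
  | a :: s => a.piece ∪ Wof s

/-- additive functional; `F a s` sees the step `a` and its past `s` -/
noncomputable def sumF (F : Ent T V → List (Ent T V) → ℝ) : List (Ent T V) → ℝ
  | [] => 0
  | a :: s => F a s + sumF F s

/-- union over the steps of `bad (past) (piece)` -/
def marked (bad : Finset V → Finset V → Finset V) : List (Ent T V) → Finset V
  | [] => ∅
  | a :: s => bad (Wof s) a.piece ∪ marked bad s

/-- the pieces are pairwise disjoint -/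
def Disj (s : List (Ent T V)) : Prop := s.Pairwise fun a b => Disjoint a.piece b.piece

/-- number of roots -/
noncomputable def nroot (s : List (Ent T V)) : ℝ := sumF (fun a _ => ind (a.tok = none)) s

/-- number of examined tokens -/
noncomputable def ntok (s : List (Ent T V)) : ℝ := sumF (fun a _ => ind (a.tok ≠ none)) s

/-- base configuration read through the coordinates `base e` -/
def baseOf (base : Sym2 V → ι) (ω : Finset ι) : Finset (Sym2 V) := univ.filter fun e => base e ∈ ω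

/-- data of a process -/
structure Proc (T V ι : Type) where
  G : SimpleGraph V
  D : Finset V
  base : Sym2 V → ι
  bits : T → Finset ι
  next : List (Ent T V) → Option (Option T × V)

namespace Proc

variable (P : Proc T V ι)

/-- one step -/
noncomputable def step (ω : Finset ι) (s : List (Ent T V)) : List (Ent T V) :=
  match P.next s with
  | none => s
  | some (none, z) => ⟨none, z, true, cl P.G (P.D \ Wof s) (baseOf P.base ω) z⟩ :: s
  | some (some t, z) =>
    if ∃ b ∈ P.bits t, b ∈ ω then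
      ⟨some t, z, true, cl P.G (P.D \ Wof s) (baseOf P.base ω) z⟩ :: s
    else ⟨some t, z, false, ∅⟩ :: s

/-- the state after `n` steps -/
noncomputable def run (ω : Finset ι) : ℕ → List (Ent T V)
  | 0 => []
  | n + 1 => P.step ω (run ω n)

/-- the rule only reads fresh coordinates -/
structure OK : Prop where
  inj : Function.Injective P.base
  nb : ∀ t e, P.base e ∉ P.bits t
  disj : ∀ t t', t ≠ t' → Disjoint (P.bits t) (P.bits t')
  fresh : ∀ s t z, P.next s = some (some t, z) → ∀ a ∈ s, a.tok ≠ some t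

/-- the coordinates revealed by a state -/
def rev (s : List (Ent T V)) : Set ι :=
  {b | (∃ e ∈ touch (Wof s), b = P.base e) ∨ ∃ a ∈ s, ∃ t, a.tok = some t ∧ b ∈ P.bits t}

variable {P} {ω ω' : Finset ι} {s : List (Ent T V)} {z : V} {t : T}

lemma step_none (h : P.next s = none) : P.step ω s = s := by simp [step, h]

lemma step_root (h : P.next s = some (none, z)) :
    P.step ω s = ⟨none, z, true, cl P.G (P.D \ Wof s) (baseOf P.base ω) z⟩ :: s := by
  simp [step, h]

lemma step_succ (h : P.next s = some (some t, z)) (hb : ∃ b ∈ P.bits t, b ∈ ω) :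
    P.step ω s = ⟨some t, z, true, cl P.G (P.D \ Wof s) (baseOf P.base ω) z⟩ :: s := by
  simp only [step, h]; rw [if_pos hb]

lemma step_fail (h : P.next s = some (some t, z)) (hb : ¬ ∃ b ∈ P.bits t, b ∈ ω) :
    P.step ω s = ⟨some t, z, false, ∅⟩ :: s := by
  simp only [step, h]; rw [if_neg hb]

/-- case analysis of a step -/
lemma step_cases (P : Proc T V ι) (ω : Finset ι) (s : List (Ent T V)) :
    (P.next s = none ∧ P.step ω s = s) ∨
    (∃ z, P.next s = some (none, z) ∧
      P.step ω s = ⟨none, z, true, cl P.G (P.D \ Wof s) (baseOf P.base ω) z⟩ :: s) ∨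
    (∃ t z, P.next s = some (some t, z) ∧ (∃ b ∈ P.bits t, b ∈ ω) ∧
      P.step ω s = ⟨some t, z, true, cl P.G (P.D \ Wof s) (baseOf P.base ω) z⟩ :: s) ∨
    (∃ t z, P.next s = some (some t, z) ∧ (¬ ∃ b ∈ P.bits t, b ∈ ω) ∧
      P.step ω s = ⟨some t, z, false, ∅⟩ :: s) := by
  rcases h : P.next s with _ | ⟨_ | t, z⟩
  · exact Or.inl ⟨rfl, step_none h⟩
  · exact Or.inr (Or.inl ⟨z, rfl, step_root h⟩)
  · by_cases hb : ∃ b ∈ P.bits t, b ∈ ω
    · exact Or.inr (Or.inr (Or.inl ⟨t, z, rfl, hb, step_succ h hb⟩))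
    · exact Or.inr (Or.inr (Or.inr ⟨t, z, rfl, hb, step_fail h hb⟩))

lemma run_succ (P : Proc T V ι) (ω : Finset ι) (n : ℕ) :
    P.run ω (n + 1) = P.step ω (P.run ω n) := rfl

/-- invariants -/
lemma run_inv {Inv : List (Ent T V) → Prop} (h0 : Inv []) (hs : ∀ s, Inv s → Inv (P.step ω s))
    (n : ℕ) : Inv (P.run ω n) := by
  induction n with
  | zero => exact h0
  | succ n ih => exact hs _ ih

lemma suffix_step : s <:+ P.step ω s := by
  rcases P.step_cases ω s with ⟨_, h⟩ | ⟨_, _, h⟩ | ⟨_, _, _, _, h⟩ | ⟨_, _, _, _, h⟩ <;> rw [h]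
  all_goals exact List.suffix_cons _ _

end Proc

lemma Wof_mono {s s' : List (Ent T V)} (h : s <:+ s') : Wof s ⊆ Wof s' := by
  obtain ⟨l, rfl⟩ := h
  induction l with
  | nil => exact subset_rfl
  | cons a l ih => exact ih.trans Finset.subset_union_right

lemma mem_Wof {s : List (Ent T V)} {v : V} : v ∈ Wof s ↔ ∃ a ∈ s, v ∈ a.piece := by
  induction s with
  | nil => simp [Wof]
  | cons a s ih => simp [Wof, ih]

lemma sumF_le {F F' : Ent T V → List (Ent T V) → ℝ} {s : List (Ent T V)}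
    (h : ∀ a s', a :: s' <:+ s → F a s' ≤ F' a s') : sumF F s ≤ sumF F' s := by
  induction s with
  | nil => exact le_rfl
  | cons a s ih =>
    exact add_le_add (h a s (List.suffix_refl _))
      (ih fun b s' hb => h b s' (hb.trans (List.suffix_cons _ _)))

lemma sumF_add (F F' : Ent T V → List (Ent T V) → ℝ) (s : List (Ent T V)) :
    sumF (fun a s => F a s + F' a s) s = sumF F s + sumF F' s := by
  induction s with
  | nil => simp [sumF]
  | cons a s ih => simp only [sumF, ih]; ring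

lemma sumF_mul (c : ℝ) (F : Ent T V → List (Ent T V) → ℝ) (s : List (Ent T V)) :
    sumF (fun a s => c * F a s) s = c * sumF F s := by
  induction s with
  | nil => simp [sumF]
  | cons a s ih => simp only [sumF, ih]; ring

lemma Disj.head {a : Ent T V} {s : List (Ent T V)} (h : Disj (a :: s)) :
    Disjoint a.piece (Wof s) := by
  rw [Finset.disjoint_left]
  intro v hv h2
  obtain ⟨b, hb, h3⟩ := mem_Wof.1 h2
  exact Finset.disjoint_left.1 ((List.pairwise_cons.1 h).1 b hb) hv h3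

lemma Disj.tail {a : Ent T V} {s : List (Ent T V)} (h : Disj (a :: s)) : Disj s :=
  (List.pairwise_cons.1 h).2

/-- an additive functional of the pieces is the functional of their union -/
lemma Disj.sum_Wof {s : List (Ent T V)} (h : Disj s) (w : V → ℝ) :
    ∑ y ∈ Wof s, w y = sumF (fun a _ => ∑ y ∈ a.piece, w y) s := by
  induction s with
  | nil => simp [Wof, sumF]
  | cons a s ih => rw [Wof, sumF, Finset.sum_union h.head, ih h.tail]

lemma card_marked_le (bad : Finset V → Finset V → Finset V) (s : List (Ent T V)) :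
    ((marked bad s).card : ℝ) ≤ sumF (fun a s => ((bad (Wof s) a.piece).card : ℝ)) s := by
  induction s with
  | nil => simp [marked, sumF]
  | cons a s ih =>
    have : ((marked bad (a :: s)).card : ℝ) ≤
        (bad (Wof s) a.piece).card + (marked bad s).card := by
      exact_mod_cast Finset.card_union_le _ _
    rw [sumF]; linarith

lemma mem_baseOf {base : Sym2 V → ι} {ω : Finset ι} {e : Sym2 V} :
    e ∈ baseOf base ω ↔ base e ∈ ω := by simp [baseOf]

lemma PE_baseOf {base : Sym2 V → ι} (h : Function.Injective base) (π : ι → ℝ)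
    (f : Finset (Sym2 V) → ℝ) :
    PE univ π (fun ω => f (baseOf base ω)) = PE univ (fun e => π (base e)) f := by
  have := PE_or (E := (univ : Finset ι)) (univ : Finset (Sym2 V)) (fun e => {base e})
    (fun _ _ => Finset.subset_univ _)
    (fun a _ b _ hab => Finset.disjoint_singleton.2 fun h2 => hab (h h2)) π f
  simp only [Finset.prod_singleton, sub_sub_cancel] at this
  rw [← this]
  refine PE_congr fun ω _ => congrArg f ?_
  ext e; simp [baseOf]

namespace Proc

variable {P : Proc T V ι} {ω ω' : Finset ι} {s : List (Ent T V)} {z : V} {t : T}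

lemma disj_run (P : Proc T V ι) (ω : Finset ι) (n : ℕ) :
    Disj (P.run ω n) ∧ Wof (P.run ω n) ⊆ P.D := by
  refine run_inv (Inv := fun s => Disj s ∧ Wof s ⊆ P.D) ⟨List.Pairwise.nil, by simp [Wof]⟩ ?_ n
  rintro s ⟨h1, h2⟩
  have key : ∀ (o : Option T) (z : V) (b : Bool) (C : Finset V), C ⊆ P.D \ Wof s →
      Disj (⟨o, z, b, C⟩ :: s) ∧ Wof (⟨o, z, b, C⟩ :: s) ⊆ P.D := by
    intro o z b C hC
    refine ⟨List.pairwise_cons.2 ⟨fun a ha => Finset.disjoint_left.2 fun v hv h3 => ?_, h1⟩,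
      Finset.union_subset (hC.trans Finset.sdiff_subset) h2⟩
    exact (Finset.mem_sdiff.1 (hC hv)).2 (mem_Wof.2 ⟨a, ha, h3⟩)
  rcases P.step_cases ω s with ⟨_, h⟩ | ⟨_, _, h⟩ | ⟨_, _, _, _, h⟩ | ⟨_, _, _, _, h⟩ <;> rw [h]
  exacts [⟨h1, h2⟩, key _ _ _ _ cl_subset, key _ _ _ _ cl_subset,
    key _ _ _ _ (Finset.empty_subset _)]

lemma rev_mono {s s' : List (Ent T V)} (h : s <:+ s') : P.rev s ⊆ P.rev s' := by
  rintro b (⟨e, he, rfl⟩ | ⟨a, ha, t, h1, h2⟩)
  · exact Or.inl ⟨e, touch_mono (Wof_mono h) he, rfl⟩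
  · exact Or.inr ⟨a, h.subset ha, t, h1, h2⟩

lemma step_congr (h : ∀ b ∈ P.rev (P.step ω s), (b ∈ ω ↔ b ∈ ω')) : P.step ω' s = P.step ω s := by
  have hc : ∀ (o : Option T) (z : V),
      P.step ω s = ⟨o, z, true, cl P.G (P.D \ Wof s) (baseOf P.base ω) z⟩ :: s →
      cl P.G (P.D \ Wof s) (baseOf P.base ω') z = cl P.G (P.D \ Wof s) (baseOf P.base ω) z := by
    intro o z h1
    refine cl_congr fun e _ he => ?_
    rw [mem_baseOf, mem_baseOf]
    refine h _ (Or.inl ⟨e, ?_, rfl⟩)
    rw [h1]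
    exact touch_mono Finset.subset_union_left he
  rcases P.step_cases ω s with ⟨h0, h1⟩ | ⟨z, h0, h1⟩ | ⟨t, z, h0, hb, h1⟩ | ⟨t, z, h0, hb, h1⟩
  · rw [h1, step_none h0]
  · rw [step_root h0, hc _ _ h1, h1]
  · obtain ⟨b, hb1, hb2⟩ := hb
    rw [step_succ h0 ⟨b, hb1, (h b (Or.inr ⟨_, by rw [h1]; exact List.mem_cons_self, t, rfl,
      hb1⟩)).1 hb2⟩, hc _ _ h1, h1]
  · rw [h1, step_fail h0]
    rintro ⟨b, hb1, hb2⟩
    exact hb ⟨b, hb1, (h b (Or.inr ⟨_, by rw [h1]; exact List.mem_cons_self, t, rfl, hb1⟩)).2 hb2⟩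

/-- the state is decided by the coordinates it reveals -/
lemma run_congr (n : ℕ) (h : ∀ b ∈ P.rev (P.run ω n), (b ∈ ω ↔ b ∈ ω')) :
    P.run ω' n = P.run ω n := by
  induction n with
  | zero => rfl
  | succ n ih =>
    rw [run_succ, run_succ, ih fun b hb => h b (rev_mono suffix_step hb)]
    exact step_congr h

/-- (MK) Markov property at time `n` -/
lemma markov (P : Proc T V ι) (n : ℕ) (F : List (Ent T V) → Finset ι → ℝ)
    (hF : ∀ ω, DepOn (F (P.run ω n)) (P.rev (P.run ω n))ᶜ) (π : ι → ℝ) :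
    PE univ π (fun ω => F (P.run ω n) ω) = PE univ π (fun ω => PE univ π (F (P.run ω n))) :=
  PE_stop (fun ω => P.run ω n) P.rev (fun _ _ h => run_congr n h) F hF univ π

lemma dep_piece (_hP : P.OK) (s : List (Ent T V)) (z : V) :
    DepOn (fun ω => cl P.G (P.D \ Wof s) (baseOf P.base ω) z)
      {b | ∃ e, e ∉ touch (Wof s) ∧ b = P.base e} := by
  intro ω ω' h
  refine dep_cl_sdiff P.G P.D (Wof s) z _ _ fun e he => ?_
  rw [mem_baseOf, mem_baseOf]
  exact h _ ⟨e, he, rfl⟩

lemma dep_step (hP : P.OK) (s : List (Ent T V)) : DepOn (fun ω => P.step ω s) (P.rev s)ᶜ := by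
  intro ω ω' h
  have hc : ∀ z, cl P.G (P.D \ Wof s) (baseOf P.base ω) z =
      cl P.G (P.D \ Wof s) (baseOf P.base ω') z := by
    intro z
    refine dep_piece hP s z ω ω' ?_
    rintro _ ⟨e, he, rfl⟩
    refine h _ ?_
    rintro (⟨e', he', h2⟩ | ⟨a, _, t, _, h2⟩)
    · exact he (hP.inj h2 ▸ he')
    · exact hP.nb t e h2
  have hb : ∀ t z, P.next s = some (some t, z) → ∀ b ∈ P.bits t, (b ∈ ω ↔ b ∈ ω') := by
    intro t z h0 b hb
    refine h b ?_
    rintro (⟨e', _, h2⟩ | ⟨a, ha, t', h1, h2⟩)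
    · exact hP.nb t e' (h2 ▸ hb)
    · by_cases h3 : t = t'
      · exact hP.fresh s t z h0 a ha (h3 ▸ h1)
      · exact Finset.disjoint_left.1 (hP.disj t t' h3) hb h2
  beta_reduce
  rcases P.step_cases ω s with ⟨h0, h1⟩ | ⟨z, h0, h1⟩ | ⟨t, z, h0, h2, h1⟩ | ⟨t, z, h0, h2, h1⟩
  · rw [h1, step_none h0]
  · rw [h1, step_root h0, hc]
  · obtain ⟨b, hb1, hb2⟩ := h2
    rw [h1, step_succ h0 ⟨b, hb1, (hb t z h0 b hb1).1 hb2⟩, hc]
  · rw [h1, step_fail h0]
    rintro ⟨b, hb1, hb2⟩
    exact h2 ⟨b, hb1, (hb t z h0 b hb1).2 hb2⟩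

lemma PE_piece (hP : P.OK) (π : ι → ℝ) (s : List (Ent T V)) (z : V) (F : Finset V → ℝ) :
    PE univ π (fun ω => F (cl P.G (P.D \ Wof s) (baseOf P.base ω) z)) =
      EC P.G (fun e => π (P.base e)) (P.D \ Wof s) z F := by
  rw [PE_baseOf hP.inj π (fun η => F (cl P.G (P.D \ Wof s) η z)), PE_cl (Finset.subset_univ _)]

lemma PE_step_tok (hP : P.OK) (π : ι → ℝ) (h0 : P.next s = some (some t, z))
    (φ : List (Ent T V) → ℝ) :
    PE univ π (fun ω => φ (P.step ω s)) =
      (1 - ∏ b ∈ P.bits t, (1 - π b)) *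
        EC P.G (fun e => π (P.base e)) (P.D \ Wof s) z (fun C => φ (⟨some t, z, true, C⟩ :: s)) +
      (∏ b ∈ P.bits t, (1 - π b)) * φ (⟨some t, z, false, ∅⟩ :: s) := by
  have key : ∀ ω, φ (P.step ω s) = (1 - ind (∀ b ∈ P.bits t, b ∉ ω)) *
      φ (⟨some t, z, true, cl P.G (P.D \ Wof s) (baseOf P.base ω) z⟩ :: s) +
      ind (∀ b ∈ P.bits t, b ∉ ω) * φ (⟨some t, z, false, ∅⟩ :: s) := by
    intro ω
    by_cases hb : ∃ b ∈ P.bits t, b ∈ ω
    · rw [step_succ h0 hb, ind_neg (by simpa using hb)]; ring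
    · rw [step_fail h0 hb, ind_pos (by simpa using hb)]; ring
  have dc : DepOn (fun ω : Finset ι => ind (∀ b ∈ P.bits t, b ∉ ω)) (P.bits t : Set ι) :=
    fun ω ω' h => ind_congr (forall₂_congr fun e he => not_congr (h e he))
  simp only [key]
  rw [PE_add, PE_mul_right, PE_mul_of_dep (dc.comp fun x => 1 - x)
    (((dep_piece hP s z).comp fun C => φ (⟨some t, z, true, C⟩ :: s)).mono ?_), PE_sub, PE_const,
    PE_all_closed (Finset.subset_univ _), PE_piece hP π s z fun C => φ (⟨some t, z, true, C⟩ :: s)]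
  rintro _ ⟨e, _, rfl⟩
  exact hP.nb t e

/-- (SM) supermartingale bound; `Inv` is any property of all reachable states -/
lemma super (hP : P.OK) {π : ι → ℝ} (hπ : Prob π) (Inv : List (Ent T V) → Prop)
    (φ : List (Ent T V) → ℝ) (hI : ∀ ω n, Inv (P.run ω n))
    (hr : ∀ s z, Inv s → P.next s = some (none, z) →
      EC P.G (fun e => π (P.base e)) (P.D \ Wof s) z (fun C => φ (⟨none, z, true, C⟩ :: s)) ≤ φ s)
    (ht : ∀ s t z, Inv s → P.next s = some (some t, z) →
      (1 - ∏ b ∈ P.bits t, (1 - π b)) *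
        EC P.G (fun e => π (P.base e)) (P.D \ Wof s) z (fun C => φ (⟨some t, z, true, C⟩ :: s)) +
      (∏ b ∈ P.bits t, (1 - π b)) * φ (⟨some t, z, false, ∅⟩ :: s) ≤ φ s) (n : ℕ) :
    PE univ π (fun ω => φ (P.run ω n)) ≤ φ [] := by
  induction n with
  | zero => exact le_of_eq (PE_const univ π (φ []))
  | succ n ih =>
    refine le_trans ?_ ih
    have := P.markov n (fun s ω => φ (P.step ω s)) (fun ω => (dep_step hP _).comp φ) π
    simp only [run_succ]
    rw [this]
    refine PE_mono hπ fun ω => ?_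
    have hs := hI ω n
    generalize P.run ω n = s at hs
    rcases h0 : P.next s with _ | ⟨_ | t, z⟩
    · simp only [step_none h0, PE_const, le_refl]
    · simp only [step_root h0]
      rw [PE_piece hP π s z fun C => φ (⟨none, z, true, C⟩ :: s)]
      exact hr s z hs h0
    · rw [PE_step_tok hP π h0]
      exact ht s t z hs h0

/-- exponential supermartingale of an additive functional -/
lemma super_exp (hP : P.OK) {π : ι → ℝ} (hπ : Prob π) (Inv : List (Ent T V) → Prop)
    (F : Ent T V → List (Ent T V) → ℝ) (hI : ∀ ω n, Inv (P.run ω n))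
    (hr : ∀ s z, Inv s → P.next s = some (none, z) →
      EC P.G (fun e => π (P.base e)) (P.D \ Wof s) z
        (fun C => Real.exp (F ⟨none, z, true, C⟩ s)) ≤ 1)
    (ht : ∀ s t z, Inv s → P.next s = some (some t, z) →
      (1 - ∏ b ∈ P.bits t, (1 - π b)) * EC P.G (fun e => π (P.base e)) (P.D \ Wof s) z
        (fun C => Real.exp (F ⟨some t, z, true, C⟩ s)) +
      (∏ b ∈ P.bits t, (1 - π b)) * Real.exp (F ⟨some t, z, false, ∅⟩ s) ≤ 1) (n : ℕ) :
    PE univ π (fun ω => Real.exp (sumF F (P.run ω n))) ≤ 1 := by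
  have := super hP hπ Inv (fun s => Real.exp (sumF F s)) hI ?_ ?_ n
  · simpa [sumF] using this
  · intro s z hs h0
    simp only [sumF, Real.exp_add, EC]
    rw [PE_mul_right]
    exact mul_le_of_le_one_left (Real.exp_pos _).le (hr s z hs h0)
  · intro s t z hs h0
    simp only [sumF, Real.exp_add, EC]
    rw [PE_mul_right]
    have := mul_le_mul_of_nonneg_right (ht s t z hs h0) (Real.exp_pos (sumF F s)).le
    simp only [EC] at this
    linarith

/-- linear supermartingale of an additive functional -/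
lemma super_lin (hP : P.OK) {π : ι → ℝ} (hπ : Prob π) (Inv : List (Ent T V) → Prop)
    (F : Ent T V → List (Ent T V) → ℝ) (hI : ∀ ω n, Inv (P.run ω n))
    (hr : ∀ s z, Inv s → P.next s = some (none, z) →
      EC P.G (fun e => π (P.base e)) (P.D \ Wof s) z (fun C => F ⟨none, z, true, C⟩ s) ≤ 0)
    (ht : ∀ s t z, Inv s → P.next s = some (some t, z) →
      (1 - ∏ b ∈ P.bits t, (1 - π b)) * EC P.G (fun e => π (P.base e)) (P.D \ Wof s) z
        (fun C => F ⟨some t, z, true, C⟩ s) +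
      (∏ b ∈ P.bits t, (1 - π b)) * F ⟨some t, z, false, ∅⟩ s ≤ 0) (n : ℕ) :
    PE univ π (fun ω => sumF F (P.run ω n)) ≤ 0 := by
  have := super hP hπ Inv (fun s => sumF F s) hI ?_ ?_ n
  · simpa [sumF] using this
  · intro s z hs h0
    simp only [sumF, EC]
    rw [PE_add, PE_const]
    have := hr s z hs h0
    simp only [EC] at this
    linarith
  · intro s t z hs h0
    simp only [sumF, EC]
    rw [PE_add, PE_const]
    have := ht s t z hs h0
    simp only [EC] at this
    linarith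

end Proc

/-! ### levels -/

/-- coordinates of the sprinkled model -/
abbrev Bit (V : Type) := Sym2 V × Fin 5

/-- edges open at level `i` -/
def lev (i : Fin 5) (ω : Finset (Bit V)) : Finset (Sym2 V) :=
  univ.filter fun e => ∃ j, j ≤ i ∧ (e, j) ∈ ω

/-- expectation in the sprinkled model -/
noncomputable def PL (q : Fin 5 → ℝ) (f : Finset (Bit V) → ℝ) : ℝ := PE univ (fun b => q b.2) f

/-- probability of an edge at level `i` -/
noncomputable def plev (q : Fin 5 → ℝ) (i : Fin 5) : ℝ := 1 - ∏ j ∈ Finset.Iic i, (1 - q j)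

/-- the bits of levels `1, ..., i` of an edge -/
def lbits (i : Fin 5) (e : Sym2 V) : Finset (Bit V) := (Finset.Ioc 0 i).image fun j => (e, j)

lemma mem_lev {i : Fin 5} {ω : Finset (Bit V)} {e : Sym2 V} :
    e ∈ lev i ω ↔ ∃ j, j ≤ i ∧ (e, j) ∈ ω := by simp [lev]

lemma lev_mono {i i' : Fin 5} {ω ω' : Finset (Bit V)} (h : i ≤ i') (hω : ω ⊆ ω') :
    lev i ω ⊆ lev i' ω' := fun _ he => by
  obtain ⟨j, h1, h2⟩ := mem_lev.1 he
  exact mem_lev.2 ⟨j, h1.trans h, hω h2⟩

lemma lev_zero (ω : Finset (Bit V)) : lev 0 ω = baseOf (fun e => (e, (0 : Fin 5))) ω := by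
  ext e; simp [mem_lev, mem_baseOf]

lemma mem_lbits {i : Fin 5} {e : Sym2 V} {b : Bit V} :
    b ∈ lbits i e ↔ b.1 = e ∧ 0 < b.2 ∧ b.2 ≤ i := by
  obtain ⟨e', j⟩ := b
  simp only [lbits, Finset.mem_image, Finset.mem_Ioc, Prod.mk.injEq]
  exact ⟨fun ⟨a, h1, h2, h3⟩ => ⟨h2.symm, h3 ▸ h1⟩, fun h => ⟨j, h.2, h.1.symm, rfl⟩⟩

lemma prod_lbits (q : Fin 5 → ℝ) (i : Fin 5) (e : Sym2 V) :
    ∏ b ∈ lbits i e, (1 - q b.2) = ∏ j ∈ Finset.Ioc 0 i, (1 - q j) :=
  Finset.prod_image fun _ _ _ _ h => (Prod.mk.inj h).2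

lemma prob_lev {q : Fin 5 → ℝ} (hq : ∀ j, 0 ≤ q j ∧ q j ≤ 1) : Prob fun b : Bit V => q b.2 :=
  fun b => hq b.2

/-- law of the level `i` configuration -/
lemma PL_lev (q : Fin 5 → ℝ) (i : Fin 5) (f : Finset (Sym2 V) → ℝ) :
    PL q (fun ω => f (lev i ω)) = PE univ (fun _ => plev q i) f := by
  have := PE_or (E := (univ : Finset (Bit V))) (univ : Finset (Sym2 V))
    (fun e => (Finset.Iic i).image fun j => (e, j)) (fun _ _ => Finset.subset_univ _)
    (fun a _ b _ hab => Finset.disjoint_left.2 fun x h1 h2 => by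
      obtain ⟨_, _, rfl⟩ := Finset.mem_image.1 h1
      obtain ⟨_, _, h3⟩ := Finset.mem_image.1 h2
      exact hab (Prod.mk.inj h3).1.symm) (fun b => q b.2) f
  have e : ∀ a : Sym2 V, ∏ b ∈ (Finset.Iic i).image fun j => (a, j), (1 - q b.2) =
      ∏ j ∈ Finset.Iic i, (1 - q j) := fun a =>
    Finset.prod_image fun _ _ _ _ h => (Prod.mk.inj h).2
  simp only [e] at this
  unfold PL plev
  rw [← this]
  refine PE_congr fun ω _ => congrArg f ?_
  ext e; simp [mem_lev]

lemma PL_cl (q : Fin 5 → ℝ) (i : Fin 5) (G : SimpleGraph V) (D : Finset V) (x : V)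
    (F : Finset V → ℝ) :
    PL q (fun ω => F (cl G D (lev i ω) x)) = EC G (fun _ => plev q i) D x F := by
  rw [PL_lev q i fun η => F (cl G D η x), PE_cl (Finset.subset_univ _)]

lemma dep_lev {β : Type} {f : Finset (Sym2 V) → β} {U : Set (Sym2 V)} (hf : DepOn f U)
    (i : Fin 5) : DepOn (fun ω : Finset (Bit V) => f (lev i ω)) {b | b.1 ∈ U ∧ b.2 ≤ i} := by
  intro ω ω' h
  refine hf _ _ fun e he => ?_
  rw [mem_lev, mem_lev]
  exact exists_congr fun j => and_congr_right fun hj => h (e, j) ⟨he, hj⟩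

lemma dep_cl_lev (G : SimpleGraph V) (D : Finset V) (x : V) (i : Fin 5) :
    DepOn (fun ω : Finset (Bit V) => cl G D (lev i ω) x) {b | b.1 ∈ edges G D ∧ b.2 ≤ i} :=
  dep_lev (dep_cl G D x) i

end Pool.Agent.TPC
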